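import Pool.Agent.Lib.MP_6e5bed_ag_PS.Pc
import Pool.Agent.Lib.MP_6e5bed_ag_NC.FBox
import Pool.Agent.Lib.MP_6e5bed_ag_NC.FieldCx

set_option autoImplicit false
set_option linter.unusedVariables false

/-!
# MP_6e5bed_ag, NC PRODUCT SURFACES: tensor products of complexes and of presheaves
-/

noncomputable section

namespace Pool.Agent.MP_6e5bed_ag_PS

open Pool.Agent.MP_6e5bed_ag_NC
open Pool.Agent.MP_6e5bed_ag_NS
open scoped TensorProduct

universe u

variable {k : Type u} [Field k]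

/-- the tensor product of complexes -/
def tenC (X Y : Cx k) : Cx k where
  V := X.V ⊗[k] Y.V
  dg := X.dg.tensor Y.dg

theorem Ten_d {X X' Y Y' : Cx k} (f : CHom X X') (g : CHom Y Y') (x : X.V ⊗[k] Y.V) :
    (X'.dg.tensor Y'.dg).d (TensorProduct.map f.f g.f x) =
      TensorProduct.map f.f g.f ((X.dg.tensor Y.dg).d x) := by
  induction x using TensorProduct.induction_on with
  | zero => rw [map_zero, map_zero, map_zero, map_zero]
  | add x y hx hy => rw [map_add, map_add, map_add, map_add, hx, hy]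
  | tmul a b =>
    rw [TensorProduct.map_tmul, Dg.tensor_d, Dg.tensor_d, map_add, TensorProduct.map_tmul,
      TensorProduct.map_tmul, f.d, g.d, f.s]

/-- the tensor product of morphisms of complexes -/
def tenH {X X' Y Y' : Cx k} (f : CHom X X') (g : CHom Y Y') : CHom (tenC X Y) (tenC X' Y') where
  f := TensorProduct.map f.f g.f
  deg := fun {i x} hx => by
    have h := Dg.tensor_degMap (X := X.dg) (Y := Y.dg) (Z := X'.dg.tensor Y'.dg) (n := 0)
      (TensorProduct.map f.f g.f) (fun i j v w hv hw => by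
        rw [TensorProduct.map_tmul, add_zero]
        exact Dg.tensor_deg (f.deg hv) (g.deg hw)) hx
    rwa [add_zero] at h
  d := Ten_d f g

private theorem Ten_pinv {V : Type u} [AddCommGroup V] [Module k V] (f : V →ₗ[k] V) :
    ∃ g : V →ₗ[k] V, ∀ v, f (g (f v)) = f v := by
  obtain ⟨s, hs⟩ := LinearMap.exists_rightInverse_of_surjective f.rangeRestrict
    (LinearMap.range_rangeRestrict f)
  obtain ⟨g, hg⟩ := LinearMap.exists_extend s
  refine ⟨g, fun v => ?_⟩
  have h1 : g (f v) = s (f.rangeRestrict v) := LinearMap.congr_fun hg (f.rangeRestrict v)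
  have h2 : f.rangeRestrict (s (f.rangeRestrict v)) = f.rangeRestrict v :=
    LinearMap.congr_fun hs (f.rangeRestrict v)
  rw [h1]
  exact congrArg Subtype.val h2

/-- an acyclic complex is contractible -/
private theorem Ten_contr (C : Cx k) (h : ∀ x, C.dg.d x = 0 → ∃ y, C.dg.d y = x) :
    ∃ e : C.V →ₗ[k] C.V, (∀ {i v}, C.dg.IsDeg i v → C.dg.IsDeg (i + -1) (e v)) ∧
      ∀ x, C.dg.d (e x) + e (C.dg.d x) = x := by
  obtain ⟨g, hg⟩ := Ten_pinv C.dg.d
  obtain ⟨e, hdeg, he⟩ := exists_comp C.dg C.dg g (-1)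
  have hded : ∀ v, C.dg.d (e (C.dg.d v)) = C.dg.d v := by
    have h1 : C.dg.d.comp (e.comp C.dg.d) = C.dg.d := C.dg.hom_ext (fun i v hv => by
      rw [LinearMap.comp_apply, LinearMap.comp_apply, he _ _ hv.d, add_neg_cancel_right,
        ← C.dg.ρ_d, hg]
      have h2 : C.dg.ρ (C.dg.d v) = Finsupp.single (i + 1) (C.dg.d v) := hv.d
      rw [h2, Finsupp.single_eq_same])
    exact fun v => LinearMap.congr_fun h1 v
  have hcl : ∀ x, C.dg.d x = 0 → C.dg.d (e x) = x := by
    intro x hx
    obtain ⟨y, rfl⟩ := h x hx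
    exact hded y
  have hall : ∀ x, C.dg.d (e x) - C.dg.d (e (e (C.dg.d x))) + e (C.dg.d x) = x := by
    intro x
    have h1 : C.dg.d (x - e (C.dg.d x)) = 0 := by
      rw [map_sub, hded, sub_self]
    have h2 := hcl _ h1
    rw [map_sub, map_sub] at h2
    rw [h2, sub_add_cancel]
  refine ⟨e - e.comp (e.comp C.dg.d), ?_, ?_⟩
  · intro i m hm
    have h1 := hdeg (hdeg hm.d)
    rw [add_neg_cancel_right] at h1
    exact (hdeg hm).sub h1
  · intro x
    change C.dg.d (e x - e (e (C.dg.d x))) +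
      (e (C.dg.d x) - e (e (C.dg.d (C.dg.d x)))) = x
    rw [C.dg.d_d, map_zero, map_zero, sub_zero, map_sub]
    exact hall x

private theorem Ten_h {X Y : Cx k} (f : CHom X Y) (v : X.V) :
    Y.dg.d (f.f v) = -f.f ((X.dg.shift 1).d v) := by
  rw [Dg.shift_d, sg_one, neg_smul, one_smul, map_neg, neg_neg, f.d]

private theorem Ten_h' {X Y : Cx k} (f : CHom X Y) {i : ℤ} {v : X.V}
    (h : (X.dg.shift 1).IsDeg i v) : Y.dg.IsDeg (i + 1) (f.f v) :=
  f.deg ((Dg.shift_deg X.dg).1 h)

/-- the cone -/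
private def Ten_cone {X Y : Cx k} (f : CHom X Y) : Cx k where
  V := X.V × Y.V
  dg := (X.dg.shift 1).prod Y.dg f.f (Ten_h f) (Ten_h' f)

private theorem Ten_cone_d {X Y : Cx k} (f : CHom X Y) (x : X.V) (y : Y.V) :
    (Ten_cone f).dg.d ((x, y) : X.V × Y.V) = ((-X.dg.d x, f.f x + Y.dg.d y) : X.V × Y.V) := by
  change ((X.dg.shift 1).d x, f.f x + Y.dg.d y) = _
  rw [Dg.shift_d, sg_one, neg_smul, one_smul]

private theorem Ten_cone_s {X Y : Cx k} (f : CHom X Y) (x : X.V) (y : Y.V) :
    (Ten_cone f).dg.s ((x, y) : X.V × Y.V) = ((-X.dg.s x, Y.dg.s y) : X.V × Y.V) := by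
  refine (Dg.prod_s (hδ := Ten_h f) (hδ' := Ten_h' f) x y).trans ?_
  rw [Dg.shift_s, sg_one, neg_smul, one_smul]

/-- homotopy data of a quasi-isomorphism over a field -/
private theorem Ten_htpy {X Y : Cx k} (f : CHom X Y) (hf : f.QI) :
    ∃ (g : Y.V →ₗ[k] X.V) (a : X.V →ₗ[k] X.V) (m : Y.V →ₗ[k] Y.V),
      (∀ y, X.dg.d (g y) = g (Y.dg.d y)) ∧ (∀ y, X.dg.s (g y) = g (Y.dg.s y)) ∧
      (∀ x, X.dg.s (a x) = -a (X.dg.s x)) ∧ (∀ y, Y.dg.s (m y) = -m (Y.dg.s y)) ∧
      (∀ x, X.dg.d (a x) + a (X.dg.d x) = x - g (f.f x)) ∧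
      ∀ y, Y.dg.d (m y) + m (Y.dg.d y) = y - f.f (g y) := by
  have hac : ∀ x, (Ten_cone f).dg.d x = 0 → ∃ y, (Ten_cone f).dg.d y = x := by
    rintro ⟨x, y⟩ h
    have h1 := (Ten_cone_d f x y).symm.trans h
    have h2 : -X.dg.d x = 0 := congrArg Prod.fst h1
    have h3 : f.f x + Y.dg.d y = 0 := congrArg Prod.snd h1
    have hx : X.dg.d x = 0 := neg_eq_zero.1 h2
    obtain ⟨z, hz⟩ := hf.1 x hx ⟨-y, by rw [map_neg]; exact (eq_neg_of_add_eq_zero_left h3).symm⟩
    obtain ⟨x', hx', w, hw⟩ := hf.2 (y + f.f z) (by rw [map_add, f.d, hz, add_comm]; exact h3)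
    refine ⟨((x' - z, w) : X.V × Y.V), ?_⟩
    refine (Ten_cone_d f (x' - z) w).trans ?_
    refine Prod.ext ?_ ?_
    · change -X.dg.d (x' - z) = x
      rw [map_sub, hx', hz, zero_sub, neg_neg]
    · change f.f (x' - z) + Y.dg.d w = y
      rw [hw, map_sub]
      abel
  obtain ⟨e, hdeg, he⟩ := Ten_contr (Ten_cone f) hac
  have hs : ∀ v, (Ten_cone f).dg.s (e v) = -e ((Ten_cone f).dg.s v) := fun v =>
    Dg.s_degMap_odd (n := -1) (by decide) e hdeg v
  let e' : (X.V × Y.V) →ₗ[k] (X.V × Y.V) := e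
  have he' : ∀ x y, e' (x, y) = e' (x, 0) + e' (0, y) := fun x y => by
    rw [← map_add, Prod.mk_add_mk, add_zero, zero_add]
  -- components
  have e1 : ∀ x, ((-X.dg.d (e' (x, 0)).1, f.f (e' (x, 0)).1 + Y.dg.d (e' (x, 0)).2) : X.V × Y.V) +
      e' (-X.dg.d x, f.f x) = (x, 0) := fun x => by
    have h1 := he ((x, 0) : X.V × Y.V)
    have h2 := Ten_cone_d f (e' (x, 0)).1 (e' (x, 0)).2
    have h3 := Ten_cone_d f x 0
    rw [map_zero, add_zero] at h3
    rw [h3] at h1
    exact (congrArg (fun z => z + e' (-X.dg.d x, f.f x)) h2.symm).trans h1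
  have e2 : ∀ y, ((-X.dg.d (e' (0, y)).1, f.f (e' (0, y)).1 + Y.dg.d (e' (0, y)).2) : X.V × Y.V) +
      e' (0, Y.dg.d y) = (0, y) := fun y => by
    have h1 := he ((0, y) : X.V × Y.V)
    have h2 := Ten_cone_d f (e' (0, y)).1 (e' (0, y)).2
    have h3 := Ten_cone_d f 0 y
    rw [map_zero, neg_zero, map_zero, zero_add] at h3
    rw [h3] at h1
    exact (congrArg (fun z => z + e' (0, Y.dg.d y)) h2.symm).trans h1
  have s1 : ∀ x, ((-X.dg.s (e' (x, 0)).1, Y.dg.s (e' (x, 0)).2) : X.V × Y.V) =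
      -e' (-X.dg.s x, 0) := fun x => by
    have h1 := hs ((x, 0) : X.V × Y.V)
    have h2 := Ten_cone_s f (e' (x, 0)).1 (e' (x, 0)).2
    have h3 := Ten_cone_s f x 0
    rw [map_zero] at h3
    rw [h3] at h1
    exact h2.symm.trans h1
  have s2 : ∀ y, ((-X.dg.s (e' (0, y)).1, Y.dg.s (e' (0, y)).2) : X.V × Y.V) =
      -e' (0, Y.dg.s y) := fun y => by
    have h1 := hs ((0, y) : X.V × Y.V)
    have h2 := Ten_cone_s f (e' (0, y)).1 (e' (0, y)).2
    have h3 := Ten_cone_s f 0 y
    rw [map_zero, neg_zero] at h3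
    rw [h3] at h1
    exact h2.symm.trans h1
  have hn : ∀ x, e' (-x, 0) = -e' (x, 0) := fun x => by
    rw [← map_neg, Prod.neg_mk, neg_zero]
  refine ⟨LinearMap.fst k X.V Y.V ∘ₗ e' ∘ₗ LinearMap.inr k X.V Y.V,
    -(LinearMap.fst k X.V Y.V ∘ₗ e' ∘ₗ LinearMap.inl k X.V Y.V),
    LinearMap.snd k X.V Y.V ∘ₗ e' ∘ₗ LinearMap.inr k X.V Y.V, ?_, ?_, ?_, ?_, ?_, ?_⟩
  · intro y
    change X.dg.d (e' (0, y)).1 = (e' (0, Y.dg.d y)).1
    have h1 : -X.dg.d (e' (0, y)).1 + (e' (0, Y.dg.d y)).1 = 0 := congrArg Prod.fst (e2 y)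
    exact (neg_add_eq_zero.1 h1)
  · intro y
    change X.dg.s (e' (0, y)).1 = (e' (0, Y.dg.s y)).1
    have h1 : -X.dg.s (e' (0, y)).1 = -(e' (0, Y.dg.s y)).1 := congrArg Prod.fst (s2 y)
    exact neg_injective h1
  · intro x
    change X.dg.s (-(e' (x, 0)).1) = - -(e' (X.dg.s x, 0)).1
    have h1 : -X.dg.s (e' (x, 0)).1 = -(e' (-X.dg.s x, 0)).1 := congrArg Prod.fst (s1 x)
    rw [map_neg, h1, hn]
    rfl
  · intro y
    change Y.dg.s (e' (0, y)).2 = -(e' (0, Y.dg.s y)).2
    exact congrArg Prod.snd (s2 y)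
  · intro x
    change X.dg.d (-(e' (x, 0)).1) + -(e' (X.dg.d x, 0)).1 = x - (e' (0, f.f x)).1
    have h0 := e1 x
    rw [he' (-X.dg.d x) (f.f x), hn] at h0
    have h1 : -X.dg.d (e' (x, 0)).1 + (-(e' (X.dg.d x, 0)).1 + (e' (0, f.f x)).1) = x :=
      congrArg Prod.fst h0
    rw [map_neg, eq_sub_iff_add_eq, add_assoc]
    exact h1
  · intro y
    change Y.dg.d (e' (0, y)).2 + (e' (0, Y.dg.d y)).2 = y - f.f (e' (0, y)).1
    have h1 : f.f (e' (0, y)).1 + Y.dg.d (e' (0, y)).2 + (e' (0, Y.dg.d y)).2 = y :=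
      congrArg Prod.snd (e2 y)
    rw [eq_sub_iff_add_eq]
    refine Eq.trans ?_ h1
    abel

private theorem Ten_qi {X Y : Cx k} (f : CHom X Y) (g : Y.V →ₗ[k] X.V) (a : X.V →ₗ[k] X.V)
    (m : Y.V →ₗ[k] Y.V) (hg : ∀ y, X.dg.d (g y) = g (Y.dg.d y))
    (ha : ∀ x, X.dg.d (a x) + a (X.dg.d x) = x - g (f.f x))
    (hm : ∀ y, Y.dg.d (m y) + m (Y.dg.d y) = y - f.f (g y)) : f.QI := by
  refine ⟨fun x hx h => ?_, fun y hy => ⟨g y, by rw [hg, hy, map_zero], m y, ?_⟩⟩
  · obtain ⟨y, hy⟩ := h
    refine ⟨a x + g y, ?_⟩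
    have h1 := ha x
    rw [hx, map_zero, add_zero] at h1
    rw [map_add, h1, hg, hy, sub_add_cancel]
  · have h1 := hm y
    rwa [hy, map_zero, add_zero] at h1

private theorem Ten_qi_congr {X Y : Cx k} {f f' : CHom X Y} (h : ∀ x, f.f x = f'.f x)
    (hf : f.QI) : f'.QI := by
  refine ⟨fun x hx hy => ?_, fun y hy => ?_⟩
  · rw [← h] at hy
    exact hf.1 x hx hy
  · obtain ⟨x, hx, z, hz⟩ := hf.2 y hy
    exact ⟨x, hx, z, by rw [hz, h]⟩

private theorem Ten_left {X Y Z : Cx k} {f : CHom X Y} (hf : f.QI) :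
    (tenH f (CHom.id Z)).QI := by
  obtain ⟨g, a, m, hg, hgs, has, hms, ha, hm⟩ := Ten_htpy f hf
  refine Ten_qi (tenH f (CHom.id Z)) (TensorProduct.map g LinearMap.id)
    (TensorProduct.map a LinearMap.id) (TensorProduct.map m LinearMap.id) ?_ ?_ ?_
  · intro t
    change (X.dg.tensor Z.dg).d (TensorProduct.map g LinearMap.id t) =
      TensorProduct.map g LinearMap.id ((Y.dg.tensor Z.dg).d t)
    refine TensorProduct.induction_on (motive := fun t : Y.V ⊗[k] Z.V =>
      (X.dg.tensor Z.dg).d (TensorProduct.map g LinearMap.id t) =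
      TensorProduct.map g LinearMap.id ((Y.dg.tensor Z.dg).d t)) t ?_ ?_ ?_
    · rw [map_zero, map_zero, map_zero, map_zero]
    · intro y z
      rw [TensorProduct.map_tmul, Dg.tensor_d, Dg.tensor_d, map_add, TensorProduct.map_tmul,
        TensorProduct.map_tmul, hg, hgs]
      rfl
    · intro s t hs ht
      rw [map_add, map_add, map_add, map_add, hs, ht]
  · intro t
    refine TensorProduct.induction_on (motive := fun t : X.V ⊗[k] Z.V =>
      (X.dg.tensor Z.dg).d (TensorProduct.map a LinearMap.id t) +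
      TensorProduct.map a LinearMap.id ((X.dg.tensor Z.dg).d t) =
      t - TensorProduct.map g LinearMap.id (TensorProduct.map f.f LinearMap.id t)) t ?_ ?_ ?_
    · simp only [map_zero, add_zero, sub_zero]
    · intro x z
      rw [TensorProduct.map_tmul, Dg.tensor_d, Dg.tensor_d, map_add, TensorProduct.map_tmul,
        TensorProduct.map_tmul, TensorProduct.map_tmul, TensorProduct.map_tmul, has]
      simp only [LinearMap.id_apply]
      rw [← TensorProduct.sub_tmul, ← ha, TensorProduct.add_tmul, TensorProduct.neg_tmul]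
      abel
    · intro s t hs ht
      simp only [map_add]
      rw [add_sub_add_comm, ← hs, ← ht]
      abel
  · intro t
    refine TensorProduct.induction_on (motive := fun t : Y.V ⊗[k] Z.V =>
      (Y.dg.tensor Z.dg).d (TensorProduct.map m LinearMap.id t) +
      TensorProduct.map m LinearMap.id ((Y.dg.tensor Z.dg).d t) =
      t - TensorProduct.map f.f LinearMap.id (TensorProduct.map g LinearMap.id t)) t ?_ ?_ ?_
    · simp only [map_zero, add_zero, sub_zero]
    · intro x z
      rw [TensorProduct.map_tmul, Dg.tensor_d, Dg.tensor_d, map_add, TensorProduct.map_tmul,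
        TensorProduct.map_tmul, TensorProduct.map_tmul, TensorProduct.map_tmul, hms]
      simp only [LinearMap.id_apply]
      rw [← TensorProduct.sub_tmul, ← hm, TensorProduct.add_tmul, TensorProduct.neg_tmul]
      abel
    · intro s t hs ht
      simp only [map_add]
      rw [add_sub_add_comm, ← hs, ← ht]
      abel

private theorem Ten_right {X Y Z : Cx k} {f : CHom X Y} (hf : f.QI) :
    (tenH (CHom.id Z) f).QI := by
  obtain ⟨g, a, m, hg, hgs, has, hms, ha, hm⟩ := Ten_htpy f hf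
  refine Ten_qi (tenH (CHom.id Z) f) (TensorProduct.map LinearMap.id g)
    (TensorProduct.map Z.dg.s a) (TensorProduct.map Z.dg.s m) ?_ ?_ ?_
  · intro t
    change (Z.dg.tensor X.dg).d (TensorProduct.map LinearMap.id g t) =
      TensorProduct.map LinearMap.id g ((Z.dg.tensor Y.dg).d t)
    refine TensorProduct.induction_on (motive := fun t : Z.V ⊗[k] Y.V =>
      (Z.dg.tensor X.dg).d (TensorProduct.map LinearMap.id g t) =
      TensorProduct.map LinearMap.id g ((Z.dg.tensor Y.dg).d t)) t ?_ ?_ ?_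
    · rw [map_zero, map_zero, map_zero, map_zero]
    · intro y z
      rw [TensorProduct.map_tmul, Dg.tensor_d, Dg.tensor_d, map_add, TensorProduct.map_tmul,
        TensorProduct.map_tmul, hg]
      rfl
    · intro s t hs ht
      rw [map_add, map_add, map_add, map_add, hs, ht]
  · intro t
    refine TensorProduct.induction_on (motive := fun t : Z.V ⊗[k] X.V =>
      (Z.dg.tensor X.dg).d (TensorProduct.map Z.dg.s a t) +
      TensorProduct.map Z.dg.s a ((Z.dg.tensor X.dg).d t) =
      t - TensorProduct.map LinearMap.id g (TensorProduct.map LinearMap.id f.f t)) t ?_ ?_ ?_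
    · simp only [map_zero, add_zero, sub_zero]
    · intro x z
      rw [TensorProduct.map_tmul, Dg.tensor_d, Dg.tensor_d, map_add, TensorProduct.map_tmul,
        TensorProduct.map_tmul, TensorProduct.map_tmul, TensorProduct.map_tmul, Dg.s_s, Dg.s_d]
      simp only [LinearMap.id_apply]
      rw [← TensorProduct.tmul_sub, ← ha, TensorProduct.tmul_add, TensorProduct.neg_tmul]
      abel
    · intro s t hs ht
      simp only [map_add]
      rw [add_sub_add_comm, ← hs, ← ht]
      abel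
  · intro t
    refine TensorProduct.induction_on (motive := fun t : Z.V ⊗[k] Y.V =>
      (Z.dg.tensor Y.dg).d (TensorProduct.map Z.dg.s m t) +
      TensorProduct.map Z.dg.s m ((Z.dg.tensor Y.dg).d t) =
      t - TensorProduct.map LinearMap.id f.f (TensorProduct.map LinearMap.id g t)) t ?_ ?_ ?_
    · simp only [map_zero, add_zero, sub_zero]
    · intro x z
      rw [TensorProduct.map_tmul, Dg.tensor_d, Dg.tensor_d, map_add, TensorProduct.map_tmul,
        TensorProduct.map_tmul, TensorProduct.map_tmul, TensorProduct.map_tmul, Dg.s_s, Dg.s_d]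
      simp only [LinearMap.id_apply]
      rw [← TensorProduct.tmul_sub, ← hm, TensorProduct.tmul_add, TensorProduct.neg_tmul]
      abel
    · intro s t hs ht
      simp only [map_add]
      rw [add_sub_add_comm, ← hs, ← ht]
      abel

/-- KÜNNETH: tensor products over a field preserve quasi-isomorphisms.

PROOF. `tenH f g` is the composition of `tenH f (id)` and `tenH (id) g`, so by `CHom.QI.comp` it is
enough to treat `g = id` (and `f = id`; the two cases are symmetric). Regard a complex `X` as a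
bimodule `bim X : Bim (base k) (base k)` (`base k = ring k k`, the actions are the scalar
multiplications; compare `contr_of_acyc` in `Lib/MP_6e5bed_ag_NC/FieldCx.lean`: an acyclic bimodule
over `base k` is contractible). A quasi-isomorphism `f` of such bimodules is closed, its cone is
acyclic, hence contractible, hence `f` is a homotopy equivalence (`HtpyEq`; compare `bcHtpy` in
`Lib/MP_6e5bed_ag_NS/BaseC.lean`, `IsCone.htpyEq`). Homotopy equivalences are preserved by the dg
functor `box - N` (`Lib/MP_6e5bed_ag_NC/FBox.lean`, `HtpyEq.map`), and `HtpyEq.qiso` gives the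
conclusion: the underlying complex of `box (bim X) (bim Y)` is `tenC X Y`.

Direct proof without bimodules: it is enough that `tenC X Y` is acyclic if `X` (or `Y`) is acyclic,
and to apply this to the mapping cone; for `X` acyclic take `e : X.V → X.V` of degree `-1` with
`d e + e d = 1` (as in `contr_of_acyc`: `exists_comp`), then `e s + s e = 0` and `e ⊗ 1` is a
contraction of `tenC X Y` (`d = d ⊗ 1 + s ⊗ d`); for `Y` acyclic take `s ⊗ e`. -/
theorem tenH_qi {X X' Y Y' : Cx k} {f : CHom X X'} {g : CHom Y Y'} (hf : f.QI) (hg : g.QI) :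
    (tenH f g).QI := by
  refine Ten_qi_congr (f := (tenH f (CHom.id Y)).comp (tenH (CHom.id X') g)) ?_
    ((Ten_left hf).comp (Ten_right hg))
  intro x
  change TensorProduct.map LinearMap.id g.f (TensorProduct.map f.f LinearMap.id x) =
    TensorProduct.map f.f g.f x
  rw [← LinearMap.comp_apply, ← TensorProduct.map_comp, LinearMap.id_comp, LinearMap.comp_id]

/-- Tensor products of quasi-isomorphisms of dg algebras. -/
theorem dqi_tensor {A A' B B' : DGA k} {f : DHom A A'} {g : DHom B B'} (hf : DQI f) (hg : DQI g) :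
    DQI (f.tensor g) :=
  tenH_qi (f := dch f) (g := dch g) hf hg

/-- the tensor product of presheaves of complexes -/
def tenP (V W : PC k) : PC k where
  X := fun c => tenC (V.X c) (W.X c)
  ρ := fun h => tenH (V.ρ h) (W.ρ h)
  ρ_id := fun {c} h x => by
    change TensorProduct.map (V.ρ h).f (W.ρ h).f x = x
    have h1 : (V.ρ h).f = LinearMap.id := LinearMap.ext (V.ρ_id h)
    have h2 : (W.ρ h).f = LinearMap.id := LinearMap.ext (W.ρ_id h)
    rw [h1, h2, TensorProduct.map_id]
    rfl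
  ρ_ρ := fun {c d e} h h' x => by
    change TensorProduct.map (V.ρ h').f (W.ρ h').f (TensorProduct.map (V.ρ h).f (W.ρ h).f x) =
      TensorProduct.map (V.ρ (h.trans h')).f (W.ρ (h.trans h')).f x
    have h1 : (V.ρ (h.trans h')).f = (V.ρ h').f ∘ₗ (V.ρ h).f :=
      LinearMap.ext fun x => (V.ρ_ρ h h' x).symm
    have h2 : (W.ρ (h.trans h')).f = (W.ρ h').f ∘ₗ (W.ρ h).f :=
      LinearMap.ext fun x => (W.ρ_ρ h h' x).symm
    rw [h1, h2, TensorProduct.map_comp]
    rfl

/-- the tensor product of morphisms of presheaves -/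
def PCH.ten {V V' W W' : PC k} (f : PCH V V') (g : PCH W W') : PCH (tenP V W) (tenP V' W') where
  f := fun c => tenH (f.f c) (g.f c)
  nat := fun {c d} h x => by
    change TensorProduct.map (V'.ρ h).f (W'.ρ h).f (TensorProduct.map (f.f c).f (g.f c).f x) =
      TensorProduct.map (f.f d).f (g.f d).f (TensorProduct.map (V.ρ h).f (W.ρ h).f x)
    have h1 : (V'.ρ h).f ∘ₗ (f.f c).f = (f.f d).f ∘ₗ (V.ρ h).f := LinearMap.ext fun x => f.nat h x
    have h2 : (W'.ρ h).f ∘ₗ (g.f c).f = (g.f d).f ∘ₗ (W.ρ h).f := LinearMap.ext fun x => g.nat h x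
    rw [← LinearMap.comp_apply, ← LinearMap.comp_apply, ← TensorProduct.map_comp,
      ← TensorProduct.map_comp, h1, h2]

/-- the tensor product of constant augmentations -/
def PCC.ten {X Y : Cx k} {V W : PC k} (f : PCC X V) (g : PCC Y W) : PCC (tenC X Y) (tenP V W) where
  f := fun c => tenH (f.f c) (g.f c)
  nat := fun {c d} h x => by
    change TensorProduct.map (V.ρ h).f (W.ρ h).f (TensorProduct.map (f.f c).f (g.f c).f x) =
      TensorProduct.map (f.f d).f (g.f d).f x
    have h1 : (f.f d).f = (V.ρ h).f ∘ₗ (f.f c).f := LinearMap.ext fun x => (f.nat h x).symm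
    have h2 : (g.f d).f = (W.ρ h).f ∘ₗ (g.f c).f := LinearMap.ext fun x => (g.nat h x).symm
    rw [h1, h2, TensorProduct.map_comp]
    rfl

/-- the tensor product of presheaves of dg algebras -/
def PA.ten (A B : PA k) : PA k where
  A := fun c => (A.A c).tensor (B.A c)
  r := fun h => (A.r h).tensor (B.r h)
  r_id := (tenP A.pc B.pc).ρ_id
  r_r := (tenP A.pc B.pc).ρ_ρ

theorem PA.ten_pc (A B : PA k) : (PA.ten A B).pc = tenP A.pc B.pc := rfl

/-- the tensor product of morphisms -/
def PAH.ten {A A' B B' : PA k} (f : PAH A A') (g : PAH B B') : PAH (PA.ten A B) (PA.ten A' B') where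
  f := fun c => (f.f c).tensor (g.f c)
  nat := fun {c d} h x => by
    change TensorProduct.map (A'.r h).f (B'.r h).f (TensorProduct.map (f.f c).f (g.f c).f x) =
      TensorProduct.map (f.f d).f (g.f d).f (TensorProduct.map (A.r h).f (B.r h).f x)
    have h1 : (A'.r h).f ∘ₗ (f.f c).f = (f.f d).f ∘ₗ (A.r h).f := LinearMap.ext fun x => f.nat h x
    have h2 : (B'.r h).f ∘ₗ (g.f c).f = (g.f d).f ∘ₗ (B.r h).f := LinearMap.ext fun x => g.nat h x
    rw [← LinearMap.comp_apply, ← LinearMap.comp_apply, ← TensorProduct.map_comp,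
      ← TensorProduct.map_comp, h1, h2]

/-- the tensor product of constant augmentations -/
def PAC.ten {A B : DGA k} {A' B' : PA k} (f : PAC A A') (g : PAC B B') :
    PAC (A.tensor B) (PA.ten A' B') where
  f := fun c => (f.f c).tensor (g.f c)
  nat := (f.pcc.ten g.pcc).nat

theorem PAC.ten_pcc {A B : DGA k} {A' B' : PA k} (f : PAC A A') (g : PAC B B') :
    (f.ten g).pcc = f.pcc.ten g.pcc := rfl

end Pool.Agent.MP_6e5bed_ag_PS
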