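import Pool.Agent.Lib.MP_6e5bed_ag_CV.LSpD

set_option autoImplicit false

/-!
# MP_6e5bed_ag, NC PRODUCT SURFACES, block F: subfields as function fields of curves
-/

noncomputable section

namespace Pool.Agent.MP_6e5bed_ag_PS

open Pool.Agent.MP_6e5bed_ag_NC
open scoped TensorProduct

universe u

/-- PROOF. `L := ↥F` with the `RatFunc k`-algebra structure given by the isomorphism
`RatFunc k ≃ₐ[k] k(s)` (`RatFunc.algEquivOfTranscendental`, or lift of `Polynomial.aeval s`) and the
inclusion `k(s) ⊆ F`; the `k`-algebra structure of `F` (restriction of scalars). Finite and separable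
because `F` is so over `k(s)` (transport along the isomorphism:
`Algebra.IsSeparable.of_equiv_equiv`, `Module.Finite.of_equiv_equiv`), `j` the inclusion. -/
theorem exists_FExt {k : Type u} [Field k] {Ω : Type u} [Field Ω] [Algebra k Ω] {s : Ω}
    (hs : Transcendental k s)
    (F : IntermediateField (IntermediateField.adjoin k {s}) Ω)
    [FiniteDimensional (IntermediateField.adjoin k {s}) F]
    [Algebra.IsSeparable (IntermediateField.adjoin k {s}) F] :
    ∃ (D : FExt k) (j : D.L →ₐ[k] Ω), Set.range j = (F : Set Ω) ∧
      j (algebraMap (RatFunc k) D.L RatFunc.X) = s := by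
  obtain ⟨e, he⟩ : ∃ e : RatFunc k ≃ₐ[k] IntermediateField.adjoin k {s},
      ((e RatFunc.X : IntermediateField.adjoin k {s}) : Ω) = s :=
    ⟨RatFunc.algEquivOfTranscendental s hs, RatFunc.algEquivOfTranscendental_X s hs⟩
  let algK : Algebra (RatFunc k) F :=
    ((algebraMap (IntermediateField.adjoin k {s}) F).comp (e : RatFunc k →+* _)).toAlgebra
  have hK : ∀ x : RatFunc k, algebraMap (RatFunc k) F x =
    algebraMap (IntermediateField.adjoin k {s}) F (e x) := fun x => rfl
  have tow : IsScalarTower k (RatFunc k) F := IsScalarTower.of_algebraMap_eq fun x => by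
    rw [hK, e.commutes]
    rfl
  have hc : RingHom.comp (algebraMap (RatFunc k) F) (e.symm.toRingEquiv :
      IntermediateField.adjoin k {s} →+* RatFunc k) =
      RingHom.comp (RingEquiv.refl F : F →+* F)
        (algebraMap (IntermediateField.adjoin k {s}) F) := by
    ext x
    change ((algebraMap (RatFunc k) F (e.symm x) : F) : Ω) = _
    rw [hK, e.apply_symm_apply]
    rfl
  have fin : FiniteDimensional (RatFunc k) F :=
    Module.Finite.of_equiv_equiv e.symm.toRingEquiv (RingEquiv.refl F) hc
  have sep : Algebra.IsSeparable (RatFunc k) F :=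
    Algebra.IsSeparable.of_equiv_equiv e.symm.toRingEquiv (RingEquiv.refl F) hc
  refine ⟨⟨F⟩, F.val.restrictScalars k, ?_, ?_⟩
  · exact Subtype.range_coe
  · change ((algebraMap (RatFunc k) F RatFunc.X : F) : Ω) = s
    rw [hK]
    exact he

end Pool.Agent.MP_6e5bed_ag_PS
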