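import Pool.Agent.Lib.MP_6e5bed_ag_PS.Dist
import Pool.Agent.Lib.MP_6e5bed_ag_CV.Ses
import Pool.Agent.Lib.MP_6e5bed_ag_CV.RTb

set_option autoImplicit false
set_option linter.unusedVariables false

/-!
# MP_6e5bed_ag, NC PRODUCT SURFACES: tensor products with perfect bimodules
-/

noncomputable section

namespace Pool.Agent.MP_6e5bed_ag_PS

open Pool.Agent.MP_6e5bed_ag_NC
open Pool.Agent.MP_6e5bed_ag_NS
open scoped TensorProduct

universe u

variable {k : Type u} [Field k] {A B W : DGA k}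

/-- a closed map of bimodules as a morphism of complexes -/
def gc {M N : Bim A B} (f : GMap 0 M N) (h : f.dd = 0) : CHom (bcx M) (bcx N) where
  f := f.f
  deg := fun {i x} hx => by
    have h1 := f.deg hx
    rw [add_zero] at h1
    exact h1
  d := GMap.d_f_zero h

theorem gc_qi {M N : Bim A B} (f : GMap 0 M N) (h : f.dd = 0) : (gc f h).QI ↔ QIso f :=
  ⟨fun q => ⟨h, q⟩, fun q => q.2⟩

/-- PROOF. `MP_6e5bed_ag_NC.tbR` is a dg functor (`DGFun.closed`). -/
theorem tbR_dd {M N : Bim A W} (f : GMap 0 M N) (h : f.dd = 0) (Z : Bim W B) :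
    (f.tbR Z).dd = 0 := (MP_6e5bed_ag_NC.tbR A Z).closed h

private theorem DistTb_d {M1 M2 C : Bim A B} {i : GMap 0 M1 M2} {t : GMap (-1) M1 C}
    {j : GMap 0 M2 C} (hj : j.dd = 0) (ht : ∀ x, t.dd x = j.f (i.f x)) (x1 : M1.M) (x2 : M2.M) :
    C.dg.d (t.f x1 + j.f x2) = t.f (- M1.dg.d x1) + j.f (i.f x1 + M2.dg.d x2) := by
  have h1 := ht x1
  rw [GMap.dd_apply, sg_neg, sg_one, neg_smul, one_smul, sub_neg_eq_add] at h1
  rw [map_add, GMap.d_f_zero hj, map_add, ← h1, map_neg]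
  abel

private theorem DistTb_dist {M1 M2 M3 C : Bim A B} (i : GMap 0 M1 M2) (p : GMap 0 M2 M3)
    (hi : i.dd = 0) (hp : p.dd = 0) (hz : ∀ x, p.f (i.f x) = 0)
    (t : GMap (-1) M1 C) (j : GMap 0 M2 C) (r : GMap 1 C M1) (s : GMap 0 C M2)
    (hj : j.dd = 0) (ht : ∀ x, t.dd x = j.f (i.f x)) (hrt : ∀ x, r.f (t.f x) = x)
    (hsj : ∀ y, s.f (j.f y) = y) (hrj : ∀ y, r.f (j.f y) = 0) (hst : ∀ x, s.f (t.f x) = 0)
    (hsum : ∀ c, t.f (r.f c) + j.f (s.f c) = c)
    (hq : QIso (s.comp p (add_zero 0))) : Dist (gc i hi) (gc p hp) := by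
  have hr : ∀ x1 x2, r.f (t.f x1 + j.f x2) = x1 := fun x1 x2 => by
    rw [map_add, hrt, hrj, add_zero]
  have hs : ∀ x1 x2, s.f (t.f x1 + j.f x2) = x2 := fun x1 x2 => by
    rw [map_add, hst, hsj, zero_add]
  have hqf : ∀ c, (s.comp p (add_zero 0)).f c = p.f (s.f c) := fun c => rfl
  refine ⟨hz, ?_, ?_⟩
  · intro x1 x2 x3 e1 e2 e3
    change M1.dg.d x1 = 0 at e1
    change i.f x1 + M2.dg.d x2 = 0 at e2
    change p.f x2 = M3.dg.d x3 at e3
    obtain ⟨e, he⟩ := hq.2.1 (t.f x1 + j.f x2)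
      (by rw [DistTb_d hj ht, e1, e2, neg_zero, map_zero, map_zero, add_zero])
      ⟨x3, by rw [hqf, hs, e3]⟩
    refine ⟨r.f e, s.f e, ?_, ?_⟩
    · change x1 = - M1.dg.d (r.f e)
      have h1 := congrArg r.f he
      rw [hr] at h1
      rw [← h1]
      conv_lhs => rw [← hsum e]
      rw [DistTb_d hj ht, hr]
    · change x2 = i.f (r.f e) + M2.dg.d (s.f e)
      have h1 := congrArg s.f he
      rw [hs] at h1
      rw [← h1]
      conv_lhs => rw [← hsum e]
      rw [DistTb_d hj ht, hs]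
  · intro x3 hx3
    obtain ⟨c, hc, z, hz'⟩ := hq.2.2 x3 hx3
    rw [← hsum c, DistTb_d hj ht] at hc
    refine ⟨r.f c, s.f c, z, ?_, ?_, ?_⟩
    · change M1.dg.d (r.f c) = 0
      have h1 := congrArg r.f hc
      rw [hr, map_zero, neg_eq_zero] at h1
      exact h1
    · change i.f (r.f c) + M2.dg.d (s.f c) = 0
      have h1 := congrArg s.f hc
      rw [hs, map_zero] at h1
      exact h1
    · change x3 = p.f (s.f c) + M3.dg.d z
      rw [hz', hqf, add_sub_cancel]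

private theorem DistTb_qiso {M1 M2 M3 C : Bim A B} (i : GMap 0 M1 M2) (p : GMap 0 M2 M3)
    (hi : i.dd = 0) (hp : p.dd = 0) (h1 : Function.Injective i.f) (h2 : Function.Surjective p.f)
    (h3 : ∀ x, p.f x = 0 ↔ ∃ y, i.f y = x)
    (t : GMap (-1) M1 C) (j : GMap 0 M2 C) (r : GMap 1 C M1) (s : GMap 0 C M2)
    (hj : j.dd = 0) (ht : ∀ x, t.dd x = j.f (i.f x)) (hrt : ∀ x, r.f (t.f x) = x)
    (hsj : ∀ y, s.f (j.f y) = y) (hrj : ∀ y, r.f (j.f y) = 0) (hst : ∀ x, s.f (t.f x) = 0)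
    (hsum : ∀ c, t.f (r.f c) + j.f (s.f c) = c) : QIso (s.comp p (add_zero 0)) := by
  have hr : ∀ x1 x2, r.f (t.f x1 + j.f x2) = x1 := fun x1 x2 => by
    rw [map_add, hrt, hrj, add_zero]
  have hs : ∀ x1 x2, s.f (t.f x1 + j.f x2) = x2 := fun x1 x2 => by
    rw [map_add, hst, hsj, zero_add]
  have hz : ∀ x, p.f (i.f x) = 0 := fun x => (h3 _).2 ⟨x, rfl⟩
  have hdi : ∀ x, M2.dg.d (i.f x) = i.f (M1.dg.d x) := fun x => GMap.d_f_zero hi x
  have hdp : ∀ x, M3.dg.d (p.f x) = p.f (M2.dg.d x) := fun x => GMap.d_f_zero hp x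
  have hqf : ∀ c, (s.comp p (add_zero 0)).f c = p.f (s.f c) := fun c => rfl
  refine ⟨LinearMap.ext fun c => ?_, ?_, ?_⟩
  · rw [GMap.dd_apply, sg_zero, one_smul, LinearMap.zero_apply, hqf, hqf]
    have h4 : s.f (C.dg.d c) = i.f (r.f c) + M2.dg.d (s.f c) := by
      conv_lhs => rw [← hsum c]
      rw [DistTb_d hj ht, hs]
    rw [h4, map_add, hz, zero_add, hdp, sub_self]
  · rintro c hc ⟨y, hy⟩
    rw [← hsum c, DistTb_d hj ht] at hc
    rw [hqf] at hy
    have e1 : M1.dg.d (r.f c) = 0 := by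
      have h1 := congrArg r.f hc
      rw [hr, map_zero, neg_eq_zero] at h1
      exact h1
    have e2 : i.f (r.f c) + M2.dg.d (s.f c) = 0 := by
      have h1 := congrArg s.f hc
      rw [hs, map_zero] at h1
      exact h1
    obtain ⟨m1, hm1⟩ := h2 y
    obtain ⟨x1, hx1⟩ := (h3 (s.f c - M2.dg.d m1)).1 (by rw [map_sub, ← hdp, hm1, hy, sub_self])
    have e3 : M1.dg.d x1 = - r.f c := by
      apply h1
      rw [← hdi, hx1, map_sub, M2.dg.d_d, sub_zero, map_neg]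
      exact (neg_eq_of_add_eq_zero_right e2).symm
    refine ⟨t.f x1 + j.f m1, ?_⟩
    rw [DistTb_d hj ht, e3, neg_neg, hx1, sub_add_cancel, hsum]
  · intro y hy
    obtain ⟨m, hm⟩ := h2 y
    obtain ⟨x0, hx0⟩ := (h3 (M2.dg.d m)).1 (by rw [← hdp, hm, hy])
    have e1 : M1.dg.d x0 = 0 := by
      apply h1
      rw [← hdi, hx0, M2.dg.d_d, map_zero]
    refine ⟨t.f (- x0) + j.f m, ?_, 0, ?_⟩
    · rw [DistTb_d hj ht, map_neg i.f, map_neg M1.dg.d, e1, hx0, neg_zero, neg_zero,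
        neg_add_cancel, map_zero, map_zero, add_zero]
    · rw [hqf, hs, hm, map_zero, sub_self]

/-- A short exact sequence stays distinguished after the tensor product with a perfect bimodule.

PROOF. Let `C = cone i`, `q : C → M3`, `(x, y) ↦ p y`; it is a closed map of bimodules and a
quasi-isomorphism (see the proof of `IsSes.cone`). By `RQIso.tbR ((rqiso_iff q).2 hq) hZ` the map
`q.tbR Z : tb C Z → tb M3 Z` is a quasi-isomorphism. There are maps `t : M1 → C`, `x ↦ (x, 0)`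
(degree `-1`), `j : M2 → C`, `y ↦ (0, y)`, `r : C → M1` (degree `1`), `s : C → M2` with
`t r + j s = id`, `r t = id`, `s j = id`, `r j = 0`, `s t = 0`, `d t x = j (i x) - t (d x)`,
`q j = p`, `q t = 0`. The dg functor `tbR A Z` preserves all these identities (`DGFun.map_add`,
`map_comp`, `map_id`, `map_D`, see the proof of `DGFun.isCone`). So an element of `tb C Z` is
`T x1 + J x2` with `x1 ∈ tb M1 Z`, `x2 ∈ tb M2 Z`, with
`d (T x1 + J x2) = T (- d x1) + J (i x1 + d x2)` (`i` for `i.tbR Z`), and its image in `tb M3 Z` is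
`p x2`. So the two conditions of `Dist` say that `q.tbR Z` is a quasi-isomorphism. -/
theorem dist_tb {M1 M2 M3 : Bim A W} (i : GMap 0 M1 M2) (p : GMap 0 M2 M3) (hi : i.dd = 0)
    (hp : p.dd = 0) (h1 : Function.Injective i.f) (h2 : Function.Surjective p.f)
    (h3 : ∀ x, p.f x = 0 ↔ ∃ y, i.f y = x) {Z : Bim W B} (hZ : Perf Z) :
    Dist (gc (i.tbR Z) (tbR_dd i hi Z)) (gc (p.tbR Z) (tbR_dd p hp Z)) := by
  have hz : ∀ x, p.f (i.f x) = 0 := fun x => (h3 _).2 ⟨x, rfl⟩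
  obtain ⟨t, j, r, s, hr, hj, ht, hrt, hsj, hrj, hst, hsum⟩ := isCone_cone i hi
  have hq : QIso (s.comp p (add_zero 0)) :=
    DistTb_qiso i p hi hp h1 h2 h3 t j r s hj ht hrt hsj hrj hst hsum
  have hqT : QIso ((s.comp p (add_zero 0)).tbR Z) := (RQIso.tbR ((rqiso_iff _).2 hq) hZ).qiso
  have he : (s.comp p (add_zero 0)).tbR Z = (s.tbR Z).comp (p.tbR Z) (add_zero 0) :=
    GMap.ext ((MP_6e5bed_ag_NC.tbR A Z).map_comp s p (add_zero 0))
  rw [he] at hqT
  refine DistTb_dist (i.tbR Z) (p.tbR Z) _ _ ((MP_6e5bed_ag_NC.tbR A Z).map_comp_zero hz)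
    (t.tbR Z) (j.tbR Z) (r.tbR Z) (s.tbR Z) ((MP_6e5bed_ag_NC.tbR A Z).closed hj) ?_
    ((MP_6e5bed_ag_NC.tbR A Z).map_inv (neg_add_cancel 1) hrt)
    ((MP_6e5bed_ag_NC.tbR A Z).map_inv (add_zero 0) hsj)
    ((MP_6e5bed_ag_NC.tbR A Z).map_comp_zero hrj)
    ((MP_6e5bed_ag_NC.tbR A Z).map_comp_zero hst) ?_ hqT
  · intro x
    have e1 := (MP_6e5bed_ag_NC.tbR A Z).map_D t (neg_add_cancel 1) x
    have e2 := (MP_6e5bed_ag_NC.tbR A Z).map_comp i j (add_zero 0) x
    have e3 : t.D (neg_add_cancel 1) = i.comp j (add_zero 0) := GMap.ext ht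
    rw [e3] at e1
    exact e1.symm.trans e2
  · intro x
    have e1 := (MP_6e5bed_ag_NC.tbR A Z).map_comp r t (add_neg_cancel 1) x
    have e2 := (MP_6e5bed_ag_NC.tbR A Z).map_comp s j (add_zero 0) x
    have e3 := (MP_6e5bed_ag_NC.tbR A Z).map_add (r.comp t (add_neg_cancel 1))
      (s.comp j (add_zero 0)) x
    have e4 : r.comp t (add_neg_cancel 1) + s.comp j (add_zero 0) =
        GMap.id (MP_6e5bed_ag_NC.cone i hi) := GMap.ext hsum
    rw [e4, (MP_6e5bed_ag_NC.tbR A Z).map_id, e1, e2] at e3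
    exact e3.symm

/-- no cohomology in degrees greater than `n` -/
def Ub (X : Cx k) (n : ℤ) : Prop :=
  ∀ i, n < i → ∀ x, X.dg.IsDeg i x → X.dg.d x = 0 → ∃ y, X.dg.d y = x

/-- PROOF. In degrees greater than `D` both sides have no cohomology. -/
theorem sj_of_ub {X Y : Cx k} (φ : CHom X Y) {D : ℤ} (hX : Ub X D) (hY : Ub Y D) {i : ℤ}
    (hi : D < i) : SJ φ i ∧ IJ φ i := by
  refine ⟨fun y hy hd => ?_, fun x hx hd _ => hX i hi x hx hd⟩
  obtain ⟨w, hw⟩ := hY i hi y hy hd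
  exact ⟨0, Dg.IsDeg.zero _, map_zero _, w, by rw [hw, map_zero, sub_zero]⟩

/-- the boundary can be taken homogeneous -/
private theorem DistTb_hom {V : Type u} [AddCommGroup V] [Module k V] (X : Dg k V) {i : ℤ}
    {x : V} (hx : X.IsDeg i x) (h : ∃ y, X.d y = x) : ∃ y, X.IsDeg (i - 1) y ∧ X.d y = x := by
  obtain ⟨y, rfl⟩ := h
  refine ⟨X.ρ y (i - 1), Dg.isDeg_ρ _ _, ?_⟩
  rw [← X.ρ_d, sub_add_cancel]
  have h1 : X.ρ (X.d y) = Finsupp.single i (X.d y) := hx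
  rw [h1, Finsupp.single_eq_same]

private theorem DistTb_retr {V W : Type u} [AddCommGroup V] [Module k V] [AddCommGroup W]
    [Module k W] (X : Dg k V) (Y : Dg k W) (f : V →ₗ[k] W) (g : W →ₗ[k] V)
    (hf : ∀ {i x}, X.IsDeg i x → Y.IsDeg i (f x)) (hfd : ∀ x, Y.d (f x) = f (X.d x))
    (hgd : ∀ y, X.d (g y) = g (Y.d y)) (h : ∀ x, g (f x) = x) {n : ℤ}
    (hY : ∀ i, n < i → ∀ x, Y.IsDeg i x → Y.d x = 0 → ∃ y, Y.d y = x) :
    ∀ i, n < i → ∀ x, X.IsDeg i x → X.d x = 0 → ∃ y, X.d y = x := by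
  intro i hi x hx hd
  obtain ⟨y, hy⟩ := hY i hi (f x) (hf hx) (by rw [hfd, hd, map_zero])
  exact ⟨g y, by rw [hgd, hy, h]⟩

/-- truncation up to homotopy -/
private theorem DistTb_trunc {V : Type u} [AddCommGroup V] [Module k V] (X : Dg k V) {n : ℤ}
    (h : ∀ i, n < i → ∀ x, X.IsDeg i x → X.d x = 0 → ∃ y, X.d y = x) :
    ∃ e P : V →ₗ[k] V, (∀ {i v}, X.IsDeg i v → X.IsDeg (i + -1) (e v)) ∧
      (∀ x, X.d (e x) + e (X.d x) + P x = x) ∧ ∀ i, n < i → ∀ x, X.IsDeg i x → P x = 0 := by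
  obtain ⟨g, hg⟩ : ∃ g : V →ₗ[k] V, ∀ v, X.d (g (X.d v)) = X.d v := by
    obtain ⟨s, hs⟩ := LinearMap.exists_rightInverse_of_surjective X.d.rangeRestrict
      (LinearMap.range_rangeRestrict X.d)
    obtain ⟨g, hg⟩ := LinearMap.exists_extend s
    refine ⟨g, fun v => ?_⟩
    have h1 : g (X.d v) = s (X.d.rangeRestrict v) := LinearMap.congr_fun hg (X.d.rangeRestrict v)
    have h2 : X.d.rangeRestrict (s (X.d.rangeRestrict v)) = X.d.rangeRestrict v :=
      LinearMap.congr_fun hs (X.d.rangeRestrict v)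
    rw [h1]
    exact congrArg Subtype.val h2
  obtain ⟨e, hdeg, he⟩ := exists_comp X X g (-1)
  have hded : ∀ v, X.d (e (X.d v)) = X.d v := by
    have h1 : X.d.comp (e.comp X.d) = X.d := X.hom_ext (fun i v hv => by
      rw [LinearMap.comp_apply, LinearMap.comp_apply, he _ _ hv.d, add_neg_cancel_right,
        ← X.ρ_d, hg]
      have h2 : X.ρ (X.d v) = Finsupp.single (i + 1) (X.d v) := hv.d
      rw [h2, Finsupp.single_eq_same])
    exact fun v => LinearMap.congr_fun h1 v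
  refine ⟨e - e.comp (e.comp X.d), LinearMap.id - X.d.comp (e - e.comp (e.comp X.d)) -
    (e - e.comp (e.comp X.d)).comp X.d, ?_, ?_, ?_⟩
  · intro i m hm
    have h1 := hdeg (hdeg hm.d)
    rw [add_neg_cancel_right] at h1
    exact (hdeg hm).sub h1
  · intro x
    simp only [LinearMap.sub_apply, LinearMap.comp_apply, LinearMap.id_apply]
    abel
  · intro i hi x hx
    have h1 : X.d (x - e (X.d x)) = 0 := by
      rw [map_sub, hded, sub_self]
    have h0 : X.IsDeg i (x - e (X.d x)) := by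
      have h2 := hdeg hx.d
      rw [add_neg_cancel_right] at h2
      exact hx.sub h2
    obtain ⟨y, hy⟩ := h i hi _ h0 h1
    have h2 : X.d (e (x - e (X.d x))) = x - e (X.d x) := by
      rw [← hy, hded]
    simp only [LinearMap.sub_apply, LinearMap.comp_apply, LinearMap.id_apply, X.d_d, map_zero,
      sub_zero, map_sub]
    rw [map_sub, map_sub] at h2
    rw [h2]
    abel

private theorem DistTb_tensor {V W : Type u} [AddCommGroup V] [Module k V] [AddCommGroup W]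
    [Module k W] (X : Dg k V) (Y : Dg k W) {n m : ℤ}
    (hX : ∀ i, n < i → ∀ x, X.IsDeg i x → X.d x = 0 → ∃ y, X.d y = x)
    (hY : ∀ i, m < i → ∀ x, Y.IsDeg i x → Y.d x = 0 → ∃ y, Y.d y = x) {i : ℤ} (hi : n + m < i)
    (z : V ⊗[k] W) (hz : (X.tensor Y).IsDeg i z) (hd : (X.tensor Y).d z = 0) :
    ∃ y, (X.tensor Y).d y = z := by
  obtain ⟨e, P, hed, hP, hP0⟩ := DistTb_trunc X hX
  obtain ⟨e', P', hed', hP', hP0'⟩ := DistTb_trunc Y hY
  have hes : ∀ v, X.s (e v) = - e (X.s v) := fun v =>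
    Dg.s_degMap_odd (n := -1) (by decide) e hed v
  have hPd : ∀ v, X.d (P v) = P (X.d v) := by
    intro v
    have h1 := congrArg X.d (hP v)
    have h2 := hP (X.d v)
    rw [map_add, map_add, X.d_d, zero_add] at h1
    rw [X.d_d, map_zero, add_zero] at h2
    exact add_left_cancel (h1.trans h2.symm)
  have hPs : ∀ v, X.s (P v) = P (X.s v) := by
    intro v
    have h1 := congrArg X.s (hP v)
    have h2 := hP (X.s v)
    rw [map_add, map_add, X.s_d, hes, hes, X.s_d, map_neg, map_neg, neg_neg, neg_neg] at h1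
    exact add_left_cancel (h1.trans h2.symm)
  let H : V ⊗[k] W →ₗ[k] V ⊗[k] W := TensorProduct.map e LinearMap.id +
    TensorProduct.map (P.comp X.s) e'
  have hH : ∀ v w, H (v ⊗ₜ w) = e v ⊗ₜ w + P (X.s v) ⊗ₜ e' w := fun v w => rfl
  have key : ∀ t, (X.tensor Y).d (H t) + H ((X.tensor Y).d t) + TensorProduct.map P P' t = t := by
    intro t
    induction t using TensorProduct.induction_on with
    | zero => simp only [map_zero, add_zero]
    | add a b ha hb =>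
      conv_rhs => rw [← ha, ← hb]
      simp only [map_add]
      abel
    | tmul v w =>
      rw [hH, Dg.tensor_d, map_add, map_add, Dg.tensor_d, Dg.tensor_d, hH, hH,
        TensorProduct.map_tmul, hes, hPd, hPs, X.s_s, X.s_d, map_neg, TensorProduct.neg_tmul,
        TensorProduct.neg_tmul]
      have e1 : X.d (e v) ⊗ₜ[k] w + e (X.d v) ⊗ₜ[k] w + P v ⊗ₜ[k] w = v ⊗ₜ[k] w := by
        rw [← TensorProduct.add_tmul, ← TensorProduct.add_tmul, hP]
      have e2 : P v ⊗ₜ[k] Y.d (e' w) + P v ⊗ₜ[k] e' (Y.d w) + P v ⊗ₜ[k] P' w = P v ⊗ₜ[k] w := by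
        rw [← TensorProduct.tmul_add, ← TensorProduct.tmul_add, hP']
      rw [← e1, ← e2]
      abel
  have hvan : ∀ t, TensorProduct.map P P' ((X.tensor Y).ρ t i) = 0 := by
    refine X.tind Y (by simp) ?_ ?_
    · intro a b ha hb
      rw [map_add, Finsupp.add_apply, map_add, ha, hb, add_zero]
    · intro p q v w hv hw
      have h1 : (X.tensor Y).ρ (v ⊗ₜ w) = Finsupp.single (p + q) (v ⊗ₜ w) := Dg.tensor_deg hv hw
      rw [h1, Finsupp.single_apply]
      split_ifs with h2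
      · rw [TensorProduct.map_tmul]
        by_cases hp : n < p
        · rw [hP0 p hp v hv, TensorProduct.zero_tmul]
        · rw [hP0' q (by omega) w hw, TensorProduct.tmul_zero]
      · rw [map_zero]
  have h1 := key z
  have h2 := hvan z
  have h3 : (X.tensor Y).ρ z = Finsupp.single i z := hz
  rw [h3, Finsupp.single_eq_same] at h2
  rw [hd, map_zero, h2, add_zero, add_zero] at h1
  exact ⟨_, h1⟩

/-- `N ⊗ B` -/
private theorem DistTb_freeN {d n : ℤ} (hB : Ub (acx B) d) (N : Bim A (base k))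
    (hN : Ub (bcx N) n) : Ub (bcx (tb N (free (base k) B))) (n + d) := by
  let f : (tb N (free (base k) B)).M →ₗ[k] N.M ⊗[k] B.A :=
    TbUnitB.liftδR N B (TensorProduct.mk k N.M B.A)
  let g : N.M ⊗[k] B.A →ₗ[k] (tb N (free (base k) B)).M := TensorProduct.lift (TbUnitB.δR N B)
  have hfδ : ∀ x b, f (TbUnitB.δR N B x b) = x ⊗ₜ[k] b := fun x b => TbUnitB.liftδR_δ N B _ x b
  have hgt : ∀ x b, g (x ⊗ₜ[k] b) = TbUnitB.δR N B x b := fun x b => rfl
  have hgf : g.comp f = LinearMap.id := TbUnitB.extδR N B (fun x b => by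
    rw [LinearMap.comp_apply, hfδ, hgt]
    rfl)
  have hgd : ∀ y, (tb N (free (base k) B)).dg.d (g y) = g ((N.dg.tensor B.dg).d y) := by
    have h : (tb N (free (base k) B)).dg.d.comp g = g.comp (N.dg.tensor B.dg).d :=
      TensorProduct.ext' (fun x b => by
        rw [LinearMap.comp_apply, LinearMap.comp_apply, hgt, TbUnitB.δR_d, Dg.tensor_d, map_add,
          hgt, hgt])
    exact fun y => LinearMap.congr_fun h y
  have hfd : ∀ y, (N.dg.tensor B.dg).d (f y) = f ((tb N (free (base k) B)).dg.d y) := by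
    have h : (N.dg.tensor B.dg).d.comp f = f.comp (tb N (free (base k) B)).dg.d :=
      TbUnitB.extδR N B (fun x b => by
        rw [LinearMap.comp_apply, LinearMap.comp_apply, hfδ, TbUnitB.δR_d, Dg.tensor_d, map_add,
          hfδ, hfδ])
    exact fun y => LinearMap.congr_fun h y
  refine DistTb_retr (tb N (free (base k) B)).dg (N.dg.tensor B.dg) f g ?_ hfd hgd
    (fun x => LinearMap.congr_fun hgf x)
    (fun i hi x hx hd => DistTb_tensor N.dg B.dg hN hB hi x hx hd)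
  intro i x hx
  have h2 := TbUnitB.degR N B (Z := N.dg.tensor B.dg) f (fun {i p q x b c} hx hb hc => by
    have e1 : ∀ y : k, f (TbUnitB.τR N B x y c) = y • x ⊗ₜ[k] c := fun y => by
      rw [TbUnitB.τR_one, map_smul, hfδ]
    have e2 : f (TbUnitB.τR N B x b c) = (show k from b) • x ⊗ₜ[k] c := e1 b
    rcases base_deg_cases (k := k) hb with h3 | h3
    · rw [e2, h3, zero_add]
      exact (Dg.tensor_deg hx hc).smul _
    · have e3 : f (TbUnitB.τR N B x b c) = 0 :=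
        e2.trans ((congrArg (fun y : k => y • x ⊗ₜ[k] c) h3).trans (zero_smul k _))
      rw [e3]
      exact Dg.IsDeg.zero _) hx
  rwa [add_zero] at h2

/-- `X ⊗_W (W ⊗ B)` -/
private theorem DistTb_free {d n : ℤ} (hB : Ub (acx B) d) {X : Bim A W} (hX : Ub (bcx X) n) :
    Ub (bcx (tb X (free W B))) (n + d) := by
  obtain ⟨φ, ψ, h2, h3, h4⟩ := tb_free_right X B
  refine DistTb_retr (tb X (free W B)).dg (tb (fgR X) (free (base k) B)).dg
    φ.f ψ.f (fun {i x} hx => ?_) (GMap.d_f_zero h2) (GMap.d_f_zero (BIso.closed_inv h2 h3 h4))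
    h3 (DistTb_freeN hB (fgR X) hX)
  have h5 := φ.deg hx
  rwa [add_zero] at h5

section ext

variable {M' M M'' : Bim A B} {m n : ℤ}

private theorem DistTb_deg {M N : Bim A B} (f : GMap 0 M N) {j : ℤ} {x : M.M}
    (hx : M.dg.IsDeg j x) : N.dg.IsDeg j (f.f x) := by
  have h5 := f.deg hx
  rwa [add_zero] at h5

private theorem DistTb_mid (h : IsExt M' M M'')
    (h' : ∀ i, m < i → ∀ x, M'.dg.IsDeg i x → M'.dg.d x = 0 → ∃ y, M'.dg.d y = x)
    (h'' : ∀ i, n < i → ∀ x, M''.dg.IsDeg i x → M''.dg.d x = 0 → ∃ y, M''.dg.d y = x) :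
    ∀ i, max m n < i → ∀ x, M.dg.IsDeg i x → M.dg.d x = 0 → ∃ y, M.dg.d y = x := by
  obtain ⟨i, p, r, σ, h0, h1, h2, h3, h4, h5, h6⟩ := h
  have hdi : ∀ x, M.dg.d (i.f x) = i.f (M'.dg.d x) := fun x => GMap.d_f_zero h0 x
  have hdp : ∀ x, M''.dg.d (p.f x) = p.f (M.dg.d x) := fun x => GMap.d_f_zero h1 x
  intro j hj x hx hd
  obtain ⟨z, hz, hz1⟩ := DistTb_hom M''.dg (DistTb_deg p hx)
    (h'' j (by omega) (p.f x) (DistTb_deg p hx) (by rw [hdp, hd, map_zero]))
  have hx1 : M.dg.IsDeg j (x - M.dg.d (σ.f z)) := by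
    have h7 := (DistTb_deg σ hz).d
    rw [sub_add_cancel] at h7
    exact hx.sub h7
  have hp1 : p.f (x - M.dg.d (σ.f z)) = 0 := by rw [map_sub, ← hdp, h3, hz1, sub_self]
  have hi1 : i.f (r.f (x - M.dg.d (σ.f z))) = x - M.dg.d (σ.f z) := by
    have h7 := h6 (x - M.dg.d (σ.f z))
    rwa [hp1, map_zero, add_zero] at h7
  obtain ⟨w, hw⟩ := h' j (by omega) (r.f (x - M.dg.d (σ.f z))) (DistTb_deg r hx1) (by
    rw [← h2 (M'.dg.d _), ← hdi, hi1, map_sub, hd, M.dg.d_d, sub_zero, map_zero])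
  refine ⟨i.f w + σ.f z, ?_⟩
  rw [map_add, hdi, hw, hi1, sub_add_cancel]

private theorem DistTb_left (h : IsExt M' M M'')
    (h' : ∀ i, m < i → ∀ x, M.dg.IsDeg i x → M.dg.d x = 0 → ∃ y, M.dg.d y = x)
    (h'' : ∀ i, n < i → ∀ x, M''.dg.IsDeg i x → M''.dg.d x = 0 → ∃ y, M''.dg.d y = x) :
    ∀ i, max m n + 1 < i → ∀ x, M'.dg.IsDeg i x → M'.dg.d x = 0 → ∃ y, M'.dg.d y = x := by
  obtain ⟨i, p, r, σ, h0, h1, h2, h3, h4, h5, h6⟩ := h
  have hdi : ∀ x, M.dg.d (i.f x) = i.f (M'.dg.d x) := fun x => GMap.d_f_zero h0 x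
  have hdp : ∀ x, M''.dg.d (p.f x) = p.f (M.dg.d x) := fun x => GMap.d_f_zero h1 x
  intro j hj x hx hd
  obtain ⟨y, hy, hy1⟩ := DistTb_hom M.dg (DistTb_deg i hx)
    (h' j (by omega) (i.f x) (DistTb_deg i hx) (by rw [hdi, hd, map_zero]))
  obtain ⟨z, hz⟩ := h'' (j - 1) (by omega) (p.f y) (DistTb_deg p hy) (by rw [hdp, hy1, h4])
  have hp1 : p.f (y - M.dg.d (σ.f z)) = 0 := by rw [map_sub, ← hdp, h3, hz, sub_self]
  have hi1 : i.f (r.f (y - M.dg.d (σ.f z))) = y - M.dg.d (σ.f z) := by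
    have h7 := h6 (y - M.dg.d (σ.f z))
    rwa [hp1, map_zero, add_zero] at h7
  refine ⟨r.f (y - M.dg.d (σ.f z)), ?_⟩
  rw [← h2 (M'.dg.d _), ← hdi, hi1, map_sub, hy1, M.dg.d_d, sub_zero, h2]

private theorem DistTb_right (h : IsExt M' M M'')
    (h' : ∀ i, m < i → ∀ x, M'.dg.IsDeg i x → M'.dg.d x = 0 → ∃ y, M'.dg.d y = x)
    (h'' : ∀ i, n < i → ∀ x, M.dg.IsDeg i x → M.dg.d x = 0 → ∃ y, M.dg.d y = x) :
    ∀ i, max m n < i → ∀ x, M''.dg.IsDeg i x → M''.dg.d x = 0 → ∃ y, M''.dg.d y = x := by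
  obtain ⟨i, p, r, σ, h0, h1, h2, h3, h4, h5, h6⟩ := h
  have hdi : ∀ x, M.dg.d (i.f x) = i.f (M'.dg.d x) := fun x => GMap.d_f_zero h0 x
  have hdp : ∀ x, M''.dg.d (p.f x) = p.f (M.dg.d x) := fun x => GMap.d_f_zero h1 x
  intro j hj x hx hd
  have hy : M.dg.IsDeg j (σ.f x) := DistTb_deg σ hx
  have hi1 : i.f (r.f (M.dg.d (σ.f x))) = M.dg.d (σ.f x) := by
    have h7 := h6 (M.dg.d (σ.f x))
    rwa [← hdp, h3, hd, map_zero, add_zero] at h7
  have hw : M'.dg.IsDeg (j + 1) (r.f (M.dg.d (σ.f x))) := DistTb_deg r hy.d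
  obtain ⟨v, hv, hv1⟩ := DistTb_hom M'.dg hw (h' (j + 1) (by omega) _ hw (by
    rw [← h2 (M'.dg.d _), ← hdi, hi1, M.dg.d_d, map_zero]))
  rw [add_sub_cancel_right] at hv
  obtain ⟨u, hu⟩ := h'' j (by omega) (σ.f x - i.f v) (hy.sub (DistTb_deg i hv)) (by
    rw [map_sub, hdi, hv1, hi1, sub_self])
  refine ⟨p.f u, ?_⟩
  rw [hdp, hu, map_sub, h3, h4, sub_zero]

end ext

/-- Tensor products with a perfect bimodule are uniformly bounded above.

PROOF. Induction on `Perf Z`, for all `X` at once. `free W B`: `tb X (free W B)` is isomorphic to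
`tb (fgR X) (free (base k) B)` (`tb_free_right`), whose complex is the tensor product over `k` of the
complexes of `X` and of `B`; over a field its cohomology is the tensor product of the cohomologies
(replace `X` and `B` by quasi-isomorphic subcomplexes which are zero in degrees greater than `n` and
`d`: `Z^n ⊕ (degrees < n) ⊆ X`; `tenH_qi` in `Lib/MP_6e5bed_ag_PS/Ten.lean` is available), so
`D = n + d` works. Contractible: `tb X Z` is acyclic, any `D`. Extensions `M' → M → M''`: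
`tbL X` preserves extensions (`DGFun.isExt`), and the long exact sequence gives bounds: `mid`:
`max`, `left` (`M'` from `M`, `M''`): `max D D'' + 1`, `right` (`M''` from `M'`, `M`): `max`.
Summand: `DGFun.isSummand`. -/
theorem bound_tb {d : ℤ} (hB : Ub (acx B) d) (n : ℤ) {Z : Bim W B} (hZ : Perf Z) :
    ∃ D : ℤ, ∀ X : Bim A W, Ub (bcx X) n → Ub (bcx (tb X Z)) D := by
  induction hZ with
  | free => exact ⟨n + d, fun X hX => DistTb_free hB hX⟩
  | contr h =>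
    refine ⟨0, fun X _ i _ x _ hd => ?_⟩
    exact ((MP_6e5bed_ag_NC.tbL X B).contr h).acyc x hd
  | mid h _ _ h1 h2 =>
    obtain ⟨D1, h1⟩ := h1
    obtain ⟨D2, h2⟩ := h2
    exact ⟨max D1 D2, fun X hX => DistTb_mid ((MP_6e5bed_ag_NC.tbL X B).isExt h) (h1 X hX)
      (h2 X hX)⟩
  | left h _ _ h1 h2 =>
    obtain ⟨D1, h1⟩ := h1
    obtain ⟨D2, h2⟩ := h2
    exact ⟨max D1 D2 + 1, fun X hX => DistTb_left ((MP_6e5bed_ag_NC.tbL X B).isExt h) (h1 X hX)
      (h2 X hX)⟩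
  | right h _ _ h1 h2 =>
    obtain ⟨D1, h1⟩ := h1
    obtain ⟨D2, h2⟩ := h2
    exact ⟨max D1 D2, fun X hX => DistTb_right ((MP_6e5bed_ag_NC.tbL X B).isExt h) (h1 X hX)
      (h2 X hX)⟩
  | summand h _ h1 =>
    obtain ⟨D1, h1⟩ := h1
    refine ⟨D1, fun X hX => ?_⟩
    obtain ⟨i, r, hi, hr, hri⟩ := (MP_6e5bed_ag_NC.tbL X B).isSummand h
    refine DistTb_retr _ _ i.f r.f (fun {j x} hx => ?_) (GMap.d_f_zero hi) (GMap.d_f_zero hr) hri
      (h1 X hX)
    have h5 := i.deg hx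
    rwa [add_zero] at h5

private theorem DistTb_cc (V : PC k)
    (hV : ∀ c i x, 0 < i → (V.X c).dg.IsDeg i x → x = 0) : ∀ (L : List (LF k)) (c : FS k) (i : ℤ)
    (x : ((cC V L).X c).V), (L.length : ℤ) ≤ i → ((cC V L).X c).dg.IsDeg i x → x = 0
  | [], c, i, x, hi, hx => rfl
  | l :: L, c, i, x, hi, hx => by
    obtain ⟨⟨x0, x1⟩, ξ⟩ := x
    have h := co_deg.1 hx
    rw [List.length_cons] at hi
    push_cast at hi
    have e0 : x0 = 0 := DistTb_cc V hV L _ i x0 (by omega) h.1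
    have e1 : x1 = 0 := hV _ i x1 (by omega) h.2.1
    have e2 : ξ = 0 := DistTb_cc V hV L _ (i + -1) ξ (by omega) h.2.2
    rw [e0, e1, e2]
    rfl

/-- The Čech complex of a sheaf is zero in degrees greater than two.

PROOF. By induction on the list `L`: if `V` is concentrated in degree zero (`Cx.conc`) then elements of
degree `i ≥ L.length` of `(cC V L).X c` are zero (`co_deg`, `Dg.conc_cases`). -/
theorem ub_cc (M : Shf k) : Ub (CC M) 2 := by
  intro i hi x hx hd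
  have h1 := DistTb_cc M.pc (fun c i x hi hx => by
    rcases Dg.conc_cases hx with h | h
    · omega
    · exact h) (FF k) (FS.e k) i x (by
      change (3 : ℤ) ≤ i
      omega) hx
  exact ⟨0, (map_zero _).trans h1.symm⟩

end Pool.Agent.MP_6e5bed_ag_PS
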