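import Pool.Agent.Lib.MP_6e5bed_ag_PS.CurA

set_option autoImplicit false

/-!
# MP_6e5bed_ag, NC PRODUCT SURFACES: localization and exactness on the charts of a curve
-/

noncomputable section

namespace Pool.Agent.MP_6e5bed_ag_PS

open Pool.Agent.MP_6e5bed_ag_NC

universe u

variable {k : Type u} [Field k] {D : FExt k}

/-- Localization.

PROOF. Let `f ∈ OA D (insert j a) i`, `g ∈ a`. For every `m` there is `n` with
`rho D (insert j a) m ^ n * (el m ^ (-i) * f) ∈ BM D m`. The sets `a` and `insert j a` are equal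
(then `n = 0` works) or `rho D (insert j a) m = (el j / el m) * rho D a m`. Let `n` be
large enough for all three `m` (`rho_pow_mem`). Then
`(el j / el g) ^ n = (el j / el m) ^ n * (el m / el g) ^ n`, and
`rho D a m ^ n * (el m / el g) ^ n` is in `BM D m` because `rho D a m` is a multiple of
`el g / el m` (in `BM D m`); so `rho D a m ^ (2 n) * (el m ^ (-i) * ((el j / el g) ^ n * f))` is the
product of `rho D a m ^ n * (el m / el g) ^ n ∈ BM D m` and
`(rho D a m * (el j / el m)) ^ n * (el m ^ (-i) * f) ∈ BM D m`. -/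
theorem OA_loc {a : Finset (Fin 3)} {j g : Fin 3} (hg : g ∈ a) {i : ℤ} {f : D.L}
    (hf : f ∈ OA D (insert j a) i) : ∃ n : ℕ, (el D j / el D g) ^ n * f ∈ OA D a i := by
  choose N hN using hf
  set n : ℕ := Finset.univ.sup N with hn
  refine ⟨n, fun m => ⟨n + n, ?_⟩⟩
  have hm := el_ne D m
  have h1 : rho D (insert j a) m ^ n * (el D m ^ (-i) * f) ∈ BM D m :=
    rho_pow_mem (Finset.le_sup (Finset.mem_univ m)) (hN m)
  have h2 : (el D j / el D m * rho D a m) ^ n * (el D m ^ (-i) * f) ∈ BM D m := by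
    by_cases hj : j ∈ a
    · rw [Finset.insert_eq_of_mem hj] at h1
      have h3 : (el D j / el D m * rho D a m) ^ n * (el D m ^ (-i) * f) =
          (el D j / el D m) ^ n * (rho D a m ^ n * (el D m ^ (-i) * f)) := by
        rw [mul_pow]; ring
      rw [h3]
      exact (BM D m).mul_mem (pow_mem (el_div_mem D j m) n) h1
    · have h3 : rho D (insert j a) m = el D j / el D m * rho D a m := Finset.prod_insert hj
      rw [h3] at h1
      exact h1
  have h3 : rho D a m * (el D m / el D g) ∈ BM D m := by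
    have h4 : rho D a m = el D g / el D m * rho D (a.erase g) m :=
      (Finset.mul_prod_erase a _ hg).symm
    have h5 : rho D a m * (el D m / el D g) = rho D (a.erase g) m := by
      have h6 := el_ne D g
      rw [h4]
      field_simp
    rw [h5]
    exact rho_mem D _ m
  have h4 : rho D a m ^ (n + n) * (el D m ^ (-i) * ((el D j / el D g) ^ n * f)) =
      (rho D a m * (el D m / el D g)) ^ n *
        ((el D j / el D m * rho D a m) ^ n * (el D m ^ (-i) * f)) := by
    have h5 : el D j / el D g = el D j / el D m * (el D m / el D g) := by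
      field_simp
    rw [h5, mul_pow, mul_pow, mul_pow, pow_add]
    ring
  rw [h4]
  exact (BM D m).mul_mem (pow_mem h3 n) h2

theorem CurB_mul0 {a : Finset (Fin 3)} {i : ℤ} {f g : D.L} (hf : f ∈ OA D a 0)
    (hg : g ∈ OA D a i) : f * g ∈ OA D a i := by
  have h := OA_mul hf hg
  rwa [zero_add] at h

theorem CurB_pow {a : Finset (Fin 3)} {f : D.L} (hf : f ∈ OA D a 0) (n : ℕ) :
    f ^ n ∈ OA D a 0 := by
  induction n with
  | zero => rw [pow_zero]; exact one_mem_OA a
  | succ n ih => rw [pow_succ]; exact CurB_mul0 ih hf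

theorem CurB_quo {a : Finset (Fin 3)} {g j : Fin 3} (hg : g ∈ a) :
    el D j / el D g ∈ OA D a 0 := by
  have h := OA_mul (el_mem_OA (D := D) a j) (inv_mem_OA (D := D) hg)
  rw [← div_eq_mul_inv] at h
  have h1 : (1 : ℤ) + -1 = 0 := by norm_num
  rwa [h1] at h

/-- the functions on the chart, as a subring -/
def CurBR (D : FExt k) (a : Finset (Fin 3)) : Subring D.L where
  carrier := OA D a 0
  mul_mem' := fun hf hg => CurB_mul0 hf hg
  one_mem' := one_mem_OA a
  add_mem' := fun hf hg => (OA D a 0).add_mem hf hg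
  zero_mem' := (OA D a 0).zero_mem
  neg_mem' := fun hf => (OA D a 0).neg_mem hf

theorem CurB_copr {a : Finset (Fin 3)} {g : Fin 3} (hg : g ∈ a) (n : ℕ) :
    ∃ α ∈ OA D a 0, ∃ β ∈ OA D a 0,
      α * (el D 0 / el D g) ^ n + β * (el D 1 / el D g) ^ n = 1 := by
  have key : ∃ x0 x1 : CurBR D a, (x0 : D.L) = el D 0 / el D g ∧ (x1 : D.L) = el D 1 / el D g ∧
      IsCoprime x0 x1 := by
    refine ⟨⟨el D 0 / el D g, CurB_quo hg⟩, ⟨el D 1 / el D g, CurB_quo hg⟩, rfl, rfl, ?_⟩
    have hgn := el_ne D g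
    fin_cases g
    · have h1 : (⟨el D 0 / el D 0, CurB_quo hg⟩ : CurBR D a) = 1 :=
        Subtype.ext (div_self hgn)
      change IsCoprime (⟨el D 0 / el D 0, CurB_quo hg⟩ : CurBR D a) _
      rw [h1]
      exact isCoprime_one_left
    · have h1 : (⟨el D 1 / el D 1, CurB_quo hg⟩ : CurBR D a) = 1 :=
        Subtype.ext (div_self hgn)
      change IsCoprime _ (⟨el D 1 / el D 1, CurB_quo hg⟩ : CurBR D a)
      rw [h1]
      exact isCoprime_one_right
    · refine ⟨-1, 1, Subtype.ext ?_⟩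
      change -1 * (el D 0 / el D 2) + 1 * (el D 1 / el D 2) = 1
      have h2 := el_sub D
      have h3 : el D 2 ≠ 0 := hgn
      field_simp
      linear_combination h2
  obtain ⟨x0, x1, h0, h1, hc⟩ := key
  obtain ⟨α, β, hab⟩ := hc.pow (m := n) (n := n)
  refine ⟨α, α.2, β, β.2, ?_⟩
  have h2 := congrArg (Subtype.val) hab
  rw [← h0, ← h1]
  simpa using h2

/-- more factors. PROOF. `el j / el g ∈ OA D a 0` (`el_mem_OA`, `inv_mem_OA`, `OA_mul`). -/
theorem OA_pow_mem {a : Finset (Fin 3)} {j g : Fin 3} (hg : g ∈ a) {i : ℤ} {f : D.L} {n n' : ℕ}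
    (h : n ≤ n') (hf : (el D j / el D g) ^ n * f ∈ OA D a i) :
    (el D j / el D g) ^ n' * f ∈ OA D a i := by
  obtain ⟨l, rfl⟩ := Nat.exists_eq_add_of_le h
  have h1 : (el D j / el D g) ^ (n + l) * f =
      (el D j / el D g) ^ l * ((el D j / el D g) ^ n * f) := by
    rw [pow_add]; ring
  rw [h1]
  exact CurB_mul0 (CurB_pow (CurB_quo hg) l) hf

/-- Exactness on a chart with two open sets, first part.

PROOF. `a` contains some `g`. Let `x_j = el j / el g ∈ OA D a 0`. One of `x_0 = 1` (`g = 0`),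
`x_1 = 1` (`g = 1`), `x_1 - x_0 = 1` (`g = 2`, `el_sub`) holds, so `α x_0 ^ n + β x_1 ^ n = 1` with
`α, β ∈ OA D a 0` (a ring: `OA_mul`, `one_mem_OA`; e.g. `(x_1 - x_0) ^ (2 n) = 1`). By `OA_loc`
`x_0 ^ n * f` and `x_1 ^ n * f` are in `OA D a i` for large `n`. -/
theorem OA_inter {a : Finset (Fin 3)} (ha : a.Nonempty) {i : ℤ} {f : D.L}
    (h0 : f ∈ OA D (insert 0 a) i) (h1 : f ∈ OA D (insert 1 a) i) : f ∈ OA D a i := by
  obtain ⟨g, hg⟩ := ha
  obtain ⟨n0, hn0⟩ := OA_loc hg h0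
  obtain ⟨n1, hn1⟩ := OA_loc hg h1
  obtain ⟨α, hα, β, hβ, hab⟩ := CurB_copr (D := D) hg (max n0 n1)
  have h2 : f = α * ((el D 0 / el D g) ^ max n0 n1 * f) +
      β * ((el D 1 / el D g) ^ max n0 n1 * f) := by
    linear_combination (-f) * hab
  rw [h2]
  exact (OA D a i).add_mem (CurB_mul0 hα (OA_pow_mem hg (le_max_left _ _) hn0))
    (CurB_mul0 hβ (OA_pow_mem hg (le_max_right _ _) hn1))

/-- Exactness on a chart with two open sets, second part.

PROOF. Notation of `OA_inter`. For large `n` we have `(x_0 x_1) ^ n * h ∈ OA D a i` (`OA_loc` twice: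
`x_0 ^ n h ∈ OA D (insert 1 a) i`, `x_1 ^ n x_0 ^ n h ∈ OA D a i`). Then
`x_0 ^ n h = ((x_0 x_1) ^ n h) (el g / el 1) ^ n` is in `OA D (insert 1 a) i`, and
`x_1 ^ n h ∈ OA D (insert 0 a) i`. With `α x_0 ^ n + β x_1 ^ n = 1` let `f1 = α x_0 ^ n h`,
`f0 = - β x_1 ^ n h`. -/
theorem OA_split {a : Finset (Fin 3)} (ha : a.Nonempty) {i : ℤ} {h : D.L}
    (hh : h ∈ OA D (insert 0 (insert 1 a)) i) :
    ∃ f0 ∈ OA D (insert 0 a) i, ∃ f1 ∈ OA D (insert 1 a) i, h = f1 - f0 := by
  obtain ⟨g, hg⟩ := ha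
  obtain ⟨n0, hn0⟩ := OA_loc (a := insert 1 a) (j := 0) (Finset.mem_insert_of_mem hg) hh
  obtain ⟨n1, hn1⟩ := OA_loc hg hn0
  obtain ⟨α, hα, β, hβ, hab⟩ := CurB_copr (D := D) hg (max n0 n1)
  have s0 : OA D a 0 ≤ OA D (insert 0 a) 0 := OA_mono (Finset.subset_insert 0 a) 0
  have s1 : OA D a 0 ≤ OA D (insert 1 a) 0 := OA_mono (Finset.subset_insert 1 a) 0
  have h1 : (el D 0 / el D g) ^ max n0 n1 * h ∈ OA D (insert 1 a) i :=
    OA_pow_mem (Finset.mem_insert_of_mem hg) (le_max_left _ _) hn0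
  have h2 : (el D 1 / el D g) ^ max n0 n1 * ((el D 0 / el D g) ^ n0 * h) ∈ OA D a i :=
    OA_pow_mem hg (le_max_right _ _) hn1
  have h3 : (el D 1 / el D g) ^ max n0 n1 * h ∈ OA D (insert 0 a) i := by
    have h4 : (el D 1 / el D g) ^ max n0 n1 * h = (el D g / el D 0) ^ n0 *
        ((el D 1 / el D g) ^ max n0 n1 * ((el D 0 / el D g) ^ n0 * h)) := by
      have h5 : (el D g / el D 0) ^ n0 * (el D 0 / el D g) ^ n0 = 1 := by
        have h6 := el_ne D g
        have h7 := el_ne D 0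
        rw [← mul_pow, div_mul_div_cancel₀ h7, div_self h6, one_pow]
      linear_combination (-(el D 1 / el D g) ^ max n0 n1 * h) * h5
    rw [h4]
    exact CurB_mul0 (CurB_pow (CurB_quo (Finset.mem_insert_self 0 a)) n0)
      (OA_mono (Finset.subset_insert 0 a) i h2)
  refine ⟨-(β * ((el D 1 / el D g) ^ max n0 n1 * h)), (OA D _ i).neg_mem (CurB_mul0 (s0 hβ) h3),
    α * ((el D 0 / el D g) ^ max n0 n1 * h), CurB_mul0 (s1 hα) h1, ?_⟩
  linear_combination (-h) * hab

end Pool.Agent.MP_6e5bed_ag_PS
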