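import Pool.Agent.Lib.MP_6e5bed_ag_PS.SmUp
import Pool.Agent.Lib.MP_6e5bed_ag_CV.JTrans

set_option autoImplicit false
set_option linter.unusedVariables false

/-!
# MP_6e5bed_ag, NC PRODUCT SURFACES: smooth and proper dg algebras whose identity factors through
given ones; invariance under quasi-isomorphisms
-/

noncomputable section

namespace Pool.Agent.MP_6e5bed_ag_PS

open Pool.Agent.MP_6e5bed_ag_NC
open Pool.Agent.MP_6e5bed_ag_NS

universe u

variable {k : Type u} [Field k]

/-- Smooth and proper, and the identity factors through dg algebras in `Good`. -/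
def SPJ (Good : DGA k → Prop) (A : DGA k) : Prop :=
  ∃ hA : Smooth A, Proper A ∧ K0Q.one hA ∈ JS Good A

/-- `r` as a map of bimodules `diag A → res r r (diag B)` -/
private def spjMap {A B : DGA k} (r : DHom A B) : GMap 0 (diag A) (res r r (diag B)) where
  f := r.f
  deg := fun h => by
    rw [add_zero]
    exact r.deg h
  map_l := fun a m => by
    rw [Dg.sp_zero]
    exact r.mul a m
  map_r := fun b m => r.mul m b

private theorem spjMap_qiso {A B : DGA k} (r : DHom A B) (hr : DQI r) : QIso (spjMap r) := by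
  refine ⟨LinearMap.ext (fun x => ?_), hr.1, hr.2⟩
  rw [GMap.dd_apply, sg_zero, one_smul, LinearMap.zero_apply, sub_eq_zero]
  exact r.d x

private theorem spj_biso_res {A A' B B' : DGA k} (φ : DHom A A') (ψ : DHom B B')
    {M N : Bim A' B'} (h : BIso M N) : BIso (res φ ψ M) (res φ ψ N) := by
  obtain ⟨f, g, h0, h1, h2⟩ := h
  exact ⟨f.res φ ψ, g.res φ ψ, h0, h1, h2⟩

private theorem spj_flat {A B : DGA k} (r : DHom A B) :
    RFlat (res r (DHom.id B) (diag B)) := by
  intro C N hN
  have h1 : BIso (res r (DHom.id C) (tb (diag B) N))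
      (tb (res r (DHom.id B) (diag B)) (res (DHom.id B) (DHom.id C) N)) :=
    res_tb r (DHom.id C) (diag B) N
  have h2 : Acyc (tb (diag B) N) := Acyc.iso (tb_diag_left N).symm hN
  have h3 : Acyc (res r (DHom.id C) (tb (diag B) N)) := h2
  exact Acyc.iso h1 h3

private theorem spj_finCoh {A B : DGA k} (r : DHom A B) (hr : DQI r) :
    A.dg.FinCoh ↔ B.dg.FinCoh :=
  QIso.finCoh (M := diag A) (N := res r r (diag B)) (spjMap r) (spjMap_qiso r hr)

/-- PROOF. `one = comp one one`. -/
theorem SPJ.of_good {Good : DGA k → Prop} {A : DGA k} (hA : Smooth A) (hp : Proper A)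
    (hG : Good A) : SPJ Good A := by
  refine ⟨hA, hp, ?_⟩
  rw [← K0Q.comp_one hA hp (K0Q.one hA)]
  exact JS.comp hp hG _ _

/-- PROOF. `A` is smooth by `bc_smooth`, proper because `A` and `B` have the same cohomology
(`proper_iff`, `CHom.QI.finCoh` for `dch`-like morphism, see the proof of `bc_mem`). Let
`X = res (DHom.id B) r (diag B) : Bim B A`, `Y = res r (DHom.id B) (diag B) : Bim A B`; both have
resolutions (`HasRes.of_finCoh`). `tb Y X` is isomorphic to `res r r (diag B)` (`res_tb`,
`tb_diag_left`), and `r` is a quasi-isomorphism `diag A → res r r (diag B)`, so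
`comp (rcls Y) (rcls X) = rcls (tb Y X) = rcls (diag A) = one` (`rcls_tb`, `rcls_iso`, `rcls_qiso`,
`rcls_diag`; `Y` is flat on the right: `tb Y N` is isomorphic to a restriction of `N`). So
`one ∈ JS (fun X => X = B) A`, and `JS.trans` gives the claim. -/
theorem SPJ.down {Good : DGA k → Prop} {A B : DGA k} (r : DHom A B) (hr : DQI r)
    (h : SPJ Good B) : SPJ Good A := by
  obtain ⟨hB, hpB, hone⟩ := h
  have hA : Smooth A := bc_smooth r hr hB
  have hfB : B.dg.FinCoh := (proper_iff B).1 hpB
  have hfA : A.dg.FinCoh := (spj_finCoh r hr).2 hfB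
  have hpA : Proper A := (proper_iff A).2 hfA
  refine ⟨hA, hpA, ?_⟩
  have hY : HasRes (res r (DHom.id B) (diag B)) := HasRes.of_finCoh hA hB _ hfB
  have hX : HasRes (res (DHom.id B) r (diag B)) := HasRes.of_finCoh hB hA _ hfB
  have hYX : HasRes (tb (res r (DHom.id B) (diag B)) (res (DHom.id B) r (diag B))) :=
    HasRes.tb hpB hY hX (spj_flat r)
  have h1 := rcls_tb hpB hY hX (spj_flat r) hYX
  have i1 : BIso (res r r (tb (diag B) (diag B)))
      (tb (res r (DHom.id B) (diag B)) (res (DHom.id B) r (diag B))) :=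
    res_tb r r (diag B) (diag B)
  have i2 : BIso (res r r (tb (diag B) (diag B))) (res r r (diag B)) :=
    spj_biso_res r r (tb_diag_left (diag B))
  have i3 : BIso (tb (res r (DHom.id B) (diag B)) (res (DHom.id B) r (diag B)))
      (res r r (diag B)) := i1.symm.trans i2
  have hR : HasRes (res r r (diag B)) := hYX.iso i3
  have h2 := rcls_iso i3 hYX hR
  have h3 := rcls_qiso hA.hasRes_diag hR (spjMap r) (spjMap_qiso r hr)
  have h4 := rcls_diag hA hpA hA.hasRes_diag
  have h5 : K0Q.one hA = K0Q.comp hpB (rcls _ hY) (rcls _ hX) := by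
    rw [h1, h2, ← h3, h4]
  have h6 : K0Q.one hA ∈ JS (fun X => X = B) A := by
    rw [h5]
    exact JS.comp (Good := fun X => X = B) hpB rfl _ _
  refine JS.trans (Good := fun X => X = B) (Good' := Good) A ?_ h6
  rintro X rfl
  exact ⟨hB, hpB, hone⟩

/-- PROOF. `B` is smooth by `smooth_up`, and proper. `r` is a quasi-isomorphism
`diag A → res r r (diag B)`, so the class of `res r r (diag B)` is `one` and in `JS Good A`; by
`bc_mem` (with `M = diag B`) the class of `diag B`, that is `one` (`rcls_diag`), is in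
`JS Good B`. -/
theorem SPJ.up {Good : DGA k → Prop} {A B : DGA k} (r : DHom A B) (hr : DQI r)
    (h : SPJ Good A) : SPJ Good B := by
  obtain ⟨hA, hpA, hone⟩ := h
  have hB : Smooth B := smooth_up r hr hA
  have hfA : A.dg.FinCoh := (proper_iff A).1 hpA
  have hfB : B.dg.FinCoh := (spj_finCoh r hr).1 hfA
  have hpB : Proper B := (proper_iff B).2 hfB
  refine ⟨hB, hpB, ?_⟩
  have hR : HasRes (res r r (diag B)) := hA.hasRes_diag.of_qiso (spjMap r) (spjMap_qiso r hr)
  have h3 := rcls_qiso hA.hasRes_diag hR (spjMap r) (spjMap_qiso r hr)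
  have h4 := rcls_diag hA hpA hA.hasRes_diag
  have h5 : rcls _ hR ∈ JS Good A := by
    rw [← h3, h4]
    exact hone
  obtain ⟨h6, h7⟩ := bc_mem r hr hB hpB hR h5
  rw [rcls_diag hB hpB h6] at h7
  exact h7

end Pool.Agent.MP_6e5bed_ag_PS
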