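import Pool.Agent.Lib.MP_6e5bed_ag_PS.Mat
import Pool.Agent.Lib.MP_6e5bed_ag_CV.Datum

set_option autoImplicit false
set_option linter.unusedVariables false

/-!
# MP_6e5bed_ag, NC PRODUCT SURFACES: `T1 D ∅` is the dg algebra of a curve
-/

noncomputable section

namespace Pool.Agent.MP_6e5bed_ag_PS

open Pool.Agent.MP_6e5bed_ag_NC
open Pool.Agent.MP_6e5bed_ag_NS

universe u

variable {k : Type u} [Field k] (D : FExt k)

/-! ### The zero bundle -/

/-- the zero vector space -/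
private def VZero_F (D : FExt k) : LSp D where
  F := PUnit.{u + 1}

private theorem VZero_top {R M : Type u} [Ring R] [AddCommGroup M] [Module R M] [Subsingleton M] :
    (⊤ : Submodule R M).FG := by
  rw [Subsingleton.elim (⊤ : Submodule R M) ⊥]
  exact Submodule.fg_bot

/-- the zero vector bundle -/
private def VZero_V (D : FExt k) : LP k (VZero_F D).F where
  N0 := ⊤
  N1 := ⊤
  fg0 := VZero_top (M := PUnit.{u + 1})
  fg1 := VZero_top (M := PUnit.{u + 1})
  sp0 := Subsingleton.elim (α := Submodule (RatFunc k) PUnit.{u + 1}) _ _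
  sp1 := Subsingleton.elim (α := Submodule (RatFunc k) PUnit.{u + 1}) _ _
  loc01 := fun _ _ => ⟨0, Submodule.mem_top⟩
  loc10 := fun _ _ => ⟨0, Submodule.mem_top⟩

/-- the generic fibre of `0 ⊕ O ⊕ O(1)` -/
private abbrev VZero_E (D : FExt k) : Type u := PUnit.{u + 1} × D.L × D.L

/-! ### Matrices and endomorphisms -/

/-- the endomorphism of a matrix -/
private def VZero_end (m : Matrix (Fin 2) (Fin 2) D.L) : Module.End D.L (VZero_E D) where
  toFun := fun v => (PUnit.unit, m 0 0 * v.2.1 + m 0 1 * v.2.2, m 1 0 * v.2.1 + m 1 1 * v.2.2)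
  map_add' := fun v w => by
    refine Prod.ext rfl (Prod.ext ?_ ?_)
    · change m 0 0 * (v.2.1 + w.2.1) + m 0 1 * (v.2.2 + w.2.2) =
        (m 0 0 * v.2.1 + m 0 1 * v.2.2) + (m 0 0 * w.2.1 + m 0 1 * w.2.2)
      ring
    · change m 1 0 * (v.2.1 + w.2.1) + m 1 1 * (v.2.2 + w.2.2) =
        (m 1 0 * v.2.1 + m 1 1 * v.2.2) + (m 1 0 * w.2.1 + m 1 1 * w.2.2)
      ring
  map_smul' := fun c v => by
    refine Prod.ext rfl (Prod.ext ?_ ?_)
    · change m 0 0 * (c * v.2.1) + m 0 1 * (c * v.2.2) = c * (m 0 0 * v.2.1 + m 0 1 * v.2.2)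
      ring
    · change m 1 0 * (c * v.2.1) + m 1 1 * (c * v.2.2) = c * (m 1 0 * v.2.1 + m 1 1 * v.2.2)
      ring

private theorem VZero_end_apply (m : Matrix (Fin 2) (Fin 2) D.L) (v : VZero_E D) :
    VZero_end D m v =
      (PUnit.unit, m 0 0 * v.2.1 + m 0 1 * v.2.2, m 1 0 * v.2.1 + m 1 1 * v.2.2) := rfl

/-- as a homomorphism of algebras -/
private def VZero_phi : Matrix (Fin 2) (Fin 2) D.L →ₐ[k] Module.End D.L (VZero_E D) where
  toFun := VZero_end D
  map_one' := by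
    refine LinearMap.ext fun v => ?_
    rw [VZero_end_apply]
    refine Prod.ext rfl (Prod.ext ?_ ?_)
    · change (1 : Matrix (Fin 2) (Fin 2) D.L) 0 0 * v.2.1 +
        (1 : Matrix (Fin 2) (Fin 2) D.L) 0 1 * v.2.2 = v.2.1
      rw [Matrix.one_apply_eq, Matrix.one_apply_ne (by decide), one_mul, zero_mul, add_zero]
    · change (1 : Matrix (Fin 2) (Fin 2) D.L) 1 0 * v.2.1 +
        (1 : Matrix (Fin 2) (Fin 2) D.L) 1 1 * v.2.2 = v.2.2
      rw [Matrix.one_apply_eq, Matrix.one_apply_ne (by decide), one_mul, zero_mul, zero_add]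
  map_mul' := fun m n => by
    refine LinearMap.ext fun v => ?_
    change VZero_end D (m * n) v = VZero_end D m (VZero_end D n v)
    rw [VZero_end_apply, VZero_end_apply, VZero_end_apply]
    refine Prod.ext rfl (Prod.ext ?_ ?_)
    · change (m * n) 0 0 * v.2.1 + (m * n) 0 1 * v.2.2 =
        m 0 0 * (n 0 0 * v.2.1 + n 0 1 * v.2.2) + m 0 1 * (n 1 0 * v.2.1 + n 1 1 * v.2.2)
      rw [Matrix.mul_apply, Matrix.mul_apply, Fin.sum_univ_two, Fin.sum_univ_two]
      ring
    · change (m * n) 1 0 * v.2.1 + (m * n) 1 1 * v.2.2 =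
        m 1 0 * (n 0 0 * v.2.1 + n 0 1 * v.2.2) + m 1 1 * (n 1 0 * v.2.1 + n 1 1 * v.2.2)
      rw [Matrix.mul_apply, Matrix.mul_apply, Fin.sum_univ_two, Fin.sum_univ_two]
      ring
  map_zero' := by
    refine LinearMap.ext fun v => ?_
    rw [VZero_end_apply]
    refine Prod.ext rfl (Prod.ext ?_ ?_)
    · change (0 : D.L) * v.2.1 + 0 * v.2.2 = 0
      ring
    · change (0 : D.L) * v.2.1 + 0 * v.2.2 = 0
      ring
  map_add' := fun m n => by
    refine LinearMap.ext fun v => ?_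
    change VZero_end D (m + n) v = VZero_end D m v + VZero_end D n v
    rw [VZero_end_apply, VZero_end_apply, VZero_end_apply]
    refine Prod.ext rfl (Prod.ext ?_ ?_)
    · change (m 0 0 + n 0 0) * v.2.1 + (m 0 1 + n 0 1) * v.2.2 =
        (m 0 0 * v.2.1 + m 0 1 * v.2.2) + (n 0 0 * v.2.1 + n 0 1 * v.2.2)
      ring
    · change (m 1 0 + n 1 0) * v.2.1 + (m 1 1 + n 1 1) * v.2.2 =
        (m 1 0 * v.2.1 + m 1 1 * v.2.2) + (n 1 0 * v.2.1 + n 1 1 * v.2.2)
      ring
  commutes' := fun c => by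
    refine LinearMap.ext fun v => ?_
    change VZero_end D (algebraMap k (Matrix (Fin 2) (Fin 2) D.L) c) v = c • v
    rw [VZero_end_apply]
    refine Prod.ext rfl (Prod.ext ?_ ?_)
    · change algebraMap k (Matrix (Fin 2) (Fin 2) D.L) c 0 0 * v.2.1 +
        algebraMap k (Matrix (Fin 2) (Fin 2) D.L) c 0 1 * v.2.2 = c • v.2.1
      rw [Matrix.algebraMap_matrix_apply, Matrix.algebraMap_matrix_apply, if_pos rfl,
        if_neg (by decide), zero_mul, add_zero, Algebra.smul_def]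
    · change algebraMap k (Matrix (Fin 2) (Fin 2) D.L) c 1 0 * v.2.1 +
        algebraMap k (Matrix (Fin 2) (Fin 2) D.L) c 1 1 * v.2.2 = c • v.2.2
      rw [Matrix.algebraMap_matrix_apply, Matrix.algebraMap_matrix_apply, if_pos rfl,
        if_neg (by decide), zero_mul, zero_add, Algebra.smul_def]

private theorem VZero_phi_apply (m : Matrix (Fin 2) (Fin 2) D.L) (v : VZero_E D) :
    VZero_phi D m v =
      (PUnit.unit, m 0 0 * v.2.1 + m 0 1 * v.2.2, m 1 0 * v.2.1 + m 1 1 * v.2.2) := rfl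

private theorem VZero_phi_one (m : Matrix (Fin 2) (Fin 2) D.L) (t : D.L) :
    VZero_phi D m ((PUnit.unit, t, 0) : VZero_E D) = (PUnit.unit, m 0 0 * t, m 1 0 * t) := by
  rw [VZero_phi_apply]
  change ((PUnit.unit, m 0 0 * t + m 0 1 * 0, m 1 0 * t + m 1 1 * 0) : VZero_E D) = _
  rw [mul_zero, mul_zero, add_zero, add_zero]

private theorem VZero_phi_two (m : Matrix (Fin 2) (Fin 2) D.L) (t : D.L) :
    VZero_phi D m ((PUnit.unit, 0, t) : VZero_E D) = (PUnit.unit, m 0 1 * t, m 1 1 * t) := by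
  rw [VZero_phi_apply]
  change ((PUnit.unit, m 0 0 * 0 + m 0 1 * t, m 1 0 * 0 + m 1 1 * t) : VZero_E D) = _
  rw [mul_zero, mul_zero, zero_add, zero_add]

private theorem VZero_inj : Function.Injective (VZero_phi D) := by
  intro m n h
  have h1 := congrArg (fun f : Module.End D.L (VZero_E D) => f (PUnit.unit, 1, 0)) h
  have h2 := congrArg (fun f : Module.End D.L (VZero_E D) => f (PUnit.unit, 0, 1)) h
  change VZero_phi D m (PUnit.unit, 1, 0) = VZero_phi D n (PUnit.unit, 1, 0) at h1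
  change VZero_phi D m (PUnit.unit, 0, 1) = VZero_phi D n (PUnit.unit, 0, 1) at h2
  rw [VZero_phi_one, VZero_phi_one] at h1
  rw [VZero_phi_two, VZero_phi_two] at h2
  simp only [mul_one, Prod.mk.injEq, true_and] at h1 h2
  ext i j
  fin_cases i <;> fin_cases j
  · exact h1.1
  · exact h2.1
  · exact h1.2
  · exact h2.2

private theorem VZero_surj : Function.Surjective (VZero_phi D) := by
  intro f
  refine ⟨!![(f (PUnit.unit, 1, 0)).2.1, (f (PUnit.unit, 0, 1)).2.1;
    (f (PUnit.unit, 1, 0)).2.2, (f (PUnit.unit, 0, 1)).2.2], LinearMap.ext fun v => ?_⟩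
  have hv : v = v.2.1 • ((PUnit.unit, 1, 0) : VZero_E D) +
      v.2.2 • ((PUnit.unit, 0, 1) : VZero_E D) := by
    refine Prod.ext rfl (Prod.ext ?_ ?_)
    · change v.2.1 = v.2.1 * 1 + v.2.2 * 0
      ring
    · change v.2.2 = v.2.1 * 0 + v.2.2 * 1
      ring
  have hf : f v = v.2.1 • f (PUnit.unit, 1, 0) + v.2.2 • f (PUnit.unit, 0, 1) := by
    conv_lhs => rw [hv]
    rw [map_add, map_smul, map_smul]
  rw [hf, VZero_phi_apply]
  refine Prod.ext rfl (Prod.ext ?_ ?_)
  · change (f (PUnit.unit, 1, 0)).2.1 * v.2.1 + (f (PUnit.unit, 0, 1)).2.1 * v.2.2 =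
      v.2.1 * (f (PUnit.unit, 1, 0)).2.1 + v.2.2 * (f (PUnit.unit, 0, 1)).2.1
    ring
  · change (f (PUnit.unit, 1, 0)).2.2 * v.2.1 + (f (PUnit.unit, 0, 1)).2.2 * v.2.2 =
      v.2.1 * (f (PUnit.unit, 1, 0)).2.2 + v.2.2 * (f (PUnit.unit, 0, 1)).2.2
    ring

/-! ### The charts -/

private theorem VZero_SS0 : SS k 0 = kk k RatFunc.X := by
  unfold SS kk
  refine le_antisymm (Algebra.adjoin_le ?_) (Algebra.adjoin_mono ?_)
  · rintro f ⟨j, rfl⟩
    have hX : (RatFunc.X : RatFunc k) ∈ Algebra.adjoin k {(RatFunc.X : RatFunc k)} :=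
      Algebra.subset_adjoin rfl
    have h0 : ell k 0 = 1 := rfl
    rw [h0, div_one]
    fin_cases j
    · exact Subalgebra.one_mem _
    · exact hX
    · exact Subalgebra.sub_mem _ hX (Subalgebra.one_mem _)
  · rintro f rfl
    refine ⟨1, ?_⟩
    have h0 : ell k 0 = 1 := rfl
    rw [h0, div_one]
    rfl

private theorem VZero_SS1 : SS k 1 = kk k (RatFunc.X)⁻¹ := by
  have hX : (RatFunc.X : RatFunc k) ≠ 0 := RatFunc.X_ne_zero
  have h1 : ell k 1 = RatFunc.X := rfl
  unfold SS kk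
  refine le_antisymm (Algebra.adjoin_le ?_) (Algebra.adjoin_mono ?_)
  · rintro f ⟨j, rfl⟩
    have hX' : (RatFunc.X : RatFunc k)⁻¹ ∈ Algebra.adjoin k {(RatFunc.X : RatFunc k)⁻¹} :=
      Algebra.subset_adjoin rfl
    rw [h1]
    fin_cases j
    · change (1 : RatFunc k) / RatFunc.X ∈ _
      rw [one_div]
      exact hX'
    · change (RatFunc.X : RatFunc k) / RatFunc.X ∈ _
      rw [div_self hX]
      exact Subalgebra.one_mem _
    · change ((RatFunc.X : RatFunc k) - 1) / RatFunc.X ∈ _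
      rw [sub_div, div_self hX, one_div]
      exact Subalgebra.sub_mem _ (Subalgebra.one_mem _) hX'
  · rintro f rfl
    refine ⟨0, ?_⟩
    rw [h1]
    change _ = (1 : RatFunc k) / RatFunc.X
    rw [one_div]

private theorem VZero_int {S T : Subalgebra k (RatFunc k)} (h : S = T) (b : D.L) :
    IsIntegral S b ↔ IsIntegral T b := by
  subst h
  rfl

private theorem VZero_B0 (b : D.L) : b ∈ (LP.OO D).N0 ↔ b ∈ BM D 0 :=
  (VZero_int D VZero_SS0 b).symm

private theorem VZero_B1 (b : D.L) : b ∈ (LP.OO D).N1 ↔ b ∈ BM D 1 :=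
  (VZero_int D VZero_SS1 b).symm

private theorem VZero_smul (b : D.L) : (RatFunc.X : RatFunc k) • b = el D 1 * b :=
  Algebra.smul_def _ _

private theorem VZero_smul_pow (b : D.L) (n : ℕ) :
    (RatFunc.X : RatFunc k) ^ n • b = el D 1 ^ n * b := by
  rw [Algebra.smul_def, map_pow]
  rfl

private theorem VZero_smul_inv (b : D.L) :
    (RatFunc.X : RatFunc k) ^ (-1 : ℤ) • b = (el D 1)⁻¹ * b := by
  rw [Algebra.smul_def, map_zpow₀, zpow_neg_one]
  rfl

/-- membership in the lattice at `0` -/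
private theorem VZero_N0 (v : VZero_E D) :
    v ∈ (VZero_V D).plus.N0 ↔ v.2.1 ∈ BM D 0 ∧ v.2.2 ∈ BM D 0 := by
  refine (Submodule.mem_prod (p := (VZero_V D).N0)).trans ?_
  refine Iff.trans ⟨fun h => h.2, fun h => ⟨Submodule.mem_top, h⟩⟩ ?_
  refine (Submodule.mem_prod (p := (LP.OO D).N0) (q := ((LP.OO D).tw 1).N0)).trans ?_
  exact and_congr (VZero_B0 D _) (VZero_B0 D _)

/-- membership in the lattice at infinity -/
private theorem VZero_N1 (v : VZero_E D) :
    v ∈ (VZero_V D).plus.N1 ↔ v.2.1 ∈ BM D 1 ∧ (el D 1)⁻¹ * v.2.2 ∈ BM D 1 := by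
  refine (Submodule.mem_prod (p := (VZero_V D).N1)).trans ?_
  refine Iff.trans ⟨fun h => h.2, fun h => ⟨Submodule.mem_top, h⟩⟩ ?_
  refine (Submodule.mem_prod (p := (LP.OO D).N1) (q := ((LP.OO D).tw 1).N1)).trans ?_
  refine and_congr (VZero_B1 D _) ?_
  rw [LP.mem_tw_N1, VZero_smul_inv]
  exact VZero_B1 D _

/-- membership in the localization -/
private theorem VZero_N01 (v : VZero_E D) : v ∈ (VZero_V D).plus.N01 ↔
    ∃ n : ℕ, el D 1 ^ n * v.2.1 ∈ BM D 0 ∧ el D 1 ^ n * v.2.2 ∈ BM D 0 := by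
  refine exists_congr fun n => ?_
  refine (VZero_N0 D _).trans ?_
  refine and_congr ?_ ?_
  · rw [← VZero_smul_pow]
    rfl
  · rw [← VZero_smul_pow]
    rfl

private theorem VZero_OA0 {i : ℤ} {f : D.L} : f ∈ OA D (insert 0 ∅) i ↔ f ∈ BM D 0 := by
  have h := mem_OA_sgl (D := D) (m := 0) (i := i) (f := f)
  rw [el_zero, one_zpow, one_mul] at h
  exact h

private theorem VZero_OA1 {i : ℤ} {f : D.L} :
    f ∈ OA D (insert 1 ∅) i ↔ el D 1 ^ (-i) * f ∈ BM D 1 := mem_OA_sgl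

private theorem VZero_OA01 {i : ℤ} {f : D.L} :
    f ∈ OA D (insert 0 (insert 1 ∅)) i ↔ ∃ n : ℕ, el D 1 ^ n * f ∈ BM D 0 := by
  constructor
  · intro h
    obtain ⟨n, hn⟩ := h 0
    refine ⟨n, ?_⟩
    have h1 : rho D (insert 0 (insert 1 ∅)) 0 = el D 1 := by
      unfold rho
      rw [Finset.prod_insert (by decide), Finset.prod_insert (by decide), Finset.prod_empty,
        div_self (el_ne D 0), el_zero, div_one, one_mul, mul_one]
    rw [h1, el_zero, one_zpow, one_mul] at hn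
    exact hn
  · rintro ⟨n, hn⟩
    have h1 : el D 1 ^ n * f ∈ OA D (insert 0 (insert 1 ∅)) (i + n) :=
      OA_mono (a := insert 0 ∅) (fun j hj => by
        rcases Finset.mem_insert.1 hj with rfl | hj
        · exact Finset.mem_insert_self _ _
        · exact absurd hj (Finset.notMem_empty _)) _ ((VZero_OA0 D).2 hn)
    have h2 : el D 1 ^ (-(n : ℤ)) ∈ OA D (insert 0 (insert 1 ∅)) (-(n : ℤ)) :=
      zpow_mem_OA (Finset.mem_insert_of_mem (Finset.mem_insert_self _ _)) _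
    have h3 := OA_mul h2 h1
    have h4 : el D 1 ^ (-(n : ℤ)) * (el D 1 ^ n * f) = f := by
      rw [← mul_assoc, ← zpow_natCast (el D 1) n, ← zpow_add₀ (el_ne D 1), neg_add_cancel,
        zpow_zero, one_mul]
    rw [h4, neg_add_cancel_comm_assoc] at h3
    exact h3

private theorem VZero_powmem {n l : ℕ} (h : n ≤ l) {f : D.L} (hf : el D 1 ^ n * f ∈ BM D 0) :
    el D 1 ^ l * f ∈ BM D 0 := by
  obtain ⟨e, rfl⟩ := Nat.exists_eq_add_of_le h
  rw [add_comm, pow_add, mul_assoc]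
  have h1 : el D 1 ∈ BM D 0 := by
    have h2 := el_div_mem D 1 0
    rwa [el_zero, div_one] at h2
  exact (BM D 0).mul_mem (pow_mem h1 e) hf

/-! ### The three charts -/

private theorem VZero_m0 (m : Matrix (Fin 2) (Fin 2) D.L) :
    m ∈ EM D (insert 0 ∅) ↔ VZero_phi D m ∈ EA0 (VZero_V D).plus := by
  rw [mem_EM]
  simp only [VZero_OA0]
  constructor
  · intro h v hv
    have hv' := (VZero_N0 D v).1 hv
    refine (VZero_N0 D _).2 ⟨?_, ?_⟩
    · exact (BM D 0).add_mem ((BM D 0).mul_mem (h 0 0) hv'.1) ((BM D 0).mul_mem (h 0 1) hv'.2)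
    · exact (BM D 0).add_mem ((BM D 0).mul_mem (h 1 0) hv'.1) ((BM D 0).mul_mem (h 1 1) hv'.2)
  · intro h
    have h1 := h ((PUnit.unit, 1, 0) : VZero_E D)
      ((VZero_N0 D _).2 ⟨(BM D 0).one_mem, (BM D 0).zero_mem⟩)
    have h2 := h ((PUnit.unit, 0, 1) : VZero_E D)
      ((VZero_N0 D _).2 ⟨(BM D 0).zero_mem, (BM D 0).one_mem⟩)
    have h1' := (VZero_N0 D _).1 ((VZero_phi_one D m 1) ▸ h1)
    have h2' := (VZero_N0 D _).1 ((VZero_phi_two D m 1) ▸ h2)
    simp only [mul_one] at h1' h2'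
    intro p q
    fin_cases p <;> fin_cases q
    · exact h1'.1
    · exact h2'.1
    · exact h1'.2
    · exact h2'.2

private theorem VZero_m1 (m : Matrix (Fin 2) (Fin 2) D.L) :
    m ∈ EM D (insert 1 ∅) ↔ VZero_phi D m ∈ EA1 (VZero_V D).plus := by
  have ht := el_ne D 1
  have key : m ∈ EM D (insert 1 ∅) ↔ (m 0 0 ∈ BM D 1 ∧ el D 1 * m 0 1 ∈ BM D 1) ∧
      ((el D 1)⁻¹ * m 1 0 ∈ BM D 1 ∧ m 1 1 ∈ BM D 1) := by
    rw [mem_EM, Fin.forall_fin_two, Fin.forall_fin_two, Fin.forall_fin_two, VZero_OA1, VZero_OA1,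
      VZero_OA1, VZero_OA1]
    simp
  rw [key]
  constructor
  · rintro ⟨⟨h00, h01⟩, h10, h11⟩ v hv
    have hv' := (VZero_N1 D v).1 hv
    refine (VZero_N1 D _).2 ⟨?_, ?_⟩
    · have h := (BM D 1).add_mem ((BM D 1).mul_mem h00 hv'.1) ((BM D 1).mul_mem h01 hv'.2)
      have e : m 0 0 * v.2.1 + el D 1 * m 0 1 * ((el D 1)⁻¹ * v.2.2) =
          m 0 0 * v.2.1 + m 0 1 * v.2.2 := by
        field_simp
      rw [e] at h
      exact h
    · have h := (BM D 1).add_mem ((BM D 1).mul_mem h10 hv'.1) ((BM D 1).mul_mem h11 hv'.2)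
      have e : (el D 1)⁻¹ * m 1 0 * v.2.1 + m 1 1 * ((el D 1)⁻¹ * v.2.2) =
          (el D 1)⁻¹ * (m 1 0 * v.2.1 + m 1 1 * v.2.2) := by ring
      rw [e] at h
      exact h
  · intro h
    have h1 := h ((PUnit.unit, 1, 0) : VZero_E D) ((VZero_N1 D _).2 ⟨(BM D 1).one_mem, by
      change (el D 1)⁻¹ * (0 : D.L) ∈ BM D 1
      rw [mul_zero]
      exact (BM D 1).zero_mem⟩)
    have h2 := h ((PUnit.unit, 0, el D 1) : VZero_E D) ((VZero_N1 D _).2 ⟨(BM D 1).zero_mem, by
      change (el D 1)⁻¹ * el D 1 ∈ BM D 1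
      rw [inv_mul_cancel₀ ht]
      exact (BM D 1).one_mem⟩)
    have h1' := (VZero_N1 D _).1 ((VZero_phi_one D m 1) ▸ h1)
    have h2' := (VZero_N1 D _).1 ((VZero_phi_two D m (el D 1)) ▸ h2)
    simp only [mul_one] at h1'
    refine ⟨⟨h1'.1, ?_⟩, h1'.2, ?_⟩
    · rw [mul_comm]
      exact h2'.1
    · have h3 := h2'.2
      change (el D 1)⁻¹ * (m 1 1 * el D 1) ∈ BM D 1 at h3
      have e : (el D 1)⁻¹ * (m 1 1 * el D 1) = m 1 1 := by
        field_simp
      rwa [e] at h3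

private theorem VZero_m01 (m : Matrix (Fin 2) (Fin 2) D.L) :
    m ∈ EM D (insert 0 (insert 1 ∅)) ↔ VZero_phi D m ∈ EA01 (VZero_V D).plus := by
  rw [mem_EM]
  simp only [VZero_OA01]
  constructor
  · intro h v hv
    obtain ⟨n, hn1, hn2⟩ := (VZero_N01 D v).1 hv
    obtain ⟨a, ha⟩ := h 0 0
    obtain ⟨b, hb⟩ := h 0 1
    obtain ⟨c, hc⟩ := h 1 0
    obtain ⟨d, hd⟩ := h 1 1
    have ha' := VZero_powmem D (show a ≤ a + b + c + d by omega) ha
    have hb' := VZero_powmem D (show b ≤ a + b + c + d by omega) hb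
    have hc' := VZero_powmem D (show c ≤ a + b + c + d by omega) hc
    have hd' := VZero_powmem D (show d ≤ a + b + c + d by omega) hd
    refine (VZero_N01 D _).2 ⟨(a + b + c + d) + n, ?_, ?_⟩
    · have h := (BM D 0).add_mem ((BM D 0).mul_mem ha' hn1) ((BM D 0).mul_mem hb' hn2)
      have e : el D 1 ^ (a + b + c + d) * m 0 0 * (el D 1 ^ n * v.2.1) +
          el D 1 ^ (a + b + c + d) * m 0 1 * (el D 1 ^ n * v.2.2) =
          el D 1 ^ ((a + b + c + d) + n) * (m 0 0 * v.2.1 + m 0 1 * v.2.2) := by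
        rw [pow_add (el D 1) (a + b + c + d) n]
        ring
      rw [e] at h
      exact h
    · have h := (BM D 0).add_mem ((BM D 0).mul_mem hc' hn1) ((BM D 0).mul_mem hd' hn2)
      have e : el D 1 ^ (a + b + c + d) * m 1 0 * (el D 1 ^ n * v.2.1) +
          el D 1 ^ (a + b + c + d) * m 1 1 * (el D 1 ^ n * v.2.2) =
          el D 1 ^ ((a + b + c + d) + n) * (m 1 0 * v.2.1 + m 1 1 * v.2.2) := by
        rw [pow_add (el D 1) (a + b + c + d) n]
        ring
      rw [e] at h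
      exact h
  · intro h
    have h1 := h ((PUnit.unit, 1, 0) : VZero_E D) ((VZero_N01 D _).2 ⟨0, by
      rw [pow_zero, one_mul]
      exact (BM D 0).one_mem, by
      rw [pow_zero, one_mul]
      exact (BM D 0).zero_mem⟩)
    have h2 := h ((PUnit.unit, 0, 1) : VZero_E D) ((VZero_N01 D _).2 ⟨0, by
      rw [pow_zero, one_mul]
      exact (BM D 0).zero_mem, by
      rw [pow_zero, one_mul]
      exact (BM D 0).one_mem⟩)
    obtain ⟨n, h3, h4⟩ := (VZero_N01 D _).1 ((VZero_phi_one D m 1) ▸ h1)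
    obtain ⟨n', h5, h6⟩ := (VZero_N01 D _).1 ((VZero_phi_two D m 1) ▸ h2)
    simp only [mul_one] at h3 h4 h5 h6
    intro p q
    fin_cases p <;> fin_cases q
    · exact ⟨n, h3⟩
    · exact ⟨n', h5⟩
    · exact ⟨n, h4⟩
    · exact ⟨n', h6⟩

/-! ### The isomorphism -/

private theorem VZero_cod {A : Subalgebra k (Matrix (Fin 2) (Fin 2) D.L)}
    {B : Subalgebra k (Module.End D.L (VZero_E D))} (h : ∀ m, m ∈ A ↔ VZero_phi D m ∈ B) :
    Function.Bijective (((VZero_phi D).comp A.val).codRestrict B (fun m => (h m.1).1 m.2)) := by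
  constructor
  · intro m n hmn
    exact Subtype.ext (VZero_inj D (congrArg Subtype.val hmn))
  · rintro ⟨f, hf⟩
    obtain ⟨m, rfl⟩ := VZero_surj D f
    exact ⟨⟨m, (h m).2 hf⟩, rfl⟩

private def VZero_c0 : EM D (insert 0 ∅) →ₐ[k] EA0 (VZero_V D).plus :=
  ((VZero_phi D).comp (EM D (insert 0 ∅)).val).codRestrict (EA0 (VZero_V D).plus)
    (fun m => (VZero_m0 D m.1).1 m.2)

private def VZero_c1 : EM D (insert 1 ∅) →ₐ[k] EA1 (VZero_V D).plus :=
  ((VZero_phi D).comp (EM D (insert 1 ∅)).val).codRestrict (EA1 (VZero_V D).plus)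
    (fun m => (VZero_m1 D m.1).1 m.2)

private def VZero_c01 : EM D (insert 0 (insert 1 ∅)) →ₐ[k] EA01 (VZero_V D).plus :=
  ((VZero_phi D).comp (EM D (insert 0 (insert 1 ∅))).val).codRestrict (EA01 (VZero_V D).plus)
    (fun m => (VZero_m01 D m.1).1 m.2)

private def VZero_coh : CoH (cospC D ∅) (endCosp (VZero_V D).plus) where
  f0 := VZero_c0 D
  f1 := VZero_c1 D
  f01 := VZero_c01 D
  h0 := fun _ => Subtype.ext rfl
  h1 := fun _ => Subtype.ext rfl

/-- `RΓ(C, End(O ⊕ O(1)))` is the dg algebra of the curve `C` in the sense of `IsCurve`, for the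
vector bundle zero.

PROOF. Let `F : LSp D` with `F.F = PUnit` (all structures trivial) and `V : LP k F.F` the zero lattice
pair (all `N0, N1 = ⊤ = ⊥`; all fields trivial because `PUnit` is a subsingleton); `BStable V` is
trivial. Let `W = (endCosp V.plus).cech`; the space is `PUnit × D.L × D.L` and
`V.plus = 0 ⊕ O ⊕ O(1)`. The isomorphism `T1 D ∅ → W` is given on all three components by
`m ↦ (endomorphism (z, v0, v1) ↦ (z, m 0 0 * v0 + m 0 1 * v1, m 1 0 * v0 + m 1 1 * v1))`; it is an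
isomorphism of algebras from the `2 × 2` matrices over `D.L` to `Module.End D.L (PUnit × D.L × D.L)`
(unital because `PUnit` is a subsingleton). It identifies `EM D (insert 0 ∅)` with `EA0 V.plus`,
`EM D (insert 1 ∅)` with `EA1 V.plus` and `EM D (insert 0 (insert 1 ∅))` with `EA01 V.plus`:
By `mem_OA_sgl` (`el 0 = 1`, `el 1 = X`) the entry `m p q` of a matrix in `EM D {0}` is in
`BM D 0`, the integral closure of `k[X]`, which is `(LP.OO D).N0` and `((LP.OO D).tw 1).N0`; and for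
`EM D {1}` it is `X ^ (p - q)` times an element of `BM D 1`, the integral closure of `k[1/X]`
(`SS k 1 = k[1/X]`), and `(LP.OO D).N1 = BM D 1`, `((LP.OO D).tw 1).N1 = X • BM D 1` (see the
definition of `LP.tw`, `LP.OO` in `Lib/MP_6e5bed_ag_CV`). A matrix preserves
`N ⊕ N'` iff each entry maps the corresponding summands (`1 ∈ BM`). For the localization: `f` is in
`EM D {0, 1}` iff for all `m` the entries `el m ^ (-i) * f` are in `BM D m` after multiplication with
a power of `rho D {0, 1} m`, and this is equivalent to `X ^ n * f ∈ BM D 0` for some `n`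
(for `m = 0`: `rho D {0,1} 0 = X`; conversely use `BM_loc` to pass from the chart `0` to the charts
`1` and `2`: `(el 0 / el m') ^ n` and `(el 1 / el m') ^ n` divide powers of `rho D {0,1} m'`).
Together they give a bijective morphism of cospans, hence of the Čech dg algebras
(`CoH.dh`). -/
theorem exists_t1_curve : ∃ W : DGA k, IsCurve W ∧ ∃ r : DHom (T1 D ∅) W,
    Function.Bijective r.f := by
  refine ⟨(endCosp (VZero_V D).plus).cech, ⟨D, VZero_F D, VZero_V D,
    ⟨fun _ _ _ _ => Submodule.mem_top, fun _ _ _ _ => Submodule.mem_top⟩, rfl⟩,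
    (VZero_coh D).dh, ?_⟩
  have h0 := VZero_cod D (VZero_m0 D)
  have h1 := VZero_cod D (VZero_m1 D)
  have h01 := VZero_cod D (VZero_m01 D)
  exact (h0.prodMap h1).prodMap h01

end Pool.Agent.MP_6e5bed_ag_PS
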