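import Pool.Agent.Lib.MP_6e5bed_ag_PS.EmP

set_option autoImplicit false
set_option linter.unusedVariables false

/-!
# MP_6e5bed_ag, NC PRODUCT SURFACES: the presheaf `c ↦ RΓ(U_c, End(O ⊕ O(1))) ⊗ RΓ(U'_c, End(O ⊕ O(1)))`
-/

noncomputable section

namespace Pool.Agent.MP_6e5bed_ag_PS

open Pool.Agent.MP_6e5bed_ag_NC
open Pool.Agent.MP_6e5bed_ag_NS
open scoped TensorProduct

universe u

variable {k : Type u} [Field k] (D : FExt k)

/-- the presheaf of the matrices, as dg algebras -/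
def emP : PA k where
  A := fun c => ring k (EM D (cF c))
  r := fun h => ringH (emR D (cF_mono h))
  r_id := fun _ _ => rfl
  r_r := fun _ _ _ => rfl

/-- the presheaf of the dg algebras `T1` -/
def t1P : PA k where
  A := fun c => T1 D (cF c)
  r := fun h => t1R D (cF_mono h)
  r_id := fun _ _ => rfl
  r_r := fun _ _ _ => rfl

/-- the constant augmentation -/
def t1A : PAC (T1 D ∅) (t1P D) where
  f := fun c => t1R D (Finset.empty_subset _)
  nat := fun _ _ => rfl

/-- the comparison -/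
def t1Uh : PAH (emP D) (t1P D) where
  f := fun c => t1U D (cF c)
  nat := fun h x => t1R_t1U D (cF_mono h) x

/-- On an affine chart the higher cohomology is zero.

PROOF. `t1U D a` is `m ↦ ((m, m), 0)`. The entries of the matrices are treated one by one. Injective
in cohomology: the differential of `ring k _` is zero, the first component of a boundary of `T1` is
zero (`Dg.two_d`), and `m ↦ (m, m)` is injective. Surjective: a cycle is `((m0, m1), h)` with
`m1 = m0` as matrices, so the entries are in `OA D (insert 0 a) _` and `OA D (insert 1 a) _`, hence in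
`OA D a _` by `OA_inter`; and `(0, h)` is a boundary by `OA_split` for all entries. -/
theorem t1U_dqi {a : Finset (Fin 3)} (ha : a.Nonempty) : DQI (t1U D a) := by
  refine ⟨fun (x : EM D a) _ hy => ?_, fun y hy => ?_⟩
  · obtain ⟨y, hy⟩ := hy
    have h1 : (0 : EM D (insert 0 a)) = emR D (Finset.subset_insert 0 a) x :=
      congrArg (fun z : (EM D (insert 0 a) × EM D (insert 1 a)) × EM D (insert 0 (insert 1 a)) =>
        z.1.1) hy
    have h2 : x = 0 := Subtype.ext (congrArg Subtype.val h1).symm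
    exact ⟨0, (map_zero _).trans h2.symm⟩
  · obtain ⟨⟨m0, m1⟩, h⟩ : (EM D (insert 0 a) × EM D (insert 1 a)) ×
      EM D (insert 0 (insert 1 a)) := y
    have h1 : (m1 : Matrix (Fin 2) (Fin 2) D.L) - m0 = 0 :=
      congrArg (fun z : (EM D (insert 0 a) × EM D (insert 1 a)) ×
        EM D (insert 0 (insert 1 a)) => (z.2 : Matrix (Fin 2) (Fin 2) D.L)) hy
    have h2 : (m1 : Matrix (Fin 2) (Fin 2) D.L) = m0 := sub_eq_zero.1 h1
    have hx : (m0 : Matrix (Fin 2) (Fin 2) D.L) ∈ EM D a := fun p q =>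
      OA_inter ha (m0.2 p q) (by rw [← h2]; exact m1.2 p q)
    choose F0 hF0 F1 hF1 hF using fun p q => OA_split (D := D) ha (h.2 p q)
    refine ⟨(⟨m0, hx⟩ : EM D a), rfl, (((⟨Matrix.of F0, hF0⟩ : EM D (insert 0 a)),
      (⟨Matrix.of F1, hF1⟩ : EM D (insert 1 a))), (0 : EM D (insert 0 (insert 1 a)))), ?_⟩
    have e1 : (0 : EM D (insert 0 a)) = m0 - emR D (Finset.subset_insert 0 a) ⟨m0, hx⟩ :=
      Subtype.ext (sub_self (m0 : Matrix (Fin 2) (Fin 2) D.L)).symm
    have e2 : (0 : EM D (insert 1 a)) = m1 - emR D (Finset.subset_insert 1 a) ⟨m0, hx⟩ :=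
      Subtype.ext h1.symm
    have e3 : (cospC D a).r1 (⟨Matrix.of F1, hF1⟩ : EM D (insert 1 a)) -
        (cospC D a).r0 (⟨Matrix.of F0, hF0⟩ : EM D (insert 0 a)) = h := by
      refine Subtype.ext (Matrix.ext fun p q => ?_)
      change F1 p q - F0 p q = (h : Matrix (Fin 2) (Fin 2) D.L) p q
      rw [hF]
    exact Prod.ext (Prod.ext e1 e2) (e3.trans (sub_zero h).symm)

/-- The identity, from the complex of the cospan of complexes in degree zero to the Čech complex.

PROOF. Both have the underlying module `(A0 × A1) × A01`. The differentials agree by `co_d`,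
`Dg.two_d` (the differentials of `Cx.conc` are zero). Degrees: `co_deg`, `Dg.conc_cases`, and
`Dg.two_deg0'`, `Dg.two_deg1'`. -/
theorem co_cech (T : Cosp k) : ∃ φ : CHom (co (concH T.r0.toLinearMap) (concH T.r1.toLinearMap))
    (acx T.cech), ∀ x, φ.f x = x := by
  refine ⟨⟨LinearMap.id, fun {i x} hx => ?_, fun x => ?_⟩, fun x => rfl⟩
  · obtain ⟨⟨x0, x1⟩, ξ⟩ := x
    have h := co_deg.1 hx
    change (Dg.two T.δ).IsDeg i ((x0, x1), ξ)
    rcases Dg.conc_cases h.1 with h0 | h0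
    · rcases Dg.conc_cases h.2.2 with h1 | h1
      · exfalso
        omega
      · rw [h0]
        exact Dg.two_deg0' T.δ h1
    · rcases Dg.conc_cases h.2.1 with h1 | h1
      · rcases Dg.conc_cases h.2.2 with h2 | h2
        · exfalso
          omega
        · rw [h1]
          exact Dg.two_deg0' T.δ h2
      · rcases Dg.conc_cases h.2.2 with h2 | h2
        · have h3 : i = 1 := by omega
          rw [h3]
          exact Dg.two_deg1' T.δ (Prod.ext h0 h1)
        · have h3 : (((x0, x1), ξ) : (T.A0 × T.A1) × T.A01) = 0 :=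
            Prod.ext (Prod.ext h0 h1) h2
          rw [h3]
          exact Dg.IsDeg.zero _
  · obtain ⟨⟨x0, x1⟩, ξ⟩ := x
    refine Eq.trans ?_ (co_d (r0 := concH T.r0.toLinearMap) (r1 := concH T.r1.toLinearMap)
      x0 x1 ξ).symm
    have e : T.r1 x1 - T.r0 x0 = T.r1 x1 - T.r0 x0 - 0 := (sub_zero _).symm
    exact Prod.ext rfl e

/-- the index functions for which the base case applies -/
private structure Aug_OK (G : Finset (Fin 3) → Finset (Fin 3)) : Prop where
  mono : ∀ {a b}, a ⊆ b → G a ⊆ G b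
  ins : ∀ a j, G (insert j a) ⊆ insert j (G a)
  ne : 0 ∈ G ∅ ∨ 1 ∈ G ∅

private theorem Aug_ok0 : Aug_OK (fun a => insert 0 a) where
  mono := fun h => Finset.insert_subset_insert 0 h
  ins := fun a j => (Finset.insert_comm 0 j a).subset
  ne := Or.inl (Finset.mem_insert_self _ _)

private theorem Aug_ok1 : Aug_OK (fun a => insert 1 a) where
  mono := fun h => Finset.insert_subset_insert 1 h
  ins := fun a j => (Finset.insert_comm 1 j a).subset
  ne := Or.inr (Finset.mem_insert_self _ _)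

private theorem Aug_ok01 : Aug_OK (fun a => insert 0 (insert 1 a)) where
  mono := fun h => Finset.insert_subset_insert 0 (Finset.insert_subset_insert 1 h)
  ins := fun a j => by
    rw [Finset.insert_comm 1 j a, Finset.insert_comm 0 j (insert 1 a)]
  ne := Or.inl (Finset.mem_insert_self _ _)

private def Aug_r0 : PCH (emV D (fun a => insert 0 a) Aug_ok0.mono)
    (emV D (fun a => insert 0 (insert 1 a)) Aug_ok01.mono) where
  f := fun c => concH (cospC D (cF c)).r0.toLinearMap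
  nat := fun _ _ => rfl

private def Aug_r1 : PCH (emV D (fun a => insert 1 a) Aug_ok1.mono)
    (emV D (fun a => insert 0 (insert 1 a)) Aug_ok01.mono) where
  f := fun c => concH (cospC D (cF c)).r1.toLinearMap
  nat := fun _ _ => rfl

private def Aug_A : PCC (co (concH (cospC D ∅).r0.toLinearMap) (concH (cospC D ∅).r1.toLinearMap))
    (coP (Aug_r0 D) (Aug_r1 D)) :=
  coA (emA D (fun a => insert 0 a) Aug_ok0.mono) (emA D (fun a => insert 1 a) Aug_ok1.mono)
    (emA D (fun a => insert 0 (insert 1 a)) Aug_ok01.mono) (fun _ _ => rfl) (fun _ _ => rfl)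

private def Aug_phi (T : Cosp k) :
    CHom (co (concH T.r0.toLinearMap) (concH T.r1.toLinearMap)) (acx T.cech) :=
  (co_cech T).choose

private theorem Aug_phi_f (T : Cosp k)
    (x : (co (concH T.r0.toLinearMap) (concH T.r1.toLinearMap)).V) : (Aug_phi T).f x = x :=
  (co_cech T).choose_spec x

private theorem Aug_phi_qi (T : Cosp k) : (Aug_phi T).QI := by
  refine CHom.QI.of_bij ⟨fun x y h => ?_, fun y => ⟨y, Aug_phi_f T y⟩⟩
  exact ((Aug_phi_f T x).symm.trans h).trans (Aug_phi_f T y)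

private def Aug_P : PCH (coP (Aug_r0 D) (Aug_r1 D)) (t1P D).pc where
  f := fun c => Aug_phi (cospC D (cF c))
  nat := fun {c d} h x => by
    have h1 := Aug_phi_f (cospC D (cF c)) x
    have h2 := Aug_phi_f (cospC D (cF d)) (((coP (Aug_r0 D) (Aug_r1 D)).ρ h).f x)
    refine Eq.trans (congrArg (fun y => ((t1P D).pc.ρ h).f y) h1) (Eq.trans ?_ h2.symm)
    rfl

private theorem Aug_c (c : Ch k)
    (x : (co (concH (cospC D ∅).r0.toLinearMap) (concH (cospC D ∅).r1.toLinearMap)).V) :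
    ((Aug_P D).f c).f (((Aug_A D).f c).f x) =
      ((t1A D).pcc.f c).f ((Aug_phi (cospC D ∅)).f x) := by
  have h1 := Aug_phi_f (cospC D (cF c)) (((Aug_A D).f c).f x)
  have h2 := Aug_phi_f (cospC D ∅) x
  refine Eq.trans h1 (Eq.trans ?_ (congrArg (fun y => ((t1A D).pcc.f c).f y) h2.symm))
  rfl

private theorem Aug_sq {A1 A2 B1 B2 C1 C2 E1 E2 : Type u} [AddCommGroup A1] [Module k A1]
    [AddCommGroup A2] [Module k A2] [AddCommGroup B1] [Module k B1] [AddCommGroup B2]
    [Module k B2] [AddCommGroup C1] [Module k C1] [AddCommGroup C2] [Module k C2]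
    [AddCommGroup E1] [Module k E1] [AddCommGroup E2] [Module k E2] {p1 : B1 →ₗ[k] C1}
    {f1 : A1 →ₗ[k] B1} {g1 : E1 →ₗ[k] C1} {a1 : A1 →ₗ[k] E1} {p2 : B2 →ₗ[k] C2}
    {f2 : A2 →ₗ[k] B2} {g2 : E2 →ₗ[k] C2} {a2 : A2 →ₗ[k] E2} (h1 : p1 ∘ₗ f1 = g1 ∘ₗ a1)
    (h2 : p2 ∘ₗ f2 = g2 ∘ₗ a2) (x : A1 ⊗[k] A2) :
    TensorProduct.map p1 p2 (TensorProduct.map f1 f2 x) =
      TensorProduct.map g1 g2 (TensorProduct.map a1 a2 x) := by
  rw [← LinearMap.comp_apply, ← LinearMap.comp_apply, ← TensorProduct.map_comp,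
    ← TensorProduct.map_comp, h1, h2]

private theorem Aug_ten {X1 X1' X2 X2' : Cx k} {V1 V1' V2 V2' : PC k} (f1 : PCC X1 V1)
    (f1' : PCC X1' V1') (α1 : CHom X1 X1') (φ1 : PCH V1 V1')
    (h1 : ∀ c x, (φ1.f c).f ((f1.f c).f x) = (f1'.f c).f (α1.f x)) (q1 : α1.QI)
    (p1 : ∀ c : Ch k, (φ1.f c).QI) (f2 : PCC X2 V2) (f2' : PCC X2' V2') (α2 : CHom X2 X2')
    (φ2 : PCH V2 V2') (h2 : ∀ c x, (φ2.f c).f ((f2.f c).f x) = (f2'.f c).f (α2.f x))
    (q2 : α2.QI) (p2 : ∀ c : Ch k, (φ2.f c).QI) : (f1.ten f2).QIe ↔ (f1'.ten f2').QIe := by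
  refine PCC.qie_iff (f1.ten f2) (f1'.ten f2') (tenH α1 α2) (PCH.ten φ1 φ2) (fun c x => ?_)
    (tenH_qi q1 q2) (fun c _ => tenH_qi (p1 c) (p2 c))
  have e1 : (φ1.f c).f ∘ₗ (f1.f c).f = (f1'.f c).f ∘ₗ α1.f := LinearMap.ext (h1 c)
  have e2 : (φ2.f c).f ∘ₗ (f2.f c).f = (f2'.f c).f ∘ₗ α2.f := LinearMap.ext (h2 c)
  exact Aug_sq e1 e2 x

private theorem Aug_left {Y : Cx k} {W : PC k} (g : PCC Y W)
    (h : ∀ G (hG : Aug_OK G), ((emA D G hG.mono).ten g).QIe) : ((Aug_A D).ten g).QIe :=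
  qie_ten_left (emA D (fun a => insert 0 a) Aug_ok0.mono)
    (emA D (fun a => insert 1 a) Aug_ok1.mono)
    (emA D (fun a => insert 0 (insert 1 a)) Aug_ok01.mono) (fun _ _ => rfl) (fun _ _ => rfl) g
    (h _ Aug_ok0) (h _ Aug_ok1) (h _ Aug_ok01)

private theorem Aug_right {Y : Cx k} {W : PC k} (g : PCC Y W)
    (h : ∀ G (hG : Aug_OK G), (g.ten (emA D G hG.mono)).QIe) : (g.ten (Aug_A D)).QIe :=
  qie_ten_right (emA D (fun a => insert 0 a) Aug_ok0.mono)
    (emA D (fun a => insert 1 a) Aug_ok1.mono)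
    (emA D (fun a => insert 0 (insert 1 a)) Aug_ok01.mono) (fun _ _ => rfl) (fun _ _ => rfl) g
    (h _ Aug_ok0) (h _ Aug_ok1) (h _ Aug_ok01)

/-- The constant augmentation of the tensor product is a quasi-isomorphism.

PROOF. Let `G0 a = insert 0 a`, `G1 a = insert 1 a`, `G01 a = insert 0 (insert 1 a)`. By `co_cech` the
constant augmentation `(t1A D).pcc` is the same as
`coA (emA D G0 _) (emA D G1 _) (emA D G01 _) _ _` for the obvious maps
`emV D G0 → emV D G01 ← emV D G1` (`concH (emR D _)`): the identity is a bijective morphism of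
presheaves `coP _ _ → (t1P D).pc` (the components are the `φ` of `co_cech` for `cospC D (cF c)`) and
a bijective morphism `co _ _ → acx (T1 D ∅)`. So, with `tenH`, `PCH.ten` of these morphisms
(bijective by `TensorProduct.congr`, or quasi-isomorphisms by `tenH_qi`), `PCC.qie_iff` reduces the
statement to `coA ... ⊗ coA ...`. By `qie_ten_left` it is enough to prove it for
`emA D1 G ⊗ coA (emA D2 G0) (emA D2 G1) (emA D2 G01)`, `G ∈ {G0, G1, G01}`, and by `qie_ten_right` for
`emA D1 G ⊗ emA D2 G'`, `G, G' ∈ {G0, G1, G01}`: this is `em_qie`. -/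
theorem iota_qie (D1 D2 : FExt k) : ((t1A D1).ten (t1A D2)).pcc.QIe := by
  rw [PAC.ten_pcc]
  refine (Aug_ten (Aug_A D1) (t1A D1).pcc (Aug_phi (cospC D1 ∅)) (Aug_P D1) (Aug_c D1)
    (Aug_phi_qi _) (fun c => Aug_phi_qi _) (Aug_A D2) (t1A D2).pcc (Aug_phi (cospC D2 ∅))
    (Aug_P D2) (Aug_c D2) (Aug_phi_qi _) (fun c => Aug_phi_qi _)).1 ?_
  exact Aug_left D1 _ fun G hG => Aug_right D2 _ fun G' hG' =>
    em_qie D1 D2 G G' hG.mono hG'.mono hG.ins hG'.ins hG.ne hG'.ne

end Pool.Agent.MP_6e5bed_ag_PS
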