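import Mathlib

set_option autoImplicit false
set_option linter.unusedVariables false

/-!
# MP_6e5bed_ag, NC PRODUCT SURFACES: second syzygies over the product of two smooth affine curves
-/

noncomputable section

namespace Pool.Agent.MP_6e5bed_ag_PS

open scoped TensorProduct

universe u

/-- Local case.

PROOF. `R` is a noetherian local ring, `H = ker f ⊆ R ^ r` is finitely generated. `π` is regular on
`H` (it is regular on `R ^ r`). The quotient `H / π H` embeds into `(R / π) ^ r`: if
`h ∈ H`, `h = π • b`, `b ∈ R ^ r`, then `π • f b = 0`, so `f b = 0`, `b ∈ H`. `R / π` is a principal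
ideal domain, so the finitely generated torsion-free module `H / π H` is free. By
`Module.free_quotSMulTop_iff_free` (or the lemma of Mathlib on freeness modulo a regular element of
the maximal ideal) `H` is free. -/
theorem free_ker_local {R : Type u} [CommRing R] [IsLocalRing R] [IsNoetherianRing R] {π : R}
    (hπ : π ∈ IsLocalRing.maximalIdeal R) (hreg : π ∈ nonZeroDivisors R)
    (h1 : IsDomain (R ⧸ Ideal.span {π})) (h2 : IsPrincipalIdealRing (R ⧸ Ideal.span {π})) {r s : ℕ}
    (f : (Fin r → R) →ₗ[R] (Fin s → R)) : Module.Free R (LinearMap.ker f) := by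
  have hprime : (Ideal.span {π}).IsPrime := (Ideal.Quotient.isDomain_iff_prime _).1 h1
  have hfin : Module.Finite R (LinearMap.ker f) := inferInstance
  have hfp : Module.FinitePresentation R (LinearMap.ker f) :=
    Module.finitePresentation_of_finite R _
  have mem : π ∈ (⊥ : Ideal R).jacobson := by
    rw [IsLocalRing.jacobson_eq_maximalIdeal ⊥ bot_ne_top]
    exact hπ
  have reg : IsSMulRegular (LinearMap.ker f) π := by
    intro x y hxy
    ext i
    have h3 := congrFun (congrArg Subtype.val hxy) i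
    exact (mul_cancel_left_mem_nonZeroDivisors hreg).1 h3
  rw [← Module.free_quotSMulTop_iff_free R _ mem reg]
  have hfin2 : Module.Finite (R ⧸ Ideal.span {π}) (QuotSMulTop π (LinearMap.ker f)) :=
    Module.Finite.of_restrictScalars_finite R _ _
  have htf : Module.IsTorsionFree (R ⧸ Ideal.span {π}) (QuotSMulTop π (LinearMap.ker f)) := by
    refine Module.IsTorsionFree.of_smul_eq_zero ?_
    intro c x hcx
    obtain ⟨c, rfl⟩ := Ideal.Quotient.mk_surjective c
    obtain ⟨x, rfl⟩ := Submodule.Quotient.mk_surjective _ x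
    by_cases hc : c ∈ Ideal.span {π}
    · left
      exact Ideal.Quotient.eq_zero_iff_mem.2 hc
    right
    have h3 : (Submodule.Quotient.mk (c • x) : QuotSMulTop π (LinearMap.ker f)) = 0 := hcx
    rw [Submodule.Quotient.mk_eq_zero, Submodule.mem_smul_pointwise_iff_exists] at h3
    obtain ⟨h', -, hh'⟩ := h3
    have h4 : ∀ i, ∃ b : R, π * b = (x : Fin r → R) i := by
      intro i
      have h5 := congrFun (congrArg Subtype.val hh') i
      have h6 : c * (x : Fin r → R) i ∈ Ideal.span {π} := by
        rw [Ideal.mem_span_singleton]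
        exact ⟨(h' : Fin r → R) i, h5.symm⟩
      have h7 := (hprime.mem_or_mem h6).resolve_left hc
      rw [Ideal.mem_span_singleton] at h7
      obtain ⟨b, hb⟩ := h7
      exact ⟨b, hb.symm⟩
    choose b hb using h4
    have h5 : π • b = (x : Fin r → R) := funext hb
    have h6 : b ∈ LinearMap.ker f := by
      rw [LinearMap.mem_ker]
      have h7 : π • f b = 0 := by
        rw [← map_smul, h5]
        exact x.2
      funext i
      have h8 := congrFun h7 i
      have h9 : π * f b i = π * 0 := by
        rw [mul_zero]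
        exact h8
      exact (mul_cancel_left_mem_nonZeroDivisors hreg).1 h9
    rw [Submodule.Quotient.mk_eq_zero, Submodule.mem_smul_pointwise_iff_exists]
    exact ⟨⟨b, h6⟩, trivial, Subtype.ext h5⟩
  infer_instance

private theorem FlatK_alg {k : Type u} [Field k] [IsAlgClosed k] {B : Type u} [CommRing B]
    [Algebra k B] (hB : Algebra.FiniteType k B) (M : Ideal B) (hM : M.IsMaximal) :
    ∃ ψ : B →ₐ[k] k, RingHom.ker ψ = M := by
  let _ := Ideal.Quotient.field M
  have h1 : Algebra.FiniteType k (B ⧸ M) :=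
    Algebra.FiniteType.of_surjective (Ideal.Quotient.mkₐ k M) (Ideal.Quotient.mkₐ_surjective k M)
  have h2 : Module.Finite k (B ⧸ M) := finite_of_finite_type_of_isJacobsonRing k (B ⧸ M)
  have hbij := IsAlgClosed.algebraMap_bijective_of_isIntegral (k := k) (K := B ⧸ M)
  let e : k ≃ₐ[k] (B ⧸ M) := AlgEquiv.ofBijective (Algebra.ofId k (B ⧸ M)) hbij
  refine ⟨(e.symm : (B ⧸ M) →ₐ[k] k).comp (Ideal.Quotient.mkₐ k M), ?_⟩
  ext x
  rw [RingHom.mem_ker]
  change e.symm (Ideal.Quotient.mk M x) = 0 ↔ x ∈ M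
  rw [EmbeddingLike.map_eq_zero_iff, Ideal.Quotient.eq_zero_iff_mem]

private theorem FlatK_pir {B : Type u} [CommRing B] [IsDedekindDomain B] (M : Ideal B)
    [M.IsPrime] : IsPrincipalIdealRing (Localization.AtPrime M) :=
  ((tfae_of_isNoetherianRing_of_isLocalRing_of_isDomain (Localization.AtPrime M)).out 2 0).1
    (Localization.AtPrime.isDedekindDomain B M)

private theorem FlatK_loc {k : Type u} [Field k] [IsAlgClosed k] {B₁ B₂ : Type u} [CommRing B₁]
    [Algebra k B₁] [CommRing B₂] [Algebra k B₂] [IsDedekindDomain B₁] [IsDedekindDomain B₂]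
    (hB : IsDomain (B₁ ⊗[k] B₂)) (hft : Algebra.FiniteType k (B₁ ⊗[k] B₂))
    (M : Ideal (B₁ ⊗[k] B₂)) [hM : M.IsMaximal] {r s : ℕ}
    (g : (Fin r → Localization.AtPrime M) →ₗ[Localization.AtPrime M]
      (Fin s → Localization.AtPrime M)) :
    Module.Free (Localization.AtPrime M) (LinearMap.ker g) := by
  have hnoeth : IsNoetherianRing (B₁ ⊗[k] B₂) := Algebra.FiniteType.isNoetherianRing k _
  obtain ⟨ψ, hψ⟩ := FlatK_alg hft M hM
  let χ : B₁ →ₐ[k] k := ψ.comp Algebra.TensorProduct.includeLeft
  let χ₂ : B₂ →ₐ[k] k := ψ.comp Algebra.TensorProduct.includeRight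
  let Φ : B₁ ⊗[k] B₂ →ₐ[k] B₂ := Algebra.TensorProduct.lift ((Algebra.ofId k B₂).comp χ)
    (AlgHom.id k B₂) (fun _ _ => Commute.all _ _)
  have hΦ : ∀ b₁ b₂, Φ (b₁ ⊗ₜ b₂) = algebraMap k B₂ (χ b₁) * b₂ := fun b₁ b₂ => by
    simp [Φ, Algebra.ofId_apply]
  have hψΦ : ∀ x, ψ x = χ₂ (Φ x) := by
    intro x
    induction x using TensorProduct.induction_on with
    | zero => simp
    | tmul a b =>
      rw [hΦ, map_mul, AlgHom.commutes]
      change ψ (a ⊗ₜ[k] b) = ψ (a ⊗ₜ[k] 1) * ψ (1 ⊗ₜ[k] b)
      rw [← map_mul, Algebra.TensorProduct.tmul_mul_tmul, mul_one, one_mul]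
    | add x y hx hy => rw [map_add, map_add, map_add, hx, hy]
  have hsurj : Function.Surjective Φ := fun b => ⟨1 ⊗ₜ b, by rw [hΦ, map_one, map_one, one_mul]⟩
  have hker : RingHom.ker Φ = (RingHom.ker χ).map
      (Algebra.TensorProduct.includeLeft : B₁ →ₐ[k] B₁ ⊗[k] B₂) := by
    have h3 : ∀ x, x - 1 ⊗ₜ Φ x ∈ (RingHom.ker χ).map
        (Algebra.TensorProduct.includeLeft : B₁ →ₐ[k] B₁ ⊗[k] B₂) := by
      intro x
      induction x using TensorProduct.induction_on with
      | zero => simp
      | tmul a b =>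
        have h4 : a ⊗ₜ[k] b - 1 ⊗ₜ[k] Φ (a ⊗ₜ[k] b) =
            ((a - algebraMap k B₁ (χ a)) ⊗ₜ[k] 1) * (1 ⊗ₜ[k] b) := by
          rw [hΦ, Algebra.TensorProduct.tmul_mul_tmul, mul_one, one_mul, TensorProduct.sub_tmul,
            ← Algebra.smul_def, TensorProduct.tmul_smul, Algebra.algebraMap_eq_smul_one,
            TensorProduct.smul_tmul']
        rw [h4]
        refine Ideal.mul_mem_right _ _ (Ideal.mem_map_of_mem _ ?_)
        rw [RingHom.mem_ker, map_sub, AlgHom.commutes]
        exact sub_self _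
      | add x y hx hy =>
        have h4 : x + y - 1 ⊗ₜ[k] Φ (x + y) = (x - 1 ⊗ₜ[k] Φ x) + (y - 1 ⊗ₜ[k] Φ y) := by
          rw [map_add, TensorProduct.tmul_add]
          abel
        rw [h4]
        exact Ideal.add_mem _ hx hy
    refine le_antisymm ?_ ?_
    · intro x hx
      have h4 := h3 x
      rw [RingHom.mem_ker] at hx
      rw [hx, TensorProduct.tmul_zero, sub_zero] at h4
      exact h4
    · rw [Ideal.map_le_iff_le_comap]
      intro a ha
      rw [RingHom.mem_ker] at ha
      rw [Ideal.mem_comap, RingHom.mem_ker]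
      change Φ (a ⊗ₜ[k] 1) = 0
      rw [hΦ, ha, map_zero, zero_mul]
  have hM2 : (RingHom.ker χ₂).IsPrime := RingHom.ker_isPrime _
  have hcomp : (M.primeCompl).map (Φ : B₁ ⊗[k] B₂ →+* B₂) = (RingHom.ker χ₂).primeCompl := by
    ext y
    rw [Submonoid.mem_map]
    constructor
    · rintro ⟨x, hx, rfl⟩
      intro h3
      apply hx
      change x ∈ M
      rw [← hψ, RingHom.mem_ker, hψΦ]
      exact h3
    · intro hy
      obtain ⟨x, rfl⟩ := hsurj y
      refine ⟨x, fun h3 => hy ?_, rfl⟩
      change x ∈ M at h3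
      rw [← hψ, RingHom.mem_ker, hψΦ] at h3
      exact h3
  have hP2 : IsPrincipalIdealRing (Localization.AtPrime (RingHom.ker χ₂)) := FlatK_pir _
  let θ : Localization.AtPrime M →+* Localization.AtPrime (RingHom.ker χ₂) :=
    IsLocalization.map (Localization.AtPrime (RingHom.ker χ₂)) (Φ : B₁ ⊗[k] B₂ →+* B₂)
      (hcomp.symm ▸ Submonoid.le_comap_map _)
  have hloc2 : IsLocalization (M.primeCompl.map (Φ : B₁ ⊗[k] B₂ →+* B₂))
      (Localization.AtPrime (RingHom.ker χ₂)) := by
    rw [hcomp]
    infer_instance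
  have hθs : Function.Surjective θ :=
    IsLocalization.map_surjective_of_surjective (g := (Φ : B₁ ⊗[k] B₂ →+* B₂)) M.primeCompl
      (Localization.AtPrime M) (Localization.AtPrime (RingHom.ker χ₂)) hsurj
  have hθk : RingHom.ker θ = (RingHom.ker Φ).map
      (algebraMap (B₁ ⊗[k] B₂) (Localization.AtPrime M)) := IsLocalization.ker_map _ _ hcomp
  by_cases h0 : RingHom.ker χ = ⊥
  · have h3 : RingHom.ker θ = ⊥ := by
      rw [hθk, hker, h0, Ideal.map_bot, Ideal.map_bot]
    let e := RingEquiv.ofBijective θ ⟨(RingHom.injective_iff_ker_eq_bot θ).2 h3, hθs⟩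
    have h4 : IsPrincipalIdealRing (Localization.AtPrime M) :=
      IsPrincipalIdealRing.of_surjective e.symm e.symm.surjective
    exact Module.Free.of_basis (Submodule.basisOfPid (Pi.basisFun _ _) (LinearMap.ker g)).2
  · have hprime : (RingHom.ker χ).IsPrime := RingHom.ker_isPrime _
    obtain ⟨π, hπ, hπ2⟩ := Ideal.exists_mem_pow_notMem_pow_succ (RingHom.ker χ) h0
      hprime.ne_top 1
    rw [pow_one] at hπ
    obtain ⟨J, hJ⟩ := Ideal.dvd_iff_le.2 ((Ideal.span_singleton_le_iff_mem _).2 hπ)
    have hJn : ¬ J ≤ RingHom.ker χ := by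
      intro h3
      apply hπ2
      have h4 : π ∈ RingHom.ker χ * J := by
        rw [← hJ]
        exact Ideal.mem_span_singleton_self π
      rw [one_add_one_eq_two, pow_two]
      exact Ideal.mul_mono_right h3 h4
    obtain ⟨t, htJ, ht⟩ := SetLike.not_le_iff_exists.1 hJn
    have hψ1 : ∀ b : B₁, b ⊗ₜ[k] (1 : B₂) ∈ M ↔ b ∈ RingHom.ker χ := by
      intro b
      rw [← hψ]
      exact Iff.rfl
    have hspan : (RingHom.ker Φ).map (algebraMap (B₁ ⊗[k] B₂) (Localization.AtPrime M)) =
        Ideal.span {algebraMap (B₁ ⊗[k] B₂) (Localization.AtPrime M) (π ⊗ₜ[k] 1)} := by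
      apply le_antisymm
      · rw [hker, Ideal.map_le_iff_le_comap, Ideal.map_le_iff_le_comap]
        intro m hm
        rw [Ideal.mem_comap, Ideal.mem_comap]
        change algebraMap (B₁ ⊗[k] B₂) (Localization.AtPrime M) (m ⊗ₜ[k] 1) ∈ _
        have hunit : IsUnit (algebraMap (B₁ ⊗[k] B₂) (Localization.AtPrime M) (t ⊗ₜ[k] 1)) :=
          (IsLocalization.AtPrime.isUnit_to_map_iff (Localization.AtPrime M) M _).2
            fun h3 => ht ((hψ1 t).1 h3)
        rw [← Ideal.unit_mul_mem_iff_mem _ hunit, ← map_mul,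
          Algebra.TensorProduct.tmul_mul_tmul, mul_one]
        have h3 : m * t ∈ Ideal.span {π} := by
          rw [hJ]
          exact Ideal.mul_mem_mul hm htJ
        rw [Ideal.mem_span_singleton] at h3
        obtain ⟨b, hb⟩ := h3
        rw [mul_comm t m, hb, Ideal.mem_span_singleton]
        refine ⟨algebraMap (B₁ ⊗[k] B₂) (Localization.AtPrime M) (b ⊗ₜ[k] 1), ?_⟩
        rw [← map_mul, Algebra.TensorProduct.tmul_mul_tmul, mul_one]
      · rw [Ideal.span_singleton_le_iff_mem, hker]
        exact Ideal.mem_map_of_mem _ (Ideal.mem_map_of_mem _ hπ)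
    let e : (Localization.AtPrime M ⧸
        Ideal.span {algebraMap (B₁ ⊗[k] B₂) (Localization.AtPrime M) (π ⊗ₜ[k] 1)}) ≃+*
        Localization.AtPrime (RingHom.ker χ₂) :=
      (Ideal.quotEquivOfEq (hspan.symm.trans hθk.symm)).trans
        (RingHom.quotientKerEquivOfSurjective hθs)
    have hπ0 : π ≠ 0 := by
      rintro rfl
      exact hπ2 (Ideal.zero_mem _)
    refine free_ker_local
      (π := algebraMap (B₁ ⊗[k] B₂) (Localization.AtPrime M) (π ⊗ₜ[k] 1)) ?_ ?_
      (e.toMulEquiv.isDomain _) (IsPrincipalIdealRing.of_surjective e.symm e.symm.surjective) g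
    · exact (IsLocalization.AtPrime.to_map_mem_maximal_iff (Localization.AtPrime M) M _).2
        ((hψ1 π).2 hπ)
    · refine mem_nonZeroDivisors_of_ne_zero fun h3 => ?_
      have h4 : (π ⊗ₜ[k] 1 : B₁ ⊗[k] B₂) = 0 :=
        IsLocalization.injective (Localization.AtPrime M) M.primeCompl_le_nonZeroDivisors
          (h3.trans (map_zero _).symm)
      have h5 : Function.Injective (Algebra.TensorProduct.includeLeft : B₁ →ₐ[k] B₁ ⊗[k] B₂) :=
        Algebra.TensorProduct.includeLeft_injective (algebraMap k B₂).injective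
      exact hπ0 (h5 (h4.trans (map_zero _).symm))

private abbrev FlatK_pi {B : Type u} [CommRing B] (S : Submonoid B) (r : ℕ) :
    (Fin r → B) →ₗ[B] (Fin r → Localization S) :=
  LinearMap.pi fun i => Algebra.linearMap B (Localization S) ∘ₗ LinearMap.proj i

/-- Second syzygies over the product of two smooth affine curves are flat.

PROOF. Flatness can be checked after localization at the maximal ideals `M` of `B = B₁ ⊗ B₂`
(`Module.flat_of_localized_maximal`); the localization of `ker f` is the kernel of the localized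
matrix. Let `M₁ = M ∩ B₁` (comap of `includeLeft`); by the Nullstellensatz (`k` algebraically
closed, `B` of finite type over `k`) `k → B / M` is bijective, so `k → B₁ / M₁` is bijective, `M₁` is
maximal. `B / M₁ B = (B₁ / M₁) ⊗ B₂ ≅ B₂`. If `B₁` is a field then it is `k` (Nullstellensatz) and
`B = B₂` is a Dedekind domain, over which torsion-free modules are flat
(`IsDedekindDomain.flat_iff_torsion_eq_bot`); so assume that `B₁` is not a field, `M₁ ≠ 0`. Let
`R = B_M`. The ideal `M₁` of the Dedekind domain `B₁` is locally principal: there are `π ∈ M₁` and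
`t ∈ B₁ \ M₁` with `t M₁ ⊆ π B₁` (the localization at `M₁` is a discrete valuation ring).
`t ⊗ 1 ∉ M`, so `M₁ R = π R`, and `R / π R` is the localization of `B / M₁ B ≅ B₂` at a maximal
ideal: a domain and a principal ideal ring (a localization of a Dedekind domain at a maximal
ideal, or a field). `π ⊗ 1` is a nonzero divisor because `B` is a domain (`hB`) and `R` is a
localization of `B`. `B` is noetherian (of finite type over `k`). Apply `free_ker_local`; free
modules are flat. -/
theorem flat_ker {k : Type u} [Field k] [IsAlgClosed k] {B₁ B₂ : Type u} [CommRing B₁]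
    [Algebra k B₁] [CommRing B₂] [Algebra k B₂] [IsDedekindDomain B₁] [IsDedekindDomain B₂]
    (h1 : Algebra.FiniteType k B₁) (h2 : Algebra.FiniteType k B₂) (hB : IsDomain (B₁ ⊗[k] B₂))
    {r s : ℕ} (f : (Fin r → B₁ ⊗[k] B₂) →ₗ[B₁ ⊗[k] B₂] (Fin s → B₁ ⊗[k] B₂)) :
    Module.Flat (B₁ ⊗[k] B₂) (LinearMap.ker f) := by
  have hft : Algebra.FiniteType k (B₁ ⊗[k] B₂) := by
    have h3 : Algebra.FiniteType B₁ (B₁ ⊗[k] B₂) := inferInstance
    exact Algebra.FiniteType.trans h1 h3
  refine Module.flat_of_localized_maximal (LinearMap.ker f) fun M hM => ?_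
  have h3 : Module.Free (Localization.AtPrime M) (LinearMap.ker
      ((IsLocalizedModule.map M.primeCompl (FlatK_pi M.primeCompl r)
        (FlatK_pi M.primeCompl s) f).extendScalarsOfIsLocalization M.primeCompl
          (Localization.AtPrime M))) := FlatK_loc hB hft M _
  have h4 : Module.Flat (B₁ ⊗[k] B₂) (LinearMap.ker
      ((IsLocalizedModule.map M.primeCompl (FlatK_pi M.primeCompl r)
        (FlatK_pi M.primeCompl s) f).extendScalarsOfIsLocalization M.primeCompl
          (Localization.AtPrime M))) := Module.Flat.trans _ (Localization.AtPrime M) _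
  let e5 : LinearMap.ker (IsLocalizedModule.map M.primeCompl (FlatK_pi M.primeCompl r)
        (FlatK_pi M.primeCompl s) f) ≃ₗ[B₁ ⊗[k] B₂] LinearMap.ker
      ((IsLocalizedModule.map M.primeCompl (FlatK_pi M.primeCompl r)
        (FlatK_pi M.primeCompl s) f).extendScalarsOfIsLocalization M.primeCompl
          (Localization.AtPrime M)) :=
    { toFun := fun x => ⟨x.1, x.2⟩
      map_add' := fun _ _ => rfl
      map_smul' := fun _ _ => rfl
      invFun := fun x => ⟨x.1, x.2⟩
      left_inv := fun _ => rfl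
      right_inv := fun _ => rfl }
  have h5 : Module.Flat (B₁ ⊗[k] B₂) (LinearMap.ker
      (IsLocalizedModule.map M.primeCompl (FlatK_pi M.primeCompl r)
        (FlatK_pi M.primeCompl s) f)) := Module.Flat.of_linearEquiv e5
  have h6 : IsLocalizedModule M.primeCompl
      (LinearMap.toKerIsLocalized M.primeCompl (FlatK_pi M.primeCompl r)
        (FlatK_pi M.primeCompl s) f) :=
    LinearMap.toKerLocalized_isLocalizedModule (Localization M.primeCompl) M.primeCompl _ _ f
  have h7 : Module.Flat (B₁ ⊗[k] B₂) (LocalizedModule M.primeCompl (LinearMap.ker f)) :=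
    Module.Flat.of_linearEquiv (IsLocalizedModule.iso M.primeCompl
      (LinearMap.toKerIsLocalized M.primeCompl (FlatK_pi M.primeCompl r)
        (FlatK_pi M.primeCompl s) f))
  exact h7

end Pool.Agent.MP_6e5bed_ag_PS
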