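import Pool.Agent.Lib.MP_6e5bed_ag_PS.OB
import Pool.Agent.Lib.MP_6e5bed_ag_PS.FlatK

set_option autoImplicit false
set_option linter.unusedVariables false

/-!
# MP_6e5bed_ag, NC PRODUCT SURFACES: the ring of functions on a chart of the product surface
-/

noncomputable section

namespace Pool.Agent.MP_6e5bed_ag_PS

open Pool.Agent.MP_6e5bed_ag_NC
open Pool.Agent.MP_6e5bed_ag_NS
open scoped TensorProduct

universe u

variable {k : Type u} [Field k]

private theorem BBI_gen (m : Fin 3) : ∃ j0 : Fin 3, (m = 0 → j0 = 1) ∧ (m ≠ 0 → j0 = 0) ∧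
    ∀ j, ∃ a b : k, ell k j / ell k m =
      algebraMap k (RatFunc k) a + algebraMap k (RatFunc k) b * (ell k j0 / ell k m) := by
  have e0 : ell k 0 = 1 := rfl
  have e1 : ell k 1 = RatFunc.X := rfl
  have e2 : ell k 2 = RatFunc.X - 1 := rfl
  have n1 : ell k 1 ≠ 0 := ell_ne 1
  have n2 : ell k 2 ≠ 0 := ell_ne 2
  have hsub : ell k 1 - ell k 0 = ell k 2 := by rw [e0, e1, e2]
  have hm3 : m = 0 ∨ m = 1 ∨ m = 2 := by fin_cases m <;> simp
  have hj3 : ∀ j : Fin 3, j = 0 ∨ j = 1 ∨ j = 2 := by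
    intro j
    fin_cases j <;> simp
  rcases hm3 with rfl | rfl | rfl
  · refine ⟨1, fun _ => rfl, fun h => absurd rfl h, ?_⟩
    intro j
    rcases hj3 j with rfl | rfl | rfl
    · refine ⟨1, 0, ?_⟩
      rw [div_self (ell_ne 0), map_one, map_zero, zero_mul, add_zero]
    · refine ⟨0, 1, ?_⟩
      rw [map_one, map_zero, one_mul, zero_add]
    · refine ⟨-1, 1, ?_⟩
      rw [map_neg, map_one, one_mul, ← hsub, e0]
      ring
  · refine ⟨0, fun h => absurd h (by decide), fun _ => rfl, ?_⟩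
    intro j
    rcases hj3 j with rfl | rfl | rfl
    · refine ⟨0, 1, ?_⟩
      rw [map_one, map_zero, one_mul, zero_add]
    · refine ⟨1, 0, ?_⟩
      rw [div_self n1, map_one, map_zero, zero_mul, add_zero]
    · refine ⟨1, -1, ?_⟩
      rw [map_neg, map_one, ← hsub]
      field_simp
      ring
  · refine ⟨0, fun h => absurd h (by decide), fun _ => rfl, ?_⟩
    intro j
    rcases hj3 j with rfl | rfl | rfl
    · refine ⟨0, 1, ?_⟩
      rw [map_one, map_zero, one_mul, zero_add]
    · refine ⟨1, 1, ?_⟩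
      have h1 : ell k 1 = ell k 2 + ell k 0 := by rw [← hsub]; ring
      rw [map_one, one_mul, h1, add_div, div_self n2]
    · refine ⟨1, 0, ?_⟩
      rw [div_self n2, map_one, map_zero, zero_mul, add_zero]

private theorem BBI_poly (m : Fin 3) : ∃ w ∈ SS k m, ∀ s ∈ SS k m,
    ∃ p : Polynomial k, Polynomial.aeval w p = s := by
  obtain ⟨j0, -, -, hg⟩ := BBI_gen (k := k) m
  refine ⟨ell k j0 / ell k m, Algebra.subset_adjoin ⟨j0, rfl⟩, fun s hs => ?_⟩
  refine Algebra.adjoin_induction (p := fun s _ => ∃ p : Polynomial k,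
    Polynomial.aeval (ell k j0 / ell k m) p = s) ?_ ?_ ?_ ?_ hs
  · rintro _ ⟨j, rfl⟩
    obtain ⟨a, b, hab⟩ := hg j
    refine ⟨Polynomial.C a + Polynomial.C b * Polynomial.X, ?_⟩
    rw [map_add, map_mul, Polynomial.aeval_C, Polynomial.aeval_C, Polynomial.aeval_X, hab]
  · intro c
    exact ⟨Polynomial.C c, Polynomial.aeval_C _ _⟩
  · rintro s s' _ _ ⟨p, rfl⟩ ⟨p', rfl⟩
    exact ⟨p + p', map_add _ _ _⟩
  · rintro s s' _ _ ⟨p, rfl⟩ ⟨p', rfl⟩
    exact ⟨p * p', map_mul _ _ _⟩

private theorem BBI_pid (m : Fin 3) : IsPrincipalIdealRing (SS k m) := by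
  obtain ⟨w, hw, h⟩ := BBI_poly (k := k) m
  refine IsPrincipalIdealRing.of_surjective
    ((Polynomial.aeval (⟨w, hw⟩ : SS k m) : Polynomial k →ₐ[k] SS k m) :
      Polynomial k →+* SS k m) ?_
  rintro ⟨f, hf⟩
  obtain ⟨p, rfl⟩ := h f hf
  refine ⟨p, Subtype.ext ?_⟩
  have h1 := Polynomial.aeval_algHom_apply (SS k m).val (⟨w, hw⟩ : SS k m) p
  exact h1.symm

private theorem BBI_pow (m : Fin 3) {f : RatFunc k} (h : f ∈ kk k RatFunc.X) :
    ∃ n : ℕ, ∀ l : ℕ, n ≤ l → (ell k 0 / ell k m) ^ l * f ∈ SS k m := by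
  have hg : ell k 0 / ell k m ∈ SS k m := Algebra.subset_adjoin ⟨0, rfl⟩
  have hg1 : ell k 1 / ell k m ∈ SS k m := Algebra.subset_adjoin ⟨1, rfl⟩
  refine Algebra.adjoin_induction (s := {RatFunc.X}) (p := fun f _ => ∃ n : ℕ, ∀ l : ℕ, n ≤ l →
    (ell k 0 / ell k m) ^ l * f ∈ SS k m) ?_ ?_ ?_ ?_ h
  · intro x hx
    rw [Set.mem_singleton_iff] at hx
    subst hx
    refine ⟨1, fun l hl => ?_⟩
    obtain ⟨l, rfl⟩ := Nat.exists_eq_add_of_le hl
    have e : (ell k 0 / ell k m) ^ (1 + l) * RatFunc.X =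
        (ell k 0 / ell k m) ^ l * (ell k 1 / ell k m) := by
      have e0 : ell k 0 = 1 := rfl
      have e1 : ell k 1 = RatFunc.X := rfl
      rw [e0, e1, add_comm, pow_succ]
      ring
    rw [e]
    exact Subalgebra.mul_mem _ (Subalgebra.pow_mem _ hg l) hg1
  · intro r
    exact ⟨0, fun l _ => Subalgebra.mul_mem _ (Subalgebra.pow_mem _ hg l)
      (Subalgebra.algebraMap_mem _ r)⟩
  · rintro x y - - ⟨n, hn⟩ ⟨n', hn'⟩
    refine ⟨n + n', fun l hl => ?_⟩
    rw [mul_add]
    exact Subalgebra.add_mem _ (hn l (by omega)) (hn' l (by omega))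
  · rintro x y - - ⟨n, hn⟩ ⟨n', hn'⟩
    refine ⟨n + n', fun l hl => ?_⟩
    obtain ⟨l', rfl⟩ := Nat.exists_eq_add_of_le hl
    have : (ell k 0 / ell k m) ^ (n + n' + l') * (x * y) =
        ((ell k 0 / ell k m) ^ n * x) * ((ell k 0 / ell k m) ^ (n' + l') * y) := by ring
    rw [this]
    exact Subalgebra.mul_mem _ (hn n le_rfl) (hn' _ (by omega))

private theorem BBI_frac (m : Fin 3) : IsFractionRing (SS k m) (RatFunc k) := by
  rw [IsFractionRing, isLocalization_iff]
  refine ⟨?_, ?_, ?_⟩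
  · rintro ⟨y, hy⟩
    refine isUnit_iff_ne_zero.2 fun h => ?_
    have : y = 0 := Subtype.ext h
    exact nonZeroDivisors.ne_zero hy this
  · intro z
    obtain ⟨g, hg, hg0, hgc⟩ := exists_div_X z
    obtain ⟨n, hn⟩ := BBI_pow m hg
    obtain ⟨n', hn'⟩ := BBI_pow m hgc
    have h1 := hn (n + n') (by omega)
    have h2 := hn' (n + n') (by omega)
    have h0 : (ell k 0 / ell k m) ^ (n + n') ≠ 0 :=
      pow_ne_zero _ (div_ne_zero (ell_ne 0) (ell_ne m))
    refine ⟨(⟨_, h2⟩, ⟨⟨_, h1⟩, mem_nonZeroDivisors_of_ne_zero fun h => ?_⟩), ?_⟩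
    · exact mul_ne_zero h0 hg0 (congrArg Subtype.val h)
    · show z * ((ell k 0 / ell k m) ^ (n + n') * g) = (ell k 0 / ell k m) ^ (n + n') * (g * z)
      ring
  · intro x y h
    exact ⟨1, by rw [show x = y from Subtype.ext h]⟩

private theorem BBI_fin (D : FExt k) (m : Fin 3) : ∃ S : Finset D.L, (∀ a ∈ S, a ∈ BM D m) ∧
    ∀ f ∈ BM D m, ∃ c : D.L → SS k m, f = ∑ a ∈ S, (c a : RatFunc k) • a := by
  have := BBI_pid (k := k) m
  have := BBI_frac (k := k) m
  have h : Module.Finite (SS k m) (integralClosure (SS k m) D.L) :=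
    IsIntegralClosure.finite (SS k m) (RatFunc k) D.L (integralClosure (SS k m) D.L)
  obtain ⟨S, hS⟩ : (Subalgebra.toSubmodule (integralClosure (SS k m) D.L)).FG :=
    Module.Finite.iff_fg.1 h
  have hmem : ∀ f : D.L, f ∈ BM D m ↔ f ∈ Submodule.span (SS k m) (S : Set D.L) := by
    intro f
    rw [hS]
    rfl
  refine ⟨S, fun a ha => (hmem a).2 (Submodule.subset_span ha), fun f hf => ?_⟩
  obtain ⟨c, -, hc⟩ := (Submodule.mem_span_finset (R := SS k m)).1 ((hmem f).1 hf)
  refine ⟨c, ?_⟩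
  rw [← hc]
  rfl

private theorem BBI_dedekind_equiv {A B : Type u} [CommRing A] [CommRing B] (e : A ≃+* B)
    (h : IsDedekindDomain A) : IsDedekindDomain B := by
  have h0 : IsDomain B := e.symm.toMulEquiv.isDomain A
  have h1 : IsNoetherianRing B := isNoetherianRing_of_ringEquiv A e
  have h2 : Ring.DimensionLEOne B := by
    constructor
    intro p hp hpp
    have h3 : (p.comap e).IsPrime := Ideal.comap_isPrime _ _
    have h4 : p.comap e ≠ ⊥ := by
      intro h5
      apply hp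
      rw [eq_bot_iff]
      intro x hx
      have h6 : e.symm x ∈ p.comap e := by
        rw [Ideal.mem_comap, RingEquiv.apply_symm_apply]
        exact hx
      rw [h5, Ideal.mem_bot] at h6
      rw [Ideal.mem_bot]
      have h7 := congrArg e h6
      rwa [RingEquiv.apply_symm_apply, map_zero] at h7
    have h5 : (p.comap e).IsMaximal := Ring.DimensionLEOne.maximalOfPrime h4 h3
    have h6 : (Ideal.comap e.symm (p.comap e)).IsMaximal :=
      Ideal.comap_isMaximal_of_surjective _ e.symm.surjective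
    have h7 : Ideal.comap e.symm (p.comap e) = p := by
      ext x
      rw [Ideal.mem_comap, Ideal.mem_comap, RingEquiv.apply_symm_apply]
    rwa [h7] at h6
  have h3 : IsIntegrallyClosed B := IsIntegrallyClosed.of_equiv e
  exact { h0, h1, h2, h3 with }

private def BBI_bme (D : FExt k) (m : Fin 3) :
    integralClosure (SS k m) D.L ≃+* BM D m where
  toFun := fun x => ⟨x.1, x.2⟩
  invFun := fun x => ⟨x.1, x.2⟩
  left_inv := fun _ => rfl
  right_inv := fun _ => rfl
  map_mul' := fun _ _ => rfl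
  map_add' := fun _ _ => rfl

/-- PROOF. `SS k m` is a polynomial ring in one variable, `BM D m` is its integral closure in a
finite separable extension (`integralClosure.isDedekindDomain`,
`IsIntegralClosure.isDedekindDomain`). -/
theorem bm_dedekind (D : FExt k) (m : Fin 3) : IsDedekindDomain (BM D m) := by
  have := BBI_pid (k := k) m
  have := BBI_frac (k := k) m
  have h1 : IsDedekindDomain (integralClosure (SS k m) D.L) :=
    integralClosure.isDedekindDomain (SS k m) (RatFunc k) D.L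
  exact BBI_dedekind_equiv (BBI_bme D m) h1

/-- PROOF. `BM D m` is finite over `SS k m` (see `QB_fg`), which is generated by one element. -/
theorem bm_ft (D : FExt k) (m : Fin 3) : Algebra.FiniteType k (BM D m) := by
  obtain ⟨w, hw, hp⟩ := BBI_poly (k := k) m
  obtain ⟨S, hS, hf⟩ := BBI_fin D m
  classical
  rw [← Subalgebra.fg_iff_finiteType]
  have hwB : algebraMap (RatFunc k) D.L w ∈ BM D m :=
    isIntegral_algebraMap (R := SS k m) (A := D.L) (x := ⟨w, hw⟩)
  refine ⟨insert (algebraMap (RatFunc k) D.L w) S, le_antisymm ?_ ?_⟩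
  · refine Algebra.adjoin_le ?_
    intro x hx
    rw [Finset.mem_coe, Finset.mem_insert] at hx
    rcases hx with rfl | hx
    · exact hwB
    · exact hS x hx
  · intro f hfB
    obtain ⟨c, hc⟩ := hf f hfB
    rw [hc]
    refine Subalgebra.sum_mem _ fun a ha => ?_
    obtain ⟨p, hp⟩ := hp _ (c a).2
    rw [Algebra.smul_def]
    refine Subalgebra.mul_mem _ ?_ (Algebra.subset_adjoin (Finset.mem_coe.2
      (Finset.mem_insert_of_mem ha)))
    rw [← hp]
    have h1 := Polynomial.aeval_algHom_apply (IsScalarTower.toAlgHom k (RatFunc k) D.L) w p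
    change algebraMap (RatFunc k) D.L (Polynomial.aeval w p) ∈ _
    have h2 : algebraMap (RatFunc k) D.L (Polynomial.aeval w p) =
        Polynomial.aeval (algebraMap (RatFunc k) D.L w) p := h1.symm
    rw [h2]
    have h3 : Algebra.adjoin k {algebraMap (RatFunc k) D.L w} ≤
        Algebra.adjoin k ((insert (algebraMap (RatFunc k) D.L w) S : Finset D.L) : Set D.L) :=
      Algebra.adjoin_mono (Set.singleton_subset_iff.2 (Finset.mem_coe.2
        (Finset.mem_insert_self _ _)))
    exact h3 (Polynomial.aeval_mem_adjoin_singleton k _)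

variable (P : PD k)

private theorem BBI_OA {D : FExt k} {m : Fin 3} {f : D.L} (hf : f ∈ OA D {m} 0) : f ∈ BM D m := by
  rw [mem_OA_sgl, neg_zero, zpow_zero, one_mul] at hf
  exact hf

private theorem BBI_OA' {D : FExt k} {m : Fin 3} {f : D.L} (hf : f ∈ BM D m) :
    f ∈ OA D {m} 0 := by
  rw [mem_OA_sgl, neg_zero, zpow_zero, one_mul]
  exact hf

private theorem BBI_j1 {m : Fin 3} {f : P.D1.L} (hf : f ∈ BM P.D1 m) : P.j1 f ∈ P.BB m := by
  have h2 := P.PP_mul_mem (a := {m}) (b := {m}) (BBI_OA' hf) (one_mem_OA (D := P.D2) {m})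
  rw [map_one, mul_one] at h2
  exact h2

private theorem BBI_j2 {m : Fin 3} {f : P.D2.L} (hf : f ∈ BM P.D2 m) : P.j2 f ∈ P.BB m := by
  have h2 := P.PP_mul_mem (a := {m}) (b := {m}) (one_mem_OA (D := P.D1) {m}) (BBI_OA' hf)
  rw [map_one, one_mul] at h2
  exact h2

/-- PROOF. The map `b ⊗ b' ↦ j1 b * j2 b'` is the restriction of `jj` to
`BM D1 m ⊗ BM D2 m ⊆ L₁ ⊗ L₂` (injective because `k` is a field), and `jj` is injective (`jj_inj`).
Its image is `PP {m} {m} 0 0` (`mem_OA_sgl` with `i = 0`; `Submodule.mul_induction_on`). -/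
theorem exists_bbi (m : Fin 3) : ∃ e : (BM P.D1 m) ⊗[k] (BM P.D2 m) ≃ₐ[k] P.BB m,
    ∀ b b', ((e (b ⊗ₜ[k] b') : P.BB m) : P.M) = P.j1 b * P.j2 b' := by
  let h1 : BM P.D1 m →ₐ[k] P.BB m := (P.j1.comp (BM P.D1 m).val).codRestrict (P.BB m)
    fun x => BBI_j1 P x.2
  let h2 : BM P.D2 m →ₐ[k] P.BB m := (P.j2.comp (BM P.D2 m).val).codRestrict (P.BB m)
    fun x => BBI_j2 P x.2
  let θ : (BM P.D1 m) ⊗[k] (BM P.D2 m) →ₐ[k] P.BB m :=
    Algebra.TensorProduct.lift h1 h2 fun _ _ => Commute.all _ _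
  have hθ : ∀ b b', ((θ (b ⊗ₜ[k] b') : P.BB m) : P.M) = P.j1 b * P.j2 b' := by
    intro b b'
    change (((h1 b) * (h2 b') : P.BB m) : P.M) = _
    rfl
  have hinj : Function.Injective θ := by
    have h3 : Function.Injective (P.jj.toLinearMap ∘ₗ
        TensorProduct.map (BM P.D1 m).val.toLinearMap (BM P.D2 m).val.toLinearMap) :=
      P.jj_inj.comp (TensorProduct.map_injective_of_flat_flat _ _ Subtype.val_injective
        Subtype.val_injective)
    have h4 : (P.BB m).val.toLinearMap ∘ₗ θ.toLinearMap = P.jj.toLinearMap ∘ₗ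
        TensorProduct.map (BM P.D1 m).val.toLinearMap (BM P.D2 m).val.toLinearMap := by
      refine TensorProduct.ext' fun a b => ?_
      change ((θ (a ⊗ₜ[k] b) : P.BB m) : P.M) = P.jj ((a : P.D1.L) ⊗ₜ[k] (b : P.D2.L))
      rw [hθ, P.jj_tmul]
    rw [← h4] at h3
    intro a b hab
    apply h3
    change ((θ a : P.BB m) : P.M) = ((θ b : P.BB m) : P.M)
    rw [hab]
  have hsurj : Function.Surjective θ := by
    have h3 : ∀ x ∈ P.BB m, ∃ z, ((θ z : P.BB m) : P.M) = x := by
      intro x hx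
      refine Submodule.mul_induction_on (C := fun x => ∃ z, ((θ z : P.BB m) : P.M) = x)
        ((PD.mem_BB P).1 hx) ?_ ?_
      · rintro _ ⟨f, hf, rfl⟩ _ ⟨g, hg, rfl⟩
        exact ⟨(⟨f, BBI_OA hf⟩ : BM P.D1 m) ⊗ₜ[k] (⟨g, BBI_OA hg⟩ : BM P.D2 m), hθ _ _⟩
      · rintro x y ⟨z, rfl⟩ ⟨z', rfl⟩
        exact ⟨z + z', by rw [map_add]; rfl⟩
    rintro ⟨x, hx⟩
    obtain ⟨z, hz⟩ := h3 x hx
    exact ⟨z, Subtype.ext hz⟩
  exact ⟨AlgEquiv.ofBijective θ ⟨hinj, hsurj⟩, hθ⟩

/-- PROOF. `exists_bbi`, `bm_ft`. -/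
theorem bb_ft (m : Fin 3) : Algebra.FiniteType k (P.BB m) := by
  obtain ⟨e, -⟩ := exists_bbi P m
  have h1 := bm_ft P.D1 m
  have h2 := bm_ft P.D2 m
  have h3 : Algebra.FiniteType (BM P.D1 m) ((BM P.D1 m) ⊗[k] (BM P.D2 m)) := inferInstance
  exact Algebra.FiniteType.equiv (Algebra.FiniteType.trans h1 h3) e

theorem bb_noeth (m : Fin 3) : IsNoetherianRing (P.BB m) :=
  have := bb_ft P m
  Algebra.FiniteType.isNoetherianRing k (P.BB m)

/-- Elements of `M` are fractions.

PROOF. By `QB_span` `x` is a `K`-linear combination of elements of `BB m`; `K` is the fraction field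
of `RR k (sg1 k m)` (`RR_frac`), which is contained in `BB m` (`rr_mem`). Common denominator. -/
theorem bb_frac (m : Fin 3) (x : P.M) : ∃ b ∈ P.BB m, ∃ d ∈ P.BB m, d ≠ 0 ∧ d * x = b := by
  have hx : x ∈ Submodule.span (KK k) (P.QB m : Set P.M) := by
    rw [P.QB_span]
    exact Submodule.mem_top
  induction hx using Submodule.span_induction with
  | mem x hx => exact ⟨x, hx, 1, (P.BB m).one_mem, one_ne_zero, one_mul x⟩
  | zero => exact ⟨0, (P.BB m).zero_mem, 1, (P.BB m).one_mem, one_ne_zero, mul_zero _⟩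
  | add x y _ _ hx hy =>
    obtain ⟨b, hb, d, hd, hd0, h⟩ := hx
    obtain ⟨b', hb', d', hd', hd0', h'⟩ := hy
    refine ⟨d' * b + d * b', (P.BB m).add_mem ((P.BB m).mul_mem hd' hb)
      ((P.BB m).mul_mem hd hb'), d * d', (P.BB m).mul_mem hd hd', mul_ne_zero hd0 hd0', ?_⟩
    rw [← h, ← h']
    ring
  | smul c x _ hx =>
    obtain ⟨b, hb, d, hd, hd0, h⟩ := hx
    obtain ⟨r, hr, r', hr', hr0, h'⟩ := RR_frac (sg1 k m) c
    refine ⟨algebraMap (KK k) P.M r * b, (P.BB m).mul_mem (P.rr_mem m hr) hb,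
      algebraMap (KK k) P.M r' * d, (P.BB m).mul_mem (P.rr_mem m hr') hd,
      mul_ne_zero ((map_ne_zero _).2 hr0) hd0, ?_⟩
    rw [← h, ← h', map_mul, Algebra.smul_def]
    ring

private theorem BBI_flat {B B' : Type u} [CommRing B] [CommRing B'] (e : B ≃+* B') {r s : ℕ}
    (H : ∀ f : (Fin r → B) →ₗ[B] (Fin s → B), Module.Flat B (LinearMap.ker f))
    (f : (Fin r → B') →ₗ[B'] (Fin s → B')) : Module.Flat B' (LinearMap.ker f) := by
  let _ : Algebra B B' := e.toRingHom.toAlgebra
  let e' : B ≃ₐ[B] B' := AlgEquiv.ofRingEquiv (f := e) fun _ => rfl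
  have hloc : IsLocalization (⊥ : Submonoid B) B' := by
    have h1 : IsLocalization (⊥ : Submonoid B) B := IsLocalization.self (by
      intro x hx
      rw [Submonoid.mem_bot] at hx
      rw [hx]
      exact isUnit_one)
    exact IsLocalization.isLocalization_of_algEquiv _ e'
  rw [Module.flat_iff_of_isLocalization (R := B) B' ⊥]
  let f' : (Fin r → B) →ₗ[B] (Fin s → B) :=
    { toFun := fun x i => e.symm (f (fun j => e (x j)) i)
      map_add' := fun x y => by
        have h1 : (fun j => e ((x + y) j)) = (fun j => e (x j)) + fun j => e (y j) := by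
          funext j
          exact map_add e _ _
        rw [h1, map_add]
        funext i
        exact map_add e.symm _ _
      map_smul' := fun c x => by
        have h1 : (fun j => e ((c • x) j)) = (e c) • fun j => e (x j) := by
          funext j
          exact map_mul e _ _
        rw [h1, map_smul]
        funext i
        have h2 := map_mul e.symm (e c) (f (fun j => e (x j)) i)
        rw [RingEquiv.symm_apply_apply] at h2
        exact h2 }
  have hf' := H f'
  have hk : ∀ x : Fin r → B', x ∈ LinearMap.ker f ↔ (fun j => e.symm (x j)) ∈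
      LinearMap.ker f' := by
    intro x
    rw [LinearMap.mem_ker, LinearMap.mem_ker]
    have h1 : (fun j => e (e.symm (x j))) = x := by
      funext j
      exact e.apply_symm_apply _
    constructor
    · intro h2
      funext i
      change e.symm (f (fun j => e (e.symm (x j))) i) = 0
      rw [h1, h2]
      exact map_zero _
    · intro h2
      funext i
      have h3 : e.symm (f (fun j => e (e.symm (x j))) i) = 0 := congrFun h2 i
      rw [h1] at h3
      have h4 := congrArg e h3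
      rw [e.apply_symm_apply, map_zero] at h4
      exact h4
  let E : LinearMap.ker f ≃ₗ[B] LinearMap.ker f' :=
    { toFun := fun x => ⟨fun j => e.symm (x.1 j), (hk x.1).1 x.2⟩
      invFun := fun x => ⟨fun j => e (x.1 j), (hk _).2 (by
        have h1 : (fun j => e.symm (e (x.1 j))) = x.1 := by
          funext j
          exact e.symm_apply_apply _
        rw [h1]
        exact x.2)⟩
      left_inv := fun x => Subtype.ext (funext fun j => e.apply_symm_apply _)
      right_inv := fun x => Subtype.ext (funext fun j => e.symm_apply_apply _)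
      map_add' := fun x y => Subtype.ext (funext fun j => map_add e.symm _ _)
      map_smul' := fun c x => Subtype.ext (funext fun j => by
        have h2 := map_mul e.symm (e c) (x.1 j)
        rw [RingEquiv.symm_apply_apply] at h2
        exact h2) }
  exact Module.Flat.of_linearEquiv E

/-- PROOF. Transport `flat_ker` along `exists_bbi` (`BB m` is a domain as a subring of `M`). -/
theorem bb_flat_ker [IsAlgClosed k] (m : Fin 3) {r s : ℕ}
    (f : (Fin r → P.BB m) →ₗ[P.BB m] (Fin s → P.BB m)) :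
    Module.Flat (P.BB m) (LinearMap.ker f) := by
  obtain ⟨e, -⟩ := exists_bbi P m
  have hd1 := bm_dedekind P.D1 m
  have hd2 := bm_dedekind P.D2 m
  have hB : IsDomain ((BM P.D1 m) ⊗[k] (BM P.D2 m)) := e.toRingEquiv.toMulEquiv.isDomain _
  exact BBI_flat e.toRingEquiv
    (fun f => flat_ker (bm_ft P.D1 m) (bm_ft P.D2 m) hB f) f

end Pool.Agent.MP_6e5bed_ag_PS
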