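import Pool.Agent.Lib.MP_6e5bed_ag_PS.BSes

set_option autoImplicit false
set_option linter.unusedVariables false

/-!
# MP_6e5bed_ag, NC PRODUCT SURFACES: exactness of the tensor product with a locally free lattice
-/

noncomputable section

namespace Pool.Agent.MP_6e5bed_ag_PS

open Pool.Agent.MP_6e5bed_ag_NC
open Pool.Agent.MP_6e5bed_ag_NS
open scoped TensorProduct

universe u

variable {k : Type u} [Field k] {P : PD k} {A B B' C : ASh k}
variable {V1 V2 V3 : MSp P} {N1 : BLat V1} {N2 : BLat V2} {N3 : BLat V3}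

section Abs

variable {R : Type u} (K : Type u) [CommRing R] [Field K] [Algebra R K] [IsFractionRing R K]

section One

variable {E E' : Type u} [AddCommGroup E] [Module R E] [Module K E] [IsScalarTower R K E]
  [AddCommGroup E'] [Module R E'] [Module K E'] [IsScalarTower R K E']

/-- the canonical map from the tensor product over the ring -/
private def BFl_th (N : Submodule R E) (F : Submodule R E') (w : N ⊗[R] F) : E ⊗[K] E' :=
  (IsLocalization.moduleTensorEquiv (nonZeroDivisors R) K E E').symm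
    (TensorProduct.map N.subtype F.subtype w)

private theorem BFl_tmul (N : Submodule R E) (F : Submodule R E') (x : N) (y : F) :
    BFl_th K N F (x ⊗ₜ[R] y) = (x : E) ⊗ₜ[K] (y : E') := rfl

private theorem BFl_add (N : Submodule R E) (F : Submodule R E') (v w : N ⊗[R] F) :
    BFl_th K N F (v + w) = BFl_th K N F v + BFl_th K N F w := by
  unfold BFl_th
  rw [map_add, map_add]

private theorem BFl_zero (N : Submodule R E) (F : Submodule R E') :
    BFl_th K N F 0 = 0 := by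
  unfold BFl_th
  rw [map_zero, map_zero]

private theorem BFl_inj (N : Submodule R E) (F : Submodule R E') [Module.Flat R F] :
    Function.Injective (BFl_th K N F) := by
  have h1 : Module.Flat R K := IsLocalization.flat K (nonZeroDivisors R)
  have h2 : Module.Flat R E := Module.Flat.trans R K E
  exact (IsLocalization.moduleTensorEquiv (nonZeroDivisors R) K E E').symm.injective.comp
    (TensorProduct.map_injective_of_flat_flat N.subtype F.subtype N.injective_subtype
      F.injective_subtype)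

end One

variable {E1 E2 E3 E' : Type u} [AddCommGroup E1] [Module R E1] [Module K E1]
  [IsScalarTower R K E1] [AddCommGroup E2] [Module R E2] [Module K E2] [IsScalarTower R K E2]
  [AddCommGroup E3] [Module R E3] [Module K E3] [IsScalarTower R K E3]
  [AddCommGroup E'] [Module R E'] [Module K E'] [IsScalarTower R K E']

private theorem BFl_nat {i : E1 →ₗ[K] E2} {N1 : Submodule R E1} {N2 : Submodule R E2}
    (F : Submodule R E') (ii : N1 →ₗ[R] N2) (h : ∀ x : N1, (ii x : E2) = i x)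
    (w : N1 ⊗[R] F) :
    BFl_th K N2 F (ii.rTensor F w) = i.rTensor E' (BFl_th K N1 F w) := by
  induction w using TensorProduct.induction_on with
  | zero => rw [map_zero, BFl_zero, BFl_zero, map_zero]
  | tmul x y => rw [LinearMap.rTensor_tmul, BFl_tmul, BFl_tmul, LinearMap.rTensor_tmul, h]
  | add a b ha hb => rw [map_add, BFl_add, BFl_add, map_add, ha, hb]

private theorem BFl_abs {i : E1 →ₗ[K] E2} {p : E2 →ₗ[K] E3} (hi : Function.Injective i)
    (hex : ∀ x, p x = 0 ↔ ∃ y, i y = x) {N1 : Submodule R E1} {N2 : Submodule R E2}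
    {N3 : Submodule R E3} (F : Submodule R E') [Module.Flat R F]
    (h1 : ∀ x, i x ∈ N2 ↔ x ∈ N1) (h2 : ∀ x, x ∈ N3 ↔ ∃ y ∈ N2, p y = x)
    (z : E1 ⊗[K] E') (w : N2 ⊗[R] F) (hw : BFl_th K N2 F w = i.rTensor E' z) :
    ∃ w' : N1 ⊗[R] F, BFl_th K N1 F w' = z := by
  let ii : N1 →ₗ[R] N2 := (i.restrictScalars R).restrict (fun x hx => (h1 x).2 hx)
  let pp : N2 →ₗ[R] N3 := (p.restrictScalars R).restrict (fun x hx => (h2 _).2 ⟨x, hx, rfl⟩)
  have hii : ∀ x : N1, (ii x : E2) = i x := fun x => rfl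
  have hpq : ∀ x : N2, (pp x : E3) = p x := fun x => rfl
  have hpp : Function.Surjective pp := by
    rintro ⟨x, hx⟩
    obtain ⟨y, hy, h3⟩ := (h2 x).1 hx
    exact ⟨⟨y, hy⟩, Subtype.ext h3⟩
  have hexx : Function.Exact ii pp := by
    rintro ⟨y, hy⟩
    constructor
    · intro h3
      have h4 : p y = 0 := by
        rw [← hpq ⟨y, hy⟩, h3]
        rfl
      obtain ⟨x, rfl⟩ := (hex y).1 h4
      exact ⟨⟨x, (h1 x).1 hy⟩, Subtype.ext rfl⟩
    · rintro ⟨x, h3⟩
      refine Subtype.ext ?_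
      rw [hpq, ← h3, hii]
      exact (hex _).2 ⟨x, rfl⟩
  have h3 : pp.rTensor F w = 0 := by
    refine BFl_inj K N3 F ?_
    rw [BFl_nat K F pp hpq, hw, ← LinearMap.comp_apply, ← LinearMap.rTensor_comp]
    have h4 : p ∘ₗ i = 0 := LinearMap.ext fun x => (hex _).2 ⟨x, rfl⟩
    rw [h4, LinearMap.rTensor_zero, LinearMap.zero_apply, BFl_zero]
  obtain ⟨w', hw'⟩ := (rTensor_exact F hexx hpp w).1 h3
  refine ⟨w', ?_⟩
  have hinj : Function.Injective (i.rTensor E') :=
    Module.Flat.rTensor_preserves_injective_linearMap i hi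
  refine hinj ?_
  rw [← BFl_nat K F ii hii, hw', hw]

end Abs

private theorem BFl_frac (P : PD k) (m : Fin 3) : IsFractionRing (P.BB m) P.M := by
  rw [IsFractionRing, isLocalization_iff]
  refine ⟨?_, ?_, ?_⟩
  · rintro ⟨y, hy⟩
    refine isUnit_iff_ne_zero.2 fun h => ?_
    have : y = 0 := Subtype.ext h
    exact nonZeroDivisors.ne_zero hy this
  · intro z
    obtain ⟨b, hb, d, hd, hd0, h⟩ := bb_frac P m z
    refine ⟨(⟨b, hb⟩, ⟨⟨d, hd⟩, mem_nonZeroDivisors_of_ne_zero fun h =>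
      hd0 (congrArg Subtype.val h)⟩), ?_⟩
    change z * d = b
    rw [mul_comm]
    exact h
  · intro x y h
    exact ⟨1, by rw [show x = y from Subtype.ext h]⟩

private theorem BFl_sm (N : BLat V1) {V' : MSp P} (N' : BLat V') (m : Fin 3)
    (hfr : IsFractionRing (P.BB m) P.M) (s : k) (v : (N.mB m) ⊗[P.BB m] (N'.mB m)) :
    ∃ w : (N.mB m) ⊗[P.BB m] (N'.mB m), BFl_th P.M (N.mB m) (N'.mB m) w =
      (s • BFl_th P.M (N.mB m) (N'.mB m) v : V1.E ⊗[P.M] V'.E) := by
  induction v using TensorProduct.induction_on with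
  | zero => exact ⟨0, by rw [BFl_zero, smul_zero]⟩
  | tmul x y =>
    refine ⟨(⟨s • (x : V1.E), ?_⟩ : N.mB m) ⊗ₜ[P.BB m] y, ?_⟩
    · exact Submodule.smul_of_tower_mem (N.N (sg1 k m)) s x.2
    · rfl
  | add v w hv hw =>
    obtain ⟨v', hv'⟩ := hv
    obtain ⟨w', hw'⟩ := hw
    exact ⟨v' + w', by rw [BFl_add, BFl_add, smul_add, hv', hw']⟩

private theorem BFl_mem (N : BLat V1) {V' : MSp P} (N' : BLat V') (m : Fin 3)
    (hfr : IsFractionRing (P.BB m) P.M) (z : (V1.ten V').E) :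
    z ∈ (QL N N').N (sg1 k m) ↔ ∃ w : (N.mB m) ⊗[P.BB m] (N'.mB m),
      BFl_th P.M (N.mB m) (N'.mB m) w = z := by
  constructor
  · intro hz
    have h1 := mem_qlat.1 hz
    induction h1 using Submodule.span_induction with
    | mem z h =>
      obtain ⟨x, hx, y, hy, rfl⟩ := h
      exact ⟨(⟨x, hx⟩ : N.mB m) ⊗ₜ[P.BB m] (⟨y, hy⟩ : N'.mB m), rfl⟩
    | zero => exact ⟨0, BFl_zero _ _ _⟩
    | add a b ha' hb' ha hb =>
      obtain ⟨v, hv⟩ := ha (mem_qlat.2 ha')
      obtain ⟨w, hw⟩ := hb (mem_qlat.2 hb')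
      refine ⟨v + w, ?_⟩
      rw [BFl_add, hv, hw]
      rfl
    | smul s a ha' ha =>
      obtain ⟨v, hv⟩ := ha (mem_qlat.2 ha')
      rw [← hv]
      exact BFl_sm N N' m hfr s v
  · rintro ⟨w, rfl⟩
    refine mem_qlat.2 ?_
    induction w using TensorProduct.induction_on with
    | zero =>
      rw [BFl_zero]
      exact Submodule.zero_mem _
    | tmul x y => exact Submodule.subset_span ⟨x, x.2, y, y.2, rfl⟩
    | add v w hv hw =>
      rw [BFl_add]
      exact Submodule.add_mem _ hv hw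

namespace BSes

variable (S : BSes N1 N2 N3)

/-- The sequence `N1 ⊗ N' → N2 ⊗ N' → N3 ⊗ N'` of lattices over the surface, for locally free `N'`.

PROOF. `V'` is free over the field `M`, so `S.i ⊗ V'`, `S.p ⊗ V'` form an exact sequence. By `mi_of1`
and `mp_of1` it is enough to consider the chart `m`. Let `R = BB m`, `F = N'.mB m`, flat over `R`, and
let `θ_j : N_j.mB m ⊗[R] F → V_j ⊗[M] V'` be the canonical maps; the range of `θ_j` is
`(QL N_j N').N (sg1 m)` (`mem_qlat`; for `r ∈ BB m` `r x ⊗ y`). (`S.p` on the lattices is surjective,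
so `mp_of1` applies.) `θ_j` is injective: it is the composition of `N_j.mB m ⊗[R] F → V_j ⊗[R] F`
(injective because `F` is flat), of the isomorphism `V_j ⊗[R] F ≅ V_j ⊗[M] (M ⊗[R] F)` and of the map
given by `M ⊗[R] F → V'` (injective: `M` is the localization of `R` at the nonzero elements by
`bb_frac`, `M ⊗[R] F ⊆ M ⊗[R] V' = V'`, `M` flat over `R`).
`mi`: let `z ∈ V_1 ⊗ V'` with `(S.i ⊗ V') z = θ_2 w`, `w ∈ N_2 ⊗ F`. Then `θ_3 ((S.p ⊗ F) w) = 0`, so
`(S.p ⊗ F) w = 0`, and by right exactness of `- ⊗[R] F` (`N_1 → N_2 → N_3 → 0` is exact: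
`S.mi`, `S.mp`, `S.ex`) `w = (S.i ⊗ F) w'`; so `(S.i ⊗ V') (θ_1 w') = (S.i ⊗ V') z` and
`z = θ_1 w'`. -/
theorem exists_q {V' : MSp P} {N' : BLat V'} (hF : FlatB N') :
    (Function.Injective (tenE S.i V') ∧ Function.Surjective (tenE S.p V') ∧
      ∀ x, tenE S.p V' x = 0 ↔ ∃ y, tenE S.i V' y = x) ∧
    (∀ c x, tenE S.i V' x ∈ (QL N2 N').N c ↔ x ∈ (QL N1 N').N c) ∧
      ∀ c x, x ∈ (QL N3 N').N c ↔ ∃ y ∈ (QL N2 N').N c, tenE S.p V' y = x := by
  have hinj : Function.Injective (tenE S.i V') :=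
    Module.Flat.rTensor_preserves_injective_linearMap S.i S.inj
  have hsurj : Function.Surjective (tenE S.p V') := LinearMap.rTensor_surjective V'.E S.surj
  have hexx : ∀ x, tenE S.p V' x = 0 ↔ ∃ y, tenE S.i V' y = x := by
    have h0 : Function.Exact S.i S.p := fun y => S.ex y
    exact fun x => rTensor_exact V'.E h0 S.surj x
  refine ⟨⟨hinj, hsurj, hexx⟩, mi_of1 (qf_mem S.mapI N') ?_,
    mp_of1 hsurj (qf_mem S.mapP N') ?_⟩
  · intro m z hz
    have hfr := BFl_frac P m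
    have hFm : Module.Flat (P.BB m) (N'.mB m) := hF m
    obtain ⟨w, hw⟩ := (BFl_mem N2 N' m hfr _).1 hz
    exact (BFl_mem N1 N' m hfr z).2 (BFl_abs (N1 := N1.mB m) (N2 := N2.mB m) (N3 := N3.mB m) P.M S.inj
      S.ex (N'.mB m)
      (fun x => S.mi (sg1 k m) x) (fun x => S.mp (sg1 k m) x) z w hw)
  · intro m z hz
    have h1 := mem_qlat.1 hz
    induction h1 using Submodule.span_induction with
    | mem z h =>
      obtain ⟨x, hx, y, hy, rfl⟩ := h
      obtain ⟨x', hx', rfl⟩ := (S.mp _ x).1 hx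
      exact ⟨(x' ⊗ₜ[P.M] y : V2.E ⊗[P.M] V'.E), mem_qlat.2 (Submodule.subset_span
        ⟨x', hx', y, hy, rfl⟩), tenE_tmul S.p V' x' y⟩
    | zero => exact ⟨0, Submodule.zero_mem _, map_zero _⟩
    | add a b ha' hb' ha hb =>
      obtain ⟨v, hv, h2⟩ := ha (mem_qlat.2 ha')
      obtain ⟨w, hw, h3⟩ := hb (mem_qlat.2 hb')
      exact ⟨v + w, Submodule.add_mem _ hv hw, by rw [map_add, h2, h3]⟩
    | smul s a ha' ha =>
      obtain ⟨v, hv, h2⟩ := ha (mem_qlat.2 ha')
      exact ⟨s • v, Submodule.smul_of_tower_mem _ s hv, by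
        rw [LinearMap.map_smul_of_tower, h2]⟩

/-- PROOF. `exists_q`; `((Qf h' h).f c x).1 = tenE f _ x.1` by `rfl`. -/
theorem q_ex {G' : MG P B' C} {N' : BLat G'.toMSp} (h' : StR G' N') (hF : FlatB N') :
    ShEx (Qf h' S.mapI).toShH (Qf h' S.mapP).toShH := by
  obtain ⟨⟨hinj, -, hex⟩, hmi, hmp⟩ := S.exists_q hF
  intro c
  refine ⟨?_, ?_, ?_⟩
  · intro x y hxy
    exact Subtype.ext (hinj (congrArg Subtype.val hxy))
  · rintro ⟨z, hz⟩
    obtain ⟨y, hy, h1⟩ := (hmp c z).1 hz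
    exact ⟨⟨y, hy⟩, Subtype.ext h1⟩
  · rintro ⟨x, hx⟩
    constructor
    · intro h
      have h1 : tenE S.p G'.toMSp x = 0 := congrArg Subtype.val h
      obtain ⟨y, hy⟩ := (hex x).1 h1
      refine ⟨⟨y, (hmi c y).1 ?_⟩, Subtype.ext hy⟩
      rw [hy]
      exact hx
    · rintro ⟨y, hy⟩
      refine Subtype.ext ((hex x).2 ⟨y.1, congrArg Subtype.val hy⟩)

end BSes

end Pool.Agent.MP_6e5bed_ag_PS
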