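import Pool.Agent.Lib.MP_6e5bed_ag_PS.BBI

set_option autoImplicit false
set_option linter.unusedVariables false

/-!
# MP_6e5bed_ag, NC PRODUCT SURFACES: reflexive hulls over the product surface
-/

noncomputable section

namespace Pool.Agent.MP_6e5bed_ag_PS

open Pool.Agent.MP_6e5bed_ag_NC
open Pool.Agent.MP_6e5bed_ag_NS
open scoped TensorProduct

universe u

variable {k : Type u} [Field k] {P : PD k} {V : MSp P}

/-- PROOF. `PP {m} {m} 0 0` is spanned by the `j1 b * j2 b'` (`Submodule.mul_induction_on`,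
`mem_OA_sgl`), `N.b1`, `N.b2`. -/
theorem BLat.bb_smul (N : BLat V) {c : Ch k} {m : Fin 3} (hm : xx k m ∈ c.1) {b : P.M}
    (hb : b ∈ P.BB m) {x : V.E} (hx : x ∈ N.N c) : b • x ∈ N.N c := by
  have h := (PD.mem_BB P).1 hb
  refine Submodule.mul_induction_on (C := fun b : P.M => b • x ∈ N.N c) h ?_ ?_
  · rintro _ ⟨f, hf, rfl⟩ _ ⟨g, hg, rfl⟩
    have hf' : f ∈ OA P.D1 {m} 0 := hf
    have hg' : g ∈ OA P.D2 {m} 0 := hg
    rw [mem_OA_sgl, neg_zero, zpow_zero, one_mul] at hf' hg'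
    change (P.j1 f * P.j2 g) • x ∈ N.N c
    rw [mul_smul]
    exact N.b1 c m hm f hf' _ (N.b2 c m hm g hg' _ hx)
  · intro a b ha hb
    rw [add_smul]
    exact (N.N c).add_mem ha hb

/-- the sections on the chart `m`, as a module over the functions on the product surface -/
def BLat.mB (N : BLat V) (m : Fin 3) : Submodule (P.BB m) V.E where
  carrier := {x | x ∈ N.N (sg1 k m)}
  add_mem' := (N.N (sg1 k m)).add_mem
  zero_mem' := (N.N (sg1 k m)).zero_mem
  smul_mem' := fun b x hx => by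
    rw [Subalgebra.smul_def]
    exact N.bb_smul (Set.mem_singleton _) b.2 hx

/-- locally free over the product surface -/
def FlatB (N : BLat V) : Prop := ∀ m, Module.Flat (P.BB m) (N.mB m)

/-- the `M`-linear functionals which are integral on `N` -/
def Dm (N : BLat V) (m : Fin 3) (φ : V.E →ₗ[P.M] P.M) : Prop :=
  ∀ y ∈ N.N (sg1 k m), φ y ∈ P.BB m

private theorem Hull_fin (N : BLat V) (m : Fin 3) : ∃ (l : ℕ) (y : Fin l → V.E),
    (∀ i, y i ∈ N.N (sg1 k m)) ∧
      (∀ x ∈ N.N (sg1 k m), ∃ a : Fin l → RR k (sg1 k m), ∑ i, (a i : KK k) • y i = x) ∧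
      Submodule.span P.M (Set.range y) = ⊤ := by
  obtain ⟨l, y, hy⟩ := Submodule.fg_iff_exists_fin_generating_family.1 (N.fg (sg1 k m))
  have h2 : ∀ x ∈ N.N (sg1 k m), ∃ a : Fin l → RR k (sg1 k m),
      ∑ i, (a i : KK k) • y i = x := by
    intro x hx
    rw [← hy, Submodule.mem_span_range_iff_exists_fun] at hx
    obtain ⟨a, ha⟩ := hx
    exact ⟨a, ha⟩
  refine ⟨l, y, fun i => ?_, h2, ?_⟩
  · rw [← hy]
    exact Submodule.subset_span ⟨i, rfl⟩
  · have h3 : Submodule.span (KK k) (Set.range y) = ⊤ := by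
      rw [eq_top_iff, ← N.span (sg1 k m), Submodule.span_le]
      intro x hx
      obtain ⟨a, rfl⟩ := h2 x hx
      exact Submodule.sum_mem _ fun i _ => Submodule.smul_mem _ _ (Submodule.subset_span ⟨i, rfl⟩)
    rw [eq_top_iff]
    intro x _
    have h4 : x ∈ Submodule.span (KK k) (Set.range y) := by
      rw [h3]
      exact Submodule.mem_top
    exact Submodule.span_le_restrictScalars (KK k) P.M (Set.range y) h4

private theorem Hull_smul (ψ : V.E →ₗ[P.M] P.M) (c : KK k) (x : V.E) :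
    ψ (c • x) = algebraMap (KK k) P.M c * ψ x := by
  rw [LinearMap.map_smul_of_tower, Algebra.smul_def]

/-- a functional is integral if it is on the generators -/
private theorem Hull_Dm {N : BLat V} {m : Fin 3} {l : ℕ} {y : Fin l → V.E}
    (hgen : ∀ x ∈ N.N (sg1 k m), ∃ a : Fin l → RR k (sg1 k m), ∑ i, (a i : KK k) • y i = x)
    {ψ : V.E →ₗ[P.M] P.M} (h : ∀ i, ψ (y i) ∈ P.BB m) : Dm N m ψ := by
  intro z hz
  obtain ⟨a, rfl⟩ := hgen z hz
  rw [map_sum]
  refine (P.BB m).sum_mem fun i _ => ?_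
  rw [Hull_smul]
  exact (P.BB m).mul_mem (P.rr_mem m (a i).2) (h i)

private theorem Hull_den (m : Fin 3) {ι : Type} [Fintype ι] (z : ι → P.M) :
    ∃ s ∈ P.BB m, s ≠ 0 ∧ ∀ i, s * z i ∈ P.BB m := by
  classical
  choose a ha b hb hb0 hab using fun i => bb_frac P m (z i)
  refine ⟨∏ i, b i, (P.BB m).prod_mem fun i _ => hb i,
    Finset.prod_ne_zero_iff.2 fun i _ => hb0 i, fun i => ?_⟩
  have h1 : (∏ j, b j) * z i = (∏ j ∈ Finset.univ.erase i, b j) * a i := by
    rw [← Finset.mul_prod_erase _ _ (Finset.mem_univ i), ← hab i]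
    ring
  rw [h1]
  exact (P.BB m).mul_mem ((P.BB m).prod_mem fun i _ => hb i) (ha i)

/-- The functionals are finitely generated.

PROOF. `N.mB m` is generated over `BB m` by finitely many `y_i ∈ N.N (sg1 k m)` (`N.fg`, and
`RR k (sg1 k m) ⊆ BB m`), and they span `V` over `M` (`N.span`). `φ ↦ (φ y_i)_i` is an injection of the
set of functionals into `(BB m) ^ n`, whose image is a submodule; it is finitely generated because
`BB m` is noetherian (`bb_noeth`). (Compare `Refl_gen` in `Lib/MP_6e5bed_ag_NS/Refl.lean`.) -/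
theorem Dm_gen (N : BLat V) (m : Fin 3) : ∃ (n : ℕ) (φ : Fin n → V.E →ₗ[P.M] P.M),
    (∀ j, Dm N m (φ j)) ∧
      ∀ ψ, Dm N m ψ → ∃ a : Fin n → P.BB m, ψ = ∑ j, (a j : P.M) • φ j := by
  obtain ⟨l, y, hy, hgen, htop⟩ := Hull_fin N m
  have := bb_noeth P m
  let M : Submodule (P.BB m) (Fin l → P.BB m) :=
    { carrier := {r | ∃ ψ : V.E →ₗ[P.M] P.M, Dm N m ψ ∧ ∀ i, ψ (y i) = (r i : P.M)}
      add_mem' := by
        rintro r r' ⟨ψ, h1, h2⟩ ⟨ψ', h1', h2'⟩
        exact ⟨ψ + ψ', fun x hx => (P.BB m).add_mem (h1 x hx) (h1' x hx), fun i => by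
          rw [LinearMap.add_apply, h2, h2']
          rfl⟩
      zero_mem' := ⟨0, fun x hx => (P.BB m).zero_mem, fun i => rfl⟩
      smul_mem' := by
        rintro s r ⟨ψ, h1, h2⟩
        exact ⟨(s : P.M) • ψ, fun x hx => (P.BB m).mul_mem s.2 (h1 x hx), fun i => by
          rw [LinearMap.smul_apply, h2]
          rfl⟩ }
  obtain ⟨n, r, hr⟩ := Submodule.fg_iff_exists_fin_generating_family.1
    (IsNoetherian.noetherian M)
  have hrM : ∀ j, r j ∈ M := fun j => by
    rw [← hr]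
    exact Submodule.subset_span ⟨j, rfl⟩
  choose φ hφ1 hφ2 using hrM
  refine ⟨n, φ, hφ1, fun ψ hψ => ?_⟩
  have hψM : (fun i => (⟨ψ (y i), hψ _ (hy i)⟩ : P.BB m)) ∈ M := ⟨ψ, hψ, fun i => rfl⟩
  rw [← hr, Submodule.mem_span_range_iff_exists_fun] at hψM
  obtain ⟨a, ha⟩ := hψM
  refine ⟨a, LinearMap.ext_on htop ?_⟩
  rintro _ ⟨i, rfl⟩
  have h1 : (((∑ j, a j • r j) i : P.BB m) : P.M) = ψ (y i) := by rw [ha]
  rw [← h1, Finset.sum_apply, AddSubmonoidClass.coe_finsetSum, LinearMap.sum_apply]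
  refine Finset.sum_congr rfl fun j _ => ?_
  rw [LinearMap.smul_apply, hφ2]
  rfl

/-- PROOF. The `M`-linear functionals separate points; multiply a functional with a common
denominator (`bb_frac`) of its values at generators of `N.mB m`. (Compare `Refl_sep`.) -/
theorem Dm_sep (N : BLat V) (m : Fin 3) {x : V.E}
    (hx : ∀ ψ : V.E →ₗ[P.M] P.M, Dm N m ψ → ψ x = 0) : x = 0 := by
  obtain ⟨l, y, hy, hgen, htop⟩ := Hull_fin N m
  rw [← Module.forall_dual_apply_eq_zero_iff P.M x]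
  intro ψ
  obtain ⟨s, hs, hs0, h1⟩ := Hull_den (P := P) m fun i => ψ (y i)
  have h2 : Dm N m (s • ψ) := Hull_Dm hgen h1
  have h3 := hx _ h2
  rw [LinearMap.smul_apply, smul_eq_mul] at h3
  exact (mul_eq_zero.1 h3).resolve_left hs0

/-- the reflexive hull on the chart `m` -/
def hullQ (N : BLat V) (m : Fin 3) : Submodule (RR k (sg1 k m)) V.E where
  carrier := {x | ∀ φ : V.E →ₗ[P.M] P.M, Dm N m φ → φ x ∈ P.BB m}
  add_mem' := fun {x y} hx hy φ hφ => by
    rw [map_add]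
    exact (P.BB m).add_mem (hx φ hφ) (hy φ hφ)
  zero_mem' := fun φ _ => by
    rw [map_zero]
    exact (P.BB m).zero_mem
  smul_mem' := fun r x hx φ hφ => by
    rw [Subalgebra.smul_def, LinearMap.map_smul_of_tower, Algebra.smul_def]
    exact (P.BB m).mul_mem (P.rr_mem m r.2) (hx φ hφ)

theorem mem_hullQ {N : BLat V} {m : Fin 3} {x : V.E} :
    x ∈ hullQ N m ↔ ∀ φ : V.E →ₗ[P.M] P.M, Dm N m φ → φ x ∈ P.BB m := Iff.rfl

/-- PROOF. With `Dm_gen`, `x ↦ (φ_j x)_j` embeds `hullQ N m` (injective by `Dm_sep`) into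
`(BB m) ^ n`, which is a finitely generated module over the noetherian ring `RR k (sg1 k m)`
(`QB_fg`, `RR_noeth`). (Compare `ReflH_fg`.) -/
theorem hullQ_fg (N : BLat V) (m : Fin 3) : (hullQ N m).FG := by
  obtain ⟨n, φ, hφ, hgen⟩ := Dm_gen N m
  have h1 := RR_noeth (sg1 k m)
  have h2 : Module.Finite (RR k (sg1 k m)) (P.QB m) := Module.Finite.iff_fg.2 (P.QB_fg m)
  let F : hullQ N m →ₗ[RR k (sg1 k m)] (Fin n → P.QB m) :=
    { toFun := fun x j => ⟨φ j x.1, x.2 _ (hφ j)⟩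
      map_add' := fun x y => funext fun j => Subtype.ext (map_add (φ j) _ _)
      map_smul' := fun r x => funext fun j => Subtype.ext (by
        have h3 := Hull_smul (φ j) (r : KK k) x.1
        change φ j ((r : KK k) • x.1) = (r : KK k) • φ j x.1
        rw [h3, Algebra.smul_def]) }
  have hF : Function.Injective F := by
    rw [← LinearMap.ker_eq_bot, eq_bot_iff]
    intro x hx
    rw [LinearMap.mem_ker] at hx
    rw [Submodule.mem_bot]
    refine Subtype.ext (Dm_sep N m fun ψ hψ => ?_)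
    obtain ⟨a, rfl⟩ := hgen ψ hψ
    rw [LinearMap.sum_apply]
    refine Finset.sum_eq_zero fun j _ => ?_
    have h3 : φ j x.1 = 0 := congrArg Subtype.val (congrFun hx j)
    rw [LinearMap.smul_apply, h3, smul_zero]
  have h3 : IsNoetherian (RR k (sg1 k m)) (hullQ N m) := isNoetherian_of_injective F hF
  exact Module.Finite.iff_fg.1 inferInstance

theorem hullQ_le (N : BLat V) (m : Fin 3) {x : V.E} (hx : x ∈ N.N (sg1 k m)) : x ∈ hullQ N m :=
  fun _ hφ => hφ x hx

/-- PROOF. `N.span`. -/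
theorem hullQ_span (N : BLat V) (m : Fin 3) :
    Submodule.span (KK k) (hullQ N m : Set V.E) = ⊤ := by
  rw [eq_top_iff, ← N.span (sg1 k m)]
  exact Submodule.span_mono fun x hx => hullQ_le N m hx

private theorem Hull_lam_xx (i : Fin 3) : lam k (xx k i).1 = uu k i := by
  unfold lam xx
  rw [Finset.sum_eq_single i]
  · change (Pi.single i 1 : Fin 3 → k) i • uu k i = uu k i
    rw [Pi.single_eq_same, one_smul]
  · intro j _ hj
    change (Pi.single i 1 : Fin 3 → k) j • uu k j = 0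
    rw [Pi.single_eq_of_ne hj, zero_smul]
  · intro h
    exact absurd (Finset.mem_univ i) h

private theorem Hull_uu (i : Fin 3) : uu k i ≠ 0 := by
  rw [← Hull_lam_xx]
  exact lam_ne_zero _

private theorem Hull_quo (m j : Fin 3) : uu k j / uu k m ∈ RR k (sg1 k m) := by
  have h := Algebra.subset_adjoin (R := k) (s := {r | ∃ (ℓ : Fin 3 → k) (g : LF k),
    g ∈ (sg1 k m).1 ∧ r = lam k ℓ / lam k g.1}) ⟨(xx k j).1, xx k m, Set.mem_singleton _, rfl⟩
  rw [Hull_lam_xx, Hull_lam_xx] at h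
  exact h

/-- PROOF. Let `w = u_m / u_m'` (in `RR k (sg1 k m')`), `x ∈ hullQ N m`, and let `φ_j` generate the
functionals for `m'` (`Dm_gen`). For every `j` the functional `w ^ n • φ_j` is in `BB m`-valued on
`N.N (sg1 k m)` for large... precisely: let `y_i` be generators of `N.N (sg1 k m)`; `w ^ n • y_i ∈
N.N (sg1 k m')` for large `n` (`N.loc` from the chart `sg1 m ∪ sg1 m'`, `N.mono`), so
`φ_j (w ^ n • y_i) ∈ BB m'`, and `w⁻¹ ^ l * b ∈ BB m` for `b ∈ BB m'` and large `l` (`QB_loc`). So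
`w ^ (n - l) • φ_j` is a functional for `m`, `w ^ (n - l) * φ_j x ∈ BB m`, and again by `QB_loc`
`w ^ (n' ) * φ_j x ∈ BB m'` for some (hence all larger) `n'`. -/
theorem hullQ_loc (N : BLat V) (m m' : Fin 3) (x : V.E) (hx : x ∈ hullQ N m) :
    ∃ n : ℕ, (uu k m / uu k m') ^ n • x ∈ hullQ N m' := by
  obtain ⟨n, φ, hφ, hgen⟩ := Dm_gen N m'
  obtain ⟨l, y, hy, hgen', -⟩ := Hull_fin N m
  obtain ⟨W, hW⟩ : ∃ W : P.M, W = algebraMap (KK k) P.M (uu k m / uu k m') := ⟨_, rfl⟩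
  obtain ⟨W', hW'⟩ : ∃ W' : P.M, W' = algebraMap (KK k) P.M (uu k m' / uu k m) := ⟨_, rfl⟩
  have hWB : W ∈ P.BB m' := by
    rw [hW]
    exact P.rr_mem m' (Hull_quo m' m)
  have hWB' : W' ∈ P.BB m := by
    rw [hW']
    exact P.rr_mem m (Hull_quo m m')
  have hWW : W * W' = 1 := by
    rw [hW, hW', ← map_mul, div_mul_div_comm, mul_comm (uu k m') (uu k m), div_self, map_one]
    exact mul_ne_zero (Hull_uu m) (Hull_uu m')
  have hpow : ∀ (e : ℕ) (x : V.E), (uu k m / uu k m') ^ e • x = W ^ e • x := by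
    intro e x
    rw [hW, ← map_pow, algebraMap_smul]
  have key : ∀ j, ∃ e : ℕ, W ^ e * φ j x ∈ P.BB m' := by
    intro j
    have h1 : ∀ i, ∃ e : ℕ, W' ^ e * φ j (y i) ∈ P.BB m := by
      intro i
      have h2 : (sg1 k m' : Ch k) ≤ (sg1 k m').ins (xx k m) := Set.subset_insert _ _
      have h3 : (sg1 k m : Ch k) ≤ (sg1 k m').ins (xx k m) :=
        Set.singleton_subset_iff.2 (Set.mem_insert _ _)
      obtain ⟨e, he⟩ := N.loc h2 (Set.mem_singleton (xx k m')) (xx k m) le_rfl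
        (N.mono h3 (hy i))
      rw [Hull_lam_xx, Hull_lam_xx, hpow] at he
      have h4 := hφ j _ he
      rw [map_smul, smul_eq_mul] at h4
      obtain ⟨e', he'⟩ := P.QB_loc m' m _ h4
      refine ⟨e', ?_⟩
      have h5 : (uu k m' / uu k m) ^ e' • (W ^ e * φ j (y i)) =
          W' ^ e' * (W ^ e * φ j (y i)) := by
        rw [Algebra.smul_def, map_pow, hW']
      rw [h5] at he'
      have h6 := (P.BB m).mul_mem (pow_mem hWB' e) he'
      have h7 : W' ^ e * (W' ^ e' * (W ^ e * φ j (y i))) =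
          (W * W') ^ e * (W' ^ e' * φ j (y i)) := by
        rw [mul_pow]
        ring
      rw [h7, hWW, one_pow, one_mul] at h6
      exact h6
    choose e he using h1
    have h2 : Dm N m (W' ^ (∑ i, e i) • φ j) := by
      refine Hull_Dm hgen' fun i => ?_
      rw [LinearMap.smul_apply, smul_eq_mul]
      have h3 : e i ≤ ∑ i, e i :=
        Finset.single_le_sum (fun _ _ => Nat.zero_le _) (Finset.mem_univ i)
      obtain ⟨r, hr⟩ := Nat.exists_eq_add_of_le h3
      rw [hr, add_comm, pow_add, mul_assoc]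
      exact (P.BB m).mul_mem (pow_mem hWB' r) (he i)
    have h3 := hx _ h2
    rw [LinearMap.smul_apply, smul_eq_mul] at h3
    obtain ⟨r, hr⟩ := P.QB_loc m m' _ h3
    have h5 : (uu k m / uu k m') ^ r • (W' ^ (∑ i, e i) * φ j x) =
        W ^ r * (W' ^ (∑ i, e i) * φ j x) := by
      rw [Algebra.smul_def, map_pow, hW]
    rw [h5] at hr
    refine ⟨r, ?_⟩
    have h6 := (P.BB m').mul_mem (pow_mem hWB (∑ i, e i)) hr
    have h7 : W ^ (∑ i, e i) * (W ^ r * (W' ^ (∑ i, e i) * φ j x)) =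
        (W * W') ^ (∑ i, e i) * (W ^ r * φ j x) := by
      rw [mul_pow]
      ring
    rw [h7, hWW, one_pow, one_mul] at h6
    exact h6
  choose e he using key
  refine ⟨∑ j, e j, fun ψ hψ => ?_⟩
  obtain ⟨a, rfl⟩ := hgen ψ hψ
  rw [hpow, map_smul, smul_eq_mul, LinearMap.sum_apply, Finset.mul_sum]
  refine (P.BB m').sum_mem fun j _ => ?_
  rw [LinearMap.smul_apply, smul_eq_mul]
  have h3 : e j ≤ ∑ j, e j :=
    Finset.single_le_sum (fun _ _ => Nat.zero_le _) (Finset.mem_univ j)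
  obtain ⟨r, hr⟩ := Nat.exists_eq_add_of_le h3
  have h4 : W ^ (∑ j, e j) * ((a j : P.M) * φ j x) = (a j : P.M) * (W ^ r * (W ^ e j * φ j x)) := by
    rw [hr, pow_add]
    ring
  rw [h4]
  exact (P.BB m').mul_mem (a j).2 ((P.BB m').mul_mem (pow_mem hWB r) (he j))

/-- the gluing datum of the hull -/
def hullG (N : BLat V) : GD k V.E := ⟨hullQ N, hullQ_fg N, hullQ_span N, hullQ_loc N⟩

end Pool.Agent.MP_6e5bed_ag_PS
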