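import Pool.Agent.Lib.MP_6e5bed_ag_PS.OfM
import Pool.Agent.Lib.MP_6e5bed_ag_PS.Hull

set_option autoImplicit false
set_option linter.unusedVariables false

/-!
# MP_6e5bed_ag, NC PRODUCT SURFACES: short exact sequences of lattices over the product surface
-/

noncomputable section

namespace Pool.Agent.MP_6e5bed_ag_PS

open Pool.Agent.MP_6e5bed_ag_NC
open Pool.Agent.MP_6e5bed_ag_NS
open scoped TensorProduct

universe u

variable {k : Type u} [Field k] {P : PD k} {A B B' C : ASh k}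
variable {V1 V2 V3 : MSp P} {N1 : BLat V1} {N2 : BLat V2} {N3 : BLat V3}

/-- short exact sequences of lattices -/
structure BSes (N1 : BLat V1) (N2 : BLat V2) (N3 : BLat V3) where
  i : V1.E →ₗ[P.M] V2.E
  p : V2.E →ₗ[P.M] V3.E
  inj : Function.Injective i
  surj : Function.Surjective p
  ex : ∀ x, p x = 0 ↔ ∃ y, i y = x
  mi : ∀ c x, i x ∈ N2.N c ↔ x ∈ N1.N c
  mp : ∀ c x, x ∈ N3.N c ↔ ∃ y ∈ N2.N c, p y = x

/-- PROOF. `Lat.glue`, `mono`. -/
theorem mi_of {i : V1.E →ₗ[P.M] V2.E}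
    (h : ∀ (m : Fin 3) (c : Ch k), xx k m ∈ c.1 → ∀ x, i x ∈ N2.N c ↔ x ∈ N1.N c) (c : Ch k)
    (x : V1.E) : i x ∈ N2.N c ↔ x ∈ N1.N c := by
  have hm : ∀ m : Fin 3, xx k m ∈ (c.ins (xx k m)).1 := fun m => Set.mem_insert _ _
  constructor
  · intro hx
    refine N1.toLat.glue c x fun m => ?_
    exact (h m _ (hm m) x).1 (N2.mono (Set.subset_insert _ _) hx)
  · intro hx
    refine N2.toLat.glue c _ fun m => ?_
    exact (h m _ (hm m) x).2 (N1.mono (Set.subset_insert _ _) hx)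

/-- PROOF. `Lat.glue` for `N3` and for the lattice `Lat.map N2.toLat (p.restrictScalars (KK k)) _`
(`LatPi.lean`, `Lat.mem_map`). -/
theorem mp_of {p : V2.E →ₗ[P.M] V3.E} (hp : Function.Surjective p)
    (h : ∀ (m : Fin 3) (c : Ch k), xx k m ∈ c.1 → ∀ x, x ∈ N3.N c ↔ ∃ y ∈ N2.N c, p y = x)
    (c : Ch k) (x : V3.E) : x ∈ N3.N c ↔ ∃ y ∈ N2.N c, p y = x := by
  have hm : ∀ m : Fin 3, xx k m ∈ (c.ins (xx k m)).1 := fun m => Set.mem_insert _ _
  constructor
  · intro hx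
    have h1 : x ∈ (Lat.map N2.toLat (resK p) hp).N c := by
      refine Lat.glue _ c x fun m => ?_
      exact (h m _ (hm m) x).1 (N3.mono (Set.subset_insert _ _) hx)
    exact h1
  · rintro ⟨y, hy, rfl⟩
    refine N3.toLat.glue c _ fun m => ?_
    exact (h m _ (hm m) _).2 ⟨y, N2.mono (Set.subset_insert _ _) hy, rfl⟩

private theorem BSes_loc_set {E : Type u} [AddCommGroup E] [Module k E] [Module (KK k) E]
    [IsScalarTower k (KK k) E] (N : Lat k E) (a : Ch k) {s : Set (LF k)} (hs : s.Finite) :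
    ∀ d : Ch k, d.1 = s ∪ a.1 → ∀ x ∈ N.N d, ∃ r ∈ RR k d, ∃ x' ∈ N.N a, x = r • x' := by
  induction s, hs using Set.Finite.induction_on with
  | empty =>
    intro d hd x hx
    rw [Set.empty_union] at hd
    have h1 : d = a := Subtype.ext hd
    subst h1
    exact ⟨1, (RR k d).one_mem, x, hx, (one_smul _ x).symm⟩
  | @insert ℓ s _ hs ih =>
    intro d hd x hx
    obtain ⟨g, hg⟩ := a.2.1
    let c : Ch k := ⟨s ∪ a.1, ⟨g, Or.inr hg⟩, hs.union a.2.2⟩
    have hcd : c ≤ d := by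
      change s ∪ a.1 ⊆ d.1
      rw [hd]
      exact Set.union_subset_union_left _ (Set.subset_insert ℓ s)
    have hdc : d ≤ c.ins ℓ := by
      change d.1 ⊆ insert ℓ (s ∪ a.1)
      rw [hd, Set.insert_union]
    have hℓ : ℓ ∈ d.1 := by
      rw [hd]
      exact Or.inl (Set.mem_insert ℓ s)
    obtain ⟨n, hn⟩ := N.loc hcd (Or.inr hg : g ∈ c.1) ℓ hdc hx
    obtain ⟨r, hr, x', hx', h1⟩ := ih c rfl _ hn
    have h0 := lam_ne_zero g
    have h0' := lam_ne_zero ℓ
    refine ⟨(lam k g.1 / lam k ℓ.1) ^ n * r, (RR k d).mul_mem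
      ((RR k d).pow_mem (lam_mem _ hℓ) n) (RR_mono hcd hr), x', hx', ?_⟩
    rw [mul_smul, ← h1, smul_smul, ← mul_pow]
    have h2 : lam k g.1 / lam k ℓ.1 * (lam k ℓ.1 / lam k g.1) = 1 := by
      field_simp
    rw [h2, one_pow, one_smul]

private theorem BSes_loc_le {E : Type u} [AddCommGroup E] [Module k E] [Module (KK k) E]
    [IsScalarTower k (KK k) E] (N : Lat k E) {a d : Ch k} (h : a ≤ d) {x : E} (hx : x ∈ N.N d) :
    ∃ r ∈ RR k d, ∃ x' ∈ N.N a, x = r • x' :=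
  BSes_loc_set N a d.2.2 d (Set.union_eq_left.mpr h).symm x hx

/-- It is enough to consider the three coordinate charts.

PROOF. `mp_of`, and for `xx m ∈ c` pass from the chart `sg1 m` to `c`: if `x ∈ N3.N c` then for some
power `r` of functions `lam ℓ / lam (xx m)`, `ℓ ∈ c`, invertible in `RR k c`, `r • x ∈ N3.N (sg1 m)`
(induction on the finite set `c`, as in the proof of `stR_of`; or the private `Gen_loc_le` in
`Lib/MP_6e5bed_ag_NS/Gen.lean`: `x = r • x'` with `r ∈ RR k c`, `x' ∈ N3.N (sg1 m)`). -/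
theorem mp_of1 {p : V2.E →ₗ[P.M] V3.E} (hp : Function.Surjective p) (hm : MapL N2 N3 p)
    (h : ∀ (m : Fin 3), ∀ x ∈ N3.N (sg1 k m), ∃ y ∈ N2.N (sg1 k m), p y = x)
    (c : Ch k) (x : V3.E) : x ∈ N3.N c ↔ ∃ y ∈ N2.N c, p y = x := by
  have hmap := hm
  clear hm
  refine mp_of hp (fun m c hm x => ⟨fun hx => ?_, ?_⟩) c x
  · have hle : sg1 k m ≤ c := Set.singleton_subset_iff.2 hm
    obtain ⟨r, hr, x', hx', rfl⟩ := BSes_loc_le N3.toLat hle hx
    obtain ⟨y, hy, rfl⟩ := h m x' hx'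
    refine ⟨r • y, (N2.N c).smul_mem (⟨r, hr⟩ : RR k c) (N2.mono hle hy), ?_⟩
    exact LinearMap.map_smul_of_tower p r y
  · rintro ⟨y, hy, rfl⟩
    exact hmap c y hy

/-- It is enough to consider the three coordinate charts.

PROOF. As `mp_of1`: if `i x ∈ N2.N c`, `xx m ∈ c`, then there is `r` as there, invertible in `RR k c`,
with `r • i x ∈ N2.N (sg1 m)`, so `r • x ∈ N1.N (sg1 m)`. -/
theorem mi_of1 {i : V1.E →ₗ[P.M] V2.E} (hi : MapL N1 N2 i)
    (h : ∀ (m : Fin 3), ∀ x, i x ∈ N2.N (sg1 k m) → x ∈ N1.N (sg1 k m)) (c : Ch k)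
    (x : V1.E) : i x ∈ N2.N c ↔ x ∈ N1.N c := by
  refine mi_of (fun m c hm x => ⟨fun hx => ?_, hi c x⟩) c x
  have hle : sg1 k m ≤ c := Set.singleton_subset_iff.2 hm
  obtain ⟨r, hr, x', hx', h1⟩ := BSes_loc_le N2.toLat hle hx
  rcases eq_or_ne r 0 with h0 | h0
  · refine N1.mono hle (h m x ?_)
    rw [h1, h0, zero_smul]
    exact (N2.N _).zero_mem
  · have h2 : i (r⁻¹ • x) = x' := by
      have h3 : i (r⁻¹ • x) = r⁻¹ • i x := LinearMap.map_smul_of_tower i r⁻¹ x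
      rw [h3, h1, smul_smul, inv_mul_cancel₀ h0, one_smul]
    have h3 : r⁻¹ • x ∈ N1.N (sg1 k m) := h m _ (by
      rw [h2]
      exact hx')
    have h4 := (N1.N c).smul_mem (⟨r, hr⟩ : RR k c) (N1.mono hle h3)
    have h5 : (⟨r, hr⟩ : RR k c) • (r⁻¹ • x) = x := by
      rw [Subalgebra.smul_def, smul_smul, mul_inv_cancel₀ h0, one_smul]
    rw [h5] at h4
    exact h4

namespace BSes

variable (S : BSes N1 N2 N3)

theorem mapI : MapL N1 N2 S.i := fun c x hx => (S.mi c x).2 hx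

theorem mapP : MapL N2 N3 S.p := fun c x hx => (S.mp c _).2 ⟨x, hx, rfl⟩

/-- The twisted sequence. -/
def bt (i j : ℤ) : BSes (N1.bt i j) (N2.bt i j) (N3.bt i j) where
  i := S.i
  p := S.p
  inj := S.inj
  surj := S.surj
  ex := S.ex
  mi := mi_of fun m c hm x => by
    have h1 := N2.mem_btN_iff i j hm (x := S.i x)
    have h2 := N1.mem_btN_iff i j hm (x := x)
    refine h1.trans (Iff.trans ?_ h2.symm)
    rw [← map_smul]
    exact S.mi c _
  mp := mp_of S.surj fun m c hm x => by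
    have h1 := N3.mem_btN_iff i j hm (x := x)
    refine h1.trans ⟨fun h => ?_, ?_⟩
    · obtain ⟨y, hy, h3⟩ := (S.mp c _).1 h
      have h0 : P.em m (-i) (-j) ≠ 0 :=
        mul_ne_zero (zpow_ne_zero _ (P.es_ne m)) (zpow_ne_zero _ (P.et_ne m))
      refine ⟨(P.em m (-i) (-j))⁻¹ • y, (N2.mem_btN_iff i j hm).2 ?_, ?_⟩
      · rw [smul_smul, mul_inv_cancel₀ h0, one_smul]
        exact hy
      · rw [map_smul, h3, smul_smul, inv_mul_cancel₀ h0, one_smul]
    · rintro ⟨y, hy, rfl⟩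
      rw [← map_smul]
      exact S.mapP c _ ((N2.mem_btN_iff i j hm).1 hy)

/-- The sequence `⊕ N1(-q) → ⊕ N2(-q) → ⊕ N3(-q)` is exact.

PROOF. All statements hold componentwise: `S.bt (-q.d1) (-q.d2)`. -/
theorem x_ex : ShEx (Xf S.mapI).toShH (Xf S.mapP).toShH := by
  intro c
  refine ⟨?_, ?_, ?_⟩
  · intro x y hxy
    have h1 : piE S.i x.1 = piE S.i y.1 := congrArg Subtype.val hxy
    refine Subtype.ext (funext fun q => S.inj ?_)
    exact congrFun h1 q
  · intro x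
    have h1 : ∀ q : II, ∃ y ∈ (N2.bt (-q.d1) (-q.d2)).N c, S.p y = x.1 q := fun q =>
      ((S.bt (-q.d1) (-q.d2)).mp c (x.1 q)).1 (x.2 q)
    choose y hy1 hy2 using h1
    exact ⟨⟨y, hy1⟩, Subtype.ext (funext hy2)⟩
  · intro x
    constructor
    · intro hx
      have h0 : piE S.p x.1 = 0 := congrArg Subtype.val hx
      have h1 : ∀ q : II, ∃ y, S.i y = x.1 q := fun q => (S.ex (x.1 q)).1 (congrFun h0 q)
      choose y hy using h1
      have h2 : ∀ q : II, y q ∈ (N1.bt (-q.d1) (-q.d2)).N c := fun q =>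
        ((S.bt (-q.d1) (-q.d2)).mi c (y q)).1 (by
          have h3 := x.2 q
          rw [← hy q] at h3
          exact h3)
      exact ⟨⟨y, h2⟩, Subtype.ext (funext hy)⟩
    · rintro ⟨y, rfl⟩
      refine Subtype.ext (funext fun q => ?_)
      exact (S.ex (S.i (y.1 q))).2 ⟨_, rfl⟩

end BSes

end Pool.Agent.MP_6e5bed_ag_PS
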