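import Pool.Agent.Lib.MP_6e5bed_ag_PS.BaseX

set_option autoImplicit false
set_option linter.unusedVariables false

/-!
# MP_6e5bed_ag, NC PRODUCT SURFACES: the map `Q(N0, N') → Z(N')`
-/

noncomputable section

namespace Pool.Agent.MP_6e5bed_ag_PS

open Pool.Agent.MP_6e5bed_ag_NC
open Pool.Agent.MP_6e5bed_ag_NS
open scoped TensorProduct

universe u

variable {k : Type u} [Field k] {P : PD k} {B' C : ASh k} {G' : MG P B' C} {N' : BLat G'.toMSp}

/-- `V0 ⊗ V' → V' ^ II`, `x ⊗ y ↦ (x p • y)_p` -/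
def gaV (G' : MG P B' C) : ((P.pw II).ten G'.toMSp).E →ₗ[P.M] (II → G'.E) :=
  TensorProduct.lift (LinearMap.mk₂ P.M (fun (x : II → P.M) (y : G'.E) => fun p => x p • y)
    (fun x x' y => funext fun p => add_smul _ _ _)
    (fun s x y => funext fun p => mul_smul s (x p) y)
    (fun x y y' => funext fun p => smul_add _ _ _)
    (fun s x y => funext fun p => smul_comm (x p) s y))

theorem gaV_tmul (x : II → P.M) (y : G'.E) (p : II) :
    gaV G' (x ⊗ₜ[P.M] y : (II → P.M) ⊗[P.M] G'.E) p = x p • y := rfl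

private def BaseV_g (G' : MG P B' C) (z : II → G'.E) : (II → P.M) ⊗[P.M] G'.E :=
  ∑ p, ((Pi.single p 1 : II → P.M) ⊗ₜ[P.M] z p)

private theorem BaseV_g_add (z z' : II → G'.E) :
    BaseV_g G' (z + z') = BaseV_g G' z + BaseV_g G' z' := by
  unfold BaseV_g
  rw [← Finset.sum_add_distrib]
  exact Finset.sum_congr rfl fun p _ => TensorProduct.tmul_add _ _ _

private theorem BaseV_gaV_g (z : II → G'.E) : gaV G' (BaseV_g G' z) = z := by
  unfold BaseV_g
  refine (map_sum (gaV G') (fun p => ((Pi.single p 1 : II → P.M) ⊗ₜ[P.M] z p :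
    (II → P.M) ⊗[P.M] G'.E)) Finset.univ).trans ?_
  funext q
  refine (Finset.sum_apply q _ _).trans ?_
  refine (Finset.sum_eq_single q ?_ ?_).trans ?_
  · intro p _ hp
    refine (gaV_tmul (G' := G') (Pi.single p 1 : II → P.M) (z p) q).trans ?_
    rw [Pi.single_eq_of_ne hp.symm, zero_smul]
  · intro h
    exact absurd (Finset.mem_univ q) h
  · refine (gaV_tmul (G' := G') (Pi.single q 1 : II → P.M) (z q) q).trans ?_
    rw [Pi.single_eq_same, one_smul]

private theorem BaseV_g_gaV (w : (II → P.M) ⊗[P.M] G'.E) : BaseV_g G' (gaV G' w) = w := by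
  induction w using TensorProduct.induction_on with
  | zero =>
    have h : gaV G' (0 : (II → P.M) ⊗[P.M] G'.E) = 0 := map_zero (gaV G')
    rw [h]
    unfold BaseV_g
    exact Finset.sum_eq_zero fun p _ => TensorProduct.tmul_zero _ _
  | add a b ha hb =>
    have h : gaV G' (a + b : (II → P.M) ⊗[P.M] G'.E) = gaV G' a + gaV G' b := map_add (gaV G') a b
    rw [h, BaseV_g_add, ha, hb]
  | tmul x y =>
    unfold BaseV_g
    have h1 : ∀ p, ((Pi.single p 1 : II → P.M) ⊗ₜ[P.M]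
        (gaV G' (x ⊗ₜ[P.M] y : (II → P.M) ⊗[P.M] G'.E) p) : (II → P.M) ⊗[P.M] G'.E) =
        (Pi.single p (x p) : II → P.M) ⊗ₜ[P.M] y := by
      intro p
      rw [gaV_tmul, ← TensorProduct.smul_tmul]
      congr 1
      rw [← Pi.single_smul, smul_eq_mul, mul_one]
    rw [Finset.sum_congr rfl fun p _ => h1 p, ← TensorProduct.sum_tmul]
    congr 1
    exact Finset.univ_sum_single x

/-- PROOF. Inverse: `z ↦ ∑ p, Pi.single p 1 ⊗ z p`. -/
theorem gaV_bij : Function.Bijective (gaV G') := by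
  refine ⟨fun a b h => ?_, fun z => ⟨BaseV_g G' z, BaseV_gaV_g z⟩⟩
  have h1 : BaseV_g G' (gaV G' a) = BaseV_g G' (gaV G' b) := by rw [h]
  exact ((BaseV_g_gaV a).symm.trans h1).trans (BaseV_g_gaV b)

/-- PROOF. `mem_qlat` (span over `k` of the `x ⊗ y`), `OB_smul` with `(p.d1, p.d2)` and `(0, 0)`. -/
theorem gaV_mem {c : Ch k} {z : ((P.pw II).ten G'.toMSp).E} (hz : z ∈ (QL (N0 P) N').N c) :
    gaV G' z ∈ (ZL N').N c := by
  have h1 := mem_qlat.1 hz
  clear hz
  induction h1 using Submodule.span_induction with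
  | mem z hz =>
    obtain ⟨x, hx, y, hy, rfl⟩ := hz
    intro p
    have h2 : x p ∈ (P.OB.bt p.d1 p.d2).N c := hx p
    have h3 := P.OB_smul N' h2 ((BLat.bt_zero N' c y).2 hy)
    rw [add_zero, add_zero] at h3
    exact h3
  | zero =>
    rw [map_zero]
    exact Submodule.zero_mem _
  | add a b _ _ ha hb =>
    rw [map_add]
    exact Submodule.add_mem _ ha hb
  | smul s a _ ha =>
    rw [LinearMap.map_smul_of_tower]
    exact Submodule.smul_of_tower_mem ((ZL N').N c) s ha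

/-- PROOF. For `y ∈ ZL`: `z = ∑ p, Pi.single p 1 ⊗ y p` is in `QL` by `QL_pair`: `Pi.single p 1` is in
`(N0.bt (-p.d1) (-p.d2)).N c` (`mem_fr_bt`, `one_mem_OB`). -/
theorem gaV_surj {c : Ch k} {y : II → G'.E} (hy : y ∈ (ZL N').N c) :
    ∃ z ∈ (QL (N0 P) N').N c, gaV G' z = y := by
  have h1 : (fun p => (Pi.single p 1 : II → P.M)) ∈ (XL (N0 P)).N c := by
    intro q
    refine (P.mem_fr_bt).2 fun j => ?_
    change (Pi.single q 1 : II → P.M) j ∈ (P.OB.bt (j.d1 + -q.d1) (j.d2 + -q.d2)).N c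
    by_cases hj : j = q
    · subst hj
      rw [Pi.single_eq_same, add_neg_cancel, add_neg_cancel]
      exact P.one_mem_OB c
    · rw [Pi.single_eq_of_ne hj]
      exact Submodule.zero_mem _
  exact ⟨_, QL_pair h1 hy, BaseV_gaV_g y⟩

/-- `gaV` as a `K`-linear map -/
def gaK (G' : MG P B' C) : ((P.pw II).ten G'.toMSp).E →ₗ[KK k] (II → G'.E) where
  toFun := gaV G'
  map_add' := map_add (gaV G')
  map_smul' := LinearMap.map_smul_of_tower (gaV G')

/-- `Q(N0, N') → Z(N')` as a morphism of sheaves -/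
def gaH (N' : BLat G'.toMSp) : ShH (QL (N0 P) N').sh (ZL N').sh :=
  latH (QL (N0 P) N').toLat (ZL N') (gaK G') (fun c x hx => gaV_mem hx)

/-- `Q(N0, N') → Z(N')` on a chart -/
def gaF (N' : BLat G'.toMSp) (c : Ch k) : (QL (N0 P) N').N c →ₗ[k] (ZL N').N c := (gaH N').f c

theorem gaF_coe (N' : BLat G'.toMSp) (c : Ch k) (x : (QL (N0 P) N').N c) :
    (gaF N' c x).1 = gaV G' x.1 := rfl

/-- PROOF. `gaV_bij`, `gaV_surj`. -/
theorem gaF_bij (c : Ch k) : Function.Bijective (gaF N' c) := by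
  refine ⟨fun a b h => ?_, fun y => ?_⟩
  · refine Subtype.ext (gaV_bij.1 ?_)
    exact (gaF_coe N' c a).symm.trans ((congrArg Subtype.val h).trans (gaF_coe N' c b))
  · obtain ⟨z, hz, h⟩ := gaV_surj y.2
    exact ⟨⟨z, hz⟩, Subtype.ext h⟩

/-- PROOF. `(∑ q, x q ⊗ y q) ↦ (p ↦ ∑ q, x q p • y q)`, which is `l (α x) y` (`MG.gz`). -/
theorem gaF_pair (h' : StR G' N') (c : Ch k) (x : (Xo (N0 P)).M c) (y : (Zs h').M c) :
    gaF N' c ((xzo (N0 P) h').m c x y) = (Zs h').l c (alF P c x) y := by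
  refine Subtype.ext ?_
  refine (gaF_coe N' c _).trans ?_
  have h1 : ((xzo (N0 P) h').m c x y).1 =
      ∑ p, (x.1 p ⊗ₜ[P.M] y.1 p : (II → P.M) ⊗[P.M] G'.E) := rfl
  rw [h1]
  refine (map_sum (gaV G') (fun p => (x.1 p ⊗ₜ[P.M] y.1 p : (II → P.M) ⊗[P.M] G'.E))
    Finset.univ).trans ?_
  funext q
  exact Finset.sum_apply q _ _

end Pool.Agent.MP_6e5bed_ag_PS
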