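import Pool.Agent.Lib.MP_6e5bed_ag_NS.WA
import Pool.Agent.Lib.MP_6e5bed_ag_NC.FTb

set_option autoImplicit false
set_option linter.unusedVariables false

/-!
# MP_6e5bed_ag, NC PRODUCT SURFACES: tensor products with free modules of rank one, change of the
left action
-/

noncomputable section

namespace Pool.Agent.MP_6e5bed_ag_PS

open Pool.Agent.MP_6e5bed_ag_NC
open Pool.Agent.MP_6e5bed_ag_NS

universe u

variable {k : Type u} [Field k] {A A' W C : DGA k}

private theorem TbOne_s {V V' : Type u} [AddCommGroup V] [Module k V] [AddCommGroup V']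
    [Module k V'] {D : Dg k V} {D' : Dg k V'} (f : V →ₗ[k] V')
    (hdeg : ∀ {i : ℤ} {x : V}, D.IsDeg i x → D'.IsDeg i (f x)) (x : V) :
    D'.s (f x) = f (D.s x) :=
  Dg.s_degMap_even (n := 0) Even.zero f (fun h => by rw [add_zero]; exact hdeg h) x

private theorem TbOne_left {X : Bim A W} {X' : Bim A' W} (f : X.M →ₗ[k] X'.M)
    (hdeg : ∀ {i : ℤ} {x : X.M}, X.dg.IsDeg i x → X'.dg.IsDeg i (f x))
    (hd : ∀ x, X'.dg.d (f x) = f (X.dg.d x))
    (hr : ∀ w x, f (X.r w x) = X'.r w (f x)) (Z : Bim W C) :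
    ∃ θ : (tb X Z).M →ₗ[k] (tb X' Z).M,
      (∀ {i : ℤ} {x : (tb X Z).M}, (tb X Z).dg.IsDeg i x → (tb X' Z).dg.IsDeg i (θ x)) ∧
      (∀ x, (tb X' Z).dg.d (θ x) = θ ((tb X Z).dg.d x)) ∧
      ∀ x z, θ (tm x z) = tm (f x) z := by
  have hb : ∀ (m : X.M) (b : W.A) (z : Z.M), (tmB X' Z).comp f (X.r b m) z =
      (tmB X' Z).comp f m (Z.l b z) := by
    intro m b z
    rw [LinearMap.comp_apply, LinearMap.comp_apply, hr, tmB_apply, tmB_apply, tm_r_l]
  have ht : ∀ x z, tlift ((tmB X' Z).comp f) hb (tm x z) = tm (f x) z := by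
    intro x z
    rw [tlift_tm, LinearMap.comp_apply, tmB_apply]
  refine ⟨tlift ((tmB X' Z).comp f) hb, ?_, ?_, ht⟩
  · intro i x hx
    have h1 := tb_degMap (Z := (tb X' Z).dg) (n := 0) (tlift ((tmB X' Z).comp f) hb)
      (fun {i j v w} hv hw => by
        rw [ht, add_zero]
        exact tb_deg (hdeg hv) hw) hx
    rwa [add_zero] at h1
  · refine tb_ind ?_ ?_ ?_
    · rw [map_zero, map_zero, map_zero, map_zero]
    · intro x y hx hy
      rw [map_add, map_add, hx, hy, map_add, map_add]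
    · intro x z
      rw [ht, tb_d, tb_d, map_add, ht, ht, hd, TbOne_s f hdeg]

/-- the inverse of a bijective map of complexes preserves degrees -/
private theorem TbOne_inv {V V' : Type u} [AddCommGroup V] [Module k V] [AddCommGroup V']
    [Module k V'] {D : Dg k V} {D' : Dg k V'} (f : V →ₗ[k] V')
    (hdeg : ∀ {i : ℤ} {x : V}, D.IsDeg i x → D'.IsDeg i (f x)) (hf : Function.Injective f)
    {i : ℤ} {x : V} (hx : D'.IsDeg i (f x)) : D.IsDeg i x := by
  have h1 := (Dg.degMap_iff (X := D) (Y := D') (n := 0) f).1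
    (fun j v hv => by rw [add_zero]; exact hdeg hv) x
  have h2 : D'.ρ (f x) = Finsupp.single i (f x) := hx
  unfold Dg.IsDeg
  ext j
  refine hf ?_
  rw [← h1 j, h2, add_zero, Finsupp.single_apply, Finsupp.single_apply]
  split_ifs
  · rfl
  · rw [map_zero]

private theorem TbOne_one {X : Bim A W} (f : X.M →ₗ[k] W.A)
    (hdeg : ∀ {i : ℤ} {x : X.M}, X.dg.IsDeg i x → W.dg.IsDeg i (f x))
    (hd : ∀ x, W.dg.d (f x) = f (X.dg.d x))
    (hr : ∀ w x, f (X.r w x) = W.mul (f x) w) (hf : Function.Injective f) (x1 : X.M)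
    (h1 : f x1 = W.one) (Z : Bim W C) :
    ∃ a : (tb X Z).M →ₗ[k] Z.M,
      (∀ {i : ℤ} {x : (tb X Z).M}, (tb X Z).dg.IsDeg i x → Z.dg.IsDeg i (a x)) ∧
      (∀ x, Z.dg.d (a x) = a ((tb X Z).dg.d x)) ∧ Function.Bijective a ∧
      ∀ x z, a (tm x z) = Z.l (f x) z := by
  have hb : ∀ (m : X.M) (b : W.A) (z : Z.M), Z.l.comp f (X.r b m) z =
      Z.l.comp f m (Z.l b z) := by
    intro m b z
    rw [LinearMap.comp_apply, LinearMap.comp_apply, hr, Z.l_mul]
  have ht : ∀ x z, tlift (Z.l.comp f) hb (tm x z) = Z.l (f x) z := by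
    intro x z
    rw [tlift_tm, LinearMap.comp_apply]
  have hone : ∀ z, tlift (Z.l.comp f) hb (tm x1 z) = z := by
    intro z
    rw [ht, h1, Z.l_one]
  have hinv : ∀ y : (tb X Z).M, tm x1 (tlift (Z.l.comp f) hb y) = y := by
    refine tb_ind ?_ ?_ ?_
    · rw [map_zero, tm_zero_right]
    · intro x y hx hy
      rw [map_add, tm_add_right, hx, hy]
    · intro x z
      have h2 : X.r (f x) x1 = x := hf (by rw [hr, h1, W.one_mul])
      rw [ht, ← tm_r_l, h2]
  refine ⟨tlift (Z.l.comp f) hb, ?_, ?_, ⟨?_, fun z => ⟨tm x1 z, hone z⟩⟩, ht⟩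
  · intro i x hx
    have h2 := tb_degMap (Z := Z.dg) (n := 0) (tlift (Z.l.comp f) hb)
      (fun {i j v w} hv hw => by
        rw [ht, add_zero]
        exact Z.l_deg (hdeg hv) hw) hx
    rwa [add_zero] at h2
  · refine tb_ind ?_ ?_ ?_
    · rw [map_zero, map_zero, map_zero, map_zero]
    · intro x y hx hy
      rw [map_add, map_add, hx, hy, map_add, map_add]
    · intro x z
      rw [ht, Z.d_l, tb_d, map_add, ht, ht, hd, TbOne_s f hdeg]
  · intro y y' hy
    rw [← hinv y, hy, hinv]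

/-- The tensor product does not depend on the left action.

PROOF. `tlift` of the bilinear map `(x, z) ↦ tm (α x) z` (balanced by `hr` and `tm_r_l`), `tlift_tm`;
degrees: `tb_degMap`, `tb_deg`; differential: `tb_ind`, `tb_d`, and `α` commutes with `dg.s`
(it preserves degrees: `Dg.s_degMap_even` or the lemma used for `GMap`s in
`Lib/MP_6e5bed_ag_NC/GMap.lean`; e.g. prove the identity on homogeneous elements). -/
theorem tb_left {X : Bim A W} {X' : Bim A' W} (α : CHom (bcx X) (bcx X'))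
    (hr : ∀ w x, α.f (X.r w x) = X'.r w (α.f x)) (Z : Bim W C) :
    ∃ θ : CHom (bcx (tb X Z)) (bcx (tb X' Z)), ∀ x z, θ.f (tm x z) = tm (α.f x) z := by
  obtain ⟨θ, h1, h2, h3⟩ := TbOne_left (X := X) (X' := X') α.f (fun h => α.deg h) α.d hr Z
  exact ⟨⟨θ, h1, h2⟩, h3⟩

/-- PROOF. `tb_left` for `α` and for its inverse (a bijective `CHom` has an inverse `CHom`: degrees by
`Dg` homogeneous components: if `α x` is homogeneous of degree `i` then so is `x`, because
`α (ρ x j) = ρ (α x) j`); the compositions are the identity by `tb_ind`. -/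
theorem tb_left_bij {X : Bim A W} {X' : Bim A' W} (α : CHom (bcx X) (bcx X'))
    (hr : ∀ w x, α.f (X.r w x) = X'.r w (α.f x)) (hα : Function.Bijective α.f) (Z : Bim W C) :
    ∃ θ : CHom (bcx (tb X Z)) (bcx (tb X' Z)), Function.Bijective θ.f ∧
      ∀ x z, θ.f (tm x z) = tm (α.f x) z := by
  obtain ⟨θ, h1, h2, h3⟩ := TbOne_left (X := X) (X' := X') α.f (fun h => α.deg h) α.d hr Z
  obtain ⟨f, hf⟩ : ∃ f : X.M →ₗ[k] X'.M, f = α.f := ⟨_, rfl⟩
  have hfb : Function.Bijective f := by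
    rw [hf]
    exact hα
  have hfd : ∀ x, X'.dg.d (f x) = f (X.dg.d x) := by
    rw [hf]
    exact α.d
  have hfr : ∀ w x, f (X.r w x) = X'.r w (f x) := by
    rw [hf]
    exact hr
  have hfdeg : ∀ {i : ℤ} {x : X.M}, X.dg.IsDeg i x → X'.dg.IsDeg i (f x) := by
    rw [hf]
    exact fun h => α.deg h
  obtain ⟨g, hg⟩ : ∃ g : X'.M →ₗ[k] X.M, ∀ y, f (g y) = y :=
    ⟨(LinearEquiv.ofBijective f hfb).symm.toLinearMap,
      fun y => (LinearEquiv.ofBijective f hfb).apply_symm_apply y⟩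
  have hg' : ∀ x, g (f x) = x := fun x => hfb.1 (hg _)
  obtain ⟨θ', -, -, h3'⟩ := TbOne_left (X := X') (X' := X) g
    (fun {i x} h => TbOne_inv f hfdeg hfb.1 (by rw [hg]; exact h))
    (fun x => hfb.1 (by rw [← hfd, hg, hg]))
    (fun w x => hfb.1 (by rw [hfr, hg, hg])) Z
  refine ⟨⟨θ, h1, h2⟩, ?_, h3⟩
  change Function.Bijective θ
  have h4 : ∀ x z, θ (tm x z) = tm (f x) z := by
    rw [hf]
    exact h3
  refine Function.bijective_iff_has_inverse.2 ⟨θ', ?_, ?_⟩
  · refine tb_ind ?_ ?_ ?_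
    · rw [map_zero, map_zero]
    · intro x y hx hy
      rw [map_add, map_add, hx, hy]
    · intro x z
      rw [h4, h3', hg']
  · refine tb_ind ?_ ?_ ?_
    · rw [map_zero, map_zero]
    · intro x y hx hy
      rw [map_add, map_add, hx, hy]
    · intro x z
      rw [h3', h4, hg]

/-- A right module which is free of rank one.

PROOF. `a = tlift` of `(x, z) ↦ Z.l (α x) z`, balanced: `Z.l (α (x w)) z = Z.l (α x * w) z =
Z.l (α x) (Z.l w z)`. Inverse: `z ↦ tm x1 z`: `a (tm x1 z) = Z.l 1 z = z`, and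
`tm x1 (Z.l (α x) z) = tm (X.r (α x) x1) z = tm x z` because `α (X.r (α x) x1) = 1 * α x` and `α` is
injective. Degrees: `tb_degMap`, `Z.l_deg`; differential: `tb_ind`, `tb_d`, `Z.d_l`, and
`W.dg.s (α x) = α (X.dg.s x)`. -/
theorem tb_one {X : Bim A W} (α : CHom (bcx X) (acx W))
    (hr : ∀ w x, α.f (X.r w x) = W.mul (α.f x) w) (hα : Function.Injective α.f) (x1 : X.M)
    (h1 : α.f x1 = W.one) (Z : Bim W C) :
    ∃ a : CHom (bcx (tb X Z)) (bcx Z), Function.Bijective a.f ∧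
      ∀ x z, a.f (tm x z) = Z.l (α.f x) z := by
  obtain ⟨a, h2, h3, h4, h5⟩ := TbOne_one (X := X) α.f (fun h => α.deg h) α.d hr hα x1 h1 Z
  exact ⟨⟨a, h2, h3⟩, h4, h5⟩

end Pool.Agent.MP_6e5bed_ag_PS
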