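import Pool.Agent.Lib.MP_6e5bed_ag_PS.PhiB
import Pool.Agent.Lib.MP_6e5bed_ag_PS.BaseV
import Pool.Agent.Lib.MP_6e5bed_ag_PS.TbOne

set_option autoImplicit false
set_option linter.unusedVariables false

/-!
# MP_6e5bed_ag, NC PRODUCT SURFACES: the comparison map for the generator `⊕ O(p)`
-/

noncomputable section

namespace Pool.Agent.MP_6e5bed_ag_PS

open Pool.Agent.MP_6e5bed_ag_NC
open Pool.Agent.MP_6e5bed_ag_NS
open scoped TensorProduct

universe u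

private theorem BaseQ_sq {k : Type u} [Field k] {A B W D : DGA k} {X : Bim A W} {Z : Bim W D}
    {Q : Bim A D} {Y : Bim B D} (F : GMap 0 (tb X Z) Q) (g : CHom (bcx Q) (bcx Y))
    (a : CHom (bcx (tb X Z)) (bcx Z)) (h : CHom (bcx Z) (bcx Y))
    (h1 : ∀ x z, g.f (F.f (tm x z)) = h.f (a.f (tm x z))) (w : (tb X Z).M) :
    g.f (F.f w) = h.f (a.f w) := by
  obtain ⟨g', hg⟩ : ∃ g' : Q.M →ₗ[k] Y.M, g' = g.f := ⟨_, rfl⟩
  obtain ⟨a', ha⟩ : ∃ a' : (tb X Z).M →ₗ[k] Z.M, a' = a.f := ⟨_, rfl⟩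
  obtain ⟨h', hh⟩ : ∃ h' : Z.M →ₗ[k] Y.M, h' = h.f := ⟨_, rfl⟩
  have h2 : ∀ x z, g' (F.f (tm x z)) = h' (a' (tm x z)) := by
    rw [hg, ha, hh]
    exact h1
  have h3 : g' (F.f w) = h' (a' w) := by
    refine tb_ind (P := fun w => g' (F.f w) = h' (a' w)) ?_ ?_ ?_ w
    · simp only [map_zero]
    · intro x y hx hy
      rw [map_add, map_add, map_add, map_add, hx, hy]
    · exact h2
  rw [hg, ha, hh] at h3
  exact h3

private theorem BaseQ_qi {k : Type u} [Field k] {A B W D : DGA k} {X : Bim A W} {Z : Bim W D}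
    {Q : Bim A D} {Y : Bim B D} (F : GMap 0 (tb X Z) Q) (hF : F.dd = 0)
    (g : CHom (bcx Q) (bcx Y)) (hg : Function.Bijective g.f)
    (a : CHom (bcx (tb X Z)) (bcx Z)) (ha : Function.Bijective a.f)
    (h : CHom (bcx Z) (bcx Y)) (hh : h.QI)
    (h1 : ∀ x z, g.f (F.f (tm x z)) = h.f (a.f (tm x z))) : (gc F hF).QI :=
  CHom.QI.of_right (f := gc F hF) (g := g) (h := a.comp h)
    (fun w => BaseQ_sq F g a h h1 w) (CHom.QI.of_bij hg) ((CHom.QI.of_bij ha).comp hh)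

variable {k : Type u} [Field k] {P : PD k} {B' C : ASh k} {G' : MG P B' C} {N' : BLat G'.toMSp}

/-- the morphism of presheaves of complexes -/
def gaP (h' : StR G' N') : PCH (Qo (N0 P) h').toShf.pc (Zs h').toShf.pc := (gaH N').pch

/-- `Q(N0, N') → Z(N')` -/
def ga (h' : StR G' N') : CHom (bcx (BB (Qo (N0 P) h'))) (bcx (BB (Zs h'))) :=
  (cH (gaP h') (FF k)).g (FS.e k)

/-- PROOF. `cH_inj`, `cH_surj`. -/
theorem ga_bij (h' : StR G' N') : Function.Bijective (ga h').f :=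
  ⟨cH_inj (gaP h') (fun c => (gaF_bij c).1) (FF k) (FS.e k),
    cH_surj (gaP h') (fun c => (gaF_bij c).2) (FF k) (FS.e k)⟩

/-- PROOF. `ShPr.cup_tm`, `cH_mul` for `(xzo _ _).pp` and `(Zs h').pb.pl` with `alP`, `PCH.id`, `gaP`
(`gaF_pair`); `cH_id`. -/
theorem ga_cup (h' : StR G' N') (x : (BB (Xo (N0 P))).M) (y : (BB (Zs h')).M) :
    (ga h').f ((xzo (N0 P) h').cup.f (tm x y)) = (BB (Zs h')).l ((al P).f x) y := by
  refine (congrArg (ga h').f (ShPr.cup_tm (xzo (N0 P) h') x y)).trans ?_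
  refine (cH_mul (p := (xzo (N0 P) h').pp) (q := (Zs h').pb.pl) (alP P) (PCH.id _) (gaP h')
    (fun c x y => gaF_pair h' c x y) (FF k) (FS.e k) x y).trans ?_
  exact congrArg (((cP (Zs h').pb.pl (FF k)).q (FS.e k)).m _) (cH_id _ (FF k) (FS.e k) y)

/-- The comparison map of the generator.

PROOF. Let `a` be the map of `tb_one` for `al P` (`al_r`, `al_bij`; `x1` with `al x1 = 1`) and `Zt`.
By `tb_ind` `(ga h').f ((phiC h' hζ N0).f w) = ζ.f (a.f w)`: on `tm x z` it is `phi_tm`, `ga_cup` and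
`ζ.map_l` (`Dg.sp_zero`). `a` and `ga h'` are bijective (`CHom.QI.of_bij`) and `ζ` is a
quasi-isomorphism (`gc_qi`); `CHom.QI.comp`, `CHom.QI.of_right`. -/
theorem base_phi (h' : StR G' N') {Zt : Bim (TT (W0sh P)) (TT C)} {ζ : GMap 0 Zt (BB (Zs h'))}
    (hζ : ζ.dd = 0) (hq : QIso ζ) : (phiC h' hζ (N0 P)).QI := by
  obtain ⟨x1, hx1⟩ := (al_bij P).2 (TT (W0sh P)).one
  obtain ⟨a, ha, hat⟩ := tb_one (al P) (al_r P) (al_bij P).1 x1 hx1 Zt
  refine BaseQ_qi (phi h' ζ (N0 P)) (phi_dd h' hζ (N0 P)) (ga h') (ga_bij h') a ha (gc ζ hζ)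
    ((gc_qi ζ hζ).2 hq) (fun x z => ?_)
  refine (congrArg (ga h').f (phi_tm h' ζ (N0 P) x z)).trans ?_
  refine (ga_cup h' x (ζ.f z)).trans ?_
  refine Eq.trans ?_ (congrArg ζ.f (hat x z)).symm
  refine Eq.trans ?_ (ζ.map_l ((al P).f x) z).symm
  exact congrArg (fun w => (BB (Zs h')).l w (ζ.f z)) (Dg.sp_zero ((al P).f x)).symm

end Pool.Agent.MP_6e5bed_ag_PS
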