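import Pool.Agent.Lib.MP_6e5bed_ag_PS.Frj
import Pool.Agent.Lib.MP_6e5bed_ag_NS.Ex

set_option autoImplicit false
set_option linter.unusedVariables false

/-!
# MP_6e5bed_ag, NC PRODUCT SURFACES: the comparison map for the generator `⊕ O(p)`
-/

noncomputable section

namespace Pool.Agent.MP_6e5bed_ag_PS

open Pool.Agent.MP_6e5bed_ag_NC
open Pool.Agent.MP_6e5bed_ag_NS
open scoped TensorProduct

universe u

variable {k : Type u} [Field k]

/-- The generator `⊕ O(p)`. -/
def N0 (P : PD k) : BLat (P.pw II) := P.fr II.d1 II.d2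

variable (P : PD k)

/-- PROOF. `mem_fr_bt`, `sub_eq_add_neg`. -/
theorem mem_XN0 {c : Ch k} {x : II → (P.pw II).E} :
    x ∈ (XL (N0 P)).N c ↔ (fun p q => (show II → P.M from x q) p) ∈ (WL P).N c := by
  constructor
  · intro h p q
    have h1 := (P.mem_fr_bt (d := II.d1) (e := II.d2) (i := -q.d1) (i' := -q.d2) (c := c)
      (x := x q)).1 (h q) p
    rw [← sub_eq_add_neg, ← sub_eq_add_neg] at h1
    exact h1
  · intro h q
    refine (P.mem_fr_bt (d := II.d1) (e := II.d2) (i := -q.d1) (i' := -q.d2) (c := c)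
      (x := x q)).2 fun p => ?_
    rw [← sub_eq_add_neg, ← sub_eq_add_neg]
    exact h p q

/-- `X(N0) → W` on a chart -/
def alF (c : Ch k) : (XL (N0 P)).N c →ₗ[k] (WL P).N c where
  toFun := fun x => ⟨fun p q => (show II → P.M from x.1 q) p, (mem_XN0 P).1 x.2⟩
  map_add' := fun x y => rfl
  map_smul' := fun s x => rfl

theorem alF_bij (c : Ch k) : Function.Bijective (alF P c) := by
  constructor
  · intro x y hxy
    refine Subtype.ext ?_
    funext q
    have h1 : ∀ p : II, (show II → P.M from x.1 q) p = (show II → P.M from y.1 q) p := fun p =>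
      congrFun (congrFun (congrArg Subtype.val hxy) p) q
    exact funext h1
  · intro w
    refine ⟨⟨fun q => (show (P.pw II).E from fun p => w.1 p q), (mem_XN0 P).2 ?_⟩, ?_⟩
    · exact w.2
    · rfl

/-- PROOF. `((x w) q) r = ∑ p, w p q * x p r` (`MG.gx`), `(α x * w) r q = ∑ p, x p r * w p q`. -/
theorem alF_r (c : Ch k) (w : (W0sh P).M c) (x : (Xo (N0 P)).M c) :
    alF P c ((Xo (N0 P)).r c w x) = (W0sh P).mul c (alF P c x) w := by
  refine Subtype.ext ?_
  funext r q
  change (show II → P.M from ∑ p, w.1 p q • x.1 p) r =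
    ∑ p, (show II → P.M from x.1 p) r * w.1 p q
  have h1 : (show II → P.M from ∑ p, w.1 p q • x.1 p) r =
      ∑ p, w.1 p q * (show II → P.M from x.1 p) r :=
    Finset.sum_apply (M := fun _ : II => P.M) r Finset.univ
      (fun p : II => (w.1 p q • (show II → P.M from x.1 p) : II → P.M))
  rw [h1]
  exact Finset.sum_congr rfl fun p _ => mul_comm _ _

/-- the morphism of presheaves of complexes -/
def alP : PCH (Xo (N0 P)).toShf.pc (W0sh P).pa.pc where
  f := fun c => concH (alF P c)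
  nat := fun h x => rfl

/-- `X(N0) → W` -/
def al : CHom (bcx (BB (Xo (N0 P)))) (acx (TT (W0sh P))) := (cH (alP P) (FF k)).g (FS.e k)

/-- PROOF. `cH_mul` for `(Xo (N0 P)).pb.pr` and `(W0sh P).pa.pp`, with `f' = PCH.id`; `cH_id`. -/
theorem al_r (w : (TT (W0sh P)).A) (x : (BB (Xo (N0 P))).M) :
    (al P).f ((BB (Xo (N0 P))).r w x) = (TT (W0sh P)).mul ((al P).f x) w := by
  have h1 := cH_mul (p := (Xo (N0 P)).pb.pr) (q := (W0sh P).pa.pp) (alP P) (PCH.id _) (alP P)
    (fun c x w => alF_r P c w x) (FF k) (FS.e k) x w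
  have h2 : ((cH (PCH.id (W0sh P).pa.pc) (FF k)).g (FS.e k)).f w = w :=
    cH_id _ (FF k) (FS.e k) w
  exact h1.trans (congrArg (fun z => (TT (W0sh P)).mul ((al P).f x) z) h2)

/-- PROOF. `cH_inj`, `cH_surj`. -/
theorem al_bij : Function.Bijective (al P).f := by
  exact ⟨cH_inj (alP P) (fun c => (alF_bij P c).1) (FF k) (FS.e k),
    cH_surj (alP P) (fun c => (alF_bij P c).2) (FF k) (FS.e k)⟩

end Pool.Agent.MP_6e5bed_ag_PS
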