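import Pool.Agent.Lib.MP_6e5bed_ag_NS.Sh
import Pool.Agent.Lib.MP_6e5bed_ag_NC.FTb

set_option autoImplicit false
set_option linter.unusedVariables false

/-!
# MP_6e5bed_ag, NC PRODUCT SURFACES: the cup product of a balanced pairing of sheaves of bimodules
-/

noncomputable section

namespace Pool.Agent.MP_6e5bed_ag_PS

open Pool.Agent.MP_6e5bed_ag_NC
open Pool.Agent.MP_6e5bed_ag_NS

universe u

variable {k : Type u} [Field k] {A W C : ASh k} {M : BSh A W} {N : BSh W C} {Q : BSh A C}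

/-- balanced pairings of sheaves of bimodules -/
structure ShPr (M : BSh A W) (N : BSh W C) (Q : BSh A C) where
  m : ∀ c, M.M c →ₗ[k] N.M c →ₗ[k] Q.M c
  bal : ∀ c w x y, m c (M.r c w x) y = m c x (N.l c w y)
  l : ∀ c a x y, m c (M.l c a x) y = Q.l c a (m c x y)
  r : ∀ c b x y, m c x (N.r c b y) = Q.r c b (m c x y)
  nat : ∀ {c d : Ch k} (h : c ≤ d) x y, Q.res h (m c x y) = m d (M.res h x) (N.res h y)

/-- the pairing of the presheaves of complexes -/
def ShPr.pp (p : ShPr M N Q) : PP M.toShf.pc N.toShf.pc Q.toShf.pc where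
  p := fun c =>
    { m := p.m c
      deg := Dg.conc_bil (p.m c)
      d := fun x y => by
        change (0 : Q.M c) = p.m c 0 y + p.m c _ 0
        rw [map_zero, map_zero, LinearMap.zero_apply, add_zero] }
  nat := p.nat

/-- the map of the tensor product given by a balanced pairing -/
private theorem CupM_mapA {A W C : DGA k} {X : Bim A W} {Y : Bim W C} {Z : Bim A C}
    (β : X.M →ₗ[k] Y.M →ₗ[k] Z.M) (hb : ∀ m b n, β (X.r b m) n = β m (Y.l b n))
    (hl : ∀ a x y, β (X.l a x) y = Z.l a (β x y))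
    (hr : ∀ b x y, β x (Y.r b y) = Z.r b (β x y))
    (hdeg : ∀ {i j : ℤ} {x : X.M} {y : Y.M}, X.dg.IsDeg i x → Y.dg.IsDeg j y →
      Z.dg.IsDeg (i + j) (β x y))
    (hd : ∀ x y, Z.dg.d (β x y) = β (X.dg.d x) y + β (X.dg.s x) (Y.dg.d y)) :
    ∃ g : GMap 0 (tb X Y) Z, g.dd = 0 ∧ ∀ m n, g.f (tm m n) = β m n := by
  obtain ⟨g, hg⟩ : ∃ g : GMap 0 (tb X Y) Z, ∀ m n, g.f (tm m n) = β m n := by
    refine ⟨⟨tlift β hb, ?_, ?_, ?_⟩, fun m n => tlift_tm _ hb m n⟩
    · intro i x hx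
      refine tb_degMap _ (fun {i j v w} hv hw => ?_) hx
      rw [add_zero, tlift_tm]
      exact hdeg hv hw
    · intro a x
      refine tb_ind (P := fun x => tlift β hb ((tb X Y).l a x) =
        Z.l (A.dg.sp 0 a) (tlift β hb x)) ?_ ?_ ?_ x
      · simp only [map_zero]
      · intro x y hx hy
        rw [map_add, map_add, map_add, map_add, hx, hy]
      · intro m n
        rw [tb_l, tlift_tm, tlift_tm, Dg.sp_zero]
        exact hl a m n
    · intro b x
      refine tb_ind (P := fun x => tlift β hb ((tb X Y).r b x) = Z.r b (tlift β hb x))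
        ?_ ?_ ?_ x
      · simp only [map_zero]
      · intro x y hx hy
        rw [map_add, map_add, map_add, map_add, hx, hy]
      · intro m n
        rw [tb_r, tlift_tm, tlift_tm]
        exact hr b m n
  refine ⟨g, ?_, hg⟩
  refine tb_hom_ext (fun m n => ?_)
  rw [GMap.dd_apply, sg_zero, one_smul, tb_d, map_add, LinearMap.zero_apply, sub_eq_zero, hg,
    hg, hg, hd]

private theorem CupM_map {A W C : PA k} (M : PB A W) (N : PB W C) (Q : PB A C)
    (p : PP M.pc N.pc Q.pc)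
    (hb : ∀ c x w y, (p.p c).m ((M.M c).r w x) y = (p.p c).m x ((N.M c).l w y))
    (hl : ∀ c a x y, (p.p c).m ((M.M c).l a x) y = (Q.M c).l a ((p.p c).m x y))
    (hr : ∀ c x y b, (p.p c).m x ((N.M c).r b y) = (Q.M c).r b ((p.p c).m x y))
    (L : List (LF k)) (c : FS k) :
    ∃ g : GMap 0 (tb (cB M L c) (cB N L c)) (cB Q L c), g.dd = 0 ∧
      ∀ (x : (cB M L c).M) (y : (cB N L c).M), g.f (tm x y) = ((cP p L).q c).m x y :=
  CupM_mapA (X := cB M L c) (Y := cB N L c) (Z := cB Q L c) ((cP p L).q c).m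
    (fun x w y => cP_assoc M.pr p N.pl p (fun c x w y => hb c x w y) L c x w y)
    (fun a x y => cP_assoc M.pl p p Q.pl (fun c a x y => hl c a x y) L c a x y)
    (fun b x y => (cP_assoc p Q.pr N.pr p (fun c x y b => (hr c x y b).symm) L c x y b).symm)
    (fun hx hy => ((cP p L).q c).deg hx hy)
    (fun x y => ((cP p L).q c).d x y)

private theorem CupM_nat {A W C : DGA k} {X X' : Bim A W} {Y : Bim W C} {Z Z' : Bim A C}
    (F : GMap 0 (tb X Y) Z) (F' : GMap 0 (tb X' Y) Z') (φ : GMap 0 X X') (ψ : GMap 0 Z Z')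
    (h : ∀ x y, ψ.f (F.f (tm x y)) = F'.f (tm (φ.f x) y)) (z : (tb X Y).M) :
    ψ.f (F.f z) = F'.f ((φ.tbR Y).f z) := by
  refine tb_ind (P := fun z => ψ.f (F.f z) = F'.f ((φ.tbR Y).f z)) ?_ ?_ ?_ z
  · simp only [map_zero]
  · intro x y hx hy
    rw [map_add, map_add, map_add, map_add, hx, hy]
  · intro x y
    rw [GMap.tbR_tm]
    exact h x y

/-- The cup product as a map of bimodules.

PROOF. As the private `cb_mapA` in `Lib/MP_6e5bed_ag_NS/CupB.lean` (there over the base field, here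
over `TT W`). The bilinear map `((cP p.pp (FF k)).q (FS.e k)).m` is balanced over
`TT W`: `cup (x w) y = cup x (w y)` is `cP_assoc` (`Lib/MP_6e5bed_ag_NS/WA.lean`) for the pairings
`M.pb.pr`, `p.pp`, `N.pb.pl`, `p.pp`, from `p.bal`; so it defines a linear map on `tb` (`tlift`,
`tlift_tm`). It is compatible with the left action (`cP_assoc` for `M.pb.pl`, `p.pp`, `p.pp`,
`Q.pb.pl`, from `p.l`) and the right action (`cP_assoc` for `p.pp`, `Q.pb.pr`, `N.pb.pr`, `p.pp`,
from `p.r`), has degree zero (`tb_degMap`) and is closed (`((cP p.pp _).q _).d`, `tb_hom_ext`).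
(`BB M = cB M.pb (FF k) (FS.e k)`, `BSh.pb_pc`.) -/
theorem ShPr.exists_map (p : ShPr M N Q) : ∃ f : GMap 0 (tb (BB M) (BB N)) (BB Q), f.dd = 0 ∧
    ∀ (x : (BB M).M) (y : (BB N).M), f.f (tm x y) = ((cP p.pp (FF k)).q (FS.e k)).m x y :=
  CupM_map M.pb N.pb Q.pb p.pp (fun c x w y => p.bal c w x y) (fun c a x y => p.l c a x y)
    (fun c x y b => p.r c b x y) (FF k) (FS.e k)

/-- the cup product -/
def ShPr.cup (p : ShPr M N Q) : GMap 0 (tb (BB M) (BB N)) (BB Q) := p.exists_map.choose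

theorem ShPr.cup_dd (p : ShPr M N Q) : p.cup.dd = 0 := p.exists_map.choose_spec.1

theorem ShPr.cup_tm (p : ShPr M N Q) (x : (BB M).M) (y : (BB N).M) :
    p.cup.f (tm x y) = ((cP p.pp (FF k)).q (FS.e k)).m x y := p.exists_map.choose_spec.2 x y

/-- Naturality in the first variable.

PROOF. `tb_ind`; on `tm x y` it is `cH_mul` (for the morphisms `φ.toShH.pch`, `PCH.id`,
`ψ.toShH.pch`) and `cH_id`. Here `φ.pbh.gmap (FF k) (FS.e k)` is the map of the Čech bimodules. -/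
theorem ShPr.cup_nat {M' : BSh A W} {Q' : BSh A C} (p : ShPr M N Q) (p' : ShPr M' N Q')
    (φ : BSH M M') (ψ : BSH Q Q') (h : ∀ c x y, ψ.f c (p.m c x y) = p'.m c (φ.f c x) y)
    (z : (tb (BB M) (BB N)).M) :
    (ψ.pbh.gmap (FF k) (FS.e k)).f (p.cup.f z) =
      p'.cup.f (((φ.pbh.gmap (FF k) (FS.e k)).tbR (BB N)).f z) := by
  refine CupM_nat (X := BB M) (X' := BB M') (Y := BB N) (Z := BB Q) (Z' := BB Q') p.cup p'.cup
    (φ.pbh.gmap (FF k) (FS.e k)) (ψ.pbh.gmap (FF k) (FS.e k)) (fun x y => ?_) z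
  refine (congrArg (ψ.pbh.gmap (FF k) (FS.e k)).f (ShPr.cup_tm p x y)).trans ?_
  refine Eq.trans ?_ (ShPr.cup_tm p' ((φ.pbh.gmap (FF k) (FS.e k)).f x) y).symm
  refine (cH_mul (p := p.pp) (q := p'.pp) φ.pbh.pch (PCH.id _) ψ.pbh.pch
    (fun c x y => h c x y) (FF k) (FS.e k) x y).trans ?_
  exact congrArg (((cP p'.pp (FF k)).q (FS.e k)).m _) (cH_id _ (FF k) (FS.e k) y)

end Pool.Agent.MP_6e5bed_ag_PS
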