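import Pool.Agent.Lib.MP_6e5bed_ag_CV.Datum

set_option autoImplicit false

/-!
# MP_6e5bed_ag, NC PRODUCT SURFACES: charts of a curve

`L` is a finite separable extension of `k(x)`, the linear forms `ell 0, ell 1, ell 2` are
`1, x, x - 1`. For a set `a ⊆ {0, 1, 2}` the chart `U_a` of the curve is the complement of the zeros
of the `ell j`, `j ∈ a` (for `a = ∅` it is the whole curve). `OA D a i` are the sections of `O(i)`
on `U_a`, as elements of `L`.
-/

noncomputable section

namespace Pool.Agent.MP_6e5bed_ag_PS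

open Pool.Agent.MP_6e5bed_ag_NC

universe u

variable {k : Type u} [Field k]

/-- the linear forms `1`, `x`, `x - 1` -/
def ell (k : Type u) [Field k] (m : Fin 3) : RatFunc k :=
  (![1, RatFunc.X, RatFunc.X - 1] : Fin 3 → RatFunc k) m

theorem ell_ne (m : Fin 3) : ell k m ≠ 0 := by
  fin_cases m
  · exact one_ne_zero
  · exact RatFunc.X_ne_zero
  · change (RatFunc.X : RatFunc k) - 1 ≠ 0
    rw [sub_ne_zero]
    intro h
    have h1 : (Polynomial.X : Polynomial k) = 1 := by
      apply RatFunc.algebraMap_injective (K := k)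
      rw [RatFunc.algebraMap_X, h, map_one]
    exact Polynomial.X_ne_C (1 : k) (by rw [h1, Polynomial.C_1])

/-- the functions on the chart `m` of the projective line -/
def SS (k : Type u) [Field k] (m : Fin 3) : Subalgebra k (RatFunc k) :=
  Algebra.adjoin k {f | ∃ j, f = ell k j / ell k m}

/-- the linear forms in `L` -/
def el (D : FExt k) (m : Fin 3) : D.L := algebraMap (RatFunc k) D.L (ell k m)

theorem el_ne (D : FExt k) (m : Fin 3) : el D m ≠ 0 := by
  unfold el
  rw [Ne, map_eq_zero]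
  exact ell_ne m

theorem el_zero (D : FExt k) : el D 0 = 1 := map_one _

theorem el_sub (D : FExt k) : el D 1 - el D 0 = el D 2 := (map_sub _ _ _).symm

/-- the functions on the chart `m` of the curve -/
def BM (D : FExt k) (m : Fin 3) : Subalgebra k D.L :=
  (integralClosure (SS k m) D.L).restrictScalars k

theorem mem_BM {D : FExt k} {m : Fin 3} {b : D.L} : b ∈ BM D m ↔ IsIntegral (SS k m) b := Iff.rfl

theorem el_div_mem (D : FExt k) (j m : Fin 3) : el D j / el D m ∈ BM D m := by
  have h : el D j / el D m = algebraMap (SS k m) D.L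
      ⟨ell k j / ell k m, Algebra.subset_adjoin ⟨j, rfl⟩⟩ := (map_div₀ _ _ _).symm
  rw [mem_BM, h]
  exact isIntegral_algebraMap

/-- the product of the `ell j / ell m`, `j ∈ a` -/
def rho (D : FExt k) (a : Finset (Fin 3)) (m : Fin 3) : D.L := ∏ j ∈ a, (el D j / el D m)

theorem rho_mem (D : FExt k) (a : Finset (Fin 3)) (m : Fin 3) : rho D a m ∈ BM D m :=
  Subalgebra.prod_mem _ fun j _ => el_div_mem D j m

theorem rho_ne (D : FExt k) (a : Finset (Fin 3)) (m : Fin 3) : rho D a m ≠ 0 :=
  Finset.prod_ne_zero_iff.2 fun j _ => div_ne_zero (el_ne D j) (el_ne D m)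

/-- more factors -/
theorem rho_pow_mem {D : FExt k} {a : Finset (Fin 3)} {m : Fin 3} {n n' : ℕ} (h : n ≤ n')
    {f : D.L} (hf : rho D a m ^ n * f ∈ BM D m) : rho D a m ^ n' * f ∈ BM D m := by
  obtain ⟨l, rfl⟩ := Nat.exists_eq_add_of_le h
  have h1 : rho D a m ^ (n + l) * f = rho D a m ^ l * (rho D a m ^ n * f) := by ring
  rw [h1]
  exact (BM D m).mul_mem (pow_mem (rho_mem D a m) l) hf

/-- the sections of `O(i)` on the chart `a` of the curve -/
def OA (D : FExt k) (a : Finset (Fin 3)) (i : ℤ) : Submodule k D.L where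
  carrier := {f | ∀ m, ∃ n : ℕ, rho D a m ^ n * (el D m ^ (-i) * f) ∈ BM D m}
  add_mem' := fun {f g} hf hg m => by
    obtain ⟨n, hn⟩ := hf m
    obtain ⟨n', hn'⟩ := hg m
    refine ⟨max n n', ?_⟩
    rw [mul_add, mul_add]
    exact (BM D m).add_mem (rho_pow_mem (le_max_left _ _) hn) (rho_pow_mem (le_max_right _ _) hn')
  zero_mem' := fun m => ⟨0, by rw [mul_zero, mul_zero]; exact (BM D m).zero_mem⟩
  smul_mem' := fun c f hf m => by
    obtain ⟨n, hn⟩ := hf m
    refine ⟨n, ?_⟩
    rw [mul_smul_comm, mul_smul_comm]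
    exact (BM D m).smul_mem hn c

theorem mem_OA {D : FExt k} {a : Finset (Fin 3)} {i : ℤ} {f : D.L} :
    f ∈ OA D a i ↔ ∀ m, ∃ n : ℕ, rho D a m ^ n * (el D m ^ (-i) * f) ∈ BM D m := Iff.rfl

end Pool.Agent.MP_6e5bed_ag_PS
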