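import Pool.Agent.Lib.MP_6e5bed_ag_PS.Cur

set_option autoImplicit false

/-!
# MP_6e5bed_ag, NC PRODUCT SURFACES: localization on the charts of a curve
-/

noncomputable section

namespace Pool.Agent.MP_6e5bed_ag_PS

open Pool.Agent.MP_6e5bed_ag_NC

universe u

variable {k : Type u} [Field k] {D : FExt k}

private theorem CurA_loc {L : Type u} [Field L] [Algebra (RatFunc k) L]
    (A B : Subalgebra k (RatFunc k)) (w : RatFunc k) (hw : w ∈ B)
    (hp : ∀ f ∈ A, ∃ n : ℕ, ∀ m : ℕ, n ≤ m → w ^ m * f ∈ B) (v : L) (hv : IsIntegral A v) :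
    ∃ n : ℕ, IsIntegral B ((w ^ n) • v) := by
  obtain ⟨p, hpm, hpv⟩ := hv
  have hN : ∃ N : ℕ, ∀ i, w ^ N * (p.coeff i : RatFunc k) ∈ B := by
    have h1 : ∀ i, ∃ n : ℕ, ∀ m : ℕ, n ≤ m → w ^ m * (p.coeff i : RatFunc k) ∈ B :=
      fun i => hp _ (p.coeff i).2
    choose n hn using h1
    refine ⟨∑ i ∈ p.support, n i, fun i => ?_⟩
    by_cases hi : i ∈ p.support
    · exact hn i _ (Finset.single_le_sum (f := n) (fun _ _ => Nat.zero_le _) hi)
    · rw [Polynomial.notMem_support_iff.1 hi]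
      simp
  obtain ⟨N, hN⟩ := hN
  have hsum : v ^ p.natDegree = - ∑ i ∈ Finset.range p.natDegree,
      ((p.coeff i : RatFunc k)) • v ^ i := by
    have h2 := hpv
    rw [Polynomial.eval₂_eq_sum_range, Finset.sum_range_succ] at h2
    rw [Polynomial.Monic.coeff_natDegree hpm, map_one, one_mul] at h2
    rw [eq_neg_iff_add_eq_zero, add_comm]
    rw [← h2]
    congr 1
    refine Finset.sum_congr rfl fun i _ => ?_
    rw [Algebra.smul_def]
    rfl
  refine ⟨N, ?_⟩
  set d := p.natDegree with hd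
  have hc : ∀ i ∈ Finset.range d, w ^ (N * (d - i)) * (p.coeff i : RatFunc k) ∈ B := by
    intro i hi
    have hi' : i < d := Finset.mem_range.1 hi
    obtain ⟨e, he⟩ := Nat.exists_eq_add_of_lt hi'
    have : N * (d - i) = N * e + N := by
      rw [he]
      have : i + e + 1 - i = e + 1 := by omega
      rw [this, mul_add, mul_one]
    rw [this, pow_add, mul_assoc]
    exact Subalgebra.mul_mem _ (Subalgebra.pow_mem _ hw _) (hN i)
  let q : Polynomial B := Polynomial.X ^ d + ∑ i ∈ (Finset.range d).attach,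
    Polynomial.C (⟨_, hc i.1 i.2⟩ : B) * Polynomial.X ^ i.1
  refine ⟨q, ?_, ?_⟩
  · refine Polynomial.monic_X_pow_add ?_
    rw [← Polynomial.mem_degreeLT]
    refine Submodule.sum_mem _ fun i _ => Polynomial.mem_degreeLT.2 ?_
    refine (Polynomial.degree_C_mul_X_pow_le _ _).trans_lt ?_
    exact_mod_cast Finset.mem_range.1 i.2
  · change Polynomial.eval₂ _ _ (Polynomial.X ^ d + ∑ i ∈ (Finset.range d).attach,
      Polynomial.C (⟨_, hc i.1 i.2⟩ : B) * Polynomial.X ^ i.1) = 0
    rw [Polynomial.eval₂_add, Polynomial.eval₂_X_pow, Polynomial.eval₂_finsetSum, smul_pow, hsum]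
    rw [smul_neg, Finset.smul_sum, neg_add_eq_zero]
    rw [← Finset.sum_attach]
    refine Finset.sum_congr rfl fun i _ => ?_
    rw [Polynomial.eval₂_mul, Polynomial.eval₂_C, Polynomial.eval₂_X_pow, smul_pow]
    have h3 : (algebraMap B L) (⟨_, hc i.1 i.2⟩ : B) =
      algebraMap (RatFunc k) L (w ^ (N * (d - i.1)) * (p.coeff i.1 : RatFunc k)) := rfl
    rw [h3, ← Algebra.smul_def, smul_smul, smul_smul]
    congr 1
    have hi' : i.1 < d := Finset.mem_range.1 i.2
    rw [← pow_mul, ← pow_mul, mul_right_comm, ← pow_add, ← mul_add]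
    congr 3
    omega

private theorem CurA_SS (m m' : Fin 3) {f : RatFunc k} (hf : f ∈ SS k m) :
    ∃ n : ℕ, ∀ l : ℕ, n ≤ l → (ell k m / ell k m') ^ l * f ∈ SS k m' := by
  have hw : ell k m / ell k m' ∈ SS k m' := Algebra.subset_adjoin ⟨m, rfl⟩
  unfold SS at hf
  induction hf using Algebra.adjoin_induction with
  | mem x hx =>
    obtain ⟨j, rfl⟩ := hx
    refine ⟨1, fun l hl => ?_⟩
    obtain ⟨e, rfl⟩ := Nat.exists_eq_add_of_le hl
    have h1 : (ell k m / ell k m') ^ (1 + e) * (ell k j / ell k m) =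
        (ell k m / ell k m') ^ e * (ell k j / ell k m') := by
      have h2 := ell_ne (k := k) m
      have h3 := ell_ne (k := k) m'
      rw [pow_add, pow_one]
      field_simp
    rw [h1]
    exact (SS k m').mul_mem (pow_mem hw _) (Algebra.subset_adjoin ⟨j, rfl⟩)
  | algebraMap c =>
    exact ⟨0, fun l _ => (SS k m').mul_mem (pow_mem hw _) ((SS k m').algebraMap_mem c)⟩
  | add x y _ _ hx hy =>
    obtain ⟨n, hn⟩ := hx
    obtain ⟨n', hn'⟩ := hy
    refine ⟨max n n', fun l hl => ?_⟩
    rw [mul_add]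
    exact (SS k m').add_mem (hn l (le_of_max_le_left hl)) (hn' l (le_of_max_le_right hl))
  | mul x y _ _ hx hy =>
    obtain ⟨n, hn⟩ := hx
    obtain ⟨n', hn'⟩ := hy
    refine ⟨n + n', fun l hl => ?_⟩
    obtain ⟨e, rfl⟩ := Nat.exists_eq_add_of_le hl
    have h1 : (ell k m / ell k m') ^ (n + n' + e) * (x * y) =
        ((ell k m / ell k m') ^ n * x) * ((ell k m / ell k m') ^ (n' + e) * y) := by ring
    rw [h1]
    exact (SS k m').mul_mem (hn n le_rfl) (hn' _ (Nat.le_add_right _ _))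

/-- A function on the chart `m` is a function on the chart `m'` after multiplication with a power of
`ell m / ell m'`.

PROOF. `w = ell m / ell m'` is in `SS k m'`, and for `f ∈ SS k m` there is `n` with
`w ^ n' * f ∈ SS k m'` for all `n' ≥ n` (true for the generators `ell j / ell m` with `n = 1`:
`w * (ell j / ell m) = ell j / ell m'`; closed under sums, products, scalars:
`Algebra.adjoin_induction`). If `b` is a root of the monic polynomial `p` over `SS k m` of degree `d`,
choose `N` which works for all coefficients; then `w ^ N b` is a root of the monic polynomial with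
the coefficients `w ^ (N (d - i)) p_i`. (This is the proof of the private lemma `LPO_loc` in
`Lib/MP_6e5bed_ag_CV/LPO.lean`, with `kk k u` replaced by `SS k m`, `kk k u⁻¹` by `SS k m'` and
`u⁻¹` by `w`.) -/
theorem BM_loc {m : Fin 3} {b : D.L} (hb : b ∈ BM D m) (m' : Fin 3) :
    ∃ n : ℕ, (el D m / el D m') ^ n * b ∈ BM D m' := by
  have hw : ell k m / ell k m' ∈ SS k m' := Algebra.subset_adjoin ⟨m, rfl⟩
  obtain ⟨n, hn⟩ := CurA_loc (SS k m) (SS k m') (ell k m / ell k m') hw
    (fun f hf => CurA_SS m m' hf) b (mem_BM.1 hb)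
  refine ⟨n, ?_⟩
  rw [mem_BM]
  have h1 : (el D m / el D m') ^ n * b = ((ell k m / ell k m') ^ n) • b := by
    rw [Algebra.smul_def, map_pow, map_div₀]
    rfl
  rw [h1]
  exact hn

/-- The sections of `O(i)` on the chart `{m}`.

PROOF. `rho D {m} m = 1`, so the condition for `m` itself says `el m ^ (-i) * f ∈ BM D m`.
Conversely let `b = el m ^ (-i) * f ∈ BM D m`, and let `m'` be given. Then
`el m' ^ (-i) * f = (el m / el m') ^ i * b`, `rho D {m} m' = el m / el m'` and
`(el m / el m') ^ n * b ∈ BM D m'` for large `n` (`BM_loc`, and the powers of `el m / el m'` are in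
`BM D m'`); so `(el m / el m') ^ (n + |i|) * ((el m / el m') ^ i * b) ∈ BM D m'`. -/
theorem mem_OA_sgl {m : Fin 3} {i : ℤ} {f : D.L} :
    f ∈ OA D {m} i ↔ el D m ^ (-i) * f ∈ BM D m := by
  have hm := el_ne D m
  constructor
  · intro h
    obtain ⟨n, hn⟩ := h m
    have h1 : rho D {m} m = 1 := by
      unfold rho
      rw [Finset.prod_singleton, div_self hm]
    rw [h1, one_pow, one_mul] at hn
    exact hn
  · intro hb m'
    have hm' := el_ne D m'
    have hW : rho D {m} m' = el D m / el D m' := by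
      unfold rho
      rw [Finset.prod_singleton]
    have hW0 : el D m / el D m' ≠ 0 := div_ne_zero hm hm'
    obtain ⟨n, hn⟩ := BM_loc hb m'
    refine ⟨n + i.natAbs, ?_⟩
    obtain ⟨e, he⟩ := Int.eq_ofNat_of_zero_le (show 0 ≤ (i.natAbs : ℤ) + i by omega)
    have h1 : rho D {m} m' ^ (n + i.natAbs) * (el D m' ^ (-i) * f) =
        (el D m / el D m') ^ e * ((el D m / el D m') ^ n * (el D m ^ (-i) * f)) := by
      rw [hW]
      have h2 : el D m' ^ (-i) = (el D m / el D m') ^ i * el D m ^ (-i) := by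
        rw [div_zpow, zpow_neg, zpow_neg, div_mul_eq_mul_div, mul_inv_cancel₀ (zpow_ne_zero _ hm),
          one_div]
      have h3 : (el D m / el D m') ^ (n + i.natAbs) * (el D m / el D m') ^ i =
          (el D m / el D m') ^ e * (el D m / el D m') ^ n := by
        rw [← zpow_natCast, ← zpow_add₀ hW0, ← zpow_natCast _ e, ← zpow_natCast _ n,
          ← zpow_add₀ hW0, ← he]
        congr 1
        push_cast
        ring
      rw [h2, ← mul_assoc, ← mul_assoc, h3]
      ring
    rw [h1]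
    exact (BM D m').mul_mem (pow_mem (el_div_mem D m m') e) hn

/-- PROOF. `rho D b m = rho D a m * rho D (b \ a) m`, and `rho D (b \ a) m ∈ BM D m`. -/
theorem OA_mono {a b : Finset (Fin 3)} (h : a ⊆ b) (i : ℤ) : OA D a i ≤ OA D b i := by
  intro f hf m
  obtain ⟨n, hn⟩ := hf m
  refine ⟨n, ?_⟩
  have h1 : rho D b m = rho D (b \ a) m * rho D a m := by
    unfold rho
    rw [Finset.prod_sdiff h]
  rw [h1, mul_pow, mul_assoc]
  exact (BM D m).mul_mem (pow_mem (rho_mem D _ m) n) hn

/-- PROOF. `rho ^ n * (el ^ (-i) * f)` and `rho ^ n' * (el ^ (-j) * g)` in `BM D m`: multiply. -/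
theorem OA_mul {a : Finset (Fin 3)} {i j : ℤ} {f g : D.L} (hf : f ∈ OA D a i)
    (hg : g ∈ OA D a j) : f * g ∈ OA D a (i + j) := by
  intro m
  obtain ⟨n, hn⟩ := hf m
  obtain ⟨n', hn'⟩ := hg m
  refine ⟨n + n', ?_⟩
  have h1 : rho D a m ^ (n + n') * (el D m ^ (-(i + j)) * (f * g)) =
      (rho D a m ^ n * (el D m ^ (-i) * f)) * (rho D a m ^ n' * (el D m ^ (-j) * g)) := by
    rw [neg_add, zpow_add₀ (el_ne D m), pow_add]
    ring
  rw [h1]
  exact (BM D m).mul_mem hn hn'

theorem one_mem_OA (a : Finset (Fin 3)) : (1 : D.L) ∈ OA D a 0 := fun m =>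
  ⟨0, by simpa using (BM D m).one_mem⟩

/-- `ell j` is a section of `O(1)`. PROOF. `el m ^ (-1) * el j = el j / el m ∈ BM D m`, `n = 0`. -/
theorem el_mem_OA (a : Finset (Fin 3)) (j : Fin 3) : el D j ∈ OA D a 1 := by
  intro m
  refine ⟨0, ?_⟩
  rw [pow_zero, one_mul, zpow_neg_one, mul_comm, ← div_eq_mul_inv]
  exact el_div_mem D j m

/-- `1 / ell g` is a section of `O(-1)` on the charts contained in `ell g ≠ 0`.

PROOF. `el m ^ 1 * (el g)⁻¹ = (el g / el m)⁻¹`, and `rho D a m = (el g / el m) * rho D (a.erase g) m`,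
so `n = 1`. -/
theorem inv_mem_OA {a : Finset (Fin 3)} {g : Fin 3} (hg : g ∈ a) : (el D g)⁻¹ ∈ OA D a (-1) := by
  intro m
  refine ⟨1, ?_⟩
  have h1 : rho D a m ^ 1 * (el D m ^ (-(-1 : ℤ)) * (el D g)⁻¹) = rho D (a.erase g) m := by
    have h2 : rho D a m = (el D g / el D m) * rho D (a.erase g) m := by
      unfold rho
      exact (Finset.mul_prod_erase a (fun j => el D j / el D m) hg).symm
    have h3 := el_ne D g
    have h4 := el_ne D m
    rw [h2, pow_one, neg_neg, zpow_one]
    field_simp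
  rw [h1]
  exact rho_mem D _ m

/-- integral powers. PROOF. `OA_mul`, `el_mem_OA`, `inv_mem_OA`, induction. -/
theorem zpow_mem_OA {a : Finset (Fin 3)} {g : Fin 3} (hg : g ∈ a) (i : ℤ) :
    el D g ^ i ∈ OA D a i := by
  induction i using Int.induction_on with
  | zero =>
    rw [zpow_zero]
    exact one_mem_OA a
  | succ i ih =>
    rw [zpow_add_one₀ (el_ne D g)]
    exact OA_mul ih (el_mem_OA a g)
  | pred i ih =>
    rw [zpow_sub_one₀ (el_ne D g)]
    exact OA_mul ih (inv_mem_OA hg)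

end Pool.Agent.MP_6e5bed_ag_PS
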