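import Pool.Agent.Lib.MP_6e5bed_ag_NS.QiB
import Pool.Agent.Lib.MP_6e5bed_ag_NS.FinL

set_option autoImplicit false
set_option linter.unusedVariables false

/-!
# MP_6e5bed_ag, NC PRODUCT SURFACES: distinguished sequences of complexes, the four lemma
-/

noncomputable section

namespace Pool.Agent.MP_6e5bed_ag_PS

open Pool.Agent.MP_6e5bed_ag_NC
open Pool.Agent.MP_6e5bed_ag_NS

universe u

variable {k : Type u} [Field k] {X Y X1 X2 X3 Y1 Y2 Y3 : Cx k}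

/-- surjective in cohomology in degree `i` -/
def SJ (φ : CHom X Y) (i : ℤ) : Prop :=
  ∀ y, Y.dg.IsDeg i y → Y.dg.d y = 0 → ∃ x, X.dg.IsDeg i x ∧ X.dg.d x = 0 ∧
    ∃ w, Y.dg.d w = y - φ.f x

/-- injective in cohomology in degree `i` -/
def IJ (φ : CHom X Y) (i : ℤ) : Prop :=
  ∀ x, X.dg.IsDeg i x → X.dg.d x = 0 → (∃ w, Y.dg.d w = φ.f x) → ∃ z, X.dg.d z = x

private theorem Dist_ρ (f : CHom X Y) (x : X.V) (n : ℤ) :
    Y.dg.ρ (f.f x) n = f.f (X.dg.ρ x n) := by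
  have h := (Dg.degMap_iff (X := X.dg) (Y := Y.dg) (n := 0) f.f).1 (fun j v h => by
    rw [add_zero]
    exact f.deg h) x n
  rwa [add_zero] at h

private theorem Dist_d (X : Cx k) (x : X.V) (n : ℤ) :
    X.dg.d (X.dg.ρ x n) = X.dg.ρ (X.dg.d x) (n + 1) := (X.dg.ρ_d x n).symm

private theorem Dist_d0 (X : Cx k) {x : X.V} (h : X.dg.d x = 0) (n : ℤ) :
    X.dg.d (X.dg.ρ x n) = 0 := by
  rw [Dist_d, h, map_zero, Finsupp.zero_apply]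

private theorem Dist_deg {X : Cx k} {n : ℤ} {x : X.V} (h : X.dg.IsDeg n x) :
    X.dg.ρ x n = x := by
  have h' : X.dg.ρ x = Finsupp.single n x := h
  rw [h', Finsupp.single_eq_same]

private theorem Dist_SJ {φ : CHom X Y} {i : ℤ} (h : ∀ y, Y.dg.IsDeg i y → Y.dg.d y = 0 →
    ∃ x, X.dg.d x = 0 ∧ ∃ w, Y.dg.d w = y - φ.f x) : SJ φ i := by
  intro y hy hdy
  obtain ⟨x, hx, w, hw⟩ := h y hy hdy
  refine ⟨X.dg.ρ x i, Dg.isDeg_ρ x i, Dist_d0 X hx i, Y.dg.ρ w (i - 1), ?_⟩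
  rw [Dist_d, sub_add_cancel, hw, map_sub, Finsupp.sub_apply, Dist_deg hy, Dist_ρ]

/-- PROOF. A cycle is the sum of its homogeneous components (`Dg.sum_ρ`), which are cycles
(`Dg.ρ_d`), and if it is a boundary (or its image is one), so are the components. -/
theorem qi_iff (φ : CHom X Y) : φ.QI ↔ ∀ i, SJ φ i ∧ IJ φ i := by
  constructor
  · intro h i
    exact ⟨Dist_SJ fun y _ hy => h.2 y hy, fun x _ hx hw => h.1 x hx hw⟩
  · intro h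
    refine ⟨fun x hx hy => ?_, fun y hy => ?_⟩
    · obtain ⟨y, hy⟩ := hy
      have h1 : ∀ n, ∃ z, X.dg.d z = X.dg.ρ x n := by
        intro n
        refine (h n).2 _ (Dg.isDeg_ρ x n) (Dist_d0 X hx n) ⟨Y.dg.ρ y (n - 1), ?_⟩
        rw [Dist_d, sub_add_cancel, hy, Dist_ρ]
      choose z hz using h1
      refine ⟨∑ n ∈ (X.dg.ρ x).support, z n, ?_⟩
      rw [map_sum, Finset.sum_congr rfl fun n _ => hz n]
      exact X.dg.sum_ρ x
    · have h1 : ∀ n, ∃ x, X.dg.d x = 0 ∧ ∃ w, Y.dg.d w = Y.dg.ρ y n - φ.f x := by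
        intro n
        obtain ⟨x, _, hx, hw⟩ := (h n).1 _ (Dg.isDeg_ρ y n) (Dist_d0 Y hy n)
        exact ⟨x, hx, hw⟩
      choose x hx w hw using h1
      refine ⟨∑ n ∈ (Y.dg.ρ y).support, x n, ?_, ∑ n ∈ (Y.dg.ρ y).support, w n, ?_⟩
      · rw [map_sum]
        exact Finset.sum_eq_zero fun n _ => hx n
      · rw [map_sum, map_sum, Finset.sum_congr rfl fun n _ => hw n, Finset.sum_sub_distrib]
        congr 1
        exact Y.dg.sum_ρ y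

/-- `X1 → X2 → X3` is distinguished: the composition is zero, and the map from the cone of
`X1 → X2` to `X3` is a quasi-isomorphism. -/
structure Dist (a : CHom X1 X2) (b : CHom X2 X3) : Prop where
  zero : ∀ x, b.f (a.f x) = 0
  inj : ∀ x1 x2 x3, X1.dg.d x1 = 0 → a.f x1 + X2.dg.d x2 = 0 → b.f x2 = X3.dg.d x3 →
    ∃ y1 y2, x1 = - X1.dg.d y1 ∧ x2 = a.f y1 + X2.dg.d y2
  surj : ∀ x3, X3.dg.d x3 = 0 → ∃ x1 x2 y3, X1.dg.d x1 = 0 ∧ a.f x1 + X2.dg.d x2 = 0 ∧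
    x3 = b.f x2 + X3.dg.d y3

/-- PROOF. Diagram chase: `inj`: `b x2 = d x3`; lift `x3 = b w`; `x2 - d w = a y1`; then
`a (x1 + d y1) = 0`. `surj`: lift `x3 = b x2`; `d x2` is in the image of `a`. -/
theorem CEx.dist {i : CHom X1 X2} {p : CHom X2 X3} (h : CEx i p) : Dist i p := by
  obtain ⟨h1, h2, h3⟩ := h
  refine ⟨fun x => (h3 _).2 ⟨x, rfl⟩, fun x1 x2 x3 e1 e2 e3 => ?_, fun x3 e => ?_⟩
  · obtain ⟨w, rfl⟩ := h2 x3
    obtain ⟨y1, hy1⟩ := (h3 (x2 - X2.dg.d w)).1 (by rw [map_sub, e3, p.d, sub_self])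
    refine ⟨y1, w, h1 ?_, by rw [hy1]; abel⟩
    rw [map_neg, ← i.d, hy1, map_sub, X2.dg.d_d, sub_zero]
    exact eq_neg_of_add_eq_zero_left e2
  · obtain ⟨x2, rfl⟩ := h2 x3
    obtain ⟨y, hy⟩ := (h3 (X2.dg.d x2)).1 (by rw [← p.d, e])
    refine ⟨-y, x2, 0, h1 ?_, by rw [map_neg, hy]; abel, by rw [map_zero, add_zero]⟩
    rw [map_zero, ← i.d, map_neg, map_neg, hy, X2.dg.d_d, neg_zero]

/-- The four lemma.

PROOF. (Use homogeneous components freely: in `Dist.inj`, `Dist.surj` for homogeneous data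
(`x1` of degree `i + 1`, `x2`, `x3` of degree `i`) one can take homogeneous components of the elements
obtained.) `SJ φ3 i`: let `y3` be a cycle of degree `i`; by `hY.surj` `y3 = b' y2 + d _`,
`a' y1 + d y2 = 0`, `d y1 = 0`. By `SJ φ1 (i + 1)` `y1 = φ1 x1 + d w1`, `d x1 = 0`; then
`φ2 (a x1) = a' φ1 x1 = a' y1 - d a' w1 = - d (y2 + a' w1)` is a boundary, so `a x1 = - d x2` because
`φ2` is injective in cohomology; `y2 + a' w1 - φ2 x2` is a cycle, so it is `φ2 x2' + d _`,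
`d x2' = 0`. Let `x3 = b (x2 + x2')`, a cycle; `φ3 x3 = b' φ2 (x2 + x2') = b' (y2 + a' w1) + d _`
`= b' y2 + d _ = y3 + d _`.
`IJ φ3 (i + 1)`: let `x3` be a cycle of degree `i + 1` with `φ3 x3 = d y3`. By `hX.surj`
`x3 = b x2 + d _`, `a x1 + d x2 = 0`, `d x1 = 0` (`x1` of degree `i + 2`). Then
`b' (φ2 x2) = d _`, and by `hY.inj` (for `φ1 x1`, `φ2 x2`) `φ1 x1 = - d y1`,
`φ2 x2 = a' y1 + d y2`. By `IJ φ1 (i + 2)` `x1 = - d x1'`. Then `x2 - a x1'` is a cycle and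
`φ2 (x2 - a x1') = a' (y1 - φ1 x1') + d y2`, where `y1 - φ1 x1'` is a cycle of degree `i + 1`; by
`SJ φ1 (i + 1)` it is `φ1 u + d _`, `d u = 0`; so `φ2 (x2 - a x1' - a u)` is a boundary, hence
`x2 = a (x1' + u) + d _` and `x3 = b x2 + d _` is a boundary. -/
theorem four {a : CHom X1 X2} {b : CHom X2 X3} {a' : CHom Y1 Y2} {b' : CHom Y2 Y3}
    (hX : Dist a b) (hY : Dist a' b') (φ1 : CHom X1 Y1) (φ2 : CHom X2 Y2) (φ3 : CHom X3 Y3)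
    (h1 : ∀ x, φ2.f (a.f x) = a'.f (φ1.f x)) (h2 : ∀ x, φ3.f (b.f x) = b'.f (φ2.f x))
    (q2 : φ2.QI) {i : ℤ} (hs : SJ φ1 (i + 1)) (hi : IJ φ1 (i + 2)) :
    SJ φ3 i ∧ IJ φ3 (i + 1) := by
  refine ⟨Dist_SJ fun y3 hy3 hd3 => ?_, fun x3 hx3 hd3 hw3 => ?_⟩
  · obtain ⟨y1, y2, w3, e1, e2, e3⟩ := hY.surj y3 hd3
    have f2 : a'.f (Y1.dg.ρ y1 (i + 1)) + Y2.dg.d (Y2.dg.ρ y2 i) = 0 := by
      rw [← Dist_ρ, Dist_d, ← Finsupp.add_apply, ← map_add, e2, map_zero, Finsupp.zero_apply]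
    have f3 : y3 = b'.f (Y2.dg.ρ y2 i) + Y3.dg.d (Y3.dg.ρ w3 (i - 1)) := by
      rw [← Dist_ρ, Dist_d, sub_add_cancel, ← Finsupp.add_apply, ← map_add, ← e3, Dist_deg hy3]
    obtain ⟨x1, _, hx1, w1, hw1⟩ := hs (Y1.dg.ρ y1 (i + 1)) (Dg.isDeg_ρ _ _) (Dist_d0 Y1 e1 _)
    generalize Y1.dg.ρ y1 (i + 1) = p1 at *
    generalize Y2.dg.ρ y2 i = p2 at *
    generalize Y3.dg.ρ w3 (i - 1) = p3 at *
    have f2' := eq_neg_of_add_eq_zero_right f2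
    obtain ⟨z, hz⟩ := q2.1 (a.f x1) (by rw [a.d, hx1, map_zero]) ⟨-(p2 + a'.f w1), by
      rw [map_neg, map_add, a'.d, hw1, map_sub, h1, f2']
      abel⟩
    obtain ⟨v, hv, w2, hw2⟩ := q2.2 (p2 + a'.f w1 + φ2.f z) (by
      rw [map_add, map_add, a'.d, hw1, φ2.d, hz, h1, map_sub, f2']
      abel)
    refine ⟨b.f (v - z), ?_, p3 + b'.f w2, ?_⟩
    · rw [b.d, map_sub, hv, hz, zero_sub, map_neg, hX.zero, neg_zero]
    · rw [map_add, b'.d, hw2, h2, f3]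
      simp only [map_add, map_sub, hY.zero]
      abel
  · obtain ⟨w, hw⟩ := hw3
    obtain ⟨x1, x2, w3, e1, e2, e3⟩ := hX.surj x3 hd3
    have ei : i + 1 + 1 = i + 2 := by ring
    have f2 : a.f (X1.dg.ρ x1 (i + 2)) + X2.dg.d (X2.dg.ρ x2 (i + 1)) = 0 := by
      rw [← Dist_ρ, Dist_d, ei, ← Finsupp.add_apply, ← map_add, e2, map_zero,
        Finsupp.zero_apply]
    have f3 : x3 = b.f (X2.dg.ρ x2 (i + 1)) + X3.dg.d (X3.dg.ρ w3 i) := by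
      rw [← Dist_ρ, Dist_d, ← Finsupp.add_apply, ← map_add, ← e3, Dist_deg hx3]
    have g1 : X1.dg.IsDeg (i + 2) (X1.dg.ρ x1 (i + 2)) := Dg.isDeg_ρ _ _
    have g2 : X2.dg.IsDeg (i + 1) (X2.dg.ρ x2 (i + 1)) := Dg.isDeg_ρ _ _
    have f1 := Dist_d0 X1 e1 (i + 2)
    generalize X1.dg.ρ x1 (i + 2) = p1 at *
    generalize X2.dg.ρ x2 (i + 1) = p2 at *
    generalize X3.dg.ρ w3 i = p3 at *
    have f2' := eq_neg_of_add_eq_zero_right f2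
    obtain ⟨y1, y2, k1, k2⟩ := hY.inj (φ1.f p1) (φ2.f p2) (w - φ3.f p3)
      (by rw [φ1.d, f1, map_zero]) (by rw [← h1, φ2.d, f2', map_neg]; abel)
      (by rw [← h2, map_sub, hw, φ3.d, f3, map_add]; abel)
    have m1 : φ1.f p1 = - Y1.dg.d (Y1.dg.ρ y1 (i + 1)) := by
      rw [Dist_d, ei, ← Finsupp.neg_apply, ← map_neg, ← k1, Dist_deg (φ1.deg g1)]
    have m2 : φ2.f p2 = a'.f (Y1.dg.ρ y1 (i + 1)) + Y2.dg.d (Y2.dg.ρ y2 i) := by
      rw [← Dist_ρ, Dist_d, ← Finsupp.add_apply, ← map_add, ← k2, Dist_deg (φ2.deg g2)]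
    have g3 : Y1.dg.IsDeg (i + 1) (Y1.dg.ρ y1 (i + 1)) := Dg.isDeg_ρ _ _
    generalize Y1.dg.ρ y1 (i + 1) = r1 at *
    generalize Y2.dg.ρ y2 i = r2 at *
    obtain ⟨z, hz⟩ := hi p1 g1 f1 ⟨-r1, by rw [map_neg, m1]⟩
    have hz' : X1.dg.d (X1.dg.ρ z (i + 1)) = p1 := by rw [Dist_d, ei, hz, Dist_deg g1]
    have g4 : X1.dg.IsDeg (i + 1) (X1.dg.ρ z (i + 1)) := Dg.isDeg_ρ _ _
    generalize X1.dg.ρ z (i + 1) = z' at *
    -- `x1' = -z'`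
    obtain ⟨u, _, hu, t, ht⟩ := hs (r1 + φ1.f z') (g3.add (φ1.deg g4)) (by
      rw [map_add, φ1.d, hz', m1]
      abel)
    obtain ⟨z2, hz2⟩ := q2.1 (p2 + a.f z' - a.f u) (by
      rw [map_sub, map_add, a.d, a.d, hz', hu, map_zero, f2']
      abel) ⟨a'.f t + r2, by
      rw [map_add, a'.d, ht, map_sub φ2.f, map_add φ2.f, m2, h1, h1, map_sub, map_add]
      abel⟩
    refine ⟨b.f z2 + p3, ?_⟩
    rw [map_add, b.d, hz2, f3, map_sub, map_add, hX.zero, hX.zero]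
    abel

/-- PROOF. Five lemma (ungraded: forget the degrees in the proof of `four`). -/
theorem dist_right {a : CHom X1 X2} {b : CHom X2 X3} {a' : CHom Y1 Y2} {b' : CHom Y2 Y3}
    (hX : Dist a b) (hY : Dist a' b') (φ1 : CHom X1 Y1) (φ2 : CHom X2 Y2) (φ3 : CHom X3 Y3)
    (h1 : ∀ x, φ2.f (a.f x) = a'.f (φ1.f x)) (h2 : ∀ x, φ3.f (b.f x) = b'.f (φ2.f x))
    (q1 : φ1.QI) (q2 : φ2.QI) : φ3.QI := by
  refine (qi_iff φ3).2 fun i => ⟨(four hX hY φ1 φ2 φ3 h1 h2 q2 ((qi_iff φ1).1 q1 _).1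
    ((qi_iff φ1).1 q1 _).2).1, ?_⟩
  have h := (four hX hY φ1 φ2 φ3 h1 h2 q2 (i := i - 1) ((qi_iff φ1).1 q1 _).1
    ((qi_iff φ1).1 q1 _).2).2
  rwa [sub_add_cancel] at h

/-- PROOF. Five lemma. -/
theorem dist_left {a : CHom X1 X2} {b : CHom X2 X3} {a' : CHom Y1 Y2} {b' : CHom Y2 Y3}
    (hX : Dist a b) (hY : Dist a' b') (φ1 : CHom X1 Y1) (φ2 : CHom X2 Y2) (φ3 : CHom X3 Y3)
    (h1 : ∀ x, φ2.f (a.f x) = a'.f (φ1.f x)) (h2 : ∀ x, φ3.f (b.f x) = b'.f (φ2.f x))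
    (q2 : φ2.QI) (q3 : φ3.QI) : φ1.QI := by
  refine ⟨fun x1 hx1 hy => ?_, fun y1 hy1 => ?_⟩
  · obtain ⟨y1, hy1⟩ := hy
    obtain ⟨z2, hz2⟩ := q2.1 (a.f x1) (by rw [a.d, hx1, map_zero]) ⟨a'.f y1, by
      rw [a'.d, hy1, h1]⟩
    obtain ⟨u, hu, w, hw⟩ := q2.2 (a'.f y1 - φ2.f z2) (by
      rw [map_sub, a'.d, hy1, φ2.d, hz2, h1, sub_self])
    -- `x2 = -z2 - u`
    obtain ⟨z3, hz3⟩ := q3.1 (b.f (-z2 - u)) (by
      rw [b.d, map_sub, map_neg, hz2, hu, sub_zero, map_neg, hX.zero, neg_zero])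
      ⟨b'.f w, by
        rw [b'.d, hw, h2]
        simp only [map_sub, map_neg, hY.zero]
        abel⟩
    obtain ⟨s1, s2, k1, k2⟩ := hX.inj x1 (-z2 - u) z3 hx1 (by
      rw [map_sub, map_neg, hz2, hu]
      abel) hz3.symm
    exact ⟨-s1, by rw [map_neg]; exact k1.symm⟩
  · obtain ⟨x2, hx2, w, hw⟩ := q2.2 (a'.f y1) (by rw [a'.d, hy1, map_zero])
    obtain ⟨z3, hz3⟩ := q3.1 (b.f x2) (by rw [b.d, hx2, map_zero]) ⟨-b'.f w, by
      rw [map_neg, b'.d, hw, map_sub, hY.zero, h2]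
      abel⟩
    obtain ⟨u, t, k1, k2⟩ := hX.inj 0 x2 z3 (map_zero _) (by rw [map_zero, hx2, add_zero])
      hz3.symm
    have hu : X1.dg.d u = 0 := by
      rw [← neg_eq_zero]
      exact k1.symm
    have hv : Y2.dg.d (φ2.f t + w) = a'.f (y1 - φ1.f u) := by
      rw [map_add, hw, φ2.d, map_sub, ← h1]
      rw [k2, map_add]
      abel
    obtain ⟨x3, hx3, w3, hw3⟩ := q3.2 (b'.f (φ2.f t + w)) (by rw [b'.d, hv, hY.zero])
    obtain ⟨s1, s2, t3, l1, l2, l3⟩ := hX.surj x3 hx3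
    have l2' := eq_neg_of_add_eq_zero_right l2
    obtain ⟨c1, c2, m1, m2⟩ := hY.inj (φ1.f s1 + (y1 - φ1.f u)) (φ2.f s2 - (φ2.f t + w))
      (-(φ3.f t3 + w3)) (by
        rw [map_add, map_sub, φ1.d, φ1.d, l1, hy1, hu, map_zero]
        abel) (by
        rw [map_add a'.f, map_sub Y2.dg.d, hv, φ2.d, l2', map_neg, h1]
        abel) (by
        rw [map_neg, map_add Y3.dg.d, hw3, l3, φ3.d, map_sub b'.f, ← h2, map_add φ3.f]
        abel)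
    refine ⟨u - s1, by rw [map_sub, hu, l1, sub_zero], -c1, ?_⟩
    rw [map_neg, ← m1, map_sub]
    abel

/-- A family of maps which decomposes the identity.

PROOF. Injective: let `d x = 0`, `φ x = d y`. Then `φ_j (p_j x) = p'_j (φ x) = d (p'_j y)`, so
`p_j x = d z_j` and `x = ∑ i_j (p_j x) = d (∑ i_j z_j)`. Surjective: let `d y = 0`; `p'_j y = φ_j x_j + d _`
with `d x_j = 0`, and `y = ∑ i'_j (p'_j y) = φ (∑ i_j x_j) + d _`. -/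
theorem qi_of_sum {J : Type} [Fintype J] {T Q : Cx k} {Tj Qj : J → Cx k} (φ : CHom T Q)
    (φj : ∀ j, CHom (Tj j) (Qj j)) (i : ∀ j, CHom (Tj j) T) (p : ∀ j, CHom T (Tj j))
    (i' : ∀ j, CHom (Qj j) Q) (p' : ∀ j, CHom Q (Qj j))
    (h : ∀ x, ∑ j, (i j).f ((p j).f x) = x) (h' : ∀ x, ∑ j, (i' j).f ((p' j).f x) = x)
    (hi : ∀ j x, φ.f ((i j).f x) = (i' j).f ((φj j).f x))
    (hp : ∀ j x, (φj j).f ((p j).f x) = (p' j).f (φ.f x)) (hφ : ∀ j, (φj j).QI) : φ.QI := by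
  refine ⟨fun x hx hy => ?_, fun y hy => ?_⟩
  · obtain ⟨y, hy⟩ := hy
    have h1 : ∀ j, ∃ z, (Tj j).dg.d z = (p j).f x := fun j =>
      (hφ j).1 _ (by rw [(p j).d, hx, map_zero]) ⟨(p' j).f y, by rw [(p' j).d, hy, hp]⟩
    choose z hz using h1
    refine ⟨∑ j, (i j).f (z j), ?_⟩
    rw [map_sum]
    conv_rhs => rw [← h x]
    exact Finset.sum_congr rfl fun j _ => by rw [(i j).d, hz]
  · have h1 : ∀ j, ∃ x, (Tj j).dg.d x = 0 ∧ ∃ w, (Qj j).dg.d w = (p' j).f y - (φj j).f x :=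
      fun j => (hφ j).2 _ (by rw [(p' j).d, hy, map_zero])
    choose x hx w hw using h1
    refine ⟨∑ j, (i j).f (x j), ?_, ∑ j, (i' j).f (w j), ?_⟩
    · rw [map_sum]
      exact Finset.sum_eq_zero fun j _ => by rw [(i j).d, hx, map_zero]
    · rw [map_sum, map_sum]
      conv_rhs => rw [← h' y]
      rw [← Finset.sum_sub_distrib]
      exact Finset.sum_congr rfl fun j _ => by rw [(i' j).d, hw, map_sub, hi]

/-- A retract of a quasi-isomorphism.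

PROOF. Injective: `φ' x = d y` implies `φ (i x) = d (i' y)`, `i x = d z`, `x = p (i x) = d (p z)`.
Surjective: `i' y = φ x + d _`, `y = p' (i' y) = φ' (p x) + d _`. -/
theorem qi_retract {T Q T' Q' : Cx k} (φ : CHom T Q) (φ' : CHom T' Q') (i : CHom T' T)
    (p : CHom T T') (i' : CHom Q' Q) (p' : CHom Q Q') (h : ∀ x, p.f (i.f x) = x)
    (h' : ∀ x, p'.f (i'.f x) = x) (hi : ∀ x, φ.f (i.f x) = i'.f (φ'.f x))
    (hp : ∀ x, φ'.f (p.f x) = p'.f (φ.f x)) (hφ : φ.QI) : φ'.QI := by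
  refine ⟨fun x hx hy => ?_, fun y hy => ?_⟩
  · obtain ⟨y, hy⟩ := hy
    obtain ⟨z, hz⟩ := hφ.1 (i.f x) (by rw [i.d, hx, map_zero]) ⟨i'.f y, by rw [i'.d, hy, hi]⟩
    exact ⟨p.f z, by rw [p.d, hz, h]⟩
  · obtain ⟨x, hx, w, hw⟩ := hφ.2 (i'.f y) (by rw [i'.d, hy, map_zero])
    exact ⟨p.f x, by rw [p.d, hx, map_zero], p'.f w, by rw [p'.d, hw, map_sub, h', hp]⟩

end Pool.Agent.MP_6e5bed_ag_PS
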