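import Pool.Agent.Lib.MP_6e5bed_ag_PS.Pc

set_option autoImplicit false
set_option linter.unusedVariables false

/-!
# MP_6e5bed_ag, NC PRODUCT SURFACES: exactness of the Čech complex of three charts
-/

noncomputable section

namespace Pool.Agent.MP_6e5bed_ag_PS

open Pool.Agent.MP_6e5bed_ag_NC
open Pool.Agent.MP_6e5bed_ag_NS

universe u

variable {k : Type u} [Field k]

section RFour

variable (V : PC k)

private abbrev RFour_X1 (c : FS k) : Cx k := (cC V [xx k 0]).X c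

/-- The element with the component `v`. -/
private def RFour_m1 (c : FS k) (v : (V.X (c.ins (xx k 0))).V) : (RFour_X1 V c).V :=
  (((PUnit.unit, v), PUnit.unit) : (PUnit.{u + 1} × (V.X (c.ins (xx k 0))).V) × PUnit.{u + 1})

private theorem RFour_d1 (dV : ∀ c x, (V.X c).dg.d x = 0) (c : FS k)
    (v : (V.X (c.ins (xx k 0))).V) :
    (RFour_X1 V c).dg.d (RFour_m1 V c v) = RFour_m1 V c 0 := by
  refine (co_d (r0 := (WC.nil V).ρ (le_ins c (xx k 0)))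
    (r1 := (WC.nil V).a (c.ins (xx k 0))) PUnit.unit v PUnit.unit).trans ?_
  exact Prod.ext (Prod.ext rfl (dV _ v)) rfl

private theorem RFour_ρ1 {c d : FS k} (h : c ≤ d) (v : (V.X (c.ins (xx k 0))).V) :
    ((cC V [xx k 0]).ρ h).f (RFour_m1 V c v) =
      RFour_m1 V d ((V.ρ (ins_mono h (xx k 0))).f v) := rfl

private theorem RFour_a1 (c : Ch k) (v : (V.X c).V) :
    ((cC V [xx k 0]).a c).f v = RFour_m1 V c.fs ((V.ρ (le_ins' c (xx k 0))).f v) := rfl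

private theorem RFour_sub1 (c : FS k) (v v' : (V.X (c.ins (xx k 0))).V) :
    RFour_m1 V c v - RFour_m1 V c v' = RFour_m1 V c (v - v') := rfl

private abbrev RFour_X2 (c : FS k) : Cx k := (cC V [xx k 1, xx k 0]).X c

/-- The element with the components `v0`, `v1`, `v01`. -/
private def RFour_m2 (c : FS k) (v0 : (V.X (c.ins (xx k 0))).V) (v1 : (V.X (c.ins (xx k 1))).V)
    (v01 : (V.X ((c.ins (xx k 1)).fs.ins (xx k 0))).V) : (RFour_X2 V c).V :=
  (((RFour_m1 V c v0, v1), RFour_m1 V (c.ins (xx k 1)).fs v01) :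
    ((RFour_X1 V c).V × (V.X (c.ins (xx k 1))).V) × (RFour_X1 V (c.ins (xx k 1)).fs).V)

private theorem RFour_d2 (dV : ∀ c x, (V.X c).dg.d x = 0) (c : FS k)
    (v0 : (V.X (c.ins (xx k 0))).V) (v1 : (V.X (c.ins (xx k 1))).V)
    (v01 : (V.X ((c.ins (xx k 1)).fs.ins (xx k 0))).V) :
    (RFour_X2 V c).dg.d (RFour_m2 V c v0 v1 v01) = RFour_m2 V c 0 0
      ((V.ρ (le_ins' (c.ins (xx k 1)) (xx k 0))).f v1 -
        (V.ρ (ins_mono (le_ins c (xx k 1)) (xx k 0))).f v0) := by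
  refine (co_d (r0 := (cC V [xx k 0]).ρ (le_ins c (xx k 1)))
    (r1 := (cC V [xx k 0]).a (c.ins (xx k 1))) (RFour_m1 V c v0) v1
    (RFour_m1 V (c.ins (xx k 1)).fs v01)).trans ?_
  refine Prod.ext (Prod.ext (RFour_d1 V dV c v0) (dV _ v1)) ?_
  change ((cC V [xx k 0]).a (c.ins (xx k 1))).f v1 -
    ((cC V [xx k 0]).ρ (le_ins c (xx k 1))).f (RFour_m1 V c v0) -
    (RFour_X1 V (c.ins (xx k 1)).fs).dg.d (RFour_m1 V (c.ins (xx k 1)).fs v01) =
    RFour_m1 V (c.ins (xx k 1)).fs ((V.ρ (le_ins' (c.ins (xx k 1)) (xx k 0))).f v1 -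
        (V.ρ (ins_mono (le_ins c (xx k 1)) (xx k 0))).f v0)
  rw [RFour_a1, RFour_ρ1, RFour_d1 V dV, RFour_sub1, RFour_sub1, sub_zero]

private theorem RFour_ρ2 {c d : FS k} (h : c ≤ d) (v0 : (V.X (c.ins (xx k 0))).V)
    (v1 : (V.X (c.ins (xx k 1))).V) (v01 : (V.X ((c.ins (xx k 1)).fs.ins (xx k 0))).V) :
    ((cC V [xx k 1, xx k 0]).ρ h).f (RFour_m2 V c v0 v1 v01) =
      RFour_m2 V d ((V.ρ (ins_mono h (xx k 0))).f v0) ((V.ρ (ins_mono h (xx k 1))).f v1)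
        ((V.ρ (ins_mono (fs_mono (ins_mono h (xx k 1))) (xx k 0))).f v01) := rfl

private theorem RFour_a2 (c : Ch k) (v : (V.X c).V) :
    ((cC V [xx k 1, xx k 0]).a c).f v = RFour_m2 V c.fs ((V.ρ (le_ins' c (xx k 0))).f v)
      ((V.ρ (le_ins' c (xx k 1))).f v) 0 := rfl

private theorem RFour_sub2 (c : FS k) (v0 v0' : (V.X (c.ins (xx k 0))).V)
    (v1 v1' : (V.X (c.ins (xx k 1))).V)
    (v01 v01' : (V.X ((c.ins (xx k 1)).fs.ins (xx k 0))).V) :
    RFour_m2 V c v0 v1 v01 - RFour_m2 V c v0' v1' v01' =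
      RFour_m2 V c (v0 - v0') (v1 - v1') (v01 - v01') := rfl

private abbrev RFour_X3 (c : FS k) : Cx k := (cC V [xx k 2, xx k 1, xx k 0]).X c

/-- The element with the components `v0`, `v1`, `v01`, `v2`, `v02`, `v12`, `v012`. -/
private def RFour_m3 (c : FS k) (v0 : (V.X (c.ins (xx k 0))).V) (v1 : (V.X (c.ins (xx k 1))).V)
    (v01 : (V.X ((c.ins (xx k 1)).fs.ins (xx k 0))).V) (v2 : (V.X (c.ins (xx k 2))).V)
    (v02 : (V.X ((c.ins (xx k 2)).fs.ins (xx k 0))).V)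
    (v12 : (V.X ((c.ins (xx k 2)).fs.ins (xx k 1))).V)
    (v012 : (V.X (((c.ins (xx k 2)).fs.ins (xx k 1)).fs.ins (xx k 0))).V) : (RFour_X3 V c).V :=
  (((RFour_m2 V c v0 v1 v01, v2), RFour_m2 V (c.ins (xx k 2)).fs v02 v12 v012) :
    ((RFour_X2 V c).V × (V.X (c.ins (xx k 2))).V) × (RFour_X2 V (c.ins (xx k 2)).fs).V)

private theorem RFour_eta3 (c : FS k) (x : (RFour_X3 V c).V) :
    ∃ v0 v1 v01 v2 v02 v12 v012, x = RFour_m3 V c v0 v1 v01 v2 v02 v12 v012 :=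
  ⟨x.1.1.1.1.1.2, x.1.1.1.2, x.1.1.2.1.2, x.1.2, x.2.1.1.1.2, x.2.1.2, x.2.2.1.2, rfl⟩

private theorem RFour_d3 (dV : ∀ c x, (V.X c).dg.d x = 0) (c : FS k)
    (v0 : (V.X (c.ins (xx k 0))).V) (v1 : (V.X (c.ins (xx k 1))).V)
    (v01 : (V.X ((c.ins (xx k 1)).fs.ins (xx k 0))).V) (v2 : (V.X (c.ins (xx k 2))).V)
    (v02 : (V.X ((c.ins (xx k 2)).fs.ins (xx k 0))).V)
    (v12 : (V.X ((c.ins (xx k 2)).fs.ins (xx k 1))).V)
    (v012 : (V.X (((c.ins (xx k 2)).fs.ins (xx k 1)).fs.ins (xx k 0))).V) :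
    (RFour_X3 V c).dg.d (RFour_m3 V c v0 v1 v01 v2 v02 v12 v012) = RFour_m3 V c 0 0
      ((V.ρ (le_ins' (c.ins (xx k 1)) (xx k 0))).f v1 -
        (V.ρ (ins_mono (le_ins c (xx k 1)) (xx k 0))).f v0) 0
      ((V.ρ (le_ins' (c.ins (xx k 2)) (xx k 0))).f v2 -
        (V.ρ (ins_mono (le_ins c (xx k 2)) (xx k 0))).f v0)
      ((V.ρ (le_ins' (c.ins (xx k 2)) (xx k 1))).f v2 -
        (V.ρ (ins_mono (le_ins c (xx k 2)) (xx k 1))).f v1)
      (0 - (V.ρ (ins_mono (fs_mono (ins_mono (le_ins c (xx k 2)) (xx k 1))) (xx k 0))).f v01 -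
        ((V.ρ (le_ins' ((c.ins (xx k 2)).fs.ins (xx k 1)) (xx k 0))).f v12 -
          (V.ρ (ins_mono (le_ins (c.ins (xx k 2)).fs (xx k 1)) (xx k 0))).f v02)) := by
  refine (co_d (r0 := (cC V [xx k 1, xx k 0]).ρ (le_ins c (xx k 2)))
    (r1 := (cC V [xx k 1, xx k 0]).a (c.ins (xx k 2))) (RFour_m2 V c v0 v1 v01) v2
    (RFour_m2 V (c.ins (xx k 2)).fs v02 v12 v012)).trans ?_
  refine Prod.ext (Prod.ext (RFour_d2 V dV c v0 v1 v01) (dV _ v2)) ?_
  change ((cC V [xx k 1, xx k 0]).a (c.ins (xx k 2))).f v2 -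
    ((cC V [xx k 1, xx k 0]).ρ (le_ins c (xx k 2))).f (RFour_m2 V c v0 v1 v01) -
    (RFour_X2 V (c.ins (xx k 2)).fs).dg.d (RFour_m2 V (c.ins (xx k 2)).fs v02 v12 v012) =
    RFour_m2 V (c.ins (xx k 2)).fs _ _ _
  rw [RFour_a2, RFour_ρ2, RFour_d2 V dV, RFour_sub2, RFour_sub2, sub_zero, sub_zero]

private theorem RFour_sub3 (c : FS k) (v0 v0' : (V.X (c.ins (xx k 0))).V)
    (v1 v1' : (V.X (c.ins (xx k 1))).V)
    (v01 v01' : (V.X ((c.ins (xx k 1)).fs.ins (xx k 0))).V) (v2 v2' : (V.X (c.ins (xx k 2))).V)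
    (v02 v02' : (V.X ((c.ins (xx k 2)).fs.ins (xx k 0))).V)
    (v12 v12' : (V.X ((c.ins (xx k 2)).fs.ins (xx k 1))).V)
    (v012 v012' : (V.X (((c.ins (xx k 2)).fs.ins (xx k 1)).fs.ins (xx k 0))).V) :
    RFour_m3 V c v0 v1 v01 v2 v02 v12 v012 - RFour_m3 V c v0' v1' v01' v2' v02' v12' v012' =
      RFour_m3 V c (v0 - v0') (v1 - v1') (v01 - v01') (v2 - v2') (v02 - v02') (v12 - v12')
        (v012 - v012') := rfl

private theorem RFour_inj3 (c : FS k) {v0 v0' : (V.X (c.ins (xx k 0))).V}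
    {v1 v1' : (V.X (c.ins (xx k 1))).V}
    {v01 v01' : (V.X ((c.ins (xx k 1)).fs.ins (xx k 0))).V} {v2 v2' : (V.X (c.ins (xx k 2))).V}
    {v02 v02' : (V.X ((c.ins (xx k 2)).fs.ins (xx k 0))).V}
    {v12 v12' : (V.X ((c.ins (xx k 2)).fs.ins (xx k 1))).V}
    {v012 v012' : (V.X (((c.ins (xx k 2)).fs.ins (xx k 1)).fs.ins (xx k 0))).V}
    (h : RFour_m3 V c v0 v1 v01 v2 v02 v12 v012 = RFour_m3 V c v0' v1' v01' v2' v02' v12' v012') :
    v0 = v0' ∧ v1 = v1' ∧ v01 = v01' ∧ v2 = v2' ∧ v02 = v02' ∧ v12 = v12' ∧ v012 = v012' :=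
  ⟨congrArg (fun x : (RFour_X3 V c).V => x.1.1.1.1.1.2) h,
    congrArg (fun x : (RFour_X3 V c).V => x.1.1.1.2) h,
    congrArg (fun x : (RFour_X3 V c).V => x.1.1.2.1.2) h,
    congrArg (fun x : (RFour_X3 V c).V => x.1.2) h,
    congrArg (fun x : (RFour_X3 V c).V => x.2.1.1.1.2) h,
    congrArg (fun x : (RFour_X3 V c).V => x.2.1.2) h,
    congrArg (fun x : (RFour_X3 V c).V => x.2.2.1.2) h⟩

private theorem RFour_aug {X : Cx k} {V : PC k} (f : PCC X V) (x : X.V) :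
    ((f.aug (FF k)).g (FS.e k)).f x = RFour_m3 V (FS.e k) ((f.f _).f x) ((f.f _).f x) 0
      ((f.f _).f x) 0 0 0 := rfl

private theorem RFour_xx (i : Fin 3) : ({xx k i} : Set (LF k)) ⊆ Set.range (xx k) :=
  Set.singleton_subset_iff.2 ⟨i, rfl⟩

private theorem RFour_xx1 (i : Fin 3) : ((FS.e k).ins (xx k i)).1 ⊆ Set.range (xx k) :=
  Set.insert_subset ⟨i, rfl⟩ (Set.empty_subset _)

private theorem RFour_xx2 (i : Fin 3) {c : Ch k} (h : c.1 ⊆ Set.range (xx k)) :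
    (c.fs.ins (xx k i)).1 ⊆ Set.range (xx k) :=
  Set.insert_subset ⟨i, rfl⟩ h

end RFour

/-- Exactness of the Čech complex for the three coordinate charts, for a presheaf of vector spaces
(that is, the differentials are zero) which is contained in a constant one `H`, with a partition of
unity.

PROOF. `X.V` and `(V.X c).V` are identified with the subspaces `S = range e`, `S c = range (E c)` of
`H` (for coordinate charts, that is `c.1 ⊆ Set.range (xx k)`). Write `S i, S i j, S i j l` for the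
charts `{xx i}`, `{xx i, xx j}`, `{xx i, xx j, xx l}` (the charts which occur in
`(cC V (FF k)).X (FS.e k)` are of this form; `FF k = [xx 2, xx 1, xx 0]`). An element of
`(cC V (FF k)).X (FS.e k)` has, besides `PUnit` entries, the components
`a_i ∈ S i`, `b_ij ∈ S i j` (`i < j`), `t ∈ S 0 1 2`; by `co_d` the differential is
`(a, b, t) ↦ (0, (± (a_i - a_j))_ij, ± (b_12 - b_02 + b_01))` (all signs come from `co_d`:
`d (x0, x1, ξ) = (d x0, d x1, r1 x1 - r0 x0 - d ξ)`; compare the explicit description of this complex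
in `StB.lean` of `MP_6e5bed_ag_NS`, `StB_m3`, `StB_d3`). The augmentation is
`x ↦ (a_i = x, 0, 0)`.
Injective in cohomology: the differential of `X` is zero, and if the image of `x` is a boundary, then
the components `a_i` of a boundary are `0`, so `x = 0` because `e` is injective.
Surjective in cohomology: let `(a, b, t)` be a cycle. Then all `a_i` are the same element `x` of `H`;
`x ∈ S i` for all `i`, so for large `n` all `β n i x ∈ S` (`hX`), and `x = ∑ β n i x ∈ S`. So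
`(a, 0, 0)` is in the image. `b` is a cocycle: (with `b_ji = - b_ij`, `b_ii = 0`, and suitable signs)
`b_ij + b_jl = b_il` in `H`. For large `n` let `y_i = ∑_j β n j b_ji ∈ S i` (`hV`, as
`b_ji ∈ S (i, j)`). Then `y_l - y_i = ∑_j β n j (b_jl - b_ji) = ∑_j β n j b_il = b_il`, so `(0, b, 0)`
is a boundary. Finally `t = ∑_j β n j t` with `β n j t ∈ S ({0,1,2} - j)` for large `n` (`hV`), so
`(0, 0, t)` is a boundary. -/
theorem rfour {X : Cx k} {V : PC k} (f : PCC X V) (dX : ∀ x, X.dg.d x = 0)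
    (dV : ∀ c x, (V.X c).dg.d x = 0) {H : Type u} [AddCommGroup H] [Module k H]
    (e : X.V →ₗ[k] H) (E : ∀ c, (V.X c).V →ₗ[k] H) (he : Function.Injective e)
    (hE : ∀ c : Ch k, c.1 ⊆ Set.range (xx k) → Function.Injective (E c))
    (hf : ∀ c x, E c ((f.f c).f x) = e x)
    (hr : ∀ {c d : Ch k} (h : c ≤ d) x, E d ((V.ρ h).f x) = E c x)
    (β : ℕ → Fin 3 → H →ₗ[k] H) (hβ : ∀ n x, ∑ j, β n j x = x)
    (hX : ∀ (j : Fin 3) (x : (V.X (Ch.sgl (xx k j))).V),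
      ∃ n0, ∀ n ≥ n0, ∃ y, e y = β n j (E _ x))
    (hV : ∀ (c : Ch k), c.1 ⊆ Set.range (xx k) → ∀ (j : Fin 3) (x : (V.X (c.ins (xx k j))).V),
      ∃ n0, ∀ n ≥ n0, ∃ y, E c y = β n j (E _ x)) : f.QIe := by
  have hX' : ∀ (j : Fin 3) (x : (V.X ((FS.e k).ins (xx k j))).V),
      ∃ n0, ∀ n ≥ n0, ∃ y, e y = β n j (E _ x) := by
    intro j
    have h1 : (FS.e k).ins (xx k j) = Ch.sgl (xx k j) :=
      Subtype.ext (insert_empty_eq (xx k j))
    rw [h1]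
    exact hX j
  have hV' : ∀ (c : Ch k), c.1 ⊆ Set.range (xx k) → ∀ (j : Fin 3) (c' : Ch k),
      c'.1 = insert (xx k j) c.1 → ∀ (x : (V.X c').V),
      ∃ n0, ∀ n ≥ n0, ∃ y, E c y = β n j (E c' x) := by
    intro c hc j c' hc'
    obtain rfl : c' = c.ins (xx k j) := Subtype.ext hc'
    exact hV c hc j
  have c0 := RFour_xx1 (k := k) 0
  have c1 := RFour_xx1 (k := k) 1
  have c2 := RFour_xx1 (k := k) 2
  have c01 := RFour_xx2 0 c1
  have c02 := RFour_xx2 0 c2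
  have c12 := RFour_xx2 1 c2
  have c012 := RFour_xx2 0 c12
  constructor
  · intro x _ hy
    obtain ⟨y, hy⟩ := hy
    obtain ⟨v0, v1, v01, v2, v02, v12, v012, rfl⟩ := RFour_eta3 V (FS.e k) y
    rw [RFour_aug] at hy
    have h1 := (RFour_inj3 V (FS.e k) ((RFour_d3 V dV (FS.e k) v0 v1 v01 v2 v02 v12 v012).symm.trans
      hy)).1
    have h2 : e x = 0 := by
      rw [← hf, ← h1, map_zero]
    have h3 : x = 0 := he (by rw [h2, map_zero])
    exact ⟨0, by rw [h3, map_zero]⟩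
  · intro y hy
    obtain ⟨v0, v1, v01, v2, v02, v12, v012, rfl⟩ := RFour_eta3 V (FS.e k) y
    have hz : (0 : (RFour_X3 V (FS.e k)).V) = RFour_m3 V (FS.e k) 0 0 0 0 0 0 0 := rfl
    obtain ⟨-, -, h01, -, h02, h12, h012⟩ := RFour_inj3 V (FS.e k)
      ((RFour_d3 V dV (FS.e k) v0 v1 v01 v2 v02 v12 v012).symm.trans (hy.trans hz))
    have e01 : E _ v1 = E _ v0 := by
      have h1 := congrArg (E _) h01
      rw [map_sub, hr, hr, map_zero, sub_eq_zero] at h1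
      exact h1
    have e02 : E _ v2 = E _ v0 := by
      have h1 := congrArg (E _) h02
      rw [map_sub, hr, hr, map_zero, sub_eq_zero] at h1
      exact h1
    have e012 : E _ v02 = E _ v01 + E _ v12 := by
      have h1 := congrArg (E _) h012
      rw [map_sub, map_sub, map_sub, hr, hr, hr, map_zero] at h1
      have h2 : E _ v02 - (E _ v01 + E _ v12) = 0 := by
        rw [← h1]
        abel
      exact sub_eq_zero.1 h2
    -- the component in degree `0`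
    obtain ⟨n0, hn0⟩ := hX' 0 v0
    obtain ⟨n1, hn1⟩ := hX' 1 v1
    obtain ⟨n2, hn2⟩ := hX' 2 v2
    obtain ⟨m0, hm0⟩ := hV' _ c1 0 _ rfl v01
    obtain ⟨m1, hm1⟩ := hV' _ c0 1 ((((FS.e k).ins (xx k 1)).fs.ins (xx k 0)))
      (Set.insert_comm _ _ _) v01
    obtain ⟨m2, hm2⟩ := hV' _ c2 0 _ rfl v02
    obtain ⟨m3, hm3⟩ := hV' _ c0 2 ((((FS.e k).ins (xx k 2)).fs.ins (xx k 0)))
      (Set.insert_comm _ _ _) v02
    obtain ⟨m4, hm4⟩ := hV' _ c2 1 _ rfl v12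
    obtain ⟨m5, hm5⟩ := hV' _ c1 2 ((((FS.e k).ins (xx k 2)).fs.ins (xx k 1)))
      (Set.insert_comm _ _ _) v12
    obtain ⟨l0, hl0⟩ := hV' _ c12 0 _ rfl v012
    obtain ⟨l1, hl1⟩ := hV' _ c02 1 (((((FS.e k).ins (xx k 2)).fs.ins (xx k 1)).fs.ins (xx k 0)))
      (Set.insert_comm _ _ _) v012
    obtain ⟨l2, hl2⟩ := hV' _ c01 2 (((((FS.e k).ins (xx k 2)).fs.ins (xx k 1)).fs.ins (xx k 0)))
      (by
        change insert (xx k 0) (insert (xx k 1) (insert (xx k 2) ∅)) =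
          insert (xx k 2) (insert (xx k 0) (insert (xx k 1) ∅))
        rw [Set.insert_comm (xx k 1), Set.insert_comm (xx k 0)]) v012
    obtain ⟨n, hn⟩ : ∃ n : ℕ, n0 ≤ n ∧ n1 ≤ n ∧ n2 ≤ n ∧ m0 ≤ n ∧ m1 ≤ n ∧ m2 ≤ n ∧ m3 ≤ n ∧
        m4 ≤ n ∧ m5 ≤ n ∧ l0 ≤ n ∧ l1 ≤ n ∧ l2 ≤ n :=
      ⟨n0 + n1 + n2 + m0 + m1 + m2 + m3 + m4 + m5 + l0 + l1 + l2, by omega⟩
    obtain ⟨a0, ha0⟩ := hn0 n hn.1
    obtain ⟨a1, ha1⟩ := hn1 n hn.2.1
    obtain ⟨a2, ha2⟩ := hn2 n hn.2.2.1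
    obtain ⟨p0, hp0⟩ := hm0 n hn.2.2.2.1
    obtain ⟨p1, hp1⟩ := hm1 n hn.2.2.2.2.1
    obtain ⟨p2, hp2⟩ := hm2 n hn.2.2.2.2.2.1
    obtain ⟨p3, hp3⟩ := hm3 n hn.2.2.2.2.2.2.1
    obtain ⟨p4, hp4⟩ := hm4 n hn.2.2.2.2.2.2.2.1
    obtain ⟨p5, hp5⟩ := hm5 n hn.2.2.2.2.2.2.2.2.1
    obtain ⟨q0, hq0⟩ := hl0 n hn.2.2.2.2.2.2.2.2.2.1
    obtain ⟨q1, hq1⟩ := hl1 n hn.2.2.2.2.2.2.2.2.2.2.1
    obtain ⟨q2, hq2⟩ := hl2 n hn.2.2.2.2.2.2.2.2.2.2.2
    have hb : ∀ x, β n 0 x + β n 1 x + β n 2 x = x := by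
      intro x
      have h1 := hβ n x
      rwa [Fin.sum_univ_three] at h1
    have ea : e (a0 + a1 + a2) = E _ v0 := by
      rw [map_add, map_add, ha0, ha1, ha2, e01, e02, hb]
    refine ⟨a0 + a1 + a2, dX _, RFour_m3 V (FS.e k) (-p1 - p3) (p0 - p5) (-q2) (p2 + p4) q1 (-q0) 0,
      ?_⟩
    rw [RFour_aug]
    refine (RFour_d3 V dV (FS.e k) _ _ _ _ _ _ _).trans ?_
    refine Eq.trans ?_ (RFour_sub3 V (FS.e k) _ _ _ _ _ _ _ _ _ _ _ _ _ _).symm
    have f0 : (0 : (V.X ((FS.e k).ins (xx k 0))).V) = v0 - (f.f _).f (a0 + a1 + a2) := by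
      apply hE _ c0
      rw [map_zero, map_sub, hf, ea, sub_self]
    have f1 : (0 : (V.X ((FS.e k).ins (xx k 1))).V) = v1 - (f.f _).f (a0 + a1 + a2) := by
      apply hE _ c1
      rw [map_zero, map_sub, hf, ea, e01, sub_self]
    have f2 : (0 : (V.X ((FS.e k).ins (xx k 2))).V) = v2 - (f.f _).f (a0 + a1 + a2) := by
      apply hE _ c2
      rw [map_zero, map_sub, hf, ea, e02, sub_self]
    rw [← f0, ← f1, ← f2, sub_zero, sub_zero, sub_zero, sub_zero]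
    congr 1
    · apply hE _ c01
      rw [map_sub, hr, hr, map_sub, map_sub, map_neg, hp0, hp5, hp1, hp3, e012, map_add]
      have h1 := hb (E _ v01)
      calc _ = β n 0 (E _ v01) + β n 1 (E _ v01) + β n 2 (E _ v01) := by abel
        _ = _ := h1
    · apply hE _ c02
      rw [map_sub, hr, hr, map_add, map_sub, map_neg, hp2, hp4, hp1, hp3]
      have h1 := hb (E _ v02)
      calc _ = β n 0 (E _ v02) + (β n 1 (E _ v01) + β n 1 (E _ v12)) + β n 2 (E _ v02) := by abel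
        _ = _ := by
          rw [← map_add, ← e012]
          exact h1
    · apply hE _ c12
      rw [map_sub, hr, hr, map_add, map_sub, hp2, hp4, hp0, hp5, e012, map_add]
      have h1 := hb (E _ v12)
      calc _ = β n 0 (E _ v12) + β n 1 (E _ v12) + β n 2 (E _ v12) := by abel
        _ = _ := h1
    · apply hE _ c012
      rw [map_sub, map_sub, map_sub, hr, hr, hr, map_zero, map_neg, map_neg, hq0, hq1, hq2]
      have h1 := hb (E _ v012)
      calc _ = β n 0 (E _ v012) + β n 1 (E _ v012) + β n 2 (E _ v012) := by abel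
        _ = _ := h1

end Pool.Agent.MP_6e5bed_ag_PS
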