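import Pool.Agent.Lib.MP_6e5bed_ag_PS.CoP
import Pool.Agent.Lib.MP_6e5bed_ag_PS.Ten

set_option autoImplicit false
set_option linter.unusedVariables false

/-!
# MP_6e5bed_ag, NC PRODUCT SURFACES: tensor products with the complex of a cospan
-/

noncomputable section

namespace Pool.Agent.MP_6e5bed_ag_PS

open Pool.Agent.MP_6e5bed_ag_NC
open Pool.Agent.MP_6e5bed_ag_NS
open scoped TensorProduct

universe u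

variable {k : Type u} [Field k] {V0 V1 V01 W : PC k} {X0 X1 X01 Y : Cx k}

/-! ### Elements of tensor products -/

private def TenCo_t (X Y : Cx k) (x : X.V) (y : Y.V) : (tenC X Y).V := x ⊗ₜ[k] y

private theorem TenCo_ext {X Y : Cx k} {U : Type u} [AddCommGroup U] [Module k U]
    {F G : (tenC X Y).V →ₗ[k] U} (h : ∀ x y, F (TenCo_t X Y x y) = G (TenCo_t X Y x y))
    (x : (tenC X Y).V) : F x = G x := LinearMap.congr_fun (TensorProduct.ext' h) x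

private theorem TenCo_t_d {X Y : Cx k} (x : X.V) (y : Y.V) :
    (tenC X Y).dg.d (TenCo_t X Y x y) =
      TenCo_t X Y (X.dg.d x) y + TenCo_t X Y (X.dg.s x) (Y.dg.d y) := Dg.tensor_d x y

private theorem TenCo_t_subL {X Y : Cx k} (x x' : X.V) (y : Y.V) :
    TenCo_t X Y (x - x') y = TenCo_t X Y x y - TenCo_t X Y x' y := TensorProduct.sub_tmul x x' y

private theorem TenCo_t_subR {X Y : Cx k} (x : X.V) (y y' : Y.V) :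
    TenCo_t X Y x (y - y') = TenCo_t X Y x y - TenCo_t X Y x y' := TensorProduct.tmul_sub x y y'

private theorem TenCo_t_negL {X Y : Cx k} (x : X.V) (y : Y.V) :
    TenCo_t X Y (- x) y = - TenCo_t X Y x y := TensorProduct.neg_tmul x y

private theorem TenCo_t_H {X Y X' Y' : Cx k} (f : CHom X X') (g : CHom Y Y') (x : X.V) (y : Y.V) :
    (tenH f g).f (TenCo_t X Y x y) = TenCo_t X' Y' (f.f x) (g.f y) := rfl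

private theorem TenCo_mk_add (r0 : CHom X0 X01) (r1 : CHom X1 X01) (x0 y0 : X0.V) (x1 y1 : X1.V)
    (ξ υ : X01.V) : co.mk r0 r1 x0 x1 ξ + co.mk r0 r1 y0 y1 υ =
      co.mk r0 r1 (x0 + y0) (x1 + y1) (ξ + υ) := rfl

/-! ### The isomorphisms -/

/-- `((x0, x1), ξ) ⊗ y ↦ ((x0 ⊗ y, x1 ⊗ y), ξ ⊗ y)` -/
private def TenCo_eL (X0 X1 X01 Y : Cx k) : ((X0.V × X1.V) × X01.V) ⊗[k] Y.V ≃ₗ[k]
    ((X0.V ⊗[k] Y.V) × (X1.V ⊗[k] Y.V)) × (X01.V ⊗[k] Y.V) :=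
  (TensorProduct.prodLeft k k (X0.V × X1.V) X01.V Y.V).trans
    (LinearEquiv.prodCongr (TensorProduct.prodLeft k k X0.V X1.V Y.V) (LinearEquiv.refl k _))

/-- `y ⊗ ξ ↦ s y ⊗ ξ` -/
private def TenCo_sig (X Y : Cx k) : Y.V ⊗[k] X.V ≃ₗ[k] Y.V ⊗[k] X.V :=
  LinearEquiv.ofInvolutive (TensorProduct.map Y.dg.s LinearMap.id) (fun x => by
    induction x using TensorProduct.induction_on with
    | zero => rw [map_zero, map_zero]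
    | add x y hx hy => rw [map_add, map_add, hx, hy]
    | tmul a b => rw [TensorProduct.map_tmul, TensorProduct.map_tmul, Dg.s_s]; rfl)

/-- `y ⊗ ((x0, x1), ξ) ↦ ((y ⊗ x0, y ⊗ x1), s y ⊗ ξ)` -/
private def TenCo_eR (X0 X1 X01 Y : Cx k) : Y.V ⊗[k] ((X0.V × X1.V) × X01.V) ≃ₗ[k]
    ((Y.V ⊗[k] X0.V) × (Y.V ⊗[k] X1.V)) × (Y.V ⊗[k] X01.V) :=
  (TensorProduct.prodRight k k Y.V (X0.V × X1.V) X01.V).trans
    (LinearEquiv.prodCongr (TensorProduct.prodRight k k Y.V X0.V X1.V) (TenCo_sig X01 Y))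

/-- the underlying linear map -/
private def TenCo_fL (ρ0 : CHom X0 X01) (ρ1 : CHom X1 X01) (Y : Cx k) :
    (tenC (co ρ0 ρ1) Y).V →ₗ[k] (co (tenH ρ0 (CHom.id Y)) (tenH ρ1 (CHom.id Y))).V :=
  (TenCo_eL X0 X1 X01 Y).toLinearMap

/-- the underlying linear map -/
private def TenCo_fR (ρ0 : CHom X0 X01) (ρ1 : CHom X1 X01) (Y : Cx k) :
    (tenC Y (co ρ0 ρ1)).V →ₗ[k] (co (tenH (CHom.id Y) ρ0) (tenH (CHom.id Y) ρ1)).V :=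
  (TenCo_eR X0 X1 X01 Y).toLinearMap

private theorem TenCo_fL_t (ρ0 : CHom X0 X01) (ρ1 : CHom X1 X01) (x0 : X0.V) (x1 : X1.V)
    (ξ : X01.V) (y : Y.V) : TenCo_fL ρ0 ρ1 Y (TenCo_t (co ρ0 ρ1) Y (co.mk ρ0 ρ1 x0 x1 ξ) y) =
      co.mk (tenH ρ0 (CHom.id Y)) (tenH ρ1 (CHom.id Y)) (TenCo_t X0 Y x0 y) (TenCo_t X1 Y x1 y)
        (TenCo_t X01 Y ξ y) := rfl

private theorem TenCo_fR_t (ρ0 : CHom X0 X01) (ρ1 : CHom X1 X01) (x0 : X0.V) (x1 : X1.V)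
    (ξ : X01.V) (y : Y.V) : TenCo_fR ρ0 ρ1 Y (TenCo_t Y (co ρ0 ρ1) y (co.mk ρ0 ρ1 x0 x1 ξ)) =
      co.mk (tenH (CHom.id Y) ρ0) (tenH (CHom.id Y) ρ1) (TenCo_t Y X0 y x0) (TenCo_t Y X1 y x1)
        (TenCo_t Y X01 (Y.dg.s y) ξ) := rfl

private theorem TenCo_dL (ρ0 : CHom X0 X01) (ρ1 : CHom X1 X01) (x : (tenC (co ρ0 ρ1) Y).V) :
    (co (tenH ρ0 (CHom.id Y)) (tenH ρ1 (CHom.id Y))).dg.d (TenCo_fL ρ0 ρ1 Y x) =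
      TenCo_fL ρ0 ρ1 Y ((tenC (co ρ0 ρ1) Y).dg.d x) := by
  refine TenCo_ext (F := (co (tenH ρ0 (CHom.id Y)) (tenH ρ1 (CHom.id Y))).dg.d ∘ₗ
    TenCo_fL ρ0 ρ1 Y) (G := TenCo_fL ρ0 ρ1 Y ∘ₗ (tenC (co ρ0 ρ1) Y).dg.d) (fun x y => ?_) x
  obtain ⟨x0, x1, ξ, rfl⟩ : ∃ x0 x1 ξ, x = co.mk ρ0 ρ1 x0 x1 ξ := ⟨x.1.1, x.1.2, x.2, rfl⟩
  have hr : (tenC (co ρ0 ρ1) Y).dg.d (TenCo_t (co ρ0 ρ1) Y (co.mk ρ0 ρ1 x0 x1 ξ) y) =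
      TenCo_t (co ρ0 ρ1) Y (co.mk ρ0 ρ1 (X0.dg.d x0) (X1.dg.d x1)
        (ρ1.f x1 - ρ0.f x0 - X01.dg.d ξ)) y +
      TenCo_t (co ρ0 ρ1) Y (co.mk ρ0 ρ1 (X0.dg.s x0) (X1.dg.s x1) (- X01.dg.s ξ)) (Y.dg.d y) := by
    rw [TenCo_t_d, co_d, co_s]
  rw [LinearMap.comp_apply, LinearMap.comp_apply, hr, map_add, TenCo_fL_t, TenCo_fL_t,
    TenCo_fL_t, co_d, TenCo_mk_add, TenCo_t_d, TenCo_t_d, TenCo_t_d, TenCo_t_H,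
    TenCo_t_H, TenCo_t_subL, TenCo_t_subL, TenCo_t_negL]
  refine congrArg (co.mk _ _ _ _) ?_
  change TenCo_t X01 Y (ρ1.f x1) y - TenCo_t X01 Y (ρ0.f x0) y - (_ + _) = _ - _ - _ + - _
  abel

private theorem TenCo_dR (ρ0 : CHom X0 X01) (ρ1 : CHom X1 X01) (x : (tenC Y (co ρ0 ρ1)).V) :
    (co (tenH (CHom.id Y) ρ0) (tenH (CHom.id Y) ρ1)).dg.d (TenCo_fR ρ0 ρ1 Y x) =
      TenCo_fR ρ0 ρ1 Y ((tenC Y (co ρ0 ρ1)).dg.d x) := by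
  refine TenCo_ext (F := (co (tenH (CHom.id Y) ρ0) (tenH (CHom.id Y) ρ1)).dg.d ∘ₗ
    TenCo_fR ρ0 ρ1 Y) (G := TenCo_fR ρ0 ρ1 Y ∘ₗ (tenC Y (co ρ0 ρ1)).dg.d) (fun y x => ?_) x
  obtain ⟨x0, x1, ξ, rfl⟩ : ∃ x0 x1 ξ, x = co.mk ρ0 ρ1 x0 x1 ξ := ⟨x.1.1, x.1.2, x.2, rfl⟩
  have hr : (tenC Y (co ρ0 ρ1)).dg.d (TenCo_t Y (co ρ0 ρ1) y (co.mk ρ0 ρ1 x0 x1 ξ)) =
      TenCo_t Y (co ρ0 ρ1) (Y.dg.d y) (co.mk ρ0 ρ1 x0 x1 ξ) +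
      TenCo_t Y (co ρ0 ρ1) (Y.dg.s y) (co.mk ρ0 ρ1 (X0.dg.d x0) (X1.dg.d x1)
        (ρ1.f x1 - ρ0.f x0 - X01.dg.d ξ)) := by
    rw [TenCo_t_d, co_d]
  rw [LinearMap.comp_apply, LinearMap.comp_apply, hr, map_add, TenCo_fR_t, TenCo_fR_t,
    TenCo_fR_t, co_d, TenCo_mk_add, TenCo_t_d, TenCo_t_d, TenCo_t_d, TenCo_t_H,
    TenCo_t_H, Dg.s_s, TenCo_t_subR, TenCo_t_subR, Dg.s_d, TenCo_t_negL]
  refine congrArg (co.mk _ _ _ _) ?_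
  change TenCo_t Y X01 y (ρ1.f x1) - TenCo_t Y X01 y (ρ0.f x0) - (_ + _) = _ + (_ - _ - _)
  abel

/-- the isomorphism from `tenC (co ρ0 ρ1) Y` -/
private def TenCo_iL (ρ0 : CHom X0 X01) (ρ1 : CHom X1 X01) (Y : Cx k) :
    CHom (tenC (co ρ0 ρ1) Y) (co (tenH ρ0 (CHom.id Y)) (tenH ρ1 (CHom.id Y))) where
  f := TenCo_fL ρ0 ρ1 Y
  deg := fun {i x} hx => by
    have h := Dg.tensor_degMap (X := (co ρ0 ρ1).dg) (Y := Y.dg)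
      (Z := (co (tenH ρ0 (CHom.id Y)) (tenH ρ1 (CHom.id Y))).dg) (n := 0)
      (TenCo_fL ρ0 ρ1 Y) (fun i j v w hv hw => by
        obtain ⟨⟨x0, x1⟩, ξ⟩ := v
        have h' := co_deg.1 hv
        rw [add_zero]
        refine co_deg.2 ⟨Dg.tensor_deg h'.1 hw, Dg.tensor_deg h'.2.1 hw, ?_⟩
        rw [add_right_comm]
        exact Dg.tensor_deg h'.2.2 hw) hx
    rwa [add_zero] at h
  d := TenCo_dL ρ0 ρ1

/-- the isomorphism from `tenC Y (co ρ0 ρ1)` -/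
private def TenCo_iR (ρ0 : CHom X0 X01) (ρ1 : CHom X1 X01) (Y : Cx k) :
    CHom (tenC Y (co ρ0 ρ1)) (co (tenH (CHom.id Y) ρ0) (tenH (CHom.id Y) ρ1)) where
  f := TenCo_fR ρ0 ρ1 Y
  deg := fun {i x} hx => by
    have h := Dg.tensor_degMap (X := Y.dg) (Y := (co ρ0 ρ1).dg)
      (Z := (co (tenH (CHom.id Y) ρ0) (tenH (CHom.id Y) ρ1)).dg) (n := 0)
      (TenCo_fR ρ0 ρ1 Y) (fun i j w v hw hv => by
        obtain ⟨⟨x0, x1⟩, ξ⟩ := v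
        have h' := co_deg.1 hv
        rw [add_zero]
        refine co_deg.2 ⟨Dg.tensor_deg hw h'.1, Dg.tensor_deg hw h'.2.1, ?_⟩
        rw [add_assoc]
        exact Dg.tensor_deg hw.s h'.2.2) hx
    rwa [add_zero] at h
  d := TenCo_dR ρ0 ρ1

private theorem TenCo_iL_qi (ρ0 : CHom X0 X01) (ρ1 : CHom X1 X01) (Y : Cx k) :
    (TenCo_iL ρ0 ρ1 Y).QI := CHom.QI.of_bij (TenCo_eL X0 X1 X01 Y).bijective

private theorem TenCo_iR_qi (ρ0 : CHom X0 X01) (ρ1 : CHom X1 X01) (Y : Cx k) :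
    (TenCo_iR ρ0 ρ1 Y).QI := CHom.QI.of_bij (TenCo_eR X0 X1 X01 Y).bijective

/-! ### Naturality -/

variable {Z0 Z1 Z01 Z : Cx k}

private theorem TenCo_nL (ρ0 : CHom X0 X01) (ρ1 : CHom X1 X01) (σ0 : CHom Z0 Z01)
    (σ1 : CHom Z1 Z01) (f0 : CHom X0 Z0) (f1 : CHom X1 Z1) (f01 : CHom X01 Z01)
    (h0 : ∀ x, σ0.f (f0.f x) = f01.f (ρ0.f x)) (h1 : ∀ x, σ1.f (f1.f x) = f01.f (ρ1.f x))
    (g : CHom Y Z)
    (h0' : ∀ x, (tenH σ0 (CHom.id Z)).f ((tenH f0 g).f x) =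
      (tenH f01 g).f ((tenH ρ0 (CHom.id Y)).f x))
    (h1' : ∀ x, (tenH σ1 (CHom.id Z)).f ((tenH f1 g).f x) =
      (tenH f01 g).f ((tenH ρ1 (CHom.id Y)).f x)) (x : (tenC (co ρ0 ρ1) Y).V) :
    TenCo_fL σ0 σ1 Z ((tenH (co.map ρ0 ρ1 σ0 σ1 f0 f1 f01 h0 h1) g).f x) =
      (co.map (tenH ρ0 (CHom.id Y)) (tenH ρ1 (CHom.id Y)) (tenH σ0 (CHom.id Z))
        (tenH σ1 (CHom.id Z)) (tenH f0 g) (tenH f1 g) (tenH f01 g) h0' h1').f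
        (TenCo_fL ρ0 ρ1 Y x) :=
  TenCo_ext (F := TenCo_fL σ0 σ1 Z ∘ₗ (tenH (co.map ρ0 ρ1 σ0 σ1 f0 f1 f01 h0 h1) g).f)
    (G := (co.map (tenH ρ0 (CHom.id Y)) (tenH ρ1 (CHom.id Y)) (tenH σ0 (CHom.id Z))
        (tenH σ1 (CHom.id Z)) (tenH f0 g) (tenH f1 g) (tenH f01 g) h0' h1').f ∘ₗ
        TenCo_fL ρ0 ρ1 Y) (fun _ _ => rfl) x

private theorem TenCo_nR (ρ0 : CHom X0 X01) (ρ1 : CHom X1 X01) (σ0 : CHom Z0 Z01)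
    (σ1 : CHom Z1 Z01) (f0 : CHom X0 Z0) (f1 : CHom X1 Z1) (f01 : CHom X01 Z01)
    (h0 : ∀ x, σ0.f (f0.f x) = f01.f (ρ0.f x)) (h1 : ∀ x, σ1.f (f1.f x) = f01.f (ρ1.f x))
    (g : CHom Y Z)
    (h0' : ∀ x, (tenH (CHom.id Z) σ0).f ((tenH g f0).f x) =
      (tenH g f01).f ((tenH (CHom.id Y) ρ0).f x))
    (h1' : ∀ x, (tenH (CHom.id Z) σ1).f ((tenH g f1).f x) =
      (tenH g f01).f ((tenH (CHom.id Y) ρ1).f x)) (x : (tenC Y (co ρ0 ρ1)).V) :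
    TenCo_fR σ0 σ1 Z ((tenH g (co.map ρ0 ρ1 σ0 σ1 f0 f1 f01 h0 h1)).f x) =
      (co.map (tenH (CHom.id Y) ρ0) (tenH (CHom.id Y) ρ1) (tenH (CHom.id Z) σ0)
        (tenH (CHom.id Z) σ1) (tenH g f0) (tenH g f1) (tenH g f01) h0' h1').f
        (TenCo_fR ρ0 ρ1 Y x) := by
  refine TenCo_ext (F := TenCo_fR σ0 σ1 Z ∘ₗ (tenH g (co.map ρ0 ρ1 σ0 σ1 f0 f1 f01 h0 h1)).f)
    (G := (co.map (tenH (CHom.id Y) ρ0) (tenH (CHom.id Y) ρ1) (tenH (CHom.id Z) σ0)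
        (tenH (CHom.id Z) σ1) (tenH g f0) (tenH g f1) (tenH g f01) h0' h1').f ∘ₗ
        TenCo_fR ρ0 ρ1 Y) (fun y x => ?_) x
  obtain ⟨x0, x1, ξ, rfl⟩ : ∃ x0 x1 ξ, x = co.mk ρ0 ρ1 x0 x1 ξ := ⟨x.1.1, x.1.2, x.2, rfl⟩
  change co.mk (tenH (CHom.id Z) σ0) (tenH (CHom.id Z) σ1) (TenCo_t Z Z0 (g.f y) (f0.f x0))
      (TenCo_t Z Z1 (g.f y) (f1.f x1)) (TenCo_t Z Z01 (Z.dg.s (g.f y)) (f01.f ξ)) =
    co.mk (tenH (CHom.id Z) σ0) (tenH (CHom.id Z) σ1) (TenCo_t Z Z0 (g.f y) (f0.f x0))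
      (TenCo_t Z Z1 (g.f y) (f1.f x1)) (TenCo_t Z Z01 (g.f (Y.dg.s y)) (f01.f ξ))
  rw [g.s]

private def TenCo_phL (r0 : PCH V0 V01) (r1 : PCH V1 V01) (W : PC k) :
    PCH (tenP (coP r0 r1) W) (coP (PCH.ten r0 (PCH.id W)) (PCH.ten r1 (PCH.id W))) where
  f := fun c => TenCo_iL (r0.f c) (r1.f c) (W.X c)
  nat := fun {c d} h x => (TenCo_nL (r0.f c) (r1.f c) (r0.f d) (r1.f d) (V0.ρ h) (V1.ρ h)
    (V01.ρ h) (fun x => (r0.nat h x).symm) (fun x => (r1.nat h x).symm) (W.ρ h)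
    (fun x => ((PCH.ten r0 (PCH.id W)).nat h x).symm)
    (fun x => ((PCH.ten r1 (PCH.id W)).nat h x).symm) x).symm

private def TenCo_phR (r0 : PCH V0 V01) (r1 : PCH V1 V01) (W : PC k) :
    PCH (tenP W (coP r0 r1)) (coP (PCH.ten (PCH.id W) r0) (PCH.ten (PCH.id W) r1)) where
  f := fun c => TenCo_iR (r0.f c) (r1.f c) (W.X c)
  nat := fun {c d} h x => (TenCo_nR (r0.f c) (r1.f c) (r0.f d) (r1.f d) (V0.ρ h) (V1.ρ h)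
    (V01.ρ h) (fun x => (r0.nat h x).symm) (fun x => (r1.nat h x).symm) (W.ρ h)
    (fun x => ((PCH.ten (PCH.id W) r0).nat h x).symm)
    (fun x => ((PCH.ten (PCH.id W) r1).nat h x).symm) x).symm

private theorem TenCo_hL {ρ : CHom X0 X01} {r : PCH V0 V01} (f0 : PCC X0 V0) (f01 : PCC X01 V01)
    (h0 : ∀ c x, (r.f c).f ((f0.f c).f x) = (f01.f c).f (ρ.f x)) (g : PCC Y W) (c : Ch k)
    (x : (tenC X0 Y).V) : ((PCH.ten r (PCH.id W)).f c).f (((f0.ten g).f c).f x) =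
      ((f01.ten g).f c).f ((tenH ρ (CHom.id Y)).f x) := by
  refine TenCo_ext (F := ((PCH.ten r (PCH.id W)).f c).f ∘ₗ ((f0.ten g).f c).f)
    (G := ((f01.ten g).f c).f ∘ₗ (tenH ρ (CHom.id Y)).f) (fun x y => ?_) x
  change TenCo_t _ _ ((r.f c).f ((f0.f c).f x)) ((g.f c).f y) =
    TenCo_t _ _ ((f01.f c).f (ρ.f x)) ((g.f c).f y)
  rw [h0]

private theorem TenCo_hR {ρ : CHom X0 X01} {r : PCH V0 V01} (f0 : PCC X0 V0) (f01 : PCC X01 V01)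
    (h0 : ∀ c x, (r.f c).f ((f0.f c).f x) = (f01.f c).f (ρ.f x)) (g : PCC Y W) (c : Ch k)
    (x : (tenC Y X0).V) : ((PCH.ten (PCH.id W) r).f c).f (((g.ten f0).f c).f x) =
      ((g.ten f01).f c).f ((tenH (CHom.id Y) ρ).f x) := by
  refine TenCo_ext (F := ((PCH.ten (PCH.id W) r).f c).f ∘ₗ ((g.ten f0).f c).f)
    (G := ((g.ten f01).f c).f ∘ₗ (tenH (CHom.id Y) ρ).f) (fun y x => ?_) x
  change TenCo_t _ _ ((g.f c).f y) ((r.f c).f ((f0.f c).f x)) =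
    TenCo_t _ _ ((g.f c).f y) ((f01.f c).f (ρ.f x))
  rw [h0]

/-- PROOF. The linear equivalence `((X0 × X1) × X01) ⊗ Y ≃ ((X0 ⊗ Y) × (X1 ⊗ Y)) × (X01 ⊗ Y)`,
`((x0, x1), ξ) ⊗ y ↦ ((x0 ⊗ y, x1 ⊗ y), ξ ⊗ y)` (`TensorProduct.prodLeft` twice), is an isomorphism
of complexes from `tenC (co ρ0 ρ1) Y` to `co (tenH ρ0 (CHom.id Y)) (tenH ρ1 (CHom.id Y))`
(`Dg.tensor_d`, `co_d`, `co_s`: `s (0, 0, ξ) = (0, 0, - s ξ)`, so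
`d ((0, 0, ξ) ⊗ y) = (0, 0, - d ξ) ⊗ y + (0, 0, - s ξ) ⊗ d y`, no signs). It is natural, so it
gives a bijective morphism of presheaves
`tenP (coP r0 r1) W → coP (r0.ten (PCH.id W)) (r1.ten (PCH.id W))` and it is compatible with the augmentations `(coA f0 f1 f01 h0 h1).ten g` and
`coA (f0.ten g) (f1.ten g) (f01.ten g) _ _`. Apply `PCC.qie_iff` and `coA_qie`. -/
theorem qie_ten_left {ρ0 : CHom X0 X01} {ρ1 : CHom X1 X01} {r0 : PCH V0 V01} {r1 : PCH V1 V01}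
    (f0 : PCC X0 V0) (f1 : PCC X1 V1) (f01 : PCC X01 V01)
    (h0 : ∀ c x, (r0.f c).f ((f0.f c).f x) = (f01.f c).f (ρ0.f x))
    (h1 : ∀ c x, (r1.f c).f ((f1.f c).f x) = (f01.f c).f (ρ1.f x)) (g : PCC Y W)
    (q0 : (f0.ten g).QIe) (q1 : (f1.ten g).QIe) (q01 : (f01.ten g).QIe) :
    ((coA f0 f1 f01 h0 h1).ten g).QIe := by
  refine (PCC.qie_iff ((coA f0 f1 f01 h0 h1).ten g)
    (coA (f0.ten g) (f1.ten g) (f01.ten g) (TenCo_hL f0 f01 h0 g) (TenCo_hL f1 f01 h1 g))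
    (TenCo_iL ρ0 ρ1 Y) (TenCo_phL r0 r1 W) (fun c x => ?_) (TenCo_iL_qi ρ0 ρ1 Y)
    (fun c _ => TenCo_iL_qi (r0.f c) (r1.f c) (W.X c))).2 (coA_qie _ _ _ _ _ q0 q1 q01)
  exact TenCo_nL ρ0 ρ1 (r0.f c) (r1.f c) (f0.f c) (f1.f c) (f01.f c) (h0 c) (h1 c) (g.f c)
    (TenCo_hL f0 f01 h0 g c) (TenCo_hL f1 f01 h1 g c) x

/-- PROOF. As `qie_ten_left`, with the isomorphism
`y ⊗ ((x0, x1), ξ) ↦ ((y ⊗ x0, y ⊗ x1), (s y) ⊗ ξ)` from `tenC Y (co ρ0 ρ1)` to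
`co (tenH (CHom.id Y) ρ0) (tenH (CHom.id Y) ρ1)`: the last component of the image of
`d (y ⊗ x) = d y ⊗ x + s y ⊗ d x` is
`s (d y) ⊗ ξ + s (s y) ⊗ (ρ1 x1 - ρ0 x0 - d ξ)`, and
`ρ1 (y ⊗ x1) - ρ0 (y ⊗ x0) - d (s y ⊗ ξ) = y ⊗ ρ1 x1 - y ⊗ ρ0 x0 - d (s y) ⊗ ξ - s (s y) ⊗ d ξ`;
these are equal because `s (s y) = y`, `s (d y) = - d (s y)` (`Dg.s_s`, `Dg.s_d`). -/
theorem qie_ten_right {ρ0 : CHom X0 X01} {ρ1 : CHom X1 X01} {r0 : PCH V0 V01} {r1 : PCH V1 V01}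
    (f0 : PCC X0 V0) (f1 : PCC X1 V1) (f01 : PCC X01 V01)
    (h0 : ∀ c x, (r0.f c).f ((f0.f c).f x) = (f01.f c).f (ρ0.f x))
    (h1 : ∀ c x, (r1.f c).f ((f1.f c).f x) = (f01.f c).f (ρ1.f x)) (g : PCC Y W)
    (q0 : (g.ten f0).QIe) (q1 : (g.ten f1).QIe) (q01 : (g.ten f01).QIe) :
    (g.ten (coA f0 f1 f01 h0 h1)).QIe := by
  refine (PCC.qie_iff (g.ten (coA f0 f1 f01 h0 h1))
    (coA (g.ten f0) (g.ten f1) (g.ten f01) (TenCo_hR f0 f01 h0 g) (TenCo_hR f1 f01 h1 g))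
    (TenCo_iR ρ0 ρ1 Y) (TenCo_phR r0 r1 W) (fun c x => ?_) (TenCo_iR_qi ρ0 ρ1 Y)
    (fun c _ => TenCo_iR_qi (r0.f c) (r1.f c) (W.X c))).2 (coA_qie _ _ _ _ _ q0 q1 q01)
  exact TenCo_nR ρ0 ρ1 (r0.f c) (r1.f c) (f0.f c) (f1.f c) (f01.f c) (h0 c) (h1 c) (g.f c)
    (TenCo_hR f0 f01 h0 g c) (TenCo_hR f1 f01 h1 g c) x

end Pool.Agent.MP_6e5bed_ag_PS
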