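import Pool.Agent.Lib.MP_6e5bed_ag_PS.Mat
import Pool.Agent.Lib.MP_6e5bed_ag_PS.CurB
import Pool.Agent.Lib.MP_6e5bed_ag_PS.TenCo
import Pool.Agent.Lib.MP_6e5bed_ag_PS.RFour

set_option autoImplicit false
set_option linter.unusedVariables false

/-!
# MP_6e5bed_ag, NC PRODUCT SURFACES: the presheaves of matrices on the charts
-/

noncomputable section

namespace Pool.Agent.MP_6e5bed_ag_PS

open Pool.Agent.MP_6e5bed_ag_NC
open Pool.Agent.MP_6e5bed_ag_NS
open scoped TensorProduct Classical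

universe u

variable {k : Type u} [Field k]

/-- the coordinates in a chart -/
def cF (c : Ch k) : Finset (Fin 3) := Finset.univ.filter fun m => xx k m ∈ c.1

theorem mem_cF {c : Ch k} {m : Fin 3} : m ∈ cF c ↔ xx k m ∈ c.1 := by
  simp [cF]

theorem cF_mono {c d : Ch k} (h : c ≤ d) : cF c ⊆ cF d := fun _ hm => mem_cF.2 (h (mem_cF.1 hm))

theorem cF_ins (c : Ch k) (j : Fin 3) : cF (c.ins (xx k j)) ⊆ insert j (cF c) := by
  intro m hm
  rcases Set.mem_insert_iff.1 (mem_cF.1 hm) with h | h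
  · refine Finset.mem_insert.2 (Or.inl ?_)
    by_contra hne
    have h1 := congrFun (congrArg Subtype.val h) j
    change (Pi.single m 1 : Fin 3 → k) j = (Pi.single j 1 : Fin 3 → k) j at h1
    rw [Pi.single_eq_same, Pi.single_eq_of_ne (Ne.symm hne)] at h1
    exact zero_ne_one h1
  · exact Finset.mem_insert_of_mem (mem_cF.2 h)

theorem cF_nonempty {c : Ch k} (hc : c.1 ⊆ Set.range (xx k)) : (cF c).Nonempty := by
  obtain ⟨l, hl⟩ := c.2.1
  obtain ⟨m, rfl⟩ := hc hl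
  exact ⟨m, mem_cF.2 hl⟩

theorem cF_image {c : Ch k} (hc : c.1 ⊆ Set.range (xx k)) :
    c.1 = xx k '' (cF c : Set (Fin 3)) := by
  ext l
  constructor
  · intro hl
    obtain ⟨m, rfl⟩ := hc hl
    exact ⟨m, mem_cF.2 hl, rfl⟩
  · rintro ⟨m, hm, rfl⟩
    exact mem_cF.1 hm

variable (D : FExt k)

/-- the presheaf of the matrices on the charts `G (cF c)` -/
def emV (G : Finset (Fin 3) → Finset (Fin 3)) (hG : ∀ {a b}, a ⊆ b → G a ⊆ G b) : PC k where
  X := fun c => Cx.conc k (EM D (G (cF c)))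
  ρ := fun h => concH (emR D (hG (cF_mono h))).toLinearMap
  ρ_id := fun _ _ => rfl
  ρ_ρ := fun _ _ _ => rfl

/-- its constant augmentation -/
def emA (G : Finset (Fin 3) → Finset (Fin 3)) (hG : ∀ {a b}, a ⊆ b → G a ⊆ G b) :
    PCC (Cx.conc k (EM D (G ∅))) (emV D G hG) where
  f := fun c => concH (emR D (hG (Finset.empty_subset _))).toLinearMap
  nat := fun _ _ => rfl

section aux

variable {O1 O2 M1 M2 : Type u} [CommRing O1] [Algebra k O1] [CommRing O2] [Algebra k O2]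
  [AddCommGroup M1] [Module k M1] [Module O1 M1] [IsScalarTower k O1 M1]
  [AddCommGroup M2] [Module k M2] [Module O2 M2] [IsScalarTower k O2 M2]

/-- the action of the tensor product -/
private def EmP_psi (k O1 O2 M1 M2 : Type u) [Field k] [CommRing O1] [Algebra k O1] [CommRing O2]
    [Algebra k O2] [AddCommGroup M1] [Module k M1] [Module O1 M1] [IsScalarTower k O1 M1]
    [AddCommGroup M2] [Module k M2] [Module O2 M2] [IsScalarTower k O2 M2] :
    O1 ⊗[k] O2 →ₐ[k] Module.End k (M1 ⊗[k] M2) :=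
  (Module.endTensorEndAlgHom (R := k) (S := k) (A := k) (M := M1) (N := M2)).comp
    (Algebra.TensorProduct.map (Algebra.lsmul k k M1) (Algebra.lsmul k k M2))

private theorem EmP_psi_tmul (a : O1) (b : O2) (m : M1) (n : M2) :
    EmP_psi k O1 O2 M1 M2 (a ⊗ₜ[k] b) (m ⊗ₜ[k] n) = (a • m) ⊗ₜ[k] (b • n) := by
  unfold EmP_psi
  rw [AlgHom.comp_apply, Algebra.TensorProduct.map_tmul, Module.endTensorEndAlgHom_apply]
  rfl

variable {V1 V2 V1' V2' : Type u} [AddCommGroup V1] [Module k V1] [AddCommGroup V2] [Module k V2]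
  [AddCommGroup V1'] [Module k V1'] [AddCommGroup V2'] [Module k V2']

private theorem EmP_stab (ι1 : V1 →ₗ[k] M1) (ι2 : V2 →ₗ[k] M2)
    (h1 : ∀ (a : O1) (m : V1), ∃ m' : V1, ι1 m' = a • ι1 m)
    (h2 : ∀ (a : O2) (m : V2), ∃ m' : V2, ι2 m' = a • ι2 m) (z : O1 ⊗[k] O2) (y : V1 ⊗[k] V2) :
    ∃ y', TensorProduct.map ι1 ι2 y' = EmP_psi k O1 O2 M1 M2 z (TensorProduct.map ι1 ι2 y) := by
  induction z using TensorProduct.induction_on generalizing y with
  | zero => exact ⟨0, by rw [map_zero, map_zero, LinearMap.zero_apply]⟩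
  | add z z' hz hz' =>
    obtain ⟨y1, e1⟩ := hz y
    obtain ⟨y2, e2⟩ := hz' y
    exact ⟨y1 + y2, by rw [map_add, e1, e2, map_add, LinearMap.add_apply]⟩
  | tmul a b =>
    induction y using TensorProduct.induction_on with
    | zero => exact ⟨0, by rw [map_zero, map_zero]⟩
    | add y y' hy hy' =>
      obtain ⟨y1, e1⟩ := hy
      obtain ⟨y2, e2⟩ := hy'
      exact ⟨y1 + y2, by rw [map_add, e1, e2, map_add, map_add]⟩
    | tmul m n =>
      obtain ⟨m', hm⟩ := h1 a m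
      obtain ⟨n', hn⟩ := h2 b n
      exact ⟨m' ⊗ₜ[k] n', by
        rw [TensorProduct.map_tmul, TensorProduct.map_tmul, EmP_psi_tmul, hm, hn]⟩

private theorem EmP_loc (ι1 : V1 →ₗ[k] M1) (ι2 : V2 →ₗ[k] M2) (ι1' : V1' →ₗ[k] M1)
    (ι2' : V2' →ₗ[k] M2) (q1 : O1) (q2 : O2)
    (h1 : ∀ m : V1', ∃ n0, ∀ n ≥ n0, ∃ m' : V1, ι1 m' = q1 ^ n • ι1' m)
    (h2 : ∀ m : V2', ∃ n0, ∀ n ≥ n0, ∃ m' : V2, ι2 m' = q2 ^ n • ι2' m) (y : V1' ⊗[k] V2') :
    ∃ n0, ∀ n ≥ n0, ∃ y', TensorProduct.map ι1 ι2 y' =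
      EmP_psi k O1 O2 M1 M2 ((q1 ⊗ₜ[k] q2) ^ n) (TensorProduct.map ι1' ι2' y) := by
  induction y using TensorProduct.induction_on with
  | zero => exact ⟨0, fun n _ => ⟨0, by rw [map_zero, map_zero, map_zero]⟩⟩
  | add y y' hy hy' =>
    obtain ⟨n1, e1⟩ := hy
    obtain ⟨n2, e2⟩ := hy'
    refine ⟨max n1 n2, fun n hn => ?_⟩
    obtain ⟨y1, f1⟩ := e1 n (le_trans (le_max_left _ _) hn)
    obtain ⟨y2, f2⟩ := e2 n (le_trans (le_max_right _ _) hn)
    exact ⟨y1 + y2, by rw [map_add, f1, f2, map_add, map_add]⟩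
  | tmul m m' =>
    obtain ⟨n1, e1⟩ := h1 m
    obtain ⟨n2, e2⟩ := h2 m'
    refine ⟨max n1 n2, fun n hn => ?_⟩
    obtain ⟨y1, f1⟩ := e1 n (le_trans (le_max_left _ _) hn)
    obtain ⟨y2, f2⟩ := e2 n (le_trans (le_max_right _ _) hn)
    refine ⟨y1 ⊗ₜ[k] y2, ?_⟩
    rw [TensorProduct.map_tmul, TensorProduct.map_tmul, Algebra.TensorProduct.tmul_pow,
      EmP_psi_tmul, f1, f2]

/-- the partition of unity -/
private theorem EmP_one (q1 : Fin 3 → O1) (q2 : Fin 3 → O2) (r1 : q1 2 = q1 1 - q1 0)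
    (r2 : q2 2 = q2 1 - q2 0) (s1 : q1 0 = 1 ∨ q1 1 = 1) (s2 : q2 0 = 1 ∨ q2 1 = 1) :
    ∃ α : Fin 3 → O1 ⊗[k] O2, ∑ j, α j * (q1 j ⊗ₜ[k] q2 j) = 1 := by
  obtain ⟨L, R, hx⟩ : ∃ (L : O1 →ₐ[k] O1 ⊗[k] O2) (R : O2 →ₐ[k] O1 ⊗[k] O2),
      ∀ (a : O1) (b : O2), a ⊗ₜ[k] b = L a * R b := by
    refine ⟨Algebra.TensorProduct.includeLeft, Algebra.TensorProduct.includeRight, fun a b => ?_⟩
    rw [Algebra.TensorProduct.includeLeft_apply, Algebra.TensorProduct.includeRight_apply,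
      Algebra.TensorProduct.tmul_mul_tmul, mul_one, one_mul]
  simp only [hx, Fin.sum_univ_three, r1, r2, map_sub]
  rcases s1 with s1 | s1 <;> rcases s2 with s2 | s2
  · refine ⟨![1, 0, 0], ?_⟩
    simp [s1, s2]
  · refine ⟨![1, 1 - R (q2 0), -1], ?_⟩
    simp only [s1, s2, map_one, Matrix.cons_val_zero, Matrix.cons_val_one, Matrix.cons_val]
    ring
  · refine ⟨![1, 1 - L (q1 0), -1], ?_⟩
    simp only [s1, s2, map_one, Matrix.cons_val_zero, Matrix.cons_val_one, Matrix.cons_val]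
    ring
  · refine ⟨![0, 1, 0], ?_⟩
    simp [s1, s2]

private theorem EmP_pow {R : Type u} [CommRing R] (ξ : Fin 3 → R)
    (h : ∃ α : Fin 3 → R, ∑ j, α j * ξ j = 1) (n : ℕ) : ∃ α : Fin 3 → R, ∑ j, α j * ξ j ^ n = 1 := by
  have h1 : Ideal.span (Set.range ξ) = ⊤ := by
    rw [Ideal.eq_top_iff_one, Ideal.mem_span_range_iff_exists_fun]
    exact h
  have h2 := Ideal.span_pow_eq_top _ h1 n
  rw [← Set.range_comp, Ideal.eq_top_iff_one, Ideal.mem_span_range_iff_exists_fun] at h2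
  exact h2

end aux

/-- the functions on the chart `a` of the curve -/
private def EmP_O (D : FExt k) (a : Finset (Fin 3)) : Subalgebra k D.L where
  carrier := {f | f ∈ OA D a 0}
  mul_mem' := fun {f g} hf hg => by
    have h := OA_mul (Set.mem_ofPred_eq ▸ hf : f ∈ OA D a 0) (Set.mem_ofPred_eq ▸ hg : g ∈ OA D a 0)
    rwa [add_zero] at h
  add_mem' := fun hf hg => (OA D a 0).add_mem hf hg
  algebraMap_mem' := fun c => by
    rw [Algebra.algebraMap_eq_smul_one]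
    exact (OA D a 0).smul_mem c (one_mem_OA a)

private theorem EmP_q {D : FExt k} {a : Finset (Fin 3)} {g : Fin 3} (hg : g ∈ a) (j : Fin 3) :
    el D j / el D g ∈ EmP_O D a := by
  have h := OA_mul (el_mem_OA (D := D) a j) (inv_mem_OA (D := D) hg)
  rw [add_neg_cancel, ← div_eq_mul_inv] at h
  exact h

private theorem EmP_sm {D : FExt k} {a b : Finset (Fin 3)} (h : a ⊆ b) (f : EmP_O D a)
    (m : EM D b) : ∃ m' : EM D b, (EM D b).val.toLinearMap m' = f • (EM D b).val.toLinearMap m := by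
  refine ⟨⟨(f : D.L) • (m : Matrix (Fin 2) (Fin 2) D.L), fun p q => ?_⟩, rfl⟩
  have h1 := OA_mul (OA_mono h 0 f.2) (m.2 p q)
  rw [zero_add] at h1
  rw [Matrix.smul_apply, smul_eq_mul]
  exact h1

private theorem EmP_lc {D : FExt k} {a b b' : Finset (Fin 3)} {g j : Fin 3} (hg : g ∈ a)
    (hb : a ⊆ b) (h : b' ⊆ insert j b) (m : EM D b') :
    ∃ n0, ∀ n ≥ n0, ∃ m' : EM D b, (EM D b).val.toLinearMap m' =
      (⟨el D j / el D g, EmP_q hg j⟩ : EmP_O D a) ^ n • (EM D b').val.toLinearMap m := by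
  have h1 : ∀ p q : Fin 2, ∃ n, (el D j / el D g) ^ n * (m : Matrix (Fin 2) (Fin 2) D.L) p q ∈
      OA D b (((p : ℕ) : ℤ) - ((q : ℕ) : ℤ)) := fun p q =>
    OA_loc (hb hg) (OA_mono h _ (m.2 p q))
  choose N hN using h1
  refine ⟨∑ p, ∑ q, N p q, fun n hn => ?_⟩
  refine ⟨⟨(el D j / el D g) ^ n • (m : Matrix (Fin 2) (Fin 2) D.L), fun p q => ?_⟩, ?_⟩
  · rw [Matrix.smul_apply, smul_eq_mul]
    refine OA_pow_mem (hb hg) (le_trans ?_ hn) (hN p q)
    exact (Finset.single_le_sum (f := fun q => N p q) (fun _ _ => Nat.zero_le _)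
      (Finset.mem_univ q)).trans (Finset.single_le_sum (f := fun p => ∑ q, N p q)
      (fun _ _ => Nat.zero_le _) (Finset.mem_univ p))
  · rfl

private theorem EmP_inj {D1 D2 : FExt k} (a b : Finset (Fin 3)) : Function.Injective
    (TensorProduct.map (EM D1 a).val.toLinearMap (EM D2 b).val.toLinearMap) :=
  TensorProduct.map_injective_of_flat_flat _ _ Subtype.val_injective Subtype.val_injective

/-- The base case.

PROOF. `rfour` with `H = Mat D1 ⊗[k] Mat D2`, `Mat D = Matrix (Fin 2) (Fin 2) D.L`, and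
`e`, `E c` the tensor products of the inclusions `EM D1 (G1 a) → Mat D1`, `EM D2 (G2 a) → Mat D2`,
which are injective because `k` is a field (`TensorProduct.map_injective_of_flat_flat` or the two
steps `Module.Flat.lTensor_preserves_injective_linearMap`, `rTensor`). The differential of the
tensor product of complexes with zero differential is zero.
`H` is a ring. For `a ∈ D1.L` and `b ∈ D2.L` let `[a, b] ∈ H` be the tensor product of the scalar
matrices. If `a ∈ OA D1 (G1 ∅) 0`, `b ∈ OA D2 (G2 ∅) 0`, then multiplication with `[a, b]`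
preserves all the ranges of `e` and `E c` (`OA_mul`, `OA_mono`); so does multiplication with the
elements of the commutative subring `Z` of `H` generated by these `[a, b]`. Let
`g ∈ G1 ∅`, `h ∈ G2 ∅`, `g, h ∈ {0, 1}`, and `ξ j = [el j / el g, el j / el h]`; it is in `Z`
(`el_mem_OA`, `inv_mem_OA`, `OA_mul`). If `x` is in the range of `E (c.ins (xx j))` then
`ξ j ^ n * x` is in the range of `E c` for all large `n`: for `x = m1 ⊗ m2` use `OA_loc`,
`OA_pow_mem` for the entries of `m1` and of `m2` (`g ∈ G1 (cF c)` and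
`G1 (cF (c.ins (xx j))) ⊆ insert j (G1 (cF c))` by `cF_ins`, `H1`, `OA_mono`); the same holds for
`x` in the range of `E (Ch.sgl (xx j))` and `e` (`cF (Ch.sgl (xx j)) ⊆ {j} = insert j ∅`).
The ideal of `Z` generated by `ξ 0, ξ 1, ξ 2` is `Z`: if one can choose `g = h`, then `ξ g = 1`.
Otherwise `(g, h) = (0, 1)`: with `el 0 = 1`, `el 2 = el 1 - el 0` (`el_sub`),
`s = el D1 1`, `τ = el D2 0 / el D2 1` we have `ξ 0 = [1, τ]`, `ξ 1 = [s, 1]`,
`ξ 2 = [s - 1, 1 - τ]`, so `ξ 2 = ξ 1 - ξ 1 * [1, τ] - 1 + ξ 0` and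
`1 = ξ 1 * (1 - [1, τ]) + ξ 0 - ξ 2`; the case `(g, h) = (1, 0)` is symmetric. So for every `n`
there are `α n j ∈ Z` with `∑ j, α n j * ξ j ^ n = 1` (`Ideal.span_pow_eq_top`, or expand
`(∑ j, α j ξ j) ^ (3 n) = 1`). Let `β n j x = α n j * ξ j ^ n * x`. -/
theorem em_qie (D1 D2 : FExt k) (G1 G2 : Finset (Fin 3) → Finset (Fin 3))
    (h1 : ∀ {a b}, a ⊆ b → G1 a ⊆ G1 b) (h2 : ∀ {a b}, a ⊆ b → G2 a ⊆ G2 b)
    (H1 : ∀ a j, G1 (insert j a) ⊆ insert j (G1 a)) (H2 : ∀ a j, G2 (insert j a) ⊆ insert j (G2 a))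
    (e1 : 0 ∈ G1 ∅ ∨ 1 ∈ G1 ∅) (e2 : 0 ∈ G2 ∅ ∨ 1 ∈ G2 ∅) :
    ((emA D1 G1 h1).ten (emA D2 G2 h2)).QIe := by
  -- the choice of the charts
  obtain ⟨g, hg, hg'⟩ : ∃ g ∈ G1 ∅, g = 0 ∨ g = 1 := by
    rcases e1 with h | h
    · exact ⟨0, h, Or.inl rfl⟩
    · exact ⟨1, h, Or.inr rfl⟩
  obtain ⟨h, hh, hh'⟩ : ∃ h ∈ G2 ∅, h = 0 ∨ h = 1 := by
    rcases e2 with h | h
    · exact ⟨0, h, Or.inl rfl⟩
    · exact ⟨1, h, Or.inr rfl⟩
  have hrel : ∀ {D : FExt k} {a : Finset (Fin 3)} {g : Fin 3} (hg : g ∈ a),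
      (⟨el D 2 / el D g, EmP_q hg 2⟩ : EmP_O D a) =
        ⟨el D 1 / el D g, EmP_q hg 1⟩ - ⟨el D 0 / el D g, EmP_q hg 0⟩ := by
    intro D a g hg
    refine Subtype.ext ?_
    change el D 2 / el D g = el D 1 / el D g - el D 0 / el D g
    rw [← sub_div, el_sub]
  have hone : ∀ {D : FExt k} {a : Finset (Fin 3)} {g : Fin 3} (hg : g ∈ a), (g = 0 ∨ g = 1) →
      (⟨el D 0 / el D g, EmP_q hg 0⟩ : EmP_O D a) = 1 ∨
        (⟨el D 1 / el D g, EmP_q hg 1⟩ : EmP_O D a) = 1 := by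
    intro D a g hg hg'
    rcases hg' with rfl | rfl
    · exact Or.inl (Subtype.ext (div_self (el_ne D 0)))
    · exact Or.inr (Subtype.ext (div_self (el_ne D 1)))
  have hpart := EmP_pow (R := EmP_O D1 (G1 ∅) ⊗[k] EmP_O D2 (G2 ∅))
    (fun j => (⟨el D1 j / el D1 g, EmP_q hg j⟩ : EmP_O D1 (G1 ∅)) ⊗ₜ[k]
      (⟨el D2 j / el D2 h, EmP_q hh j⟩ : EmP_O D2 (G2 ∅)))
    (EmP_one (k := k) (fun j => (⟨el D1 j / el D1 g, EmP_q hg j⟩ : EmP_O D1 (G1 ∅)))
      (fun j => (⟨el D2 j / el D2 h, EmP_q hh j⟩ : EmP_O D2 (G2 ∅)))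
      (hrel hg) (hrel hh) (hone hg hg') (hone hh hh'))
  choose α hα using hpart
  have hd : ∀ {A B : Type u} [AddCommGroup A] [Module k A] [AddCommGroup B] [Module k B]
      (x : A ⊗[k] B), ((Dg.conc k A).tensor (Dg.conc k B)).d x = 0 := by
    intro A B _ _ _ _ x
    induction x using TensorProduct.induction_on with
    | zero => exact map_zero _
    | add x y hx hy => rw [map_add, hx, hy, add_zero]
    | tmul a b =>
      rw [Dg.tensor_d]
      have z1 : (Dg.conc k A).d a = 0 := rfl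
      have z2 : (Dg.conc k B).d b = 0 := rfl
      rw [z1, z2, TensorProduct.zero_tmul, TensorProduct.tmul_zero, add_zero]
  have hcomp : ∀ {a a' b b' : Finset (Fin 3)} (ha : a ⊆ a') (hb : b ⊆ b')
      (x : EM D1 a ⊗[k] EM D2 b),
      TensorProduct.map (EM D1 a').val.toLinearMap (EM D2 b').val.toLinearMap
        (TensorProduct.map (emR D1 ha).toLinearMap (emR D2 hb).toLinearMap x) =
      TensorProduct.map (EM D1 a).val.toLinearMap (EM D2 b).val.toLinearMap x := by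
    intro a a' b b' ha hb x
    have q1 : (EM D1 a).val.toLinearMap =
        (EM D1 a').val.toLinearMap ∘ₗ (emR D1 ha).toLinearMap :=
      LinearMap.ext fun x => (emR_coe D1 ha x).symm
    have q2 : (EM D2 b).val.toLinearMap =
        (EM D2 b').val.toLinearMap ∘ₗ (emR D2 hb).toLinearMap :=
      LinearMap.ext fun x => (emR_coe D2 hb x).symm
    rw [q1, q2, TensorProduct.map_comp]
    rfl
  -- localization
  have hloc : ∀ (b1 b2 b1' b2' : Finset (Fin 3)) (j : Fin 3), G1 ∅ ⊆ b1 → G2 ∅ ⊆ b2 →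
      b1' ⊆ insert j b1 → b2' ⊆ insert j b2 → ∀ x : EM D1 b1' ⊗[k] EM D2 b2',
      ∃ n0, ∀ n ≥ n0, ∃ y, TensorProduct.map (EM D1 b1).val.toLinearMap
        (EM D2 b2).val.toLinearMap y = EmP_psi k (EmP_O D1 (G1 ∅)) (EmP_O D2 (G2 ∅))
          (Matrix (Fin 2) (Fin 2) D1.L) (Matrix (Fin 2) (Fin 2) D2.L) (α n j *
            ((⟨el D1 j / el D1 g, EmP_q hg j⟩ : EmP_O D1 (G1 ∅)) ⊗ₜ[k]
              (⟨el D2 j / el D2 h, EmP_q hh j⟩ : EmP_O D2 (G2 ∅))) ^ n)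
          (TensorProduct.map (EM D1 b1').val.toLinearMap (EM D2 b2').val.toLinearMap x) := by
    intro b1 b2 b1' b2' j c1 c2 c3 c4 x
    obtain ⟨n0, hn0⟩ := EmP_loc (k := k) (EM D1 b1).val.toLinearMap (EM D2 b2).val.toLinearMap
      (EM D1 b1').val.toLinearMap (EM D2 b2').val.toLinearMap
      (⟨el D1 j / el D1 g, EmP_q hg j⟩ : EmP_O D1 (G1 ∅))
      (⟨el D2 j / el D2 h, EmP_q hh j⟩ : EmP_O D2 (G2 ∅))
      (EmP_lc hg c1 c3) (EmP_lc hh c2 c4) x
    refine ⟨n0, fun n hn => ?_⟩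
    obtain ⟨y, hy⟩ := hn0 n hn
    obtain ⟨y', hy'⟩ := EmP_stab (k := k) (EM D1 b1).val.toLinearMap (EM D2 b2).val.toLinearMap
      (EmP_sm c1) (EmP_sm c2) (α n j) y
    refine ⟨y', ?_⟩
    rw [hy', hy, map_mul]
    rfl
  refine rfour ((emA D1 G1 h1).ten (emA D2 G2 h2)) (fun x => hd _) (fun c x => hd _)
    (H := Matrix (Fin 2) (Fin 2) D1.L ⊗[k] Matrix (Fin 2) (Fin 2) D2.L)
    (TensorProduct.map (EM D1 (G1 ∅)).val.toLinearMap (EM D2 (G2 ∅)).val.toLinearMap)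
    (fun c => TensorProduct.map (EM D1 (G1 (cF c))).val.toLinearMap
      (EM D2 (G2 (cF c))).val.toLinearMap)
    (EmP_inj _ _) (fun c _ => EmP_inj _ _) (fun c x => hcomp _ _ _) (fun h x => hcomp _ _ _)
    (fun n j => EmP_psi k (EmP_O D1 (G1 ∅)) (EmP_O D2 (G2 ∅)) _ _ (α n j *
      ((⟨el D1 j / el D1 g, EmP_q hg j⟩ : EmP_O D1 (G1 ∅)) ⊗ₜ[k]
        (⟨el D2 j / el D2 h, EmP_q hh j⟩ : EmP_O D2 (G2 ∅))) ^ n)) ?_ ?_ ?_
  · intro n x
    have e3 := congrArg (fun z => EmP_psi k (EmP_O D1 (G1 ∅)) (EmP_O D2 (G2 ∅))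
      (Matrix (Fin 2) (Fin 2) D1.L) (Matrix (Fin 2) (Fin 2) D2.L) z x) (hα n)
    simp only [map_sum, map_one, LinearMap.sum_apply, Module.End.one_apply] at e3
    exact e3
  · intro j x
    have hs : cF (Ch.sgl (xx k j)) ⊆ insert j ∅ := by
      intro m hm
      have h3 := Set.mem_singleton_iff.1 (mem_cF.1 hm)
      refine Finset.mem_insert.2 (Or.inl ?_)
      by_contra hne
      have h4 := congrFun (congrArg Subtype.val h3) j
      change (Pi.single m 1 : Fin 3 → k) j = (Pi.single j 1 : Fin 3 → k) j at h4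
      rw [Pi.single_eq_same, Pi.single_eq_of_ne (Ne.symm hne)] at h4
      exact zero_ne_one h4
    exact hloc _ _ _ _ j (Finset.Subset.refl _) (Finset.Subset.refl _)
      ((h1 hs).trans (H1 _ _)) ((h2 hs).trans (H2 _ _)) x
  · intro c _ j x
    exact hloc _ _ _ _ j (h1 (Finset.empty_subset _)) (h2 (Finset.empty_subset _))
      ((h1 (cF_ins c j)).trans (H1 _ _)) ((h2 (cF_ins c j)).trans (H2 _ _)) x

end Pool.Agent.MP_6e5bed_ag_PS
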