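import Mathlib

set_option autoImplicit false

/-!
# MP_6e5bed_ag, NC PRODUCT SURFACES, final layer: a projection to the centre
-/

noncomputable section

namespace Pool.Agent.MP_6e5bed_ag_PS

open scoped TensorProduct

universe u

attribute [local instance] TensorProduct.Algebra.module

/-- A finite-dimensional simple algebra has a projection to its centre of the form
`x ↦ ∑ p_i x q_i`. -/
theorem exists_cproj (K : Type u) [Field K] (P : Type u) [Ring P] [Algebra K P]
    [FiniteDimensional K P] [IsSimpleRing P] :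
    ∃ (n : ℕ) (p q : Fin n → P), ∑ i, p i * q i = 1 ∧
      ∀ x y, (∑ i, p i * x * q i) * y = y * ∑ i, p i * x * q i := by
  classical
  -- the enveloping algebra
  let R := P ⊗[K] Pᵐᵒᵖ
  have hsm : ∀ (a : P) (b : Pᵐᵒᵖ) (x : P), (a ⊗ₜ[K] b : R) • x = a * x * b.unop := by
    intro a b x
    rw [TensorProduct.Algebra.smul_def]
    change a • (b • x) = _
    rw [MulOpposite.smul_eq_mul_unop, smul_eq_mul, mul_assoc]
  have hl : ∀ (a x : P), ((a ⊗ₜ[K] (1 : Pᵐᵒᵖ) : R)) • x = a * x := fun a x => by
    rw [hsm, MulOpposite.unop_one, mul_one]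
  have hr : ∀ (a x : P), (((1 : P) ⊗ₜ[K] MulOpposite.op a : R)) • x = x * a := fun a x => by
    rw [hsm, MulOpposite.unop_op, one_mul]
  -- write `r` as a sum of tensors
  have hrep : ∀ r : R, ∃ (n : ℕ) (p : Fin n → P) (q : Fin n → P),
      ∀ x, r • x = ∑ i, p i * x * q i := by
    intro r
    induction r using TensorProduct.induction_on with
    | zero => exact ⟨0, fun i => 0, fun i => 0, fun x => (zero_smul R x).trans
        (Fin.sum_univ_zero _).symm⟩
    | tmul a b => exact ⟨1, fun _ => a, fun _ => b.unop, fun x => by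
        rw [hsm, Fin.sum_univ_one]⟩
    | add r r' h h' =>
      obtain ⟨n, p, q, h⟩ := h
      obtain ⟨n', p', q', h'⟩ := h'
      refine ⟨n + n', Fin.append p p', Fin.append q q', fun x => ?_⟩
      refine (add_smul r r' x).trans ?_
      rw [h, h', Fin.sum_univ_add]
      simp only [Fin.append_left, Fin.append_right]
  -- `P` is a simple module
  have hsimple : IsSimpleModule R P := by
    rw [isSimpleModule_iff]
    refine { exists_pair_ne := ⟨⊥, ⊤, bot_ne_top⟩, eq_bot_or_eq_top := fun U => ?_ }
    by_cases hU : U = ⊥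
    · exact Or.inl hU
    right
    obtain ⟨a, ha, ha0⟩ := Submodule.exists_mem_ne_zero_of_ne_bot hU
    let I : TwoSidedIdeal P := TwoSidedIdeal.mk' {z | z ∈ U}
      U.zero_mem (fun {a b} ha hb => U.add_mem ha hb) (fun {a} ha => U.neg_mem ha)
      (fun {a b} hb => by
        have := U.smul_mem (a ⊗ₜ[K] (1 : Pᵐᵒᵖ) : R) hb
        rwa [hl] at this)
      (fun {a b} ha => by
        have := U.smul_mem ((1 : P) ⊗ₜ[K] MulOpposite.op b : R) ha
        rwa [hr] at this)
    have h1 : (1 : P) ∈ I := IsSimpleRing.one_mem_of_ne_zero_mem I ha0 (by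
      rw [TwoSidedIdeal.mem_mk']
      exact ha)
    rw [TwoSidedIdeal.mem_mk'] at h1
    rw [eq_top_iff]
    intro x _
    have := U.smul_mem (x ⊗ₜ[K] (1 : Pᵐᵒᵖ) : R) h1
    rwa [hl, mul_one] at this
  -- the endomorphisms
  have hcen : ∀ (φ : Module.End R P) (y : P), φ 1 * y = y * φ 1 := by
    intro φ y
    have h1 := φ.map_smul ((1 : P) ⊗ₜ[K] MulOpposite.op y : R) 1
    have h2 := φ.map_smul (y ⊗ₜ[K] (1 : Pᵐᵒᵖ) : R) 1
    rw [hr, hr, one_mul] at h1
    rw [hl, hl, mul_one] at h2
    rw [← h1, h2]
  have hss : IsSemisimpleRing (Module.End R P) := by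
    let _ : DivisionRing (Module.End R P) := Module.End.instDivisionRing
    infer_instance
  have hss' : IsSemisimpleModule (Module.End R P) P := inferInstance
  obtain ⟨C, hC⟩ := exists_isCompl (Submodule.span (Module.End R P) {(1 : P)})
  let f : Module.End (Module.End R P) P := Submodule.projection _ _ hC
  have hf1 : f 1 = 1 := by
    have := Submodule.projection_apply_left hC
      ⟨1, Submodule.mem_span_singleton_self (1 : P)⟩
    exact this
  have hfc : ∀ x y : P, f x * y = y * f x := by
    intro x y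
    have h1 : f x ∈ Submodule.span (Module.End R P) {(1 : P)} :=
      Submodule.projection_apply_mem hC x
    obtain ⟨φ, hφ⟩ := Submodule.mem_span_singleton.1 h1
    rw [← hφ]
    exact hcen φ y
  let b := Module.finBasis K P
  obtain ⟨r, hr'⟩ := jacobson_density f (insert (1 : P) (Finset.univ.image b))
  have hr1 : r • (1 : P) = 1 := by
    rw [← hr' 1 (Finset.mem_insert_self _ _), hf1]
  have hrc : ∀ x y : P, (r • x) * y = y * (r • x) := by
    intro x y
    have hx := b.sum_repr x
    have h2 : r • x = ∑ i, b.repr x i • (r • b i) := by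
      conv_lhs => rw [← hx]
      rw [Finset.smul_sum]
      refine Finset.sum_congr rfl fun i _ => ?_
      obtain ⟨n, p, q, h⟩ := hrep r
      rw [h, h, Finset.smul_sum]
      refine Finset.sum_congr rfl fun j _ => ?_
      rw [mul_smul_comm, smul_mul_assoc]
    rw [h2, Finset.sum_mul, Finset.mul_sum]
    refine Finset.sum_congr rfl fun i _ => ?_
    rw [smul_mul_assoc, mul_smul_comm]
    congr 1
    have h3 : f (b i) = r • b i := hr' (b i) (Finset.mem_insert_of_mem
      (Finset.mem_image_of_mem _ (Finset.mem_univ i)))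
    rw [← h3]
    exact hfc _ _
  obtain ⟨n, p, q, h⟩ := hrep r
  refine ⟨n, p, q, ?_, fun x y => ?_⟩
  · rw [← hr1, h]
    refine Finset.sum_congr rfl fun i _ => ?_
    rw [mul_one]
  · rw [← h]
    exact hrc x y

end Pool.Agent.MP_6e5bed_ag_PS
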