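import Pool.Agent.Lib.MP_6e5bed_ag_PS.FA

set_option autoImplicit false

/-!
# MP_6e5bed_ag, NC PRODUCT SURFACES, final layer: centres (algebra part)
-/

noncomputable section

namespace Pool.Agent.MP_6e5bed_ag_PS

open scoped TensorProduct

universe u

/-- A finite-dimensional algebra acting faithfully on an isotypic module is simple. -/
private theorem fB_one (K : Type u) [Field K] (E : Type u) [AddCommGroup E] [Module K E]
    [FiniteDimensional K E] (hn : Nontrivial E) (T : Type u) [Ring T] [Algebra K T]
    (Φ : T →ₐ[K] Module.End K E) (hinj : Function.Injective Φ) (C : Set (Module.End K E))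
    (hC : ∀ q ∈ C, ∀ t, Φ t * q = q * Φ t)
    (hs : ∀ U : Submodule K E, (∀ t, ∀ x ∈ U, Φ t x ∈ U) → (∀ q ∈ C, ∀ x ∈ U, q x ∈ U) →
      U = ⊥ ∨ U = ⊤) : IsSimpleRing T := by
  let _ : Module T E := Module.compHom E (Φ : T →+* Module.End K E)
  have hsm : ∀ (t : T) (x : E), t • x = Φ t x := fun _ _ => rfl
  have : IsScalarTower K T E := ⟨fun s t x => by
    rw [hsm, hsm, map_smul]
    rfl⟩
  have : IsArtinian T E := isArtinian_of_tower K inferInstance
  obtain ⟨S, hS⟩ := IsAtomic.exists_atom (Submodule T E)
  have : IsSimpleModule T S := isSimpleModule_iff_isAtom.2 hS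
  have htop : isotypicComponent T E S = ⊤ := by
    have h1 := hs ((isotypicComponent T E S).restrictScalars K)
      (fun t x hx => (isotypicComponent T E S).smul_mem t hx) (fun q hq x hx => by
        let f : E →ₗ[T] E :=
          { toFun := q
            map_add' := map_add q
            map_smul' := fun t x => by
              rw [RingHom.id_apply, hsm, hsm]
              exact (LinearMap.congr_fun (hC q hq t) x).symm }
        exact LinearMap.le_comap_isotypicComponent S f hx)
    rcases h1 with h | h
    · exfalso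
      have h2 := (bot_lt_isotypicComponent (M := E) S).ne'
      apply h2
      rw [eq_bot_iff]
      intro x hx
      have h3 : x ∈ (isotypicComponent T E S).restrictScalars K := hx
      rw [h] at h3
      exact h3
    · rw [eq_top_iff]
      intro x _
      have h3 : x ∈ (isotypicComponent T E S).restrictScalars K := by
        rw [h]
        exact Submodule.mem_top
      exact h3
  have hiso : IsIsotypicOfType T E S := IsIsotypicOfType.of_isotypicComponent_eq_top htop
  have : IsSemisimpleModule T E := by
    have e : E ≃ₗ[T] isotypicComponent T E S :=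
      (Submodule.topEquiv (R := T) (M := E)).symm.trans (LinearEquiv.ofEq _ _ htop.symm)
    exact IsSemisimpleModule.congr e
  let b := Module.Basis.ofVectorSpace K E
  have : Finite (Module.Basis.ofVectorSpaceIndex K E) := Module.Finite.finite_basis b
  let g : T →ₗ[T] (Module.Basis.ofVectorSpaceIndex K E → E) :=
    { toFun := fun t i => Φ t (b i)
      map_add' := fun t t' => by
        funext i
        rw [map_add]
        rfl
      map_smul' := fun t t' => by
        funext i
        rw [smul_eq_mul, map_mul]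
        rfl }
  have hg : Function.Injective g := by
    rw [injective_iff_map_eq_zero]
    intro t ht
    have h1 : Φ t = 0 := by
      refine b.ext fun i => ?_
      have := congrFun ht i
      exact this
    exact (injective_iff_map_eq_zero Φ).1 hinj t h1
  have : IsSemisimpleRing T := IsSemisimpleModule.of_injective g hg
  have hself : IsIsotypicOfType T T S := by
    intro I hI
    have := hI
    have hI0 : I ≠ ⊥ := (isSimpleModule_iff_isAtom.1 hI).1
    obtain ⟨a, ha, ha0⟩ := Submodule.exists_mem_ne_zero_of_ne_bot hI0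
    have h1 : ∃ x : E, Φ a x ≠ 0 := by
      by_contra hcon
      push Not at hcon
      apply ha0
      apply (injective_iff_map_eq_zero Φ).1 hinj a
      exact LinearMap.ext hcon
    obtain ⟨x, hx⟩ := h1
    let f : I →ₗ[T] E := (LinearMap.toSpanSingleton T E x).comp I.subtype
    have hf0 : f ≠ 0 := by
      intro h0
      apply hx
      have := LinearMap.congr_fun h0 ⟨a, ha⟩
      exact this
    have hf := LinearMap.injective_of_ne_zero hf0
    have e1 := LinearEquiv.ofInjective f hf
    have : IsSimpleModule T (LinearMap.range f) := IsSimpleModule.congr e1.symm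
    exact ⟨e1.trans (hiso (LinearMap.range f)).some⟩
  have hnt : Nontrivial T := by
    by_contra hcon
    rw [not_nontrivial_iff_subsingleton] at hcon
    obtain ⟨x, hx⟩ := exists_ne (0 : E)
    apply hx
    have h1 : (1 : T) • x = (0 : T) • x := by rw [Subsingleton.elim (1 : T) 0]
    rwa [one_smul, zero_smul] at h1
  exact (isSimpleRing_isArtinianRing_iff.2 ⟨inferInstance, hself.isIsotypic, hnt⟩).1

/-- `P`, `Q` commuting subalgebras: an element of the algebra generated by them which commutes with
`P` is a sum of products of central elements of `P` with elements of `Q`. -/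
private theorem fB_half (K : Type u) [Field K] (S : Type u) [Ring S] [Algebra K S]
    (P Q : Subalgebra K S) [FiniteDimensional K P] (hP : IsSimpleRing P)
    (hc : ∀ p ∈ P, ∀ q ∈ Q, p * q = q * p) (W : Set S)
    (hW : ∀ w ∈ W, w ∈ Q) (f : S) (hf : f ∈ Submodule.span K {g | ∃ a ∈ P, ∃ b ∈ W, g = a * b})
    (hfP : ∀ p ∈ P, f * p = p * f) :
    f ∈ Submodule.span K {g | ∃ a ∈ P, ∃ b ∈ W, (∀ p ∈ P, a * p = p * a) ∧ g = a * b} := by
  obtain ⟨n, p, q, h1, h2⟩ := exists_cproj K P
  let R : S →ₗ[K] S := ∑ i, LinearMap.mulLeftRight K ((p i : S), (q i : S))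
  have hR : ∀ x, R x = ∑ i, (p i : S) * x * (q i : S) := fun x => by
    simp only [R, LinearMap.sum_apply, LinearMap.mulLeftRight_apply]
  have hRf : R f = f := by
    rw [hR]
    have h3 : ∑ i, (p i : S) * f * (q i : S) = f * ∑ i, (p i : S) * (q i : S) := by
      rw [Finset.mul_sum]
      refine Finset.sum_congr rfl fun i _ => ?_
      rw [← hfP _ (p i).2, mul_assoc]
    have h4 : ∑ i, (p i : S) * (q i : S) = 1 := by
      have := congrArg (Subtype.val) h1
      simpa only [AddSubmonoidClass.coe_finsetSum, MulMemClass.coe_mul, OneMemClass.coe_one]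
        using this
    rw [h3, h4, mul_one]
  rw [← hRf]
  have key : ∀ g ∈ Submodule.span K {g | ∃ a ∈ P, ∃ b ∈ W, g = a * b},
      R g ∈ Submodule.span K {g | ∃ a ∈ P, ∃ b ∈ W, (∀ p ∈ P, a * p = p * a) ∧ g = a * b} := by
    intro g hg
    induction hg using Submodule.span_induction with
    | mem g hg =>
      obtain ⟨a, ha, b, hb, rfl⟩ := hg
      refine Submodule.subset_span ⟨R a, ?_, b, hb, ?_, ?_⟩
      · rw [hR]
        exact P.sum_mem fun i _ => P.mul_mem (P.mul_mem (p i).2 ha) (q i).2
      · intro x hx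
        have := congrArg (Subtype.val) (h2 ⟨a, ha⟩ ⟨x, hx⟩)
        rw [hR]
        simpa only [AddSubmonoidClass.coe_finsetSum, MulMemClass.coe_mul] using this
      · rw [hR, hR, Finset.sum_mul]
        refine Finset.sum_congr rfl fun i _ => ?_
        rw [mul_assoc _ (q i : S) b, hc _ (q i).2 _ (hW b hb), ← mul_assoc, ← mul_assoc]
    | zero => rw [map_zero]; exact Submodule.zero_mem _
    | add x y _ _ hx hy => rw [map_add]; exact Submodule.add_mem _ hx hy
    | smul s x _ hx => rw [map_smul]; exact Submodule.smul_mem _ s hx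
  exact key f hf

/-- Linear algebra over a field `K`: `E` finite-dimensional, `P`, `Q` commuting subalgebras of
`End_K E` and `E` simple over `Λ = P Q`. Then `P` and `Q` are simple, and the centre of `Λ` is
generated by the centres of `P` and of `Q`. -/
theorem cen_gen (K : Type u) [Field K] (E : Type u) [AddCommGroup E] [Module K E]
    [FiniteDimensional K E] (P Q : Subalgebra K (Module.End K E))
    (hc : ∀ p ∈ P, ∀ q ∈ Q, p * q = q * p) (hn : Nontrivial E)
    (hs : ∀ U : Submodule K E, (∀ p ∈ P, ∀ x ∈ U, p x ∈ U) → (∀ q ∈ Q, ∀ x ∈ U, q x ∈ U) →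
      U = ⊥ ∨ U = ⊤) :
    IsSimpleRing P ∧ IsSimpleRing Q ∧
    ∀ f ∈ P ⊔ Q, (∀ p ∈ P, f * p = p * f) → (∀ q ∈ Q, f * q = q * f) →
      f ∈ Submodule.span K {g | ∃ a ∈ P, ∃ b ∈ Q, (∀ p ∈ P, a * p = p * a) ∧
        (∀ q ∈ Q, b * q = q * b) ∧ g = a * b} := by
  have hP : IsSimpleRing P := by
    refine fB_one K E hn P P.val Subtype.val_injective (Q : Set (Module.End K E)) ?_ ?_
    · intro q hq t
      exact hc t.1 t.2 q hq
    · intro U h1 h2
      exact hs U (fun p hp x hx => h1 ⟨p, hp⟩ x hx) h2
  have hQ : IsSimpleRing Q := by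
    refine fB_one K E hn Q Q.val Subtype.val_injective (P : Set (Module.End K E)) ?_ ?_
    · intro p hp t
      exact (hc p hp t.1 t.2).symm
    · intro U h1 h2
      exact hs U h2 (fun q hq x hx => h1 ⟨q, hq⟩ x hx)
  refine ⟨hP, hQ, fun f hf hfP hfQ => ?_⟩
  have : FiniteDimensional K P := FiniteDimensional.finiteDimensional_subalgebra P
  have : FiniteDimensional K Q := FiniteDimensional.finiteDimensional_subalgebra Q
  -- the elements of `P ⊔ Q` are sums of products
  have h1 : f ∈ Submodule.span K {g | ∃ a ∈ P, ∃ b ∈ (Q : Set (Module.End K E)), g = a * b} := by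
    let T : Subalgebra K (Module.End K E) :=
      (Submodule.span K {g | ∃ a ∈ P, ∃ b ∈ (Q : Set (Module.End K E)), g = a * b}).toSubalgebra
        (Submodule.subset_span ⟨1, P.one_mem, 1, Q.one_mem, (mul_one _).symm⟩) (by
          intro x y hx hy
          have h1 := Submodule.mul_mem_mul hx hy
          rw [Submodule.span_mul_span] at h1
          refine Submodule.span_mono ?_ h1
          rintro _ ⟨_, ⟨a, ha, b, hb, rfl⟩, _, ⟨a', ha', b', hb', rfl⟩, rfl⟩
          refine ⟨a * a', P.mul_mem ha ha', b * b', Q.mul_mem hb hb', ?_⟩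
          change a * b * (a' * b') = a * a' * (b * b')
          rw [mul_assoc a b, ← mul_assoc b a', ← hc a' ha' b hb, mul_assoc a' b, mul_assoc a a'])
    have h2 : P ⊔ Q ≤ T := by
      refine sup_le (fun p hp => ?_) (fun q hq => ?_)
      · exact Submodule.subset_span ⟨p, hp, 1, Q.one_mem, (mul_one _).symm⟩
      · exact Submodule.subset_span ⟨1, P.one_mem, q, hq, (one_mul _).symm⟩
    exact h2 hf
  have h2 := fB_half K _ P Q hP hc (Q : Set (Module.End K E)) (fun _ h => h) f h1 hfP
  have h3 : f ∈ Submodule.span K {g | ∃ b ∈ Q, ∃ a ∈ {a : Module.End K E | a ∈ P ∧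
      ∀ p ∈ P, a * p = p * a}, g = b * a} := by
    refine Submodule.span_mono ?_ h2
    rintro _ ⟨a, ha, b, hb, hz, rfl⟩
    exact ⟨b, hb, a, ⟨ha, hz⟩, hc a ha b hb⟩
  have h4 := fB_half K _ Q P hQ (fun q hq p hp => (hc p hp q hq).symm) _ (fun _ h => h.1) f h3 hfQ
  refine Submodule.span_mono ?_ h4
  rintro _ ⟨b, hb, a, ⟨ha, haz⟩, hbz, rfl⟩
  exact ⟨a, ha, b, hb, haz, hbz, (hc a ha b hb).symm⟩

/-- A simple ring is prime. -/
private theorem fB_prime {Q : Type u} [Ring Q] [IsSimpleRing Q] {x y : Q}
    (h : ∀ q, x * q * y = 0) : x = 0 ∨ y = 0 := by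
  by_cases hx : x = 0
  · exact Or.inl hx
  right
  let I : TwoSidedIdeal Q := TwoSidedIdeal.mk' {z | ∀ q, z * q * y = 0}
    (fun q => by rw [zero_mul, zero_mul])
    (fun {a b} ha hb q => by rw [add_mul, add_mul, ha q, hb q, add_zero])
    (fun {a} ha q => by rw [neg_mul, neg_mul, ha q, neg_zero])
    (fun {a b} hb q => by rw [mul_assoc, mul_assoc, ← mul_assoc b, hb q, mul_zero])
    (fun {a b} ha q => by rw [mul_assoc a b q, ha (b * q)])
  have hm : x ∈ I := by
    rw [TwoSidedIdeal.mem_mk']
    exact h
  have h1 := IsSimpleRing.one_mem_of_ne_zero_mem I hx hm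
  rw [TwoSidedIdeal.mem_mk'] at h1
  have h2 := h1 1
  rwa [one_mul, one_mul] at h2

/-- A prime Artinian ring is simple. -/
private theorem fB_simple {P : Type u} [Ring P] [Nontrivial P] [IsArtinianRing P]
    (hp : ∀ x y : P, (∀ p, x * p * y = 0) → x = 0 ∨ y = 0) : IsSimpleRing P := by
  have key : ∀ (J : Ideal P), J.IsTwoSided → ∀ n : ℕ, J ^ n = ⊥ → J = ⊥ := by
    intro J hJ n
    induction n with
    | zero =>
      intro h
      rw [J.pow_zero, Ideal.one_eq_top] at h
      exact absurd h (bot_ne_top (α := Ideal P)).symm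
    | succ n ih =>
      intro h
      by_cases hn : J ^ n = ⊥
      · exact ih hn
      rw [eq_bot_iff]
      intro x hx
      obtain ⟨y, hy, hy0⟩ := Submodule.exists_mem_ne_zero_of_ne_bot hn
      rw [Submodule.mem_bot]
      refine (hp x y fun p => ?_).resolve_right hy0
      have h1 : x * p ∈ J := Ideal.mul_mem_right p J hx
      have h2 : x * p * y ∈ J * J ^ n := Ideal.mul_mem_mul h1 hy
      rw [← Ideal.IsTwoSided.pow_succ, h] at h2
      exact (Submodule.mem_bot P).1 h2
  have hjac : Ring.jacobson P = ⊥ := by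
    obtain ⟨n, hn⟩ := IsSemiprimaryRing.isNilpotent (R := P)
    exact key _ inferInstance n hn
  have hss : IsSemisimpleRing P := IsArtinianRing.isSemisimpleRing_iff_jacobson.2 hjac
  rw [isSimpleRing_iff_isTwoSided_imp]
  refine ⟨inferInstance, fun I hI => ?_⟩
  obtain ⟨e, he, rfl⟩ := IsSemisimpleRing.ideal_eq_span_idempotent I
  have h1 : ∀ p, e * p * (1 - e) = 0 := by
    intro p
    have h2 : e * p ∈ Ideal.span {e} := Ideal.mul_mem_right p _ (Ideal.mem_span_singleton_self e)
    obtain ⟨s, hs⟩ := Ideal.mem_span_singleton'.1 h2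
    rw [← hs, mul_assoc, mul_sub, mul_one, he.eq, sub_self, mul_zero]
  rcases hp _ _ h1 with h | h
  · left
    rw [h]
    exact Ideal.span_singleton_eq_bot.2 rfl
  · right
    rw [sub_eq_zero] at h
    rw [← h]
    exact Ideal.span_singleton_one

/-- Base change: `K'` a field extension of `K`, `Q` a simple `K'`-algebra, `P` a finite-dimensional
`K`-subalgebra which spans `Q` over `K'`. Then `P` is simple, and the centre of `Q` is spanned over
`K'` by the centre of `P`. -/
theorem cen_bc (K K' : Type u) [Field K] [Field K'] [Algebra K K'] (Q : Type u) [Ring Q]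
    [Algebra K Q] [Algebra K' Q] [IsScalarTower K K' Q] [IsSimpleRing Q]
    (P : Subalgebra K Q) (hf : FiniteDimensional K P)
    (hsp : Submodule.span K' (P : Set Q) = ⊤) :
    IsSimpleRing P ∧ ∀ z : Q, (∀ x, z * x = x * z) →
      z ∈ Submodule.span K' {a : Q | a ∈ P ∧ ∀ x, a * x = x * a} := by
  -- `P` is prime
  have hprime : ∀ x y : P, (∀ p, x * p * y = 0) → x = 0 ∨ y = 0 := by
    intro x y h
    have h1 : ∀ q : Q, (x : Q) * q * (y : Q) = 0 := by
      intro q
      have hq : q ∈ Submodule.span K' (P : Set Q) := by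
        rw [hsp]
        exact Submodule.mem_top
      induction hq using Submodule.span_induction with
      | mem q hq =>
        have := congrArg (Subtype.val) (h ⟨q, hq⟩)
        exact this
      | zero => rw [mul_zero, zero_mul]
      | add a b _ _ ha hb => rw [mul_add, add_mul, ha, hb, add_zero]
      | smul s a _ ha => rw [mul_smul_comm, smul_mul_assoc, ha, smul_zero]
    rcases fB_prime h1 with h2 | h2
    · exact Or.inl (Subtype.ext h2)
    · exact Or.inr (Subtype.ext h2)
  have hart : IsArtinianRing P := IsArtinianRing.of_finite K P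
  have hnt : Nontrivial P := ⟨⟨0, 1, fun h => zero_ne_one (α := Q) (congrArg Subtype.val h)⟩⟩
  have hsim : IsSimpleRing P := fB_simple hprime
  refine ⟨hsim, fun z hz => ?_⟩
  obtain ⟨n, p, q, h1, h2⟩ := exists_cproj K P
  have h4 : ∑ i, (p i : Q) * (q i : Q) = 1 := by
    have := congrArg (Subtype.val) h1
    simpa only [AddSubmonoidClass.coe_finsetSum, MulMemClass.coe_mul, OneMemClass.coe_one]
      using this
  have h3 : z = ∑ i, (p i : Q) * z * (q i : Q) := by
    have h5 : ∑ i, (p i : Q) * z * (q i : Q) = z * ∑ i, (p i : Q) * (q i : Q) := by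
      rw [Finset.mul_sum]
      refine Finset.sum_congr rfl fun i _ => ?_
      rw [← hz, mul_assoc]
    rw [h5, h4, mul_one]
  rw [h3]
  have hq : z ∈ Submodule.span K' (P : Set Q) := by
    rw [hsp]
    exact Submodule.mem_top
  clear hz h3
  induction hq using Submodule.span_induction with
  | mem a ha =>
    have h5 : ∀ x ∈ P, (∑ i, (p i : Q) * a * (q i : Q)) * x =
        x * ∑ i, (p i : Q) * a * (q i : Q) := by
      intro x hx
      have := congrArg (Subtype.val) (h2 ⟨a, ha⟩ ⟨x, hx⟩)
      simpa only [AddSubmonoidClass.coe_finsetSum, MulMemClass.coe_mul] using this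
    refine Submodule.subset_span ⟨P.sum_mem fun i _ => P.mul_mem (P.mul_mem (p i).2 ha) (q i).2,
      fun x => ?_⟩
    have hx : x ∈ Submodule.span K' (P : Set Q) := by
      rw [hsp]
      exact Submodule.mem_top
    induction hx using Submodule.span_induction with
    | mem x hx => exact h5 x hx
    | zero => rw [mul_zero, zero_mul]
    | add x y _ _ hx hy => rw [mul_add, add_mul, hx, hy]
    | smul s x _ hx => rw [mul_smul_comm, smul_mul_assoc, hx]
  | zero =>
    have : ∑ i, (p i : Q) * 0 * (q i : Q) = 0 :=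
      Finset.sum_eq_zero fun i _ => by rw [mul_zero, zero_mul]
    rw [this]
    exact Submodule.zero_mem _
  | add x y _ _ hx hy =>
    have : ∑ i, (p i : Q) * (x + y) * (q i : Q) =
        ∑ i, (p i : Q) * x * (q i : Q) + ∑ i, (p i : Q) * y * (q i : Q) := by
      rw [← Finset.sum_add_distrib]
      refine Finset.sum_congr rfl fun i _ => ?_
      rw [mul_add, add_mul]
    rw [this]
    exact Submodule.add_mem _ hx hy
  | smul s x _ hx =>
    have : ∑ i, (p i : Q) * (s • x) * (q i : Q) = s • ∑ i, (p i : Q) * x * (q i : Q) := by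
      rw [Finset.smul_sum]
      refine Finset.sum_congr rfl fun i _ => ?_
      rw [mul_smul_comm, smul_mul_assoc]
    rw [this]
    exact Submodule.smul_mem _ s hx

end Pool.Agent.MP_6e5bed_ag_PS
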