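import Pool.Agent.Lib.MP_6e5bed_ag_KC.VDom

set_option autoImplicit false

/-!
# MP_6e5bed_ag, NC PRODUCT SURFACES, block F: tensor products of domains
-/

noncomputable section

namespace Pool.Agent.MP_6e5bed_ag_PS

open scoped TensorProduct

universe u

private theorem NNdom_lift {k A B : Type u} [Field k] [CommRing A] [Algebra k A] [CommRing B]
    [Algebra k B] (C : Subalgebra k B) (S : Finset (A × B)) (hS : ∀ i ∈ S, i.2 ∈ C) :
    ∃ v : A ⊗[k] C, Algebra.TensorProduct.map (AlgHom.id k A) C.val v =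
      ∑ i ∈ S, i.1 ⊗ₜ[k] i.2 := by
  classical
  refine ⟨∑ i ∈ S.attach, i.1.1 ⊗ₜ[k] (⟨i.1.2, hS _ i.2⟩ : C), ?_⟩
  rw [map_sum]
  simp only [Algebra.TensorProduct.map_tmul, AlgHom.coe_id, id_eq, Subalgebra.coe_val]
  exact Finset.sum_attach S (fun i => i.1 ⊗ₜ[k] i.2)

private theorem NNdom_inj {k A B C : Type u} [Field k] [CommRing A] [Algebra k A] [CommRing B]
    [Algebra k B] [CommRing C] [Algebra k C] (f : C →ₐ[k] B) (hf : Function.Injective f) :
    Function.Injective (Algebra.TensorProduct.map (AlgHom.id k A) f) := by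
  have h := Module.Flat.lTensor_preserves_injective_linearMap (M := A) f.toLinearMap hf
  intro x y hxy
  apply h
  exact hxy

private theorem NNdom_int {R S R' S' : Type u} [CommRing R] [CommRing S] [CommRing R']
    [CommRing S'] (f : R →+* S) (ψ : R' →+* S') (g : R →+* R') (h : S →+* S')
    (hc : h.comp f = ψ.comp g) {x : S} (hx : f.IsIntegralElem x) : ψ.IsIntegralElem (h x) := by
  obtain ⟨p, hp, hp0⟩ := hx
  refine ⟨p.map g, hp.map g, ?_⟩
  rw [Polynomial.eval₂_map, ← hc, ← Polynomial.hom_eval₂, hp0, map_zero]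

/-- PROOF. `Pool.Agent.MP_6e5bed_ag_KC.tensor_domain` is the case where `B` is of finite type. In
general: if `v w = 0` in `A ⊗ B`, there is a finitely generated subalgebra `B'` of `B` such that
`v, w` are the images of `v', w' ∈ A ⊗ B'` (write `v, w` as finite sums of pure tensors,
`TensorProduct.exists_finset` or `Submodule.exists_fg_le...`; `B' = Algebra.adjoin k` of the finite set
of the second components); `A ⊗ B' → A ⊗ B` is injective (`A` is flat over `k`,
`Module.Flat.lTensor_preserves_injective_linearMap`), so `v' w' = 0` and `v' = 0` or `w' = 0`, as `B'` is a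
domain of finite type. Nontrivial: `A ⊗ k → A ⊗ B` is injective. -/
theorem tensor_dom {k : Type u} [Field k] [IsAlgClosed k] (A B : Type u) [CommRing A]
    [IsDomain A] [Algebra k A] [CommRing B] [IsDomain B] [Algebra k B] : IsDomain (A ⊗[k] B) := by
  classical
  have hnt : Nontrivial (A ⊗[k] B) := by
    have h1 : IsDomain (A ⊗[k] k) := Pool.Agent.MP_6e5bed_ag_KC.tensor_domain A k
    exact (NNdom_inj (A := A) (Algebra.ofId k B) (algebraMap k B).injective).nontrivial
  have hnz : NoZeroDivisors (A ⊗[k] B) := by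
    refine ⟨fun {v w} hvw => ?_⟩
    obtain ⟨S, hS⟩ := TensorProduct.exists_finset v
    obtain ⟨T, hT⟩ := TensorProduct.exists_finset w
    let F : Finset B := (S ∪ T).image Prod.snd
    let C : Subalgebra k B := Algebra.adjoin k (F : Set B)
    have hC : Algebra.FiniteType k C :=
      (Subalgebra.fg_iff_finiteType C).1 (Subalgebra.fg_adjoin_finset F)
    have hmem : ∀ i ∈ S ∪ T, i.2 ∈ C := fun i hi =>
      Algebra.subset_adjoin (Finset.mem_coe.2 (Finset.mem_image_of_mem _ hi))
    obtain ⟨v', hv'⟩ := NNdom_lift C S (fun i hi => hmem i (Finset.mem_union_left _ hi))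
    obtain ⟨w', hw'⟩ := NNdom_lift C T (fun i hi => hmem i (Finset.mem_union_right _ hi))
    rw [← hS] at hv'
    rw [← hT] at hw'
    have hinj := NNdom_inj (A := A) C.val Subtype.val_injective
    have hdom : IsDomain (A ⊗[k] C) := Pool.Agent.MP_6e5bed_ag_KC.tensor_domain A C
    have h0 : v' * w' = 0 := by
      apply hinj
      rw [map_mul, hv', hw', hvw, map_zero]
    rcases mul_eq_zero.1 h0 with h1 | h1
    · left
      rw [← hv', h1, map_zero]
    · right
      rw [← hw', h1, map_zero]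
  exact NoZeroDivisors.to_isDomain _

/-- Linear disjointness passes to algebraic extensions. PROOF. `R₀ := E₁ ⊗ E₂`, `R := A₁ ⊗ A₂`, a
domain (`tensor_dom`). `R` is integral over `R₀` by `Algebra.TensorProduct.map i₁ i₂`: for `a ⊗ b =
(a ⊗ 1)(1 ⊗ b)` this follows from `a1`, `a2` (images of integral equations), and sums and products of
integral elements are integral. The kernel `P` of `lift j₁ j₂` is an ideal which meets `R₀` in the
kernel of `lift (j₁ ∘ i₁) (j₂ ∘ i₂)`, that is in zero; `Ideal.eq_bot_of_comap_eq_bot`. -/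
theorem inj_of_alg {k : Type u} [Field k] [IsAlgClosed k] {E1 E2 A1 A2 Ω : Type u} [Field E1]
    [Algebra k E1] [Field E2] [Algebra k E2] [Field A1] [Algebra k A1] [Field A2] [Algebra k A2]
    [Field Ω] [Algebra k Ω] (i1 : E1 →ₐ[k] A1) (i2 : E2 →ₐ[k] A2)
    (a1 : ∀ a : A1, i1.toRingHom.IsIntegralElem a) (a2 : ∀ a : A2, i2.toRingHom.IsIntegralElem a)
    (j1 : A1 →ₐ[k] Ω) (j2 : A2 →ₐ[k] Ω)
    (h : Function.Injective (Algebra.TensorProduct.lift (j1.comp i1) (j2.comp i2)
      (fun _ _ => Commute.all _ _))) :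
    Function.Injective (Algebra.TensorProduct.lift j1 j2 (fun _ _ => Commute.all _ _)) := by
  let ψ : E1 ⊗[k] E2 →ₐ[k] A1 ⊗[k] A2 := Algebra.TensorProduct.map i1 i2
  have hdom : IsDomain (A1 ⊗[k] A2) := tensor_dom A1 A2
  have hdom0 : IsDomain (E1 ⊗[k] E2) := tensor_dom E1 E2
  have hint : ∀ x : A1 ⊗[k] A2, ψ.toRingHom.IsIntegralElem x := by
    intro x
    induction x using TensorProduct.induction_on with
    | zero => exact RingHom.isIntegralElem_zero _
    | tmul a b =>
      have h1 : ψ.toRingHom.IsIntegralElem (a ⊗ₜ[k] (1 : A2)) := by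
        refine NNdom_int i1.toRingHom ψ.toRingHom
          (Algebra.TensorProduct.includeLeft : E1 →ₐ[k] E1 ⊗[k] E2).toRingHom
          (Algebra.TensorProduct.includeLeft : A1 →ₐ[k] A1 ⊗[k] A2).toRingHom ?_ (a1 a)
        ext x
        simp [ψ]
      have h2 : ψ.toRingHom.IsIntegralElem ((1 : A1) ⊗ₜ[k] b) := by
        refine NNdom_int i2.toRingHom ψ.toRingHom
          (Algebra.TensorProduct.includeRight : E2 →ₐ[k] E1 ⊗[k] E2).toRingHom
          (Algebra.TensorProduct.includeRight : A2 →ₐ[k] A1 ⊗[k] A2).toRingHom ?_ (a2 b)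
        ext x
        simp [ψ]
      have h3 : a ⊗ₜ[k] b = (a ⊗ₜ[k] (1 : A2)) * ((1 : A1) ⊗ₜ[k] b) := by
        rw [Algebra.TensorProduct.tmul_mul_tmul, mul_one, one_mul]
      rw [h3]
      exact RingHom.IsIntegralElem.mul _ h1 h2
    | add x y hx hy => exact RingHom.IsIntegralElem.add _ hx hy
  let Λ : A1 ⊗[k] A2 →ₐ[k] Ω := Algebra.TensorProduct.lift j1 j2 (fun _ _ => Commute.all _ _)
  have hcomp : Λ.comp ψ = Algebra.TensorProduct.lift (j1.comp i1) (j2.comp i2)
      (fun _ _ => Commute.all _ _) := by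
    ext x <;> simp [Λ, ψ]
  let _ : Algebra (E1 ⊗[k] E2) (A1 ⊗[k] A2) := ψ.toRingHom.toAlgebra
  have hI : Algebra.IsIntegral (E1 ⊗[k] E2) (A1 ⊗[k] A2) := ⟨hint⟩
  have hcomap : (RingHom.ker Λ.toRingHom).comap (algebraMap (E1 ⊗[k] E2) (A1 ⊗[k] A2)) = ⊥ := by
    rw [eq_bot_iff]
    intro x hx
    rw [Ideal.mem_comap, RingHom.mem_ker] at hx
    rw [Ideal.mem_bot]
    apply h
    rw [map_zero, ← hcomp]
    exact hx
  have hker := Ideal.eq_bot_of_comap_eq_bot hcomap
  exact (RingHom.injective_iff_ker_eq_bot Λ.toRingHom).2 hker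

end Pool.Agent.MP_6e5bed_ag_PS
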