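import Pool.Agent.Lib.MP_6e5bed_ag_PS.NNdef

set_option autoImplicit false

/-!
# MP_6e5bed_ag, NC PRODUCT SURFACES, block F: finite sets of generators
-/

noncomputable section

namespace Pool.Agent.MP_6e5bed_ag_PS

open Pool.Agent.MP_6e5bed_ag_NC
open Pool.Agent.MP_6e5bed_ag_NS
open scoped TensorProduct

universe u

variable {k : Type u} [Field k]

/-- PROOF. `L` has a finite basis; for every basis element `z` there is a finite subset `T_z` of
`SepS s ∪ SepS t` with `φ z ∈ K(T_z)` (`IntermediateField.exists_finset_of_mem_adjoin`); take the union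
and split it. -/
theorem exists_T {s t : Kb k} (L : Type u) [Field L] [Algebra (KK k) L]
    [FiniteDimensional (KK k) L] (φ : L →ₐ[KK k] Kb k) (hφ : ∀ z, φ z ∈ NN s t) :
    ∃ T1 T2 : Finset (Kb k), (T1 : Set (Kb k)) ⊆ SepS s ∧ (T2 : Set (Kb k)) ⊆ SepS t ∧
      ∀ z, φ z ∈ IntermediateField.adjoin (KK k) ((T1 : Set (Kb k)) ∪ (T2 : Set (Kb k))) := by
  classical
  have h1 : ∀ i, ∃ T : Finset (Kb k), (T : Set (Kb k)) ⊆ SepS s ∪ SepS t ∧
      φ (Module.finBasis (KK k) L i) ∈ IntermediateField.adjoin (KK k) (T : Set (Kb k)) :=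
    fun i => IntermediateField.exists_finset_of_mem_adjoin (hφ _)
  choose T hT1 hT2 using h1
  obtain ⟨S, hS⟩ : ∃ S : Finset (Kb k), S = Finset.univ.biUnion T := ⟨_, rfl⟩
  have hST : ∀ i, (T i : Set (Kb k)) ⊆ (S : Set (Kb k)) := by
    intro i x hx
    rw [hS, Finset.mem_coe, Finset.mem_biUnion]
    exact ⟨i, Finset.mem_univ i, hx⟩
  have hS2 : ∀ x ∈ S, x ∈ SepS s ∪ SepS t := by
    intro x hx
    rw [hS, Finset.mem_biUnion] at hx
    obtain ⟨i, _, hi⟩ := hx
    exact hT1 i hi
  refine ⟨S.filter (· ∈ SepS s), S.filter (· ∈ SepS t), ?_, ?_, ?_⟩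
  · intro x hx
    exact (Finset.mem_filter.1 hx).2
  · intro x hx
    exact (Finset.mem_filter.1 hx).2
  · have hsub : (S : Set (Kb k)) ⊆ ((S.filter (· ∈ SepS s) : Finset (Kb k)) : Set (Kb k)) ∪
        ((S.filter (· ∈ SepS t) : Finset (Kb k)) : Set (Kb k)) := by
      intro x hx
      rcases hS2 x hx with h | h
      · exact Or.inl (Finset.mem_coe.2 (Finset.mem_filter.2 ⟨hx, h⟩))
      · exact Or.inr (Finset.mem_coe.2 (Finset.mem_filter.2 ⟨hx, h⟩))
    intro z
    refine IntermediateField.adjoin.mono (KK k) _ _ hsub ?_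
    have hz := (Module.finBasis (KK k) L).sum_repr z
    rw [← hz, map_sum]
    refine sum_mem fun i _ => ?_
    rw [map_smul, Algebra.smul_def]
    exact mul_mem (IntermediateField.algebraMap_mem _ _)
      (IntermediateField.adjoin.mono (KK k) _ _ (hST i) (hT2 i))

/-- PROOF. `F := IntermediateField.adjoin k(s) T`; `IntermediateField.finiteDimensional_adjoin`,
`IntermediateField.isSeparable_adjoin_iff_isSeparable`. -/
theorem exists_F {s : Kb k} (T : Finset (Kb k)) (hT : (T : Set (Kb k)) ⊆ SepS s) :
    ∃ F : IntermediateField (IntermediateField.adjoin k {s}) (Kb k),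
      F = IntermediateField.adjoin (IntermediateField.adjoin k {s}) (T : Set (Kb k)) ∧
      FiniteDimensional (IntermediateField.adjoin k {s}) F ∧
      Algebra.IsSeparable (IntermediateField.adjoin k {s}) F := by
  refine ⟨_, rfl, ?_, ?_⟩
  · exact IntermediateField.finiteDimensional_adjoin fun x hx => (hT hx).isIntegral
  · exact (IntermediateField.isSeparable_adjoin_iff_isSeparable _ _).2 fun x hx => hT hx

/-- The field `K(s, t, T₁, T₂)` is finite over `K`. PROOF. All elements of `Kb` are algebraic over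
`K`; `IntermediateField.finiteDimensional_adjoin`. -/
theorem fin_M (S : Set (Kb k)) (hS : S.Finite) :
    FiniteDimensional (KK k) (IntermediateField.adjoin (KK k) S) := by
  have := hS.to_subtype
  exact IntermediateField.finiteDimensional_adjoin fun x _ =>
    (Algebra.IsAlgebraic.isAlgebraic (R := KK k) x).isIntegral

/-- The products of the elements of the two subfields span the compositum. PROOF. Let `W` be the
`K`-span of the products; it is closed under multiplication and contains `1`, `s`, `t`, `T₁`, `T₂`; so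
it contains `Algebra.adjoin K (...)`, which is `IntermediateField.adjoin K (...)` because the
generators are algebraic (`IntermediateField.adjoin_toSubalgebra_of_isAlgebraic` or similar). -/
theorem span_M {s t : Kb k} (T1 T2 : Set (Kb k)) (x : Kb k)
    (hx : x ∈ IntermediateField.adjoin (KK k) ({s, t} ∪ (T1 ∪ T2))) :
    x ∈ Submodule.span (KK k) {z : Kb k |
      ∃ a ∈ IntermediateField.adjoin (IntermediateField.adjoin k {s}) T1,
      ∃ b ∈ IntermediateField.adjoin (IntermediateField.adjoin k {t}) T2, z = a * b} := by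
  obtain ⟨A, hA⟩ : ∃ A : IntermediateField (IntermediateField.adjoin k {s}) (Kb k),
      A = IntermediateField.adjoin (IntermediateField.adjoin k {s}) T1 := ⟨_, rfl⟩
  obtain ⟨B, hB⟩ : ∃ B : IntermediateField (IntermediateField.adjoin k {t}) (Kb k),
      B = IntermediateField.adjoin (IntermediateField.adjoin k {t}) T2 := ⟨_, rfl⟩
  rw [← hA, ← hB]
  let P : Submonoid (Kb k) :=
    { carrier := {z | ∃ a ∈ A, ∃ b ∈ B, z = a * b}
      one_mem' := ⟨1, one_mem A, 1, one_mem B, (mul_one 1).symm⟩
      mul_mem' := by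
        rintro _ _ ⟨a, ha, b, hb, rfl⟩ ⟨a', ha', b', hb', rfl⟩
        exact ⟨a * a', mul_mem ha ha', b * b', mul_mem hb hb', by ring⟩ }
  have hsP : s ∈ P := by
    refine ⟨s, ?_, 1, one_mem B, (mul_one s).symm⟩
    have h1 : s ∈ IntermediateField.adjoin k {s} :=
      IntermediateField.mem_adjoin_simple_self k s
    exact IntermediateField.algebraMap_mem A (⟨s, h1⟩ : IntermediateField.adjoin k {s})
  have htP : t ∈ P := by
    refine ⟨1, one_mem A, t, ?_, (one_mul t).symm⟩
    have h1 : t ∈ IntermediateField.adjoin k {t} :=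
      IntermediateField.mem_adjoin_simple_self k t
    exact IntermediateField.algebraMap_mem B (⟨t, h1⟩ : IntermediateField.adjoin k {t})
  have hT1P : T1 ⊆ (P : Set (Kb k)) := by
    intro z hz
    refine ⟨z, ?_, 1, one_mem B, (mul_one z).symm⟩
    rw [hA]
    exact IntermediateField.subset_adjoin _ _ hz
  have hT2P : T2 ⊆ (P : Set (Kb k)) := by
    intro z hz
    refine ⟨1, one_mem A, z, ?_, (one_mul z).symm⟩
    rw [hB]
    exact IntermediateField.subset_adjoin _ _ hz
  have hSP : ({s, t} ∪ (T1 ∪ T2) : Set (Kb k)) ⊆ (P : Set (Kb k)) := by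
    refine Set.union_subset ?_ (Set.union_subset hT1P hT2P)
    intro z hz
    rcases hz with rfl | hz
    · exact hsP
    · rw [Set.mem_singleton_iff] at hz
      rw [hz]
      exact htP
  have h2 : x ∈ Algebra.adjoin (KK k) ({s, t} ∪ (T1 ∪ T2) : Set (Kb k)) := by
    rw [← IntermediateField.adjoin_toSubalgebra]
    exact hx
  have h3 : x ∈ Algebra.adjoin (KK k) (P : Set (Kb k)) := Algebra.adjoin_mono hSP h2
  have h4 : x ∈ Subalgebra.toSubmodule (Algebra.adjoin (KK k) (P : Set (Kb k))) := h3
  rw [Algebra.adjoin_eq_span, Submonoid.closure_eq] at h4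
  exact h4

/-- PROOF. `k`, `s` and `T` are in the field on the right. -/
theorem sub_M {s t : Kb k} (T1 T2 : Set (Kb k)) (x : Kb k)
    (hx : x ∈ IntermediateField.adjoin (IntermediateField.adjoin k {s}) T1) :
    x ∈ IntermediateField.adjoin (KK k) ({s, t} ∪ (T1 ∪ T2)) := by
  have hs : s ∈ IntermediateField.adjoin (KK k) ({s, t} ∪ (T1 ∪ T2)) :=
    IntermediateField.subset_adjoin _ _ (Or.inl (Or.inl rfl))
  have hbase : ∀ y ∈ IntermediateField.adjoin k {s},
      y ∈ IntermediateField.adjoin (KK k) ({s, t} ∪ (T1 ∪ T2)) := by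
    intro y hy
    induction hy using IntermediateField.adjoin_induction with
    | mem x hx =>
      rw [Set.mem_singleton_iff] at hx
      rw [hx]
      exact hs
    | algebraMap c =>
      rw [IsScalarTower.algebraMap_apply k (KK k) (Kb k)]
      exact IntermediateField.algebraMap_mem _ _
    | add x y _ _ h1 h2 => exact add_mem h1 h2
    | inv x _ h1 => exact inv_mem h1
    | mul x y _ _ h1 h2 => exact mul_mem h1 h2
  induction hx using IntermediateField.adjoin_induction with
  | mem x hx => exact IntermediateField.subset_adjoin _ _ (Or.inr (Or.inl hx))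
  | algebraMap c => exact hbase _ c.2
  | add x y _ _ h1 h2 => exact add_mem h1 h2
  | inv x _ h1 => exact inv_mem h1
  | mul x y _ _ h1 h2 => exact mul_mem h1 h2

end Pool.Agent.MP_6e5bed_ag_PS
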