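import Pool.Agent.Lib.MP_6e5bed_ag_PS.NNdef

set_option autoImplicit false

/-!
# MP_6e5bed_ag, NC PRODUCT SURFACES, block F: `s`, `t` are algebraically independent
-/

noncomputable section

namespace Pool.Agent.MP_6e5bed_ag_PS

open Pool.Agent.MP_6e5bed_ag_NC
open Pool.Agent.MP_6e5bed_ag_NS
open scoped TensorProduct

universe u

variable {k : Type u} [Field k]

private theorem NNind_basis (k : Type u) [Field k] : IsTranscendenceBasis k
    ((algebraMap (MvPolynomial (Fin 2) k) (Kb k)) ∘ (MvPolynomial.X (R := k) (σ := Fin 2))) := by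
  have : Algebra.IsAlgebraic (MvPolynomial (Fin 2) k) (Kb k) :=
    (IsFractionRing.comap_isAlgebraic_iff (K := KK k)).2 inferInstance
  have : FaithfulSMul (MvPolynomial (Fin 2) k) (Kb k) := by
    rw [faithfulSMul_iff_algebraMap_injective,
      IsScalarTower.algebraMap_eq (MvPolynomial (Fin 2) k) (KK k) (Kb k)]
    exact (algebraMap (KK k) (Kb k)).injective.comp
      (IsFractionRing.injective (MvPolynomial (Fin 2) k) (KK k))
  exact (IsTranscendenceBasis.mvPolynomial (Fin 2) k).algebraMap_comp

private theorem NNind_gen {k L : Type u} [Field k] [Field L] [Algebra k L] {b : Fin 2 → L}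
    (hb : IsTranscendenceBasis k b) {s t : L} (h0 : b 0 = s * t)
    (h1 : b 1 = (s - 1) * (t - 1)) : AlgebraicIndependent k ![s, t] := by
  have hs : s ∈ Algebra.adjoin k (Set.range ![s, t]) := Algebra.subset_adjoin ⟨0, rfl⟩
  have ht : t ∈ Algebra.adjoin k (Set.range ![s, t]) := Algebra.subset_adjoin ⟨1, rfl⟩
  have hle : Algebra.adjoin k (Set.range b) ≤ Algebra.adjoin k (Set.range ![s, t]) := by
    rw [Algebra.adjoin_le_iff]
    rintro _ ⟨i, rfl⟩
    rcases (show i = 0 ∨ i = 1 by omega) with rfl | rfl
    · rw [h0]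
      exact mul_mem hs ht
    · rw [h1]
      exact mul_mem (sub_mem hs (one_mem _)) (sub_mem ht (one_mem _))
  have hal := hb.isAlgebraic
  have hB : Algebra.IsAlgebraic (Algebra.adjoin k (Set.range ![s, t])) L := by
    let := (Subalgebra.inclusion hle).toRingHom.toAlgebra
    have : IsScalarTower (Algebra.adjoin k (Set.range b))
      (Algebra.adjoin k (Set.range ![s, t])) L := .of_algebraMap_eq fun x => rfl
    exact .extendScalars (Subalgebra.inclusion_injective hle)
  refine (Algebra.IsAlgebraic.isTranscendenceBasis_of_lift_le_trdeg_of_finite k ![s, t] ?_).1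
  exact hb.1.lift_cardinalMk_le_trdeg

private theorem NNind_uu1 (k : Type u) [Field k] :
    uu k 1 = algebraMap (MvPolynomial (Fin 2) k) (KK k) (MvPolynomial.X 0) := rfl

private theorem NNind_uu2 (k : Type u) [Field k] :
    uu k 2 = algebraMap (MvPolynomial (Fin 2) k) (KK k) (MvPolynomial.X 1) := rfl

/-- PROOF. `(u, v)` is a transcendence basis of `Kb` over `k` (`Kb` is algebraic over
`K = Frac k[u, v]`). `u, v ∈ k[s, t]`, so `Kb` is algebraic over `k[s, t]`, hence `{s, t}` contains a
transcendence basis (`exists_isTranscendenceBasis_subset` or `exists_isTranscendenceBasis_between`), of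
cardinality `2` (`IsTranscendenceBasis.cardinalMk_eq`); so `s ≠ t` and `{s, t}` is the basis. -/
theorem ST.indep {s t : Kb k} (h : ST s t) : AlgebraicIndependent k ![s, t] := by
  refine NNind_gen (NNind_basis k) ?_ ?_
  · rw [h.m1, NNind_uu1, Function.comp_apply]
    exact IsScalarTower.algebraMap_apply (MvPolynomial (Fin 2) k) (KK k) (Kb k) _
  · rw [h.m2, NNind_uu2, Function.comp_apply]
    exact IsScalarTower.algebraMap_apply (MvPolynomial (Fin 2) k) (KK k) (Kb k) _

theorem ST.tr {s t : Kb k} (h : ST s t) : Transcendental k s :=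
  (h.indep).transcendental 0

end Pool.Agent.MP_6e5bed_ag_PS
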