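import Mathlib

set_option autoImplicit false

/-!
# MP_6e5bed_ag, NC PRODUCT SURFACES, block F: rational function fields in independent variables
-/

noncomputable section

namespace Pool.Agent.MP_6e5bed_ag_PS

open scoped TensorProduct

universe u

/-- Common denominators in `k(X) ⊗ k(X)`. -/
private theorem NNlin_den {k : Type u} [Field k] (z : RatFunc k ⊗[k] RatFunc k) :
    ∃ (p q : Polynomial k) (z' : Polynomial k ⊗[k] Polynomial k), p ≠ 0 ∧ q ≠ 0 ∧
      (algebraMap (Polynomial k) (RatFunc k) p ⊗ₜ[k] algebraMap (Polynomial k) (RatFunc k) q) * z =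
        Algebra.TensorProduct.map (IsScalarTower.toAlgHom k (Polynomial k) (RatFunc k))
          (IsScalarTower.toAlgHom k (Polynomial k) (RatFunc k)) z' := by
  induction z using TensorProduct.induction_on with
  | zero => exact ⟨1, 1, 0, one_ne_zero, one_ne_zero, by rw [mul_zero, map_zero]⟩
  | tmul a b =>
    refine ⟨a.denom, b.denom, a.num ⊗ₜ b.num, RatFunc.denom_ne_zero a,
      RatFunc.denom_ne_zero b, ?_⟩
    have h : ∀ c : RatFunc k, algebraMap (Polynomial k) (RatFunc k) c.denom * c =
        algebraMap (Polynomial k) (RatFunc k) c.num := by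
      intro c
      have hc : algebraMap (Polynomial k) (RatFunc k) c.denom ≠ 0 :=
        RatFunc.algebraMap_ne_zero (RatFunc.denom_ne_zero c)
      conv_lhs => rw [← RatFunc.num_div_denom c]
      rw [RatFunc.num_div_denom c]
      have h1 := RatFunc.num_div_denom c
      rw [div_eq_iff hc] at h1
      rw [h1, mul_comm]
    rw [Algebra.TensorProduct.tmul_mul_tmul, h, h, Algebra.TensorProduct.map_tmul]
    rfl
  | add z1 z2 h1 h2 =>
    obtain ⟨p1, q1, z1', hp1, hq1, e1⟩ := h1
    obtain ⟨p2, q2, z2', hp2, hq2, e2⟩ := h2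
    refine ⟨p1 * p2, q1 * q2, (p2 ⊗ₜ q2) * z1' + (p1 ⊗ₜ q1) * z2', mul_ne_zero hp1 hp2,
      mul_ne_zero hq1 hq2, ?_⟩
    have m1 := map_mul (Algebra.TensorProduct.map
      (IsScalarTower.toAlgHom k (Polynomial k) (RatFunc k))
      (IsScalarTower.toAlgHom k (Polynomial k) (RatFunc k))) (p2 ⊗ₜ[k] q2) z1'
    have m2 := map_mul (Algebra.TensorProduct.map
      (IsScalarTower.toAlgHom k (Polynomial k) (RatFunc k))
      (IsScalarTower.toAlgHom k (Polynomial k) (RatFunc k))) (p1 ⊗ₜ[k] q1) z2'
    rw [map_add, m1, m2, ← e1, ← e2, Algebra.TensorProduct.map_tmul,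
      Algebra.TensorProduct.map_tmul, map_mul, map_mul, ← Algebra.TensorProduct.tmul_mul_tmul]
    simp only [IsScalarTower.coe_toAlgHom']
    ring

/-- `k[X] ⊗ k[X]` is embedded by algebraically independent elements. -/
private theorem NNlin_poly {k : Type u} [Field k] {Ω : Type u} [Field Ω] [Algebra k Ω]
    (f1 f2 : RatFunc k →ₐ[k] Ω) (h : AlgebraicIndependent k ![f1 RatFunc.X, f2 RatFunc.X]) :
    Function.Injective ((Algebra.TensorProduct.lift f1 f2 (fun _ _ => Commute.all _ _)).comp
      (Algebra.TensorProduct.map (IsScalarTower.toAlgHom k (Polynomial k) (RatFunc k))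
        (IsScalarTower.toAlgHom k (Polynomial k) (RatFunc k)))) := by
  obtain ⟨g, hg⟩ : ∃ g : Polynomial k ⊗[k] Polynomial k →ₐ[k] MvPolynomial (Fin 2) k,
      g = Algebra.TensorProduct.lift (Polynomial.aeval (MvPolynomial.X 0))
        (Polynomial.aeval (MvPolynomial.X 1)) (fun _ _ => Commute.all _ _) := ⟨_, rfl⟩
  obtain ⟨e, he⟩ : ∃ e : MvPolynomial (Fin 2) k →ₐ[k] Polynomial k ⊗[k] Polynomial k,
      e = MvPolynomial.aeval ![Polynomial.X ⊗ₜ[k] (1 : Polynomial k),
        (1 : Polynomial k) ⊗ₜ[k] Polynomial.X] := ⟨_, rfl⟩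
  have h1 : e.comp g = AlgHom.id k _ := by
    rw [hg, he]
    apply Algebra.TensorProduct.ext
    · apply Polynomial.algHom_ext
      simp
    · apply Polynomial.algHom_ext
      simp
  have hginj : Function.Injective g := by
    intro a b hab
    have h2 : e.comp g a = e.comp g b := by
      rw [AlgHom.comp_apply, AlgHom.comp_apply, hab]
    rwa [h1] at h2
  have h3 : (Algebra.TensorProduct.lift f1 f2 (fun _ _ => Commute.all _ _)).comp
      (Algebra.TensorProduct.map (IsScalarTower.toAlgHom k (Polynomial k) (RatFunc k))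
        (IsScalarTower.toAlgHom k (Polynomial k) (RatFunc k))) =
      (MvPolynomial.aeval ![f1 RatFunc.X, f2 RatFunc.X]).comp g := by
    rw [hg]
    apply Algebra.TensorProduct.ext
    · apply Polynomial.algHom_ext
      simp
    · apply Polynomial.algHom_ext
      simp
  rw [h3, AlgHom.coe_comp]
  exact Function.Injective.comp h hginj

/-- PROOF. Let `z` be in the kernel. There are nonzero polynomials `p, q` such that
`(p ⊗ q) z` is the image of some `z' ∈ k[X] ⊗ k[X]` (common denominators in a representation of `z`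
as a finite sum of pure tensors; induction on `z`). The map `k[X] ⊗ k[X] → Ω`,
`a ⊗ b ↦ a(f₁ X) b(f₂ X)` is injective: it is the composite of the isomorphism with
`MvPolynomial (Fin 2) k` (or: the monomials `X^i ⊗ X^j` are a basis, their images are linearly
independent over `k` by the algebraic independence) with `aeval ![f₁ X, f₂ X]`. So `z' = 0`,
`(p ⊗ q) z = 0`, and `p ⊗ q` is a unit of `k(X) ⊗ k(X)` with the inverse `p⁻¹ ⊗ q⁻¹`. -/
theorem inj_ratFunc {k : Type u} [Field k] {Ω : Type u} [Field Ω] [Algebra k Ω]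
    (f1 f2 : RatFunc k →ₐ[k] Ω) (h : AlgebraicIndependent k ![f1 RatFunc.X, f2 RatFunc.X]) :
    Function.Injective (Algebra.TensorProduct.lift f1 f2 (fun _ _ => Commute.all _ _)) := by
  rw [injective_iff_map_eq_zero]
  intro z hz
  obtain ⟨p, q, z', hp, hq, e⟩ := NNlin_den z
  have h0 : z' = 0 := by
    have hinj := NNlin_poly f1 f2 h
    rw [injective_iff_map_eq_zero] at hinj
    apply hinj
    rw [AlgHom.comp_apply, ← e, map_mul, hz, mul_zero]
  rw [h0, map_zero] at e
  have hp' : algebraMap (Polynomial k) (RatFunc k) p ≠ 0 := RatFunc.algebraMap_ne_zero hp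
  have hq' : algebraMap (Polynomial k) (RatFunc k) q ≠ 0 := RatFunc.algebraMap_ne_zero hq
  have h1 : (algebraMap (Polynomial k) (RatFunc k) p)⁻¹ ⊗ₜ[k]
      (algebraMap (Polynomial k) (RatFunc k) q)⁻¹ *
        ((algebraMap (Polynomial k) (RatFunc k) p ⊗ₜ[k]
          algebraMap (Polynomial k) (RatFunc k) q) * z) = z := by
    rw [← mul_assoc, Algebra.TensorProduct.tmul_mul_tmul, inv_mul_cancel₀ hp',
      inv_mul_cancel₀ hq', ← Algebra.TensorProduct.one_def, one_mul]
  rw [← h1, e, mul_zero]

end Pool.Agent.MP_6e5bed_ag_PS
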