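import Pool.Agent.Lib.MP_6e5bed_ag_PS.NNaut
import Pool.Agent.Lib.MP_6e5bed_ag_PS.NNdom
import Pool.Agent.Lib.MP_6e5bed_ag_PS.NNind
import Pool.Agent.Lib.MP_6e5bed_ag_PS.NNlin
import Pool.Agent.Lib.MP_6e5bed_ag_PS.NNext
import Pool.Agent.Lib.MP_6e5bed_ag_PS.NNfin

set_option autoImplicit false

/-!
# MP_6e5bed_ag, NC PRODUCT SURFACES, block F: existence of product data
-/

noncomputable section

namespace Pool.Agent.MP_6e5bed_ag_PS

open Pool.Agent.MP_6e5bed_ag_NC
open Pool.Agent.MP_6e5bed_ag_NS
open scoped TensorProduct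

universe u

variable {k : Type u} [Field k]

/-- Linear disjointness of two function fields in independent variables. PROOF. `inj_of_alg` with
`E₁ = E₂ = RatFunc k`, `i₁, i₂` the structure maps (`IsScalarTower.toAlgHom`; integral because
the extensions are finite), and `inj_ratFunc`. -/
theorem inj_FExt [IsAlgClosed k] {Ω : Type u} [Field Ω] [Algebra k Ω] (D1 D2 : FExt k)
    (j1 : D1.L →ₐ[k] Ω) (j2 : D2.L →ₐ[k] Ω)
    (h : AlgebraicIndependent k ![j1 (algebraMap (RatFunc k) D1.L RatFunc.X),
      j2 (algebraMap (RatFunc k) D2.L RatFunc.X)]) :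
    Function.Injective (Algebra.TensorProduct.lift j1 j2 (fun _ _ => Commute.all _ _)) := by
  refine inj_of_alg (IsScalarTower.toAlgHom k (RatFunc k) D1.L)
    (IsScalarTower.toAlgHom k (RatFunc k) D2.L) ?_ ?_ j1 j2 ?_
  · intro a
    exact Algebra.IsIntegral.isIntegral (R := RatFunc k) a
  · intro a
    exact Algebra.IsIntegral.isIntegral (R := RatFunc k) a
  · exact inj_ratFunc _ _ h

/-- A field with an embedding into `NN` is contained in the function field of a product. PROOF. Let
`T₁, T₂` be as in `exists_T`, `F₁`, `F₂` as in `exists_F` (for `s`, `T₁` and `t`, `T₂`), `D₁, j₁`,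
`D₂, j₂` as in `exists_FExt` (`ST.tr`), `M := IntermediateField.adjoin K ({s, t} ∪ (T₁ ∪ T₂))`
(`fin_M`); `j₁, j₂` have values in `M` (`sub_M`; for the second use the symmetry of the set), the
codomain restrictions are the `j1, j2` of the datum. `inj`: `inj_FExt` and the injectivity of `M → Kb`.
`span`: `span_M`. `hlam`: `uu k 0 = 1`, `uu k 1 = s t`, `uu k 2 = (s - 1)(t - 1)` (`ST`), `el D m` is
the image of `1, X, X - 1`. `L → M`: `exists_T` and monotonicity of `adjoin`. -/
theorem exists_pd_of_hom [IsAlgClosed k] {s t : Kb k} (hst : ST s t) (L : Type u) [Field L]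
    [Algebra (KK k) L] [FiniteDimensional (KK k) L] (φ : L →ₐ[KK k] Kb k)
    (hφ : ∀ z, φ z ∈ NN s t) : ∃ P : PD k, Nonempty (L →ₐ[KK k] P.M) := by
  obtain ⟨T1, T2, hT1, hT2, hT⟩ := exists_T L φ hφ
  obtain ⟨F1, hF1, hfin1, hsep1⟩ := exists_F T1 hT1
  obtain ⟨F2, hF2, hfin2, hsep2⟩ := exists_F T2 hT2
  haveI := hfin1
  haveI := hfin2
  haveI := hsep1
  haveI := hsep2
  obtain ⟨D1, j1, hj1, hX1⟩ := exists_FExt hst.tr F1
  obtain ⟨D2, j2, hj2, hX2⟩ := exists_FExt hst.swap.tr F2
  let M : IntermediateField (KK k) (Kb k) :=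
    IntermediateField.adjoin (KK k) ({s, t} ∪ ((T1 : Set (Kb k)) ∪ (T2 : Set (Kb k))))
  haveI hMfin : FiniteDimensional (KK k) M :=
    fin_M _ (((Set.finite_singleton t).insert s).union
      ((Finset.finite_toSet T1).union (Finset.finite_toSet T2)))
  have hm1 : ∀ x, j1 x ∈ M := by
    intro x
    have h1 : j1 x ∈ (F1 : Set (Kb k)) := by
      rw [← hj1]
      exact ⟨x, rfl⟩
    rw [hF1] at h1
    exact sub_M _ _ _ h1
  have hm2 : ∀ x, j2 x ∈ M := by
    intro x
    have h1 : j2 x ∈ (F2 : Set (Kb k)) := by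
      rw [← hj2]
      exact ⟨x, rfl⟩
    rw [hF2] at h1
    have h2 := sub_M (s := t) (t := s) (T2 : Set (Kb k)) (T1 : Set (Kb k)) _ h1
    rwa [Set.pair_comm, Set.union_comm (T2 : Set (Kb k))] at h2
  let j1' : D1.L →ₐ[k] M :=
    { toFun := fun x => ⟨j1 x, hm1 x⟩
      map_one' := Subtype.ext (map_one j1)
      map_mul' := fun a b => Subtype.ext (map_mul j1 a b)
      map_zero' := Subtype.ext (map_zero j1)
      map_add' := fun a b => Subtype.ext (map_add j1 a b)
      commutes' := fun c => Subtype.ext (j1.commutes c) }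
  let j2' : D2.L →ₐ[k] M :=
    { toFun := fun x => ⟨j2 x, hm2 x⟩
      map_one' := Subtype.ext (map_one j2)
      map_mul' := fun a b => Subtype.ext (map_mul j2 a b)
      map_zero' := Subtype.ext (map_zero j2)
      map_add' := fun a b => Subtype.ext (map_add j2 a b)
      commutes' := fun c => Subtype.ext (j2.commutes c) }
  have hinj0 : Function.Injective
      (Algebra.TensorProduct.lift j1 j2 (fun _ _ => Commute.all _ _)) := by
    refine inj_FExt D1 D2 j1 j2 ?_
    rw [hX1, hX2]
    exact hst.indep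
  have hcomp : ((M.val.restrictScalars k).comp
      (Algebra.TensorProduct.lift j1' j2' (fun _ _ => Commute.all _ _))) =
      Algebra.TensorProduct.lift j1 j2 (fun _ _ => Commute.all _ _) := by
    apply Algebra.TensorProduct.ext
    · ext x
      simp [j1']
    · ext x
      simp [j2']
  have hinj : Function.Injective
      (Algebra.TensorProduct.lift j1' j2' (fun _ _ => Commute.all _ _)) := by
    intro x y hxy
    apply hinj0
    rw [← hcomp]
    exact congrArg (fun z : M => (z : Kb k)) hxy
  have hspan : Submodule.span (KK k) {z : M | ∃ a b, z = j1' a * j2' b} = ⊤ := by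
    rw [eq_top_iff]
    rintro x -
    have h1 := span_M (s := s) (t := t) (T1 : Set (Kb k)) (T2 : Set (Kb k)) (x : Kb k) x.2
    have h2 : {z : Kb k |
        ∃ a ∈ IntermediateField.adjoin (IntermediateField.adjoin k {s}) (T1 : Set (Kb k)),
        ∃ b ∈ IntermediateField.adjoin (IntermediateField.adjoin k {t}) (T2 : Set (Kb k)),
          z = a * b} ⊆ M.val.toLinearMap '' {z : M | ∃ a b, z = j1' a * j2' b} := by
      rintro z ⟨a, ha, b, hb, rfl⟩
      rw [← hF1] at ha
      rw [← hF2] at hb
      have ha' : a ∈ (F1 : Set (Kb k)) := ha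
      have hb' : b ∈ (F2 : Set (Kb k)) := hb
      rw [← hj1] at ha'
      rw [← hj2] at hb'
      obtain ⟨a', rfl⟩ := ha'
      obtain ⟨b', rfl⟩ := hb'
      exact ⟨j1' a' * j2' b', ⟨a', b', rfl⟩, rfl⟩
    have h3 := Submodule.span_mono (R := KK k) h2 h1
    rw [Submodule.span_image] at h3
    obtain ⟨y, hy, hyx⟩ := h3
    have h4 : y = x := Subtype.ext hyx
    rw [← h4]
    exact hy
  have hlam : ∀ m : Fin 3, algebraMap (KK k) M (uu k m) = j1' (el D1 m) * j2' (el D2 m) := by
    intro m
    apply Subtype.ext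
    change algebraMap (KK k) (Kb k) (uu k m) = j1 (el D1 m) * j2 (el D2 m)
    fin_cases m
    · change algebraMap (KK k) (Kb k) 1 = j1 (el D1 0) * j2 (el D2 0)
      rw [el_zero, el_zero, map_one, map_one, map_one, mul_one]
    · change algebraMap (KK k) (Kb k) (uu k 1) = j1 (algebraMap (RatFunc k) D1.L RatFunc.X) *
        j2 (algebraMap (RatFunc k) D2.L RatFunc.X)
      rw [hX1, hX2]
      exact hst.m1.symm
    · change algebraMap (KK k) (Kb k) (uu k 2) =
        j1 (algebraMap (RatFunc k) D1.L (RatFunc.X - 1)) *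
        j2 (algebraMap (RatFunc k) D2.L (RatFunc.X - 1))
      rw [map_sub, map_sub, map_sub, map_sub, map_one, map_one, map_one, map_one, hX1, hX2]
      exact hst.m2.symm
  let P : PD k :=
    { D1 := D1
      D2 := D2
      M := M
      j1 := j1'
      j2 := j2'
      inj := hinj
      span := hspan
      hlam := hlam }
  have hLM : ∀ z, φ z ∈ M := fun z =>
    IntermediateField.adjoin.mono (KK k) _ _ Set.subset_union_right (hT z)
  let ψ : L →ₐ[KK k] M :=
    { toFun := fun x => ⟨φ x, hLM x⟩
      map_one' := Subtype.ext (map_one φ)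
      map_mul' := fun a b => Subtype.ext (map_mul φ a b)
      map_zero' := Subtype.ext (map_zero φ)
      map_add' := fun a b => Subtype.ext (map_add φ a b)
      commutes' := fun c => Subtype.ext (φ.commutes c) }
  exact ⟨P, ⟨ψ⟩⟩

/-- The final form of block F. PROOF. `L` is algebraic over `K`, so there is a `K`-homomorphism
`φ : L → Kb` (`IsAlgClosed.lift`), and `φ z` is a root of the minimal polynomial of `z`. -/
theorem exists_pd [IsAlgClosed k] {s t : Kb k} (hst : ST s t) (L : Type u) [Field L]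
    [Algebra (KK k) L] [FiniteDimensional (KK k) L]
    (h : ∀ z : L, ∀ x : Kb k, Polynomial.aeval x (minpoly (KK k) z) = 0 → x ∈ NN s t) :
    ∃ P : PD k, Nonempty (L →ₐ[KK k] P.M) := by
  let φ : L →ₐ[KK k] Kb k := IsAlgClosed.lift
  refine exists_pd_of_hom hst L φ fun z => h z (φ z) ?_
  rw [Polynomial.aeval_algHom_apply, minpoly.aeval, map_zero]

end Pool.Agent.MP_6e5bed_ag_PS
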