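import Pool.Agent.Lib.MP_6e5bed_ag_PS.Gq
import Pool.Agent.Lib.MP_6e5bed_ag_NS.LemS

set_option autoImplicit false
set_option linter.unusedVariables false

/-!
# MP_6e5bed_ag, NC PRODUCT SURFACES: simple generic bimodules whose centre embeds into `M`
-/

noncomputable section

namespace Pool.Agent.MP_6e5bed_ag_PS

open Pool.Agent.MP_6e5bed_ag_NC
open Pool.Agent.MP_6e5bed_ag_NS
open scoped TensorProduct

universe u

section SerMabs

/-- A commutative algebra of endomorphisms whose nonzero elements are injective is a field. -/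
private theorem SerM_field {K E : Type u} [Field K] [AddCommGroup E] [Module K E]
    [FiniteDimensional K E] [Nontrivial E] (Z : Subalgebra K (Module.End K E))
    (hc : ∀ f ∈ Z, ∀ g ∈ Z, f * g = g * f) (hi : ∀ f ∈ Z, f ≠ 0 → Function.Injective f) :
    ∃ (L : Type u) (_ : Field L) (_ : Algebra K L) (_ : Module L E) (_ : IsScalarTower K L E)
      (ψ : L ≃ₐ[K] Z), ∀ s x, s • x = (ψ s).1 x := by
  have hfd : FiniteDimensional K Z := FiniteDimensional.finiteDimensional_subalgebra Z
  have hF : IsField Z := by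
    refine ⟨⟨1, 0, one_ne_zero⟩, fun f g => Subtype.ext (hc f.1 f.2 g.1 g.2), fun {f} hf => ?_⟩
    have h0 : f.1 ≠ 0 := fun h => hf (Subtype.ext h)
    have h1 := hi f.1 f.2 h0
    have h2 : Function.Injective (LinearMap.mulLeft K f) := by
      rw [← LinearMap.ker_eq_bot, LinearMap.ker_eq_bot']
      intro g hg
      apply Subtype.ext
      refine LinearMap.ext fun x => ?_
      have h3 : f.1 (g.1 x) = 0 := LinearMap.congr_fun (congrArg Subtype.val hg) x
      exact h1 (h3.trans (map_zero f.1).symm)
    obtain ⟨g, hg⟩ := (LinearMap.injective_iff_surjective.1 h2) 1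
    exact ⟨g, hg⟩
  let F : Field Z := hF.toField
  exact ⟨Z, F, Z.algebra, inferInstance, inferInstance, AlgEquiv.refl, fun s x => rfl⟩

variable {K L M E : Type u} [Field K] [Field L] [Field M] [Algebra K L] [Algebra K M]
  [Algebra L M] [IsScalarTower K L M] [AddCommGroup E] [Module K E] [Module L E]
  [IsScalarTower K L E] [FiniteDimensional K E] [FiniteDimensional K M]

private theorem SerM_pow (P Q : Subalgebra L (Module.End L E))
    (hc : ∀ p ∈ P, ∀ q ∈ Q, p * q = q * p) (hn : Nontrivial E)
    (hs : ∀ U : Submodule L E, (∀ p ∈ P, ∀ x ∈ U, p x ∈ U) → (∀ q ∈ Q, ∀ x ∈ U, q x ∈ U) →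
      U = ⊥ ∨ U = ⊤)
    (hz : ∀ f ∈ P ⊔ Q, (∀ p ∈ P, f * p = p * f) → (∀ q ∈ Q, f * q = q * f) →
      ∃ s : L, f = s • 1) :
    ∃ (n : ℕ) (e : ((M ⊗[L] E) ⊗[M] (M ⊗[L] E)) ≃ₗ[K] (Fin n → E)), 0 < n ∧
      (∀ p ∈ P, ∀ z i, e (LinearMap.rTensor (M ⊗[L] E) (LinearMap.baseChange M p) z) i =
        p (e z i)) ∧
      ∀ q ∈ Q, ∀ z i, e (LinearMap.lTensor (M ⊗[L] E) (LinearMap.baseChange M q) z) i =
        q (e z i) := by
  have hfE : FiniteDimensional L E := Module.Finite.of_restrictScalars_finite K L E
  have hfM : FiniteDimensional L M := Module.Finite.of_restrictScalars_finite K L M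
  obtain ⟨n, e, hn0, h1, h2⟩ := powK L E P Q hc hn hs hz
  let b := Module.finBasis L M
  let e1 : ((M ⊗[L] E) ⊗[M] (M ⊗[L] E)) ≃ₗ[K] M ⊗[L] (E ⊗[L] E) :=
    (TensorProduct.AlgebraTensorModule.distribBaseChange L M E E).symm.restrictScalars K
  let e2 : (M ⊗[L] (E ⊗[L] E)) ≃ₗ[K] (Fin (Module.finrank L M) →₀ (E ⊗[L] E)) :=
    (TensorProduct.equivFinsuppOfBasisLeft b).restrictScalars K
  let e3 : (Fin (Module.finrank L M) →₀ (E ⊗[L] E)) ≃ₗ[K] (Fin (Module.finrank L M) → Fin n → E) :=
    (Finsupp.linearEquivFunOnFinite K (E ⊗[L] E) (Fin (Module.finrank L M))).trans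
      (LinearEquiv.piCongrRight fun _ => e.restrictScalars K)
  let e4 : (Fin (Module.finrank L M) → Fin n → E) ≃ₗ[K] (Fin (Module.finrank L M * n) → E) :=
    (LinearEquiv.curry K E (Fin (Module.finrank L M)) (Fin n)).symm.trans
      (LinearEquiv.funCongrLeft K E finProdFinEquiv.symm)
  let ee := ((e1.trans e2).trans e3).trans e4
  have hm : 0 < Module.finrank L M := Module.finrank_pos
  have key : ∀ (m m' : M) (x y : E) (i : Fin (Module.finrank L M * n)),
      ee ((m ⊗ₜ[L] x) ⊗ₜ[M] (m' ⊗ₜ[L] y)) i =
        (b.repr (m * m') (finProdFinEquiv.symm i).1) •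
          e (x ⊗ₜ[L] y) (finProdFinEquiv.symm i).2 := by
    intro m m' x y i
    have h3 : e1 ((m ⊗ₜ[L] x) ⊗ₜ[M] (m' ⊗ₜ[L] y)) = (m * m') ⊗ₜ[L] (x ⊗ₜ[L] y) :=
      TensorProduct.AlgebraTensorModule.distribBaseChange_symm_tmul L M x y m m'
    have h4 : e2 ((m * m') ⊗ₜ[L] (x ⊗ₜ[L] y)) (finProdFinEquiv.symm i).1 =
        (b.repr (m * m') (finProdFinEquiv.symm i).1) • (x ⊗ₜ[L] y) :=
      TensorProduct.equivFinsuppOfBasisLeft_apply_tmul_apply b (m * m') (x ⊗ₜ[L] y) _
    have h5 : ee ((m ⊗ₜ[L] x) ⊗ₜ[M] (m' ⊗ₜ[L] y)) i =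
        e (e2 (e1 ((m ⊗ₜ[L] x) ⊗ₜ[M] (m' ⊗ₜ[L] y))) (finProdFinEquiv.symm i).1)
          (finProdFinEquiv.symm i).2 := rfl
    rw [h5, h3, h4, map_smul]
    rfl
  refine ⟨Module.finrank L M * n, ee, Nat.mul_pos hm hn0, fun p hp z i => ?_,
    fun q hq z i => ?_⟩
  · induction z using TensorProduct.induction_on with
    | zero => rw [map_zero, map_zero, Pi.zero_apply, map_zero]
    | add x y hx hy => rw [map_add, map_add, map_add, Pi.add_apply, Pi.add_apply, map_add, hx, hy]
    | tmul x y =>
      induction x using TensorProduct.induction_on with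
      | zero => rw [TensorProduct.zero_tmul, map_zero, map_zero, Pi.zero_apply, map_zero]
      | add x x' hx hx' =>
        rw [TensorProduct.add_tmul, map_add, map_add, map_add, Pi.add_apply, Pi.add_apply,
          map_add, hx, hx']
      | tmul m x =>
        induction y using TensorProduct.induction_on with
        | zero => rw [TensorProduct.tmul_zero, map_zero, map_zero, Pi.zero_apply, map_zero]
        | add x x' hx hx' =>
          rw [TensorProduct.tmul_add, map_add, map_add, map_add, Pi.add_apply, Pi.add_apply,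
            map_add, hx, hx']
        | tmul m' y =>
          rw [LinearMap.rTensor_tmul, LinearMap.baseChange_tmul, key, key, map_smul]
          congr 1
          exact h1 p hp (x ⊗ₜ[L] y) _
  · induction z using TensorProduct.induction_on with
    | zero => rw [map_zero, map_zero, Pi.zero_apply, map_zero]
    | add x y hx hy => rw [map_add, map_add, map_add, Pi.add_apply, Pi.add_apply, map_add, hx, hy]
    | tmul x y =>
      induction x using TensorProduct.induction_on with
      | zero => rw [TensorProduct.zero_tmul, map_zero, map_zero, Pi.zero_apply, map_zero]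
      | add x x' hx hx' =>
        rw [TensorProduct.add_tmul, map_add, map_add, map_add, Pi.add_apply, Pi.add_apply,
          map_add, hx, hx']
      | tmul m x =>
        induction y using TensorProduct.induction_on with
        | zero => rw [TensorProduct.tmul_zero, map_zero, map_zero, Pi.zero_apply, map_zero]
        | add x x' hx hx' =>
          rw [TensorProduct.tmul_add, map_add, map_add, map_add, Pi.add_apply, Pi.add_apply,
            map_add, hx, hx']
        | tmul m' y =>
          rw [LinearMap.lTensor_tmul, LinearMap.baseChange_tmul, key, key, map_smul]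
          congr 1
          exact h2 q hq (x ⊗ₜ[L] y) _

end SerMabs

variable {k : Type u} [Field k] {A B : ASh k}

/-- The centre of the algebra generated by the left and right multiplications. -/
def Zc (G : Gen A B) : Subalgebra (KK k) (Module.End (KK k) G.E) where
  carrier := {f | f ∈ G.Lm ∧ (∀ c a, f * G.l c a = G.l c a * f) ∧
    ∀ c b, f * G.r c b = G.r c b * f}
  mul_mem' := fun {f g} hf hg => ⟨G.Lm.mul_mem hf.1 hg.1,
    fun c a => by rw [mul_assoc, hg.2.1, ← mul_assoc, hf.2.1, mul_assoc],
    fun c a => by rw [mul_assoc, hg.2.2, ← mul_assoc, hf.2.2, mul_assoc]⟩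
  add_mem' := fun {f g} hf hg => ⟨G.Lm.add_mem hf.1 hg.1,
    fun c a => by rw [add_mul, mul_add, hf.2.1, hg.2.1],
    fun c a => by rw [add_mul, mul_add, hf.2.2, hg.2.2]⟩
  algebraMap_mem' := fun s => ⟨G.Lm.algebraMap_mem s,
    fun c a => Algebra.commutes s _, fun c a => Algebra.commutes s _⟩

section SerMcon

variable {G : Gen A B} (P : PD k) (L : Type u) [Field L] [Algebra (KK k) L] [Module L G.E]
  [IsScalarTower (KK k) L G.E] [Algebra L P.M] [IsScalarTower (KK k) L P.M]

private theorem SerM_comm : SMulCommClass L k P.M := by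
  refine ⟨fun a b x => ?_⟩
  rw [← algebraMap_smul (KK k) b (a • x), ← algebraMap_smul (KK k) b x, smul_comm]

variable (G)

private def SerM_V0 : MSp P :=
  letI := SerM_comm P L
  haveI h1 : FiniteDimensional L G.E := Module.Finite.of_restrictScalars_finite (KK k) L G.E
  haveI h2 : Module.Finite P.M (P.M ⊗[L] G.E) := inferInstance
  { E := P.M ⊗[L] G.E
    fin := Module.Finite.trans P.M (P.M ⊗[L] G.E) }

variable {G}

private def SerM_l (hl : ∀ c a (s : L) x, G.l c a (s • x) = s • G.l c a x) (c : Ch k) (a : A.M c) :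
    G.E →ₗ[L] G.E where
  toFun := G.l c a
  map_add' := map_add _
  map_smul' := hl c a

private def SerM_r (hr : ∀ c b (s : L) x, G.r c b (s • x) = s • G.r c b x) (c : Ch k) (b : B.M c) :
    G.E →ₗ[L] G.E where
  toFun := G.r c b
  map_add' := map_add _
  map_smul' := hr c b

omit [IsScalarTower (KK k) L G.E] in
private theorem SerM_smul (s : KK k) (f : G.E →ₗ[L] G.E) (v : P.M ⊗[L] G.E) :
    (LinearMap.baseChange P.M (algebraMap (KK k) L s • f) : P.M ⊗[L] G.E →ₗ[P.M] P.M ⊗[L] G.E) v =
      (s • ((LinearMap.baseChange P.M f : P.M ⊗[L] G.E →ₗ[P.M] P.M ⊗[L] G.E) v :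
        P.M ⊗[L] G.E) : P.M ⊗[L] G.E) := by
  rw [LinearMap.baseChange_smul, LinearMap.smul_apply, algebraMap_smul]

private def SerM_V (hl : ∀ c a (s : L) x, G.l c a (s • x) = s • G.l c a x)
    (hr : ∀ c b (s : L) x, G.r c b (s • x) = s • G.r c b x) : MG P A B where
  toMSp := SerM_V0 G P L
  l := fun c =>
    { toFun := fun a => LinearMap.baseChange P.M (SerM_l L hl c a)
      map_add' := fun a a' => by
        have h1 : SerM_l L hl c (a + a') = SerM_l L hl c a + SerM_l L hl c a' :=
          LinearMap.ext fun x => by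
            change G.l c (a + a') x = G.l c a x + G.l c a' x
            rw [map_add, LinearMap.add_apply]
        rw [h1, LinearMap.baseChange_add]
        rfl
      map_smul' := fun s a => by
        have h1 : SerM_l L hl c (s • a) =
            algebraMap (KK k) L (algebraMap k (KK k) s) • SerM_l L hl c a :=
          LinearMap.ext fun x => by
            change G.l c (s • a) x = algebraMap (KK k) L (algebraMap k (KK k) s) • G.l c a x
            rw [map_smul, LinearMap.smul_apply, algebraMap_smul, algebraMap_smul]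
        refine LinearMap.ext fun v => ?_
        rw [h1]
        refine (SerM_smul P L _ _ v).trans ?_
        exact algebraMap_smul (KK k) s
          ((LinearMap.baseChange P.M (SerM_l L hl c a) : _ →ₗ[P.M] (SerM_V0 G P L).E) v) }
  r := fun c =>
    { toFun := fun b => LinearMap.baseChange P.M (SerM_r L hr c b)
      map_add' := fun a a' => by
        have h1 : SerM_r L hr c (a + a') = SerM_r L hr c a + SerM_r L hr c a' :=
          LinearMap.ext fun x => by
            change G.r c (a + a') x = G.r c a x + G.r c a' x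
            rw [map_add, LinearMap.add_apply]
        rw [h1, LinearMap.baseChange_add]
        rfl
      map_smul' := fun s a => by
        have h1 : SerM_r L hr c (s • a) =
            algebraMap (KK k) L (algebraMap k (KK k) s) • SerM_r L hr c a :=
          LinearMap.ext fun x => by
            change G.r c (s • a) x = algebraMap (KK k) L (algebraMap k (KK k) s) • G.r c a x
            rw [map_smul, LinearMap.smul_apply, algebraMap_smul, algebraMap_smul]
        refine LinearMap.ext fun v => ?_
        rw [h1]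
        refine (SerM_smul P L _ _ v).trans ?_
        exact algebraMap_smul (KK k) s
          ((LinearMap.baseChange P.M (SerM_r L hr c a) : _ →ₗ[P.M] (SerM_V0 G P L).E) v) }
  l_one := fun c v => by
    have h1 : SerM_l L hl c (A.one c) = LinearMap.id := LinearMap.ext (G.l_one c)
    have h2 : (SerM_l L hl c (A.one c)).baseChange P.M = LinearMap.id := by
      rw [h1, LinearMap.baseChange_id]
    exact LinearMap.congr_fun h2 v
  r_one := fun c v => by
    have h1 : SerM_r L hr c (B.one c) = LinearMap.id := LinearMap.ext (G.r_one c)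
    have h2 : (SerM_r L hr c (B.one c)).baseChange P.M = LinearMap.id := by
      rw [h1, LinearMap.baseChange_id]
    exact LinearMap.congr_fun h2 v
  l_mul := fun c a a' v => by
    have h1 : SerM_l L hl c (A.mul c a a') = SerM_l L hl c a ∘ₗ SerM_l L hl c a' :=
      LinearMap.ext (G.l_mul c a a')
    have h2 : (SerM_l L hl c (A.mul c a a')).baseChange P.M =
        (SerM_l L hl c a).baseChange P.M ∘ₗ (SerM_l L hl c a').baseChange P.M := by
      rw [h1, LinearMap.baseChange_comp]
    exact LinearMap.congr_fun h2 v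
  r_mul := fun c a a' v => by
    have h1 : SerM_r L hr c (B.mul c a a') = SerM_r L hr c a' ∘ₗ SerM_r L hr c a :=
      LinearMap.ext (G.r_mul c a a')
    have h2 : (SerM_r L hr c (B.mul c a a')).baseChange P.M =
        (SerM_r L hr c a').baseChange P.M ∘ₗ (SerM_r L hr c a).baseChange P.M := by
      rw [h1, LinearMap.baseChange_comp]
    exact LinearMap.congr_fun h2 v
  l_r := fun c a b v => by
    have h1 : SerM_l L hl c a ∘ₗ SerM_r L hr c b = SerM_r L hr c b ∘ₗ SerM_l L hl c a :=
      LinearMap.ext (G.l_r c a b)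
    have h2 : (SerM_l L hl c a).baseChange P.M ∘ₗ (SerM_r L hr c b).baseChange P.M =
        (SerM_r L hr c b).baseChange P.M ∘ₗ (SerM_l L hl c a).baseChange P.M := by
      rw [← LinearMap.baseChange_comp, ← LinearMap.baseChange_comp, h1]
    exact LinearMap.congr_fun h2 v
  smul_l := fun c s a v => by
    have h1 : SerM_l L hl c (s • a) = algebraMap (KK k) L (s : KK k) • SerM_l L hl c a :=
      LinearMap.ext fun x => by
        change G.l c (s • a) x = algebraMap (KK k) L (s : KK k) • G.l c a x
        rw [G.smul_l, algebraMap_smul]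
    change (SerM_l L hl c (s • a)).baseChange P.M v = _
    rw [h1]
    exact SerM_smul P L _ _ v
  smul_r := fun c s a v => by
    have h1 : SerM_r L hr c (s • a) = algebraMap (KK k) L (s : KK k) • SerM_r L hr c a :=
      LinearMap.ext fun x => by
        change G.r c (s • a) x = algebraMap (KK k) L (s : KK k) • G.r c a x
        rw [G.smul_r, algebraMap_smul]
    change (SerM_r L hr c (s • a)).baseChange P.M v = _
    rw [h1]
    exact SerM_smul P L _ _ v
  res_l := fun {c d} h a v => by
    have h1 : SerM_l L hl d (A.res h a) = SerM_l L hl c a := LinearMap.ext (G.res_l h a)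
    change (SerM_l L hl d (A.res h a)).baseChange P.M v = (SerM_l L hl c a).baseChange P.M v
    rw [h1]
  res_r := fun {c d} h a v => by
    have h1 : SerM_r L hr d (B.res h a) = SerM_r L hr c a := LinearMap.ext (G.res_r h a)
    change (SerM_r L hr d (B.res h a)).baseChange P.M v = (SerM_r L hr c a).baseChange P.M v
    rw [h1]

end SerMcon

/-- A simple generic bimodule `G` whose centre `L` embeds into `M`: the bimodule `V = M ⊗_L G` over
`M`, and the tensor product `V ⊗_M V`.

PROOF. `L = Zc G` is commutative (its elements are in `G.Lm` and commute with the generators of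
`G.Lm`), finite-dimensional over `K`, and a field: the kernel and the range of a nonzero `f ∈ L` are
stable under `l`, `r`, so `f` is bijective, and `f⁻¹` is a polynomial in `f`. `G.E` is an `L`-vector
space, the `l c a`, `r c b` are `L`-linear. `M` is an `L`-algebra by `φ`. Let `V.E = M ⊗[L] G.E`
with `l c a = id ⊗ l c a`, `r c b = id ⊗ r c b`, `ι x = 1 ⊗ x`.
The `L`-algebra `P'` generated by the `l c a` and the `L`-algebra `Q'` generated by the `r c b` (in
`Module.End L G.E`) commute, and `G.E` has no proper nonzero `L`-subspaces stable under both; an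
element `f` of `P' ⊔ Q'` which commutes with both is in `G.Lm` (as `L ⊆ G.Lm`) so it is in `L`. By
`powK` (`Lib/MP_6e5bed_ag_NS/LemS.lean`; field `L`) there are `n > 0` and an `L`-linear isomorphism
`e : G.E ⊗[L] G.E ≃ (Fin n → G.E)` such that `l c a ⊗ 1` corresponds to `l c a` and `1 ⊗ r c b` to
`r c b` in all components. Let `m = [M : L] > 0`, `M ≅ L ^ m`. Then
`V ⊗_M V ≅ M ⊗_L (G.E ⊗_L G.E) ≅ M ⊗_L (Fin n → G.E) ≅ (Fin (n * m) → G.E)`, `K`-linear and
compatible with `l c a` on the first and `r c b` on the second factor. `Gen.Ser.of_pow`. -/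
theorem ser_M {G : Gen A B} (hs : G.Simple) (P : PD k) (φ : Zc G →ₐ[KK k] P.M) :
    ∃ (V : MG P A B) (ι : G.E →ₗ[KK k] V.E), Submodule.span P.M (Set.range ι) = ⊤ ∧
      (∀ c a x, V.l c a (ι x) = ι (G.l c a x)) ∧ (∀ c b x, V.r c b (ι x) = ι (G.r c b x)) ∧
      ∃ n, 0 < n ∧ Gen.Ser G (V.ten V).gen n := by
  have hnt : Nontrivial G.E := hs.1
  have hcl : ∀ f ∈ Zc G, ∀ g ∈ G.Lm, f * g = g * f := by
    intro f hf g hg
    induction hg using Algebra.adjoin_induction with
    | mem g hg =>
      rcases hg with ⟨c, a, rfl⟩ | ⟨c, b, rfl⟩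
      · exact hf.2.1 c a
      · exact hf.2.2 c b
    | algebraMap s => exact (Algebra.commutes s _).symm
    | add x y _ _ hx hy => rw [mul_add, add_mul, hx, hy]
    | mul x y _ _ hx hy => rw [← mul_assoc, hx, mul_assoc, hy, mul_assoc]
  have hc : ∀ f ∈ Zc G, ∀ g ∈ Zc G, f * g = g * f := fun f hf g hg => hcl f hf g hg.1
  have hi : ∀ f ∈ Zc G, f ≠ 0 → Function.Injective f := by
    intro f hf hf0
    have h1 : G.Stab (LinearMap.ker f) := by
      refine ⟨fun c a x hx => ?_, fun c b x hx => ?_⟩
      · rw [LinearMap.mem_ker] at hx ⊢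
        have h2 : f (G.l c a x) = G.l c a (f x) := LinearMap.congr_fun (hf.2.1 c a) x
        rw [h2, hx, map_zero]
      · rw [LinearMap.mem_ker] at hx ⊢
        have h2 : f (G.r c b x) = G.r c b (f x) := LinearMap.congr_fun (hf.2.2 c b) x
        rw [h2, hx, map_zero]
    rcases hs.2 _ h1 with h | h
    · exact LinearMap.ker_eq_bot.1 h
    · exact absurd (LinearMap.ker_eq_top.1 h) hf0
  obtain ⟨L, _, _, _, _, ψ, hψ⟩ := SerM_field (Zc G) hc hi
  let _ : Algebra L P.M := (φ.comp ψ.toAlgHom).toRingHom.toAlgebra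
  have hst : IsScalarTower (KK k) L P.M := by
    refine IsScalarTower.of_algebraMap_eq fun s => ?_
    exact ((φ.comp ψ.toAlgHom).commutes s).symm
  have hl : ∀ c a (s : L) x, G.l c a (s • x) = s • G.l c a x := by
    intro c a s x
    rw [hψ, hψ]
    exact (LinearMap.congr_fun ((ψ s).2.2.1 c a) x).symm
  have hr : ∀ c b (s : L) x, G.r c b (s • x) = s • G.r c b x := by
    intro c b s x
    rw [hψ, hψ]
    exact (LinearMap.congr_fun ((ψ s).2.2.2 c b) x).symm
  let V : MG P A B := SerM_V P L hl hr
  let Pl : Subalgebra L (Module.End L G.E) := Algebra.adjoin L {f | ∃ c a, f = SerM_l L hl c a}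
  let Ql : Subalgebra L (Module.End L G.E) := Algebra.adjoin L {f | ∃ c b, f = SerM_r L hr c b}
  have hP : ∀ c a, (SerM_l L hl c a : Module.End L G.E) ∈ Pl :=
    fun c a => Algebra.subset_adjoin ⟨c, a, rfl⟩
  have hQ : ∀ c b, (SerM_r L hr c b : Module.End L G.E) ∈ Ql :=
    fun c b => Algebra.subset_adjoin ⟨c, b, rfl⟩
  have hlr : ∀ c a c' b, (SerM_l L hl c a : Module.End L G.E) * SerM_r L hr c' b =
      SerM_r L hr c' b * SerM_l L hl c a := by
    intro c a c' b
    have h1 : c ≤ c.sup c' := fun x hx => Or.inl hx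
    have h2 : c' ≤ c.sup c' := fun x hx => Or.inr hx
    refine LinearMap.ext fun x => ?_
    change G.l c a (G.r c' b x) = G.r c' b (G.l c a x)
    rw [← G.res_l h1, ← G.res_l h1, ← G.res_r h2, ← G.res_r h2, G.l_r]
  have hcomm : ∀ p ∈ Pl, ∀ q ∈ Ql, p * q = q * p := by
    intro p hp q hq
    induction hp using Algebra.adjoin_induction with
    | mem p hp =>
      obtain ⟨c, a, rfl⟩ := hp
      induction hq using Algebra.adjoin_induction with
      | mem q hq =>
        obtain ⟨c', b, rfl⟩ := hq
        exact hlr c a c' b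
      | algebraMap s => exact (Algebra.commutes s _).symm
      | add x y _ _ hx hy => rw [mul_add, add_mul, hx, hy]
      | mul x y _ _ hx hy => rw [← mul_assoc, hx, mul_assoc, hy, mul_assoc]
    | algebraMap s => exact Algebra.commutes s _
    | add x y _ _ hx hy => rw [mul_add, add_mul, hx, hy]
    | mul x y _ _ hx hy => rw [mul_assoc, hy, ← mul_assoc, hx, mul_assoc]
  have hres : ∀ f ∈ Pl ⊔ Ql,
      (LinearMap.restrictScalars (KK k) f : Module.End (KK k) G.E) ∈ G.Lm := by
    intro f hf
    have h0 : Pl ⊔ Ql = Algebra.adjoin L ({f | ∃ c a, f = SerM_l L hl c a} ∪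
        {f | ∃ c b, f = SerM_r L hr c b}) := (Algebra.adjoin_union _ _).symm
    rw [h0] at hf
    induction hf using Algebra.adjoin_induction with
    | mem f hf =>
      rcases hf with ⟨c, a, rfl⟩ | ⟨c, b, rfl⟩
      · exact Algebra.subset_adjoin (Or.inl ⟨c, a, rfl⟩)
      · exact Algebra.subset_adjoin (Or.inr ⟨c, b, rfl⟩)
    | algebraMap s =>
      have h1 : (LinearMap.restrictScalars (KK k) (algebraMap L (Module.End L G.E) s) :
          Module.End (KK k) G.E) = (ψ s).1 := LinearMap.ext fun x => hψ s x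
      rw [h1]
      exact (ψ s).2.1
    | add x y _ _ hx hy => exact Subalgebra.add_mem _ hx hy
    | mul x y _ _ hx hy => exact Subalgebra.mul_mem _ hx hy
  obtain ⟨n, e, hn, h1, h2⟩ := SerM_pow (K := KK k) (L := L) (M := P.M) (E := G.E) Pl Ql hcomm
    hnt (fun U hU1 hU2 => by
      have h1 : G.Stab (U.restrictScalars (KK k)) :=
        ⟨fun c a x hx => hU1 _ (hP c a) x hx, fun c b x hx => hU2 _ (hQ c b) x hx⟩
      rcases hs.2 _ h1 with h | h
      · left
        rw [eq_bot_iff]
        intro x hx
        have h3 : x ∈ U.restrictScalars (KK k) := hx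
        rw [h] at h3
        exact h3
      · right
        rw [eq_top_iff]
        intro x _
        have h3 : x ∈ U.restrictScalars (KK k) := by
          rw [h]
          exact Submodule.mem_top
        exact h3)
    (fun f hf hf1 hf2 => by
      have h1 : (LinearMap.restrictScalars (KK k) f : Module.End (KK k) G.E) ∈ Zc G :=
        ⟨hres f hf, fun c a => LinearMap.ext fun x => LinearMap.congr_fun (hf1 _ (hP c a)) x,
          fun c b => LinearMap.ext fun x => LinearMap.congr_fun (hf2 _ (hQ c b)) x⟩
      refine ⟨ψ.symm ⟨_, h1⟩, LinearMap.ext fun x => ?_⟩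
      change f x = ψ.symm ⟨_, h1⟩ • x
      rw [hψ, AlgEquiv.apply_symm_apply]
      rfl)
  have hιs : ∀ (s : KK k) (x : G.E), (1 : P.M) ⊗ₜ[L] (s • x) = s • ((1 : P.M) ⊗ₜ[L] x) := by
    intro s x
    rw [← algebraMap_smul L s x, TensorProduct.tmul_smul, algebraMap_smul]
  let ι : G.E →ₗ[KK k] V.E :=
    { toFun := fun x => ((1 : P.M) ⊗ₜ[L] x : P.M ⊗[L] G.E)
      map_add' := fun x y => TensorProduct.tmul_add _ _ _
      map_smul' := fun s x => hιs s x }
  refine ⟨V, ι, ?_, fun c a x => rfl, fun c b x => rfl, n, hn,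
    Gen.Ser.of_pow (G₀ := G) (G := (V.ten V).gen) n e ?_ ?_⟩
  · rw [eq_top_iff]
    rintro z -
    have h3 : ∀ z : P.M ⊗[L] G.E, z ∈ Submodule.span P.M (Set.range
        (fun x : G.E => ((1 : P.M) ⊗ₜ[L] x : P.M ⊗[L] G.E))) := by
      intro z
      induction z using TensorProduct.induction_on with
      | zero => exact Submodule.zero_mem _
      | add x y hx hy => exact Submodule.add_mem _ hx hy
      | tmul m x =>
        have h4 : (m ⊗ₜ[L] x : P.M ⊗[L] G.E) = m • ((1 : P.M) ⊗ₜ[L] x) := by
          rw [TensorProduct.smul_tmul', smul_eq_mul, mul_one]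
        rw [h4]
        exact Submodule.smul_mem _ _ (Submodule.subset_span ⟨x, rfl⟩)
    exact h3 z
  · intro c a z i
    exact h1 _ (hP c a) z i
  · intro c b z i
    exact h2 _ (hQ c b) z i

end Pool.Agent.MP_6e5bed_ag_PS
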