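import Pool.Agent.Lib.MP_6e5bed_ag_PS.FB
import Pool.Agent.Lib.MP_6e5bed_ag_PS.SerM
import Pool.Agent.Lib.MP_6e5bed_ag_PS.NNpd
import Pool.Agent.Lib.MP_6e5bed_ag_NS.CenB

set_option autoImplicit false

/-!
# MP_6e5bed_ag, NC PRODUCT SURFACES, final layer: from the simple quotients of the generic algebra
to the simple generic bimodules
-/

noncomputable section

namespace Pool.Agent.MP_6e5bed_ag_PS

open Pool.Agent.MP_6e5bed_ag_NC
open Pool.Agent.MP_6e5bed_ag_NS

universe u

variable {k : Type u} [Field k]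

/-- The centres of the simple quotients of the generic algebra embed into the compositum of the
separable closures of `k(s)` and of `k(t)`. -/
def CenS (A : ASh k) : Prop :=
  ∀ (Q : Type u) [Ring Q] [Algebra (KK k) Q] [FiniteDimensional (KK k) Q] [IsSimpleRing Q]
    (π : A.R (Ch.sgl (xx k 0)) →+* Q),
    (∀ (s : RR k (Ch.sgl (xx k 0))) (a : A.M (Ch.sgl (xx k 0))),
      π (s • a : A.M (Ch.sgl (xx k 0))) = (s : KK k) • π a) →
    Submodule.span (KK k) (Set.range π) = ⊤ →
    ∀ s t : Kb k, ST s t → ∀ (ψ : Subalgebra.center (KK k) Q →ₐ[KK k] Kb k)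
      (z : Subalgebra.center (KK k) Q), ψ z ∈ NN s t

private theorem FD_span {K : Type u} [Field K] {R : Type u} [Ring R] [Algebra K R]
    (S T : Set R) (h1 : (1 : R) ∈ T) (hm : ∀ x ∈ T, ∀ y ∈ T, x * y ∈ T)
    (hS : ∀ x ∈ S, ∃ (s : K), ∃ y ∈ T, x = s • y) {x : R} (hx : x ∈ Algebra.adjoin K S) :
    x ∈ Submodule.span K T := by
  induction hx using Algebra.adjoin_induction with
  | mem x hx =>
    obtain ⟨s, y, hy, rfl⟩ := hS x hx
    exact Submodule.smul_mem _ s (Submodule.subset_span hy)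
  | algebraMap s =>
    rw [Algebra.algebraMap_eq_smul_one]
    exact Submodule.smul_mem _ s (Submodule.subset_span h1)
  | add x y _ _ hx hy => exact Submodule.add_mem _ hx hy
  | mul x y _ _ hx hy =>
    have h2 : x * y ∈ Submodule.span K T * Submodule.span K T := Submodule.mul_mem_mul hx hy
    rw [Submodule.span_mul_span] at h2
    refine Submodule.span_mono ?_ h2
    rintro _ ⟨a, ha, b, hb, rfl⟩
    exact hm a ha b hb

/-- A commutative algebra of endomorphisms whose nonzero elements are injective is a field. -/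
private theorem FD_field {K E : Type u} [Field K] [AddCommGroup E] [Module K E]
    [FiniteDimensional K E] [Nontrivial E] (Z : Subalgebra K (Module.End K E))
    (hc : ∀ f ∈ Z, ∀ g ∈ Z, f * g = g * f) (hi : ∀ f ∈ Z, f ≠ 0 → Function.Injective f) :
    ∃ (L : Type u) (_ : Field L) (_ : Algebra K L) (_ : FiniteDimensional K L),
      Nonempty (L ≃ₐ[K] Z) := by
  have hfd : FiniteDimensional K Z := FiniteDimensional.finiteDimensional_subalgebra Z
  have hF : IsField Z := by
    refine ⟨⟨1, 0, one_ne_zero⟩, fun f g => Subtype.ext (hc f.1 f.2 g.1 g.2), fun {f} hf => ?_⟩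
    have h0 : f.1 ≠ 0 := fun h => hf (Subtype.ext h)
    have h1 := hi f.1 f.2 h0
    have h2 : Function.Injective (LinearMap.mulLeft K f) := by
      rw [← LinearMap.ker_eq_bot, LinearMap.ker_eq_bot']
      intro g hg
      apply Subtype.ext
      refine LinearMap.ext fun x => ?_
      have h3 : f.1 (g.1 x) = 0 := LinearMap.congr_fun (congrArg Subtype.val hg) x
      exact h1 (h3.trans (map_zero f.1).symm)
    obtain ⟨g, hg⟩ := (LinearMap.injective_iff_surjective.1 h2) 1
    exact ⟨g, hg⟩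
  let F : Field Z := hF.toField
  exact ⟨Z, F, Z.algebra, hfd, ⟨AlgEquiv.refl⟩⟩

/-- The centre of a simple generic bimodule embeds into the function field of a product of two
curves. -/
theorem hz_of_cenS [IsAlgClosed k] {A : ASh k} (hA : CenS A) (G : Gen A A) (hG : G.Simple) :
    ∃ P : PD k, Nonempty (Zc G →ₐ[KK k] P.M) := by
  let P : Subalgebra (KK k) (Module.End (KK k) G.E) :=
    Algebra.adjoin (KK k) {f | ∃ c a, f = G.l c a}
  let Q : Subalgebra (KK k) (Module.End (KK k) G.E) :=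
    Algebra.adjoin (KK k) {f | ∃ c b, f = G.r c b}
  have hPm : ∀ c a, (G.l c a : Module.End (KK k) G.E) ∈ P :=
    fun c a => Algebra.subset_adjoin ⟨c, a, rfl⟩
  have hQm : ∀ c a, (G.r c a : Module.End (KK k) G.E) ∈ Q :=
    fun c a => Algebra.subset_adjoin ⟨c, a, rfl⟩
  have hl : ∀ c a a', (G.l c (A.mul c a a') : Module.End (KK k) G.E) = G.l c a * G.l c a' :=
    fun c a a' => LinearMap.ext fun x => G.l_mul c a a' x
  have hr : ∀ c a a', (G.r c (A.mul c a a') : Module.End (KK k) G.E) = G.r c a' * G.r c a :=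
    fun c a a' => LinearMap.ext fun x => G.r_mul c a a' x
  have hl1 : ∀ c, (G.l c (A.one c) : Module.End (KK k) G.E) = 1 :=
    fun c => LinearMap.ext fun x => G.l_one c x
  have hr1 : ∀ c, (G.r c (A.one c) : Module.End (KK k) G.E) = 1 :=
    fun c => LinearMap.ext fun x => G.r_one c x
  have hls : ∀ c (s : RR k c) a, (G.l c (s • a) : Module.End (KK k) G.E) =
      (s : KK k) • G.l c a := fun c s a => LinearMap.ext fun x => G.smul_l c s a x
  have hrs : ∀ c (s : RR k c) a, (G.r c (s • a) : Module.End (KK k) G.E) =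
      (s : KK k) • G.r c a := fun c s a => LinearMap.ext fun x => G.smul_r c s a x
  have hc1 : ∀ c a d b, (G.l c a : Module.End (KK k) G.E) * G.r d b = G.r d b * G.l c a := by
    intro c a d b
    refine LinearMap.ext fun x => ?_
    let e : Ch k := c.sup d
    have h1 : c ≤ e := fun x hx => Or.inl hx
    have h2 : d ≤ e := fun x hx => Or.inr hx
    have h3 := G.l_r e (A.res h1 a) (A.res h2 b) x
    rw [G.res_l, G.res_r, G.res_r, G.res_l] at h3
    exact h3
  have hc : ∀ p ∈ P, ∀ q ∈ Q, p * q = q * p := by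
    intro p hp q hq
    induction hp using Algebra.adjoin_induction with
    | mem p hp =>
      obtain ⟨c, a, rfl⟩ := hp
      induction hq using Algebra.adjoin_induction with
      | mem q hq =>
        obtain ⟨d, b, rfl⟩ := hq
        exact hc1 c a d b
      | algebraMap s => exact (Algebra.commutes s _).symm
      | add x y _ _ hx hy => rw [mul_add, add_mul, hx, hy]
      | mul x y _ _ hx hy => rw [← mul_assoc, hx, mul_assoc, hy, mul_assoc]
    | algebraMap s => exact Algebra.commutes s _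
    | add x y _ _ hx hy => rw [mul_add, add_mul, hx, hy]
    | mul x y _ _ hx hy => rw [mul_assoc, hy, ← mul_assoc, hx, mul_assoc]
  have hPfd : FiniteDimensional (KK k) P := FiniteDimensional.finiteDimensional_subalgebra P
  have hQfd : FiniteDimensional (KK k) Q := FiniteDimensional.finiteDimensional_subalgebra Q
  obtain ⟨hPs, hQs, hgen⟩ := cen_gen (KK k) G.E P Q hc hG.1 (fun U h1 h2 => hG.2 U
    ⟨fun c a x hx => h1 _ (hPm c a) x hx, fun c b x hx => h2 _ (hQm c b) x hx⟩)
  have hPL : P ≤ G.Lm := Algebra.adjoin_mono fun _ h => Or.inl h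
  have hQL : Q ≤ G.Lm := Algebra.adjoin_mono fun _ h => Or.inr h
  -- central elements
  have hPZ : ∀ a ∈ P, (∀ p ∈ P, a * p = p * a) → a ∈ Zc G := fun a ha h =>
    ⟨hPL ha, fun c x => h _ (hPm c x), fun c x => hc a ha _ (hQm c x)⟩
  have hQZ : ∀ b ∈ Q, (∀ q ∈ Q, b * q = q * b) → b ∈ Zc G := fun b hb h =>
    ⟨hQL hb, fun c x => (hc _ (hPm c x) b hb).symm, fun c x => h _ (hQm c x)⟩
  -- the centre is a field
  have hnt : Nontrivial G.E := hG.1
  have hcl : ∀ f ∈ Zc G, ∀ g ∈ G.Lm, f * g = g * f := by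
    intro f hf g hg
    induction hg using Algebra.adjoin_induction with
    | mem g hg =>
      rcases hg with ⟨c, a, rfl⟩ | ⟨c, b, rfl⟩
      · exact hf.2.1 c a
      · exact hf.2.2 c b
    | algebraMap s => exact (Algebra.commutes s _).symm
    | add x y _ _ hx hy => rw [mul_add, add_mul, hx, hy]
    | mul x y _ _ hx hy => rw [← mul_assoc, hx, mul_assoc, hy, mul_assoc]
  have hcc : ∀ f ∈ Zc G, ∀ g ∈ Zc G, f * g = g * f := fun f hf g hg => hcl f hf g hg.1
  have hi : ∀ f ∈ Zc G, f ≠ 0 → Function.Injective f := by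
    intro f hf hf0
    have h1 : G.Stab (LinearMap.ker f) := by
      refine ⟨fun c a x hx => ?_, fun c b x hx => ?_⟩
      · rw [LinearMap.mem_ker] at hx ⊢
        have h2 : f (G.l c a x) = G.l c a (f x) := LinearMap.congr_fun (hf.2.1 c a) x
        rw [h2, hx, map_zero]
      · rw [LinearMap.mem_ker] at hx ⊢
        have h2 : f (G.r c b x) = G.r c b (f x) := LinearMap.congr_fun (hf.2.2 c b) x
        rw [h2, hx, map_zero]
    rcases hG.2 _ h1 with h | h
    · exact LinearMap.ker_eq_bot.1 h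
    · exact absurd (LinearMap.ker_eq_top.1 h) hf0
  obtain ⟨L, _, _, _, ⟨ψ⟩⟩ := FD_field (Zc G) hcc hi
  let χ : L →ₐ[KK k] Kb k := IsAlgClosed.lift
  let φ : Zc G →ₐ[KK k] Kb k := χ.comp ψ.symm.toAlgHom
  obtain ⟨s, t, hst⟩ := exists_ST k
  -- the left multiplications
  have hPN : ∀ (a : Module.End (KK k) G.E) (ha : a ∈ P) (h : ∀ p ∈ P, a * p = p * a),
      φ ⟨a, hPZ a ha h⟩ ∈ NN s t := by
    intro a ha h
    let π : A.R (Ch.sgl (xx k 0)) →+* P :=
      { toFun := fun a => ⟨G.l (Ch.sgl (xx k 0)) a, hPm _ _⟩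
        map_one' := Subtype.ext (hl1 _)
        map_mul' := fun a b => Subtype.ext (hl _ a b)
        map_zero' := Subtype.ext (map_zero (G.l (Ch.sgl (xx k 0))))
        map_add' := fun a b => Subtype.ext (map_add (G.l (Ch.sgl (xx k 0))) a b) }
    have hz : ∀ z : Subalgebra.center (KK k) P, z.1.1 ∈ Zc G := fun z =>
      hPZ z.1.1 z.1.2 fun p hp => congrArg Subtype.val
        ((Subalgebra.mem_center_iff.1 z.2 ⟨p, hp⟩).symm)
    let α : Subalgebra.center (KK k) P →ₐ[KK k] Zc G :=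
      { toFun := fun z => ⟨z.1.1, hz z⟩
        map_one' := rfl
        map_mul' := fun _ _ => rfl
        map_zero' := rfl
        map_add' := fun _ _ => rfl
        commutes' := fun _ => rfl }
    have h0 : ∀ z, (φ.comp α) z ∈ NN s t := by
      refine hA P π (fun s a => Subtype.ext (hls _ s a)) ?_ s t hst (φ.comp α)
      rw [eq_top_iff]
      intro p _
      have h1 : p.1 ∈ Submodule.span (KK k)
          (Set.range fun a => (G.l (Ch.sgl (xx k 0)) a : Module.End (KK k) G.E)) := by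
        refine FD_span {f | ∃ c a, f = G.l c a} (Set.range fun a =>
          (G.l (Ch.sgl (xx k 0)) a : Module.End (KK k) G.E)) ⟨A.one _, hl1 _⟩ ?_ ?_ p.2
        · rintro _ ⟨a, rfl⟩ _ ⟨b, rfl⟩
          exact ⟨A.mul _ a b, hl _ a b⟩
        · rintro _ ⟨c, a, rfl⟩
          obtain ⟨s, a', h⟩ := gen_l G c a
          exact ⟨s, _, ⟨a', rfl⟩, h⟩
      have h2 : (Set.range fun a => (G.l (Ch.sgl (xx k 0)) a : Module.End (KK k) G.E)) =
          (Subalgebra.toSubmodule P).subtype '' Set.range π := by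
        rw [← Set.range_comp]
        rfl
      rw [h2, Submodule.span_image] at h1
      obtain ⟨q, hq, hq'⟩ := h1
      have h3 : q = p := Subtype.ext hq'
      rw [← h3]
      exact hq
    exact h0 ⟨⟨a, ha⟩, Subalgebra.mem_center_iff.2 fun p => Subtype.ext (h p.1 p.2).symm⟩
  -- the right multiplications
  have hQN : ∀ (b : Module.End (KK k) G.E) (hb : b ∈ Q) (h : ∀ q ∈ Q, b * q = q * b),
      φ ⟨b, hQZ b hb h⟩ ∈ NN s t := by
    intro b hb h
    let π : A.R (Ch.sgl (xx k 0)) →+* Qᵐᵒᵖ :=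
      { toFun := fun a => MulOpposite.op ⟨G.r (Ch.sgl (xx k 0)) a, hQm _ _⟩
        map_one' := congrArg MulOpposite.op (Subtype.ext (hr1 _))
        map_mul' := fun a b => congrArg MulOpposite.op (Subtype.ext (hr _ a b))
        map_zero' := congrArg MulOpposite.op
          (Subtype.ext (map_zero (G.r (Ch.sgl (xx k 0)))))
        map_add' := fun a b => congrArg MulOpposite.op
          (Subtype.ext (map_add (G.r (Ch.sgl (xx k 0))) a b)) }
    have hz1 : ∀ z : Subalgebra.center (KK k) Qᵐᵒᵖ, ∀ q ∈ Q,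
        z.1.unop.1 * q = q * z.1.unop.1 := fun z q hq =>
      congrArg (fun x : Qᵐᵒᵖ => x.unop.1)
        (Subalgebra.mem_center_iff.1 z.2 (MulOpposite.op ⟨q, hq⟩))
    have hz : ∀ z : Subalgebra.center (KK k) Qᵐᵒᵖ, z.1.unop.1 ∈ Zc G := fun z =>
      hQZ z.1.unop.1 z.1.unop.2 (hz1 z)
    let α : Subalgebra.center (KK k) Qᵐᵒᵖ →ₐ[KK k] Zc G :=
      { toFun := fun z => ⟨z.1.unop.1, hz z⟩
        map_one' := rfl
        map_mul' := fun x y => Subtype.ext ((hz1 x y.1.unop.1 y.1.unop.2).symm)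
        map_zero' := rfl
        map_add' := fun _ _ => rfl
        commutes' := fun _ => rfl }
    have h0 : ∀ z, (φ.comp α) z ∈ NN s t := by
      refine hA Qᵐᵒᵖ π (fun s a => congrArg MulOpposite.op (Subtype.ext (hrs _ s a))) ?_ s t hst
        (φ.comp α)
      rw [eq_top_iff]
      intro p _
      have h1 : p.unop.1 ∈ Submodule.span (KK k)
          (Set.range fun a => (G.r (Ch.sgl (xx k 0)) a : Module.End (KK k) G.E)) := by
        refine FD_span {f | ∃ c a, f = G.r c a} (Set.range fun a =>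
          (G.r (Ch.sgl (xx k 0)) a : Module.End (KK k) G.E)) ⟨A.one _, hr1 _⟩ ?_ ?_ p.unop.2
        · rintro _ ⟨a, rfl⟩ _ ⟨b, rfl⟩
          exact ⟨A.mul _ b a, hr _ b a⟩
        · rintro _ ⟨c, a, rfl⟩
          obtain ⟨s, a', h⟩ := gen_r G c a
          exact ⟨s, _, ⟨a', rfl⟩, h⟩
      let ψ : Qᵐᵒᵖ →ₗ[KK k] Module.End (KK k) G.E :=
        (Subalgebra.toSubmodule Q).subtype ∘ₗ
          (MulOpposite.opLinearEquiv (KK k) (M := Q)).symm.toLinearMap
      have h2 : (Set.range fun a => (G.r (Ch.sgl (xx k 0)) a : Module.End (KK k) G.E)) =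
          ψ '' Set.range π := by
        rw [← Set.range_comp]
        rfl
      rw [h2, Submodule.span_image] at h1
      obtain ⟨q, hq, hq'⟩ := h1
      have h3 : q = p := MulOpposite.unop_injective (Subtype.ext hq')
      rw [← h3]
      exact hq
    exact h0 ⟨MulOpposite.op ⟨b, hb⟩, Subalgebra.mem_center_iff.2 fun p =>
      MulOpposite.unop_injective (Subtype.ext (h p.unop.1 p.unop.2))⟩
  -- all elements of the centre
  have hall : ∀ f ∈ Submodule.span (KK k) {g : Module.End (KK k) G.E | ∃ a ∈ P, ∃ b ∈ Q,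
      (∀ p ∈ P, a * p = p * a) ∧ (∀ q ∈ Q, b * q = q * b) ∧ g = a * b},
      ∃ hf : f ∈ Zc G, φ ⟨f, hf⟩ ∈ NN s t := by
    intro f hf
    induction hf using Submodule.span_induction with
    | mem g hg =>
      obtain ⟨a, ha, b, hb, h1, h2, rfl⟩ := hg
      refine ⟨(Zc G).mul_mem (hPZ a ha h1) (hQZ b hb h2), ?_⟩
      have h3 : (⟨a * b, (Zc G).mul_mem (hPZ a ha h1) (hQZ b hb h2)⟩ : Zc G) =
          ⟨a, hPZ a ha h1⟩ * ⟨b, hQZ b hb h2⟩ := rfl
      rw [h3, map_mul]
      exact mul_mem (hPN a ha h1) (hQN b hb h2)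
    | zero =>
      refine ⟨(Zc G).zero_mem, ?_⟩
      have h3 : (⟨0, (Zc G).zero_mem⟩ : Zc G) = 0 := rfl
      rw [h3, map_zero]
      exact zero_mem _
    | add x y _ _ hx hy =>
      obtain ⟨hx1, hx2⟩ := hx
      obtain ⟨hy1, hy2⟩ := hy
      refine ⟨(Zc G).add_mem hx1 hy1, ?_⟩
      have h3 : (⟨x + y, (Zc G).add_mem hx1 hy1⟩ : Zc G) = ⟨x, hx1⟩ + ⟨y, hy1⟩ := rfl
      rw [h3, map_add]
      exact add_mem hx2 hy2
    | smul c x _ hx =>
      obtain ⟨hx1, hx2⟩ := hx
      refine ⟨(Zc G).smul_mem hx1 c, ?_⟩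
      have h3 : (⟨c • x, (Zc G).smul_mem hx1 c⟩ : Zc G) = c • ⟨x, hx1⟩ := rfl
      rw [h3, map_smul]
      exact (NN s t).smul_mem hx2
  have hLm : G.Lm = P ⊔ Q := (Algebra.adjoin_union _ _)
  have hcom : ∀ (f : Zc G), (∀ p ∈ P, f.1 * p = p * f.1) ∧ (∀ q ∈ Q, f.1 * q = q * f.1) :=
    fun f => ⟨fun p hp => hcl f.1 f.2 p (hPL hp), fun q hq => hcl f.1 f.2 q (hQL hq)⟩
  obtain ⟨PP, ⟨θ⟩⟩ := exists_pd_of_hom hst L χ fun z => by
    have h1 : (ψ z).1 ∈ P ⊔ Q := by
      rw [← hLm]
      exact (ψ z).2.1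
    obtain ⟨h2, h3⟩ := hall _ (hgen _ h1 (hcom (ψ z)).1 (hcom (ψ z)).2)
    have h4 : φ ⟨(ψ z).1, h2⟩ = χ z := by
      change χ (ψ.symm (ψ z)) = χ z
      rw [AlgEquiv.symm_apply_apply]
    rw [← h4]
    exact h3
  exact ⟨PP, ⟨θ.comp ψ.symm.toAlgHom⟩⟩

end Pool.Agent.MP_6e5bed_ag_PS
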