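import Pool.Agent.Lib.MP_6e5bed_ag_PS.StN
import Pool.Agent.Lib.MP_6e5bed_ag_PS.FD
import Pool.Agent.Lib.MP_6e5bed_ag_NS.StP7

set_option autoImplicit false

/-!
# MP_6e5bed_ag, NC PRODUCT SURFACES, final layer: the condition on the centres
-/

noncomputable section

namespace Pool.Agent.MP_6e5bed_ag_PS

open Pool.Agent.MP_6e5bed_ag_NC
open Pool.Agent.MP_6e5bed_ag_NS
open Pool.Agent.MP_6e5bed_ag_P2 (IsGr CenN)

universe u

section fields

/-- Separable elements are mapped to separable elements. -/
theorem isSep_map {A B N Ω : Type u} [Field A] [Field B] [Field N] [Field Ω] [Algebra A N]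
    [Algebra B Ω] (i : A →+* B) (θ : N →+* Ω)
    (h : ∀ a, θ (algebraMap A N a) = algebraMap B Ω (i a)) {x : N} (hx : IsSeparable A x) :
    IsSeparable B (θ x) := by
  have h1 : Polynomial.aeval (θ x) ((minpoly A x).map i) = 0 := by
    rw [Polynomial.aeval_def, Polynomial.eval₂_map]
    have h2 : (algebraMap B Ω).comp i = θ.comp (algebraMap A N) :=
      RingHom.ext fun a => (h a).symm
    rw [h2, ← Polynomial.hom_eval₂, ← Polynomial.aeval_def, minpoly.aeval, map_zero]
  have h3 : ((minpoly A x).map i).Separable := Polynomial.Separable.map hx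
  exact Polynomial.Separable.of_dvd h3 (minpoly.dvd B _ h1)

variable {k K N Ω : Type u} [Field k] [Field K] [Field N] [Field Ω] [Algebra k N] [Algebra K Ω]

theorem adj_map (j : k →+* K) (θ : N →+* Ω)
    (h : ∀ c, θ (algebraMap k N c) = algebraMap K Ω (j c)) (S : Set N) (T : Set Ω)
    (hST : ∀ x ∈ S, θ x ∈ IntermediateField.adjoin K T) :
    ∀ x ∈ IntermediateField.adjoin k S, θ x ∈ IntermediateField.adjoin K T := by
  intro x hx
  induction hx using IntermediateField.adjoin_induction with
  | mem x hx => exact hST x hx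
  | algebraMap x => rw [h]; exact IntermediateField.algebraMap_mem _ _
  | add x y _ _ hx hy => rw [map_add]; exact add_mem hx hy
  | inv x _ hx => rw [map_inv₀]; exact inv_mem hx
  | mul x y _ _ hx hy => rw [map_mul]; exact mul_mem hx hy

theorem sep_map (j : k →+* K) (θ : N →+* Ω)
    (h : ∀ c, θ (algebraMap k N c) = algebraMap K Ω (j c)) (r : N) {x : N}
    (hx : IsSeparable (IntermediateField.adjoin k {r}) x) :
    IsSeparable (IntermediateField.adjoin K {θ r}) (θ x) := by
  have h1 : ∀ a ∈ IntermediateField.adjoin k {r}, θ a ∈ IntermediateField.adjoin K {θ r} :=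
    adj_map j θ h _ _ fun x hx => by
      rw [Set.mem_singleton_iff] at hx
      rw [hx]
      exact IntermediateField.mem_adjoin_simple_self K _
  let i : IntermediateField.adjoin k {r} →+* IntermediateField.adjoin K {θ r} :=
    { toFun := fun a => ⟨θ a.1, h1 a.1 a.2⟩
      map_one' := Subtype.ext (map_one θ)
      map_mul' := fun a b => Subtype.ext (map_mul θ a.1 b.1)
      map_zero' := Subtype.ext (map_zero θ)
      map_add' := fun a b => Subtype.ext (map_add θ a.1 b.1) }
  exact isSep_map i θ (fun _ => rfl) hx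

/-- the elements which are separable algebraic over `k(s)` or over `k(t)` -/
def SepU (k : Type u) {N : Type u} [Field k] [Field N] [Algebra k N] (s t : N) : Set N :=
  {x : N | IsSeparable (IntermediateField.adjoin k {s}) x ∨
    IsSeparable (IntermediateField.adjoin k {t}) x}

theorem SepU_swap (k : Type u) {N : Type u} [Field k] [Field N] [Algebra k N] (s t : N) :
    SepU k s t = SepU k t s := Set.ext fun _ => or_comm

theorem SepU_map (j : k →+* K) (θ : N →+* Ω)
    (h : ∀ c, θ (algebraMap k N c) = algebraMap K Ω (j c)) (s t : N) {x : N}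
    (hx : x ∈ SepU k s t) : θ x ∈ SepU K (θ s) (θ t) := by
  rcases hx with hx | hx
  · exact Or.inl (sep_map j θ h s hx)
  · exact Or.inr (sep_map j θ h t hx)

/-- the compositum is mapped to the compositum -/
theorem SC_map (j : k →+* K) (θ : N →+* Ω)
    (h : ∀ c, θ (algebraMap k N c) = algebraMap K Ω (j c)) (s t : N) {x : N}
    (hx : x ∈ IntermediateField.adjoin k (SepU k s t)) :
    θ x ∈ IntermediateField.adjoin K (SepU K (θ s) (θ t)) :=
  adj_map j θ h _ _ (fun _ hx => IntermediateField.subset_adjoin _ _ (SepU_map j θ h s t hx)) x hx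

/-- The condition does not depend on the choice of the field and of the embedding. -/
theorem SC_indep {k Z N Ω : Type u} [Field k] [Field Z] [Field N] [Field Ω] [IsAlgClosed Ω]
    [Algebra k N] [Algebra k Ω] (φ : Z →+* N) (ψ : Z →+* Ω) (c : k →+* Z)
    (hφ : ∀ a, φ (c a) = algebraMap k N a) (hψ : ∀ a, ψ (c a) = algebraMap k Ω a)
    (u v : Z) (s0 t0 : N) (h1 : s0 * t0 = φ u) (h2 : (s0 - 1) * (t0 - 1) = φ v)
    (hN : IntermediateField.adjoin k (SepU k s0 t0) = ⊤)
    (s t : Ω) (h3 : s * t = ψ u) (h4 : (s - 1) * (t - 1) = ψ v) (z : Z) :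
    ψ z ∈ IntermediateField.adjoin k (SepU k s t) := by
  let _ : Algebra Z N := φ.toAlgebra
  let _ : Algebra Z Ω := ψ.toAlgebra
  have hφ' : ∀ z, algebraMap Z N z = φ z := fun _ => rfl
  have hψ' : ∀ z, algebraMap Z Ω z = ψ z := fun _ => rfl
  have hs : ∀ s0 t0 : N, s0 * t0 = φ u → (s0 - 1) * (t0 - 1) = φ v →
      s0 ∈ algebraicClosure Z N := by
    intro s0 t0 h1 h2
    rw [mem_algebraicClosure_iff]
    refine ⟨Polynomial.C (1 : Z) * Polynomial.X ^ 2 + Polynomial.C (-(u - v + 1)) * Polynomial.X +
      Polynomial.C u, ?_, ?_⟩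
    · intro h
      have h5 : (Polynomial.C (1 : Z) * Polynomial.X ^ 2 + Polynomial.C (-(u - v + 1)) *
          Polynomial.X + Polynomial.C u).degree = 2 := Polynomial.degree_quadratic one_ne_zero
      rw [h, Polynomial.degree_zero] at h5
      exact absurd h5 (by decide)
    · simp only [map_add, map_mul, Polynomial.aeval_C, Polynomial.aeval_X, map_pow, map_neg,
        map_sub, map_one, hφ']
      linear_combination (s0 - 1) * h1 - s0 * h2
  have hs0 := hs s0 t0 h1 h2
  have ht0 := hs t0 s0 (by rw [mul_comm]; exact h1) (by rw [mul_comm]; exact h2)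
  have hk : ∀ a : k, algebraMap k N a ∈ algebraicClosure Z N := by
    intro a
    rw [← hφ, ← hφ']
    exact IntermediateField.algebraMap_mem _ _
  have hsep : ∀ r ∈ algebraicClosure Z N, ∀ x : N,
      IsSeparable (IntermediateField.adjoin k {r}) x → x ∈ algebraicClosure Z N := by
    intro r hr x hx
    have h5 : ∀ a ∈ IntermediateField.adjoin k {r}, a ∈ algebraicClosure Z N := by
      intro a ha
      induction ha using IntermediateField.adjoin_induction with
      | mem x hx =>
        rw [Set.mem_singleton_iff] at hx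
        rw [hx]
        exact hr
      | algebraMap x => exact hk x
      | add x y _ _ hx hy => exact add_mem hx hy
      | inv x _ hx => exact inv_mem hx
      | mul x y _ _ hx hy => exact mul_mem hx hy
    let i : IntermediateField.adjoin k {r} →+* algebraicClosure Z N :=
      { toFun := fun a => ⟨a.1, h5 a.1 a.2⟩
        map_one' := rfl
        map_mul' := fun _ _ => rfl
        map_zero' := rfl
        map_add' := fun _ _ => rfl }
    have h6 : IsSeparable (algebraicClosure Z N) x :=
      isSep_map i (RingHom.id N) (fun _ => rfl) hx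
    have h7 : IsIntegral Z x := isIntegral_trans (R := Z) (A := algebraicClosure Z N) x h6.isIntegral
    exact mem_algebraicClosure_iff.2 h7.isAlgebraic
  have hall : ∀ x ∈ IntermediateField.adjoin k (SepU k s0 t0), x ∈ algebraicClosure Z N := by
    intro x hx
    induction hx using IntermediateField.adjoin_induction with
    | mem x hx =>
      rcases hx with hx | hx
      · exact hsep s0 hs0 x hx
      · exact hsep t0 ht0 x hx
    | algebraMap x => exact hk x
    | add x y _ _ hx hy => exact add_mem hx hy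
    | inv x _ hx => exact inv_mem hx
    | mul x y _ _ hx hy => exact mul_mem hx hy
  have halg : Algebra.IsAlgebraic Z N := by
    refine ⟨fun x => mem_algebraicClosure_iff.1 (hall x ?_)⟩
    rw [hN]
    exact IntermediateField.mem_top
  let θ : N →ₐ[Z] Ω := IsAlgClosed.lift
  have hθ : ∀ z, θ (φ z) = ψ z := fun z => θ.commutes z
  have hθk : ∀ a : k, (θ : N →+* Ω) (algebraMap k N a) = algebraMap k Ω (RingHom.id k a) := by
    intro a
    rw [← hφ, RingHom.id_apply, ← hψ]
    exact hθ _
  have h5 : θ s0 * θ t0 = ψ u := by rw [← map_mul, h1, hθ]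
  have h6 : (θ s0 - 1) * (θ t0 - 1) = ψ v := by
    rw [← map_one θ, ← map_sub, ← map_sub, ← map_mul, h2, hθ]
  have h7 : θ (φ z) ∈ IntermediateField.adjoin k (SepU k (θ s0) (θ t0)) :=
    SC_map (RingHom.id k) (θ : N →+* Ω) hθk s0 t0 (by rw [hN]; exact IntermediateField.mem_top)
  rw [hθ] at h7
  have h0 : (θ s0 - s) * (θ s0 - t) = 0 := by
    linear_combination (-θ s0 + 1) * h3 + θ s0 * h4 + (θ s0 - 1) * h5 - θ s0 * h6
  rcases mul_eq_zero.1 h0 with h8 | h8
  · have h9 : θ s0 = s := sub_eq_zero.1 h8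
    have h10 : θ t0 = t := by linear_combination h5 - h6 - h3 + h4 - h8
    rw [h9, h10] at h7
    exact h7
  · have h9 : θ s0 = t := sub_eq_zero.1 h8
    have h10 : θ t0 = s := by linear_combination h5 - h6 - h3 + h4 - h8
    rw [h9, h10, SepU_swap] at h7
    exact h7

end fields

variable {k : Type u} [Field k]

/-- The condition on the centres, internal form. -/
def CenI (k Γ : Type u) [Field k] [Ring Γ] [Algebra (MvPolynomial (Fin 3) k) Γ] : Prop :=
  ∀ (Q : Type u) [Ring Q] [Algebra (KK k) Q] [FiniteDimensional (KK k) Q] [IsSimpleRing Q]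
    (π : Γ →+* Q),
    (∀ p : MvPolynomial (Fin 3) k, π (algebraMap _ Γ p) = algebraMap (KK k) Q (ev p)) →
    Submodule.span (KK k) (Set.range π) = ⊤ →
    ∀ (Ω : Type u) [Field Ω] [IsAlgClosed Ω] [Algebra k Ω] [Algebra (KK k) Ω]
      [IsScalarTower k (KK k) Ω] (s t : Ω), s * t = algebraMap (KK k) Ω (uu k 1) →
      (s - 1) * (t - 1) = algebraMap (KK k) Ω (uu k 2) →
      ∀ (ψ : Subalgebra.center (KK k) Q →ₐ[KK k] Ω) (z : Subalgebra.center (KK k) Q),
        ψ z ∈ IntermediateField.adjoin k (SepU k s t)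

private theorem FE_field {K Q : Type u} [Field K] [Ring Q] [Algebra K Q] [IsSimpleRing Q] :
    IsField (Subalgebra.center K Q) := by
  have h := IsSimpleRing.isField_center Q
  refine ⟨⟨0, 1, zero_ne_one⟩, mul_comm, fun {a} ha => ?_⟩
  have h1 : (⟨a.1, a.2⟩ : Subring.center Q) ≠ 0 := fun h => ha (Subtype.ext (congrArg Subtype.val h))
  obtain ⟨b, hb⟩ := h.mul_inv_cancel h1
  exact ⟨⟨b.1, b.2⟩, Subtype.ext (congrArg Subtype.val hb)⟩

theorem CenN.toI {Γ : Type u} [Ring Γ] [Algebra (MvPolynomial (Fin 3) k) Γ] (h : CenN k Γ) :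
    CenI k Γ := by
  intro Q _ _ _ _ π hπ hs Ω _ _ _ _ _ s t hst1 hst2 ψ z
  obtain ⟨N, _, _, s0, t0, φ, hN, hφ⟩ := h (KK k) Q π
    (fun p => by rw [hπ, Pool.Agent.MP_6e5bed_ag_P2.ev_eq]) hs
  let _ : Field (Subalgebra.center (KK k) Q) := FE_field.toField
  have hu : φ (algebraMap (KK k) _ (uu k 1)) = s0 * t0 := by
    have := hφ (MvPolynomial.X 0)
    rw [MvPolynomial.aeval_X] at this
    exact this
  have hv : φ (algebraMap (KK k) _ (uu k 2)) = (s0 - 1) * (t0 - 1) := by
    have := hφ (MvPolynomial.X 1)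
    rw [MvPolynomial.aeval_X] at this
    exact this
  refine SC_indep φ ψ.toRingHom ((algebraMap (KK k) (Subalgebra.center (KK k) Q)).comp
    (algebraMap k (KK k))) ?_ ?_ (algebraMap (KK k) _ (uu k 1)) (algebraMap (KK k) _ (uu k 2))
    s0 t0 hu.symm hv.symm hN s t ?_ ?_ z
  · intro a
    have := hφ (MvPolynomial.C a)
    rw [MvPolynomial.aeval_C] at this
    rw [← this, RingHom.comp_apply, IsScalarTower.algebraMap_apply k (MvPolynomial (Fin 2) k) (KK k)]
    rfl
  · intro a
    rw [RingHom.comp_apply]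
    change ψ (algebraMap (KK k) _ (algebraMap k (KK k) a)) = _
    rw [AlgHom.commutes, ← IsScalarTower.algebraMap_apply]
  · change _ = ψ (algebraMap (KK k) _ (uu k 1))
    rw [AlgHom.commutes, hst1]
  · change _ = ψ (algebraMap (KK k) _ (uu k 2))
    rw [AlgHom.commutes, hst2]

end Pool.Agent.MP_6e5bed_ag_PS
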