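import Pool.Agent.Lib.MP_6e5bed_ag_PS.FE
import Pool.Agent.Lib.MP_6e5bed_ag_NS.GrK

set_option autoImplicit false

/-!
# MP_6e5bed_ag, NC PRODUCT SURFACES, final layer: base change of the condition on the centres, and
the sheaf of a graded algebra
-/

noncomputable section

namespace Pool.Agent.MP_6e5bed_ag_PS

open Pool.Agent.MP_6e5bed_ag_NC
open Pool.Agent.MP_6e5bed_ag_NS
open MvPolynomial
open scoped TensorProduct

universe u

section base

variable {k : Type u} [Field k] {Ω : Type u} [Field Ω] [Algebra k Ω]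

theorem left_mem_SC (s t : Ω) : s ∈ IntermediateField.adjoin k (SepU k s t) := by
  refine IntermediateField.subset_adjoin _ _ (Or.inl ?_)
  exact isSeparable_algebraMap (K := Ω)
    (⟨s, IntermediateField.mem_adjoin_simple_self k s⟩ : IntermediateField.adjoin k {s})

theorem right_mem_SC (s t : Ω) : t ∈ IntermediateField.adjoin k (SepU k s t) := by
  rw [SepU_swap]
  exact left_mem_SC t s

/-- `k(u, v)` is contained in the compositum -/
theorem KK_mem_SC [Algebra (KK k) Ω] [IsScalarTower k (KK k) Ω] {s t : Ω}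
    (h1 : s * t = algebraMap (KK k) Ω (uu k 1))
    (h2 : (s - 1) * (t - 1) = algebraMap (KK k) Ω (uu k 2)) (c : KK k) :
    algebraMap (KK k) Ω c ∈ IntermediateField.adjoin k (SepU k s t) := by
  have hs := left_mem_SC (k := k) s t
  have ht := right_mem_SC (k := k) s t
  have key : ∀ p : MvPolynomial (Fin 2) k, algebraMap (KK k) Ω (algebraMap _ (KK k) p) ∈
      IntermediateField.adjoin k (SepU k s t) := by
    intro p
    induction p using MvPolynomial.induction_on with
    | C a =>
      have h3 : algebraMap (KK k) Ω (algebraMap (MvPolynomial (Fin 2) k) (KK k) (C a)) =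
          algebraMap k Ω a := by
        rw [IsScalarTower.algebraMap_apply k (KK k) Ω,
          IsScalarTower.algebraMap_apply k (MvPolynomial (Fin 2) k) (KK k),
          MvPolynomial.algebraMap_eq]
      rw [h3]
      exact IntermediateField.algebraMap_mem _ _
    | add p q hp hq => rw [map_add, map_add]; exact add_mem hp hq
    | mul_X p i hp =>
      rw [map_mul, map_mul]
      refine mul_mem hp ?_
      fin_cases i
      · change algebraMap (KK k) Ω (uu k 1) ∈ _
        rw [← h1]
        exact mul_mem hs ht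
      · change algebraMap (KK k) Ω (uu k 2) ∈ _
        rw [← h2]
        exact mul_mem (sub_mem hs (one_mem _)) (sub_mem ht (one_mem _))
  obtain ⟨p, q, hq, rfl⟩ := IsFractionRing.div_surjective (A := MvPolynomial (Fin 2) k) c
  rw [map_div₀]
  exact div_mem (key p) (key q)

end base

section ext

variable {k : Type u} [Field k] (K : Type u) [Field K] [Algebra k K]
  {Γ : Type u} [Ring Γ] [Algebra k Γ] [Algebra (MvPolynomial (Fin 3) k) Γ]
  [IsScalarTower k (MvPolynomial (Fin 3) k) Γ]

/-- the inclusion `k(u, v) → K(u, v)` -/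
private def FF_i (k : Type u) [Field k] (K : Type u) [Field K] [Algebra k K] : KK k →+* KK K :=
  IsFractionRing.lift (A := MvPolynomial (Fin 2) k)
    (g := (algebraMap (MvPolynomial (Fin 2) K) (KK K)).comp (MvPolynomial.map (algebraMap k K)))
    (fun _ _ h => MvPolynomial.map_injective _ (algebraMap k K).injective
      (IsFractionRing.injective (MvPolynomial (Fin 2) K) (KK K) h))

private theorem FF_i_alg (p : MvPolynomial (Fin 2) k) :
    FF_i k K (algebraMap _ _ p) = algebraMap _ _ (MvPolynomial.map (algebraMap k K) p) :=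
  IsFractionRing.lift_algebraMap _ _

private theorem FF_uu (i : Fin 3) : FF_i k K (uu k i) = uu K i := by
  have h0 : uu k 0 = 1 := rfl
  have h1 : uu k 1 = algebraMap (MvPolynomial (Fin 2) k) (KK k) (X 0) := rfl
  have h2 : uu k 2 = algebraMap (MvPolynomial (Fin 2) k) (KK k) (X 1) := rfl
  have h0' : uu K 0 = 1 := rfl
  have h1' : uu K 1 = algebraMap (MvPolynomial (Fin 2) K) (KK K) (X 0) := rfl
  have h2' : uu K 2 = algebraMap (MvPolynomial (Fin 2) K) (KK K) (X 1) := rfl
  fin_cases i
  · change FF_i k K (uu k 0) = uu K 0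
    rw [h0, h0', map_one]
  · change FF_i k K (uu k 1) = uu K 1
    rw [h1, h1', FF_i_alg, MvPolynomial.map_X]
  · change FF_i k K (uu k 2) = uu K 2
    rw [h2, h2', FF_i_alg, MvPolynomial.map_X]

private theorem FF_c (a : k) :
    FF_i k K (algebraMap k (KK k) a) = algebraMap K (KK K) (algebraMap k K a) := by
  rw [IsScalarTower.algebraMap_apply k (MvPolynomial (Fin 2) k) (KK k),
    IsScalarTower.algebraMap_apply K (MvPolynomial (Fin 2) K) (KK K), FF_i_alg,
    MvPolynomial.algebraMap_eq, MvPolynomial.algebraMap_eq, MvPolynomial.map_C]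

private theorem FF_ev (p : MvPolynomial (Fin 3) k) :
    FF_i k K (ev p) = ev (MvPolynomial.map (algebraMap k K) p) := by
  unfold ev
  induction p using MvPolynomial.induction_on with
  | C a =>
    rw [MvPolynomial.map_C, MvPolynomial.aeval_C, MvPolynomial.aeval_C, FF_c]
  | add p q hp hq => rw [map_add, map_add, map_add, map_add, hp, hq]
  | mul_X p i hp =>
    rw [map_mul, map_mul, map_mul, map_mul, hp, MvPolynomial.aeval_X, MvPolynomial.map_X,
      MvPolynomial.aeval_X, FF_uu]

private theorem FF_aux (hf : Module.Finite (MvPolynomial (Fin 3) k) Γ) (hc : CenI k Γ)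
    (Q : Type u) [Ring Q] [Algebra (KK K) Q] [FiniteDimensional (KK K) Q] [IsSimpleRing Q]
    [Algebra (KK k) (KK K)] [Algebra (KK k) Q] [IsScalarTower (KK k) (KK K) Q]
    (hι : ∀ p : MvPolynomial (Fin 3) k, algebraMap (KK k) (KK K) (ev p) =
      ev (MvPolynomial.map (algebraMap k K) p))
    (π : GK k K Γ →+* Q)
    (hπ : ∀ p : MvPolynomial (Fin 3) K, π (algebraMap _ _ p) = algebraMap (KK K) Q (ev p))
    (hs : Submodule.span (KK K) (Set.range π) = ⊤)
    (Ω : Type u) [Field Ω] [IsAlgClosed Ω] [Algebra K Ω] [Algebra (KK K) Ω]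
    [IsScalarTower K (KK K) Ω] [Algebra k Ω] [Algebra (KK k) Ω] [IsScalarTower k (KK k) Ω]
    [IsScalarTower k K Ω] [IsScalarTower (KK k) (KK K) Ω]
    (s t : Ω) (h1 : s * t = algebraMap (KK K) Ω (uu K 1))
    (h2 : (s - 1) * (t - 1) = algebraMap (KK K) Ω (uu K 2))
    (h1' : s * t = algebraMap (KK k) Ω (uu k 1))
    (h2' : (s - 1) * (t - 1) = algebraMap (KK k) Ω (uu k 2))
    (ψ : Subalgebra.center (KK K) Q →ₐ[KK K] Ω) (z : Subalgebra.center (KK K) Q) :
    ψ z ∈ IntermediateField.adjoin K (SepU K s t) := by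
  let f : Γ →+* Q := π.comp (GK.inc K Γ).toRingHom
  have hfa : ∀ a, f a = π (GK.inc K Γ a) := fun a => rfl
  have hfp : ∀ p : MvPolynomial (Fin 3) k, f (algebraMap _ Γ p) = algebraMap (KK k) Q (ev p) := by
    intro p
    rw [hfa, ← GK.algebraMap_map, hπ, ← hι, ← IsScalarTower.algebraMap_apply]
  have hmul : ∀ x y, x ∈ Submodule.span (KK k) (Set.range f) →
      y ∈ Submodule.span (KK k) (Set.range f) → x * y ∈ Submodule.span (KK k) (Set.range f) := by
    intro x y hx hy
    have h1 : x * y ∈ Submodule.span (KK k) (Set.range f) * Submodule.span (KK k) (Set.range f) :=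
      Submodule.mul_mem_mul hx hy
    rw [Submodule.span_mul_span] at h1
    refine Submodule.span_mono ?_ h1
    rintro _ ⟨_, ⟨a, rfl⟩, _, ⟨b, rfl⟩, rfl⟩
    exact ⟨a * b, map_mul f a b⟩
  let P : Subalgebra (KK k) Q := (Submodule.span (KK k) (Set.range f)).toSubalgebra
    (Submodule.subset_span ⟨1, map_one f⟩) hmul
  have hPm : ∀ x, x ∈ P ↔ x ∈ Submodule.span (KK k) (Set.range f) := fun x => Iff.rfl
  have hfin : FiniteDimensional (KK k) P := by
    obtain ⟨S, hS⟩ := hf.fg_top
    have h1 : Submodule.span (KK k) (Set.range f) ≤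
        Submodule.span (KK k) (f '' (S : Set Γ)) := by
      rw [Submodule.span_le]
      rintro _ ⟨a, rfl⟩
      have ha : a ∈ Submodule.span (MvPolynomial (Fin 3) k) (S : Set Γ) := by
        rw [hS]
        exact Submodule.mem_top
      induction ha using Submodule.span_induction with
      | mem a ha => exact Submodule.subset_span ⟨a, ha, rfl⟩
      | zero => rw [map_zero]; exact Submodule.zero_mem _
      | add a b _ _ ha hb => rw [map_add]; exact Submodule.add_mem _ ha hb
      | smul p a _ ha =>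
        rw [Algebra.smul_def, map_mul, hfp, ← Algebra.smul_def]
        exact Submodule.smul_mem _ _ ha
    have h2 : FiniteDimensional (KK k) (Submodule.span (KK k) (f '' (S : Set Γ))) :=
      FiniteDimensional.span_of_finite _ (S.finite_toSet.image f)
    have h3 : FiniteDimensional (KK k) (Submodule.span (KK k) (Set.range f)) :=
      Submodule.finiteDimensional_of_le h1
    exact (Subalgebra.finiteDimensional_toSubmodule (S := P)).1 h3
  have hsp : Submodule.span (KK K) (P : Set Q) = ⊤ := by
    rw [eq_top_iff, ← hs, Submodule.span_le]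
    rintro _ ⟨z, rfl⟩
    change π z ∈ Submodule.span (KK K) (P : Set Q)
    have key : ∀ z : K ⊗[k] Γ, π (z : GK k K Γ) ∈ Submodule.span (KK K) (P : Set Q) := by
      intro z
      induction z using TensorProduct.induction_on with
      | zero =>
        have h1 : π ((0 : K ⊗[k] Γ) : GK k K Γ) = 0 := map_zero π
        rw [h1]
        exact Submodule.zero_mem _
      | add x y hx hy =>
        have h1 : π ((x + y : K ⊗[k] Γ) : GK k K Γ) = π (x : GK k K Γ) + π (y : GK k K Γ) :=
          map_add π _ _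
        rw [h1]
        exact Submodule.add_mem _ hx hy
      | tmul c a =>
        have h1 : ((c ⊗ₜ[k] a : K ⊗[k] Γ) : GK k K Γ) =
            algebraMap (MvPolynomial (Fin 3) K) (GK k K Γ) (C c) * GK.inc K Γ a := by
          have h2 : algebraMap (MvPolynomial (Fin 3) K) (GK k K Γ) (C c) =
              algebraMap K (GK k K Γ) c := by
            rw [← MvPolynomial.algebraMap_eq, ← IsScalarTower.algebraMap_apply]
          rw [h2]
          change (c ⊗ₜ[k] a : K ⊗[k] Γ) = (c ⊗ₜ[k] (1 : Γ)) * ((1 : K) ⊗ₜ[k] a)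
          rw [Algebra.TensorProduct.tmul_mul_tmul, mul_one, one_mul]
        have h3 : π ((c ⊗ₜ[k] a : K ⊗[k] Γ) : GK k K Γ) =
            algebraMap (KK K) Q (ev (C c)) * f a := by
          have h4 : π ((c ⊗ₜ[k] a : K ⊗[k] Γ) : GK k K Γ) =
              π (algebraMap (MvPolynomial (Fin 3) K) (GK k K Γ) (C c) * GK.inc K Γ a) :=
            congrArg π h1
          refine h4.trans ((map_mul π _ _).trans ?_)
          rw [hπ, hfa]
        rw [h3, ← Algebra.smul_def]
        exact Submodule.smul_mem _ _ (Submodule.subset_span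
          ((hPm _).2 (Submodule.subset_span ⟨a, rfl⟩)))
    exact key z
  obtain ⟨hsim, hcen⟩ := cen_bc (KK k) (KK K) Q P hfin hsp
  let g : Γ →+* P := f.codRestrict P fun a => (hPm _).2 (Submodule.subset_span ⟨a, rfl⟩)
  have hgs : Submodule.span (KK k) (Set.range g) = ⊤ := by
    rw [eq_top_iff]
    rintro ⟨x, hx⟩ -
    have key : ∀ (x : Q) (hx : x ∈ Submodule.span (KK k) (Set.range f)),
        (⟨x, (hPm x).2 hx⟩ : P) ∈ Submodule.span (KK k) (Set.range g) := by
      intro x hx
      induction hx using Submodule.span_induction with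
      | mem x hx =>
        obtain ⟨a, rfl⟩ := hx
        exact Submodule.subset_span ⟨a, rfl⟩
      | zero => exact Submodule.zero_mem _
      | add x y hx hy ihx ihy => exact Submodule.add_mem _ ihx ihy
      | smul s x hx ih => exact Submodule.smul_mem _ s ih
    exact key x ((hPm x).1 hx)
  -- the centre of `P` is contained in the centre of `Q`
  have hz : ∀ z : Subalgebra.center (KK k) P, z.1.1 ∈ Subalgebra.center (KK K) Q := by
    intro z
    rw [Subalgebra.mem_center_iff]
    intro x
    have hx : x ∈ Submodule.span (KK K) (P : Set Q) := by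
      rw [hsp]
      exact Submodule.mem_top
    induction hx using Submodule.span_induction with
    | mem x hx => exact congrArg Subtype.val (Subalgebra.mem_center_iff.1 z.2 ⟨x, hx⟩)
    | zero => rw [mul_zero, zero_mul]
    | add x y _ _ hx hy => rw [mul_add, add_mul, hx, hy]
    | smul s x _ hx => rw [mul_smul_comm, smul_mul_assoc, hx]
  let ψ' : Subalgebra.center (KK k) P →ₐ[KK k] Ω :=
    { toFun := fun z => ψ ⟨z.1.1, hz z⟩
      map_one' := map_one ψ
      map_mul' := fun x y => map_mul ψ ⟨x.1.1, hz x⟩ ⟨y.1.1, hz y⟩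
      map_zero' := map_zero ψ
      map_add' := fun x y => map_add ψ ⟨x.1.1, hz x⟩ ⟨y.1.1, hz y⟩
      commutes' := fun c => by
        have h3 : (⟨(algebraMap (KK k) (Subalgebra.center (KK k) P) c).1.1,
            hz (algebraMap (KK k) (Subalgebra.center (KK k) P) c)⟩ : Subalgebra.center (KK K) Q) =
            algebraMap (KK K) _ (algebraMap (KK k) (KK K) c) := by
          refine Subtype.ext ?_
          change algebraMap (KK k) Q c = algebraMap (KK K) Q (algebraMap (KK k) (KK K) c)
          exact IsScalarTower.algebraMap_apply _ _ _ _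
        rw [h3, AlgHom.commutes, ← IsScalarTower.algebraMap_apply] }
  have key : ∀ y ∈ Submodule.span (KK K) {a : Q | a ∈ P ∧ ∀ x, a * x = x * a},
      ∃ hy : y ∈ Subalgebra.center (KK K) Q, ψ ⟨y, hy⟩ ∈ IntermediateField.adjoin K (SepU K s t) := by
    intro y hy
    induction hy using Submodule.span_induction with
    | mem a ha =>
      refine ⟨Subalgebra.mem_center_iff.2 fun x => (ha.2 x).symm, ?_⟩
      have h3 := hc P g (fun p => Subtype.ext (hfp p)) hgs Ω s t h1' h2' ψ'
        ⟨⟨a, ha.1⟩, Subalgebra.mem_center_iff.2 fun x => Subtype.ext (ha.2 x.1).symm⟩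
      exact SC_map (algebraMap k K) (RingHom.id Ω)
        (fun c => IsScalarTower.algebraMap_apply k K Ω c) s t h3
    | zero =>
      refine ⟨zero_mem _, ?_⟩
      have h3 : (⟨0, zero_mem _⟩ : Subalgebra.center (KK K) Q) = 0 := rfl
      rw [h3, map_zero]
      exact zero_mem _
    | add x y _ _ hx hy =>
      obtain ⟨hx1, hx2⟩ := hx
      obtain ⟨hy1, hy2⟩ := hy
      refine ⟨add_mem hx1 hy1, ?_⟩
      have h3 : (⟨x + y, add_mem hx1 hy1⟩ : Subalgebra.center (KK K) Q) =
        ⟨x, hx1⟩ + ⟨y, hy1⟩ := rfl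
      rw [h3, map_add]
      exact add_mem hx2 hy2
    | smul c x _ hx =>
      obtain ⟨hx1, hx2⟩ := hx
      refine ⟨(Subalgebra.center (KK K) Q).smul_mem hx1 c, ?_⟩
      have h3 : (⟨c • x, (Subalgebra.center (KK K) Q).smul_mem hx1 c⟩ :
        Subalgebra.center (KK K) Q) = c • ⟨x, hx1⟩ := rfl
      rw [h3, map_smul, Algebra.smul_def]
      exact mul_mem (KK_mem_SC h1 h2 c) hx2
  obtain ⟨h3, h4⟩ := key z.1 (hcen z.1 fun x => (Subalgebra.mem_center_iff.1 z.2 x).symm)
  exact h4

/-- The condition on the centres is stable under extensions of the base field. -/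
theorem CenI.ext (hf : Module.Finite (MvPolynomial (Fin 3) k) Γ) (hc : CenI k Γ) :
    CenI K (GK k K Γ) := by
  intro Q _ _ _ _ π hπ hs Ω _ _ _ _ _ s t h1 h2 ψ z
  let _ : Algebra (KK k) (KK K) := (FF_i k K).toAlgebra
  let _ : Algebra (KK k) Q := ((algebraMap (KK K) Q).comp (FF_i k K)).toAlgebra'
    (fun c x => Algebra.commutes (FF_i k K c) x)
  have _ : IsScalarTower (KK k) (KK K) Q := IsScalarTower.of_algebraMap_eq (fun _ => rfl)
  let _ : Algebra k Ω := ((algebraMap K Ω).comp (algebraMap k K)).toAlgebra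
  let _ : Algebra (KK k) Ω := ((algebraMap (KK K) Ω).comp (FF_i k K)).toAlgebra
  have _ : IsScalarTower k K Ω := IsScalarTower.of_algebraMap_eq (fun _ => rfl)
  have _ : IsScalarTower (KK k) (KK K) Ω := IsScalarTower.of_algebraMap_eq (fun _ => rfl)
  have _ : IsScalarTower k (KK k) Ω := IsScalarTower.of_algebraMap_eq (fun a => by
    change algebraMap K Ω (algebraMap k K a) =
      algebraMap (KK K) Ω (FF_i k K (algebraMap k (KK k) a))
    rw [FF_c]
    exact IsScalarTower.algebraMap_apply K (KK K) Ω _)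
  refine FF_aux K hf hc Q (fun p => FF_ev K p) π hπ hs Ω s t h1 h2 ?_ ?_ ψ z
  · change _ = algebraMap (KK K) Ω (FF_i k K (uu k 1))
    rw [FF_uu, h1]
  · change _ = algebraMap (KK K) Ω (FF_i k K (uu k 2))
    rw [FF_uu, h2]

end ext

section gsh

variable {k : Type u} [Field k] {Γ : Type u} [Ring Γ] [Algebra k Γ]
  [Algebra (MvPolynomial (Fin 3) k) Γ] [IsScalarTower k (MvPolynomial (Fin 3) k) Γ]
  {𝒢 : ℕ → Submodule k Γ}

/-- the functions on `x_0 ≠ 0` given by polynomials -/
private def FF_θ (k : Type u) [Field k] :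
    MvPolynomial (Fin 3) k →ₐ[k] RR k (Ch.sgl (xx k 0)) :=
  aeval (fun i => quo (xx k i).1 (g := xx k 0) (c := Ch.sgl (xx k 0)) rfl)

private theorem FF_xx (i : Fin 3) : lam k (xx k i).1 = uu k i := by
  rw [← ev_lin, lin_xx]
  unfold ev
  rw [aeval_X]

private theorem FF_θ_coe (p : MvPolynomial (Fin 3) k) : ((FF_θ k p : RR k _) : KK k) = ev p := by
  have h1 : (RR k (Ch.sgl (xx k 0))).val.comp (FF_θ k) = aeval (uu k) := by
    refine MvPolynomial.algHom_ext fun i => ?_
    rw [AlgHom.comp_apply, aeval_X]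
    unfold FF_θ
    rw [aeval_X]
    change lam k (xx k i).1 / lam k (xx k 0).1 = uu k i
    rw [FF_xx, FF_xx]
    have h2 : uu k 0 = 1 := rfl
    rw [h2, div_one]
  exact DFunLike.congr_fun h1 p

/-- the sections of the sheaf are the degree zero part of the localisation -/
private def FF_R (h : IsGrAlg 𝒢) (c : Ch k) : GS h c →+* (gsh h).R c where
  toFun := fun a => a
  map_one' := rfl
  map_mul' := fun _ _ => rfl
  map_zero' := rfl
  map_add' := fun _ _ => rfl

/-- The condition on the centres for the sheaf of a graded algebra. -/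
theorem cenS_gsh (h : IsGrAlg 𝒢) (hc : CenI k Γ) : CenS (gsh h) := by
  obtain ⟨δ, hδ, hth⟩ := exists_deh h
  intro Q _ _ _ _ π hπ hs s t hst ψ z
  have h0 : ψ z ∈ IntermediateField.adjoin k (SepU k s t) := by
    refine hc Q (π.comp ((FF_R h (Ch.sgl (xx k 0))).comp δ)) ?_ ?_ (Kb k) s t hst.m1 hst.m2 ψ z
    · intro p
      have h1 : (FF_R h (Ch.sgl (xx k 0))) (δ (algebraMap _ Γ p)) =
          ((FF_θ k p • (1 : GS h (Ch.sgl (xx k 0))) : GS h (Ch.sgl (xx k 0))) :) := by
        rw [hth p (FF_θ k p) (FF_θ_coe p), GS.smul_def, mul_one]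
        rfl
      have h2 := hπ (FF_θ k p) (1 : GS h (Ch.sgl (xx k 0)))
      change π ((FF_R h (Ch.sgl (xx k 0))) (δ (algebraMap _ Γ p))) = _
      rw [h1]
      refine h2.trans ?_
      rw [FF_θ_coe, Algebra.algebraMap_eq_smul_one]
      congr 1
      exact map_one π
    · have h1 : Set.range (π.comp ((FF_R h (Ch.sgl (xx k 0))).comp δ)) = Set.range π := by
        refine Set.Subset.antisymm ?_ ?_
        · rintro _ ⟨x, rfl⟩
          exact ⟨_, rfl⟩
        · rintro _ ⟨x, rfl⟩
          obtain ⟨y, hy⟩ := hδ x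
          exact ⟨y, congrArg π hy⟩
      rw [h1]
      exact hs
  exact adj_map (algebraMap k (KK k)) (RingHom.id (Kb k))
    (fun c => IsScalarTower.algebraMap_apply k (KK k) (Kb k) c) (SepU k s t)
    (SepS s ∪ SepS t) (fun x hx => IntermediateField.subset_adjoin _ _ hx) _ h0

end gsh

end Pool.Agent.MP_6e5bed_ag_PS
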