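import Pool.Agent.Lib.MP_6e5bed_ag_PS.Theta
import Pool.Agent.Lib.MP_6e5bed_ag_PS.VZero
import Pool.Agent.Lib.MP_6e5bed_ag_PS.SPJ
import Pool.Agent.Lib.MP_6e5bed_ag_CV.FinalA
import Pool.Agent.Lib.MP_6e5bed_ag_CV.SmoothW

set_option autoImplicit false
set_option linter.unusedVariables false

/-!
# MP_6e5bed_ag, NC PRODUCT SURFACES: the dg algebra of the product surface
-/

noncomputable section

namespace Pool.Agent.MP_6e5bed_ag_PS

open Pool.Agent.MP_6e5bed_ag_NC
open Pool.Agent.MP_6e5bed_ag_NS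
open scoped TensorProduct

universe u

variable {k : Type u} [Field k] (P : PD k)

/-- a bijective morphism is a quasi-isomorphism -/
theorem dqi_of_bij {A B : DGA k} {f : DHom A B} (h : Function.Bijective f.f) : DQI f :=
  CHom.QI.of_bij (f := dch f) h

/-- `RΓ(P², W)` for the presheaf `W = End ⊠ End` -/
theorem theta_dqi : DQI ((theta P).map (FF k) (FS.e k)) :=
  PAH.dqi _ fun c hc => dqi_of_bij (krF_bij P c hc)

theorem eta_dqi : DQI (((t1Uh P.D1).ten (t1Uh P.D2)).map (FF k) (FS.e k)) :=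
  PAH.dqi _ fun c hc => dqi_tensor (t1U_dqi P.D1 (cF_nonempty hc)) (t1U_dqi P.D2 (cF_nonempty hc))

theorem iota_dqi : DQI (((t1A P.D1).ten (t1A P.D2)).dh (FF k) (FS.e k)) :=
  PAC.dqi _ (iota_qie P.D1 P.D2)

/-- the tensor product of two dg algebras of curves -/
def IsProdC (X : DGA k) : Prop := ∃ W W' : DGA k, IsCurve W ∧ IsCurve W' ∧ X = W.tensor W'

/-- The dg algebra of the product surface is smooth and proper, and its identity factors through the
tensor product of the dg algebras of two curves. -/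
theorem spj_W0 [IsAlgClosed k] {Good : DGA k → Prop} (hG : ∀ X, IsProdC X → Good X) :
    SPJ Good (W0 P) := by
  obtain ⟨W, hW, r, hr⟩ := exists_t1_curve P.D1
  obtain ⟨W', hW', r', hr'⟩ := exists_t1_curve P.D2
  have h0 : SPJ Good (W.tensor W') :=
    SPJ.of_good ((smooth_curve W hW).tensor (smooth_curve W' hW'))
      ((proper_curve W hW).tensor (proper_curve W' hW')) (hG _ ⟨W, W', hW, hW', rfl⟩)
  have h1 : SPJ Good ((T1 P.D1 ∅).tensor (T1 P.D2 ∅)) :=
    h0.down (r.tensor r') (dqi_tensor (dqi_of_bij hr) (dqi_of_bij hr'))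
  exact (((h1.up _ (iota_dqi P)).down _ (eta_dqi P)).up _ (theta_dqi P))

end Pool.Agent.MP_6e5bed_ag_PS
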