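import Pool.Agent.Lib.MP_6e5bed_ag_PS.FF
import Pool.Agent.Lib.MP_6e5bed_ag_PS.W0g
import Pool.Agent.Lib.MP_6e5bed_ag_NS.StP7

set_option autoImplicit false
set_option linter.unusedSectionVars false
set_option linter.unusedVariables false

/-!
# MP_6e5bed_ag, NC PRODUCT SURFACES: from the main theorem to the final theorem
-/

noncomputable section

namespace Pool.Agent.MP_6e5bed_ag_PS

open CategoryTheory MonoidalCategory Pool.Agent.MP_6e5bed_ag Pool.Agent.MP_6e5bed_ag_NC
  Pool.Agent.MP_6e5bed_ag_NS Pool.Agent.MP_6e5bed_ag_SP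
open Pool.Agent.MP_6e5bed_ag_P2 (IsGr CenN IsRGam)

universe u

variable {k : Type u} [Field k]

/-- the statement of the main theorem over the field `k` -/
def Main (k : Type u) [Field k] : Prop :=
  ∀ (Good : DGA k → Prop), Good (base k) → (∀ X, IsCurve X → Smooth X ∧ Good X) →
    (∀ X, IsProdC X → Good X) → ∀ (A : ASh k), A.toShf.Coh → ∀ hs : Smooth (TT A),
    (∀ G : Gen A A, G.Simple → ∃ P : PD k, Nonempty (Zc G →ₐ[KK k] P.M)) →
    K0Q.one hs ∈ JS Good (TT A)

/-- Theorem A for product surfaces: the identity factors through `k`, curves and products of two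
curves. -/
theorem thmPA [IsAlgClosed k] (hM : Main k) (A : ASh k) (hA : A.toShf.Coh) (hc : CenS A)
    (T : SP k) (hT : T.alg = TT A) : ∃ (n : ℕ) (X : Fin n → SP k),
      (∀ i, (X i).alg = base k ∨ IsCurve (X i).alg ∨ IsProdC (X i).alg) ∧
        ∃ (f : ∀ i, T ⟶ X i) (g : ∀ i, X i ⟶ T), 𝟙 T = ∑ i, f i ≫ g i := by
  obtain ⟨T, hs, hp⟩ := T
  obtain rfl : T = TT A := hT
  refine JS.exists_sum (Good := fun X => X = base k ∨ IsCurve X ∨ IsProdC X) ?_ ⟨TT A, hs, hp⟩ ?_
  · rintro X (rfl | hX | ⟨W, W', hW, hW', rfl⟩)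
    · exact smooth_base
    · exact smooth_curve X hX
    · exact (smooth_curve W hW).tensor (smooth_curve W' hW')
  · exact hM (fun X => X = base k ∨ IsCurve X ∨ IsProdC X) (Or.inl rfl)
      (fun W hW => ⟨smooth_curve W hW, Or.inr (Or.inl hW)⟩) (fun X hX => Or.inr (Or.inr hX))
      A hA hs (fun G hG => hz_of_cenS hc G hG)

/-- The motives of products of two curves are Kimura-finite. -/
theorem kf_prod [IsAlgClosed k] (hC : ∀ W : SP k, IsCurve W.alg → KimuraFinite (U W)) (T : SP k)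
    (hT : IsProdC T.alg) : KimuraFinite (U T) := by
  obtain ⟨T, hs, hp⟩ := T
  obtain ⟨W, W', hW, hW', rfl⟩ : ∃ W W' : DGA k, IsCurve W ∧ IsCurve W' ∧ T = W.tensor W' := hT
  have h1 := (kimuraFinite_U_iff _).1 (hC ⟨W, smooth_curve W hW, proper_curve W hW⟩ hW)
  have h2 := (kimuraFinite_U_iff _).1 (hC ⟨W', smooth_curve W' hW', proper_curve W' hW'⟩ hW')
  exact (kimuraFinite_U_iff _).2 (h1.tensor h2)

/-- Theorem B over an algebraically closed field. -/
theorem thmPB_closed [IsAlgClosed k] (hM : Main k) (A : ASh k) (hA : A.toShf.Coh) (hc : CenS A)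
    (T : SP k) (hT : T.alg = TT A) (hC : ∀ W : SP k, IsCurve W.alg → KimuraFinite (U W)) :
    KimuraFinite (U T) := by
  obtain ⟨n, X, hX, f, g, hfg⟩ := thmPA hM A hA hc T hT
  refine kf_of_sum T X f g hfg fun i => ?_
  rcases hX i with h0 | h0 | h0
  · exact kf_base _ h0
  · exact hC _ h0
  · exact kf_prod hC _ h0

variable {Γ : Type u} [Ring Γ] [Algebra k Γ] [Algebra (MvPolynomial (Fin 3) k) Γ]
  [IsScalarTower k (MvPolynomial (Fin 3) k) Γ] {𝒢 : ℕ → Submodule k Γ}

/-- Theorem B over an arbitrary field, in all models. -/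
theorem stPB (h : IsGrAlg 𝒢) (hc : CenI k Γ) {T : Type u} [Ring T] [Algebra k T] {X : DG k T}
    {e : T ≃ₗ[k] CoT (GB h)} (hX : IsCech3 (grR h) X e) (hs : SmPr X)
    {C : Type (u + 1)} [Category.{u + 1} C] [MonoidalCategory C]
    [SymmetricCategory C] [Preadditive C] [MonoidalPreadditive C] [Linear ℚ C] (H : NCMot k C)
    (K : Type u) [Field K] [Algebra k K] [IsAlgClosed K] (hM : Main K)
    (hC : ∀ W : SP K, IsCurve W.alg → KimuraFinite (U W)) :
    KimuraFinite (H.U X hs) := by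
  obtain ⟨j, hj, hr⟩ := GK.dz_bc K h
  obtain ⟨E', hE'⟩ := gr_cech (GK.isGr K h)
  obtain ⟨e', he'⟩ := cech3_of hE'
  let _ : Algebra k (RA (TT (gsh (GK.isGr K h)))) := Algebra.compHom _ (algebraMap k K)
  have _ : IsScalarTower k K (RA (TT (gsh (GK.isGr K h)))) :=
    IsScalarTower.of_algebraMap_eq (fun _ => rfl)
  obtain ⟨i, hi⟩ := cech3_bc hX he' j (fun I _ => hj I) hr
  have hs' := hi.smPr hs
  rw [← kimuraFinite_bc H (nchowMot K) hs hs' hi,
    (nchowMot K).kimuraFinite_iff hs' (spOf _ hs') (repOf _)]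
  exact thmPB_closed hM (gsh (GK.isGr K h)) (gsh_coh _) (cenS_gsh _ (CenI.ext K h.fin hc)) _ rfl
    hC

/-- The final theorem, given the main theorem and the Kimura-finiteness of the motives of
curves. -/
theorem kf_rgamN' (h : IsGr 𝒢) (hc : CenN k Γ) {T : Type u} [Ring T] [Algebra k T] {X : DG k T}
    (hX : IsRGam 𝒢 X) (hs : SmPr X)
    {C : Type (u + 1)} [Category.{u + 1} C] [MonoidalCategory C]
    [SymmetricCategory C] [Preadditive C] [MonoidalPreadditive C] [Linear ℚ C] (H : NCMot k C)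
    (K : Type u) [Field K] [Algebra k K] [IsAlgClosed K] (hM : Main K)
    (hC : ∀ W : SP K, IsCurve W.alg → KimuraFinite (U W)) : KimuraFinite (H.U X hs) := by
  obtain ⟨E, hE⟩ := hX.to3 h.alg
  exact stPB h.alg (CenN.toI hc) hE hs H K hM hC

end Pool.Agent.MP_6e5bed_ag_PS
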