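import Pool.Agent.Lib.MP_6e5bed_ag_PS.WMain
import Pool.Agent.Lib.MP_6e5bed_ag_PS.FG

set_option autoImplicit false

/-!
# MP_6e5bed_ag, NC PRODUCT SURFACES: the final theorem
-/

noncomputable section

namespace Pool.Agent.MP_6e5bed_ag_PS

open CategoryTheory MonoidalCategory Pool.Agent.MP_6e5bed_ag Pool.Agent.MP_6e5bed_ag_NC
  Pool.Agent.MP_6e5bed_ag_NS Pool.Agent.MP_6e5bed_ag_SP
open Pool.Agent.MP_6e5bed_ag_P2 (IsGr CenN IsRGam)

universe u

variable {k : Type u} [Field k]

theorem main_thm (k : Type u) [Field k] [IsAlgClosed k] : Main k :=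
  fun _ hB hC hP A hA hs hz => one_mem_prod hB hC hP A hA hs hz

variable {Γ : Type u} [Ring Γ] [Algebra k Γ] [Algebra (MvPolynomial (Fin 3) k) Γ]
  [IsScalarTower k (MvPolynomial (Fin 3) k) Γ] {𝒢 : ℕ → Submodule k Γ}

/-- The final theorem, given the Kimura-finiteness of the motives of curves. -/
theorem kf_rgamN (h : IsGr 𝒢) (hc : CenN k Γ) {T : Type u} [Ring T] [Algebra k T] {X : DG k T}
    (hX : IsRGam 𝒢 X) (hs : SmPr X)
    {C : Type (u + 1)} [Category.{u + 1} C] [MonoidalCategory C]
    [SymmetricCategory C] [Preadditive C] [MonoidalPreadditive C] [Linear ℚ C] (H : NCMot k C)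
    (K : Type u) [Field K] [Algebra k K] [IsAlgClosed K]
    (hC : ∀ W : SP K, IsCurve W.alg → KimuraFinite (U W)) : KimuraFinite (H.U X hs) :=
  kf_rgamN' h hc hX hs H K (main_thm K) hC

omit [Algebra k Γ] [IsScalarTower k (MvPolynomial (Fin 3) k) Γ] in
/-- The condition is satisfied if all centres are `k(u, v)`. -/
theorem cenN_of_cenG (h : MP_6e5bed_ag_P2.CenG k Γ) : CenN k Γ := by
  intro K Q _ _ _ _ _ _ π hπ hs
  let _ : Algebra k K :=
    ((algebraMap (MvPolynomial (Fin 2) k) K).comp (algebraMap k (MvPolynomial (Fin 2) k))).toAlgebra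
  have _ : IsScalarTower k (MvPolynomial (Fin 2) k) K :=
    IsScalarTower.of_algebraMap_eq (fun _ => rfl)
  let a : AlgebraicClosure K :=
    algebraMap K _ (algebraMap (MvPolynomial (Fin 2) k) K (MvPolynomial.X 0))
  let b : AlgebraicClosure K :=
    algebraMap K _ (algebraMap (MvPolynomial (Fin 2) k) K (MvPolynomial.X 1))
  obtain ⟨s, t, h1, h2⟩ : ∃ s t : AlgebraicClosure K, s * t = a ∧ (s - 1) * (t - 1) = b := by
    obtain ⟨s, hs⟩ := IsAlgClosed.exists_root (Polynomial.C (1 : AlgebraicClosure K) *
      Polynomial.X ^ 2 + Polynomial.C (-(a - b + 1)) * Polynomial.X + Polynomial.C a)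
      (by rw [Polynomial.degree_quadratic one_ne_zero]; norm_num)
    rw [Polynomial.IsRoot.def] at hs
    simp only [Polynomial.eval_add, Polynomial.eval_mul, Polynomial.eval_C, Polynomial.eval_pow,
      Polynomial.eval_X] at hs
    refine ⟨s, a - b + 1 - s, ?_, ?_⟩
    · linear_combination -hs
    · linear_combination -hs
  let N : IntermediateField k (AlgebraicClosure K) := IntermediateField.adjoin k {s, t}
  have hsN : s ∈ N := IntermediateField.subset_adjoin _ _ (Or.inl rfl)
  have htN : t ∈ N := IntermediateField.subset_adjoin _ _ (Or.inr rfl)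
  have hp : ∀ p : MvPolynomial (Fin 2) k,
      algebraMap K (AlgebraicClosure K) (algebraMap _ K p) ∈ N := by
    intro p
    induction p using MvPolynomial.induction_on with
    | C c =>
      have h3 : algebraMap K (AlgebraicClosure K) (algebraMap (MvPolynomial (Fin 2) k) K
          (MvPolynomial.C c)) = algebraMap k (AlgebraicClosure K) c := by
        rw [IsScalarTower.algebraMap_apply k K (AlgebraicClosure K),
          IsScalarTower.algebraMap_apply k (MvPolynomial (Fin 2) k) K,
          MvPolynomial.algebraMap_eq]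
      rw [h3]
      exact IntermediateField.algebraMap_mem _ _
    | add p q hp hq => rw [map_add, map_add]; exact add_mem hp hq
    | mul_X p i hp =>
      rw [map_mul, map_mul]
      refine mul_mem hp ?_
      fin_cases i
      · change a ∈ N
        rw [← h1]
        exact mul_mem hsN htN
      · change b ∈ N
        rw [← h2]
        exact mul_mem (sub_mem hsN (one_mem _)) (sub_mem htN (one_mem _))
  have hK : ∀ c : K, algebraMap K (AlgebraicClosure K) c ∈ N := by
    intro c
    obtain ⟨p, q, hq, rfl⟩ := IsFractionRing.div_surjective (A := MvPolynomial (Fin 2) k) c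
    rw [map_div₀]
    exact div_mem (hp p) (hp q)
  let φ0 : K →+* N :=
    { toFun := fun c => ⟨algebraMap K _ c, hK c⟩
      map_one' := Subtype.ext (map_one _)
      map_mul' := fun x y => Subtype.ext (map_mul _ x y)
      map_zero' := Subtype.ext (map_zero _)
      map_add' := fun x y => Subtype.ext (map_add _ x y) }
  let e : K ≃+* Subalgebra.center K Q :=
    RingEquiv.ofBijective (algebraMap K (Subalgebra.center K Q))
      ⟨(algebraMap K (Subalgebra.center K Q)).injective, fun z => by
        obtain ⟨c, hc⟩ := h K Q π hπ hs z.1 fun x => (Subalgebra.mem_center_iff.1 z.2 x).symm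
        exact ⟨c, Subtype.ext hc.symm⟩⟩
  refine ⟨N, inferInstance, inferInstance, ⟨s, hsN⟩, ⟨t, htN⟩, φ0.comp e.symm.toRingHom, ?_, ?_⟩
  · rw [eq_top_iff]
    rintro ⟨x, hx⟩ -
    change (⟨x, hx⟩ : N) ∈ IntermediateField.adjoin k (SepU k (⟨s, hsN⟩ : N) ⟨t, htN⟩)
    induction hx using IntermediateField.adjoin_induction with
    | mem x hx =>
      rcases hx with rfl | hx
      · exact left_mem_SC _ _
      · rw [Set.mem_singleton_iff] at hx
        subst hx
        exact right_mem_SC _ _
    | algebraMap c => exact IntermediateField.algebraMap_mem _ c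
    | add x y _ _ hx hy => exact add_mem hx hy
    | inv x _ hx => exact inv_mem hx
    | mul x y _ _ hx hy => exact mul_mem hx hy
  · intro p
    have h3 : e.symm (algebraMap K (Subalgebra.center K Q) (algebraMap _ K p)) =
        algebraMap _ K p := e.symm_apply_apply _
    change φ0 (e.symm (algebraMap K (Subalgebra.center K Q) (algebraMap _ K p))) = _
    rw [h3]
    have h4 : (IsScalarTower.toAlgHom k K (AlgebraicClosure K)).comp
        (IsScalarTower.toAlgHom k (MvPolynomial (Fin 2) k) K) =
        N.val.comp (MvPolynomial.aeval ![(⟨s, hsN⟩ : N) * ⟨t, htN⟩,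
          ((⟨s, hsN⟩ : N) - 1) * ((⟨t, htN⟩ : N) - 1)]) := by
      refine MvPolynomial.algHom_ext fun i => ?_
      rw [AlgHom.comp_apply, AlgHom.comp_apply, MvPolynomial.aeval_X]
      fin_cases i
      · exact h1.symm
      · exact h2.symm
    exact Subtype.ext (DFunLike.congr_fun h4 p)

end Pool.Agent.MP_6e5bed_ag_PS
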