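import Pool.Agent.Lib.MP_6e5bed_ag_PS.BSes

set_option autoImplicit false
set_option linter.unusedVariables false

/-!
# MP_6e5bed_ag, NC PRODUCT SURFACES: sums of line bundles, Koszul sequences
-/

noncomputable section

namespace Pool.Agent.MP_6e5bed_ag_PS

open Pool.Agent.MP_6e5bed_ag_NC
open Pool.Agent.MP_6e5bed_ag_NS
open scoped TensorProduct

universe u

variable {k : Type u} [Field k] (P : PD k)

namespace PD

/-- the vector space `M ^ J` -/
def pw (J : Type) [Fintype J] : MSp P where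
  E := J → P.M

variable {J : Type} [Fintype J] [DecidableEq J]

/-- the sheaf `⊕ O(d j, e j)` -/
def fr (d e : J → ℤ) : BLat (P.pw J) where
  toLat := Lat.pi fun j => (P.OB.bt (d j) (e j)).toLat
  b1 := fun c m hm f hf x hx j => (P.OB.bt (d j) (e j)).b1 c m hm f hf _ (hx j)
  b2 := fun c m hm f hf x hx j => (P.OB.bt (d j) (e j)).b2 c m hm f hf _ (hx j)

theorem mem_fr {d e : J → ℤ} {c : Ch k} {x : J → P.M} :
    x ∈ (P.fr d e).N c ↔ ∀ j, x j ∈ (P.OB.bt (d j) (e j)).N c := Iff.rfl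

/-- PROOF. Componentwise `BLat.bt_bt`. -/
theorem mem_fr_bt {d e : J → ℤ} {i i' : ℤ} {c : Ch k} {x : J → P.M} :
    x ∈ ((P.fr d e).bt i i').N c ↔ ∀ j, x j ∈ (P.OB.bt (d j + i) (e j + i')).N c := by
  constructor
  · intro h j
    exact (BLat.bt_bt P.OB (d j) (e j) i i' c (x j)).1 fun m => h m j
  · intro h m j
    exact (BLat.bt_bt P.OB (d j) (e j) i i' c (x j)).2 (h j) m

/-- the inclusion of a component -/
def inJ (j : J) : P.self.E →ₗ[P.M] (P.pw J).E := LinearMap.single P.M (fun _ : J => P.M) j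

/-- the projection to a component -/
def prJ (j : J) : (P.pw J).E →ₗ[P.M] P.self.E := LinearMap.proj j

theorem inJ_map (d e : J → ℤ) (j : J) : MapL (P.OB.bt (d j) (e j)) (P.fr d e) (P.inJ j) := by
  intro c x hx l
  change (Pi.single j x : J → P.M) l ∈ (P.OB.bt (d l) (e l)).N c
  by_cases hl : l = j
  · subst hl
    rw [Pi.single_eq_same]
    exact hx
  · rw [Pi.single_eq_of_ne hl]
    exact ((P.OB.bt (d l) (e l)).N c).zero_mem

theorem prJ_map (d e : J → ℤ) (j : J) : MapL (P.fr d e) (P.OB.bt (d j) (e j)) (P.prJ j) :=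
  fun c x hx => hx j

theorem prJ_inJ (j : J) (x : P.self.E) : P.prJ j (P.inJ j x) = x := by
  change (Pi.single j x : J → P.M) j = x
  exact Pi.single_eq_same (M := fun _ : J => P.M) j x

theorem sum_inJ (x : (P.pw J).E) : ∑ j, P.inJ j (P.prJ j x) = x := by
  change ∑ j, (Pi.single j (x j) : J → P.M) = x
  exact Finset.univ_sum_single (x : J → P.M)

end PD

/-- coefficients of `ell m` -/
private def Frj_s : Fin 3 → ℤ := ![1, 0, -1]

/-- coefficients of `ell m` -/
private def Frj_t : Fin 3 → ℤ := ![0, 1, 1]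

private theorem Frj_es (m : Fin 3) :
    (Frj_s m : P.M) * P.es 0 + (Frj_t m : P.M) * P.es 1 = P.es m := by
  fin_cases m
  · simp [Frj_s, Frj_t]
  · simp [Frj_s, Frj_t]
  · have h : P.es 2 = P.es 1 - P.es 0 := by
      unfold PD.es
      rw [← map_sub, el_sub]
    simp only [Frj_s, Frj_t]
    change ((-1 : ℤ) : P.M) * P.es 0 + ((1 : ℤ) : P.M) * P.es 1 = P.es 2
    rw [h]
    push_cast
    ring

private theorem Frj_et (m : Fin 3) :
    (Frj_s m : P.M) * P.et 0 + (Frj_t m : P.M) * P.et 1 = P.et m := by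
  fin_cases m
  · simp [Frj_s, Frj_t]
  · simp [Frj_s, Frj_t]
  · have h : P.et 2 = P.et 1 - P.et 0 := by
      unfold PD.et
      rw [← map_sub, el_sub]
    simp only [Frj_s, Frj_t]
    change ((-1 : ℤ) : P.M) * P.et 0 + ((1 : ℤ) : P.M) * P.et 1 = P.et 2
    rw [h]
    push_cast
    ring

private theorem Frj_em1 (m : Fin 3) (a b : ℤ) : P.em m a b * P.es m = P.em m (a + 1) b := by
  unfold PD.em
  rw [zpow_add_one₀ (P.es_ne m)]
  ring

private theorem Frj_em2 (m : Fin 3) (a b : ℤ) : P.em m a b * P.et m = P.em m a (b + 1) := by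
  unfold PD.em
  rw [zpow_add_one₀ (P.et_ne m)]
  ring

private def Frj_i (u v : P.M) : P.self.E →ₗ[P.M] (P.pw (Fin 2)).E where
  toFun := fun (a : P.M) => (![v * a, -(u * a)] : Fin 2 → P.M)
  map_add' := fun (a : P.M) (b : P.M) => by
    funext l
    fin_cases l
    · exact mul_add v a b
    · change -(u * (a + b)) = -(u * a) + -(u * b)
      rw [mul_add, neg_add]
  map_smul' := fun r (a : P.M) => by
    funext l
    fin_cases l
    · change v * (r * a) = r * (v * a)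
      ring
    · change -(u * (r * a)) = r * -(u * a)
      ring

private def Frj_p (u v : P.M) : (P.pw (Fin 2)).E →ₗ[P.M] P.self.E where
  toFun := fun (x : Fin 2 → P.M) => u * x 0 + v * x 1
  map_add' := fun (x y : Fin 2 → P.M) => by
    change u * (x 0 + y 0) + v * (x 1 + y 1) = (u * x 0 + v * x 1) + (u * y 0 + v * y 1)
    ring
  map_smul' := fun r (x : Fin 2 → P.M) => by
    change u * (r * x 0) + v * (r * x 1) = r * (u * x 0 + v * x 1)
    ring

private theorem Frj_intmul {a b : ℤ} {c : Ch k} (n : ℤ) {x : P.M}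
    (hx : x ∈ (P.OB.bt a b).N c) : (n : P.M) * x ∈ (P.OB.bt a b).N c := by
  have h1 : (n : P.M) * x = n • x := (zsmul_eq_mul x n).symm
  rw [h1]
  exact ((P.OB.bt a b).N c).toAddSubgroup.zsmul_mem hx n

private theorem Frj_kosz (u v : P.M) (hu : u ≠ 0) {a b d e a' b' : ℤ}
    (h1 : ∀ (c : Ch k) (x : P.M), x ∈ (P.OB.bt a b).N c → u * x ∈ (P.OB.bt d e).N c)
    (h2 : ∀ (c : Ch k) (x : P.M), x ∈ (P.OB.bt a b).N c → v * x ∈ (P.OB.bt d e).N c)
    (h3 : ∀ (c : Ch k) (x : P.M), x ∈ (P.OB.bt d e).N c → u * x ∈ (P.OB.bt a' b').N c)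
    (h4 : ∀ (c : Ch k) (x : P.M), x ∈ (P.OB.bt d e).N c → v * x ∈ (P.OB.bt a' b').N c)
    (h5 : ∀ m : Fin 3, ∃ s t : ℤ, (s : P.M) * u + (t : P.M) * v ≠ 0 ∧
      (∀ x : P.M, ((s : P.M) * u + (t : P.M) * v) * x ∈ (P.OB.bt d e).N (sg1 k m) →
        x ∈ (P.OB.bt a b).N (sg1 k m)) ∧
      (∀ x : P.M, ((s : P.M) * u + (t : P.M) * v) * x ∈ (P.OB.bt a' b').N (sg1 k m) →
        x ∈ (P.OB.bt d e).N (sg1 k m))) :
    Nonempty (BSes (P.OB.bt a b) (P.fr (fun _ : Fin 2 => d) (fun _ => e)) (P.OB.bt a' b')) := by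
  have hsurj : Function.Surjective (Frj_p P u v) := by
    intro (x : P.M)
    refine ⟨(![u⁻¹ * x, 0] : Fin 2 → P.M), ?_⟩
    change u * (u⁻¹ * x) + v * 0 = x
    rw [← mul_assoc, mul_inv_cancel₀ hu, one_mul, mul_zero, add_zero]
  have hmi : MapL (P.OB.bt a b) (P.fr (fun _ : Fin 2 => d) (fun _ => e)) (Frj_i P u v) := by
    intro c x hx l
    fin_cases l
    · exact h2 c x hx
    · exact ((P.OB.bt d e).N c).neg_mem (h1 c x hx)
  have hmp : MapL (P.fr (fun _ : Fin 2 => d) (fun _ => e)) (P.OB.bt a' b') (Frj_p P u v) := by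
    intro c x hx
    exact ((P.OB.bt a' b').N c).add_mem (h3 c _ (hx 0)) (h4 c _ (hx 1))
  refine ⟨⟨Frj_i P u v, Frj_p P u v, ?_, hsurj, ?_, mi_of1 hmi ?_, mp_of1 hsurj hmp ?_⟩⟩
  · intro (x : P.M) (y : P.M) hxy
    have h6 : -(u * x) = -(u * y) := congrFun hxy 1
    have h7 : u * x = u * y := neg_injective h6
    have h8 : x = y := mul_left_cancel₀ hu h7
    exact h8
  · intro (x : Fin 2 → P.M)
    constructor
    · intro hx
      have h6 : u * x 0 + v * x 1 = 0 := hx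
      refine ⟨-(u⁻¹ * x 1), ?_⟩
      funext l
      fin_cases l
      · change v * -(u⁻¹ * x 1) = x 0
        have h7 : u * x 0 = u * (v * -(u⁻¹ * x 1)) := by
          have h8 : u * (v * -(u⁻¹ * x 1)) = -(v * x 1) * (u * u⁻¹) := by ring
          rw [h8, mul_inv_cancel₀ hu, mul_one]
          exact eq_neg_of_add_eq_zero_left h6
        exact (mul_left_cancel₀ hu h7).symm
      · change -(u * -(u⁻¹ * x 1)) = x 1
        have h8 : -(u * -(u⁻¹ * x 1)) = x 1 * (u * u⁻¹) := by ring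
        rw [h8, mul_inv_cancel₀ hu, mul_one]
    · rintro ⟨(y : P.M), rfl⟩
      change u * (v * y) + v * -(u * y) = 0
      ring
  · intro m (x : P.M) hx
    obtain ⟨s, t, _, h7, _⟩ := h5 m
    refine h7 x ?_
    have h8 : v * x ∈ (P.OB.bt d e).N (sg1 k m) := hx 0
    have h9 : -(u * x) ∈ (P.OB.bt d e).N (sg1 k m) := hx 1
    have h10 : ((-s : ℤ) : P.M) * -(u * x) + (t : P.M) * (v * x) ∈
        (P.OB.bt d e).N (sg1 k m) :=
      ((P.OB.bt d e).N (sg1 k m)).add_mem (Frj_intmul P (-s) h9) (Frj_intmul P t h8)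
    have h11 : ((-s : ℤ) : P.M) * -(u * x) + (t : P.M) * (v * x) =
        ((s : P.M) * u + (t : P.M) * v) * x := by
      push_cast
      ring
    rw [h11] at h10
    exact h10
  · intro m (x : P.M) hx
    obtain ⟨s, t, hw, _, h7⟩ := h5 m
    have h8 : ((s : P.M) * u + (t : P.M) * v) * (((s : P.M) * u + (t : P.M) * v)⁻¹ * x) = x := by
      rw [← mul_assoc, mul_inv_cancel₀ hw, one_mul]
    have h9 : ((s : P.M) * u + (t : P.M) * v)⁻¹ * x ∈ (P.OB.bt d e).N (sg1 k m) := by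
      refine h7 _ ?_
      rw [h8]
      exact hx
    refine ⟨(![(s : P.M) * (((s : P.M) * u + (t : P.M) * v)⁻¹ * x),
      (t : P.M) * (((s : P.M) * u + (t : P.M) * v)⁻¹ * x)] : Fin 2 → P.M), ?_, ?_⟩
    · intro l
      fin_cases l
      · exact Frj_intmul P s h9
      · exact Frj_intmul P t h9
    · change u * ((s : P.M) * (((s : P.M) * u + (t : P.M) * v)⁻¹ * x)) +
        v * ((t : P.M) * (((s : P.M) * u + (t : P.M) * v)⁻¹ * x)) = x
      have h10 : ∀ W : P.M, u * ((s : P.M) * W) + v * ((t : P.M) * W) =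
          ((s : P.M) * u + (t : P.M) * v) * W := fun W => by ring
      rw [h10, h8]

/-- The Koszul sequence `O(i - 1, j) → O(i, j)² → O(i + 1, j)` of the sections `es 0 = 1`, `es 1` of
`O(1, 0)`.

PROOF. `i a = (es 1 * a, - es 0 * a)`, `p (a, b) = es 0 * a + es 1 * b`; `es 2 = es 1 - es 0`
(`ell 2 = X - 1`). `mi`: by `mi_of` let `xx m ∈ c`; by `mem_btN_iff` one has to show
`es m * y ∈ OB.N c`, where `y = em m (-i) (-j) * a` and `es 1 * y, es 0 * y ∈ OB.N c`: `es m` is a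
linear combination of `es 0`, `es 1`. Conversely `BLat.es_mem`. `mp`: by `mp_of` let `xx m ∈ c` and
`x ∈ (OB.bt (i + 1) j).N c`; then `y = (es m)⁻¹ * x ∈ (OB.bt i j).N c` (`mem_btN_iff`), and
`x = p (y, 0)`, `p (0, y)`, `p (-y, y)` for `m = 0, 1, 2`. -/
theorem kosz1 (i j : ℤ) : Nonempty (BSes (P.OB.bt (i - 1) j)
    (P.fr (fun _ : Fin 2 => i) (fun _ => j)) (P.OB.bt (i + 1) j)) := by
  refine Frj_kosz P (P.es 0) (P.es 1) (P.es_ne 0) (fun c x hx => ?_) (fun c x hx => ?_)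
    (fun c x hx => ?_) (fun c x hx => ?_) (fun m => ⟨Frj_s m, Frj_t m, ?_, ?_, ?_⟩)
  · exact BLat.es_mem P.OB (by omega) 0 hx
  · exact BLat.es_mem P.OB (by omega) 1 hx
  · exact BLat.es_mem P.OB rfl 0 hx
  · exact BLat.es_mem P.OB rfl 1 hx
  · rw [Frj_es]
    exact P.es_ne m
  · intro x hx
    rw [Frj_es] at hx
    have h1 : P.em m (-i) (-j) * (P.es m * x) ∈ P.OB.N (sg1 k m) :=
      (BLat.mem_btN_iff P.OB i j (Set.mem_singleton (xx k m))).1 hx
    have h2 : P.em m (-i) (-j) * (P.es m * x) = P.em m (-(i - 1)) (-j) * x := by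
      rw [← mul_assoc, Frj_em1]
      congr 2
      omega
    rw [h2] at h1
    exact (BLat.mem_btN_iff P.OB (i - 1) j (Set.mem_singleton (xx k m))).2 h1
  · intro x hx
    rw [Frj_es] at hx
    have h1 : P.em m (-(i + 1)) (-j) * (P.es m * x) ∈ P.OB.N (sg1 k m) :=
      (BLat.mem_btN_iff P.OB (i + 1) j (Set.mem_singleton (xx k m))).1 hx
    have h2 : P.em m (-(i + 1)) (-j) * (P.es m * x) = P.em m (-i) (-j) * x := by
      rw [← mul_assoc, Frj_em1]
      congr 2
      omega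
    rw [h2] at h1
    exact (BLat.mem_btN_iff P.OB i j (Set.mem_singleton (xx k m))).2 h1

/-- PROOF. As `kosz1`, with `et`. -/
theorem kosz2 (i j : ℤ) : Nonempty (BSes (P.OB.bt i (j - 1))
    (P.fr (fun _ : Fin 2 => i) (fun _ => j)) (P.OB.bt i (j + 1))) := by
  refine Frj_kosz P (P.et 0) (P.et 1) (P.et_ne 0) (fun c x hx => ?_) (fun c x hx => ?_)
    (fun c x hx => ?_) (fun c x hx => ?_) (fun m => ⟨Frj_s m, Frj_t m, ?_, ?_, ?_⟩)
  · exact BLat.et_mem P.OB (by omega) 0 hx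
  · exact BLat.et_mem P.OB (by omega) 1 hx
  · exact BLat.et_mem P.OB rfl 0 hx
  · exact BLat.et_mem P.OB rfl 1 hx
  · rw [Frj_et]
    exact P.et_ne m
  · intro x hx
    rw [Frj_et] at hx
    have h1 : P.em m (-i) (-j) * (P.et m * x) ∈ P.OB.N (sg1 k m) :=
      (BLat.mem_btN_iff P.OB i j (Set.mem_singleton (xx k m))).1 hx
    have h2 : P.em m (-i) (-j) * (P.et m * x) = P.em m (-i) (-(j - 1)) * x := by
      rw [← mul_assoc, Frj_em2]
      congr 2
      omega
    rw [h2] at h1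
    exact (BLat.mem_btN_iff P.OB i (j - 1) (Set.mem_singleton (xx k m))).2 h1
  · intro x hx
    rw [Frj_et] at hx
    have h1 : P.em m (-i) (-(j + 1)) * (P.et m * x) ∈ P.OB.N (sg1 k m) :=
      (BLat.mem_btN_iff P.OB i (j + 1) (Set.mem_singleton (xx k m))).1 hx
    have h2 : P.em m (-i) (-(j + 1)) * (P.et m * x) = P.em m (-i) (-j) * x := by
      rw [← mul_assoc, Frj_em2]
      congr 2
      omega
    rw [h2] at h1
    exact (BLat.mem_btN_iff P.OB i j (Set.mem_singleton (xx k m))).2 h1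

end Pool.Agent.MP_6e5bed_ag_PS
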