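import Pool.Agent.Lib.MP_6e5bed_ag_PS.Frj

set_option autoImplicit false
set_option linter.unusedVariables false

/-!
# MP_6e5bed_ag, NC PRODUCT SURFACES: every lattice is a quotient of a sum of line bundles
-/

noncomputable section

namespace Pool.Agent.MP_6e5bed_ag_PS

open Pool.Agent.MP_6e5bed_ag_NC
open Pool.Agent.MP_6e5bed_ag_NS
open scoped TensorProduct

universe u

variable {k : Type u} [Field k] {P : PD k}

theorem sub_fin (V : MSp P) (U : Submodule P.M V.E) : FiniteDimensional (KK k) U :=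
  FiniteDimensional.of_injective (U.subtype.restrictScalars (KK k)) Subtype.val_injective

/-- a subspace over `M` -/
def MSp.sub (V : MSp P) (U : Submodule P.M V.E) : MSp P where
  E := U
  fin := sub_fin V U

/-- the lattice in a subspace, on a chart -/
def BLat.subN {V : MSp P} (N : BLat V) (U : Submodule P.M V.E) (c : Ch k) :
    Submodule (RR k c) (V.sub U).E where
  carrier := {x | (show U from x).1 ∈ N.N c}
  add_mem' := fun {x y} hx hy => (N.N c).add_mem hx hy
  zero_mem' := (N.N c).zero_mem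
  smul_mem' := fun r x hx => (N.N c).smul_mem r hx

/-- PROOF. As the private `LatS_sub` in `Lib/MP_6e5bed_ag_NS/LatS.lean` (a submodule of the noetherian
module `N.N c`). -/
theorem subN_fg {V : MSp P} (N : BLat V) (U : Submodule P.M V.E) (c : Ch k) :
    (N.subN U c).FG := by
  have := RR_noeth c
  have h1 : IsNoetherian (RR k c) (N.N c) := isNoetherian_of_fg_of_noetherian _ (N.fg c)
  let f : (V.sub U).E →ₗ[RR k c] V.E :=
    { toFun := fun x => (show U from x).1
      map_add' := fun _ _ => rfl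
      map_smul' := fun _ _ => rfl }
  refine Submodule.fg_of_fg_map_injective f Subtype.val_injective ?_
  refine isNoetherian_submodule.1 h1 _ ?_
  rintro _ ⟨x, hx, rfl⟩
  exact hx

/-- PROOF. As the private `LatS_sub` (`LatB_den`, `LatB_inv`). -/
theorem subN_span {V : MSp P} (N : BLat V) (U : Submodule P.M V.E) (c : Ch k) :
    Submodule.span (KK k) (N.subN U c : Set (V.sub U).E) = ⊤ := by
  rw [eq_top_iff]
  intro x _
  obtain ⟨r, hr, h1⟩ := LatB_den N.toLat c (show U from x).1
  exact LatB_inv hr x (S := (N.subN U c : Set (V.sub U).E)) h1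

/-- The lattice in a subspace. -/
def BLat.sub {V : MSp P} (N : BLat V) (U : Submodule P.M V.E) : BLat (V.sub U) where
  N := N.subN U
  mono := fun {c d} h x hx => N.mono h (x := (show U from x).1) hx
  loc := fun {c d} h {g} hg ℓ hd {x} hx => N.loc h hg ℓ hd (x := (show U from x).1) hx
  fg := subN_fg N U
  span := subN_span N U
  b1 := fun c m hm f hf x hx => N.b1 c m hm f hf (show U from x).1 hx
  b2 := fun c m hm f hf x hx => N.b2 c m hm f hf (show U from x).1 hx

theorem mem_sub {V : MSp P} (N : BLat V) (U : Submodule P.M V.E) {c : Ch k} {x : U} :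
    (x : (V.sub U).E) ∈ (N.sub U).N c ↔ x.1 ∈ N.N c := Iff.rfl

private theorem GenB_lam_xx (i : Fin 3) : lam k (xx k i).1 = uu k i := by
  unfold lam xx
  rw [Finset.sum_eq_single i]
  · change (Pi.single i 1 : Fin 3 → k) i • uu k i = uu k i
    rw [Pi.single_eq_same, one_smul]
  · intro j _ hj
    change (Pi.single i 1 : Fin 3 → k) j • uu k j = 0
    rw [Pi.single_eq_of_ne hj, zero_smul]
  · intro h
    exact absurd (Finset.mem_univ i) h

private theorem GenB_uu_ne (i : Fin 3) : uu k i ≠ 0 := by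
  rw [← GenB_lam_xx]
  exact lam_ne_zero _

private theorem GenB_exp {V : MSp P} (N : BLat V) (S : Fin 3 → Finset V.E)
    (hS : ∀ m, ∀ y ∈ S m, y ∈ N.N (sg1 k m)) :
    ∃ n : ℕ, ∀ m m', ∀ y ∈ S m, (lam k (xx k m).1 / lam k (xx k m').1) ^ n • y ∈
      N.N (sg1 k m') := by
  have h : ∀ᶠ n : ℕ in Filter.atTop, ∀ m m', ∀ y ∈ S m,
      (lam k (xx k m).1 / lam k (xx k m').1) ^ n • y ∈ N.N (sg1 k m') := by
    rw [Filter.eventually_all]
    intro m
    rw [Filter.eventually_all]
    intro m'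
    rw [Filter.eventually_all_finset]
    intro y hy
    have hg : xx k m' ∈ (sg1 k m').1 := Set.mem_singleton _
    have h1 : y ∈ N.N ((sg1 k m').ins (xx k m)) :=
      N.mono (c := sg1 k m) (Set.singleton_subset_iff.2 (Set.mem_insert _ _)) (hS m y hy)
    obtain ⟨n, hn⟩ := N.loc (c := sg1 k m') (d := (sg1 k m').ins (xx k m))
      (Set.subset_insert _ _) hg (xx k m) le_rfl h1
    filter_upwards [Filter.eventually_ge_atTop n] with n' hn'
    exact LatB_pow N.toLat hg (xx k m) hn' hn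
  exact h.exists

/-- Global sections of `N(n)` which generate `N` on the coordinate charts.

PROOF. Choose generators `y m j` of `N.N (sg1 m)` over `RR k (sg1 m)` (`N.fg`) for `m = 0, 1, 2`. By
`N.loc` (for `sg1 m' ≤ {xx m', xx m}` and `sg1 m ≤ {xx m', xx m}`, `N.mono`) there is `n` such that
`(u m / u m') ^ n • y m j ∈ N.N (sg1 m')` for all `m, m', j` (a common exponent: `LatB_pow`). Let
`x = (u m) ^ n • y m j`. Then `(u m') ^ (-n) • x ∈ N.N (sg1 m')` for all `m'`, i.e.
`x ∈ (N.bt n n).N (sg1 m')` (`BLat.bt_tw`, `Lat.mem_tw`, or `em m' (-n) (-n) = algebraMap (u m') ^ (-n)`,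
`mem_btN_iff`), hence `x ∈ (N.bt n n).N c` for all `c` (`Lat.glue`, `mono`). The elements
`y m j = (u m) ^ (-n) • x` generate `N.N (sg1 m)`. Enumerate all `x` by `Fin r`. -/
theorem exists_gl {V : MSp P} (N : BLat V) : ∃ (r n : ℕ) (x : Fin r → V.E),
    (∀ j c, x j ∈ (N.bt n n).N c) ∧
    ∀ m, ∀ y ∈ N.N (sg1 k m), ∃ a : Fin r → RR k (sg1 k m),
      y = ∑ j, ((a j : KK k) * uu k m ^ (-(n : ℤ))) • x j := by
  classical
  choose S hS using fun m : Fin 3 => N.fg (sg1 k m)
  have hSm : ∀ m, ∀ y ∈ S m, y ∈ N.N (sg1 k m) := by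
    intro m y hy
    rw [← hS m]
    exact Submodule.subset_span hy
  obtain ⟨n, hn⟩ := GenB_exp N S hSm
  let J : Type u := Σ m : Fin 3, {y : V.E // y ∈ S m}
  let e : J ≃ Fin (Fintype.card J) := Fintype.equivFin J
  refine ⟨Fintype.card J, n, fun j => uu k (e.symm j).1 ^ n • (e.symm j).2.1, ?_, ?_⟩
  · intro j c
    obtain ⟨⟨m, y, hy⟩, rfl⟩ := e.surjective j
    change uu k (e.symm (e ⟨m, y, hy⟩)).1 ^ n • ((e.symm (e ⟨m, y, hy⟩)).2.1 : V.E) ∈ _
    rw [Equiv.symm_apply_apply]
    change uu k m ^ n • y ∈ _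
    refine (N.bt n n).toLat.glue c _ fun m' => ?_
    have hm' : xx k m' ∈ (c.ins (xx k m')).1 := Set.mem_insert _ _
    refine (N.bt_tw (n : ℤ) _ _).2 ((N.toLat.mem_tw (n : ℤ) hm' _).2 ?_)
    have h1 := N.mono (c := sg1 k m') (d := c.ins (xx k m'))
      (Set.singleton_subset_iff.2 (Set.mem_insert _ _)) (hn m m' y hy)
    have h2 : lam k (xx k m').1 ^ (-(n : ℤ)) • (uu k m ^ n • y) =
        (lam k (xx k m).1 / lam k (xx k m').1) ^ n • y := by
      rw [smul_smul, GenB_lam_xx, GenB_lam_xx, zpow_neg, zpow_natCast, div_pow, div_eq_mul_inv,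
        mul_comm]
    rw [h2]
    exact h1
  · intro m y hy
    have h1 : y ∈ Submodule.span (RR k (sg1 k m)) (Set.range fun j : Fin (Fintype.card J) =>
        uu k m ^ (-(n : ℤ)) • (uu k (e.symm j).1 ^ n • ((e.symm j).2.1 : V.E))) := by
      have h2 : y ∈ Submodule.span (RR k (sg1 k m)) (S m : Set V.E) := by
        rw [hS m]
        exact hy
      refine Submodule.span_le.2 ?_ h2
      intro s hs
      refine Submodule.subset_span ⟨e ⟨m, s, hs⟩, ?_⟩
      change uu k m ^ (-(n : ℤ)) • (uu k (e.symm (e ⟨m, s, hs⟩)).1 ^ n •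
        ((e.symm (e ⟨m, s, hs⟩)).2.1 : V.E)) = s
      rw [Equiv.symm_apply_apply]
      change uu k m ^ (-(n : ℤ)) • (uu k m ^ n • s) = s
      rw [smul_smul, zpow_neg, zpow_natCast, inv_mul_cancel₀ (pow_ne_zero n (GenB_uu_ne m)),
        one_smul]
    obtain ⟨a, ha⟩ := (Submodule.mem_span_range_iff_exists_fun _).1 h1
    refine ⟨a, ?_⟩
    rw [← ha]
    refine Finset.sum_congr rfl fun j _ => ?_
    rw [Subalgebra.smul_def, smul_smul]

/-- Every lattice is a quotient of a sum of line bundles.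

PROOF. Let `x`, `n` be as in `exists_gl`, `p f = ∑ f j • x j` for `f : Fin r → M`; all degrees are
`-n`. `MapL`: `OB_smul` with `-n + n = 0`, `bt_zero`. `p` is surjective because `N.N (sg1 0)` spans
`V.E` over `K`. `mp`: `mp_of1`; for `y ∈ N.N (sg1 m)` take `f j = a j * (u m) ^ (-n)` (image in `M`);
it is in `(OB.bt (-n) (-n)).N (sg1 m)` because `em m n n * f j` is the image of `a j`
(`mem_btN_iff`, `P.lam_eq`, `one_mem_OB`). Let `V1`, `N1` be the subspace `ker p` and
`(P.fr _ _).sub (ker p)`, `i` the inclusion; `mi` is `mem_sub`. -/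
theorem exists_fr {V : MSp P} (N : BLat V) : ∃ (r : ℕ) (n : ℤ) (V1 : MSp P) (N1 : BLat V1),
    Nonempty (BSes N1 (P.fr (fun _ : Fin r => n) (fun _ => n)) N) := by
  obtain ⟨r, n, x, hx, hgen⟩ := exists_gl N
  let p : (P.pw (Fin r)).E →ₗ[P.M] V.E :=
    { toFun := fun f => ∑ j, (show Fin r → P.M from f) j • x j
      map_add' := fun f g => by
        rw [← Finset.sum_add_distrib]
        exact Finset.sum_congr rfl fun j _ => add_smul _ _ _
      map_smul' := fun s f => by
        rw [RingHom.id_apply, Finset.smul_sum]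
        exact Finset.sum_congr rfl fun j _ => mul_smul _ _ _ }
  have hp : ∀ f : Fin r → P.M, p f = ∑ j, f j • x j := fun f => rfl
  -- the lift of a section
  have hlift : ∀ m, ∀ y ∈ N.N (sg1 k m), ∃ a : Fin r → RR k (sg1 k m),
      p (fun j => algebraMap (KK k) P.M ((a j : KK k) * uu k m ^ (-(n : ℤ)))) = y := by
    intro m y hy
    obtain ⟨a, ha⟩ := hgen m y hy
    refine ⟨a, ?_⟩
    rw [hp, ha]
    exact Finset.sum_congr rfl fun j _ => algebraMap_smul P.M _ _
  have hsurj : Function.Surjective p := by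
    intro v
    have hv : v ∈ Submodule.span (KK k) (N.N (sg1 k 0) : Set V.E) := by
      rw [N.span]
      exact Submodule.mem_top
    induction hv using Submodule.span_induction with
    | mem y hy =>
      obtain ⟨a, ha⟩ := hlift 0 y hy
      exact ⟨_, ha⟩
    | zero => exact ⟨0, map_zero p⟩
    | add y z _ _ hy hz =>
      obtain ⟨f, rfl⟩ := hy
      obtain ⟨g, rfl⟩ := hz
      exact ⟨f + g, map_add p f g⟩
    | smul t y _ hy =>
      obtain ⟨f, rfl⟩ := hy
      exact ⟨t • f, LinearMap.map_smul_of_tower p t f⟩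
  have hmap : MapL (P.fr (fun _ : Fin r => -(n : ℤ)) (fun _ => -(n : ℤ))) N p := by
    intro c f hf
    change ∑ j, (show Fin r → P.M from f) j • x j ∈ N.N c
    refine (N.N c).sum_mem fun j _ => ?_
    have h1 := P.OB_smul N (hf j) (hx j c)
    rw [neg_add_cancel] at h1
    exact (N.bt_zero c _).1 h1
  refine ⟨r, -(n : ℤ), (P.pw (Fin r)).sub (LinearMap.ker p),
    (P.fr (fun _ : Fin r => -(n : ℤ)) (fun _ => -(n : ℤ))).sub (LinearMap.ker p), ⟨?_⟩⟩
  refine
    { i := (LinearMap.ker p).subtype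
      p := p
      inj := Subtype.val_injective
      surj := hsurj
      ex := fun f => ⟨fun h => ⟨⟨f, h⟩, rfl⟩, ?_⟩
      mi := fun c f => Iff.rfl
      mp := mp_of1 hsurj hmap ?_ }
  · rintro ⟨y, rfl⟩
    exact y.2
  · intro m y hy
    obtain ⟨a, ha⟩ := hlift m y hy
    refine ⟨_, ?_, ha⟩
    intro j
    have hm : xx k m ∈ (sg1 k m).1 := Set.mem_singleton _
    refine (P.OB.mem_btN_iff (-(n : ℤ)) (-(n : ℤ)) hm).2 ?_
    have h1 : (1 : P.M) ∈ P.OB.N (sg1 k m) := (P.OB.bt_zero _ _).1 (P.one_mem_OB (sg1 k m))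
    have h2 := (P.OB.N (sg1 k m)).smul_mem (a j) h1
    have h3 : P.em m (-(-(n : ℤ))) (-(-(n : ℤ))) •
        algebraMap (KK k) P.M ((a j : KK k) * uu k m ^ (-(n : ℤ))) = (a j) • (1 : P.M) := by
      rw [Subalgebra.smul_def, ← Algebra.algebraMap_eq_smul_one, neg_neg, smul_eq_mul]
      unfold PD.em
      rw [← mul_zpow, ← P.lam_eq, ← map_zpow₀, ← map_mul]
      congr 1
      have h0 := zpow_ne_zero (n : ℤ) (GenB_uu_ne (k := k) m)
      rw [zpow_neg]
      field_simp
    have h4 : (P.em m (-(-(n : ℤ))) (-(-(n : ℤ))) •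
        algebraMap (KK k) P.M ((a j : KK k) * uu k m ^ (-(n : ℤ))) : P.M) ∈
        P.OB.N (sg1 k m) := by
      rw [h3]
      exact h2
    exact h4

end Pool.Agent.MP_6e5bed_ag_PS
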