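import Pool.Agent.Lib.MP_6e5bed_ag_NS.LatB

set_option autoImplicit false

/-!
# MP_6e5bed_ag, NC PRODUCT SURFACES: gluing lattices from the three coordinate charts
-/

noncomputable section

namespace Pool.Agent.MP_6e5bed_ag_PS

open Pool.Agent.MP_6e5bed_ag_NC
open Pool.Agent.MP_6e5bed_ag_NS

universe u

variable {k : Type u} [Field k]

/-- the coordinate charts -/
abbrev sg1 (k : Type u) [Field k] (m : Fin 3) : Ch k := Ch.sgl (xx k m)

/-- Lattices on the three coordinate charts with the same localizations. -/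
structure GD (k : Type u) [Field k] (E : Type u) [AddCommGroup E] [Module k E] [Module (KK k) E]
    [IsScalarTower k (KK k) E] where
  Q : ∀ m : Fin 3, Submodule (RR k (sg1 k m)) E
  fg : ∀ m, (Q m).FG
  span : ∀ m, Submodule.span (KK k) (Q m : Set E) = ⊤
  loc : ∀ (m m' : Fin 3), ∀ x ∈ Q m, ∃ n : ℕ, (uu k m / uu k m') ^ n • x ∈ Q m'

variable {E : Type u} [AddCommGroup E] [Module k E] [Module (KK k) E]
  [IsScalarTower k (KK k) E]

/-- the localization of `Q m` on a chart -/
def GD.loc1 (G : GD k E) (c : Ch k) (m : Fin 3) : Submodule (RR k c) E :=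
  Submodule.span (RR k c) (G.Q m : Set E)

/-- the sections on the chart `c` -/
def GD.N (G : GD k E) (c : Ch k) : Submodule (RR k c) E where
  carrier := {x | ∀ m, x ∈ G.loc1 (c.ins (xx k m)) m}
  add_mem' := fun hx hy m => (G.loc1 (c.ins (xx k m)) m).add_mem (hx m) (hy m)
  zero_mem' := fun m => (G.loc1 (c.ins (xx k m)) m).zero_mem
  smul_mem' := fun r x hx m => by
    have h : c ≤ c.ins (xx k m) := Set.subset_insert _ _
    have h1 : r • x = rinc h r • x := by
      rw [Subalgebra.smul_def, Subalgebra.smul_def, rinc_coe]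
    rw [h1]
    exact (G.loc1 (c.ins (xx k m)) m).smul_mem _ (hx m)

theorem GD.mem_N {G : GD k E} {c : Ch k} {x : E} :
    x ∈ G.N c ↔ ∀ m, x ∈ G.loc1 (c.ins (xx k m)) m := Iff.rfl

private theorem Glue_lam_xx (i : Fin 3) : lam k (xx k i).1 = uu k i := by
  unfold lam xx
  rw [Finset.sum_eq_single i]
  · change (Pi.single i 1 : Fin 3 → k) i • uu k i = uu k i
    rw [Pi.single_eq_same, one_smul]
  · intro j _ hj
    change (Pi.single i 1 : Fin 3 → k) j • uu k j = 0
    rw [Pi.single_eq_of_ne hj, zero_smul]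
  · intro h
    exact absurd (Finset.mem_univ i) h

section aux

omit [Module k E] [IsScalarTower k (KK k) E]

private theorem Glue_smul_mem {c : Ch k} (P : Submodule (RR k c) E) {r : KK k} (hr : r ∈ RR k c)
    {x : E} (hx : x ∈ P) : r • x ∈ P := by
  have h1 := P.smul_mem (⟨r, hr⟩ : RR k c) hx
  rwa [Subalgebra.smul_def] at h1

private theorem Glue_pow {c : Ch k} (P : Submodule (RR k c) E) {g : LF k} (hg : g ∈ c.1)
    (ℓ : LF k) {x : E} {n m : ℕ} (hnm : n ≤ m) (h : (lam k ℓ.1 / lam k g.1) ^ n • x ∈ P) :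
    (lam k ℓ.1 / lam k g.1) ^ m • x ∈ P := by
  obtain ⟨t, rfl⟩ := Nat.exists_eq_add_of_le hnm
  rw [add_comm, pow_add, mul_smul]
  exact Glue_smul_mem P ((RR k c).pow_mem (lam_mem _ hg) t) h

private theorem Glue_span_mono {c d : Ch k} (h : c ≤ d) {S : Set E} {x : E}
    (hx : x ∈ Submodule.span (RR k c) S) : x ∈ Submodule.span (RR k d) S := by
  induction hx using Submodule.span_induction with
  | mem z hz => exact Submodule.subset_span hz
  | zero => exact Submodule.zero_mem _
  | add z w _ _ hz hw => exact Submodule.add_mem _ hz hw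
  | smul r z _ hz =>
    rw [Subalgebra.smul_def]
    exact Glue_smul_mem _ (RR_mono h r.2) hz

/-- clearing denominators in a span -/
private theorem Glue_span_loc {c d : Ch k} (h : c ≤ d) {g : LF k} (hg : g ∈ c.1) (ℓ : LF k)
    (hd : d ≤ c.ins ℓ) {S : Set E} (P : Submodule (RR k c) E)
    (hS : ∀ s ∈ S, ∃ n : ℕ, (lam k ℓ.1 / lam k g.1) ^ n • s ∈ P) {x : E}
    (hx : x ∈ Submodule.span (RR k d) S) :
    ∃ n : ℕ, (lam k ℓ.1 / lam k g.1) ^ n • x ∈ P := by
  induction hx using Submodule.span_induction with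
  | mem z hz => exact hS z hz
  | zero =>
    refine ⟨0, ?_⟩
    rw [smul_zero]
    exact Submodule.zero_mem _
  | add z w _ _ hz hw =>
    obtain ⟨n, hn⟩ := hz
    obtain ⟨m, hm⟩ := hw
    refine ⟨n + m, ?_⟩
    rw [smul_add]
    exact P.add_mem (Glue_pow P hg ℓ (by omega) hn) (Glue_pow P hg ℓ (by omega) hm)
  | smul r z _ hz =>
    obtain ⟨n, hn⟩ := RR_loc h hg ℓ hd r.2
    obtain ⟨m, hm⟩ := hz
    refine ⟨n + m, ?_⟩
    have h1 : (lam k ℓ.1 / lam k g.1) ^ (n + m) • r • z =
        ((lam k ℓ.1 / lam k g.1) ^ n * (r : KK k)) • ((lam k ℓ.1 / lam k g.1) ^ m • z) := by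
      rw [Subalgebra.smul_def, smul_smul, smul_smul, pow_add]
      congr 1
      ring
    rw [h1]
    exact Glue_smul_mem _ hn hm

/-- the coordinate functions generate the unit ideal -/
private theorem Glue_unit {c : Ch k} (P : Submodule (RR k c) E) {g : LF k} (hg : g ∈ c.1) (x : E)
    (h : ∀ i : Fin 3, ∃ n : ℕ, (lam k (xx k i).1 / lam k g.1) ^ n • x ∈ P) : x ∈ P := by
  choose n hn using h
  obtain ⟨M, hM⟩ : ∃ M : ℕ, M = ∑ i, n i := ⟨_, rfl⟩
  have hM' : ∀ i, (lam k (xx k i).1 / lam k g.1) ^ M • x ∈ P := fun i =>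
    Glue_pow P hg (xx k i) (by
      rw [hM]
      exact Finset.single_le_sum (f := n) (fun _ _ => Nat.zero_le _) (Finset.mem_univ i)) (hn i)
  have hspan := span_coord [xx k 0, xx k 1, xx k 2] (by
    intro i
    fin_cases i <;> simp) c hg
  have hpow := Ideal.span_pow_eq_top _ hspan M
  have hle : Ideal.span ((fun x => x ^ M) ''
      {r : RR k c | ∃ l ∈ [xx k 0, xx k 1, xx k 2], r = quo l.1 hg}) ≤
      P.comap (LinearMap.toSpanSingleton (RR k c) E x) := by
    rw [Ideal.span_le]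
    rintro _ ⟨r, ⟨l, hl, rfl⟩, rfl⟩
    rw [SetLike.mem_coe, Submodule.mem_comap, LinearMap.toSpanSingleton_apply]
    simp only [List.mem_cons, List.not_mem_nil, or_false] at hl
    rcases hl with rfl | rfl | rfl
    · exact hM' 0
    · exact hM' 1
    · exact hM' 2
  rw [hpow] at hle
  have h1 : (1 : RR k c) ∈ P.comap (LinearMap.toSpanSingleton (RR k c) E x) :=
    hle Submodule.mem_top
  rw [Submodule.mem_comap, LinearMap.toSpanSingleton_apply, one_smul] at h1
  exact h1

end aux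

/-- PROOF. `Submodule.span_induction`; `RR_mono`. -/
theorem GD.loc1_mono (G : GD k E) {c d : Ch k} (h : c ≤ d) (m : Fin 3) {x : E}
    (hx : x ∈ G.loc1 c m) : x ∈ G.loc1 d m := by
  exact Glue_span_mono h hx

/-- The comparison of the localizations of `Q m` and of `Q m'`.

PROOF. For `x ∈ Q m` there is `n` with `(u_m / u_m') ^ n x ∈ Q m'` and `(u_m / u_m') ^ (-n)` is in
`RR k c` because `xx m ∈ c` (`quo`). So `Q m` is contained in the span of `Q m'`;
`Submodule.span_le`. (No hypothesis on `m'` is needed.) -/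
theorem GD.loc1_le (G : GD k E) {c : Ch k} {m : Fin 3} (hm : xx k m ∈ c.1) (m' : Fin 3) {x : E}
    (hx : x ∈ G.loc1 c m) : x ∈ G.loc1 c m' := by
  have hle : (G.Q m : Set E) ⊆ (G.loc1 c m' : Set E) := by
    intro y hy
    obtain ⟨n, hn⟩ := G.loc m m' y hy
    have h1 : uu k m ≠ 0 := by
      rw [← Glue_lam_xx]
      exact lam_ne_zero _
    have h2 : uu k m' ≠ 0 := by
      rw [← Glue_lam_xx]
      exact lam_ne_zero _
    have h3 : uu k m' / uu k m ∈ RR k c := by
      have h4 := lam_mem (xx k m').1 hm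
      rwa [Glue_lam_xx, Glue_lam_xx] at h4
    have h5 : y = (uu k m' / uu k m) ^ n • ((uu k m / uu k m') ^ n • y) := by
      rw [smul_smul, ← mul_pow]
      have h6 : uu k m' / uu k m * (uu k m / uu k m') = 1 := by
        field_simp
      rw [h6, one_pow, one_smul]
    rw [SetLike.mem_coe, h5]
    exact Glue_smul_mem _ ((RR k c).pow_mem h3 n) (Submodule.subset_span hn)
  exact (Submodule.span_le.2 hle) hx

/-- PROOF. For `x = ∑ r_i q_i` with `r_i ∈ RR k d` there is `n` with `(λ_ℓ / λ_g) ^ n r_i ∈ RR k c`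
for all `i` (`RR_loc`, used in the proof of `OL` in `OO.lean`). -/
theorem GD.loc1_loc (G : GD k E) {c d : Ch k} (h : c ≤ d) {g : LF k} (hg : g ∈ c.1) (ℓ : LF k)
    (hd : d ≤ c.ins ℓ) (m : Fin 3) {x : E} (hx : x ∈ G.loc1 d m) :
    ∃ n : ℕ, (lam k ℓ.1 / lam k g.1) ^ n • x ∈ G.loc1 c m := by
  refine Glue_span_loc h hg ℓ hd (G.loc1 c m) (fun s hs => ⟨0, ?_⟩) hx
  rw [pow_zero, one_smul]
  exact Submodule.subset_span hs

/-- On a chart in `u_m ≠ 0` the sections are the localization of `Q m`.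

PROOF. `c.ins (xx m) = c` gives one direction (`xx m ∈ c`). Conversely let `x ∈ loc1 c m`. For every
`m'`: `x ∈ loc1 (c.ins (xx m')) m` (`loc1_mono`), so `x ∈ loc1 (c.ins (xx m')) m'` (`loc1_le`). -/
theorem GD.mem_iff (G : GD k E) {c : Ch k} {m : Fin 3} (hm : xx k m ∈ c.1) {x : E} :
    x ∈ G.N c ↔ x ∈ G.loc1 c m := by
  constructor
  · intro hx
    exact G.loc1_mono (c := c.ins (xx k m)) (d := c)
      (Set.insert_subset_iff.2 ⟨hm, subset_rfl⟩) m (hx m)
  · intro hx m'
    have hle : c ≤ c.ins (xx k m') := Set.subset_insert _ _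
    exact G.loc1_le (hle hm) m' (G.loc1_mono hle m hx)

/-- PROOF. `mem_iff` and `Submodule.span_eq`. -/
theorem GD.mem_sg1 (G : GD k E) {m : Fin 3} {x : E} : x ∈ G.N (sg1 k m) ↔ x ∈ G.Q m := by
  have hm : xx k m ∈ (sg1 k m).1 := Set.mem_singleton _
  rw [G.mem_iff hm, GD.loc1, Submodule.span_eq]

theorem GD.mono (G : GD k E) {c d : Ch k} (h : c ≤ d) {x : E} (hx : x ∈ G.N c) : x ∈ G.N d :=
  fun m => G.loc1_mono (Set.insert_subset_insert h) m (hx m)

/-- PROOF. `loc1_loc` for the charts `c.ins (xx m) ≤ d.ins (xx m)`, and the maximum of the three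
exponents (`LatB_pow` shows how to increase an exponent). -/
theorem GD.loc_N (G : GD k E) {c d : Ch k} (h : c ≤ d) {g : LF k} (hg : g ∈ c.1) (ℓ : LF k)
    (hd : d ≤ c.ins ℓ) {x : E} (hx : x ∈ G.N d) :
    ∃ n : ℕ, (lam k ℓ.1 / lam k g.1) ^ n • x ∈ G.N c := by
  have h1 : ∀ m, ∃ n : ℕ, (lam k ℓ.1 / lam k g.1) ^ n • x ∈ G.loc1 (c.ins (xx k m)) m := by
    intro m
    refine G.loc1_loc (c := c.ins (xx k m)) (d := d.ins (xx k m)) (Set.insert_subset_insert h)
      (Set.mem_insert_of_mem _ hg) ℓ ?_ m (hx m)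
    change insert (xx k m) d.1 ⊆ insert ℓ (insert (xx k m) c.1)
    rw [Set.insert_comm]
    exact Set.insert_subset_insert hd
  choose n hn using h1
  refine ⟨∑ m, n m, fun m => ?_⟩
  refine Glue_pow (c := c.ins (xx k m)) _ (Set.mem_insert_of_mem _ hg) ℓ ?_ (hn m)
  exact Finset.single_le_sum (f := n) (fun _ _ => Nat.zero_le _) (Finset.mem_univ m)

/-- PROOF. Let `g ∈ c`. For every `m` the module `loc1 (c.ins (xx m)) m` is generated by the images
of the finitely many generators of `Q m`; by `loc_N` (for `c ≤ c.ins (xx m)`, `ℓ = xx m`;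
`loc1 (c.ins (xx m)) m = N (c.ins (xx m))` by `mem_iff`) they are in `N c` after
multiplication with a power of `ξ_m = λ_(xx m) / λ_g`, which is invertible in
`RR k (c.ins (xx m))`. Let `P ≤ N c` be the `RR k c`-span of all the elements obtained (for
`m = 0, 1, 2`). For `x ∈ N c` and every `m` we have `ξ_m ^ n x ∈ P` for some `n` (`x` is a
combination of generators with coefficients in `RR k (c.ins (xx m))`, `RR_loc`). The `ξ_m ^ n`
generate the unit ideal (as in the proof of `Lat.glue` in `LatB.lean`: `span_coord`,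
`Ideal.span_pow_eq_top`), so `x ∈ P`. -/
theorem GD.fg_N (G : GD k E) (c : Ch k) : (G.N c).FG := by
  classical
  obtain ⟨g, hg⟩ := c.2.1
  have hle : ∀ m, c ≤ c.ins (xx k m) := fun m => Set.subset_insert _ _
  have hQ : ∀ m, ∀ s ∈ G.Q m, ∃ n : ℕ, (lam k (xx k m).1 / lam k g.1) ^ n • s ∈ G.N c := by
    intro m s hs
    refine G.loc_N (hle m) hg (xx k m) le_rfl ?_
    rw [G.mem_iff (c := c.ins (xx k m)) (m := m) (Set.mem_insert _ _)]
    exact Submodule.subset_span hs
  have hS : ∀ m, ∃ S : Finset E, Submodule.span (RR k (sg1 k m)) (S : Set E) = G.Q m :=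
    fun m => G.fg m
  choose S hS using hS
  have hn : ∀ m, ∀ s : E, ∃ n : ℕ, s ∈ S m → (lam k (xx k m).1 / lam k g.1) ^ n • s ∈ G.N c := by
    intro m s
    by_cases hs : s ∈ S m
    · have hs' : s ∈ G.Q m := by
        rw [← hS m]
        exact Submodule.subset_span hs
      obtain ⟨n, hn⟩ := hQ m s hs'
      exact ⟨n, fun _ => hn⟩
    · exact ⟨0, fun h => absurd h hs⟩
  choose n hn using hn
  obtain ⟨W, hW⟩ : ∃ W : Set E, W = ⋃ m : Fin 3,
    (fun s : E => (lam k (xx k m).1 / lam k g.1) ^ n m s • s) '' (S m : Set E) := ⟨_, rfl⟩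
  have hWf : W.Finite := by
    rw [hW]
    exact Set.finite_iUnion fun m => (S m).finite_toSet.image _
  have hPN : Submodule.span (RR k c) W ≤ G.N c := by
    rw [Submodule.span_le, hW]
    refine Set.iUnion_subset fun m => ?_
    rintro _ ⟨s, hs, rfl⟩
    exact hn m s hs
  have hNP : G.N c ≤ Submodule.span (RR k c) W := by
    intro x hx
    refine Glue_unit _ hg x fun m => ?_
    have h1 : x ∈ Submodule.span (RR k (c.ins (xx k m))) (S m : Set E) := by
      have h2 := hx m
      have h3 : (G.Q m : Set E) ⊆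
          (Submodule.span (RR k (c.ins (xx k m))) (S m : Set E) : Set E) := by
        intro y hy
        have hy' : y ∈ G.Q m := hy
        rw [← hS m] at hy'
        refine Glue_span_mono (c := sg1 k m) (d := c.ins (xx k m)) ?_ hy'
        change {xx k m} ⊆ insert (xx k m) c.1
        exact Set.singleton_subset_iff.2 (Set.mem_insert _ _)
      exact (Submodule.span_le.2 h3) h2
    refine Glue_span_loc (hle m) hg (xx k m) le_rfl _ (fun s hs => ⟨n m s, ?_⟩) h1
    refine Submodule.subset_span ?_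
    rw [hW]
    exact Set.mem_iUnion.2 ⟨m, ⟨s, hs, rfl⟩⟩
  rw [le_antisymm hNP hPN]
  exact Submodule.fg_span hWf

/-- PROOF. `N c` contains multiples of the elements of `Q 0` with nonzero elements of `K`
(`loc_N` for `c ≤ c.ins (xx 0)`, and `Q 0 ⊆ loc1 (c.ins (xx 0)) 0 = N (c.ins (xx 0))`), and `Q 0`
spans `E`. -/
theorem GD.span_N (G : GD k E) (c : Ch k) :
    Submodule.span (KK k) (G.N c : Set E) = ⊤ := by
  obtain ⟨g, hg⟩ := c.2.1
  rw [eq_top_iff, ← G.span 0, Submodule.span_le]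
  intro x hx
  have hle : c ≤ c.ins (xx k 0) := Set.subset_insert _ _
  obtain ⟨n, hn⟩ := G.loc_N (x := x) hle hg (xx k 0) le_rfl (by
    rw [G.mem_iff (c := c.ins (xx k 0)) (m := 0) (Set.mem_insert _ _)]
    exact Submodule.subset_span hx)
  have h0 : (lam k (xx k 0).1 / lam k g.1) ^ n ≠ 0 :=
    pow_ne_zero _ (div_ne_zero (lam_ne_zero _) (lam_ne_zero _))
  have h1 : x = ((lam k (xx k 0).1 / lam k g.1) ^ n)⁻¹ •
      ((lam k (xx k 0).1 / lam k g.1) ^ n • x) := by
    rw [smul_smul, inv_mul_cancel₀ h0, one_smul]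
  rw [SetLike.mem_coe, h1]
  exact Submodule.smul_mem _ _ (Submodule.subset_span hn)

/-- The lattice. -/
def GD.lat (G : GD k E) : Lat k E where
  N := G.N
  mono := G.mono
  loc := G.loc_N
  fg := G.fg_N
  span := G.span_N

end Pool.Agent.MP_6e5bed_ag_PS
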