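import Pool.Agent.Lib.MP_6e5bed_ag_PS.Gxz

set_option autoImplicit false
set_option linter.unusedVariables false

/-!
# MP_6e5bed_ag, NC PRODUCT SURFACES: the tensor product over the product surface
-/

noncomputable section

namespace Pool.Agent.MP_6e5bed_ag_PS

open Pool.Agent.MP_6e5bed_ag_NC
open Pool.Agent.MP_6e5bed_ag_NS
open scoped TensorProduct

universe u

variable {k : Type u} [Field k] {P : PD k} {A B B' C : ASh k}

theorem ten_fin (V V' : MSp P) : FiniteDimensional (KK k) (V.E ⊗[P.M] V'.E) := by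
  have h1 : Module.Finite P.M V.E := Module.Finite.of_restrictScalars_finite (KK k) P.M V.E
  have h2 : Module.Finite P.M V'.E := Module.Finite.of_restrictScalars_finite (KK k) P.M V'.E
  exact Module.Finite.trans P.M (V.E ⊗[P.M] V'.E)

/-- the tensor product over `M` -/
def MSp.ten (V V' : MSp P) : MSp P where
  E := V.E ⊗[P.M] V'.E
  fin := ten_fin V V'

/-- the projection `V ⊗_K V' → V ⊗_M V'` -/
def MSp.pr (V V' : MSp P) : V.E ⊗[KK k] V'.E →ₗ[KK k] (V.ten V').E :=
  TensorProduct.lift (LinearMap.mk₂ (KK k) (fun (x : V.E) (y : V'.E) => (x ⊗ₜ[P.M] y : V.E ⊗[P.M] V'.E))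
    (fun x x' y => TensorProduct.add_tmul x x' y) (fun s x y => rfl)
    (fun x y y' => TensorProduct.tmul_add x y y')
    (fun s x y => by
      rw [← IsScalarTower.algebraMap_smul P.M s y, TensorProduct.tmul_smul,
        IsScalarTower.algebraMap_smul P.M s]
      rfl))

theorem MSp.pr_tmul (V V' : MSp P) (x : V.E) (y : V'.E) :
    V.pr V' (x ⊗ₜ[KK k] y) = (x ⊗ₜ[P.M] y : V.E ⊗[P.M] V'.E) := TensorProduct.lift.tmul x y

theorem MSp.pr_surj (V V' : MSp P) : Function.Surjective (V.pr V') := by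
  intro z
  induction z using TensorProduct.induction_on with
  | zero => exact ⟨0, map_zero _⟩
  | tmul x y => exact ⟨x ⊗ₜ y, V.pr_tmul V' x y⟩
  | add x y hx hy =>
    obtain ⟨a, ha⟩ := hx
    obtain ⟨b, hb⟩ := hy
    exact ⟨a + b, by rw [map_add, ha, hb]; rfl⟩

/-- the image of the tensor product of the lattices, as a lattice -/
def qlat {V V' : MSp P} (N : BLat V) (N' : BLat V') : Lat k (V.ten V').E :=
  Lat.map (N.toLat.tens N'.toLat) (V.pr V') (V.pr_surj V')

/-- PROOF. `Lat.mem_tens` (with `a = b = d = c`), `MSp.pr_tmul`, `Submodule.map_span`. -/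
theorem mem_qlat {V V' : MSp P} {N : BLat V} {N' : BLat V'} {c : Ch k} {z : (V.ten V').E} :
    z ∈ (qlat N N').N c ↔ z ∈ Submodule.span k
      {z : (V.ten V').E | ∃ x ∈ N.N c, ∃ y ∈ N'.N c, z = (x ⊗ₜ[P.M] y : V.E ⊗[P.M] V'.E)} := by
  have hs : {z : (V.ten V').E | ∃ x ∈ N.N c, ∃ y ∈ N'.N c,
      z = (x ⊗ₜ[P.M] y : V.E ⊗[P.M] V'.E)} = ((V.pr V').restrictScalars k) ''
      {z | ∃ x ∈ N.toLat.N c, ∃ y ∈ N'.toLat.N c, z = x ⊗ₜ[KK k] y} := by
    ext z
    constructor
    · rintro ⟨x, hx, y, hy, rfl⟩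
      exact ⟨x ⊗ₜ[KK k] y, ⟨x, hx, y, hy, rfl⟩, V.pr_tmul V' x y⟩
    · rintro ⟨_, ⟨x, hx, y, hy, rfl⟩, rfl⟩
      exact ⟨x, hx, y, hy, V.pr_tmul V' x y⟩
  rw [hs, ← Submodule.map_span]
  constructor
  · rintro ⟨w, hw, rfl⟩
    exact ⟨w, (Lat.mem_tens _ _ le_rfl le_rfl Set.subset_union_left w).1 hw, rfl⟩
  · rintro ⟨w, hw, rfl⟩
    exact ⟨w, (Lat.mem_tens _ _ le_rfl le_rfl Set.subset_union_left w).2 hw, rfl⟩

/-- a `k`-linear map which maps generators to generators preserves the lattice -/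
private theorem Gq_map {V V' : MSp P} {N : BLat V} {N' : BLat V'} {c : Ch k}
    (f : (V.ten V').E →ₗ[k] (V.ten V').E)
    (h : ∀ x ∈ N.N c, ∀ y ∈ N'.N c,
      f ((x ⊗ₜ[P.M] y : V.E ⊗[P.M] V'.E) : (V.ten V').E) ∈ (qlat N N').N c)
    {z : (V.ten V').E} (hz : z ∈ (qlat N N').N c) : f z ∈ (qlat N N').N c := by
  rw [mem_qlat] at hz
  induction hz using Submodule.span_induction with
  | mem z hz =>
    obtain ⟨x, hx, y, hy, rfl⟩ := hz
    exact h x hx y hy
  | zero =>
    rw [map_zero]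
    exact Submodule.zero_mem _
  | add a b _ _ ha hb =>
    rw [map_add]
    exact Submodule.add_mem _ ha hb
  | smul s a _ ha =>
    rw [map_smul, mem_qlat]
    rw [mem_qlat] at ha
    exact Submodule.smul_mem _ _ ha

private theorem Gq_gen {V V' : MSp P} {N : BLat V} {N' : BLat V'} {c : Ch k} {x : V.E} {y : V'.E}
    (hx : x ∈ N.N c) (hy : y ∈ N'.N c) :
    ((x ⊗ₜ[P.M] y : V.E ⊗[P.M] V'.E) : (V.ten V').E) ∈ (qlat N N').N c :=
  mem_qlat.2 (Submodule.subset_span ⟨x, hx, y, hy, rfl⟩)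

/-- multiplication with an element of `M` -/
private def Gq_mul (V : MSp P) (s : P.M) : V.E →ₗ[k] V.E where
  toFun := fun x => s • x
  map_add' := fun x y => smul_add s x y
  map_smul' := fun r x => smul_comm s r x

/-- PROOF. `mem_qlat`, `Submodule.span_induction`, `TensorProduct.smul_tmul'`. -/
theorem qlat_b1 {V V' : MSp P} (N : BLat V) (N' : BLat V') (c : Ch k) (m : Fin 3)
    (hm : xx k m ∈ c.1) (f : P.D1.L) (hf : f ∈ BM P.D1 m) (z : (V.ten V').E)
    (hz : z ∈ (qlat N N').N c) : P.j1 f • z ∈ (qlat N N').N c := by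
  refine Gq_map (N := N) (N' := N') (Gq_mul (V.ten V') (P.j1 f)) (fun x hx y hy => ?_) hz
  exact Gq_gen (N.b1 c m hm f hf x hx) hy

theorem qlat_b2 {V V' : MSp P} (N : BLat V) (N' : BLat V') (c : Ch k) (m : Fin 3)
    (hm : xx k m ∈ c.1) (f : P.D2.L) (hf : f ∈ BM P.D2 m) (z : (V.ten V').E)
    (hz : z ∈ (qlat N N').N c) : P.j2 f • z ∈ (qlat N N').N c := by
  refine Gq_map (N := N) (N' := N') (Gq_mul (V.ten V') (P.j2 f)) (fun x hx y hy => ?_) hz
  exact Gq_gen (N.b2 c m hm f hf x hx) hy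

/-- The image of `N ⊗ N'` in `V ⊗_M V'`. -/
def QL {V V' : MSp P} (N : BLat V) (N' : BLat V') : BLat (V.ten V') where
  toLat := qlat N N'
  b1 := qlat_b1 N N'
  b2 := qlat_b2 N N'

/-- PROOF. By `Lat.glue` and `mem_btN_iff` it is enough to consider a chart `c` with `xx m ∈ c` and
`i = j = i' = j' = 0`: `em m (-(i + i')) (-(j + j')) • (x ⊗ y) =
(em m (-i) (-j) • x) ⊗ (em m (-i') (-j') • y)`. -/
theorem QL_tmul {V V' : MSp P} {N : BLat V} {N' : BLat V'} {i j i' j' : ℤ} {c : Ch k}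
    {x : V.E} {y : V'.E} (hx : x ∈ (N.bt i j).N c) (hy : y ∈ (N'.bt i' j').N c) :
    ((x ⊗ₜ[P.M] y : V.E ⊗[P.M] V'.E) : (V.ten V').E) ∈ ((QL N N').bt (i + i') (j + j')).N c := by
  intro m
  have h1 := Gq_gen (N := N) (N' := N') (hx m) (hy m)
  have h2 : P.em m (-(i + i')) (-(j + j')) = P.em m (-i') (-j') * P.em m (-i) (-j) := by
    unfold PD.em
    rw [neg_add, neg_add, zpow_add₀ (P.es_ne m), zpow_add₀ (P.et_ne m)]
    ring
  have h3 : P.em m (-(i + i')) (-(j + j')) • (x ⊗ₜ[P.M] y : V.E ⊗[P.M] V'.E) =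
      (P.em m (-i) (-j) • x) ⊗ₜ[P.M] (P.em m (-i') (-j') • y) := by
    rw [h2, mul_smul, TensorProduct.smul_tmul', ← TensorProduct.tmul_smul]
  have h4 : P.em m (-(i + i')) (-(j + j')) • ((x ⊗ₜ[P.M] y : V.E ⊗[P.M] V'.E) : (V.ten V').E) ∈
      (qlat N N').N (c.ins (xx k m)) := by
    rw [h3]
    exact h1
  exact h4

/-- PROOF. `QL_tmul`, `BLat.bt_zero`. -/
theorem QL_pair {V V' : MSp P} {N : BLat V} {N' : BLat V'} {c : Ch k} {x : II → V.E}
    {y : II → V'.E} (hx : x ∈ (XL N).N c) (hy : y ∈ (ZL N').N c) :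
    (∑ p, (x p ⊗ₜ[P.M] y p : V.E ⊗[P.M] V'.E) : (V.ten V').E) ∈ (QL N N').N c := by
  refine Submodule.sum_mem _ fun p _ => ?_
  have h1 := QL_tmul (hx p) (hy p)
  rw [neg_add_cancel, neg_add_cancel] at h1
  exact (BLat.bt_zero (QL N N') c _).1 h1

/-- The tensor product over `M` of bimodules. -/
def MG.ten (G : MG P A B) (G' : MG P B' C) : MG P A C where
  toMSp := G.toMSp.ten G'.toMSp
  l := fun c =>
    { toFun := fun a => (G.l c a).rTensor G'.E
      map_add' := fun a a' => by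
        rw [map_add, LinearMap.rTensor_add]
        rfl
      map_smul' := fun s a => by
        refine TensorProduct.ext' fun x y => ?_
        change (G.l c (s • a) x) ⊗ₜ[P.M] y = s • ((G.l c a x) ⊗ₜ[P.M] y)
        rw [map_smul, LinearMap.smul_apply, TensorProduct.smul_tmul'] }
  r := fun c =>
    { toFun := fun b => (G'.r c b).lTensor G.E
      map_add' := fun a a' => by
        rw [map_add, LinearMap.lTensor_add]
        rfl
      map_smul' := fun s b => by
        refine TensorProduct.ext' fun x y => ?_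
        change x ⊗ₜ[P.M] (G'.r c (s • b) y) = s • (x ⊗ₜ[P.M] (G'.r c b y))
        rw [map_smul, LinearMap.smul_apply, ← IsScalarTower.algebraMap_smul P.M s,
          ← IsScalarTower.algebraMap_smul P.M s, TensorProduct.tmul_smul] }
  l_one := fun c v => by
    have h1 : G.l c (A.one c) = LinearMap.id := LinearMap.ext (G.l_one c)
    change (G.l c (A.one c)).rTensor G'.E v = v
    rw [h1, LinearMap.rTensor_id, LinearMap.id_apply]
  r_one := fun c v => by
    have h1 : G'.r c (C.one c) = LinearMap.id := LinearMap.ext (G'.r_one c)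
    change (G'.r c (C.one c)).lTensor G.E v = v
    rw [h1, LinearMap.lTensor_id, LinearMap.id_apply]
  l_mul := fun c a a' v => by
    have h1 : G.l c (A.mul c a a') = G.l c a ∘ₗ G.l c a' := LinearMap.ext (G.l_mul c a a')
    change (G.l c (A.mul c a a')).rTensor G'.E v =
      (G.l c a).rTensor G'.E ((G.l c a').rTensor G'.E v)
    rw [h1, LinearMap.rTensor_comp, LinearMap.comp_apply]
  r_mul := fun c a a' v => by
    have h1 : G'.r c (C.mul c a a') = G'.r c a' ∘ₗ G'.r c a := LinearMap.ext (G'.r_mul c a a')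
    change (G'.r c (C.mul c a a')).lTensor G.E v =
      (G'.r c a').lTensor G.E ((G'.r c a).lTensor G.E v)
    rw [h1, LinearMap.lTensor_comp, LinearMap.comp_apply]
  l_r := fun c a b v => by
    change (G.l c a).rTensor G'.E ((G'.r c b).lTensor G.E v) =
      (G'.r c b).lTensor G.E ((G.l c a).rTensor G'.E v)
    rw [← LinearMap.comp_apply, ← LinearMap.comp_apply, LinearMap.rTensor_comp_lTensor,
      LinearMap.lTensor_comp_rTensor]
  smul_l := fun c s a v => by
    have h1 : G.l c (s • a) = algebraMap (KK k) P.M (s : KK k) • G.l c a :=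
      LinearMap.ext fun x => by
        rw [G.smul_l c s a x, LinearMap.smul_apply, IsScalarTower.algebraMap_smul]
    change (G.l c (s • a)).rTensor G'.E v = (s : KK k) • (G.l c a).rTensor G'.E v
    rw [h1, LinearMap.rTensor_smul, LinearMap.smul_apply, IsScalarTower.algebraMap_smul]
  smul_r := fun c s a v => by
    have h1 : G'.r c (s • a) = algebraMap (KK k) P.M (s : KK k) • G'.r c a :=
      LinearMap.ext fun x => by
        rw [G'.smul_r c s a x, LinearMap.smul_apply, IsScalarTower.algebraMap_smul]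
    change (G'.r c (s • a)).lTensor G.E v = (s : KK k) • (G'.r c a).lTensor G.E v
    rw [h1, LinearMap.lTensor_smul, LinearMap.smul_apply, IsScalarTower.algebraMap_smul]
  res_l := fun {c d} h a v => by
    have h1 : G.l d (A.res h a) = G.l c a := LinearMap.ext (G.res_l h a)
    change (G.l d (A.res h a)).rTensor G'.E v = (G.l c a).rTensor G'.E v
    rw [h1]
  res_r := fun {c d} h a v => by
    have h1 : G'.r d (C.res h a) = G'.r c a := LinearMap.ext (G'.res_r h a)
    change (G'.r d (C.res h a)).lTensor G.E v = (G'.r c a).lTensor G.E v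
    rw [h1]

/-- PROOF. `mem_qlat`. -/
theorem QL_stL {G : MG P A B} {G' : MG P B' C} {N : BLat G.toMSp} {N' : BLat G'.toMSp}
    (h : StL G N) : StL (G.ten G') (QL N N') := by
  intro c a z hz
  refine Gq_map (N := N) (N' := N') (((G.ten G').l c a).restrictScalars k)
    (fun x hx y hy => ?_) hz
  exact Gq_gen (h c a x hx) hy

/-- PROOF. `mem_qlat`. -/
theorem QL_stR {G : MG P A B} {G' : MG P B' C} {N : BLat G.toMSp} {N' : BLat G'.toMSp}
    (h : StR G' N') : StR (G.ten G') (QL N N') := by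
  intro c a z hz
  refine Gq_map (N := N) (N' := N') (((G.ten G').r c a).restrictScalars k)
    (fun x hx y hy => ?_) hz
  exact Gq_gen hx (h c a y hy)

/-- both stabilities -/
theorem gen_st {G : MG P A B} {N : BLat G.toMSp} (h : StL G N) (h' : StR G N) :
    G.gen.St N.toLat := ⟨h, h'⟩

/-- The sheaf of bimodules `N ⊗ N'`. -/
def Qs {G : MG P A B} {G' : MG P B' C} {N : BLat G.toMSp} {N' : BLat G'.toMSp} (h : StL G N)
    (h' : StR G' N') : BSh A C :=
  (G.ten G').gen.sh (QL N N').toLat (gen_st (QL_stL h) (QL_stR h'))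

end Pool.Agent.MP_6e5bed_ag_PS
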