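import Pool.Agent.Lib.MP_6e5bed_ag_PS.Wsh

set_option autoImplicit false
set_option linter.unusedVariables false

/-!
# MP_6e5bed_ag, NC PRODUCT SURFACES: the bimodules `X(N) = RΓ(⊕ N(-p))`, `Z(N) = RΓ(⊕ N(p))`
-/

noncomputable section

namespace Pool.Agent.MP_6e5bed_ag_PS

open Pool.Agent.MP_6e5bed_ag_NC
open Pool.Agent.MP_6e5bed_ag_NS
open scoped TensorProduct

universe u

variable {k : Type u} [Field k] {P : PD k} {A B C : ASh k}

/-- The generic bimodule `⊕ E`, as an `A`-`W`-bimodule: `(n m)_q = ∑ p, m p q n_p`. -/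
def MG.gx (G : MG P A B) : Gen A (W0sh P) where
  E := II → G.E
  l := fun c => LinearMap.mk₂' k (KK k) (fun (a : A.M c) (n : II → G.E) => fun q => G.l c a (n q))
    (fun a a' n => by
      funext q
      change G.l c (a + a') (n q) = G.l c a (n q) + G.l c a' (n q)
      rw [map_add, LinearMap.add_apply])
    (fun s a n => by
      funext q
      change G.l c (s • a) (n q) = s • G.l c a (n q)
      rw [map_smul, LinearMap.smul_apply])
    (fun a n n' => by
      funext q
      exact map_add (G.l c a) (n q) (n' q))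
    (fun s a n => by
      funext q
      exact LinearMap.map_smul_of_tower (G.l c a) s (n q))
  r := fun c => LinearMap.mk₂' k (KK k)
    (fun (m : (W0sh P).M c) (n : II → G.E) => fun q => ∑ p, m.1 p q • n p)
    (fun m m' n => by
      funext q
      change ∑ p, (m.1 p q + m'.1 p q) • n p = ∑ p, m.1 p q • n p + ∑ p, m'.1 p q • n p
      rw [← Finset.sum_add_distrib]
      exact Finset.sum_congr rfl fun p _ => add_smul _ _ _)
    (fun s m n => by
      funext q
      change ∑ p, (s • m.1 p q) • n p = s • ∑ p, m.1 p q • n p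
      rw [Finset.smul_sum]
      exact Finset.sum_congr rfl fun p _ => smul_assoc _ _ _)
    (fun m n n' => by
      funext q
      change ∑ p, m.1 p q • (n p + n' p) = ∑ p, m.1 p q • n p + ∑ p, m.1 p q • n' p
      rw [← Finset.sum_add_distrib]
      exact Finset.sum_congr rfl fun p _ => smul_add _ _ _)
    (fun s m n => by
      funext q
      change ∑ p, m.1 p q • (s • n p) = s • ∑ p, m.1 p q • n p
      rw [Finset.smul_sum]
      exact Finset.sum_congr rfl fun p _ => smul_comm _ _ _)
  l_one := fun c n => by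
    funext q
    exact G.l_one c (n q)
  r_one := fun c n => by
    funext q
    change ∑ p, (if p = q then 1 else 0 : P.M) • n p = n q
    simp
  l_mul := fun c a a' n => by
    funext q
    exact G.l_mul c a a' (n q)
  r_mul := fun c m m' n => by
    funext q
    change ∑ p, (∑ r, m.1 p r * m'.1 r q) • n p = ∑ r, m'.1 r q • ∑ p, m.1 p r • n p
    simp only [Finset.sum_smul, Finset.smul_sum]
    rw [Finset.sum_comm]
    refine Finset.sum_congr rfl fun r _ => Finset.sum_congr rfl fun p _ => ?_
    rw [mul_comm, mul_smul]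
  l_r := fun c a m n => by
    funext q
    change G.l c a (∑ p, m.1 p q • n p) = ∑ p, m.1 p q • G.l c a (n p)
    rw [map_sum]
    exact Finset.sum_congr rfl fun p _ => map_smul _ _ _
  smul_l := fun c s a n => by
    funext q
    exact G.smul_l c s a (n q)
  smul_r := fun c s m n => by
    funext q
    change ∑ p, ((s : KK k) • m.1 p q) • n p = (s : KK k) • ∑ p, m.1 p q • n p
    rw [Finset.smul_sum]
    exact Finset.sum_congr rfl fun p _ => smul_assoc _ _ _
  res_l := fun h a n => by
    funext q
    exact G.res_l h a (n q)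
  res_r := fun h m n => rfl

/-- the lattice `⊕ N(-q)` -/
def XL {V : MSp P} (N : BLat V) : Lat k (II → V.E) :=
  Lat.pi fun q => (N.bt (-q.d1) (-q.d2)).toLat

theorem mem_XL {V : MSp P} {N : BLat V} {c : Ch k} {n : II → V.E} :
    n ∈ (XL N).N c ↔ ∀ q, n q ∈ (N.bt (-q.d1) (-q.d2)).N c := Iff.rfl

theorem gx_st {G : MG P A B} {N : BLat G.toMSp} (h : StL G N) : G.gx.St (XL N) where
  l := fun c a n hn q => h.bt _ _ c a (n q) (hn q)
  r := fun c m n hn q => by
    change ∑ p, m.1 p q • n p ∈ (N.bt (-q.d1) (-q.d2)).N c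
    refine Submodule.sum_mem _ fun p _ => ?_
    have h1 := P.OB_smul N (m.2 p q) (hn p)
    have e1 : p.d1 - q.d1 + -p.d1 = -q.d1 := by ring
    have e2 : p.d2 - q.d2 + -p.d2 = -q.d2 := by ring
    rwa [e1, e2] at h1

/-- The generic bimodule `⊕ E`, as a `W`-`B`-bimodule: `(m z)_p = ∑ q, m p q z_q`. -/
def MG.gz (G : MG P A B) : Gen (W0sh P) B where
  E := II → G.E
  l := fun c => LinearMap.mk₂' k (KK k)
    (fun (m : (W0sh P).M c) (n : II → G.E) => fun p => ∑ q, m.1 p q • n q)
    (fun m m' n => by
      funext p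
      change ∑ q, (m.1 p q + m'.1 p q) • n q = ∑ q, m.1 p q • n q + ∑ q, m'.1 p q • n q
      rw [← Finset.sum_add_distrib]
      exact Finset.sum_congr rfl fun q _ => add_smul _ _ _)
    (fun s m n => by
      funext p
      change ∑ q, (s • m.1 p q) • n q = s • ∑ q, m.1 p q • n q
      rw [Finset.smul_sum]
      exact Finset.sum_congr rfl fun q _ => smul_assoc _ _ _)
    (fun m n n' => by
      funext p
      change ∑ q, m.1 p q • (n q + n' q) = ∑ q, m.1 p q • n q + ∑ q, m.1 p q • n' q
      rw [← Finset.sum_add_distrib]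
      exact Finset.sum_congr rfl fun q _ => smul_add _ _ _)
    (fun s m n => by
      funext p
      change ∑ q, m.1 p q • (s • n q) = s • ∑ q, m.1 p q • n q
      rw [Finset.smul_sum]
      exact Finset.sum_congr rfl fun q _ => smul_comm _ _ _)
  r := fun c => LinearMap.mk₂' k (KK k) (fun (a : B.M c) (n : II → G.E) => fun q => G.r c a (n q))
    (fun a a' n => by
      funext q
      change G.r c (a + a') (n q) = G.r c a (n q) + G.r c a' (n q)
      rw [map_add, LinearMap.add_apply])
    (fun s a n => by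
      funext q
      change G.r c (s • a) (n q) = s • G.r c a (n q)
      rw [map_smul, LinearMap.smul_apply])
    (fun a n n' => by
      funext q
      exact map_add (G.r c a) (n q) (n' q))
    (fun s a n => by
      funext q
      exact LinearMap.map_smul_of_tower (G.r c a) s (n q))
  l_one := fun c n => by
    funext p
    change ∑ q, (if p = q then 1 else 0 : P.M) • n q = n p
    simp
  r_one := fun c n => by
    funext q
    exact G.r_one c (n q)
  l_mul := fun c m m' n => by
    funext p
    change ∑ q, (∑ r, m.1 p r * m'.1 r q) • n q = ∑ r, m.1 p r • ∑ q, m'.1 r q • n q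
    simp only [Finset.sum_smul, Finset.smul_sum]
    rw [Finset.sum_comm]
    refine Finset.sum_congr rfl fun r _ => Finset.sum_congr rfl fun q _ => ?_
    rw [mul_smul]
  r_mul := fun c a a' n => by
    funext q
    exact G.r_mul c a a' (n q)
  l_r := fun c m a n => by
    funext p
    change ∑ q, m.1 p q • G.r c a (n q) = G.r c a (∑ q, m.1 p q • n q)
    rw [map_sum]
    exact Finset.sum_congr rfl fun q _ => (map_smul _ _ _).symm
  smul_l := fun c s m n => by
    funext p
    change ∑ q, ((s : KK k) • m.1 p q) • n q = (s : KK k) • ∑ q, m.1 p q • n q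
    rw [Finset.smul_sum]
    exact Finset.sum_congr rfl fun q _ => smul_assoc _ _ _
  smul_r := fun c s a n => by
    funext q
    exact G.smul_r c s a (n q)
  res_l := fun h m n => rfl
  res_r := fun h a n => by
    funext q
    exact G.res_r h a (n q)

/-- the lattice `⊕ N(p)` -/
def ZL {V : MSp P} (N : BLat V) : Lat k (II → V.E) :=
  Lat.pi fun p => (N.bt p.d1 p.d2).toLat

theorem mem_ZL {V : MSp P} {N : BLat V} {c : Ch k} {n : II → V.E} :
    n ∈ (ZL N).N c ↔ ∀ p, n p ∈ (N.bt p.d1 p.d2).N c := Iff.rfl

theorem gz_st {G : MG P A B} {N : BLat G.toMSp} (h : StR G N) : G.gz.St (ZL N) where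
  l := fun c m n hn p => by
    change ∑ q, m.1 p q • n q ∈ (N.bt p.d1 p.d2).N c
    refine Submodule.sum_mem _ fun q _ => ?_
    have h1 := P.OB_smul N (m.2 p q) (hn q)
    rwa [sub_add_cancel, sub_add_cancel] at h1
  r := fun c a n hn q => h.bt _ _ c a (n q) (hn q)

/-- The sheaf `⊕ N(-q)`. -/
def Xs {G : MG P A B} {N : BLat G.toMSp} (h : StL G N) : BSh A (W0sh P) :=
  G.gx.sh (XL N) (gx_st h)

/-- The sheaf `⊕ N(p)`. -/
def Zs {G : MG P A B} {N : BLat G.toMSp} (h : StR G N) : BSh (W0sh P) B :=
  G.gz.sh (ZL N) (gz_st h)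

theorem Xs_coh {G : MG P A B} {N : BLat G.toMSp} (h : StL G N) : (Xs h).toShf.Coh := (XL N).coh

theorem Zs_coh {G : MG P A B} {N : BLat G.toMSp} (h : StR G N) : (Zs h).toShf.Coh := (ZL N).coh

end Pool.Agent.MP_6e5bed_ag_PS
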