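import Pool.Agent.Lib.MP_6e5bed_ag_PS.Hull

set_option autoImplicit false
set_option linter.unusedVariables false

/-!
# MP_6e5bed_ag, NC PRODUCT SURFACES: reflexive hulls over the product surface, second part
-/

noncomputable section

namespace Pool.Agent.MP_6e5bed_ag_PS

open Pool.Agent.MP_6e5bed_ag_NC
open Pool.Agent.MP_6e5bed_ag_NS
open scoped TensorProduct

universe u

variable {k : Type u} [Field k] {P : PD k} {V : MSp P}

private theorem HullB_j1 {m : Fin 3} {f : P.D1.L} (hf : f ∈ BM P.D1 m) : P.j1 f ∈ P.BB m := by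
  have h1 : f ∈ OA P.D1 {m} 0 := by
    rw [mem_OA_sgl, neg_zero, zpow_zero, one_mul]
    exact hf
  have h2 := P.PP_mul_mem (a := {m}) (b := {m}) h1 (one_mem_OA (D := P.D2) {m})
  rw [map_one, mul_one] at h2
  exact h2

private theorem HullB_j2 {m : Fin 3} {f : P.D2.L} (hf : f ∈ BM P.D2 m) : P.j2 f ∈ P.BB m := by
  have h1 : f ∈ OA P.D2 {m} 0 := by
    rw [mem_OA_sgl, neg_zero, zpow_zero, one_mul]
    exact hf
  have h2 := P.PP_mul_mem (a := {m}) (b := {m}) (one_mem_OA (D := P.D1) {m}) h1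
  rw [map_one, one_mul] at h2
  exact h2

private theorem HullB_loc1 (N : BLat V) {c : Ch k} {m : Fin 3} {b : P.M} (hb : b ∈ P.BB m)
    {x : V.E} (hx : x ∈ (hullG N).loc1 c m) : b • x ∈ (hullG N).loc1 c m := by
  have hx' : x ∈ Submodule.span (RR k c) (hullQ N m : Set V.E) := hx
  clear hx
  change b • x ∈ Submodule.span (RR k c) (hullQ N m : Set V.E)
  induction hx' using Submodule.span_induction with
  | mem y hy =>
    refine Submodule.subset_span ?_
    change ∀ φ : V.E →ₗ[P.M] P.M, Dm N m φ → φ (b • y) ∈ P.BB m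
    intro φ hφ
    rw [map_smul, smul_eq_mul]
    exact (P.BB m).mul_mem hb (hy φ hφ)
  | zero =>
    rw [smul_zero]
    exact Submodule.zero_mem _
  | add y z _ _ hy hz =>
    rw [smul_add]
    exact Submodule.add_mem _ hy hz
  | smul r y _ hy =>
    rw [Subalgebra.smul_def, smul_comm, ← Subalgebra.smul_def]
    exact Submodule.smul_mem _ _ hy

private theorem HullB_den (P : PD k) (m : Fin 3) {ι : Type} [Fintype ι] (z : ι → P.M) :
    ∃ s ∈ P.BB m, s ≠ 0 ∧ ∀ i, s * z i ∈ P.BB m := by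
  classical
  choose a ha b hb hb0 hab using fun i => bb_frac P m (z i)
  refine ⟨∏ i, b i, (P.BB m).prod_mem fun i _ => hb i,
    Finset.prod_ne_zero_iff.2 fun i _ => hb0 i, fun i => ?_⟩
  have h1 : (∏ j, b j) * z i = (∏ j ∈ Finset.univ.erase i, b j) * a i := by
    rw [← Finset.mul_prod_erase _ _ (Finset.mem_univ i), ← hab i]
    ring
  rw [h1]
  exact (P.BB m).mul_mem ((P.BB m).prod_mem fun i _ => hb i) (ha i)

/-- a subspace of `M ^ n` is the kernel of a matrix over `BB m` -/
private theorem HullB_mat (P : PD k) (m : Fin 3) {n : ℕ} (W : Submodule P.M (Fin n → P.M)) :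
    ∃ (s : ℕ) (ψ : Fin s → Fin n → P.BB m),
      ∀ y : Fin n → P.M, y ∈ W ↔ ∀ i, ∑ j, (ψ i j : P.M) * y j = 0 := by
  classical
  obtain ⟨s, ⟨b⟩⟩ : ∃ s : ℕ, Nonempty (Module.Basis (Fin s) P.M ((Fin n → P.M) ⧸ W)) :=
    ⟨_, ⟨Module.finBasis P.M ((Fin n → P.M) ⧸ W)⟩⟩
  let f : (Fin n → P.M) →ₗ[P.M] (Fin s → P.M) := b.equivFun.toLinearMap ∘ₗ W.mkQ
  have hf : ∀ y, y ∈ W ↔ ∀ i, f y i = 0 := by
    intro y
    constructor
    · intro hy i
      have h1 : W.mkQ y = 0 := (Submodule.Quotient.mk_eq_zero W).2 hy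
      change b.equivFun (W.mkQ y) i = 0
      rw [h1, map_zero]
      rfl
    · intro hy
      have h1 : b.equivFun (W.mkQ y) = 0 := funext hy
      rw [LinearEquiv.map_eq_zero_iff] at h1
      exact (Submodule.Quotient.mk_eq_zero W).1 h1
  obtain ⟨d, hd, hd0, h1⟩ := HullB_den P m
    (fun p : Fin s × Fin n => f (Pi.single p.2 1) p.1)
  have h2 : ∀ y i, f y i = ∑ j, f (Pi.single j 1) i * y j := by
    intro y i
    have h3 : y = ∑ j, y j • (Pi.single j (1 : P.M) : Fin n → P.M) := by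
      funext l
      rw [Finset.sum_apply, Finset.sum_eq_single l]
      · rw [Pi.smul_apply, Pi.single_eq_same, smul_eq_mul, mul_one]
      · intro j _ hj
        rw [Pi.smul_apply, Pi.single_eq_of_ne hj.symm, smul_zero]
      · intro h
        exact absurd (Finset.mem_univ l) h
    conv_lhs => rw [h3]
    rw [map_sum, Finset.sum_apply]
    refine Finset.sum_congr rfl fun j _ => ?_
    rw [map_smul, Pi.smul_apply, smul_eq_mul, mul_comm]
  refine ⟨s, fun i j => ⟨d * f (Pi.single j 1) i, h1 (i, j)⟩, fun y => ?_⟩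
  rw [hf]
  refine forall_congr' fun i => ?_
  have h3 : ∑ j, ((⟨d * f (Pi.single j 1) i, h1 (i, j)⟩ : P.BB m) : P.M) * y j = d * f y i := by
    rw [h2 y i, Finset.mul_sum]
    refine Finset.sum_congr rfl fun j _ => ?_
    change d * f (Pi.single j 1) i * y j = _
    ring
  rw [h3, mul_eq_zero]
  exact ⟨Or.inr, fun h => h.resolve_left hd0⟩

/-- PROOF. As `OB_b1`: by `GD.mem_iff` `x` is in the `RR k c`-span of `hullQ N m`, and
`j1 f • y ∈ hullQ N m` for `y ∈ hullQ N m` (`φ` is `M`-linear, `j1 f ∈ BB m`). -/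
theorem hull_b1 (N : BLat V) (c : Ch k) (m : Fin 3) (hm : xx k m ∈ c.1) (f : P.D1.L)
    (hf : f ∈ BM P.D1 m) (x : V.E) (hx : x ∈ (hullG N).lat.N c) :
    P.j1 f • x ∈ (hullG N).lat.N c := by
  have h1 := ((hullG N).mem_iff hm).1 hx
  exact ((hullG N).mem_iff hm).2 (HullB_loc1 N (HullB_j1 hf) h1)

theorem hull_b2 (N : BLat V) (c : Ch k) (m : Fin 3) (hm : xx k m ∈ c.1) (f : P.D2.L)
    (hf : f ∈ BM P.D2 m) (x : V.E) (hx : x ∈ (hullG N).lat.N c) :
    P.j2 f • x ∈ (hullG N).lat.N c := by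
  have h1 := ((hullG N).mem_iff hm).1 hx
  exact ((hullG N).mem_iff hm).2 (HullB_loc1 N (HullB_j2 hf) h1)

/-- The reflexive hull. -/
def hull (N : BLat V) : BLat V where
  toLat := (hullG N).lat
  b1 := hull_b1 N
  b2 := hull_b2 N

theorem mem_hull_sg1 {N : BLat V} {m : Fin 3} {x : V.E} :
    x ∈ (hull N).N (sg1 k m) ↔ ∀ φ : V.E →ₗ[P.M] P.M, Dm N m φ → φ x ∈ P.BB m :=
  (hullG N).mem_sg1

/-- Endomorphisms.

PROOF. If `φ` is a functional for `N`, so is `φ ∘ f`. -/
theorem hull_map (N : BLat V) (m : Fin 3) (f : V.E →ₗ[P.M] V.E)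
    (hf : ∀ x ∈ N.N (sg1 k m), f x ∈ N.N (sg1 k m)) (x : V.E)
    (hx : x ∈ (hull N).N (sg1 k m)) : f x ∈ (hull N).N (sg1 k m) := by
  rw [mem_hull_sg1] at hx ⊢
  intro φ hφ
  exact hx (φ ∘ₗ f) fun y hy => hφ _ (hf y hy)

/-- The hull is locally free.

PROOF. Let `φ_j`, `j < n`, be as in `Dm_gen` and let `W ⊆ M ^ n` be the image of `V` under
`x ↦ (φ_j x)_j` (injective by `Dm_sep`). There is a matrix with entries in `BB m` whose kernel in
`M ^ n` is `W` (`M ^ n / W ≅ M ^ s`, common denominators by `bb_frac`; compare `Refl_mat`). By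
`mem_hull_sg1` and `Dm_gen` `(hull N).mB m` is isomorphic to the `(b_j) ∈ (BB m) ^ n` in `W`, that is,
to the kernel of a matrix over `BB m`: `bb_flat_ker`. -/
theorem hull_flat [IsAlgClosed k] (N : BLat V) : FlatB (hull N) := by
  intro m
  obtain ⟨n, φ, hφ, hgen⟩ := Dm_gen N m
  obtain ⟨s, ψ, hψ⟩ := HullB_mat P m (LinearMap.range (LinearMap.pi φ))
  have hiff : ∀ x : V.E, x ∈ (hull N).N (sg1 k m) ↔ ∀ j, φ j x ∈ P.BB m := by
    intro x
    rw [mem_hull_sg1]
    constructor
    · intro hx j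
      exact hx (φ j) (hφ j)
    · intro hx χ hχ
      obtain ⟨a, rfl⟩ := hgen χ hχ
      rw [LinearMap.sum_apply]
      exact (P.BB m).sum_mem fun j _ => (P.BB m).mul_mem (a j).2 (hx j)
  have hinj : ∀ x : V.E, (∀ j, φ j x = 0) → x = 0 := by
    intro x hx
    refine Dm_sep N m fun χ hχ => ?_
    obtain ⟨a, rfl⟩ := hgen χ hχ
    rw [LinearMap.sum_apply]
    refine Finset.sum_eq_zero fun j _ => ?_
    rw [LinearMap.smul_apply, hx, smul_zero]
  let f : (Fin n → P.BB m) →ₗ[P.BB m] (Fin s → P.BB m) :=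
    { toFun := fun b i => ∑ j, ψ i j * b j
      map_add' := fun b b' => by
        funext i
        rw [Pi.add_apply, ← Finset.sum_add_distrib]
        exact Finset.sum_congr rfl fun j _ => mul_add _ _ _
      map_smul' := fun r b => by
        funext i
        change ∑ j, ψ i j * (r * b j) = r * ∑ j, ψ i j * b j
        rw [Finset.mul_sum]
        exact Finset.sum_congr rfl fun j _ => mul_left_comm _ _ _ }
  have hker : ∀ b : Fin n → P.BB m, b ∈ LinearMap.ker f ↔
      (fun j => (b j : P.M)) ∈ LinearMap.range (LinearMap.pi φ) := by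
    intro b
    rw [hψ, LinearMap.mem_ker]
    constructor
    · intro h i
      have h1 : ((∑ j, ψ i j * b j : P.BB m) : P.M) = 0 := by
        have h2 : (f b) i = 0 := by
          rw [h]
          rfl
        change (∑ j, ψ i j * b j : P.BB m) = 0 at h2
        rw [h2]
        rfl
      rw [AddSubmonoidClass.coe_finsetSum] at h1
      exact h1
    · intro h
      funext i
      refine Subtype.ext ?_
      change ((∑ j, ψ i j * b j : P.BB m) : P.M) = 0
      rw [AddSubmonoidClass.coe_finsetSum]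
      exact h i
  let g : (hull N).mB m →ₗ[P.BB m] LinearMap.ker f :=
    { toFun := fun x => ⟨fun j => ⟨φ j x.1, (hiff x.1).1 x.2 j⟩, (hker _).2 ⟨x.1, rfl⟩⟩
      map_add' := fun x y => by
        refine Subtype.ext (funext fun j => Subtype.ext ?_)
        exact map_add (φ j) x.1 y.1
      map_smul' := fun r x => by
        refine Subtype.ext (funext fun j => Subtype.ext ?_)
        change φ j ((r : P.M) • x.1) = (r : P.M) * φ j x.1
        rw [map_smul, smul_eq_mul] }
  have hg : Function.Bijective g := by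
    constructor
    · intro x y hxy
      have h1 : ∀ j, φ j (x.1 - y.1) = 0 := by
        intro j
        have h2 := congrArg Subtype.val (congrFun (congrArg Subtype.val hxy) j)
        change φ j x.1 = φ j y.1 at h2
        rw [map_sub, h2, sub_self]
      exact Subtype.ext (sub_eq_zero.1 (hinj _ h1))
    · intro b
      obtain ⟨x, hx⟩ := (hker b.1).1 b.2
      have h1 : ∀ j, φ j x = (b.1 j : P.M) := fun j => congrFun hx j
      refine ⟨⟨x, (hiff x).2 fun j => ?_⟩, ?_⟩
      · rw [h1]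
        exact (b.1 j).2
      · refine Subtype.ext (funext fun j => Subtype.ext ?_)
        exact h1 j
  have h1 := bb_flat_ker P m f
  exact Module.Flat.of_linearEquiv (LinearEquiv.ofBijective g hg)

end Pool.Agent.MP_6e5bed_ag_PS
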