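import Pool.Agent.Lib.MP_6e5bed_ag_NS.LatB

set_option autoImplicit false

/-!
# MP_6e5bed_ag, NC PRODUCT SURFACES: finite products and images of lattices
-/

noncomputable section

namespace Pool.Agent.MP_6e5bed_ag_PS

open Pool.Agent.MP_6e5bed_ag_NC
open Pool.Agent.MP_6e5bed_ag_NS

universe u

variable {k : Type u} [Field k] {E : Type u} [AddCommGroup E] [Module k E] [Module (KK k) E]
  [IsScalarTower k (KK k) E] {E' : Type u} [AddCommGroup E'] [Module k E'] [Module (KK k) E']
  [IsScalarTower k (KK k) E'] {J : Type} [Fintype J] [DecidableEq J]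

/-- the product of lattices on a chart -/
def latPiN (N : J → Lat k E) (c : Ch k) : Submodule (RR k c) (J → E) where
  carrier := {x | ∀ j, x j ∈ (N j).N c}
  add_mem' := fun hx hy j => ((N j).N c).add_mem (hx j) (hy j)
  zero_mem' := fun j => ((N j).N c).zero_mem
  smul_mem' := fun r _ hx j => ((N j).N c).smul_mem r (hx j)

/-- PROOF. Maximum of the exponents (`LatB_pow`). -/
theorem latPi_loc (N : J → Lat k E) {c d : Ch k} (h : c ≤ d) {g : LF k} (hg : g ∈ c.1) (ℓ : LF k)
    (hd : d ≤ c.ins ℓ) {x : J → E} (hx : x ∈ latPiN N d) :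
    ∃ n : ℕ, (lam k ℓ.1 / lam k g.1) ^ n • x ∈ latPiN N c := by
  have hn : ∀ j, ∃ n : ℕ, (lam k ℓ.1 / lam k g.1) ^ n • x j ∈ (N j).N c := fun j =>
    (N j).loc h hg ℓ hd (hx j)
  choose n hn using hn
  exact ⟨∑ j, n j, fun j => LatB_pow (N j) hg ℓ (Finset.single_le_sum (f := n)
    (fun _ _ => Nat.zero_le _) (Finset.mem_univ j)) (hn j)⟩

/-- PROOF. `latPiN N c` is `Submodule.pi`; `Submodule.fg_pi`. -/
theorem latPi_fg (N : J → Lat k E) (c : Ch k) : (latPiN N c).FG := by
  have h1 : (Submodule.pi Set.univ fun j => (N j).N c).FG :=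
    Submodule.fg_pi fun j => (N j).fg c
  have h2 : latPiN N c = Submodule.pi Set.univ fun j => (N j).N c := by
    ext x
    constructor
    · intro hx j _
      exact hx j
    · intro hx j
      exact hx j (Set.mem_univ j)
  rw [h2]
  exact h1

/-- PROOF. `x = ∑ j, Pi.single j (x j)`, `x j` is in the span of `(N j).N c`. -/
theorem latPi_span (N : J → Lat k E) (c : Ch k) :
    Submodule.span (KK k) (latPiN N c : Set (J → E)) = ⊤ := by
  have h1 : ∀ (j : J) (y : E),
      Pi.single j y ∈ Submodule.span (KK k) (latPiN N c : Set (J → E)) := by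
    intro j y
    have hy : y ∈ Submodule.span (KK k) ((N j).N c : Set E) := by
      rw [(N j).span c]
      exact Submodule.mem_top
    induction hy using Submodule.span_induction with
    | mem y hy =>
      refine Submodule.subset_span fun i => ?_
      by_cases hi : i = j
      · subst hi
        rw [Pi.single_eq_same]
        exact hy
      · rw [Pi.single_eq_of_ne hi]
        exact ((N i).N c).zero_mem
    | zero =>
      rw [Pi.single_zero]
      exact Submodule.zero_mem _
    | add y z _ _ hy hz =>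
      rw [Pi.single_add]
      exact Submodule.add_mem _ hy hz
    | smul t y _ hy =>
      rw [Pi.single_smul]
      exact Submodule.smul_mem _ t hy
  rw [eq_top_iff]
  intro x _
  rw [← Finset.univ_sum_single x]
  exact Submodule.sum_mem _ fun j _ => h1 j (x j)

/-- The product of lattices. -/
def Lat.pi (N : J → Lat k E) : Lat k (J → E) where
  N := latPiN N
  mono := fun h _ hx j => (N j).mono h (hx j)
  loc := latPi_loc N
  fg := latPi_fg N
  span := latPi_span N

theorem Lat.mem_pi {N : J → Lat k E} {c : Ch k} {x : J → E} :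
    x ∈ (Lat.pi N).N c ↔ ∀ j, x j ∈ (N j).N c := Iff.rfl

/-- the image of a lattice on a chart -/
def latMapN (N : Lat k E) (f : E →ₗ[KK k] E') (c : Ch k) : Submodule (RR k c) E' where
  carrier := {y | ∃ x ∈ N.N c, f x = y}
  add_mem' := by
    rintro _ _ ⟨x, hx, rfl⟩ ⟨y, hy, rfl⟩
    exact ⟨x + y, (N.N c).add_mem hx hy, map_add f x y⟩
  zero_mem' := ⟨0, (N.N c).zero_mem, map_zero f⟩
  smul_mem' := by
    rintro r _ ⟨x, hx, rfl⟩
    refine ⟨r • x, (N.N c).smul_mem r hx, ?_⟩
    rw [Subalgebra.smul_def, Subalgebra.smul_def]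
    exact map_smul f _ x

/-- PROOF. The image of a set of generators. -/
theorem latMap_fg (N : Lat k E) (f : E →ₗ[KK k] E') (c : Ch k) : (latMapN N f c).FG := by
  let f' : E →ₗ[RR k c] E' :=
    { toFun := f
      map_add' := map_add f
      map_smul' := fun r x => by
        rw [Subalgebra.smul_def, Subalgebra.smul_def]
        exact map_smul f _ x }
  exact (N.fg c).map f'

theorem latMap_span (N : Lat k E) (f : E →ₗ[KK k] E') (hf : Function.Surjective f) (c : Ch k) :
    Submodule.span (KK k) (latMapN N f c : Set E') = ⊤ := by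
  have h1 : (latMapN N f c : Set E') = f '' (N.N c : Set E) := rfl
  rw [h1, Submodule.span_image, N.span c, Submodule.map_top, LinearMap.range_eq_top]
  exact hf

/-- The image of a lattice. -/
def Lat.map (N : Lat k E) (f : E →ₗ[KK k] E') (hf : Function.Surjective f) : Lat k E' where
  N := latMapN N f
  mono := by
    rintro c d h _ ⟨x, hx, rfl⟩
    exact ⟨x, N.mono h hx, rfl⟩
  loc := by
    rintro c d h g hg ℓ hd _ ⟨x, hx, rfl⟩
    obtain ⟨n, hn⟩ := N.loc h hg ℓ hd hx
    exact ⟨n, _, hn, map_smul f _ x⟩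
  fg := latMap_fg N f
  span := latMap_span N f hf

theorem Lat.mem_map {N : Lat k E} {f : E →ₗ[KK k] E'} {hf : Function.Surjective f} {c : Ch k}
    {y : E'} : y ∈ (Lat.map N f hf).N c ↔ ∃ x ∈ N.N c, f x = y := Iff.rfl

end Pool.Agent.MP_6e5bed_ag_PS
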