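import Pool.Agent.Lib.MP_6e5bed_ag_PS.PD
import Pool.Agent.Lib.MP_6e5bed_ag_PS.Glue
import Pool.Agent.Lib.MP_6e5bed_ag_NS.Gen

set_option autoImplicit false

/-!
# MP_6e5bed_ag, NC PRODUCT SURFACES: vector spaces over `M`, lattices over the product surface
-/

noncomputable section

namespace Pool.Agent.MP_6e5bed_ag_PS

open Pool.Agent.MP_6e5bed_ag_NC
open Pool.Agent.MP_6e5bed_ag_NS
open scoped TensorProduct

universe u

variable {k : Type u} [Field k]

/-- A finite-dimensional vector space over `M`. -/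
structure MSp (P : PD k) where
  E : Type u
  [grp : AddCommGroup E]
  [modk : Module k E]
  [modK : Module (KK k) E]
  [modM : Module P.M E]
  [towkK : IsScalarTower k (KK k) E]
  [towKM : IsScalarTower (KK k) P.M E]
  [towkM : IsScalarTower k P.M E]
  [fin : FiniteDimensional (KK k) E]

attribute [instance] MSp.grp MSp.modk MSp.modK MSp.modM MSp.towkK MSp.towKM MSp.towkM MSp.fin

/-- A lattice which is stable under the functions on the product surface. -/
structure BLat {P : PD k} (V : MSp P) extends Lat k V.E where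
  b1 : ∀ (c : Ch k) (m : Fin 3), xx k m ∈ c.1 → ∀ f ∈ BM P.D1 m, ∀ x ∈ N c, P.j1 f • x ∈ N c
  b2 : ∀ (c : Ch k) (m : Fin 3), xx k m ∈ c.1 → ∀ f ∈ BM P.D2 m, ∀ x ∈ N c, P.j2 f • x ∈ N c

variable {P : PD k} {V : MSp P}

/-- the section `(ell m)(s) ^ i (ell m)(t) ^ j` of `O(i, j)` -/
def PD.em (P : PD k) (m : Fin 3) (i j : ℤ) : P.M := P.es m ^ i * P.et m ^ j

/-- the sections of `N(i, j)` on the chart `c` -/
def BLat.btN (N : BLat V) (i j : ℤ) (c : Ch k) : Submodule (RR k c) V.E where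
  carrier := {x | ∀ m, P.em m (-i) (-j) • x ∈ N.N (c.ins (xx k m))}
  add_mem' := fun {x y} hx hy m => by
    rw [smul_add]
    exact (N.N _).add_mem (hx m) (hy m)
  zero_mem' := fun m => by
    rw [smul_zero]
    exact (N.N _).zero_mem
  smul_mem' := fun r x hx m => by
    have h : c ≤ c.ins (xx k m) := Set.subset_insert _ _
    have h1 : P.em m (-i) (-j) • (r • x) = rinc h r • (P.em m (-i) (-j) • x) := by
      rw [Subalgebra.smul_def, Subalgebra.smul_def, rinc_coe, smul_comm]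
    rw [h1]
    exact (N.N _).smul_mem _ (hx m)

theorem BLat.mem_btN {N : BLat V} {i j : ℤ} {c : Ch k} {x : V.E} :
    x ∈ N.btN i j c ↔ ∀ m, P.em m (-i) (-j) • x ∈ N.N (c.ins (xx k m)) := Iff.rfl

theorem BLat.btN_mono (N : BLat V) (i j : ℤ) {c d : Ch k} (h : c ≤ d) {x : V.E}
    (hx : x ∈ N.btN i j c) : x ∈ N.btN i j d :=
  fun m => N.mono (Set.insert_subset_insert h) (hx m)

private theorem MSp_es (N : BLat V) {c : Ch k} {m : Fin 3} (hm : xx k m ∈ c.1) (r : Fin 3)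
    {x : V.E} (hx : x ∈ N.N c) : (P.es r / P.es m) • x ∈ N.N c := by
  have h : P.es r / P.es m = P.j1 (el P.D1 r / el P.D1 m) := (map_div₀ P.j1 _ _).symm
  rw [h]
  exact N.b1 c m hm _ (el_div_mem P.D1 r m) x hx

private theorem MSp_et (N : BLat V) {c : Ch k} {m : Fin 3} (hm : xx k m ∈ c.1) (r : Fin 3)
    {x : V.E} (hx : x ∈ N.N c) : (P.et r / P.et m) • x ∈ N.N c := by
  have h : P.et r / P.et m = P.j2 (el P.D2 r / el P.D2 m) := (map_div₀ P.j2 _ _).symm
  rw [h]
  exact N.b2 c m hm _ (el_div_mem P.D2 r m) x hx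

private theorem MSp_es_pow (N : BLat V) {c : Ch k} {m : Fin 3} (hm : xx k m ∈ c.1) (r : Fin 3)
    (n : ℕ) {x : V.E} (hx : x ∈ N.N c) : (P.es r / P.es m) ^ n • x ∈ N.N c := by
  induction n with
  | zero => rwa [pow_zero, one_smul]
  | succ n ih =>
    rw [pow_succ', mul_smul]
    exact MSp_es N hm r ih

private theorem MSp_et_pow (N : BLat V) {c : Ch k} {m : Fin 3} (hm : xx k m ∈ c.1) (r : Fin 3)
    (n : ℕ) {x : V.E} (hx : x ∈ N.N c) : (P.et r / P.et m) ^ n • x ∈ N.N c := by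
  induction n with
  | zero => rwa [pow_zero, one_smul]
  | succ n ih =>
    rw [pow_succ', mul_smul]
    exact MSp_et N hm r ih

private theorem MSp_es_zpow (N : BLat V) {c : Ch k} {m r : Fin 3} (hm : xx k m ∈ c.1)
    (hr : xx k r ∈ c.1) (e : ℤ) {x : V.E} (hx : x ∈ N.N c) :
    (P.es r / P.es m) ^ e • x ∈ N.N c := by
  rcases Int.eq_nat_or_neg e with ⟨n, rfl | rfl⟩
  · rw [zpow_natCast]
    exact MSp_es_pow N hm r n hx
  · rw [zpow_neg, zpow_natCast, ← inv_pow, inv_div]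
    exact MSp_es_pow N hr m n hx

private theorem MSp_et_zpow (N : BLat V) {c : Ch k} {m r : Fin 3} (hm : xx k m ∈ c.1)
    (hr : xx k r ∈ c.1) (e : ℤ) {x : V.E} (hx : x ∈ N.N c) :
    (P.et r / P.et m) ^ e • x ∈ N.N c := by
  rcases Int.eq_nat_or_neg e with ⟨n, rfl | rfl⟩
  · rw [zpow_natCast]
    exact MSp_et_pow N hm r n hx
  · rw [zpow_neg, zpow_natCast, ← inv_pow, inv_div]
    exact MSp_et_pow N hr m n hx

private theorem MSp_alg (r : KK k) (x : V.E) : r • x = (algebraMap (KK k) P.M r) • x :=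
  (algebraMap_smul P.M r x).symm

private theorem MSp_lam_xx (i : Fin 3) : lam k (xx k i).1 = uu k i := by
  unfold lam xx
  rw [Finset.sum_eq_single i]
  · change (Pi.single i 1 : Fin 3 → k) i • uu k i = uu k i
    rw [Pi.single_eq_same, one_smul]
  · intro j _ hj
    change (Pi.single i 1 : Fin 3 → k) j • uu k j = 0
    rw [Pi.single_eq_of_ne hj, zero_smul]
  · intro h
    exact absurd (Finset.mem_univ i) h

private theorem MSp_es0 : P.es 0 = 1 := by
  unfold PD.es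
  rw [el_zero, map_one]

private theorem MSp_et0 : P.et 0 = 1 := by
  unfold PD.et
  rw [el_zero, map_one]

private theorem MSp_lam (m : Fin 3) :
    algebraMap (KK k) P.M (lam k (xx k m).1) = P.es m * P.et m := by
  rw [MSp_lam_xx, P.lam_eq]

private theorem MSp_lam_ne (P : PD k) (g : LF k) : algebraMap (KK k) P.M (lam k g.1) ≠ 0 := by
  rw [Ne, map_eq_zero]
  exact lam_ne_zero g

private theorem MSp_em_mul (P : PD k) (m : Fin 3) (i j i' j' : ℤ) :
    P.em m i j * P.em m i' j' = P.em m (i + i') (j + j') := by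
  unfold PD.em
  rw [zpow_add₀ (P.es_ne m), zpow_add₀ (P.et_ne m)]
  ring

private theorem MSp_em_zero (P : PD k) (m : Fin 3) : P.em m 0 0 = 1 := by
  unfold PD.em
  rw [zpow_zero, zpow_zero, one_mul]

private theorem MSp_key (N : BLat V) {c : Ch k} {g : LF k} (hg : g ∈ c.1) (e : ℕ) {a b : ℤ}
    (ha : a ≤ e) (hb : b ≤ e) (m : Fin 3) {x : V.E} (hx : x ∈ N.N (c.ins (xx k m))) :
    P.em m a b • ((lam k g.1) ^ (-(e : ℤ)) • x) ∈ N.N (c.ins (xx k m)) := by
  have hm : xx k m ∈ (c.ins (xx k m)).1 := Set.mem_insert _ _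
  have hg' : g ∈ (c.ins (xx k m)).1 := Set.mem_insert_of_mem _ hg
  obtain ⟨n1, hn1⟩ : ∃ n : ℕ, a = e - n := ⟨(e - a).toNat, by omega⟩
  obtain ⟨n2, hn2⟩ : ∃ n : ℕ, b = e - n := ⟨(e - b).toNat, by omega⟩
  subst hn1 hn2
  have h1 := MSp_et_pow N hm 0 n2 hx
  have h2 := MSp_es_pow N hm 0 n1 h1
  have h3 := (N.N _).smul_mem ((quo (xx k m).1 hg' : RR k _) ^ e) h2
  have h4 : P.em m (e - n1) (e - n2) • ((lam k g.1) ^ (-(e : ℤ)) • x) =
      (quo (xx k m).1 hg' : RR k _) ^ e •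
        ((P.es 0 / P.es m) ^ n1 • ((P.et 0 / P.et m) ^ n2 • x)) := by
    rw [Subalgebra.smul_def, SubmonoidClass.coe_pow]
    change _ = (lam k (xx k m).1 / lam k g.1) ^ e • _
    rw [MSp_alg (lam k g.1 ^ (-(e : ℤ))), MSp_alg ((lam k (xx k m).1 / lam k g.1) ^ e), smul_smul,
      smul_smul, smul_smul]
    congr 1
    rw [map_zpow₀, map_pow, map_div₀, MSp_lam, MSp_es0, MSp_et0]
    unfold PD.em
    have hs := P.es_ne m
    have ht := P.et_ne m
    have hL := MSp_lam_ne P g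
    rw [zpow_sub₀ hs, zpow_sub₀ ht, zpow_neg, zpow_natCast, zpow_natCast, zpow_natCast,
      zpow_natCast, zpow_natCast, one_div, one_div, inv_pow, inv_pow, div_pow, mul_pow]
    field_simp
  rw [h4]
  exact h3

private theorem MSp_glue_iff {E : Type u} [AddCommGroup E] [Module k E] [Module (KK k) E]
    [IsScalarTower k (KK k) E] (N : Lat k E) (c : Ch k) (x : E) :
    x ∈ N.N c ↔ ∀ m, x ∈ N.N (c.ins (xx k m)) :=
  ⟨fun h m => N.mono (Set.subset_insert _ _) h, N.glue c x⟩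

/-- PROOF. `N.loc` for the charts `c.ins (xx m) ≤ d.ins (xx m)`, maximum of the three exponents
(`LatB_pow`). -/
theorem BLat.btN_loc (N : BLat V) (i j : ℤ) {c d : Ch k} (h : c ≤ d) {g : LF k} (hg : g ∈ c.1)
    (ℓ : LF k) (hd : d ≤ c.ins ℓ) {x : V.E} (hx : x ∈ N.btN i j d) :
    ∃ n : ℕ, (lam k ℓ.1 / lam k g.1) ^ n • x ∈ N.btN i j c := by
  have h1 : ∀ m : Fin 3, ∃ n : ℕ, (lam k ℓ.1 / lam k g.1) ^ n • (P.em m (-i) (-j) • x) ∈
      N.N (c.ins (xx k m)) := by
    intro m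
    refine N.loc (c := c.ins (xx k m)) (d := d.ins (xx k m)) (Set.insert_subset_insert h)
      (Set.mem_insert_of_mem _ hg) ℓ ?_ (hx m)
    intro y hy
    rcases hy with hy | hy
    · exact Set.mem_insert_of_mem _ (Set.mem_insert_iff.mpr (Or.inl hy))
    · rcases hd hy with hy' | hy'
      · exact Or.inl hy'
      · exact Or.inr (Or.inr hy')
  choose n hn using h1
  refine ⟨∑ m, n m, fun m => ?_⟩
  have h2 := LatB_pow N.toLat (c := c.ins (xx k m)) (Set.mem_insert_of_mem _ hg) ℓ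
    (Finset.single_le_sum (f := n) (fun _ _ => Nat.zero_le _) (Finset.mem_univ m)) (hn m)
  rw [smul_comm]
  exact h2

/-- On a chart `c` with `u_m ≠ 0`.

PROOF. `c.ins (xx m) = c`, so one direction is clear. Let `y = em m (-i) (-j) • x ∈ N c` and let
`m'` be given, `d = c.ins (xx m')`. Then `em m' (-i) (-j) • x = em m' (-i) (-j) * em m i j • y` is the
product of integral powers of `es m / es m'` and `et m / et m'` with `y`; the elements
`es m / es m' = j1 (el m / el m')` and `et m / et m'` preserve `N d` because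
`el m / el m' ∈ BM m'` and `xx m' ∈ d`, and their inverses preserve `N d` because
`el m' / el m ∈ BM m` and `xx m ∈ d` (`b1`, `b2`). -/
theorem BLat.mem_btN_iff (N : BLat V) (i j : ℤ) {c : Ch k} {m : Fin 3} (hm : xx k m ∈ c.1)
    {x : V.E} : x ∈ N.btN i j c ↔ P.em m (-i) (-j) • x ∈ N.N c := by
  constructor
  · intro h
    have hcc : c.ins (xx k m) = c := Subtype.ext (Set.insert_eq_of_mem hm)
    exact N.mono hcc.le (h m)
  · intro h m'
    have h1 : P.em m (-i) (-j) • x ∈ N.N (c.ins (xx k m')) :=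
      N.mono (Set.subset_insert _ _) h
    have hm1 : xx k m ∈ (c.ins (xx k m')).1 := Set.mem_insert_of_mem _ hm
    have hm2 : xx k m' ∈ (c.ins (xx k m')).1 := Set.mem_insert _ _
    have h2 := MSp_es_zpow N hm1 hm2 (-i) (MSp_et_zpow N hm1 hm2 (-j) h1)
    have h3 : P.em m' (-i) (-j) • x = (P.es m' / P.es m) ^ (-i) •
        ((P.et m' / P.et m) ^ (-j) • (P.em m (-i) (-j) • x)) := by
      rw [smul_smul, smul_smul]
      congr 1
      unfold PD.em
      have hs := zpow_ne_zero (-i) (P.es_ne m)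
      have ht := zpow_ne_zero (-j) (P.et_ne m)
      rw [div_zpow, div_zpow]
      field_simp
    rw [h3]
    exact h2

/-- PROOF. Let `g ∈ c` and `e ≥ |i|, |j|` a natural number. If `x ∈ btN i j c` then
`y = λ_g ^ (-e) • x` is in `N c` by `Lat.glue`: for every `m`
`y = (λ_m / λ_g) ^ e * es m ^ (i - e) * et m ^ (j - e) • (em m (-i) (-j) • x)` with
`λ_m = es m * et m` (`lam_eq`), `(λ_m / λ_g) ^ e ∈ RR k c`, and `(es m)⁻¹ = j1 (el 0 / el m)`,
`(et m)⁻¹` preserve `N (c.ins (xx m))`. So `btN i j c ⊆ λ_g ^ e N c`, which is a finitely generated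
module over the noetherian ring `RR k c` (`RR_noeth`). -/
theorem BLat.btN_fg (N : BLat V) (i j : ℤ) (c : Ch k) : (N.btN i j c).FG := by
  obtain ⟨g, hg⟩ := c.2.1
  obtain ⟨e, hei, hej⟩ : ∃ e : ℕ, i ≤ e ∧ j ≤ e := ⟨i.natAbs + j.natAbs, by omega, by omega⟩
  have := RR_noeth c
  let f : V.E →ₗ[RR k c] V.E :=
    { toFun := fun x => lam k g.1 ^ (e : ℤ) • x
      map_add' := fun x y => smul_add _ x y
      map_smul' := fun r x => smul_comm (lam k g.1 ^ (e : ℤ)) (r : KK k) x }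
  have h1 : ((N.N c).map f).FG := (N.fg c).map f
  have h2 : IsNoetherian (RR k c) ((N.N c).map f) := isNoetherian_of_fg_of_noetherian _ h1
  refine isNoetherian_submodule.1 h2 _ ?_
  intro x hx
  have h0 : lam k g.1 ^ (e : ℤ) ≠ 0 := zpow_ne_zero _ (lam_ne_zero g)
  refine ⟨lam k g.1 ^ (-(e : ℤ)) • x, ?_, ?_⟩
  · refine N.toLat.glue c _ (fun m => ?_)
    have h3 := MSp_key N hg e hei hej m (hx m)
    have h4 : P.em m i j • ((lam k g.1) ^ (-(e : ℤ)) • (P.em m (-i) (-j) • x)) =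
        lam k g.1 ^ (-(e : ℤ)) • x := by
      rw [smul_comm (P.em m i j), smul_smul (P.em m i j), MSp_em_mul, add_neg_cancel,
        add_neg_cancel, MSp_em_zero, one_smul]
    rw [h4] at h3
    exact h3
  · change lam k g.1 ^ (e : ℤ) • lam k g.1 ^ (-(e : ℤ)) • x = x
    rw [smul_smul, zpow_neg, mul_inv_cancel₀ h0, one_smul]

/-- PROOF. With the same notation `λ_g ^ (-e) • x ∈ btN i j c` for all `x ∈ N c`
(`em m (-i) (-j) λ_g ^ (-e) = (λ_m / λ_g) ^ e es m ^ (- i - e) et m ^ (- j - e)`), and `N c` spans. -/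
theorem BLat.btN_span (N : BLat V) (i j : ℤ) (c : Ch k) :
    Submodule.span (KK k) (N.btN i j c : Set V.E) = ⊤ := by
  obtain ⟨g, hg⟩ := c.2.1
  obtain ⟨e, hei, hej⟩ : ∃ e : ℕ, -i ≤ e ∧ -j ≤ e := ⟨i.natAbs + j.natAbs, by omega, by omega⟩
  have h0 : lam k g.1 ^ (e : ℤ) ≠ 0 := zpow_ne_zero _ (lam_ne_zero g)
  rw [eq_top_iff, ← N.span c, Submodule.span_le]
  intro x hx
  have h1 : lam k g.1 ^ (-(e : ℤ)) • x ∈ N.btN i j c := fun m =>
    MSp_key N hg e hei hej m (N.mono (Set.subset_insert _ _) hx)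
  have h2 : x = lam k g.1 ^ (e : ℤ) • (lam k g.1 ^ (-(e : ℤ)) • x) := by
    rw [smul_smul, zpow_neg, mul_inv_cancel₀ h0, one_smul]
  rw [h2]
  exact Submodule.smul_mem _ _ (Submodule.subset_span h1)

/-- The twist `N(i, j)`. -/
def BLat.bt (N : BLat V) (i j : ℤ) : BLat V where
  N := N.btN i j
  mono := N.btN_mono i j
  loc := N.btN_loc i j
  fg := N.btN_fg i j
  span := N.btN_span i j
  b1 := fun c m hm f hf x hx => by
    have h := (N.mem_btN_iff i j hm).1 hx
    refine (N.mem_btN_iff i j hm).2 ?_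
    rw [smul_comm]
    exact N.b1 c m hm f hf _ h
  b2 := fun c m hm f hf x hx => by
    have h := (N.mem_btN_iff i j hm).1 hx
    refine (N.mem_btN_iff i j hm).2 ?_
    rw [smul_comm]
    exact N.b2 c m hm f hf _ h

/-- PROOF. `em m 0 0 = 1`; `Lat.glue`, `mono`. -/
theorem BLat.bt_zero (N : BLat V) (c : Ch k) (x : V.E) : x ∈ (N.bt 0 0).N c ↔ x ∈ N.N c := by
  rw [MSp_glue_iff N.toLat c x]
  refine forall_congr' fun m => ?_
  rw [neg_zero, MSp_em_zero, one_smul]

/-- PROOF. By `Lat.glue` it is enough to prove it on charts which contain some `xx m`, where it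
follows from `mem_btN_iff`. -/
theorem BLat.bt_bt (N : BLat V) (i j i' j' : ℤ) (c : Ch k) (x : V.E) :
    x ∈ ((N.bt i j).bt i' j').N c ↔ x ∈ (N.bt (i + i') (j + j')).N c := by
  rw [MSp_glue_iff ((N.bt i j).bt i' j').toLat c x,
    MSp_glue_iff (N.bt (i + i') (j + j')).toLat c x]
  refine forall_congr' fun m => ?_
  have hm : xx k m ∈ (c.ins (xx k m)).1 := Set.mem_insert _ _
  have h1 := (N.bt i j).mem_btN_iff i' j' hm (x := x)
  have h2 := N.mem_btN_iff i j hm (x := P.em m (-i') (-j') • x)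
  have h3 := N.mem_btN_iff (i + i') (j + j') hm (x := x)
  rw [smul_smul, MSp_em_mul, ← neg_add, ← neg_add] at h2
  exact h1.trans (h2.trans h3.symm)

/-- The twist `N(d, d)` is the twist `N(d)` on the plane. PROOF. `Lat.glue`, `mem_btN_iff`,
`Lat.mem_tw`, `lam_eq`. -/
theorem BLat.bt_tw (N : BLat V) (d : ℤ) (c : Ch k) (x : V.E) :
    x ∈ (N.bt d d).N c ↔ x ∈ (N.toLat.tw d).N c := by
  rw [MSp_glue_iff (N.bt d d).toLat c x, MSp_glue_iff (N.toLat.tw d) c x]
  refine forall_congr' fun m => ?_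
  have hm : xx k m ∈ (c.ins (xx k m)).1 := Set.mem_insert _ _
  have h1 := N.mem_btN_iff d d hm (x := x)
  have h2 := N.toLat.mem_tw d hm x
  have h3 : lam k (xx k m).1 ^ (-d) • x = P.em m (-d) (-d) • x := by
    rw [MSp_alg, map_zpow₀, MSp_lam, mul_zpow]
    rfl
  rw [h3] at h2
  exact h1.trans h2.symm

/-- Multiplication with `(ell r)(s)`. PROOF. `es m ^ (-1) * es r = j1 (el r / el m)`. -/
theorem BLat.es_mem (N : BLat V) {i i' j : ℤ} (h : i + 1 = i') (r : Fin 3) {c : Ch k} {x : V.E}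
    (hx : x ∈ (N.bt i j).N c) : P.es r • x ∈ (N.bt i' j).N c := by
  intro m
  have h1 : P.em m (-i) (-j) • x ∈ N.N (c.ins (xx k m)) := hx m
  have hm : xx k m ∈ (c.ins (xx k m)).1 := Set.mem_insert _ _
  have h2 := MSp_es N hm r h1
  have h3 : P.em m (-i') (-j) • (P.es r • x) = (P.es r / P.es m) • (P.em m (-i) (-j) • x) := by
    rw [smul_smul, smul_smul]
    congr 1
    unfold PD.em
    rw [← h, neg_add, zpow_add₀ (P.es_ne m), zpow_neg_one]
    ring
  rw [h3]
  exact h2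

/-- Multiplication with `(ell r)(t)`. -/
theorem BLat.et_mem (N : BLat V) {i j j' : ℤ} (h : j + 1 = j') (r : Fin 3) {c : Ch k} {x : V.E}
    (hx : x ∈ (N.bt i j).N c) : P.et r • x ∈ (N.bt i j').N c := by
  intro m
  have h1 : P.em m (-i) (-j) • x ∈ N.N (c.ins (xx k m)) := hx m
  have hm : xx k m ∈ (c.ins (xx k m)).1 := Set.mem_insert _ _
  have h2 := MSp_et N hm r h1
  have h3 : P.em m (-i) (-j') • (P.et r • x) = (P.et r / P.et m) • (P.em m (-i) (-j) • x) := by
    rw [smul_smul, smul_smul]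
    congr 1
    unfold PD.em
    rw [← h, neg_add, zpow_add₀ (P.et_ne m), zpow_neg_one]
    ring
  rw [h3]
  exact h2

end Pool.Agent.MP_6e5bed_ag_PS
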