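import Pool.Agent.Lib.MP_6e5bed_ag_PS.CurA
import Pool.Agent.Lib.MP_6e5bed_ag_NS.BaseC
import Pool.Agent.Lib.MP_6e5bed_ag_NS.Sh

set_option autoImplicit false

/-!
# MP_6e5bed_ag, NC PRODUCT SURFACES: the dg algebra `RΓ(U, End(O ⊕ O(1)))` for an open set `U` of a
curve
-/

noncomputable section

namespace Pool.Agent.MP_6e5bed_ag_PS

open Pool.Agent.MP_6e5bed_ag_NC
open Pool.Agent.MP_6e5bed_ag_NS

universe u

variable {k : Type u} [Field k]

/-- morphisms of cospans of algebras -/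
structure CoH (S T : Cosp k) where
  f0 : S.A0 →ₐ[k] T.A0
  f1 : S.A1 →ₐ[k] T.A1
  f01 : S.A01 →ₐ[k] T.A01
  h0 : ∀ a, T.r0 (f0 a) = f01 (S.r0 a)
  h1 : ∀ a, T.r1 (f1 a) = f01 (S.r1 a)

/-- PROOF. The elements of degree `i` of `Dg.two δ` are the `(v, 0)` for `i = 0`, the `(0, w)` for
`i = 1` (`Dg.two_isDeg`, `Dg.two_deg0`, `Dg.two_deg1`). -/
theorem CoH.deg {S T : Cosp k} (f : CoH S T) {i : ℤ} {a : S.cech.A} (ha : S.cech.dg.IsDeg i a) :
    T.cech.dg.IsDeg i ((LinearMap.prodMap (LinearMap.prodMap f.f0.toLinearMap f.f1.toLinearMap)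
      f.f01.toLinearMap) a) := by
  obtain ⟨v, w⟩ : (S.A0 × S.A1) × S.A01 := a
  have ha' : (Dg.two S.δ).IsDeg i (v, w) := ha
  change (Dg.two T.δ).IsDeg i ((f.f0 v.1, f.f1 v.2), f.f01 w)
  rcases Dg.two_isDeg S.δ ha' with ⟨rfl, rfl⟩ | ⟨rfl, rfl⟩ | ⟨rfl, rfl⟩
  · exact Dg.two_deg0' T.δ (map_zero f.f01)
  · exact Dg.two_deg1' T.δ (Prod.ext (map_zero f.f0) (map_zero f.f1))
  · have h : (((f.f0 (0 : S.A0 × S.A1).1, f.f1 (0 : S.A0 × S.A1).2), f.f01 0) :
        (T.A0 × T.A1) × T.A01) = 0 :=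
      Prod.ext (Prod.ext (map_zero f.f0) (map_zero f.f1)) (map_zero f.f01)
    rw [h]
    exact Dg.IsDeg.zero _

/-- the morphism of the Čech dg algebras -/
def CoH.dh {S T : Cosp k} (f : CoH S T) : DHom S.cech T.cech where
  f := LinearMap.prodMap (LinearMap.prodMap f.f0.toLinearMap f.f1.toLinearMap) f.f01.toLinearMap
  deg := f.deg
  d := fun a => by
    refine Prod.ext (Prod.ext (map_zero f.f0).symm (map_zero f.f1).symm) ?_
    change T.r1 (f.f1 a.1.2) - T.r0 (f.f0 a.1.1) = f.f01 (S.r1 a.1.2 - S.r0 a.1.1)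
    rw [f.h0, f.h1, map_sub]
  one := by
    refine Prod.ext (Prod.ext (map_one f.f0) (map_one f.f1)) (map_zero f.f01)
  mul := fun a b => by
    refine Prod.ext (Prod.ext (map_mul f.f0 a.1.1 b.1.1) (map_mul f.f1 a.1.2 b.1.2)) ?_
    change f.f01 (S.r0 a.1.1 * b.2 + a.2 * S.r1 b.1.2) =
      T.r0 (f.f0 a.1.1) * f.f01 b.2 + f.f01 a.2 * T.r1 (f.f1 b.1.2)
    rw [map_add, map_mul, map_mul, f.h0, f.h1]

/-- `R → A0, A1` compatible -/
structure CoA (R : Type u) [Ring R] [Algebra k R] (T : Cosp k) where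
  f0 : R →ₐ[k] T.A0
  f1 : R →ₐ[k] T.A1
  h : ∀ a, T.r0 (f0 a) = T.r1 (f1 a)

/-- the augmentation `R → C(A0 → A01 ← A1)` -/
def CoA.dh {R : Type u} [Ring R] [Algebra k R] {T : Cosp k} (f : CoA R T) :
    DHom (ring k R) T.cech where
  f := LinearMap.prod (LinearMap.prod f.f0.toLinearMap f.f1.toLinearMap) 0
  deg := fun {i a} ha => by
    rcases Dg.conc_cases ha with rfl | rfl
    · exact Dg.two_deg0 T.δ _
    · rw [map_zero]
      exact Dg.IsDeg.zero _
  d := fun a => by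
    refine Prod.ext ?_ ?_
    · change (0 : T.A0 × T.A1) = (f.f0 (0 : R), f.f1 (0 : R))
      rw [map_zero, map_zero]
      rfl
    · change T.r1 (f.f1 a) - T.r0 (f.f0 a) = 0
      rw [f.h, sub_self]
  one := by
    exact Prod.ext (Prod.ext (map_one f.f0) (map_one f.f1)) rfl
  mul := fun (a : R) (b : R) => by
    refine Prod.ext (Prod.ext (map_mul f.f0 a b) (map_mul f.f1 a b)) ?_
    change (0 : T.A01) = T.r0 (f.f0 a) * 0 + 0 * T.r1 (f.f1 b)
    rw [mul_zero, zero_mul, add_zero]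

variable (D : FExt k)

/-- the endomorphisms of `O ⊕ O(1)` on the chart `a`: the entry `p`, `q` is a section of
`O(p - q)` -/
def EM (a : Finset (Fin 3)) : Subalgebra k (Matrix (Fin 2) (Fin 2) D.L) where
  carrier := {m | ∀ p q : Fin 2, m p q ∈ OA D a (((p : ℕ) : ℤ) - ((q : ℕ) : ℤ))}
  mul_mem' := fun {x y} hx hy p q => by
    rw [Matrix.mul_apply]
    refine Submodule.sum_mem _ fun j _ => ?_
    have h := OA_mul (hx p j) (hy j q)
    rwa [sub_add_sub_cancel] at h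
  add_mem' := fun hx hy p q => (OA D a _).add_mem (hx p q) (hy p q)
  algebraMap_mem' := fun c p q => by
    rw [Matrix.algebraMap_matrix_apply]
    split_ifs with h
    · subst h
      rw [sub_self, Algebra.algebraMap_eq_smul_one]
      exact (OA D a 0).smul_mem c (one_mem_OA a)
    · exact (OA D a _).zero_mem

theorem mem_EM {a : Finset (Fin 3)} {m : Matrix (Fin 2) (Fin 2) D.L} :
    m ∈ EM D a ↔ ∀ p q : Fin 2, m p q ∈ OA D a (((p : ℕ) : ℤ) - ((q : ℕ) : ℤ)) := Iff.rfl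

theorem EM_mono {a b : Finset (Fin 3)} (h : a ⊆ b) : EM D a ≤ EM D b :=
  fun _ hm p q => OA_mono h _ (hm p q)

/-- the restriction -/
def emR {a b : Finset (Fin 3)} (h : a ⊆ b) : EM D a →ₐ[k] EM D b :=
  Subalgebra.inclusion (EM_mono D h)

theorem emR_coe {a b : Finset (Fin 3)} (h : a ⊆ b) (x : EM D a) :
    ((emR D h x : EM D b) : Matrix (Fin 2) (Fin 2) D.L) = x := rfl

/-- the cospan of the two charts `0`, `1` of `U_a` -/
def cospC (a : Finset (Fin 3)) : Cosp k where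
  A0 := EM D (insert 0 a)
  A1 := EM D (insert 1 a)
  A01 := EM D (insert 0 (insert 1 a))
  r0 := emR D (by
    intro j hj
    rcases Finset.mem_insert.1 hj with rfl | hj
    · exact Finset.mem_insert_self _ _
    · exact Finset.mem_insert_of_mem (Finset.mem_insert_of_mem hj))
  r1 := emR D (Finset.subset_insert _ _)

/-- The dg algebra `RΓ(U_a, End(O ⊕ O(1)))`. -/
def T1 (a : Finset (Fin 3)) : DGA k := (cospC D a).cech

/-- restriction -/
def coR {a b : Finset (Fin 3)} (h : a ⊆ b) : CoH (cospC D a) (cospC D b) where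
  f0 := emR D (Finset.insert_subset_insert 0 h)
  f1 := emR D (Finset.insert_subset_insert 1 h)
  f01 := emR D (a := insert 0 (insert 1 a)) (b := insert 0 (insert 1 b))
    (Finset.insert_subset_insert 0 (Finset.insert_subset_insert 1 h))
  h0 := fun _ => rfl
  h1 := fun _ => rfl

/-- restriction -/
def t1R {a b : Finset (Fin 3)} (h : a ⊆ b) : DHom (T1 D a) (T1 D b) := (coR D h).dh

/-- the augmentation -/
def coU (a : Finset (Fin 3)) : CoA (EM D a) (cospC D a) where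
  f0 := emR D (Finset.subset_insert _ _)
  f1 := emR D (Finset.subset_insert _ _)
  h := fun _ => rfl

/-- the augmentation -/
def t1U (a : Finset (Fin 3)) : DHom (ring k (EM D a)) (T1 D a) := (coU D a).dh

theorem t1R_id {a : Finset (Fin 3)} (h : a ⊆ a) (x : (T1 D a).A) : (t1R D h).f x = x := rfl

theorem t1R_t1R {a b c : Finset (Fin 3)} (h : a ⊆ b) (h' : b ⊆ c) (x : (T1 D a).A) :
    (t1R D h').f ((t1R D h).f x) = (t1R D (h.trans h')).f x := rfl

theorem t1R_t1U {a b : Finset (Fin 3)} (h : a ⊆ b) (x : EM D a) :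
    (t1R D h).f ((t1U D a).f x) = (t1U D b).f (emR D h x) := by
  exact Prod.ext rfl (map_zero (emR D (a := insert 0 (insert 1 a)) (b := insert 0 (insert 1 b))
    (Finset.insert_subset_insert 0 (Finset.insert_subset_insert 1 h))))

end Pool.Agent.MP_6e5bed_ag_PS
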