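import Pool.Agent.Lib.MP_6e5bed_ag_PS.NNdef

set_option autoImplicit false

/-!
# MP_6e5bed_ag, NC PRODUCT SURFACES, block F: `NN` is normal over `K`
-/

noncomputable section

namespace Pool.Agent.MP_6e5bed_ag_PS

open Pool.Agent.MP_6e5bed_ag_NC
open Pool.Agent.MP_6e5bed_ag_NS
open scoped TensorProduct

universe u

variable {k : Type u} [Field k]

/-- PROOF. `σ` maps `k(s)` isomorphically to `k(σ s)`; the minimal polynomial `f` of `y` over `k(s)` is
separable, the polynomial `f^σ` over `k(σ s)` is separable (`Polynomial.Separable.map`) and has the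
root `σ y`, so the minimal polynomial of `σ y` divides it (`Polynomial.Separable.of_dvd`). -/
theorem SepS_map (σ : Kb k ≃ₐ[k] Kb k) {s y : Kb k} (hy : y ∈ SepS s) : σ y ∈ SepS (σ s) := by
  have hmap : (IntermediateField.adjoin k {s}).map σ.toAlgHom =
      IntermediateField.adjoin k {σ s} := by
    rw [IntermediateField.adjoin_map, Set.image_singleton]
    rfl
  let e₁ : IntermediateField.adjoin k {s} ≃ₐ[k] IntermediateField.adjoin k {σ s} :=
    (IntermediateField.intermediateFieldMap σ (IntermediateField.adjoin k {s})).trans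
      (IntermediateField.equivOfEq hmap)
  exact IsSeparable.of_equiv_equiv e₁.toRingEquiv σ.toRingEquiv (RingHom.ext fun x => rfl) hy

/-- PROOF. `σ s, σ t` satisfy `ST` (`σ` fixes `K`), so `{σ s, σ t} = {s, t}` (`ST.cases`), and
`SepS_map` (restrict the scalars of `σ` to `k`) gives `σ (SepS s ∪ SepS t) ⊆ SepS s ∪ SepS t`;
`IntermediateField.adjoin_map`. -/
theorem NN_aut {s t : Kb k} (h : ST s t) (σ : Kb k ≃ₐ[KK k] Kb k) {x : Kb k} (hx : x ∈ NN s t) :
    σ x ∈ NN s t := by
  have h' : ST (σ s) (σ t) :=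
    ⟨by rw [← map_mul, h.m1, AlgEquiv.commutes],
      by rw [← map_one σ, ← map_sub, ← map_sub, ← map_mul, h.m2, AlgEquiv.commutes]⟩
  have h1 : σ x ∈ (NN s t).map σ.toAlgHom := ⟨x, hx, rfl⟩
  have h2 : (NN s t).map σ.toAlgHom ≤ NN s t := by
    unfold NN
    rw [IntermediateField.adjoin_map, IntermediateField.adjoin_le_iff]
    rintro _ ⟨y, hy, rfl⟩
    have hs := fun (a : Kb k) (hy : y ∈ SepS a) =>
      SepS_map (σ.restrictScalars k) (s := a) hy
    rcases h.cases h' with ⟨e1, e2⟩ | ⟨e1, e2⟩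
    · rcases hy with hy | hy
      · exact IntermediateField.subset_adjoin _ _ (Or.inl (e1 ▸ hs s hy))
      · exact IntermediateField.subset_adjoin _ _ (Or.inr (e2 ▸ hs t hy))
    · rcases hy with hy | hy
      · exact IntermediateField.subset_adjoin _ _ (Or.inr (e1 ▸ hs s hy))
      · exact IntermediateField.subset_adjoin _ _ (Or.inl (e2 ▸ hs t hy))
  exact h2 h1

/-- PROOF. There is `σ` with `σ x = y` (`minpoly.exists_algEquiv_of_root'`, `Kb` is normal over
`K`); `NN_aut`. -/
theorem NN_normal {s t : Kb k} (h : ST s t) {x y : Kb k} (hx : x ∈ NN s t)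
    (hy : Polynomial.aeval y (minpoly (KK k) x) = 0) : y ∈ NN s t := by
  obtain ⟨σ, rfl⟩ := minpoly.exists_algEquiv_of_root' (Algebra.IsAlgebraic.isAlgebraic x) hy
  exact NN_aut h σ hx

end Pool.Agent.MP_6e5bed_ag_PS
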