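import Pool.Agent.Lib.MP_6e5bed_ag_PS.PD

set_option autoImplicit false

/-!
# MP_6e5bed_ag, NC PRODUCT SURFACES, block F: the compositum of the separable closures

`Kb` is an algebraic closure of `K = k(u, v)`, `s, t ∈ Kb` with `s t = u`, `(s - 1)(t - 1) = v`;
`NN s t` is the subfield generated over `K` by the elements which are separable algebraic over
`k(s)` or over `k(t)`.
-/

noncomputable section

namespace Pool.Agent.MP_6e5bed_ag_PS

open Pool.Agent.MP_6e5bed_ag_NC
open Pool.Agent.MP_6e5bed_ag_NS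
open scoped TensorProduct

universe u

/-- the algebraic closure of `k(u, v)` -/
abbrev Kb (k : Type u) [Field k] : Type u := AlgebraicClosure (KK k)

variable {k : Type u} [Field k]

/-- `s t = u` and `(s - 1)(t - 1) = v` -/
structure ST (s t : Kb k) : Prop where
  m1 : s * t = algebraMap (KK k) (Kb k) (uu k 1)
  m2 : (s - 1) * (t - 1) = algebraMap (KK k) (Kb k) (uu k 2)

/-- the elements which are separable algebraic over `k(s)` -/
def SepS (s : Kb k) : Set (Kb k) := {x | IsSeparable (IntermediateField.adjoin k {s}) x}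

/-- the compositum of the separable closures of `k(s)` and `k(t)` -/
def NN (s t : Kb k) : IntermediateField (KK k) (Kb k) :=
  IntermediateField.adjoin (KK k) (SepS s ∪ SepS t)

theorem ST.swap {s t : Kb k} (h : ST s t) : ST t s :=
  ⟨by rw [mul_comm]; exact h.m1, by rw [mul_comm]; exact h.m2⟩

theorem NN_swap (s t : Kb k) : NN s t = NN t s := by
  unfold NN
  rw [Set.union_comm]

/-- PROOF. Let `s` be a root of `X² - (u - v + 1) X + u`, `t = (u - v + 1) - s`. Then
`s t = (u - v + 1) s - s² = u` and `(s - 1)(t - 1) = s t - (s + t) + 1 = v`.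
(`IsAlgClosed.exists_root` or `IsAlgClosed.exists_eq_mul_self`.) -/
theorem exists_ST (k : Type u) [Field k] : ∃ s t : Kb k, ST s t := by
  set a : Kb k := algebraMap (KK k) (Kb k) (uu k 1) with ha
  set b : Kb k := algebraMap (KK k) (Kb k) (uu k 2) with hb
  obtain ⟨s, hs⟩ := IsAlgClosed.exists_root (Polynomial.C (1 : Kb k) * Polynomial.X ^ 2 +
    Polynomial.C (-(a - b + 1)) * Polynomial.X + Polynomial.C a)
    (by rw [Polynomial.degree_quadratic one_ne_zero]; norm_num)
  rw [Polynomial.IsRoot.def] at hs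
  simp only [Polynomial.eval_add, Polynomial.eval_mul, Polynomial.eval_C, Polynomial.eval_pow,
    Polynomial.eval_X] at hs
  refine ⟨s, a - b + 1 - s, ?_, ?_⟩
  · rw [← ha]
    linear_combination -hs
  · rw [← hb]
    linear_combination -hs

/-- PROOF. `s + t = u - v + 1 = s' + t'`, `s t = s' t'`, so `(s' - s)(s' - t) = 0`. -/
theorem ST.cases {s t s' t' : Kb k} (h : ST s t) (h' : ST s' t') :
    (s' = s ∧ t' = t) ∨ (s' = t ∧ t' = s) := by
  have h0 : (s' - s) * (s' - t) = 0 := by
    linear_combination (-s' + 1) * h.m1 + s' * h.m2 + (s' - 1) * h'.m1 - s' * h'.m2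
  rcases mul_eq_zero.1 h0 with h1 | h1
  · exact Or.inl ⟨sub_eq_zero.1 h1, by
      linear_combination h'.m1 - h'.m2 - h.m1 + h.m2 - h1⟩
  · exact Or.inr ⟨sub_eq_zero.1 h1, by
      linear_combination h'.m1 - h'.m2 - h.m1 + h.m2 - h1⟩

/-- the field does not depend on the choice -/
theorem NN_unique {s t s' t' : Kb k} (h : ST s t) (h' : ST s' t') : NN s' t' = NN s t := by
  rcases h.cases h' with ⟨rfl, rfl⟩ | ⟨rfl, rfl⟩
  · rfl
  · exact NN_swap _ _

/-- `s` is in `NN`. PROOF. `s ∈ SepS s`: it is in the base field. -/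
theorem mem_NN_left (s t : Kb k) : s ∈ NN s t := by
  refine IntermediateField.subset_adjoin _ _ (Or.inl ?_)
  change IsSeparable (IntermediateField.adjoin k {s}) s
  exact isSeparable_algebraMap (K := Kb k)
    (⟨s, IntermediateField.mem_adjoin_simple_self k s⟩ : IntermediateField.adjoin k {s})

end Pool.Agent.MP_6e5bed_ag_PS
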