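import Pool.Agent.Lib.MP_6e5bed_ag_PS.PD
import Pool.Agent.Lib.MP_6e5bed_ag_PS.Glue
import Pool.Agent.Lib.MP_6e5bed_ag_PS.CurB

set_option autoImplicit false

/-!
# MP_6e5bed_ag, NC PRODUCT SURFACES: the functions on the three charts of the product surface
-/

noncomputable section

namespace Pool.Agent.MP_6e5bed_ag_PS

open Pool.Agent.MP_6e5bed_ag_NC
open Pool.Agent.MP_6e5bed_ag_NS
open scoped TensorProduct

universe u

variable {k : Type u} [Field k] (P : PD k)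

namespace PD

private theorem QBf_lam_xx (i : Fin 3) : lam k (xx k i).1 = uu k i := by
  unfold lam xx
  rw [Finset.sum_eq_single i]
  · change (Pi.single i 1 : Fin 3 → k) i • uu k i = uu k i
    rw [Pi.single_eq_same, one_smul]
  · intro j _ hj
    change (Pi.single i 1 : Fin 3 → k) j • uu k j = 0
    rw [Pi.single_eq_of_ne hj, zero_smul]
  · intro h
    exact absurd (Finset.mem_univ i) h

private theorem QBf_uu_ne (i : Fin 3) : uu k i ≠ 0 := by
  rw [← QBf_lam_xx]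
  exact lam_ne_zero _

private theorem QBf_quo (m j : Fin 3) : uu k j / uu k m ∈ RR k (sg1 k m) := by
  have h := Algebra.subset_adjoin (R := k) (s := {r | ∃ (ℓ : Fin 3 → k) (g : LF k),
    g ∈ (sg1 k m).1 ∧ r = lam k ℓ / lam k g.1}) ⟨(xx k j).1, xx k m, Set.mem_singleton _, rfl⟩
  rw [QBf_lam_xx, QBf_lam_xx] at h
  exact h

/-- the inclusion of the function field of the plane -/
private def QBf_F : KK k →ₐ[k] P.M := IsScalarTower.toAlgHom k (KK k) P.M

private def QBf_f1 : RatFunc k →ₐ[k] P.M :=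
  P.j1.comp (IsScalarTower.toAlgHom k (RatFunc k) P.D1.L)

private def QBf_f2 : RatFunc k →ₐ[k] P.M :=
  P.j2.comp (IsScalarTower.toAlgHom k (RatFunc k) P.D2.L)

private theorem QBf_F_smul (r : KK k) (x : P.M) : r • x = QBf_F P r * x := by
  rw [Algebra.smul_def]
  rfl

private theorem QBf_f1_ell (j m : Fin 3) :
    QBf_f1 P (ell k j / ell k m) = P.j1 (el P.D1 j / el P.D1 m) := by
  change P.j1 (algebraMap (RatFunc k) P.D1.L (ell k j / ell k m)) = _
  rw [map_div₀ (algebraMap (RatFunc k) P.D1.L)]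
  rfl

private theorem QBf_f2_ell (j m : Fin 3) :
    QBf_f2 P (ell k j / ell k m) = P.j2 (el P.D2 j / el P.D2 m) := by
  change P.j2 (algebraMap (RatFunc k) P.D2.L (ell k j / ell k m)) = _
  rw [map_div₀ (algebraMap (RatFunc k) P.D2.L)]
  rfl

private theorem QBf_F_quo (j m : Fin 3) : QBf_F P (uu k j / uu k m) =
    P.j1 (el P.D1 j / el P.D1 m) * P.j2 (el P.D2 j / el P.D2 m) := by
  rw [map_div₀ (QBf_F P), map_div₀ P.j1, map_div₀ P.j2]
  have h1 : QBf_F P (uu k j) = P.j1 (el P.D1 j) * P.j2 (el P.D2 j) := P.hlam j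
  have h2 : QBf_F P (uu k m) = P.j1 (el P.D1 m) * P.j2 (el P.D2 m) := P.hlam m
  rw [h1, h2, div_mul_div_comm]

private theorem QBf_mem_BB1 {m : Fin 3} {f : P.D1.L} (hf : f ∈ BM P.D1 m) :
    P.j1 f ∈ P.BB m := by
  rw [PD.mem_BB]
  have h := P.PP_mul_mem (a := {m}) (b := {m}) (i := 0) (j := 0) (f := f) (g := 1)
    (mem_OA_sgl.2 (by rwa [neg_zero, zpow_zero, one_mul])) (one_mem_OA (D := P.D2) {m})
  rwa [map_one, mul_one] at h

private theorem QBf_mem_BB2 {m : Fin 3} {g : P.D2.L} (hg : g ∈ BM P.D2 m) :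
    P.j2 g ∈ P.BB m := by
  rw [PD.mem_BB]
  have h := P.PP_mul_mem (a := {m}) (b := {m}) (i := 0) (j := 0) (f := 1) (g := g)
    (one_mem_OA (D := P.D1) {m}) (mem_OA_sgl.2 (by rwa [neg_zero, zpow_zero, one_mul]))
  rwa [map_one, one_mul] at h

private theorem QBf_OA {D : FExt k} {m : Fin 3} {f : D.L} (hf : f ∈ OA D {m} 0) : f ∈ BM D m := by
  have h := mem_OA_sgl.1 hf
  rwa [neg_zero, zpow_zero, one_mul] at h

/-- induction over the ring of functions -/
private theorem QBf_ind {m : Fin 3} (C : P.M → Prop)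
    (h1 : ∀ f ∈ BM P.D1 m, ∀ g ∈ BM P.D2 m, C (P.j1 f * P.j2 g))
    (h2 : ∀ x y, C x → C y → C (x + y)) {x : P.M} (hx : x ∈ P.BB m) : C x := by
  refine Submodule.mul_induction_on (C := C) ((PD.mem_BB P).1 hx) ?_ h2
  rintro _ ⟨f, hf, rfl⟩ _ ⟨g, hg, rfl⟩
  exact h1 f (QBf_OA hf) g (QBf_OA hg)

/-- PROOF. `RR k (sg1 k m)` is generated by the `lam ℓ / lam (xx m)`, and `lam (xx m) = u_m`,
`lam ℓ = ∑ ℓ_i u_i`. So it is enough that `u_i / u_m ∈ BB m`; its image is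
`j1 (el i / el m) * j2 (el i / el m)` (`hlam`), and `el i / el m ∈ OA {m} 0` (`mem_OA_sgl`,
`el_div_mem`). `Algebra.adjoin_induction`. -/
theorem rr_mem (m : Fin 3) {r : KK k} (hr : r ∈ RR k (sg1 k m)) :
    algebraMap (KK k) P.M r ∈ P.BB m := by
  have hq : ∀ j : Fin 3, QBf_F P (uu k j / uu k m) ∈ P.BB m := by
    intro j
    rw [QBf_F_quo]
    exact (P.BB m).mul_mem (QBf_mem_BB1 P (el_div_mem P.D1 j m)) (QBf_mem_BB2 P (el_div_mem P.D2 j m))
  change QBf_F P r ∈ P.BB m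
  have h1 : RR k (sg1 k m) ≤ (P.BB m).comap (QBf_F P) := by
    refine Algebra.adjoin_le ?_
    rintro _ ⟨ℓ, g, hg, rfl⟩
    rw [Set.mem_singleton_iff.1 hg]
    change QBf_F P _ ∈ P.BB m
    rw [QBf_lam_xx]
    have e : lam k ℓ / uu k m = ∑ j, ℓ j • (uu k j / uu k m) := by
      unfold lam
      rw [Finset.sum_div]
      exact Finset.sum_congr rfl fun j _ => smul_div_assoc _ _ _
    rw [e, map_sum]
    refine Subalgebra.sum_mem _ fun j _ => ?_
    rw [map_smul]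
    exact (P.BB m).smul_mem (hq j) _
  exact h1 hr

/-- the functions on the product of the charts `m`, as a module over the functions on the plane -/
def QB (m : Fin 3) : Submodule (RR k (sg1 k m)) P.M where
  carrier := {x | x ∈ P.BB m}
  add_mem' := (P.BB m).add_mem
  zero_mem' := (P.BB m).zero_mem
  smul_mem' := fun r x hx => by
    rw [Subalgebra.smul_def, Algebra.smul_def]
    exact (P.BB m).mul_mem (P.rr_mem m r.2) hx

theorem mem_QB {m : Fin 3} {x : P.M} : x ∈ P.QB m ↔ x ∈ P.PP {m} {m} 0 0 := Iff.rfl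

/-- `SS k m` is a polynomial ring in `ell j0 / ell m` -/
private theorem QBf_gen (m : Fin 3) : ∃ j0 : Fin 3, (m = 0 → j0 = 1) ∧ (m ≠ 0 → j0 = 0) ∧
    ∀ j, ∃ a b : k, ell k j / ell k m =
      algebraMap k (RatFunc k) a + algebraMap k (RatFunc k) b * (ell k j0 / ell k m) := by
  have e0 : ell k 0 = 1 := rfl
  have e1 : ell k 1 = RatFunc.X := rfl
  have e2 : ell k 2 = RatFunc.X - 1 := rfl
  have n1 : ell k 1 ≠ 0 := ell_ne 1
  have n2 : ell k 2 ≠ 0 := ell_ne 2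
  have hsub : ell k 1 - ell k 0 = ell k 2 := by rw [e0, e1, e2]
  have hm3 : m = 0 ∨ m = 1 ∨ m = 2 := by fin_cases m <;> simp
  have hj3 : ∀ j : Fin 3, j = 0 ∨ j = 1 ∨ j = 2 := by
    intro j
    fin_cases j <;> simp
  rcases hm3 with rfl | rfl | rfl
  · refine ⟨1, fun _ => rfl, fun h => absurd rfl h, ?_⟩
    intro j
    rcases hj3 j with rfl | rfl | rfl
    · refine ⟨1, 0, ?_⟩
      rw [div_self (ell_ne 0), map_one, map_zero, zero_mul, add_zero]
    · refine ⟨0, 1, ?_⟩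
      rw [map_one, map_zero, one_mul, zero_add]
    · refine ⟨-1, 1, ?_⟩
      rw [map_neg, map_one, one_mul, ← hsub, e0]
      ring
  · refine ⟨0, fun h => absurd h (by decide), fun _ => rfl, ?_⟩
    intro j
    rcases hj3 j with rfl | rfl | rfl
    · refine ⟨0, 1, ?_⟩
      rw [map_one, map_zero, one_mul, zero_add]
    · refine ⟨1, 0, ?_⟩
      rw [div_self n1, map_one, map_zero, zero_mul, add_zero]
    · refine ⟨1, -1, ?_⟩
      rw [map_neg, map_one, ← hsub]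
      field_simp
      ring
  · refine ⟨0, fun h => absurd h (by decide), fun _ => rfl, ?_⟩
    intro j
    rcases hj3 j with rfl | rfl | rfl
    · refine ⟨0, 1, ?_⟩
      rw [map_one, map_zero, one_mul, zero_add]
    · refine ⟨1, 1, ?_⟩
      have h1 : ell k 1 = ell k 2 + ell k 0 := by rw [← hsub]; ring
      rw [map_one, one_mul, h1, add_div, div_self n2]
    · refine ⟨1, 0, ?_⟩
      rw [div_self n2, map_one, map_zero, zero_mul, add_zero]

/-- the symmetric functions are functions on the plane -/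
private theorem QBf_sym (m j0 : Fin 3) (h0 : m = 0 → j0 = 1) (h0' : m ≠ 0 → j0 = 0) :
    ∃ e ∈ RR k (sg1 k m), QBf_F P e =
      P.j1 (el P.D1 j0 / el P.D1 m) + P.j2 (el P.D2 j0 / el P.D2 m) := by
  have hs : P.j1 (el P.D1 1 / el P.D1 m) - P.j1 (el P.D1 0 / el P.D1 m) =
      P.j1 (el P.D1 2 / el P.D1 m) := by
    rw [← map_sub, ← sub_div, el_sub]
  have ht : P.j2 (el P.D2 1 / el P.D2 m) - P.j2 (el P.D2 0 / el P.D2 m) =
      P.j2 (el P.D2 2 / el P.D2 m) := by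
    rw [← map_sub, ← sub_div, el_sub]
  have hs1 : P.j1 (el P.D1 m / el P.D1 m) = 1 := by rw [div_self (el_ne P.D1 m), map_one]
  have ht1 : P.j2 (el P.D2 m / el P.D2 m) = 1 := by rw [div_self (el_ne P.D2 m), map_one]
  have hq := QBf_F_quo P
  have hm3 : m = 0 ∨ m = 1 ∨ m = 2 := by fin_cases m <;> simp
  rcases hm3 with rfl | rfl | rfl
  · obtain rfl := h0 rfl
    refine ⟨1 + uu k 1 / uu k 0 - uu k 2 / uu k 0,
      (RR k (sg1 k 0)).sub_mem ((RR k (sg1 k 0)).add_mem (RR k (sg1 k 0)).one_mem (QBf_quo 0 1))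
        (QBf_quo 0 2), ?_⟩
    rw [map_sub, map_add, map_one, hq, hq, ← hs, ← ht, hs1, ht1]
    ring
  · obtain rfl := h0' (by decide)
    refine ⟨1 + uu k 0 / uu k 1 - uu k 2 / uu k 1,
      (RR k (sg1 k 1)).sub_mem ((RR k (sg1 k 1)).add_mem (RR k (sg1 k 1)).one_mem (QBf_quo 1 0))
        (QBf_quo 1 2), ?_⟩
    rw [map_sub, map_add, map_one, hq, hq, ← hs, ← ht, hs1, ht1]
    ring
  · obtain rfl := h0' (by decide)
    refine ⟨uu k 1 / uu k 2 - 1 - uu k 0 / uu k 2,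
      (RR k (sg1 k 2)).sub_mem ((RR k (sg1 k 2)).sub_mem (QBf_quo 2 1) (RR k (sg1 k 2)).one_mem)
        (QBf_quo 2 0), ?_⟩
    rw [map_sub, map_sub, map_one, hq, hq]
    have h1 : P.j1 (el P.D1 1 / el P.D1 2) = 1 + P.j1 (el P.D1 0 / el P.D1 2) := by
      linear_combination hs + hs1
    have h2 : P.j2 (el P.D2 1 / el P.D2 2) = 1 + P.j2 (el P.D2 0 / el P.D2 2) := by
      linear_combination ht + ht1
    rw [h1, h2]
    ring

/-- the functions `x + y σ` and `x + y τ` -/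
private theorem QBf_xy {m j0 : Fin 3}
    (hg : ∀ j, ∃ a b : k, ell k j / ell k m =
      algebraMap k (RatFunc k) a + algebraMap k (RatFunc k) b * (ell k j0 / ell k m))
    {e : KK k} (he : e ∈ RR k (sg1 k m)) (hF : QBf_F P e =
      P.j1 (el P.D1 j0 / el P.D1 m) + P.j2 (el P.D2 j0 / el P.D2 m))
    {s : RatFunc k} (hs : s ∈ SS k m) :
    ∃ x ∈ RR k (sg1 k m), ∃ y ∈ RR k (sg1 k m),
      QBf_f1 P s = QBf_F P x + QBf_F P y * P.j1 (el P.D1 j0 / el P.D1 m) ∧
      QBf_f2 P s = QBf_F P x + QBf_F P y * P.j2 (el P.D2 j0 / el P.D2 m) := by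
  have hq := QBf_F_quo P j0 m
  set σ := P.j1 (el P.D1 j0 / el P.D1 m) with hσ
  set τ := P.j2 (el P.D2 j0 / el P.D2 m) with hτ
  refine Algebra.adjoin_induction (p := fun s _ => ∃ x ∈ RR k (sg1 k m), ∃ y ∈ RR k (sg1 k m),
      QBf_f1 P s = QBf_F P x + QBf_F P y * σ ∧
      QBf_f2 P s = QBf_F P x + QBf_F P y * τ) ?_ ?_ ?_ ?_ hs
  · rintro _ ⟨j, rfl⟩
    obtain ⟨a, b, hab⟩ := hg j
    refine ⟨algebraMap k _ a, Subalgebra.algebraMap_mem _ _, algebraMap k _ b,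
      Subalgebra.algebraMap_mem _ _, ?_, ?_⟩
    · rw [hab, map_add, map_mul, AlgHom.commutes, AlgHom.commutes, AlgHom.commutes,
        AlgHom.commutes, QBf_f1_ell]
    · rw [hab, map_add, map_mul, AlgHom.commutes, AlgHom.commutes, AlgHom.commutes,
        AlgHom.commutes, QBf_f2_ell]
  · intro c
    refine ⟨algebraMap k _ c, Subalgebra.algebraMap_mem _ _, 0, Subalgebra.zero_mem _, ?_, ?_⟩
    · rw [AlgHom.commutes, AlgHom.commutes, map_zero, zero_mul, add_zero]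
    · rw [AlgHom.commutes, AlgHom.commutes, map_zero, zero_mul, add_zero]
  · rintro s s' _ _ ⟨x, hx, y, hy, h1, h2⟩ ⟨x', hx', y', hy', h1', h2'⟩
    refine ⟨x + x', Subalgebra.add_mem _ hx hx', y + y', Subalgebra.add_mem _ hy hy', ?_, ?_⟩
    · rw [map_add, map_add, map_add, h1, h1']
      ring
    · rw [map_add, map_add, map_add, h2, h2']
      ring
  · rintro s s' _ _ ⟨x, hx, y, hy, h1, h2⟩ ⟨x', hx', y', hy', h1', h2'⟩
    have hq' : uu k j0 / uu k m ∈ RR k (sg1 k m) := QBf_quo m j0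
    refine ⟨x * x' - y * y' * (uu k j0 / uu k m), ?_, x * y' + x' * y + y * y' * e, ?_, ?_, ?_⟩
    · exact Subalgebra.sub_mem _ (Subalgebra.mul_mem _ hx hx')
        (Subalgebra.mul_mem _ (Subalgebra.mul_mem _ hy hy') hq')
    · exact Subalgebra.add_mem _ (Subalgebra.add_mem _ (Subalgebra.mul_mem _ hx hy')
        (Subalgebra.mul_mem _ hx' hy)) (Subalgebra.mul_mem _ (Subalgebra.mul_mem _ hy hy') he)
    · rw [map_mul, h1, h1', map_sub, map_add, map_add, map_mul, map_mul, map_mul, map_mul, map_mul,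
        map_mul, map_mul, hq, hF]
      ring
    · rw [map_mul, h2, h2', map_sub, map_add, map_add, map_mul, map_mul, map_mul, map_mul, map_mul,
        map_mul, map_mul, hq, hF]
      ring

/-- products are in `A + A σ` -/
private theorem QBf_prod (m : Fin 3) : ∃ σ ∈ P.BB m, ∀ s ∈ SS k m, ∀ r ∈ SS k m,
    ∃ x ∈ RR k (sg1 k m), ∃ y ∈ RR k (sg1 k m),
      QBf_f1 P s * QBf_f2 P r = QBf_F P x + QBf_F P y * σ := by
  obtain ⟨j0, h0, h0', hg⟩ := QBf_gen (k := k) m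
  obtain ⟨e, he, hF⟩ := QBf_sym P m j0 h0 h0'
  refine ⟨P.j1 (el P.D1 j0 / el P.D1 m), QBf_mem_BB1 P (el_div_mem P.D1 j0 m), fun s hs r hr => ?_⟩
  obtain ⟨x, hx, y, hy, h1, -⟩ := QBf_xy P hg he hF hs
  obtain ⟨x', hx', y', hy', -, h2⟩ := QBf_xy P hg he hF hr
  have hq := QBf_F_quo P j0 m
  have hq' : uu k j0 / uu k m ∈ RR k (sg1 k m) := QBf_quo m j0
  refine ⟨x * x' + x * y' * e + y * y' * (uu k j0 / uu k m), ?_, x' * y - x * y', ?_, ?_⟩
  · exact Subalgebra.add_mem _ (Subalgebra.add_mem _ (Subalgebra.mul_mem _ hx hx')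
      (Subalgebra.mul_mem _ (Subalgebra.mul_mem _ hx hy') he))
      (Subalgebra.mul_mem _ (Subalgebra.mul_mem _ hy hy') hq')
  · exact Subalgebra.sub_mem _ (Subalgebra.mul_mem _ hx' hy) (Subalgebra.mul_mem _ hx hy')
  · rw [h1, h2]
    simp only [map_add, map_sub, map_mul]
    rw [hq, hF]
    ring

/-- norms are functions on the plane -/
private theorem QBf_norm {m : Fin 3} {s : RatFunc k} (hs : s ∈ SS k m) :
    ∃ x : KK k, QBf_f1 P s * QBf_f2 P s = QBf_F P x := by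
  obtain ⟨j0, h0, h0', hg⟩ := QBf_gen (k := k) m
  obtain ⟨e, he, hF⟩ := QBf_sym P m j0 h0 h0'
  obtain ⟨x, hx, y, hy, h1, h2⟩ := QBf_xy P hg he hF hs
  have hq := QBf_F_quo P j0 m
  refine ⟨x * x + x * y * e + y * y * (uu k j0 / uu k m), ?_⟩
  rw [h1, h2]
  simp only [map_add, map_mul]
  rw [hq, hF]
  ring

private theorem QBf_poly (m : Fin 3) : ∃ w ∈ SS k m, ∀ s ∈ SS k m,
    ∃ p : Polynomial k, Polynomial.aeval w p = s := by
  obtain ⟨j0, -, -, hg⟩ := QBf_gen (k := k) m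
  refine ⟨ell k j0 / ell k m, Algebra.subset_adjoin ⟨j0, rfl⟩, fun s hs => ?_⟩
  refine Algebra.adjoin_induction (p := fun s _ => ∃ p : Polynomial k,
    Polynomial.aeval (ell k j0 / ell k m) p = s) ?_ ?_ ?_ ?_ hs
  · rintro _ ⟨j, rfl⟩
    obtain ⟨a, b, hab⟩ := hg j
    refine ⟨Polynomial.C a + Polynomial.C b * Polynomial.X, ?_⟩
    rw [map_add, map_mul, Polynomial.aeval_C, Polynomial.aeval_C, Polynomial.aeval_X, hab]
  · intro c
    exact ⟨Polynomial.C c, Polynomial.aeval_C _ _⟩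
  · rintro s s' _ _ ⟨p, rfl⟩ ⟨p', rfl⟩
    exact ⟨p + p', map_add _ _ _⟩
  · rintro s s' _ _ ⟨p, rfl⟩ ⟨p', rfl⟩
    exact ⟨p * p', map_mul _ _ _⟩

private theorem QBf_pid (m : Fin 3) : IsPrincipalIdealRing (SS k m) := by
  obtain ⟨w, hw, h⟩ := QBf_poly (k := k) m
  refine IsPrincipalIdealRing.of_surjective
    ((Polynomial.aeval (⟨w, hw⟩ : SS k m) : Polynomial k →ₐ[k] SS k m) :
      Polynomial k →+* SS k m) ?_
  rintro ⟨f, hf⟩
  obtain ⟨p, rfl⟩ := h f hf
  refine ⟨p, Subtype.ext ?_⟩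
  have h1 := Polynomial.aeval_algHom_apply (SS k m).val (⟨w, hw⟩ : SS k m) p
  exact h1.symm

/-- polynomials are functions on the chart after multiplication with powers of `1 / ell m` -/
private theorem QBf_pow (m : Fin 3) {f : RatFunc k} (h : f ∈ kk k RatFunc.X) :
    ∃ n : ℕ, ∀ l : ℕ, n ≤ l → (ell k 0 / ell k m) ^ l * f ∈ SS k m := by
  have hg : ell k 0 / ell k m ∈ SS k m := Algebra.subset_adjoin ⟨0, rfl⟩
  have hg1 : ell k 1 / ell k m ∈ SS k m := Algebra.subset_adjoin ⟨1, rfl⟩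
  refine Algebra.adjoin_induction (s := {RatFunc.X}) (p := fun f _ => ∃ n : ℕ, ∀ l : ℕ, n ≤ l →
    (ell k 0 / ell k m) ^ l * f ∈ SS k m) ?_ ?_ ?_ ?_ h
  · intro x hx
    rw [Set.mem_singleton_iff] at hx
    subst hx
    refine ⟨1, fun l hl => ?_⟩
    obtain ⟨l, rfl⟩ := Nat.exists_eq_add_of_le hl
    have e : (ell k 0 / ell k m) ^ (1 + l) * RatFunc.X =
        (ell k 0 / ell k m) ^ l * (ell k 1 / ell k m) := by
      have e0 : ell k 0 = 1 := rfl
      have e1 : ell k 1 = RatFunc.X := rfl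
      rw [e0, e1, add_comm, pow_succ]
      ring
    rw [e]
    exact Subalgebra.mul_mem _ (Subalgebra.pow_mem _ hg l) hg1
  · intro r
    exact ⟨0, fun l _ => Subalgebra.mul_mem _ (Subalgebra.pow_mem _ hg l)
      (Subalgebra.algebraMap_mem _ r)⟩
  · rintro x y - - ⟨n, hn⟩ ⟨n', hn'⟩
    refine ⟨n + n', fun l hl => ?_⟩
    rw [mul_add]
    exact Subalgebra.add_mem _ (hn l (by omega)) (hn' l (by omega))
  · rintro x y - - ⟨n, hn⟩ ⟨n', hn'⟩
    refine ⟨n + n', fun l hl => ?_⟩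
    obtain ⟨l', rfl⟩ := Nat.exists_eq_add_of_le hl
    have : (ell k 0 / ell k m) ^ (n + n' + l') * (x * y) =
        ((ell k 0 / ell k m) ^ n * x) * ((ell k 0 / ell k m) ^ (n' + l') * y) := by ring
    rw [this]
    exact Subalgebra.mul_mem _ (hn n le_rfl) (hn' _ (by omega))

private theorem QBf_frac (m : Fin 3) : IsFractionRing (SS k m) (RatFunc k) := by
  rw [IsFractionRing, isLocalization_iff]
  refine ⟨?_, ?_, ?_⟩
  · rintro ⟨y, hy⟩
    refine isUnit_iff_ne_zero.2 fun h => ?_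
    have : y = 0 := Subtype.ext h
    exact nonZeroDivisors.ne_zero hy this
  · intro z
    obtain ⟨g, hg, hg0, hgc⟩ := exists_div_X z
    obtain ⟨n, hn⟩ := QBf_pow m hg
    obtain ⟨n', hn'⟩ := QBf_pow m hgc
    have h1 := hn (n + n') (by omega)
    have h2 := hn' (n + n') (by omega)
    have h0 : (ell k 0 / ell k m) ^ (n + n') ≠ 0 :=
      pow_ne_zero _ (div_ne_zero (ell_ne 0) (ell_ne m))
    refine ⟨(⟨_, h2⟩, ⟨⟨_, h1⟩, mem_nonZeroDivisors_of_ne_zero fun h => ?_⟩), ?_⟩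
    · exact mul_ne_zero h0 hg0 (congrArg Subtype.val h)
    · show z * ((ell k 0 / ell k m) ^ (n + n') * g) = (ell k 0 / ell k m) ^ (n + n') * (g * z)
      ring
  · intro x y h
    exact ⟨1, by rw [show x = y from Subtype.ext h]⟩

private theorem QBf_fin (D : FExt k) (m : Fin 3) : ∃ S : Finset D.L, (∀ a ∈ S, a ∈ BM D m) ∧
    ∀ f ∈ BM D m, ∃ c : D.L → SS k m, f = ∑ a ∈ S, (c a : RatFunc k) • a := by
  haveI := QBf_pid (k := k) m
  haveI := QBf_frac (k := k) m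
  have h : Module.Finite (SS k m) (integralClosure (SS k m) D.L) :=
    IsIntegralClosure.finite (SS k m) (RatFunc k) D.L (integralClosure (SS k m) D.L)
  obtain ⟨S, hS⟩ : (Subalgebra.toSubmodule (integralClosure (SS k m) D.L)).FG :=
    Module.Finite.iff_fg.1 h
  have hmem : ∀ f : D.L, f ∈ BM D m ↔ f ∈ Submodule.span (SS k m) (S : Set D.L) := by
    intro f
    rw [hS]
    rfl
  refine ⟨S, fun a ha => (hmem a).2 (Submodule.subset_span ha), fun f hf => ?_⟩
  obtain ⟨c, -, hc⟩ := (Submodule.mem_span_finset (R := SS k m)).1 ((hmem f).1 hf)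
  refine ⟨c, ?_⟩
  rw [← hc]
  rfl

private theorem QBf_j1_smul (c : RatFunc k) (a : P.D1.L) :
    P.j1 (c • a) = QBf_f1 P c * P.j1 a := by
  rw [Algebra.smul_def, map_mul]
  rfl

private theorem QBf_j2_smul (c : RatFunc k) (a : P.D2.L) :
    P.j2 (c • a) = QBf_f2 P c * P.j2 a := by
  rw [Algebra.smul_def, map_mul]
  rfl

private theorem QBf_smul_eq {m : Fin 3} (r : RR k (sg1 k m)) (x : P.M) :
    r • x = QBf_F P (r : KK k) * x := by
  rw [Subalgebra.smul_def, QBf_F_smul]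

/-- PROOF. `BM D1 m` is a finitely generated module over `SS k m` (`IsIntegralClosure.finite`:
`SS k m` is a polynomial ring in one variable, so a principal ideal domain with the fraction field
`RatFunc k`, and `L₁` is a finite separable extension; compare `LPO_fg` in
`Lib/MP_6e5bed_ag_CV/LPO.lean`), and so is `BM D2 m`. `SS k m` is generated by one element `w`:
`SS k 0 = k[x]`, `SS k 1 = k[1/x]`, `SS k 2 = k[1/(x-1)]`. So `BB m` is a finitely generated module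
over `k[σ, τ]`, `σ = j1 w`, `τ = j2 w` (`OA {m} 0 = BM m` by `mem_OA_sgl`). The ring `k[σ, τ]` is a
finitely generated module over the image `R` of `RR k (sg1 k m)`, because `σ` and `τ` are roots of
`X² - (σ + τ) X + σ τ` and `σ τ`, `σ + τ` are in `R`:
`m = 0`: `σ = s`, `τ = t`, `σ τ = u`, `σ + τ = u - v + 1`;
`m = 1`: `σ = 1/s`, `τ = 1/t`, `σ τ = 1/u`, `σ + τ = (u - v + 1)/u`;
`m = 2`: `σ = 1/(s-1)`, `τ = 1/(t-1)`, `σ τ = 1/v`, `σ + τ = (u - v - 1)/v`
(`u = s t`, `v = (s-1)(t-1)`, `hlam`). -/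
theorem QB_fg (m : Fin 3) : (P.QB m).FG := by
  obtain ⟨S1, hS1, hf1⟩ := QBf_fin P.D1 m
  obtain ⟨S2, hS2, hf2⟩ := QBf_fin P.D2 m
  obtain ⟨σ, hσ, hp⟩ := QBf_prod P m
  obtain ⟨G, hGf, hG1, hG2, hG3⟩ : ∃ G : Set P.M, G.Finite ∧ (∀ x ∈ G, x ∈ P.BB m) ∧
      (∀ a ∈ S1, ∀ b ∈ S2, P.j1 a * P.j2 b ∈ G) ∧ (∀ a ∈ S1, ∀ b ∈ S2, P.j1 a * P.j2 b * σ ∈ G) := by
    refine ⟨(fun z : P.D1.L × P.D2.L => P.j1 z.1 * P.j2 z.2) '' ((S1 ×ˢ S2 : Finset _) : Set _) ∪
      (fun z : P.D1.L × P.D2.L => P.j1 z.1 * P.j2 z.2 * σ) '' ((S1 ×ˢ S2 : Finset _) : Set _),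
      ((Finset.finite_toSet _).image _).union ((Finset.finite_toSet _).image _), ?_, ?_, ?_⟩
    · rintro x (⟨z, hz, rfl⟩ | ⟨z, hz, rfl⟩)
      · rw [Finset.mem_coe, Finset.mem_product] at hz
        exact (P.BB m).mul_mem (QBf_mem_BB1 P (hS1 _ hz.1)) (QBf_mem_BB2 P (hS2 _ hz.2))
      · rw [Finset.mem_coe, Finset.mem_product] at hz
        exact (P.BB m).mul_mem ((P.BB m).mul_mem (QBf_mem_BB1 P (hS1 _ hz.1))
          (QBf_mem_BB2 P (hS2 _ hz.2))) hσ
    · intro a ha b hb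
      exact Or.inl ⟨(a, b), Finset.mem_coe.2 (Finset.mem_product.2 ⟨ha, hb⟩), rfl⟩
    · intro a ha b hb
      exact Or.inr ⟨(a, b), Finset.mem_coe.2 (Finset.mem_product.2 ⟨ha, hb⟩), rfl⟩
  refine Submodule.fg_def.2 ⟨G, hGf, le_antisymm (Submodule.span_le.2 fun x hx => hG1 x hx) ?_⟩
  intro x hx
  refine QBf_ind P (m := m) (fun x => x ∈ Submodule.span (RR k (sg1 k m)) G) ?_ ?_ hx
  · intro f hf g hg
    obtain ⟨c, hc⟩ := hf1 f hf
    obtain ⟨d, hd⟩ := hf2 g hg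
    have e0 : P.j1 f * P.j2 g = ∑ a ∈ S1, ∑ b ∈ S2,
        P.j1 ((c a : RatFunc k) • a) * P.j2 ((d b : RatFunc k) • b) := by
      conv_lhs => rw [hc, hd, map_sum, map_sum]
      exact Finset.sum_mul_sum _ _ _ _
    rw [e0]
    refine Submodule.sum_mem _ fun a ha => Submodule.sum_mem _ fun b hb => ?_
    obtain ⟨x', hx', y', hy', h1⟩ := hp _ (c a).2 _ (d b).2
    have e : P.j1 ((c a : RatFunc k) • a) * P.j2 ((d b : RatFunc k) • b) =
        (⟨x', hx'⟩ : RR k (sg1 k m)) • (P.j1 a * P.j2 b) +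
          (⟨y', hy'⟩ : RR k (sg1 k m)) • (P.j1 a * P.j2 b * σ) := by
      rw [QBf_smul_eq, QBf_smul_eq, QBf_j1_smul, QBf_j2_smul]
      linear_combination (P.j1 a * P.j2 b) * h1
    rw [e]
    exact Submodule.add_mem _ (Submodule.smul_mem _ _ (Submodule.subset_span (hG2 a ha b hb)))
      (Submodule.smul_mem _ _ (Submodule.subset_span (hG3 a ha b hb)))
  · intro x y hx hy
    exact Submodule.add_mem _ hx hy

/-- PROOF. By `P.span` every element of `M` is a sum of elements `κ j1 a j2 b`, `κ ∈ K`. `a` is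
algebraic over the fraction field of `SS k m`, so there is `0 ≠ p ∈ SS k m` with `p a ∈ BM m`
(`exists_integral_multiple`, compare `LPO_int`), same for `b` with `q`. `j1 p ≠ 0` is integral over
`RR k (sg1 k m)` (see `QB_fg`), so it divides in `BB m` a nonzero element of the image of
`RR k (sg1 k m)` (the constant coefficient of an integral equation of minimal degree); so
`j1 a j2 b` is a `K`-multiple of an element of `BB m`. -/
theorem QB_span (m : Fin 3) : Submodule.span (KK k) (P.QB m : Set P.M) = ⊤ := by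
  haveI := QBf_frac (k := k) m
  have hint : ∀ (D : FExt k) (v : D.L), ∃ g : SS k m, g ≠ 0 ∧ (g : RatFunc k) • v ∈ BM D m := by
    intro D v
    have hv : IsAlgebraic (RatFunc k) v := Algebra.IsAlgebraic.isAlgebraic v
    have hv' : IsAlgebraic (SS k m) v :=
      (IsFractionRing.isAlgebraic_iff (SS k m) (RatFunc k) D.L).2 hv
    obtain ⟨g, hg0, hg⟩ := hv'.exists_integral_multiple
    exact ⟨g, hg0, hg⟩
  rw [eq_top_iff, ← P.span]
  refine Submodule.span_le.2 ?_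
  rintro _ ⟨a, b, rfl⟩
  obtain ⟨p, hp0, hp⟩ := hint P.D1 a
  obtain ⟨q, hq0, hq⟩ := hint P.D2 b
  have hSS : ∀ (D : FExt k) (g : SS k m), algebraMap (RatFunc k) D.L (g : RatFunc k) ∈ BM D m := by
    intro D g
    exact isIntegral_algebraMap (R := SS k m) (A := D.L) (x := g)
  obtain ⟨x, hx⟩ := QBf_norm P p.2
  obtain ⟨y, hy⟩ := QBf_norm P q.2
  have hz : P.j1 ((p : RatFunc k) • a) * QBf_f2 P (p : RatFunc k) *
      (QBf_f1 P (q : RatFunc k) * P.j2 ((q : RatFunc k) • b)) ∈ P.QB m :=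
    (P.BB m).mul_mem ((P.BB m).mul_mem (QBf_mem_BB1 P hp) (QBf_mem_BB2 P (hSS P.D2 p)))
      ((P.BB m).mul_mem (QBf_mem_BB1 P (hSS P.D1 q)) (QBf_mem_BB2 P hq))
  have hp0' : (p : RatFunc k) ≠ 0 := fun h => hp0 (Subtype.ext h)
  have hq0' : (q : RatFunc k) ≠ 0 := fun h => hq0 (Subtype.ext h)
  have hxy : QBf_F P (x * y) ≠ 0 := by
    rw [map_mul, ← hx, ← hy]
    exact mul_ne_zero (mul_ne_zero ((map_ne_zero _).2 hp0') ((map_ne_zero _).2 hp0'))
      (mul_ne_zero ((map_ne_zero _).2 hq0') ((map_ne_zero _).2 hq0'))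
  have hxy0 : x * y ≠ 0 := fun h => hxy (by rw [h, map_zero])
  have e : P.j1 a * P.j2 b = (x * y)⁻¹ • (P.j1 ((p : RatFunc k) • a) * QBf_f2 P (p : RatFunc k) *
      (QBf_f1 P (q : RatFunc k) * P.j2 ((q : RatFunc k) • b))) := by
    rw [eq_inv_smul_iff₀ hxy0, QBf_F_smul, map_mul, ← hx, ← hy, QBf_j1_smul, QBf_j2_smul]
    ring
  rw [e]
  exact Submodule.smul_mem _ _ (Submodule.subset_span hz)

/-- PROOF. For `x = j1 f * j2 g`, `f ∈ BM D1 m`, `g ∈ BM D2 m`: by `BM_loc`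
`(el m / el m') ^ n f ∈ BM D1 m'`, `(el m / el m') ^ n g ∈ BM D2 m'` for large `n`, and
`u_m / u_m' = j1 (el m / el m') j2 (el m / el m')`. Sums: maximum of the exponents. -/
theorem QB_loc (m m' : Fin 3) (x : P.M) (hx : x ∈ P.QB m) :
    ∃ n : ℕ, (uu k m / uu k m') ^ n • x ∈ P.QB m' := by
  have hmono : ∀ {n n' : ℕ} {x : P.M}, n ≤ n' → (uu k m / uu k m') ^ n • x ∈ P.QB m' →
      (uu k m / uu k m') ^ n' • x ∈ P.QB m' := by
    intro n n' x h hx
    obtain ⟨l, rfl⟩ := Nat.exists_eq_add_of_le h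
    have e : (uu k m / uu k m') ^ (n + l) • x = (⟨(uu k m / uu k m') ^ l,
        Subalgebra.pow_mem _ (QBf_quo m' m) l⟩ : RR k (sg1 k m')) •
          ((uu k m / uu k m') ^ n • x) := by
      rw [Subalgebra.smul_def, smul_smul, ← pow_add, add_comm l n]
    rw [e]
    exact (P.QB m').smul_mem _ hx
  refine QBf_ind P (m := m) (fun x => ∃ n : ℕ, (uu k m / uu k m') ^ n • x ∈ P.QB m') ?_ ?_ hx
  · intro f hf g hg
    have hpow : ∀ {D : FExt k} {n n' : ℕ} {f : D.L}, n ≤ n' →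
        (el D m / el D m') ^ n * f ∈ BM D m' → (el D m / el D m') ^ n' * f ∈ BM D m' := by
      intro D n n' f h hf
      obtain ⟨l, rfl⟩ := Nat.exists_eq_add_of_le h
      rw [add_comm, pow_add, mul_assoc]
      exact (BM D m').mul_mem (Subalgebra.pow_mem _ (el_div_mem D m m') l) hf
    obtain ⟨n1, hn1⟩ := BM_loc hf m'
    obtain ⟨n2, hn2⟩ := BM_loc hg m'
    refine ⟨max n1 n2, ?_⟩
    have h1 := QBf_mem_BB1 P (hpow (le_max_left n1 n2) hn1)
    have h2 := QBf_mem_BB2 P (hpow (le_max_right n1 n2) hn2)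
    have h3 := (P.BB m').mul_mem h1 h2
    have e : (uu k m / uu k m') ^ (max n1 n2) • (P.j1 f * P.j2 g) =
        P.j1 ((el P.D1 m / el P.D1 m') ^ (max n1 n2) * f) *
          P.j2 ((el P.D2 m / el P.D2 m') ^ (max n1 n2) * g) := by
      rw [QBf_F_smul, map_pow, QBf_F_quo, map_mul, map_mul, map_pow, map_pow]
      ring
    rw [e]
    exact h3
  · rintro x y ⟨n, hn⟩ ⟨n', hn'⟩
    refine ⟨max n n', ?_⟩
    rw [smul_add]
    exact (P.QB m').add_mem (hmono (le_max_left _ _) hn) (hmono (le_max_right _ _) hn')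

/-- the gluing datum of the structure sheaf -/
def gd : GD k P.M := ⟨P.QB, P.QB_fg, P.QB_span, P.QB_loc⟩

end PD

end Pool.Agent.MP_6e5bed_ag_PS
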