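import Pool.Agent.Lib.MP_6e5bed_ag_PS.MSp
import Pool.Agent.Lib.MP_6e5bed_ag_PS.QBf

set_option autoImplicit false

/-!
# MP_6e5bed_ag, NC PRODUCT SURFACES: the structure sheaf of the product surface as a lattice in `M`
-/

noncomputable section

namespace Pool.Agent.MP_6e5bed_ag_PS

open Pool.Agent.MP_6e5bed_ag_NC
open Pool.Agent.MP_6e5bed_ag_NS
open scoped TensorProduct

universe u

variable {k : Type u} [Field k] (P : PD k)

private theorem OB_lam_xx (i : Fin 3) : lam k (xx k i).1 = uu k i := by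
  unfold lam xx
  rw [Finset.sum_eq_single i]
  · change (Pi.single i 1 : Fin 3 → k) i • uu k i = uu k i
    rw [Pi.single_eq_same, one_smul]
  · intro j _ hj
    change (Pi.single i 1 : Fin 3 → k) j • uu k j = 0
    rw [Pi.single_eq_of_ne hj, zero_smul]
  · intro h
    exact absurd (Finset.mem_univ i) h

private theorem OB_uu_ne (i : Fin 3) : uu k i ≠ 0 := by
  rw [← OB_lam_xx]
  exact lam_ne_zero _

private theorem OB_quo {c : Ch k} {α : Fin 3} (hα : xx k α ∈ c.1) (j : Fin 3) :
    uu k j / uu k α ∈ RR k c := by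
  have h := lam_mem (xx k j).1 hα
  rwa [OB_lam_xx, OB_lam_xx] at h

namespace PD

/-- `M` as a vector space over itself -/
def self : MSp P where
  E := P.M

private theorem OB_j1 {m : Fin 3} {f : P.D1.L} (hf : f ∈ BM P.D1 m) : P.j1 f ∈ P.BB m := by
  have h1 : f ∈ OA P.D1 {m} 0 := by
    rw [mem_OA_sgl, neg_zero, zpow_zero, one_mul]
    exact hf
  have h2 := P.PP_mul_mem (a := {m}) (b := {m}) h1 (one_mem_OA (D := P.D2) {m})
  rw [map_one, mul_one] at h2
  exact h2

private theorem OB_j2 {m : Fin 3} {f : P.D2.L} (hf : f ∈ BM P.D2 m) : P.j2 f ∈ P.BB m := by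
  have h1 : f ∈ OA P.D2 {m} 0 := by
    rw [mem_OA_sgl, neg_zero, zpow_zero, one_mul]
    exact hf
  have h2 := P.PP_mul_mem (a := {m}) (b := {m}) (one_mem_OA (D := P.D1) {m}) h1
  rw [map_one, one_mul] at h2
  exact h2

private theorem OB_span {c : Ch k} {m : Fin 3} {b x : P.M} (hb : b ∈ P.BB m)
    (hx : x ∈ P.gd.loc1 c m) : b * x ∈ P.gd.loc1 c m := by
  have hx' : x ∈ Submodule.span (RR k c) (P.QB m : Set P.M) := hx
  change b * x ∈ Submodule.span (RR k c) (P.QB m : Set P.M)
  induction hx' using Submodule.span_induction with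
  | mem y hy => exact Submodule.subset_span ((P.BB m).mul_mem hb hy)
  | zero =>
    rw [mul_zero]
    exact Submodule.zero_mem _
  | add y z _ _ hy hz =>
    rw [mul_add]
    exact Submodule.add_mem _ (hy (by assumption)) (hz (by assumption))
  | smul r y _ hy =>
    rw [Subalgebra.smul_def, Algebra.mul_smul_comm, ← Subalgebra.smul_def]
    exact Submodule.smul_mem _ _ (hy (by assumption))

/-- PROOF. Let `xx m ∈ c`. By `GD.mem_iff` `x` is in the `RR k c`-span of `BB m`, and `j1 f ∈ BB m`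
for `f ∈ BM D1 m`; `BB m` is a ring. -/
theorem OB_b1 (c : Ch k) (m : Fin 3) (hm : xx k m ∈ c.1) (f : P.D1.L) (hf : f ∈ BM P.D1 m)
    (x : P.M) (hx : x ∈ P.gd.lat.N c) : P.j1 f • x ∈ P.gd.lat.N c := by
  have h1 := (P.gd.mem_iff hm).1 hx
  exact (P.gd.mem_iff hm).2 (P.OB_span (P.OB_j1 hf) h1)

theorem OB_b2 (c : Ch k) (m : Fin 3) (hm : xx k m ∈ c.1) (f : P.D2.L) (hf : f ∈ BM P.D2 m)
    (x : P.M) (hx : x ∈ P.gd.lat.N c) : P.j2 f • x ∈ P.gd.lat.N c := by
  have h1 := (P.gd.mem_iff hm).1 hx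
  exact (P.gd.mem_iff hm).2 (P.OB_span (P.OB_j2 hf) h1)

/-- The structure sheaf of the product surface. -/
def OB : BLat P.self where
  toLat := P.gd.lat
  b1 := P.OB_b1
  b2 := P.OB_b2

private theorem OB_em_add (m : Fin 3) (i j i' j' : ℤ) :
    P.em m (-(i + i')) (-(j + j')) = P.em m (-i) (-j) * P.em m (-i') (-j') := by
  unfold em
  rw [neg_add, neg_add, zpow_add₀ (P.es_ne m), zpow_add₀ (P.et_ne m)]
  ring

private theorem OB_act {V : MSp P} (N : BLat V) {c : Ch k} {m : Fin 3} (hm : xx k m ∈ c.1)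
    {f : P.M} {x : V.E} (hf : f ∈ P.gd.loc1 c m) (hx : x ∈ N.N c) : f • x ∈ N.N c := by
  have hf' : f ∈ Submodule.span (RR k c) (P.QB m : Set P.M) := hf
  clear hf
  induction hf' using Submodule.span_induction with
  | mem y hy =>
    have hy' : y ∈ (OA P.D1 {m} 0).map P.j1.toLinearMap * (OA P.D2 {m} 0).map P.j2.toLinearMap :=
      hy
    clear hy
    induction hy' using Submodule.mul_induction_on' with
    | mem_mul_mem a ha b hb =>
      obtain ⟨a, ha, rfl⟩ := ha
      obtain ⟨b, hb, rfl⟩ := hb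
      have ha' : a ∈ OA P.D1 {m} 0 := ha
      have hb' : b ∈ OA P.D2 {m} 0 := hb
      rw [mem_OA_sgl, neg_zero, zpow_zero, one_mul] at ha' hb'
      change (P.j1 a * P.j2 b) • x ∈ N.N c
      rw [mul_smul]
      exact N.b1 c m hm a ha' _ (N.b2 c m hm b hb' _ hx)
    | add y z _ _ hy hz =>
      rw [add_smul]
      exact (N.N c).add_mem hy hz
  | zero =>
    rw [zero_smul]
    exact (N.N c).zero_mem
  | add y z _ _ hy hz =>
    rw [add_smul]
    exact (N.N c).add_mem hy hz
  | smul r y _ hy =>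
    rw [Subalgebra.smul_def, smul_assoc, ← Subalgebra.smul_def]
    exact (N.N c).smul_mem r hy

/-- The functions on the product surface act on stable lattices.

PROOF. By `Lat.glue` (for the lattice `N.bt (i + i') (j + j')`) and `mem_btN_iff` it is enough that
`f • x ∈ N.N c` for `f ∈ OB.N c`, `x ∈ N.N c`, `xx m ∈ c` (`em m` is multiplicative in `i, j`). By
`GD.mem_iff` `f` is a combination of elements of `BB m` with coefficients in `RR k c`, and `BB m` is
spanned by the `j1 b * j2 b'`, `b ∈ BM D1 m`, `b' ∈ BM D2 m`: `N.b1`, `N.b2`. -/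
theorem OB_smul {V : MSp P} (N : BLat V) {i j i' j' : ℤ} {c : Ch k} {f : P.M} {x : V.E}
    (hf : f ∈ (P.OB.bt i j).N c) (hx : x ∈ (N.bt i' j').N c) :
    f • x ∈ (N.bt (i + i') (j + j')).N c := by
  refine Lat.glue (N.bt (i + i') (j + j')).toLat c _ fun m => ?_
  have hle : c ≤ c.ins (xx k m) := Set.subset_insert _ _
  have hm : xx k m ∈ (c.ins (xx k m)).1 := Set.mem_insert _ _
  have hf1 : f ∈ P.OB.btN i j (c.ins (xx k m)) := (P.OB.bt i j).mono hle hf
  have hx1 : x ∈ N.btN i' j' (c.ins (xx k m)) := (N.bt i' j').mono hle hx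
  change f • x ∈ N.btN (i + i') (j + j') (c.ins (xx k m))
  refine (BLat.mem_btN_iff _ _ _ hm).2 ?_
  have hf3 := (BLat.mem_btN_iff _ _ _ hm).1 hf1
  have hx3 := (BLat.mem_btN_iff _ _ _ hm).1 hx1
  have hf2 : P.em m (-i) (-j) * f ∈ P.gd.loc1 (c.ins (xx k m)) m := (P.gd.mem_iff hm).1 hf3
  have h3 := P.OB_act N hm hf2 hx3
  have h4 : P.em m (-(i + i')) (-(j + j')) • (f • x) =
      (P.em m (-i) (-j) * f) • (P.em m (-i') (-j') • x) := by
    rw [OB_em_add, smul_smul, smul_smul]
    congr 1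
    ring
  rw [h4]
  exact h3

/-- PROOF. `1 ∈ BB m` for all `m`; `GD.mem_N`, `bt_zero`. -/
theorem one_mem_OB (c : Ch k) : (1 : P.M) ∈ (P.OB.bt 0 0).N c := by
  refine (P.OB.bt_zero c _).2 ?_
  change (1 : P.M) ∈ P.gd.N c
  rw [GD.mem_N]
  intro m
  exact Submodule.subset_span (P.BB m).one_mem

/-- Products of sections on the coordinate charts which contain `c`.

PROOF. Let `x = j1 f * j2 g` with `f ∈ OA D1 a i`, `g ∈ OA D2 a j`, and let `m` be given,
`d = c.ins (xx m)`. Then `rho a m ^ n * (el m ^ (-i) * f) ∈ BM D1 m` for large `n`, and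
same for `g`. So `em m (-i) (-j) • x = j1 (rho a m) ^ (-n) * j2 (rho a m) ^ (-n) * y`, `y ∈ BB m`,
and `j1 (rho a m) * j2 (rho a m) = ∏ j ∈ a, λ_(xx j) / λ_(xx m)` has an inverse in `RR k d` because
`xx j ∈ c` for `j ∈ a`. So `em m (-i) (-j) • x` is in the `RR k d`-span of `BB m`: `GD.mem_iff`. -/
theorem PP_le (a : Finset (Fin 3)) (c : Ch k) (h : ∀ j ∈ a, xx k j ∈ c.1) (i j : ℤ) {x : P.M}
    (hx : x ∈ P.PP a a i j) : x ∈ (P.OB.bt i j).N c := by
  have hx' : x ∈ (OA P.D1 a i).map P.j1.toLinearMap * (OA P.D2 a j).map P.j2.toLinearMap := hx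
  clear hx
  induction hx' using Submodule.mul_induction_on' with
  | mem_mul_mem f hf g hg =>
    obtain ⟨f, hf, rfl⟩ := hf
    obtain ⟨g, hg, rfl⟩ := hg
    have hf' : f ∈ OA P.D1 a i := hf
    have hg' : g ∈ OA P.D2 a j := hg
    change ∀ m, P.em m (-i) (-j) * (P.j1 f * P.j2 g) ∈ P.gd.N (c.ins (xx k m))
    intro m
    have hm : xx k m ∈ (c.ins (xx k m)).1 := Set.mem_insert _ _
    refine (P.gd.mem_iff hm).2 ?_
    obtain ⟨n1, h1⟩ := hf' m
    obtain ⟨n2, h2⟩ := hg' m
    have h1' := rho_pow_mem (le_max_left n1 n2) h1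
    have h2' := rho_pow_mem (le_max_right n1 n2) h2
    set n := max n1 n2 with hn
    have hy := (P.BB m).mul_mem (P.OB_j1 h1') (P.OB_j2 h2')
    -- the product of the `rho`
    have hR : (∏ l ∈ a, (uu k m / uu k l)) ∈ RR k (c.ins (xx k m)) := by
      refine Subalgebra.prod_mem _ fun l hl => OB_quo ?_ m
      exact Set.mem_insert_of_mem _ (h l hl)
    have hRr : algebraMap (KK k) P.M (∏ l ∈ a, (uu k m / uu k l)) *
        (P.j1 (rho P.D1 a m) * P.j2 (rho P.D2 a m)) = 1 := by
      unfold rho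
      rw [map_prod, map_prod, map_prod, ← Finset.prod_mul_distrib, ← Finset.prod_mul_distrib]
      refine Finset.prod_eq_one fun l _ => ?_
      rw [map_div₀, map_div₀, map_div₀, P.lam_eq, P.lam_eq]
      change P.es m * P.et m / (P.es l * P.et l) * (P.es l / P.es m * (P.et l / P.et m)) = 1
      have e1 := P.es_ne m
      have e2 := P.et_ne m
      have e3 := P.es_ne l
      have e4 := P.et_ne l
      field_simp
    have key : P.em m (-i) (-j) * (P.j1 f * P.j2 g) =
        ((⟨_, hR⟩ : RR k (c.ins (xx k m))) ^ n) •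
          (P.j1 (rho P.D1 a m ^ n * (el P.D1 m ^ (-i) * f)) *
            P.j2 (rho P.D2 a m ^ n * (el P.D2 m ^ (-j) * g))) := by
      rw [Subalgebra.smul_def, SubmonoidClass.coe_pow, Algebra.smul_def, map_pow]
      rw [map_mul, map_mul, map_mul, map_mul, map_pow, map_pow, map_zpow₀, map_zpow₀]
      have e5 : ∀ (A R1 R2 X1 X2 F G : P.M), A ^ n * (R1 ^ n * (X1 * F) * (R2 ^ n * (X2 * G))) =
          (A * (R1 * R2)) ^ n * (X1 * X2 * (F * G)) := by
        intro A R1 R2 X1 X2 F G
        rw [mul_pow, mul_pow]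
        ring
      rw [e5, hRr, one_pow, one_mul]
      rfl
    rw [key]
    exact Submodule.smul_mem _ _ (Submodule.subset_span hy)
  | add y z _ _ hy hz => exact Submodule.add_mem _ hy hz

private theorem OB_el_div (D : FExt k) {a : Finset (Fin 3)} {m : Fin 3} (hm : m ∈ a) (l : Fin 3) :
    el D l / el D m ∈ OA D a 0 := by
  have h := OA_mul (el_mem_OA (D := D) a l) (inv_mem_OA (D := D) hm)
  rwa [add_neg_cancel, ← div_eq_mul_inv] at h

/-- The sections of `O(i, j)` on the coordinate charts.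

PROOF. `⊇` is `PP_le`. `⊆`: let `m ∈ a`, so `xx m ∈ c`. By `mem_btN_iff` and `GD.mem_iff`
`em m (-i) (-j) • x = ∑ r y`, `r ∈ RR k c`, `y ∈ BB m ⊆ PP a a 0 0`; the image of `RR k c` is
contained in `PP a a 0 0` (it is generated by the `u_i / u_j`, `j ∈ a`, see `rr_mem`; `c` consists of
the `xx j`, `j ∈ a`), and `em m i j ∈ PP a a i j` (`zpow_mem_OA`); `PP_mul`. -/
theorem mem_co (a : Finset (Fin 3)) (ha : a.Nonempty) (c : Ch k) (h : c.1 = xx k '' (a : Set (Fin 3)))
    (i j : ℤ) (x : P.M) : x ∈ (P.OB.bt i j).N c ↔ x ∈ P.PP a a i j := by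
  constructor
  · intro hx
    obtain ⟨m, hma⟩ := ha
    have hm : xx k m ∈ c.1 := by
      rw [h]
      exact ⟨m, hma, rfl⟩
    have hx1 : x ∈ P.OB.btN i j c := hx
    have hx3 := (BLat.mem_btN_iff _ _ _ hm).1 hx1
    have hx2 : P.em m (-i) (-j) * x ∈ P.gd.loc1 c m := (P.gd.mem_iff hm).1 hx3
    -- the functions
    have hr : ∀ r ∈ RR k c, algebraMap (KK k) P.M r ∈ P.PP a a 0 0 := by
      intro r hr
      have hr' : r ∈ Algebra.adjoin k
        {r | ∃ (ℓ : Fin 3 → k) (g : LF k), g ∈ c.1 ∧ r = lam k ℓ / lam k g.1} := hr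
      clear hr
      induction hr' using Algebra.adjoin_induction with
      | mem r hr =>
        obtain ⟨ℓ, g, hg, rfl⟩ := hr
        rw [h] at hg
        obtain ⟨l, hl, rfl⟩ := hg
        rw [OB_lam_xx]
        unfold lam
        rw [Finset.sum_div, map_sum]
        refine Submodule.sum_mem _ fun q _ => ?_
        rw [Algebra.smul_def, mul_div_assoc, ← Algebra.smul_def]
        have e1 : algebraMap (KK k) P.M (ℓ q • (uu k q / uu k l)) =
            ℓ q • (P.j1 (el P.D1 q / el P.D1 l) * P.j2 (el P.D2 q / el P.D2 l)) := by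
          rw [Algebra.algebraMap_eq_smul_one, smul_assoc, ← Algebra.algebraMap_eq_smul_one,
            map_div₀, P.lam_eq, P.lam_eq, map_div₀, map_div₀]
          congr 1
          change P.es q * P.et q / (P.es l * P.et l) = P.es q / P.es l * (P.et q / P.et l)
          rw [div_mul_div_comm]
        rw [e1]
        exact Submodule.smul_mem _ _
          (P.PP_mul_mem (OB_el_div P.D1 hl q) (OB_el_div P.D2 hl q))
      | algebraMap t =>
        rw [← IsScalarTower.algebraMap_apply k (KK k) P.M, Algebra.algebraMap_eq_smul_one]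
        exact Submodule.smul_mem _ _ (P.one_mem_PP a a)
      | add r s _ _ h1 h2 =>
        rw [map_add]
        exact Submodule.add_mem _ h1 h2
      | mul r s _ _ h1 h2 =>
        rw [map_mul]
        have h3 := P.PP_mul h1 h2
        rwa [add_zero] at h3
    have hspan : ∀ y ∈ P.gd.loc1 c m, y ∈ P.PP a a 0 0 := by
      intro y hy
      have hy' : y ∈ Submodule.span (RR k c) (P.QB m : Set P.M) := hy
      clear hy
      induction hy' using Submodule.span_induction with
      | mem y hy =>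
        have hsub : ({m} : Finset (Fin 3)) ⊆ a := Finset.singleton_subset_iff.2 hma
        exact P.PP_mono hsub hsub 0 0 hy
      | zero => exact Submodule.zero_mem _
      | add y z _ _ hy hz => exact Submodule.add_mem _ hy hz
      | smul r y _ hy =>
        rw [Subalgebra.smul_def, Algebra.smul_def]
        have h3 := P.PP_mul (hr _ r.2) hy
        rwa [add_zero] at h3
    have h4 := hspan _ hx2
    have h5 : P.em m i j ∈ P.PP a a i j := by
      have h6 := P.PP_mul_mem (zpow_mem_OA (D := P.D1) hma i) (zpow_mem_OA (D := P.D2) hma j)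
      rw [map_zpow₀, map_zpow₀] at h6
      exact h6
    have h7 := P.PP_mul h5 h4
    rw [add_zero, add_zero] at h7
    have h8 : P.em m i j * (P.em m (-i) (-j) * x) = x := by
      unfold em
      rw [zpow_neg, zpow_neg]
      have e1 := zpow_ne_zero i (P.es_ne m)
      have e2 := zpow_ne_zero j (P.et_ne m)
      field_simp
    rwa [h8] at h7
  · intro hx
    refine P.PP_le a c ?_ i j hx
    intro l hl
    rw [h]
    exact ⟨l, hl, rfl⟩

end PD

end Pool.Agent.MP_6e5bed_ag_PS
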