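import Pool.Agent.Lib.MP_6e5bed_ag_PS.Xzq
import Pool.Agent.Lib.MP_6e5bed_ag_NS.OO
import Pool.Agent.Lib.MP_6e5bed_ag_NS.LatH

set_option autoImplicit false
set_option linter.unusedVariables false

/-!
# MP_6e5bed_ag, NC PRODUCT SURFACES: lattices without actions, maps of lattices
-/

noncomputable section

namespace Pool.Agent.MP_6e5bed_ag_PS

open Pool.Agent.MP_6e5bed_ag_NC
open Pool.Agent.MP_6e5bed_ag_NS
open scoped TensorProduct

universe u

variable {k : Type u} [Field k] {P : PD k} {A B B' C : ASh k}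

/-- the functions, as `M`-linear maps -/
def MSp.sc (V : MSp P) (c : Ch k) : RR k c →ₗ[k] V.E →ₗ[P.M] V.E where
  toFun := fun s => algebraMap (KK k) P.M (s : KK k) • LinearMap.id
  map_add' := fun s t => by
    rw [← add_smul, ← map_add]
    rfl
  map_smul' := fun a s => by
    refine LinearMap.ext fun x => ?_
    change algebraMap (KK k) P.M ((a • s : RR k c) : KK k) • x =
      a • (algebraMap (KK k) P.M (s : KK k) • x)
    rw [IsScalarTower.algebraMap_smul, IsScalarTower.algebraMap_smul, Subalgebra.coe_smul,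
      smul_assoc]

theorem MSp.sc_apply (V : MSp P) (c : Ch k) (s : RR k c) (x : V.E) :
    V.sc c s x = (s : KK k) • x := by
  change algebraMap (KK k) P.M (s : KK k) • x = (s : KK k) • x
  rw [IsScalarTower.algebraMap_smul]

/-- A vector space over `M` as a bimodule over the structure sheaf. -/
def MSp.o (V : MSp P) : MG P (OSh k) (OSh k) where
  toMSp := V
  l := V.sc
  r := V.sc
  l_one := fun c x => by
    refine (V.sc_apply c _ x).trans ?_
    exact one_smul _ x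
  r_one := fun c x => by
    refine (V.sc_apply c _ x).trans ?_
    exact one_smul _ x
  l_mul := fun c (a : RR k c) (a' : RR k c) x => by
    change V.sc c (a * a') x = V.sc c a (V.sc c a' x)
    rw [V.sc_apply, V.sc_apply, V.sc_apply, smul_smul]
    rfl
  r_mul := fun c (a : RR k c) (a' : RR k c) x => by
    change V.sc c (a * a') x = V.sc c a' (V.sc c a x)
    rw [V.sc_apply, V.sc_apply, V.sc_apply, smul_smul, mul_comm]
    rfl
  l_r := fun c (a : RR k c) (a' : RR k c) x => by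
    change V.sc c a (V.sc c a' x) = V.sc c a' (V.sc c a x)
    rw [V.sc_apply, V.sc_apply, V.sc_apply, V.sc_apply, smul_comm]
  smul_l := fun c s (a : RR k c) x => by
    change V.sc c (s * a) x = (s : KK k) • V.sc c a x
    rw [V.sc_apply, V.sc_apply, smul_smul]
    rfl
  smul_r := fun c s (a : RR k c) x => by
    change V.sc c (s * a) x = (s : KK k) • V.sc c a x
    rw [V.sc_apply, V.sc_apply, smul_smul]
    rfl
  res_l := fun {c d} h (a : RR k c) x => by
    change V.sc d (rinc h a) x = V.sc c a x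
    rw [V.sc_apply, V.sc_apply, rinc_coe]
  res_r := fun {c d} h (a : RR k c) x => by
    change V.sc d (rinc h a) x = V.sc c a x
    rw [V.sc_apply, V.sc_apply, rinc_coe]

theorem o_stL {V : MSp P} (N : BLat V) : StL V.o (N : BLat V.o.toMSp) :=
  fun c (a : RR k c) x hx => by
    change V.sc c a x ∈ N.N c
    rw [V.sc_apply]
    exact (N.N c).smul_mem a hx

/-- The sheaf `⊕ N(-q)` as a sheaf of right `W`-modules. -/
def Xo {V : MSp P} (N : BLat V) : BSh (OSh k) (W0sh P) := Xs (G := V.o) (N := N) (o_stL N)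

/-- The sheaf `N ⊗ N'` as a sheaf of right modules. -/
def Qo {V : MSp P} {G' : MG P B' C} (N : BLat V) {N' : BLat G'.toMSp} (h' : StR G' N') :
    BSh (OSh k) C := Qs (G := V.o) (N := N) (o_stL N) h'

/-- The pairing. -/
def xzo {V : MSp P} {G' : MG P B' C} (N : BLat V) {N' : BLat G'.toMSp} (h' : StR G' N') :
    ShPr (Xo N) (Zs h') (Qo N h') := xzq (G := V.o) (N := N) (o_stL N) h'

variable {V1 V2 V3 : MSp P} {N1 : BLat V1} {N2 : BLat V2} {N3 : BLat V3}

/-- maps of lattices -/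
def MapL (N1 : BLat V1) (N2 : BLat V2) (f : V1.E →ₗ[P.M] V2.E) : Prop :=
  ∀ c, ∀ x ∈ N1.N c, f x ∈ N2.N c

theorem MapL.bt {f : V1.E →ₗ[P.M] V2.E} (h : MapL N1 N2 f) (i j : ℤ) :
    MapL (N1.bt i j) (N2.bt i j) f := by
  intro c x hx m
  rw [← map_smul]
  exact h _ _ (hx m)

/-- the map on `⊕ E` -/
def piE (f : V1.E →ₗ[P.M] V2.E) : (II → V1.E) →ₗ[KK k] (II → V2.E) where
  toFun := fun x q => f (x q)
  map_add' := fun x y => by
    funext q
    exact map_add f (x q) (y q)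
  map_smul' := fun s x => by
    funext q
    exact LinearMap.map_smul_of_tower f s (x q)

theorem piE_apply (f : V1.E →ₗ[P.M] V2.E) (x : II → V1.E) (q : II) : piE f x q = f (x q) := rfl

theorem piE_mem {f : V1.E →ₗ[P.M] V2.E} (h : MapL N1 N2 f) :
    ∀ c, ∀ x ∈ (XL N1).N c, piE f x ∈ (XL N2).N c := fun c x hx q => h.bt _ _ c _ (hx q)

/-- The map `⊕ N1(-q) → ⊕ N2(-q)`. -/
def Xf {f : V1.E →ₗ[P.M] V2.E} (h : MapL N1 N2 f) : BSH (Xo N1) (Xo N2) :=
  genH (gx_st (o_stL N1)) (gx_st (o_stL N2)) (piE f) (piE_mem h)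
    (fun c (a : RR k c) x => by
      funext q
      change f (V1.sc c a (x q)) = V2.sc c a (f (x q))
      rw [V1.sc_apply, V2.sc_apply]
      exact LinearMap.map_smul_of_tower f (a : KK k) (x q))
    (fun c m x => by
      funext q
      change f (∑ p, m.1 p q • x p) = ∑ p, m.1 p q • f (x p)
      rw [map_sum]
      exact Finset.sum_congr rfl fun p _ => map_smul _ _ _)

/-- the map on the tensor products -/
def tenE (f : V1.E →ₗ[P.M] V2.E) (V' : MSp P) : (V1.ten V').E →ₗ[P.M] (V2.ten V').E :=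
  f.rTensor V'.E

theorem tenE_tmul (f : V1.E →ₗ[P.M] V2.E) (V' : MSp P) (x : V1.E) (y : V'.E) :
    tenE f V' (x ⊗ₜ[P.M] y : V1.E ⊗[P.M] V'.E) = (f x ⊗ₜ[P.M] y : V2.E ⊗[P.M] V'.E) :=
  LinearMap.rTensor_tmul _ _ _ _

/-- as a `K`-linear map -/
def resK {V W : MSp P} (g : V.E →ₗ[P.M] W.E) : V.E →ₗ[KK k] W.E where
  toFun := g
  map_add' := map_add g
  map_smul' := LinearMap.map_smul_of_tower g

/-- as a `k`-linear map -/
def resk {V W : MSp P} (g : V.E →ₗ[P.M] W.E) : V.E →ₗ[k] W.E where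
  toFun := g
  map_add' := map_add g
  map_smul' := LinearMap.map_smul_of_tower g

theorem qf_mem {V' : MSp P} {f : V1.E →ₗ[P.M] V2.E} (h : MapL N1 N2 f) (N' : BLat V') :
    MapL (QL N1 N') (QL N2 N') (tenE f V') := by
  intro c z hz
  have h1 : Submodule.span k {z : (V1.ten V').E | ∃ x ∈ N1.N c, ∃ y ∈ N'.N c,
        z = (x ⊗ₜ[P.M] y : V1.E ⊗[P.M] V'.E)} ≤
      (Submodule.span k {z : (V2.ten V').E | ∃ x ∈ N2.N c, ∃ y ∈ N'.N c,
        z = (x ⊗ₜ[P.M] y : V2.E ⊗[P.M] V'.E)}).comap (resk (tenE f V')) := by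
    refine Submodule.span_le.2 ?_
    rintro _ ⟨x, hx, y, hy, rfl⟩
    exact Submodule.subset_span ⟨f x, h c x hx, y, hy, tenE_tmul f V' x y⟩
  exact mem_qlat.2 (h1 (mem_qlat.1 hz))

theorem tenE_l {G' : MG P B' C} (f : V1.E →ₗ[P.M] V2.E) (c : Ch k) (a : RR k c)
    (x : V1.E ⊗[P.M] G'.E) : f.rTensor G'.E ((V1.sc c a).rTensor G'.E x) =
      (V2.sc c a).rTensor G'.E (f.rTensor G'.E x) := by
  rw [← LinearMap.comp_apply, ← LinearMap.comp_apply, ← LinearMap.rTensor_comp,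
    ← LinearMap.rTensor_comp]
  congr 2
  refine LinearMap.ext fun y => ?_
  rw [LinearMap.comp_apply, LinearMap.comp_apply, V1.sc_apply, V2.sc_apply]
  exact LinearMap.map_smul_of_tower f (a : KK k) y

theorem tenE_r {G' : MG P B' C} (f : V1.E →ₗ[P.M] V2.E) (c : Ch k) (b : C.M c)
    (x : V1.E ⊗[P.M] G'.E) : f.rTensor G'.E ((G'.r c b).lTensor V1.E x) =
      (G'.r c b).lTensor V2.E (f.rTensor G'.E x) := by
  rw [← LinearMap.comp_apply, ← LinearMap.comp_apply, LinearMap.rTensor_comp_lTensor,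
    LinearMap.lTensor_comp_rTensor]

/-- The map `N1 ⊗ N' → N2 ⊗ N'`. -/
def Qf {G' : MG P B' C} {N' : BLat G'.toMSp} (h' : StR G' N') {f : V1.E →ₗ[P.M] V2.E}
    (h : MapL N1 N2 f) : BSH (Qo N1 h') (Qo N2 h') :=
  genH (gen_st (QL_stL (o_stL N1)) (QL_stR h')) (gen_st (QL_stL (o_stL N2)) (QL_stR h'))
    (resK (tenE f G'.toMSp)) (qf_mem h N') (fun c a x => tenE_l f c a x)
    (fun c b x => tenE_r f c b x)

/-- compatibility of the pairings -/
theorem xf_qf {G' : MG P B' C} {N' : BLat G'.toMSp} (h' : StR G' N') {f : V1.E →ₗ[P.M] V2.E}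
    (h : MapL N1 N2 f) (c : Ch k) (x : (Xo N1).M c) (y : (Zs h').M c) :
    (Qf h' h).f c ((xzo N1 h').m c x y) = (xzo N2 h').m c ((Xf h).f c x) y := by
  refine Subtype.ext ?_
  change f.rTensor G'.E (∑ p, (x.1 p ⊗ₜ[P.M] y.1 p : V1.E ⊗[P.M] G'.E)) =
    ∑ p, (f (x.1 p) ⊗ₜ[P.M] y.1 p : V2.E ⊗[P.M] G'.E)
  rw [map_sum]
  exact Finset.sum_congr rfl fun p _ => LinearMap.rTensor_tmul _ _ _ _

end Pool.Agent.MP_6e5bed_ag_PS
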