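import Pool.Agent.Lib.MP_6e5bed_ag_PS.CurA
import Pool.Agent.Lib.MP_6e5bed_ag_NS.LatB

set_option autoImplicit false

/-!
# MP_6e5bed_ag, NC PRODUCT SURFACES: product data

A product datum are two curves (function fields `L₁ ⊇ k(s)`, `L₂ ⊇ k(t)`) and a finite extension `M`
of `K = k(u, v)` which is the function field of the product of the curves, with `u = s t`,
`v = (s - 1)(t - 1)`.
-/

noncomputable section

namespace Pool.Agent.MP_6e5bed_ag_PS

open Pool.Agent.MP_6e5bed_ag_NC
open Pool.Agent.MP_6e5bed_ag_NS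
open scoped TensorProduct

universe u

/-- Two curves and the function field of their product. -/
structure PD (k : Type u) [Field k] where
  D1 : FExt k
  D2 : FExt k
  M : Type u
  [fld : Field M]
  [algk : Algebra k M]
  [algK : Algebra (KK k) M]
  [tow : IsScalarTower k (KK k) M]
  [fin : FiniteDimensional (KK k) M]
  j1 : D1.L →ₐ[k] M
  j2 : D2.L →ₐ[k] M
  /-- the two fields are linearly disjoint over `k` -/
  inj : Function.Injective (Algebra.TensorProduct.lift j1 j2 (fun _ _ => Commute.all _ _))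
  /-- they generate `M` -/
  span : Submodule.span (KK k) {z : M | ∃ a b, z = j1 a * j2 b} = ⊤
  /-- `x_m / x_0 = (ell m)(s) (ell m)(t)` -/
  hlam : ∀ m : Fin 3, algebraMap (KK k) M (uu k m) = j1 (el D1 m) * j2 (el D2 m)

attribute [instance] PD.fld PD.algk PD.algK PD.tow PD.fin

variable {k : Type u} [Field k] (P : PD k)

namespace PD

/-- the inclusion of `L₁ ⊗ L₂` -/
def jj : P.D1.L ⊗[k] P.D2.L →ₐ[k] P.M :=
  Algebra.TensorProduct.lift P.j1 P.j2 (fun _ _ => Commute.all _ _)

theorem jj_tmul (a : P.D1.L) (b : P.D2.L) : P.jj (a ⊗ₜ[k] b) = P.j1 a * P.j2 b :=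
  Algebra.TensorProduct.lift_tmul _ _ _ _ _

theorem jj_inj : Function.Injective P.jj := P.inj

/-- `ell m (s)` -/
def es (m : Fin 3) : P.M := P.j1 (el P.D1 m)

/-- `ell m (t)` -/
def et (m : Fin 3) : P.M := P.j2 (el P.D2 m)

theorem es_ne (m : Fin 3) : P.es m ≠ 0 := fun h =>
  el_ne P.D1 m (P.j1.toRingHom.injective (h.trans (map_zero P.j1.toRingHom).symm))

theorem et_ne (m : Fin 3) : P.et m ≠ 0 := fun h =>
  el_ne P.D2 m (P.j2.toRingHom.injective (h.trans (map_zero P.j2.toRingHom).symm))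

theorem lam_eq (m : Fin 3) : algebraMap (KK k) P.M (uu k m) = P.es m * P.et m := P.hlam m

/-- the products of the sections of `O(i)` on the chart `a` of the first curve and of the sections
of `O(j)` on the chart `b` of the second curve -/
def PP (a b : Finset (Fin 3)) (i j : ℤ) : Submodule k P.M :=
  (OA P.D1 a i).map P.j1.toLinearMap * (OA P.D2 b j).map P.j2.toLinearMap

theorem PP_mul_mem {a b : Finset (Fin 3)} {i j : ℤ} {f : P.D1.L} {g : P.D2.L}
    (hf : f ∈ OA P.D1 a i) (hg : g ∈ OA P.D2 b j) : P.j1 f * P.j2 g ∈ P.PP a b i j :=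
  Submodule.mul_mem_mul ⟨f, hf, rfl⟩ ⟨g, hg, rfl⟩

theorem PP_mono {a b a' b' : Finset (Fin 3)} (h : a ⊆ a') (h' : b ⊆ b') (i j : ℤ) :
    P.PP a b i j ≤ P.PP a' b' i j :=
  mul_le_mul' (Submodule.map_mono (OA_mono h i)) (Submodule.map_mono (OA_mono h' j))

/-- PROOF. `Submodule.mul_induction_on` twice, `OA_mul`. -/
theorem PP_mul {a b : Finset (Fin 3)} {i j i' j' : ℤ} {x y : P.M} (hx : x ∈ P.PP a b i j)
    (hy : y ∈ P.PP a b i' j') : x * y ∈ P.PP a b (i + i') (j + j') := by
  unfold PP at hx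
  refine Submodule.mul_induction_on hx ?_ ?_
  · rintro _ ⟨f, hf, rfl⟩ _ ⟨g, hg, rfl⟩
    unfold PP at hy
    refine Submodule.mul_induction_on hy ?_ ?_
    · rintro _ ⟨f', hf', rfl⟩ _ ⟨g', hg', rfl⟩
      have h := P.PP_mul_mem (OA_mul hf hf') (OA_mul hg hg')
      rw [map_mul, map_mul] at h
      have e : P.j1.toLinearMap f * P.j2.toLinearMap g *
          (P.j1.toLinearMap f' * P.j2.toLinearMap g') =
          P.j1 f * P.j1 f' * (P.j2 g * P.j2 g') := mul_mul_mul_comm _ _ _ _
      rw [e]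
      exact h
    · intro u v hu hv
      rw [mul_add]
      exact Submodule.add_mem _ hu hv
  · intro u v hu hv
    rw [add_mul]
    exact Submodule.add_mem _ hu hv

theorem one_mem_PP (a b : Finset (Fin 3)) : (1 : P.M) ∈ P.PP a b 0 0 := by
  have h := P.PP_mul_mem (a := a) (b := b) (one_mem_OA (D := P.D1) a) (one_mem_OA (D := P.D2) b)
  rwa [map_one, map_one, mul_one] at h

/-- the ring of functions on the product of the charts `m` -/
def BB (m : Fin 3) : Subalgebra k P.M where
  carrier := {x | x ∈ P.PP {m} {m} 0 0}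
  mul_mem' := fun {x y} hx hy => by
    have h := P.PP_mul hx hy
    rwa [add_zero] at h
  add_mem' := (P.PP {m} {m} 0 0).add_mem
  algebraMap_mem' := fun c => by
    rw [Algebra.algebraMap_eq_smul_one]
    exact (P.PP {m} {m} 0 0).smul_mem c (P.one_mem_PP _ _)

theorem mem_BB {m : Fin 3} {x : P.M} : x ∈ P.BB m ↔ x ∈ P.PP {m} {m} 0 0 := Iff.rfl

end PD

end Pool.Agent.MP_6e5bed_ag_PS
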