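import Pool.Agent.Lib.MP_6e5bed_ag_NS.BaseC
import Pool.Agent.Lib.MP_6e5bed_ag_NS.Sh
import Pool.Agent.Lib.MP_6e5bed_ag_NS.QiB
import Pool.Agent.Lib.MP_6e5bed_ag_NS.FinL

set_option autoImplicit false
set_option linter.unusedVariables false

/-!
# MP_6e5bed_ag, NC PRODUCT SURFACES: morphisms of presheaves of dg algebras, constant augmentations
-/

noncomputable section

namespace Pool.Agent.MP_6e5bed_ag_PS

open Pool.Agent.MP_6e5bed_ag_NC
open Pool.Agent.MP_6e5bed_ag_NS

universe u

variable {k : Type u} [Field k]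

/-- Morphisms of presheaves of dg algebras. -/
structure PAH (A B : PA k) where
  f : ∀ c, DHom (A.A c) (B.A c)
  nat : ∀ {c d : Ch k} (h : c ≤ d) x, (B.r h).f ((f c).f x) = (f d).f ((A.r h).f x)

/-- the morphism of presheaves of complexes -/
def PAH.pch {A B : PA k} (f : PAH A B) : PCH A.pc B.pc where
  f := fun c => ⟨(f.f c).f, (f.f c).deg, (f.f c).d⟩
  nat := f.nat

theorem PAH.cU {A B : PA k} (f : PAH A B) : ∀ (L : List (LF k)) (c : FS k),
    ((cH f.pch L).g c).f (cU A L c) = MP_6e5bed_ag_NS.cU B L c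
  | [], c => rfl
  | l :: L, c => by
    refine Prod.ext (Prod.ext (PAH.cU f L c) (f.f _).one) ?_
    exact map_zero ((cH f.pch L).g (c.ins l).fs).f

/-- the morphism of Čech dg algebras -/
def PAH.map {A B : PA k} (f : PAH A B) (L : List (LF k)) (c : FS k) :
    DHom (cA A L c) (cA B L c) where
  f := ((cH f.pch L).g c).f
  deg := ((cH f.pch L).g c).deg
  d := ((cH f.pch L).g c).d
  one := f.cU L c
  mul := fun x y => cH_mul (p := A.pp) (q := B.pp) f.pch f.pch f.pch
    (fun c x y => (f.f c).mul x y) L c x y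

/-- PROOF. As `cH_qi` (`Lib/MP_6e5bed_ag_NS/QiB.lean`), with the additional hypothesis that all
charts which occur are contained in `S` (as in `cH_bij` in `AcA.lean`). -/
theorem cH_qiS {V V' : PC k} (f : PCH V V') (S : Set (LF k))
    (h : ∀ c : Ch k, c.1 ⊆ S → (f.f c).QI) (L : List (LF k))
    (hL : ∀ l ∈ L, l ∈ S) (c : FS k) (hc : c.1 ⊆ S) : ((cH f L).g c).QI := by
  induction L generalizing c with
  | nil => exact ⟨fun x _ _ => ⟨0, rfl⟩, fun y _ => ⟨0, rfl, 0, rfl⟩⟩
  | cons l L ih =>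
    have hc' : (c.ins l).1 ⊆ S := Set.insert_subset (hL l List.mem_cons_self) hc
    have hL' : ∀ l ∈ L, l ∈ S := fun l' hl' => hL l' (List.mem_cons_of_mem l hl')
    exact co_map_qi (fun x => (cH f L).nat _ x) (fun x => ((cH f L).a _ x).symm)
      (ih hL' c hc) (h (c.ins l) hc') (ih hL' (c.ins l).fs hc')

/-- a morphism of dg algebras as a morphism of complexes -/
def dch {A B : DGA k} (f : DHom A B) : CHom (acx A) (acx B) := ⟨f.f, f.deg, f.d⟩

theorem dqi_iff {A B : DGA k} (f : DHom A B) : DQI f ↔ (dch f).QI := Iff.rfl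

/-- Morphisms of presheaves which are quasi-isomorphisms on the coordinate charts. -/
theorem PAH.dqi {A B : PA k} (f : PAH A B)
    (h : ∀ c : Ch k, c.1 ⊆ Set.range (xx k) → DQI (f.f c)) : DQI (f.map (FF k) (FS.e k)) :=
  cH_qiS f.pch (Set.range (xx k)) (fun c hc => h c hc) (FF k) (fun l hl => by
    simp only [FF, List.mem_cons, List.not_mem_nil, or_false] at hl
    rcases hl with rfl | rfl | rfl
    · exact ⟨2, rfl⟩
    · exact ⟨1, rfl⟩
    · exact ⟨0, rfl⟩) (FS.e k) (Set.empty_subset _)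

/-! ### Constant augmentations -/

/-- compatible morphisms from a complex -/
structure PCC (X : Cx k) (V : PC k) where
  f : ∀ c, CHom X (V.X c)
  nat : ∀ {c d : Ch k} (h : c ≤ d) x, (V.ρ h).f ((f c).f x) = (f d).f x

/-- morphisms to the Čech complexes, together with their compatibility -/
structure PCCW {X : Cx k} {V : PC k} (f : PCC X V) (W : WC V) where
  g : ∀ c, CHom X (W.X c)
  nat : ∀ {c d : FS k} (h : c ≤ d) x, (W.ρ h).f ((g c).f x) = (g d).f x
  a : ∀ (c : Ch k) x, (W.a c).f ((f.f c).f x) = (g c.fs).f x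

/-- the step of the recursion -/
def PCCW.cons {X : Cx k} {V : PC k} {f : PCC X V} {W : WC V} (g : PCCW f W) (l : LF k) :
    PCCW f (W.cons l) where
  g := fun c => co.aug _ _ (g.g c) (f.f (c.ins l)) (fun x => by
    rw [g.nat]
    exact (g.a _ x).symm)
  nat := fun {c d} h x => by
    refine Prod.ext (Prod.ext (g.nat h x) (f.nat _ x)) ?_
    exact map_zero (W.ρ (fs_mono (ins_mono h l))).f
  a := fun c x => by
    refine Prod.ext (Prod.ext (g.a c x) (f.nat _ x)) rfl

/-- the constant augmentation -/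
def PCC.aug {X : Cx k} {V : PC k} (f : PCC X V) : ∀ L : List (LF k), PCCW f (cC V L)
  | [] => { g := fun c => toZero X, nat := fun _ _ => rfl, a := fun _ _ => rfl }
  | l :: L => (f.aug L).cons l

/-- The constant augmentation of the Čech complex of the coordinates is a quasi-isomorphism. -/
def PCC.QIe {X : Cx k} {V : PC k} (f : PCC X V) : Prop := ((f.aug (FF k)).g (FS.e k)).QI

/-- compatible morphisms from a dg algebra -/
structure PAC (B : DGA k) (A : PA k) where
  f : ∀ c, DHom B (A.A c)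
  nat : ∀ {c d : Ch k} (h : c ≤ d) x, (A.r h).f ((f c).f x) = (f d).f x

/-- the morphisms of complexes -/
def PAC.pcc {B : DGA k} {A : PA k} (f : PAC B A) : PCC (acx B) A.pc where
  f := fun c => dch (f.f c)
  nat := f.nat

theorem PAC.one {B : DGA k} {A : PA k} (f : PAC B A) : ∀ (L : List (LF k)) (c : FS k),
    ((f.pcc.aug L).g c).f B.one = cU A L c
  | [], c => rfl
  | l :: L, c => Prod.ext (Prod.ext (PAC.one f L c) (f.f _).one) rfl

theorem PAC.mul {B : DGA k} {A : PA k} (f : PAC B A) : ∀ (L : List (LF k)) (c : FS k) (x y : B.A),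
    ((f.pcc.aug L).g c).f (B.mul x y) =
      ((cP A.pp L).q c).m (((f.pcc.aug L).g c).f x) (((f.pcc.aug L).g c).f y)
  | [], c, x, y => rfl
  | l :: L, c, x, y => by
    refine Prod.ext (Prod.ext (PAC.mul f L c x y) ((f.f _).mul x y)) ?_
    change (0 : ((cC A.pc L).X _).V) = ((cP A.pp L).q _).m _ 0 + ((cP A.pp L).q _).m 0 _
    rw [map_zero, map_zero, LinearMap.zero_apply, add_zero]

/-- The constant augmentation, as a morphism of dg algebras. -/
def PAC.dh {B : DGA k} {A : PA k} (f : PAC B A) (L : List (LF k)) (c : FS k) :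
    DHom B (cA A L c) where
  f := ((f.pcc.aug L).g c).f
  deg := ((f.pcc.aug L).g c).deg
  d := ((f.pcc.aug L).g c).d
  one := f.one L c
  mul := f.mul L c

theorem PAC.dqi {B : DGA k} {A : PA k} (f : PAC B A) (h : f.pcc.QIe) :
    DQI (f.dh (FF k) (FS.e k)) := h

end Pool.Agent.MP_6e5bed_ag_PS
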