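import Pool.Agent.Lib.MP_6e5bed_ag_PS.BFl
import Pool.Agent.Lib.MP_6e5bed_ag_PS.DistTb

set_option autoImplicit false
set_option linter.unusedVariables false

/-!
# MP_6e5bed_ag, NC PRODUCT SURFACES: the comparison map `X(N) ⊗_W Z(N') → Q(N, N')`
-/

noncomputable section

namespace Pool.Agent.MP_6e5bed_ag_PS

open Pool.Agent.MP_6e5bed_ag_NC
open Pool.Agent.MP_6e5bed_ag_NS
open scoped TensorProduct

universe u

variable {k : Type u} [Field k] {P : PD k} {B' C : ASh k}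

private theorem Phi_sum3 {J : Type} [Fintype J] {X Y Z : Type u} [AddCommGroup X]
    [AddCommGroup Y] [AddCommGroup Z] (f : J → X) (g : J → Y) (h : J → Z) :
    ∑ j, (((f j, g j), h j) : (X × Y) × Z) = ((∑ j, f j, ∑ j, g j), ∑ j, h j) := by
  refine Prod.ext (Prod.ext ?_ ?_) ?_
  · rw [Prod.fst_sum, Prod.fst_sum]
  · rw [Prod.fst_sum, Prod.snd_sum]
  · rw [Prod.snd_sum]

/-- PROOF. Induction on `L` (as `cH_comp`, `Lib/MP_6e5bed_ag_NS/WA.lean`); the components of an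
element of the complex `co` are `((x0, x1), ξ)`; `Prod.fst_sum`, `Prod.snd_sum`. -/
theorem cH_sum {J : Type} [Fintype J] {V : PC k} {Vj : J → PC k} (i : ∀ j, PCH (Vj j) V)
    (p : ∀ j, PCH V (Vj j)) (h : ∀ c x, ∑ j, ((i j).f c).f (((p j).f c).f x) = x) :
    ∀ (L : List (LF k)) (c : FS k) x,
      ∑ j, ((cH (i j) L).g c).f (((cH (p j) L).g c).f x) = x
  | [], c, x => rfl
  | l :: L, c, x => by
    obtain ⟨⟨x0, x1⟩, ξ⟩ := x
    have ih := cH_sum i p h L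
    refine (Phi_sum3 (fun j => ((cH (i j) L).g c).f (((cH (p j) L).g c).f x0))
      (fun j => ((i j).f (c.ins l)).f (((p j).f (c.ins l)).f x1))
      (fun j => ((cH (i j) L).g (c.ins l).fs).f (((cH (p j) L).g (c.ins l).fs).f ξ))).trans ?_
    exact Prod.ext (Prod.ext (ih c x0) (h _ x1)) (ih _ ξ)

variable {V V1 V2 V3 : MSp P} {N : BLat V} {N1 : BLat V1} {N2 : BLat V2} {N3 : BLat V3}
variable {G' : MG P B' C} {N' : BLat G'.toMSp}

/-- `X(N1) → X(N2)` -/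
def mX {f : V1.E →ₗ[P.M] V2.E} (h : MapL N1 N2 f) : GMap 0 (BB (Xo N1)) (BB (Xo N2)) :=
  (Xf h).pbh.gmap (FF k) (FS.e k)

theorem mX_dd {f : V1.E →ₗ[P.M] V2.E} (h : MapL N1 N2 f) : (mX h).dd = 0 :=
  (Xf h).pbh.gmap_dd (FF k) (FS.e k)

/-- `Q(N1, N') → Q(N2, N')` -/
def mQ (h' : StR G' N') {f : V1.E →ₗ[P.M] V2.E} (h : MapL N1 N2 f) :
    GMap 0 (BB (Qo N1 h')) (BB (Qo N2 h')) := (Qf h' h).pbh.gmap (FF k) (FS.e k)

theorem mQ_dd (h' : StR G' N') {f : V1.E →ₗ[P.M] V2.E} (h : MapL N1 N2 f) : (mQ h' h).dd = 0 :=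
  (Qf h' h).pbh.gmap_dd (FF k) (FS.e k)

private theorem Phi_ten0 {R : Type u} [CommRing R] {J : Type} [Fintype J] {E : Type u}
    [AddCommGroup E] [Module R E] {Ej : J → Type u} [∀ j, AddCommGroup (Ej j)]
    [∀ j, Module R (Ej j)] (i : ∀ j, Ej j →ₗ[R] E) (p : ∀ j, E →ₗ[R] Ej j)
    (h : ∀ x, ∑ j, i j (p j x) = x) (F : Type u) [AddCommGroup F] [Module R F]
    (z : E ⊗[R] F) : ∑ j, (i j).rTensor F ((p j).rTensor F z) = z := by
  have h1 : ∑ j, (i j).rTensor F ∘ₗ (p j).rTensor F = LinearMap.id := by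
    refine TensorProduct.ext' fun x y => ?_
    rw [LinearMap.sum_apply]
    have h2 : ∀ j, ((i j).rTensor F ∘ₗ (p j).rTensor F) (x ⊗ₜ[R] y) =
        i j (p j x) ⊗ₜ[R] y := fun j => by
      rw [LinearMap.comp_apply, LinearMap.rTensor_tmul, LinearMap.rTensor_tmul]
    rw [Finset.sum_congr rfl fun j _ => h2 j, ← TensorProduct.sum_tmul, h, LinearMap.id_apply]
  have h3 := LinearMap.congr_fun h1 z
  rw [LinearMap.sum_apply] at h3
  exact h3

private theorem Phi_sub {J : Type} [Fintype J] {c : Ch k} {E : Type u} [AddCommGroup E]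
    [Module (RR k c) E] (S : Submodule (RR k c) E) (f : J → S) (y : S)
    (h : ∑ j, (f j).1 = y.1) : ∑ j, f j = y :=
  Subtype.ext ((map_sum S.subtype f Finset.univ).trans h)

section sum

variable {J : Type} [Fintype J] {Vj : J → MSp P} {Nj : ∀ j, BLat (Vj j)}
  {i : ∀ j, (Vj j).E →ₗ[P.M] V.E} {p : ∀ j, V.E →ₗ[P.M] (Vj j).E}

/-- PROOF. `cH_sum` for `(Xf (hi j)).pbh.pch`, `(Xf (hp j)).pbh.pch`; on a chart it is the
hypothesis in every component (`Subtype.ext`, `funext`). -/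
theorem mX_sum (hi : ∀ j, MapL (Nj j) N (i j)) (hp : ∀ j, MapL N (Nj j) (p j))
    (h : ∀ x, ∑ j, i j (p j x) = x) (x : (BB (Xo N)).M) :
    ∑ j, (mX (hi j)).f ((mX (hp j)).f x) = x := by
  refine cH_sum (fun j => (Xf (hi j)).pbh.pch) (fun j => (Xf (hp j)).pbh.pch) (fun c y => ?_)
    (FF k) (FS.e k) x
  refine Phi_sub ((XL N).N c) (fun j => (Xf (hi j)).f c ((Xf (hp j)).f c y)) y ?_
  refine funext fun q => ?_
  rw [Finset.sum_apply]
  exact h (y.1 q)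

private theorem Phi_ten (h : ∀ x, ∑ j, i j (p j x) = x) (V' : MSp P) (z : (V.ten V').E) :
    ∑ j, tenE (i j) V' (tenE (p j) V' z) = z :=
  Phi_ten0 i p h V'.E z

/-- PROOF. `cH_sum`; on a chart: `tenE (i j) _ (tenE (p j) _ z)` is additive in `z` and for
`z = x ⊗ y` it is `i j (p j x) ⊗ y` (`tenE_tmul`; `TensorProduct.induction_on`). -/
theorem mQ_sum (h' : StR G' N') (hi : ∀ j, MapL (Nj j) N (i j)) (hp : ∀ j, MapL N (Nj j) (p j))
    (h : ∀ x, ∑ j, i j (p j x) = x) (x : (BB (Qo N h')).M) :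
    ∑ j, (mQ h' (hi j)).f ((mQ h' (hp j)).f x) = x := by
  refine cH_sum (fun j => (Qf h' (hi j)).pbh.pch) (fun j => (Qf h' (hp j)).pbh.pch)
    (fun c y => ?_) (FF k) (FS.e k) x
  refine Phi_sub ((QL N N').N c) (fun j => (Qf h' (hi j)).f c ((Qf h' (hp j)).f c y)) y ?_
  exact Phi_ten h G'.toMSp y.1

end sum

variable (h' : StR G' N') {Zt : Bim (TT (W0sh P)) (TT C)} {ζ : GMap 0 Zt (BB (Zs h'))}

/-- The comparison map, `Zt → Z(N')` a resolution. -/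
def phi (ζ : GMap 0 Zt (BB (Zs h'))) (N : BLat V) :
    GMap 0 (tb (BB (Xo N)) Zt) (BB (Qo N h')) :=
  (ζ.tbL (BB (Xo N))).comp (xzo N h').cup (add_zero 0)

/-- PROOF. `GMap.tbL_tm`, `Dg.sp_zero`. -/
theorem phi_tm (ζ : GMap 0 Zt (BB (Zs h'))) (N : BLat V) (x : (BB (Xo N)).M) (z : Zt.M) :
    (phi h' ζ N).f (tm x z) = (xzo N h').cup.f (tm x (ζ.f z)) := by
  change (xzo N h').cup.f ((ζ.tbL (BB (Xo N))).f (tm x z)) = _
  rw [GMap.tbL_tm, Dg.sp_zero]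

/-- PROOF. `tbL` is a dg functor (`DGFun.closed`), `ShPr.cup_dd`, `GMap.comp_dd` or
`GMap.d_f_zero`. -/
theorem phi_dd (hζ : ζ.dd = 0) (N : BLat V) : (phi h' ζ N).dd = 0 := by
  refine LinearMap.ext fun x => ?_
  have h1 : (ζ.tbL (BB (Xo N))).dd = 0 :=
    (MP_6e5bed_ag_NC.tbL (BB (Xo N)) (TT C)).closed hζ
  refine (GMap.dd_comp (ζ.tbL (BB (Xo N))) (xzo N h').cup (add_zero 0) x).trans ?_
  rw [h1, (xzo N h').cup_dd]
  simp only [LinearMap.zero_apply, map_zero, smul_zero, add_zero]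

private theorem Phi_comm {A W C : DGA k} {X X' : Bim A W} {Y Y' : Bim W C} (φ : GMap 0 X X')
    (ζ : GMap 0 Y Y') (w : (tb X Y).M) :
    (φ.tbR Y').f ((ζ.tbL X).f w) = (ζ.tbL X').f ((φ.tbR Y).f w) := by
  refine tb_ind (P := fun w => (φ.tbR Y').f ((ζ.tbL X).f w) =
    (ζ.tbL X').f ((φ.tbR Y).f w)) ?_ ?_ ?_ w
  · simp only [map_zero]
  · intro x y hx hy
    rw [map_add, map_add, map_add, map_add, hx, hy]
  · intro x y
    rw [GMap.tbR_tm, GMap.tbL_tm, GMap.tbL_tm, GMap.tbR_tm, Dg.sp_zero, Dg.sp_zero]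

/-- PROOF. `ShPr.cup_nat` (with `xf_qf`) for `z = (ζ.tbL _).f w`, and
`((mX h).tbR _).f ((ζ.tbL _).f w) = (ζ.tbL _).f (((mX h).tbR Zt).f w)` by `tb_ind` (`GMap.tbL_tm`,
`GMap.tbR_tm`, `Dg.sp_zero`). -/
theorem phi_nat (ζ : GMap 0 Zt (BB (Zs h'))) {f : V1.E →ₗ[P.M] V2.E} (h : MapL N1 N2 f)
    (w : (tb (BB (Xo N1)) Zt).M) :
    (mQ h' h).f ((phi h' ζ N1).f w) = (phi h' ζ N2).f (((mX h).tbR Zt).f w) := by
  refine ((xzo N1 h').cup_nat (xzo N2 h') (Xf h) (Qf h' h) (xf_qf h' h)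
    ((ζ.tbL (BB (Xo N1))).f w)).trans ?_
  exact congrArg (xzo N2 h').cup.f (Phi_comm (mX h) ζ w)

/-- the comparison map as a map of complexes -/
def phiC (hζ : ζ.dd = 0) (N : BLat V) : CHom (bcx (tb (BB (Xo N)) Zt)) (bcx (BB (Qo N h'))) :=
  gc (phi h' ζ N) (phi_dd h' hζ N)

end Pool.Agent.MP_6e5bed_ag_PS
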