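import Pool.Agent.Lib.MP_6e5bed_ag_PS.Phi

set_option autoImplicit false
set_option linter.unusedVariables false

/-!
# MP_6e5bed_ag, NC PRODUCT SURFACES: formal properties of the comparison map
-/

noncomputable section

namespace Pool.Agent.MP_6e5bed_ag_PS

open Pool.Agent.MP_6e5bed_ag_NC
open Pool.Agent.MP_6e5bed_ag_NS
open scoped TensorProduct

universe u

variable {k : Type u} [Field k] {P : PD k} {B' C : ASh k}
variable {V V1 V2 V3 : MSp P} {N : BLat V} {N1 : BLat V1} {N2 : BLat V2} {N3 : BLat V3}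
variable {G' : MG P B' C} {N' : BLat G'.toMSp}
variable (h' : StR G' N') {Zt : Bim (TT (W0sh P)) (TT C)} {ζ : GMap 0 Zt (BB (Zs h'))}
variable (hζ : ζ.dd = 0)

private theorem PhiB_tbR {J : Type} [Fintype J] {Vj : J → MSp P} {Nj : ∀ j, BLat (Vj j)}
    {i : ∀ j, (Vj j).E →ₗ[P.M] V.E} {p : ∀ j, V.E →ₗ[P.M] (Vj j).E}
    (hi : ∀ j, MapL (Nj j) N (i j)) (hp : ∀ j, MapL N (Nj j) (p j))
    (h : ∀ x, ∑ j, i j (p j x) = x) (w : (tb (BB (Xo N)) Zt).M) :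
    ∑ j, ((mX (hi j)).tbR Zt).f (((mX (hp j)).tbR Zt).f w) = w := by
  refine tb_ind (P := fun w => ∑ j, ((mX (hi j)).tbR Zt).f (((mX (hp j)).tbR Zt).f w) = w)
    ?_ ?_ ?_ w
  · refine Finset.sum_eq_zero fun j _ => ?_
    rw [map_zero, map_zero]
  · intro a b ha hb
    conv_rhs => rw [← ha, ← hb]
    rw [← Finset.sum_add_distrib]
    refine Finset.sum_congr rfl fun j _ => ?_
    rw [map_add, map_add]
  · intro m z
    have h1 := mX_sum hi hp h m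
    change _ = tm m z
    conv_rhs => rw [← h1]
    rw [← tmB_apply (∑ j, _) z, map_sum, LinearMap.sum_apply]
    refine Finset.sum_congr rfl fun j _ => ?_
    rw [GMap.tbR_tm, GMap.tbR_tm, tmB_apply]

/-- PROOF. `qi_of_sum` for `gc`; `mX_sum` (for `tbR`: `tb_ind`, `GMap.tbR_tm`, additivity of `tm` in
the first variable), `mQ_sum`, `phi_nat`. -/
theorem phi_sum {J : Type} [Fintype J] {Vj : J → MSp P} {Nj : ∀ j, BLat (Vj j)}
    {i : ∀ j, (Vj j).E →ₗ[P.M] V.E} {p : ∀ j, V.E →ₗ[P.M] (Vj j).E}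
    (hi : ∀ j, MapL (Nj j) N (i j)) (hp : ∀ j, MapL N (Nj j) (p j))
    (h : ∀ x, ∑ j, i j (p j x) = x) (hq : ∀ j, (phiC h' hζ (Nj j)).QI) : (phiC h' hζ N).QI := by
  refine qi_of_sum (phiC h' hζ N) (fun j => phiC h' hζ (Nj j))
    (fun j => gc ((mX (hi j)).tbR Zt) (tbR_dd _ (mX_dd (hi j)) Zt))
    (fun j => gc ((mX (hp j)).tbR Zt) (tbR_dd _ (mX_dd (hp j)) Zt))
    (fun j => gc (mQ h' (hi j)) (mQ_dd h' (hi j))) (fun j => gc (mQ h' (hp j)) (mQ_dd h' (hp j)))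
    (PhiB_tbR hi hp h) (mQ_sum h' hi hp h) (fun j x => ?_) (fun j x => ?_) hq
  · exact (phi_nat h' ζ (hi j) x).symm
  · exact (phi_nat h' ζ (hp j) x).symm

/-- PROOF. `qi_retract`; `mX_sum`, `mQ_sum` with one summand (`J = Unit`), as in `phi_sum`. -/
theorem phi_retract {f : V1.E →ₗ[P.M] V2.E} {g : V2.E →ₗ[P.M] V1.E} (hf : MapL N1 N2 f)
    (hg : MapL N2 N1 g) (h : ∀ x, g (f x) = x) (hq : (phiC h' hζ N2).QI) :
    (phiC h' hζ N1).QI := by
  have h1 : ∀ x, ∑ _j : Unit, g (f x) = x := fun x => by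
    rw [Finset.univ_unique, Finset.sum_singleton, h]
  refine qi_retract (phiC h' hζ N2) (phiC h' hζ N1)
    (gc ((mX hf).tbR Zt) (tbR_dd _ (mX_dd hf) Zt))
    (gc ((mX hg).tbR Zt) (tbR_dd _ (mX_dd hg) Zt))
    (gc (mQ h' hf) (mQ_dd h' hf)) (gc (mQ h' hg) (mQ_dd h' hg))
    (fun x => ?_) (fun x => ?_) (fun x => ?_) (fun x => ?_) hq
  · have h2 := PhiB_tbR (Zt := Zt) (J := Unit) (N := N1) (Nj := fun _ => N2) (i := fun _ => g)
      (p := fun _ => f) (fun _ => hg) (fun _ => hf) h1 x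
    rw [Finset.univ_unique, Finset.sum_singleton] at h2
    exact h2
  · have h2 := mQ_sum h' (J := Unit) (N := N1) (Nj := fun _ => N2) (i := fun _ => g)
      (p := fun _ => f) (fun _ => hg) (fun _ => hf) h1 x
    rw [Finset.univ_unique, Finset.sum_singleton] at h2
    exact h2
  · exact (phi_nat h' ζ hf x).symm
  · exact (phi_nat h' ζ hg x).symm

variable (S : BSes N1 N2 N3) (hF : FlatB N') (hZ : Perf Zt)
include S hF hZ

/-- PROOF. `dist_tb` for `mX S.mapI`, `mX S.mapP`: these are injective, surjective and exact by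
`ShEx.cex` (`Lib/MP_6e5bed_ag_NS/FinL.lean`) and `S.x_ex`; and `(ShEx.cex (S.q_ex h' hF)).dist`.
`(mX h).f` is the map `(Xf h).toShH.cc` by `rfl`. -/
theorem phi_dist :
    Dist (gc ((mX S.mapI).tbR Zt) (tbR_dd _ (mX_dd S.mapI) Zt))
      (gc ((mX S.mapP).tbR Zt) (tbR_dd _ (mX_dd S.mapP) Zt)) ∧
    Dist (gc (mQ h' S.mapI) (mQ_dd h' S.mapI)) (gc (mQ h' S.mapP) (mQ_dd h' S.mapP)) := by
  refine ⟨?_, ?_⟩
  · have h1 : CEx (Xf S.mapI).toShH.cc (Xf S.mapP).toShH.cc := ShEx.cex S.x_ex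
    exact dist_tb (mX S.mapI) (mX S.mapP) (mX_dd S.mapI) (mX_dd S.mapP) h1.1 h1.2.1 h1.2.2 hZ
  · have h1 : CEx (Qf h' S.mapI).toShH.cc (Qf h' S.mapP).toShH.cc := ShEx.cex (S.q_ex h' hF)
    exact CEx.dist h1

/-- PROOF. `four`, `phi_dist`, `phi_nat`. -/
theorem phi_four (q2 : (phiC h' hζ N2).QI) {i : ℤ} (hs : SJ (phiC h' hζ N1) (i + 1))
    (hi : IJ (phiC h' hζ N1) (i + 2)) :
    SJ (phiC h' hζ N3) i ∧ IJ (phiC h' hζ N3) (i + 1) := by
  have hd := phi_dist h' S hF hZ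
  exact four hd.1 hd.2 (phiC h' hζ N1) (phiC h' hζ N2) (phiC h' hζ N3)
    (fun x => (phi_nat h' ζ S.mapI x).symm) (fun x => (phi_nat h' ζ S.mapP x).symm) q2 hs hi

/-- PROOF. `dist_right`, `phi_dist`, `phi_nat`. -/
theorem phi_right (q1 : (phiC h' hζ N1).QI) (q2 : (phiC h' hζ N2).QI) :
    (phiC h' hζ N3).QI := by
  have hd := phi_dist h' S hF hZ
  exact dist_right hd.1 hd.2 (phiC h' hζ N1) (phiC h' hζ N2) (phiC h' hζ N3)
    (fun x => (phi_nat h' ζ S.mapI x).symm) (fun x => (phi_nat h' ζ S.mapP x).symm) q1 q2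

/-- PROOF. `dist_left`, `phi_dist`, `phi_nat`. -/
theorem phi_left (q2 : (phiC h' hζ N2).QI) (q3 : (phiC h' hζ N3).QI) :
    (phiC h' hζ N1).QI := by
  have hd := phi_dist h' S hF hZ
  exact dist_left hd.1 hd.2 (phiC h' hζ N1) (phiC h' hζ N2) (phiC h' hζ N3)
    (fun x => (phi_nat h' ζ S.mapI x).symm) (fun x => (phi_nat h' ζ S.mapP x).symm) q2 q3

end Pool.Agent.MP_6e5bed_ag_PS
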