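import Pool.Agent.Lib.MP_6e5bed_ag_NS.BaseC
import Pool.Agent.Lib.MP_6e5bed_ag_CV.ResRight

set_option autoImplicit false
set_option linter.unusedVariables false

/-!
# MP_6e5bed_ag, NC PRODUCT SURFACES: quasi-isomorphisms preserve smoothness
-/

noncomputable section

namespace Pool.Agent.MP_6e5bed_ag_PS

open Pool.Agent.MP_6e5bed_ag_NC
open Pool.Agent.MP_6e5bed_ag_NS
open scoped TensorProduct

universe u

variable {k : Type u} [Field k]

/-- tensor products over `k` with an acyclic complex are acyclic -/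
private theorem SmUp_acyc {A D : DGA k} {X : Bim A (base k)} (hX : Acyc X)
    (Z : Bim (base k) D) : Acyc (tb X Z) := by
  have hX' : Acyc (res (DHom.unit A) (DHom.id (base k)) X) := hX
  have h1 : Contr (res (DHom.unit A) (DHom.id (base k)) X) := contr_of_acyc hX'
  have h2 : Contr (tb (res (DHom.unit A) (DHom.id (base k)) X)
      (res (DHom.id (base k)) (DHom.unit D) Z)) :=
    (tbR (base k) (res (DHom.id (base k)) (DHom.unit D) Z)).contr h1
  have h3 : Contr (res (DHom.unit A) (DHom.unit D) (tb X Z)) :=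
    Contr.iso (res_tb (DHom.unit A) (DHom.unit D) X Z).symm h2
  exact h3.acyc

/-- PROOF. Induction on `Perf P`. For `free B B`: `tb (free B B) Y` is `tb (free B (base k)) (fgL Y)`
(`tb_free_left`), `tb C (free B (base k))` is `fgR C`-like (`tb_free_right`, `tb_free_free`; the
tensor product over `k` with `C`), and tensor products over `k` with an acyclic complex are acyclic
(`clos_freeR`, `clos_acycR`, `tbAssoc`): `tb C (tb (free B B) Y)` is isomorphic to
`tb (fgR C) (fgL Y)`, and `fgR C : Bim A (base k)` is acyclic as a complex, hence contractible as a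
complex of `k`-vector spaces. Contractible, extensions, summands: the functor
`(tbR B Y).comp (tbL C D)` is a dg functor (`DGFun.contr`, `DGFun.isExt`, `DGFun.isSummand`,
`RAc.mid`, `RAc.left`, `RAc.right`, `RAc.summand`; compare `clos_acycL` in
`Lib/MP_6e5bed_ag_NC/Clos.lean`). -/
theorem acyc_tb3 {A B D : DGA k} {C : Bim A B} (hC : Acyc C) {P : Bim B B} (hP : Perf P)
    (Y : Bim B D) : Acyc (tb C (tb P Y)) := by
  have hbase : Acyc (tb C (tb (free B B) Y)) := by
    have h1 : BIso (tb C (tb (free B B) Y)) (tb C (tb (free B (base k)) (fgL Y))) :=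
      (tbL C D).biso (tb_free_left B Y)
    have h2 : BIso (tb (tb C (free B (base k))) (fgL Y))
        (tb C (tb (free B (base k)) (fgL Y))) := tb_assoc C (free B (base k)) (fgL Y)
    have h3 : Acyc (tb C (free B (base k))) :=
      rac_iff.1 (clos_freeR (rac_iff.2 hC) (base k))
    exact Acyc.iso h1.symm (Acyc.iso h2 (SmUp_acyc h3 (fgL Y)))
  obtain ⟨F, hF⟩ : ∃ F : DGFun B B A D, F = (tbR B Y).comp (tbL C D) := ⟨_, rfl⟩
  have key : Acyc (F.obj P) := by
    induction hP with
    | free =>
      rw [hF]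
      exact hbase
    | contr h => exact (F.contr h).acyc
    | mid h _ _ h1 h2 => exact Acyc.mid (F.isExt h) h1 h2
    | left h _ _ h1 h2 => exact Acyc.left (F.isExt h) h1 h2
    | right h _ _ h1 h2 => exact Acyc.right (F.isExt h) h1 h2
    | summand h _ h1 => exact Acyc.summand (F.isSummand h) h1
  rw [hF] at key
  exact key

/-! ### Auxiliary maps (copied from `Lib/MP_6e5bed_ag_NS/BaseC.lean`) -/

section aux

variable {T T' : DGA k}

/-- The morphism `r`, as a map of bimodules. -/
private def SmUp_map {A B : DGA k} (r : DHom T' T) (φ : DHom A T') (ψ : DHom B T')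
    (φ' : DHom A T) (ψ' : DHom B T) (h1 : ∀ a, r.f (φ.f a) = φ'.f a)
    (h2 : ∀ b, r.f (ψ.f b) = ψ'.f b) :
    GMap 0 (res φ ψ (diag T')) (res φ' ψ' (diag T)) where
  f := r.f
  deg := fun {i m} hm => by
    rw [add_zero]
    exact r.deg hm
  map_l := fun a m => by
    rw [Dg.sp_zero]
    refine (r.mul (φ.f a) m).trans ?_
    rw [h1]
    rfl
  map_r := fun b m => by
    refine (r.mul m (ψ.f b)).trans ?_
    rw [h2]
    rfl

private theorem SmUp_map_qiso {A B : DGA k} (r : DHom T' T) (hr : DQI r) (φ : DHom A T')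
    (ψ : DHom B T') (φ' : DHom A T) (ψ' : DHom B T) (h1 : ∀ a, r.f (φ.f a) = φ'.f a)
    (h2 : ∀ b, r.f (ψ.f b) = ψ'.f b) : QIso (SmUp_map r φ ψ φ' ψ' h1 h2) := by
  refine ⟨LinearMap.ext fun x => ?_, hr.1, hr.2⟩
  rw [GMap.dd_apply, sg_zero, one_smul, LinearMap.zero_apply, sub_eq_zero]
  exact r.d x

private theorem SmUp_unit (r : DHom T' T) (c : (base k).A) :
    r.f ((DHom.unit T').f c) = (DHom.unit T).f c := by
  change r.f ((show k from c) • T'.one) = (show k from c) • T.one
  rw [map_smul, r.one]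

private def SmUp_ALf {A B : DGA k} (r : DHom T' T) (φ : DHom A T) (N : Bim T B) :
    (tb (res φ r (diag T)) (res r (DHom.id B) N)).M →ₗ[k] N.M :=
  tlift (M := res φ r (diag T)) (N := res r (DHom.id B) N) (U := N.M) N.l
    (fun m b n => N.l_mul m (r.f b) n)

private theorem SmUp_ALf_tm {A B : DGA k} (r : DHom T' T) (φ : DHom A T) (N : Bim T B)
    (x : T.A) (n : N.M) :
    SmUp_ALf r φ N (tm (M := res φ r (diag T)) (N := res r (DHom.id B) N) x n) = N.l x n :=
  tlift_tm (M := res φ r (diag T)) (N := res r (DHom.id B) N) (U := N.M) N.l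
    (fun m b n => N.l_mul m (r.f b) n) x n

private theorem SmUp_ALf_l {A B : DGA k} (r : DHom T' T) (φ : DHom A T) (N : Bim T B) (a : A.A)
    (x : (tb (res φ r (diag T)) (res r (DHom.id B) N)).M) :
    SmUp_ALf r φ N ((tb (res φ r (diag T)) (res r (DHom.id B) N)).l a x) =
      N.l (φ.f a) (SmUp_ALf r φ N x) := by
  have h : (SmUp_ALf r φ N).comp ((tb (res φ r (diag T)) (res r (DHom.id B) N)).l a) =
      (N.l (φ.f a)).comp (SmUp_ALf r φ N) := by
    refine tb_hom_ext (M := res φ r (diag T)) (N := res r (DHom.id B) N) (fun m n => ?_)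
    rw [LinearMap.comp_apply, LinearMap.comp_apply, tb_l]
    refine (SmUp_ALf_tm r φ N _ n).trans ?_
    refine Eq.trans ?_ (congrArg (N.l (φ.f a)) (SmUp_ALf_tm r φ N m n).symm)
    exact N.l_mul (φ.f a) m n
  exact LinearMap.congr_fun h x

private theorem SmUp_ALf_r {A B : DGA k} (r : DHom T' T) (φ : DHom A T) (N : Bim T B) (c : B.A)
    (x : (tb (res φ r (diag T)) (res r (DHom.id B) N)).M) :
    SmUp_ALf r φ N ((tb (res φ r (diag T)) (res r (DHom.id B) N)).r c x) =
      N.r c (SmUp_ALf r φ N x) := by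
  have h : (SmUp_ALf r φ N).comp ((tb (res φ r (diag T)) (res r (DHom.id B) N)).r c) =
      (N.r c).comp (SmUp_ALf r φ N) := by
    refine tb_hom_ext (M := res φ r (diag T)) (N := res r (DHom.id B) N) (fun m n => ?_)
    rw [LinearMap.comp_apply, LinearMap.comp_apply, tb_r]
    refine (SmUp_ALf_tm r φ N m _).trans ?_
    refine Eq.trans ?_ (congrArg (N.r c) (SmUp_ALf_tm r φ N m n).symm)
    exact N.l_r m c n
  exact LinearMap.congr_fun h x

private theorem SmUp_ALf_d {A B : DGA k} (r : DHom T' T) (φ : DHom A T) (N : Bim T B)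
    (x : (tb (res φ r (diag T)) (res r (DHom.id B) N)).M) :
    N.dg.d (SmUp_ALf r φ N x) =
      SmUp_ALf r φ N ((tb (res φ r (diag T)) (res r (DHom.id B) N)).dg.d x) := by
  have h : (N.dg.d).comp (SmUp_ALf r φ N) =
      (SmUp_ALf r φ N).comp ((tb (res φ r (diag T)) (res r (DHom.id B) N)).dg.d) := by
    refine tb_hom_ext (M := res φ r (diag T)) (N := res r (DHom.id B) N) (fun m n => ?_)
    rw [LinearMap.comp_apply, LinearMap.comp_apply, tb_d, map_add]
    refine (congrArg N.dg.d (SmUp_ALf_tm r φ N m n)).trans ?_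
    refine (N.d_l m n).trans ?_
    exact congrArg₂ (· + ·) (SmUp_ALf_tm r φ N _ _).symm (SmUp_ALf_tm r φ N _ _).symm
  exact LinearMap.congr_fun h x

/-- `x ⊗ n ↦ x n` -/
private def SmUp_AL {A B : DGA k} (r : DHom T' T) (φ : DHom A T) (N : Bim T B) :
    GMap 0 (tb (res φ r (diag T)) (res r (DHom.id B) N)) (res φ (DHom.id B) N) where
  f := SmUp_ALf r φ N
  deg := fun {i x} hx => by
    refine tb_degMap (M := res φ r (diag T)) (N := res r (DHom.id B) N)
      (Z := (res φ (DHom.id B) N).dg) (n := 0) (SmUp_ALf r φ N)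
      (fun {p q a m} ha hm => ?_) hx
    have h1 : N.dg.IsDeg (p + q) (N.l a m) := N.l_deg ha hm
    have h2 := SmUp_ALf_tm r φ N a m
    rw [add_zero]
    rw [← h2] at h1
    exact h1
  map_l := fun a x => by
    rw [Dg.sp_zero]
    exact SmUp_ALf_l r φ N a x
  map_r := fun c x => SmUp_ALf_r r φ N c x

private theorem SmUp_AL_tm {A B : DGA k} (r : DHom T' T) (φ : DHom A T) (N : Bim T B)
    (x : T.A) (n : N.M) :
    (SmUp_AL r φ N).f (tm (M := res φ r (diag T)) (N := res r (DHom.id B) N) x n) = N.l x n :=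
  SmUp_ALf_tm r φ N x n

private theorem SmUp_AL_dd {A B : DGA k} (r : DHom T' T) (φ : DHom A T) (N : Bim T B) :
    (SmUp_AL r φ N).dd = 0 := by
  refine LinearMap.ext fun x => ?_
  rw [GMap.dd_apply, sg_zero, one_smul, LinearMap.zero_apply, sub_eq_zero]
  exact SmUp_ALf_d r φ N x


private theorem SmUp_fgR_free (r : DHom T' T) :
    BIso (fgR (res (DHom.id T) r (diag T))) (free T (base k)) := by
  refine BIso.of_bij (M := fgR (res (DHom.id T) r (diag T))) (N := free T (base k))
    { f := TbUnitA.ι T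
      deg := fun {i m} hm => by
        rw [add_zero]
        exact TbUnitA.ι_deg T hm
      map_l := fun a m => by
        rw [Dg.sp_even Even.zero]
        rfl
      map_r := fun (c : k) m => by
        rw [base_r (fgR (res (DHom.id T) r (diag T))) c m, base_r (free T (base k)) c]
        exact map_smul (TbUnitA.ι T) c m } ?_ ?_
  · refine LinearMap.ext (fun z => ?_)
    rw [GMap.dd_apply, sg_zero, one_smul, LinearMap.zero_apply, sub_eq_zero]
    exact TbUnitA.ι_d T z
  · have h2 := (TensorProduct.rid k T.A).symm.bijective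
    exact h2

private theorem SmUp_fgL_free (r : DHom T' T) :
    BIso (fgL (res r (DHom.id T) (diag T))) (free (base k) T) := by
  have hd : ∀ z : T.A, (free (base k) T).dg.d ((base k).one ⊗ₜ[k] z) =
      (base k).one ⊗ₜ[k] T.dg.d z := by
    intro z
    refine (Dg.tensor_d (X := (base k).dg) (Y := T.dg) (base k).one z).trans ?_
    rw [(base k).d_one, (base k).s_one, TensorProduct.zero_tmul, zero_add]
  refine BIso.of_bij (M := fgL (res r (DHom.id T) (diag T))) (N := free (base k) T)
    { f := TensorProduct.mk k k T.A (1 : k)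
      deg := fun {i m} hm => by
        have h1 : ((base k).dg.tensor T.dg).IsDeg (0 + i) ((base k).one ⊗ₜ[k] m) :=
          Dg.tensor_deg (base k).one_deg hm
        rw [zero_add] at h1
        rw [add_zero]
        exact h1
      map_l := fun (c : k) m => by
        have h1 : (base k).dg.sp 0 c = c := Dg.sp_even Even.zero c
        rw [h1, base_l (fgL (res r (DHom.id T) (diag T))) c m, base_l (free (base k) T) c]
        exact map_smul (TensorProduct.mk k k T.A (1 : k)) c m
      map_r := fun b m => rfl } ?_ ?_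
  · refine LinearMap.ext (fun z => ?_)
    rw [GMap.dd_apply, sg_zero, one_smul, LinearMap.zero_apply, sub_eq_zero]
    exact hd z
  · have h2 := (TensorProduct.lid k T.A).symm.bijective
    exact h2

/-- step (1): the bimodule `X ⊗ P ⊗ Y` is perfect -/
private theorem SmUp_perf (r : DHom T' T) {P : Bim T' T'} (hP : Perf P) :
    Perf (tb (res (DHom.id T) r (diag T)) (tb P (res r (DHom.id T) (diag T)))) := by
  have h1 : BIso (tb (free T' T') (res r (DHom.id T) (diag T)))
      (tb (free T' (base k)) (fgL (res r (DHom.id T) (diag T)))) :=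
    tb_free_left T' (res r (DHom.id T) (diag T))
  have h2 : BIso (tb (free T' (base k)) (fgL (res r (DHom.id T) (diag T))))
      (tb (free T' (base k)) (free (base k) T)) :=
    (tbL (free T' (base k)) T).biso (SmUp_fgL_free r)
  have h3 : BIso (tb (free T' T') (res r (DHom.id T) (diag T))) (free T' T) :=
    (h1.trans h2).trans (tb_free_free T' T)
  have h4 : BIso (tb (res (DHom.id T) r (diag T))
      (tb (free T' T') (res r (DHom.id T) (diag T))))
      (tb (res (DHom.id T) r (diag T)) (free T' T)) :=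
    (tbL (res (DHom.id T) r (diag T)) T).biso h3
  have h5 : BIso (tb (res (DHom.id T) r (diag T)) (free T' T))
      (tb (fgR (res (DHom.id T) r (diag T))) (free (base k) T)) :=
    tb_free_right (res (DHom.id T) r (diag T)) T
  have h6 : BIso (tb (fgR (res (DHom.id T) r (diag T))) (free (base k) T))
      (tb (free T (base k)) (free (base k) T)) :=
    (tbR T (free (base k) T)).biso (SmUp_fgR_free r)
  have h7 := ((h4.trans h5).trans h6).trans (tb_free_free T T)
  have h8 : Perf (tb (res (DHom.id T) r (diag T))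
      (tb (free T' T') (res r (DHom.id T) (diag T)))) := h7.symm.perf Perf.free
  exact ((tbR T' (res r (DHom.id T) (diag T))).comp
    (tbL (res (DHom.id T) r (diag T)) T)).perf h8 hP

/-- `T' ⊗ Z → Z → Y` is a quasi-isomorphism -/
private theorem SmUp_unit_qiso {Z Y : Bim T' T} {π : GMap 0 Z Y} (hπ : QIso π)
    {W : Bim (base k) T} (H : GMap 0 (tb (fgL (diag T')) Z) W) (hH : H.dd = 0)
    (e : Y.M →ₗ[k] W.M) (hed : ∀ y, W.dg.d (e y) = e (Y.dg.d y)) (heb : Function.Bijective e)
    (hval : ∀ (t : T'.A) (z : Z.M),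
      H.f (tm (M := fgL (diag T')) (N := Z) t z) = e (π.f (Z.l t z))) :
    QIso H := by
  obtain ⟨F, hF⟩ : ∃ F : (tb (fgL (diag T')) Z).M →ₗ[k] Z.M, ∀ (t : T'.A) (z : Z.M),
      F (tm (M := fgL (diag T')) (N := Z) t z) = Z.l t z :=
    ⟨tlift (M := fgL (diag T')) (N := Z) (U := Z.M) Z.l (fun m b n => Z.l_mul m b n),
      fun t z => tlift_tm (M := fgL (diag T')) (N := Z) (U := Z.M) Z.l
        (fun m b n => Z.l_mul m b n) t z⟩
  have hHF : ∀ x, H.f x = e (π.f (F x)) := by
    refine tb_ind ?_ ?_ ?_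
    · rw [map_zero, map_zero, map_zero, map_zero]
    · intro x y hx hy
      rw [map_add, map_add, map_add, map_add, hx, hy]
    · intro t z
      rw [hF t z]
      exact hval t z
  have hinv : ∀ x, tm (M := fgL (diag T')) (N := Z) T'.one (F x) = x := by
    refine tb_ind ?_ ?_ ?_
    · rw [map_zero]
      exact tm_zero_right (M := fgL (diag T')) (N := Z) T'.one
    · intro x y hx hy
      rw [map_add]
      refine (tm_add_right (M := fgL (diag T')) (N := Z) T'.one (F x) (F y)).trans ?_
      rw [hx, hy]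
    · intro t z
      rw [hF t z]
      refine (tm_r_l (M := fgL (diag T')) (N := Z) T'.one t z).symm.trans ?_
      exact congrArg (fun y => tm (M := fgL (diag T')) (N := Z) y z) (T'.one_mul t)
  have hinv2 : ∀ z : Z.M, F (tm (M := fgL (diag T')) (N := Z) T'.one z) = z := by
    intro z
    rw [hF T'.one z, Z.l_one]
  have hd : ∀ z : Z.M, (tb (fgL (diag T')) Z).dg.d
      (tm (M := fgL (diag T')) (N := Z) T'.one z) =
      tm (M := fgL (diag T')) (N := Z) T'.one (Z.dg.d z) := by
    intro z
    refine (tb_d (M := fgL (diag T')) (N := Z) T'.one z).trans ?_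
    have h1 : (fgL (diag T')).dg.d T'.one = 0 := T'.d_one
    have h2 : (fgL (diag T')).dg.s T'.one = T'.one := T'.s_one
    rw [h1, h2]
    refine (congrArg (· + _) (tm_zero_left (M := fgL (diag T')) (N := Z) z)).trans ?_
    exact zero_add _
  refine ⟨hH, ?_, ?_⟩
  · rintro x hx ⟨y, hy⟩
    obtain ⟨y', rfl⟩ := heb.2 y
    rw [hed, hHF] at hy
    have h1 : Z.dg.d (F x) = 0 := by
      have h2 := hd (F x)
      rw [hinv x, hx] at h2
      rw [← hinv2 (Z.dg.d (F x)), ← h2, map_zero]
    obtain ⟨z, hz⟩ := hπ.2.1 (F x) h1 ⟨y', heb.1 hy⟩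
    refine ⟨tm (M := fgL (diag T')) (N := Z) T'.one z, ?_⟩
    rw [hd z, hz, hinv x]
  · intro y hy
    obtain ⟨y', rfl⟩ := heb.2 y
    rw [hed] at hy
    have h1 : Y.dg.d y' = 0 := heb.1 (by rw [hy, map_zero])
    obtain ⟨x, hx, z, hz⟩ := hπ.2.2 y' h1
    refine ⟨tm (M := fgL (diag T')) (N := Z) T'.one x, ?_, e z, ?_⟩
    · rw [hd x, hx]
      exact tm_zero_right (M := fgL (diag T')) (N := Z) T'.one
    · rw [hed, hz, map_sub, hHF, hinv2 x]

end aux

/-- A dg algebra which is quasi-isomorphic to a smooth one is smooth.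

PROOF. Let `r : T' → T`, `X = res (DHom.id T) r (diag T) : Bim T T'`,
`Y = res r (DHom.id T) (diag T) : Bim T' T`, and let `φ : P → diag T'` be a quasi-isomorphism with
`P` perfect (`Smooth.hasRes_diag`).
(1) `M ↦ tb X (tb M Y)` is a dg functor (`(tbR T' Y).comp (tbL X T)`) which maps `free T' T'` to a
bimodule isomorphic to `free T T`: `tb (free T' T') Y` is isomorphic to
`tb (free T' (base k)) (fgL Y)` (`tb_free_left`), `fgL Y = fgL (diag T)` is isomorphic to
`free (base k) T`, so this is isomorphic to `free T' T` (`tb_free_free`); then `tb X (free T' T)` is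
isomorphic to `tb (fgR X) (free (base k) T)` (`tb_free_right`) and `fgR X = fgR (diag T)` to
`free T (base k)` (the private `bc_fgR_free`, `bc_fgL_free` in `Lib/MP_6e5bed_ag_NS/BaseC.lean`).
By `DGFun.perf` the bimodule `tb X (tb P Y)` is perfect.
(2) Let `Z = tb P Y`. There is a quasi-isomorphism `π : Z → Y` (`qiso_tbR_diag`; it is
`(φ.tbR Y)` followed by `y' ⊗ y ↦ y' y`).
(3) Let `g : tb X Z → diag T`, `x ⊗ z ↦ x * π z` (`π z ∈ T`; well defined because
`(x * r a) * π z = x * π (a z)`; a closed map of `T`-`T`-bimodules; compare `bcAL` in `BaseC.lean`).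
Let `j : Z → tb X Z`, `z ↦ 1 ⊗ z`. Then `g (j z) = π z`. `j` is a quasi-isomorphism (of complexes):
it is the map `(r').tbR Z : tb (diag T') Z → tb X' Z`, where `r' : diag T' → X'` is `r`, viewed as a
closed map of `base k`-`T'`-bimodules `fgL (diag T') → fgL X`, whose cone `C` is acyclic because `r`
is a quasi-isomorphism; the cone of `(r').tbR Z` is `tb C Z` (`DGFun.isCone`), acyclic by
`acyc_tb3`. So `g` is a quasi-isomorphism (two out of three, `QIso.of_comp_left` or directly as in
`CHom.QI.of_left`).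
(4) So `tb X Z → diag T` is a perfect resolution, and `T` is smooth (`smooth_of_hasRes`). -/
theorem smooth_up {T' T : DGA k} (r : DHom T' T) (hr : DQI r) (h : Smooth T') : Smooth T := by
  obtain ⟨P, φ, hP, hφ⟩ := h.hasRes_diag
  obtain ⟨π, hπ⟩ := qiso_tbR_diag hP hφ (res r (DHom.id T) (diag T))
  obtain ⟨β, hβf, hβ⟩ : ∃ β : GMap 0 (fgL (diag T')) (res (DHom.unit T) r (diag T)),
      (∀ x, β.f x = r.f x) ∧ QIso β :=
    ⟨SmUp_map r (DHom.unit T') (DHom.id T') (DHom.unit T) r (SmUp_unit r) (fun _ => rfl),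
      fun _ => rfl, SmUp_map_qiso r hr _ _ _ _ _ _⟩
  have hcl : (β.tbR (tb P (res r (DHom.id T) (diag T)))).dd = 0 :=
    (tbR (base k) (tb P (res r (DHom.id T) (diag T)))).closed hβ.1
  have h1 : QIso (β.tbR (tb P (res r (DHom.id T) (diag T)))) := by
    have hc : IsCone β (cone β hβ.1) := isCone_cone β hβ.1
    have hA : Acyc (cone β hβ.1) := (hc.qiso_iff hβ.1).1 hβ
    have h2 : IsCone (β.tbR (tb P (res r (DHom.id T) (diag T))))
        (tb (cone β hβ.1) (tb P (res r (DHom.id T) (diag T)))) :=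
      (tbR (base k) (tb P (res r (DHom.id T) (diag T)))).isCone hc
    exact (h2.qiso_iff hcl).2 (acyc_tb3 hA hP (res r (DHom.id T) (diag T)))
  have hact := SmUp_AL_dd r (DHom.unit T) (diag T)
  have hπL : (π.tbL (res (DHom.unit T) r (diag T))).dd = 0 :=
    (tbL (res (DHom.unit T) r (diag T)) T).closed hπ.1
  have hG : ((π.tbL (res (DHom.unit T) r (diag T))).comp
      (SmUp_AL r (DHom.unit T) (diag T)) (add_zero 0)).dd = 0 := by
    ext x
    rw [GMap.dd_comp, hπL, hact]
    simp
  have hq : QIso ((β.tbR (tb P (res r (DHom.id T) (diag T)))).comp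
      ((π.tbL (res (DHom.unit T) r (diag T))).comp
        (SmUp_AL r (DHom.unit T) (diag T)) (add_zero 0)) (add_zero 0)) := by
    refine SmUp_unit_qiso hπ _ ?_ (LinearMap.id : T.A →ₗ[k] T.A) (fun _ => rfl)
      Function.bijective_id (fun t z => ?_)
    · ext x
      rw [GMap.dd_comp, hcl, hG]
      simp
    · have e1 := GMap.tbR_tm β (tb P (res r (DHom.id T) (diag T))) t z
      have e2 := GMap.tbL_tm (res (DHom.unit T) r (diag T)) π (β.f t) z
      have e3 : (res (DHom.unit T) r (diag T)).dg.sp 0 (β.f t) = β.f t :=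
        Dg.sp_zero (X := (res (DHom.unit T) r (diag T)).dg) (β.f t)
      have e4 := SmUp_AL_tm r (DHom.unit T) (diag T) (β.f t) (π.f z)
      have e5 := π.map_l t z
      have e6 : T'.dg.sp 0 t = t := Dg.sp_zero (X := T'.dg) t
      rw [e6] at e5
      refine (congrArg (fun y => (SmUp_AL r (DHom.unit T) (diag T)).f
        ((π.tbL (res (DHom.unit T) r (diag T))).f y)) e1).trans ?_
      refine (congrArg (SmUp_AL r (DHom.unit T) (diag T)).f e2).trans ?_
      refine (congrArg (fun y => (SmUp_AL r (DHom.unit T) (diag T)).f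
        (tm (M := res (DHom.unit T) r (diag T)) (N := res r (DHom.id T) (diag T)) y
          (π.f z))) e3).trans ?_
      refine e4.trans ?_
      refine Eq.trans ?_ e5.symm
      exact congrArg (fun y => T.mul y (π.f z)) (hβf t)
  have hGq : QIso ((π.tbL (res (DHom.unit T) r (diag T))).comp
      (SmUp_AL r (DHom.unit T) (diag T)) (add_zero 0)) := QIso.of_comp_left h1 hG hq
  have hres : HasRes (diag T) :=
    ⟨tb (res (DHom.id T) r (diag T)) (tb P (res r (DHom.id T) (diag T))),
      (π.tbL (res (DHom.id T) r (diag T))).comp (SmUp_AL r (DHom.id T) (diag T))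
        (add_zero 0), SmUp_perf r hP, hGq⟩
  exact smooth_of_hasRes hres

end Pool.Agent.MP_6e5bed_ag_PS
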