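import Pool.Agent.Lib.MP_6e5bed_ag_PS.Wsh
import Pool.Agent.Lib.MP_6e5bed_ag_PS.Hull

set_option autoImplicit false
set_option linter.unusedVariables false

/-!
# MP_6e5bed_ag, NC PRODUCT SURFACES: stability on the coordinate charts; lattices generated by
lattices in subspaces
-/

noncomputable section

namespace Pool.Agent.MP_6e5bed_ag_PS

open Pool.Agent.MP_6e5bed_ag_NC
open Pool.Agent.MP_6e5bed_ag_NS
open scoped TensorProduct

universe u

variable {k : Type u} [Field k] {P : PD k} {A B : ASh k}

/-- an action of a sheaf which preserves a lattice on the coordinate charts preserves it -/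
private theorem StLoc_gen {E : Type u} [AddCommGroup E] [Module k E] [Module (KK k) E]
    [IsScalarTower k (KK k) E] (N : Lat k E) (S : Shf k)
    (act : ∀ c, S.M c → E →ₗ[KK k] E)
    (hsm : ∀ c (r : RR k c) b x, act c (r • b) x = (r : KK k) • act c b x)
    (hres : ∀ {c d : Ch k} (h : c ≤ d) b x, act d (S.res h b) x = act c b x)
    (h0 : ∀ (m : Fin 3) (b : S.M (sg1 k m)), ∀ x ∈ N.N (sg1 k m), act _ b x ∈ N.N (sg1 k m)) :
    ∀ c b, ∀ x ∈ N.N c, act c b x ∈ N.N c := by
  -- charts which contain a coordinate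
  have h1 : ∀ (m : Fin 3) (T : Set (LF k)), T.Finite → ∀ c : Ch k, c.1 = insert (xx k m) T →
      ∀ b, ∀ x ∈ N.N c, act c b x ∈ N.N c := by
    intro m T hT
    induction T, hT using Set.Finite.induction_on with
    | empty =>
      intro c hc
      have hc' : c = sg1 k m := Subtype.ext (by rw [hc, insert_empty_eq]; rfl)
      subst hc'
      exact h0 m
    | @insert ℓ T _ hT ih =>
      intro c hc b x hx
      let d : Ch k := ⟨insert (xx k m) T, Set.insert_nonempty _ _, hT.insert _⟩
      have hg : xx k m ∈ d.1 := Set.mem_insert _ _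
      have hdc : d ≤ c := by
        change insert (xx k m) T ⊆ c.1
        rw [hc]
        exact Set.insert_subset_insert (Set.subset_insert _ _)
      have hcd : c ≤ d.ins ℓ := by
        change c.1 ⊆ insert ℓ (insert (xx k m) T)
        rw [hc, Set.insert_comm]
      have hℓ : ℓ ∈ c.1 := by
        rw [hc]
        exact Set.mem_insert_of_mem _ (Set.mem_insert _ _)
      obtain ⟨n, b', hb'⟩ := S.surj hdc hg ℓ hcd b
      obtain ⟨n', hn'⟩ := N.loc hdc hg ℓ hcd hx
      have h2 := N.mono hdc (ih d rfl b' _ hn')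
      have h3 : act d b' ((lam k ℓ.1 / lam k (xx k m).1) ^ n' • x) =
          (lam k ℓ.1 / lam k (xx k m).1) ^ (n + n') • act c b x := by
        rw [← hres hdc, hb', hsm, map_smul, smul_smul, pow_add, SubmonoidClass.coe_pow]
        rfl
      rw [h3] at h2
      have h4 : act c b x = (quo (xx k m).1 hℓ : RR k c) ^ (n + n') •
          ((lam k ℓ.1 / lam k (xx k m).1) ^ (n + n') • act c b x) := by
        rw [Subalgebra.smul_def, smul_smul, SubmonoidClass.coe_pow]
        change _ = ((lam k (xx k m).1 / lam k ℓ.1) ^ (n + n') *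
          (lam k ℓ.1 / lam k (xx k m).1) ^ (n + n')) • act c b x
        have h5 : lam k (xx k m).1 / lam k ℓ.1 * (lam k ℓ.1 / lam k (xx k m).1) = 1 := by
          have e1 := lam_ne_zero (xx k m)
          have e2 := lam_ne_zero ℓ
          field_simp
        rw [← mul_pow, h5, one_pow, one_smul]
      rw [h4]
      exact (N.N c).smul_mem _ h2
  intro c b x hx
  refine Lat.glue N c _ fun i => ?_
  have hle : c ≤ c.ins (xx k i) := Set.subset_insert _ _
  rw [← hres hle]
  refine h1 i (c.ins (xx k i)).1 (c.ins (xx k i)).2.2 _ ?_ _ x (N.mono hle hx)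
  exact (Set.insert_eq_of_mem (Set.mem_insert _ _)).symm

/-- Stability can be checked on the coordinate charts.

PROOF. (1) Let `xx m ∈ c`. By induction on the finite set `c \ {xx m}`: `r c b x ∈ N c` for
`b ∈ B.M c`, `x ∈ N c`. If `c = d.ins ℓ` with `xx m ∈ d`, `ξ = lam ℓ / lam (xx m)`, then by `B.surj`
(`B.res h b' = ξ ^ n • b` for some `b' ∈ B.M d`) and `N.loc` (`ξ ^ n' • x ∈ N d`)
`ξ ^ (n + n') • r c b x = r c (ξ ^ n • b) (ξ ^ n' • x) = r d b' (ξ ^ n' • x) ∈ N d ⊆ N c`
(`smul_r`, `res_r`, `M`-linearity of `r`), and `ξ` is invertible in `RR k c`.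
(2) For arbitrary `c`: `Lat.glue`, with `res_r`. -/
theorem stR_of (G : MG P A B) (N : BLat G.toMSp)
    (h : ∀ (m : Fin 3) (b : B.M (sg1 k m)), ∀ x ∈ N.N (sg1 k m), G.r _ b x ∈ N.N (sg1 k m)) :
    StR G N := by
  exact StLoc_gen N.toLat B.toShf (fun c b => (G.r c b).restrictScalars (KK k))
    (fun c r b x => G.smul_r c r b x) (fun h b x => G.res_r h b x) h

/-- PROOF. The same. -/
theorem stL_of (G : MG P A B) (N : BLat G.toMSp)
    (h : ∀ (m : Fin 3) (a : A.M (sg1 k m)), ∀ x ∈ N.N (sg1 k m), G.l _ a x ∈ N.N (sg1 k m)) :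
    StL G N := by
  exact StLoc_gen N.toLat A.toShf (fun c b => (G.l c b).restrictScalars (KK k))
    (fun c r b x => G.smul_l c r b x) (fun h b x => G.res_l h b x) h

section blat

variable {E : Type u} [AddCommGroup E] [Module k E] [Module (KK k) E] [IsScalarTower k (KK k) E]

private theorem StLoc_lam_xx (i : Fin 3) : lam k (xx k i).1 = uu k i := by
  unfold lam xx
  rw [Finset.sum_eq_single i]
  · change (Pi.single i 1 : Fin 3 → k) i • uu k i = uu k i
    rw [Pi.single_eq_same, one_smul]
  · intro j _ hj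
    change (Pi.single i 1 : Fin 3 → k) j • uu k j = 0
    rw [Pi.single_eq_of_ne hj, zero_smul]
  · intro h
    exact absurd (Finset.mem_univ i) h

private theorem StLoc_alg {V : MSp P} (r : KK k) (x : V.E) :
    r • x = (algebraMap (KK k) P.M r) • x := (algebraMap_smul P.M r x).symm

private theorem StLoc_j1 (P : PD k) {m : Fin 3} {f : P.D1.L} (hf : f ∈ BM P.D1 m) :
    P.j1 f ∈ P.BB m := by
  rw [PD.mem_BB]
  have h := P.PP_mul_mem (a := {m}) (b := {m}) (i := 0) (j := 0) (f := f) (g := 1)
    (mem_OA_sgl.2 (by rwa [neg_zero, zpow_zero, one_mul])) (one_mem_OA (D := P.D2) {m})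
  rwa [map_one, mul_one] at h

private theorem StLoc_j2 (P : PD k) {m : Fin 3} {g : P.D2.L} (hg : g ∈ BM P.D2 m) :
    P.j2 g ∈ P.BB m := by
  rw [PD.mem_BB]
  have h := P.PP_mul_mem (a := {m}) (b := {m}) (i := 0) (j := 0) (f := 1) (g := g)
    (one_mem_OA (D := P.D1) {m}) (mem_OA_sgl.2 (by rwa [neg_zero, zpow_zero, one_mul]))
  rwa [map_one, one_mul] at h

/-- the span of the image of the lattice over the functions on the product surface -/
private def StLoc_Q (N : Lat k E) (V : MSp P) (ι : E →ₗ[KK k] V.E) (m : Fin 3) :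
    Submodule (RR k (sg1 k m)) V.E where
  carrier := (Submodule.span (P.BB m) (ι '' (N.N (sg1 k m) : Set E)) : Set V.E)
  add_mem' := (Submodule.span (P.BB m) (ι '' (N.N (sg1 k m) : Set E))).add_mem
  zero_mem' := (Submodule.span (P.BB m) (ι '' (N.N (sg1 k m) : Set E))).zero_mem
  smul_mem' := fun r x hx => by
    have h1 : r • x = (⟨algebraMap (KK k) P.M r, P.rr_mem m r.2⟩ : P.BB m) • x := by
      rw [Subalgebra.smul_def, Subalgebra.smul_def, StLoc_alg]
    rw [h1]
    exact (Submodule.span (P.BB m) (ι '' (N.N (sg1 k m) : Set E))).smul_mem _ hx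

variable {N : Lat k E} {V : MSp P} {ι : E →ₗ[KK k] V.E} {m : Fin 3}

private theorem StLoc_mem {x : V.E} : x ∈ StLoc_Q N V ι m ↔
    x ∈ Submodule.span (P.BB m) (ι '' (N.N (sg1 k m) : Set E)) := Iff.rfl

private theorem StLoc_bb {b : P.M} (hb : b ∈ P.BB m) {x : V.E} (hx : x ∈ StLoc_Q N V ι m) :
    b • x ∈ StLoc_Q N V ι m := by
  have h1 := Submodule.smul_mem _ (⟨b, hb⟩ : P.BB m) (StLoc_mem.1 hx)
  rw [Subalgebra.smul_def] at h1
  exact StLoc_mem.2 h1

private theorem StLoc_fg (N : Lat k E) (V : MSp P) (ι : E →ₗ[KK k] V.E) (m : Fin 3) :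
    (StLoc_Q N V ι m).FG := by
  obtain ⟨T, hT⟩ := N.fg (sg1 k m)
  obtain ⟨S, hS⟩ := P.QB_fg m
  obtain ⟨W, hW⟩ : ∃ W : Submodule (RR k (sg1 k m)) V.E, W = Submodule.span (RR k (sg1 k m))
    (Set.image2 (fun (s : P.M) (t : E) => s • ι t) (S : Set P.M) (T : Set E)) := ⟨_, rfl⟩
  have hA : ∀ t ∈ T, ∀ b ∈ P.BB m, b • ι t ∈ W := by
    intro t ht b hb
    have hb' : b ∈ P.QB m := hb
    rw [← hS] at hb'
    clear hb
    induction hb' using Submodule.span_induction with
    | mem s hs =>
      rw [hW]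
      exact Submodule.subset_span ⟨s, hs, t, ht, rfl⟩
    | zero =>
      rw [zero_smul]
      exact W.zero_mem
    | add y z _ _ hy hz =>
      rw [add_smul]
      exact W.add_mem hy hz
    | smul r y _ hy =>
      have h1 : (r • y) • ι t = r • (y • ι t) := by
        rw [Subalgebra.smul_def, Subalgebra.smul_def, smul_assoc]
      rw [h1]
      exact W.smul_mem _ hy
  have hB : ∀ b ∈ P.BB m, ∀ w ∈ W, b • w ∈ W := by
    intro b hb w hw
    rw [hW] at hw
    induction hw using Submodule.span_induction with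
    | mem w hw =>
      obtain ⟨s, hs, t, ht, rfl⟩ := hw
      have hs' : s ∈ P.QB m := by
        rw [← hS]
        exact Submodule.subset_span hs
      change b • s • ι t ∈ W
      rw [smul_smul]
      exact hA t ht _ ((P.BB m).mul_mem hb hs')
    | zero =>
      rw [smul_zero]
      exact W.zero_mem
    | add y z _ _ hy hz =>
      rw [smul_add]
      exact W.add_mem hy hz
    | smul r y _ hy =>
      have h1 : b • r • y = r • (b • y) := by
        rw [Subalgebra.smul_def, Subalgebra.smul_def, smul_comm]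
      rw [h1]
      exact W.smul_mem _ hy
  have hC : ∀ y ∈ N.N (sg1 k m), ι y ∈ W := by
    intro y hy
    rw [← hT] at hy
    induction hy using Submodule.span_induction with
    | mem t ht =>
      have h1 := hA t ht 1 (P.BB m).one_mem
      rwa [one_smul] at h1
    | zero =>
      rw [map_zero]
      exact W.zero_mem
    | add y z _ _ hy hz =>
      rw [map_add]
      exact W.add_mem hy hz
    | smul r y _ hy =>
      have h1 : ι (r • y) = r • ι y := by
        rw [Subalgebra.smul_def, map_smul, Subalgebra.smul_def]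
      rw [h1]
      exact W.smul_mem _ hy
  have h1 : StLoc_Q N V ι m = W := by
    refine le_antisymm ?_ ?_
    · intro x hx
      have hx' := StLoc_mem.1 hx
      clear hx
      induction hx' using Submodule.span_induction with
      | mem x hx =>
        obtain ⟨y, hy, rfl⟩ := hx
        exact hC y hy
      | zero => exact W.zero_mem
      | add y z _ _ hy hz => exact W.add_mem hy hz
      | smul b y _ hy =>
        rw [Subalgebra.smul_def]
        exact hB _ b.2 _ hy
    · rw [hW, Submodule.span_le]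
      rintro _ ⟨s, hs, t, ht, rfl⟩
      have hs' : s ∈ P.QB m := by
        rw [← hS]
        exact Submodule.subset_span hs
      have ht' : t ∈ N.N (sg1 k m) := by
        rw [← hT]
        exact Submodule.subset_span ht
      exact StLoc_bb hs' (StLoc_mem.2 (Submodule.subset_span ⟨t, ht', rfl⟩))
  rw [h1, hW]
  exact Submodule.fg_span (Set.Finite.image2 _ S.finite_toSet T.finite_toSet)

private theorem StLoc_span (N : Lat k E) (V : MSp P) (ι : E →ₗ[KK k] V.E)
    (hι : Submodule.span P.M (Set.range ι) = ⊤) (m : Fin 3) :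
    Submodule.span (KK k) (StLoc_Q N V ι m : Set V.E) = ⊤ := by
  obtain ⟨W, hW⟩ : ∃ W : Submodule (KK k) V.E, W = Submodule.span (KK k)
    (StLoc_Q N V ι m : Set V.E) := ⟨_, rfl⟩
  rw [← hW, eq_top_iff]
  have hA : ∀ b ∈ P.BB m, ∀ w ∈ W, b • w ∈ W := by
    intro b hb w hw
    rw [hW] at hw
    induction hw using Submodule.span_induction with
    | mem w hw =>
      rw [hW]
      exact Submodule.subset_span (StLoc_bb hb hw)
    | zero =>
      rw [smul_zero]
      exact W.zero_mem
    | add y z _ _ hy hz =>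
      rw [smul_add]
      exact W.add_mem hy hz
    | smul r y _ hy =>
      rw [smul_comm]
      exact W.smul_mem _ hy
  have hB : ∀ (b : P.M), ∀ w ∈ W, b • w ∈ W := by
    intro b w hw
    have hb : b ∈ Submodule.span (KK k) (P.QB m : Set P.M) := by
      rw [P.QB_span m]
      exact Submodule.mem_top
    induction hb using Submodule.span_induction with
    | mem b hb => exact hA b hb w hw
    | zero =>
      rw [zero_smul]
      exact W.zero_mem
    | add y z _ _ hy hz =>
      rw [add_smul]
      exact W.add_mem hy hz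
    | smul r y _ hy =>
      rw [smul_assoc]
      exact W.smul_mem _ hy
  have hC : ∀ e : E, ι e ∈ W := by
    intro e
    have he : e ∈ Submodule.span (KK k) (N.N (sg1 k m) : Set E) := by
      rw [N.span]
      exact Submodule.mem_top
    induction he using Submodule.span_induction with
    | mem y hy =>
      rw [hW]
      exact Submodule.subset_span (StLoc_mem.2 (Submodule.subset_span ⟨y, hy, rfl⟩))
    | zero =>
      rw [map_zero]
      exact W.zero_mem
    | add y z _ _ hy hz =>
      rw [map_add]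
      exact W.add_mem hy hz
    | smul r y _ hy =>
      rw [map_smul]
      exact W.smul_mem _ hy
  intro x _
  have hx : x ∈ Submodule.span P.M (Set.range ι) := by
    rw [hι]
    exact Submodule.mem_top
  induction hx using Submodule.span_induction with
  | mem y hy =>
    obtain ⟨e, rfl⟩ := hy
    exact hC e
  | zero => exact W.zero_mem
  | add y z _ _ hy hz => exact W.add_mem (hy trivial) (hz trivial)
  | smul r y _ hy => exact hB r y (hy trivial)

private theorem StLoc_loc (N : Lat k E) (V : MSp P) (ι : E →ₗ[KK k] V.E) (m m' : Fin 3)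
    (x : V.E) (hx : x ∈ StLoc_Q N V ι m) :
    ∃ n : ℕ, (uu k m / uu k m') ^ n • x ∈ StLoc_Q N V ι m' := by
  have hq : uu k m / uu k m' ∈ RR k (sg1 k m') := by
    have h := lam_mem (c := sg1 k m') (xx k m).1 (g := xx k m') (Set.mem_singleton _)
    rwa [StLoc_lam_xx, StLoc_lam_xx] at h
  have hmono : ∀ {n n' : ℕ} {x : V.E}, n ≤ n' → (uu k m / uu k m') ^ n • x ∈
      StLoc_Q N V ι m' → (uu k m / uu k m') ^ n' • x ∈ StLoc_Q N V ι m' := by
    intro n n' x h hx
    obtain ⟨l, rfl⟩ := Nat.exists_eq_add_of_le h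
    have e : (uu k m / uu k m') ^ (n + l) • x = (⟨(uu k m / uu k m') ^ l,
        Subalgebra.pow_mem _ hq l⟩ : RR k (sg1 k m')) • ((uu k m / uu k m') ^ n • x) := by
      rw [Subalgebra.smul_def, smul_smul, ← pow_add, add_comm l n]
    rw [e]
    exact (StLoc_Q N V ι m').smul_mem _ hx
  have hx' := StLoc_mem.1 hx
  clear hx
  induction hx' using Submodule.span_induction with
  | mem x hx =>
    obtain ⟨y, hy, rfl⟩ := hx
    have hle : sg1 k m' ≤ (sg1 k m').ins (xx k m) := Set.subset_insert _ _
    have hle' : sg1 k m ≤ (sg1 k m').ins (xx k m) := by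
      change {xx k m} ⊆ insert (xx k m) (sg1 k m').1
      exact Set.singleton_subset_iff.2 (Set.mem_insert _ _)
    obtain ⟨n, hn⟩ := N.loc hle (g := xx k m') (Set.mem_singleton _) (xx k m) le_rfl
      (N.mono hle' hy)
    rw [StLoc_lam_xx, StLoc_lam_xx] at hn
    refine ⟨n, ?_⟩
    rw [← map_smul]
    exact StLoc_mem.2 (Submodule.subset_span ⟨_, hn, rfl⟩)
  | zero =>
    refine ⟨0, ?_⟩
    rw [smul_zero]
    exact Submodule.zero_mem _
  | add y z _ _ hy hz =>
    obtain ⟨n, hn⟩ := hy
    obtain ⟨n', hn'⟩ := hz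
    refine ⟨max n n', ?_⟩
    rw [smul_add]
    exact Submodule.add_mem _ (hmono (le_max_left _ _) hn) (hmono (le_max_right _ _) hn')
  | smul b y _ hy =>
    obtain ⟨n, hn⟩ := hy
    obtain ⟨l, hl⟩ := P.QB_loc m m' (b : P.M) b.2
    refine ⟨l + n, ?_⟩
    have e : (uu k m / uu k m') ^ (l + n) • (b • y) =
        ((uu k m / uu k m') ^ l • (b : P.M)) • ((uu k m / uu k m') ^ n • y) := by
      rw [Subalgebra.smul_def, smul_assoc, pow_add, mul_smul, smul_comm _ (b : P.M) y]
    rw [e]
    exact StLoc_bb hl hn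

private theorem StLoc_b {G : GD k V.E} {c : Ch k} {b : P.M}
    (hb : ∀ x ∈ G.Q m, b • x ∈ G.Q m) {x : V.E} (hx : x ∈ G.loc1 c m) : b • x ∈ G.loc1 c m := by
  have hx' : x ∈ Submodule.span (RR k c) (G.Q m : Set V.E) := hx
  change b • x ∈ Submodule.span (RR k c) (G.Q m : Set V.E)
  clear hx
  induction hx' using Submodule.span_induction with
  | mem y hy => exact Submodule.subset_span (hb y hy)
  | zero =>
    rw [smul_zero]
    exact Submodule.zero_mem _
  | add y z _ _ hy hz =>
    rw [smul_add]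
    exact Submodule.add_mem _ hy hz
  | smul r y _ hy =>
    have h1 : b • r • y = r • (b • y) := by
      rw [Subalgebra.smul_def, Subalgebra.smul_def, smul_comm]
    rw [h1]
    exact Submodule.smul_mem _ _ hy

end blat

/-- The lattice over the product surface which is generated by a lattice `N` in a `K`-vector space.

PROOF. `GD.lat` for `Q m =` the `BB m`-span of `ι (N.N (sg1 k m))`, viewed as a submodule over
`RR k (sg1 k m)` (`rr_mem`). Finitely generated: `QB_fg` and `N.fg` (products of generators). Span: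
`N.span`, `QB_span`, `hι`. `loc`: `QB_loc` and `N.loc`, `N.mono` (chart `sg1 m ∪ sg1 m'`). `b1`, `b2`:
as in `OB_b1` (`GD.mem_iff`). The last statement is `GD.mem_sg1`. -/
theorem exists_blat {E : Type u} [AddCommGroup E] [Module k E] [Module (KK k) E]
    [IsScalarTower k (KK k) E] (N : Lat k E) (V : MSp P) (ι : E →ₗ[KK k] V.E)
    (hι : Submodule.span P.M (Set.range ι) = ⊤) : ∃ N' : BLat V, ∀ (m : Fin 3) (x : V.E),
      x ∈ N'.N (sg1 k m) ↔ x ∈ Submodule.span (P.BB m) (ι '' (N.N (sg1 k m) : Set E)) := by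
  let G : GD k V.E := ⟨StLoc_Q N V ι, StLoc_fg N V ι, StLoc_span N V ι hι, StLoc_loc N V ι⟩
  have hG : ∀ (m : Fin 3) (b : P.M), b ∈ P.BB m → ∀ x ∈ G.Q m, b • x ∈ G.Q m :=
    fun m b hb x hx => StLoc_bb (N := N) (V := V) (ι := ι) (m := m) hb hx
  refine ⟨⟨G.lat, ?_, ?_⟩, ?_⟩
  · intro c m hm f hf x hx
    exact (G.mem_iff hm).2 (StLoc_b (hG m _ (StLoc_j1 P hf)) ((G.mem_iff hm).1 hx))
  · intro c m hm f hf x hx
    exact (G.mem_iff hm).2 (StLoc_b (hG m _ (StLoc_j2 P hf)) ((G.mem_iff hm).1 hx))
  · intro m x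
    exact (G.mem_sg1 (m := m) (x := x)).trans StLoc_mem

end Pool.Agent.MP_6e5bed_ag_PS
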