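import Pool.Agent.Lib.MP_6e5bed_ag_NS.StP2

set_option autoImplicit false

/-!
# Algebras over `k[x_0, x_1, x_2]` whose generic centres are subfields of function fields of
products of two curves (MP_6e5bed_ag)
-/

namespace Pool.Agent.MP_6e5bed_ag_P2

open MvPolynomial

universe u

/-- The centre of every simple quotient `Q` of the generic algebra `Γ ⊗ k(u, v)`
(`x_0 ↦ 1, x_1 ↦ u, x_2 ↦ v`) has a homomorphism `φ`, the identity on `k`, to a field `N` with
elements `s, t` such that `φ u = s t` and `φ v = (s - 1) (t - 1)` and such that the field `N` is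
generated over `k` by elements which are separable algebraic over `k(s)` or over `k(t)`. -/
def CenN (k Γ : Type u) [Field k] [Ring Γ] [Algebra (MvPolynomial (Fin 3) k) Γ] : Prop :=
  ∀ (K Q : Type u) [Field K] [Algebra (MvPolynomial (Fin 2) k) K]
    [IsFractionRing (MvPolynomial (Fin 2) k) K] [Ring Q] [Algebra K Q] [IsSimpleRing Q]
    (π : Γ →+* Q), (∀ p : MvPolynomial (Fin 3) k, π (algebraMap _ Γ p) =
      algebraMap K Q (algebraMap (MvPolynomial (Fin 2) k) K (aeval ![1, X 0, X 1] p))) →
    Submodule.span K (Set.range π) = ⊤ →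
    ∃ (N : Type u) (_ : Field N) (_ : Algebra k N) (s t : N) (φ : Subalgebra.center K Q →+* N),
      IntermediateField.adjoin k {x : N | IsSeparable (IntermediateField.adjoin k {s}) x ∨
        IsSeparable (IntermediateField.adjoin k {t}) x} = ⊤ ∧
      ∀ p : MvPolynomial (Fin 2) k, φ (algebraMap K _ (algebraMap _ K p)) =
        aeval ![s * t, (s - 1) * (t - 1)] p

end Pool.Agent.MP_6e5bed_ag_P2
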