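import Pool.Agent.Lib.MP_6e5bed_ag_PS.OB
import Pool.Agent.Lib.MP_6e5bed_ag_PS.LatPi

set_option autoImplicit false

/-!
# MP_6e5bed_ag, NC PRODUCT SURFACES: the sheaf of algebras `End(⊕ O(p))`, bimodules
-/

noncomputable section

namespace Pool.Agent.MP_6e5bed_ag_PS

open Pool.Agent.MP_6e5bed_ag_NC
open Pool.Agent.MP_6e5bed_ag_NS
open scoped TensorProduct

universe u

variable {k : Type u} [Field k]

/-- the index set of the generator `G = ⊕ O(p)`, `p ∈ {0, 1} × {0, 1}` -/
abbrev II : Type := Fin 2 × Fin 2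

/-- the degrees -/
def II.d1 (p : II) : ℤ := (p.1 : ℕ)

/-- the degrees -/
def II.d2 (p : II) : ℤ := (p.2 : ℕ)

variable (P : PD k)

/-- the lattice of the matrices with entries in `O(p - q)` -/
def WL : Lat k (II → II → P.M) :=
  Lat.pi fun p => Lat.pi fun q => (P.OB.bt (p.d1 - q.d1) (p.d2 - q.d2)).toLat

theorem mem_WL {c : Ch k} {m : II → II → P.M} :
    m ∈ (WL P).N c ↔ ∀ p q, m p q ∈ (P.OB.bt (p.d1 - q.d1) (p.d2 - q.d2)).N c := Iff.rfl

theorem WL_mul {c : Ch k} {m n : II → II → P.M} (hm : m ∈ (WL P).N c) (hn : n ∈ (WL P).N c) :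
    (fun p q => ∑ r, m p r * n r q) ∈ (WL P).N c := by
  intro p q
  refine Submodule.sum_mem _ fun r _ => ?_
  have h := P.OB_smul P.OB (hm p r) (hn r q)
  rw [sub_add_sub_cancel, sub_add_sub_cancel] at h
  exact h

theorem WL_one {c : Ch k} : (fun p q => if p = q then 1 else 0 : II → II → P.M) ∈ (WL P).N c := by
  intro p q
  by_cases h : p = q
  · subst h
    have h1 := P.one_mem_OB c
    simp only [if_true, sub_self]
    exact h1
  · simp only [if_neg h]
    exact Submodule.zero_mem _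

/-- The sheaf of algebras `End(⊕ O(p))`. -/
def W0sh : ASh k where
  toShf := (WL P).sh
  mul := fun c => LinearMap.mk₂ k (fun (m n : (WL P).N c) =>
      (⟨fun p q => ∑ r, m.1 p r * n.1 r q, WL_mul P m.2 n.2⟩ : (WL P).N c))
    (fun m m' n => Subtype.ext (by
      funext p q
      change ∑ r, (m.1 p r + m'.1 p r) * n.1 r q = ∑ r, m.1 p r * n.1 r q + ∑ r, m'.1 p r * n.1 r q
      rw [← Finset.sum_add_distrib]
      exact Finset.sum_congr rfl fun r _ => add_mul _ _ _))
    (fun s m n => Subtype.ext (by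
      funext p q
      change ∑ r, (s • m.1 p r) * n.1 r q = s • ∑ r, m.1 p r * n.1 r q
      rw [Finset.smul_sum]
      exact Finset.sum_congr rfl fun r _ => smul_mul_assoc _ _ _))
    (fun m n n' => Subtype.ext (by
      funext p q
      change ∑ r, m.1 p r * (n.1 r q + n'.1 r q) = ∑ r, m.1 p r * n.1 r q + ∑ r, m.1 p r * n'.1 r q
      rw [← Finset.sum_add_distrib]
      exact Finset.sum_congr rfl fun r _ => mul_add _ _ _))
    (fun s m n => Subtype.ext (by
      funext p q
      change ∑ r, m.1 p r * (s • n.1 r q) = s • ∑ r, m.1 p r * n.1 r q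
      rw [Finset.smul_sum]
      exact Finset.sum_congr rfl fun r _ => mul_smul_comm _ _ _))
  one := fun c => ⟨_, WL_one P⟩
  one_mul := fun c a => Subtype.ext (by
    funext p q
    change ∑ r, (if p = r then 1 else 0) * a.1 r q = a.1 p q
    simp)
  mul_one := fun c a => Subtype.ext (by
    funext p q
    change ∑ r, a.1 p r * (if r = q then 1 else 0) = a.1 p q
    simp)
  mul_assoc := fun c a b e => Subtype.ext (by
    funext p q
    change ∑ r, (∑ r', a.1 p r' * b.1 r' r) * e.1 r q = ∑ r, a.1 p r * ∑ r', b.1 r r' * e.1 r' q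
    simp only [Finset.sum_mul, Finset.mul_sum]
    rw [Finset.sum_comm]
    exact Finset.sum_congr rfl fun r _ => Finset.sum_congr rfl fun r' _ => mul_assoc _ _ _)
  smul_mul := fun c r a b => Subtype.ext (by
    funext p q
    change ∑ r', (r • a.1 p r') * b.1 r' q = r • ∑ r', a.1 p r' * b.1 r' q
    rw [Finset.smul_sum]
    exact Finset.sum_congr rfl fun r _ => smul_mul_assoc _ _ _)
  mul_smul := fun c r a b => Subtype.ext (by
    funext p q
    change ∑ r', a.1 p r' * (r • b.1 r' q) = r • ∑ r', a.1 p r' * b.1 r' q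
    rw [Finset.smul_sum]
    exact Finset.sum_congr rfl fun r _ => mul_smul_comm _ _ _)
  res_one := fun h => rfl
  res_mul := fun h a b => rfl

/-- The dg algebra `RΓ(P², End(⊕ O(p)))` of the product surface. -/
def W0 : DGA k := TT (W0sh P)

theorem W0_coh : (W0sh P).toShf.Coh := (WL P).coh

/-- A bimodule over `M`: a generic bimodule with an action of `M` which commutes with both
actions. -/
structure MG (P : PD k) (A B : ASh k) extends MSp P where
  l : ∀ c, A.M c →ₗ[k] E →ₗ[P.M] E
  r : ∀ c, B.M c →ₗ[k] E →ₗ[P.M] E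
  l_one : ∀ c x, l c (A.one c) x = x
  r_one : ∀ c x, r c (B.one c) x = x
  l_mul : ∀ c a a' x, l c (A.mul c a a') x = l c a (l c a' x)
  r_mul : ∀ c b b' x, r c (B.mul c b b') x = r c b' (r c b x)
  l_r : ∀ c a b x, l c a (r c b x) = r c b (l c a x)
  smul_l : ∀ c (s : RR k c) a x, l c (s • a) x = (s : KK k) • l c a x
  smul_r : ∀ c (s : RR k c) b x, r c (s • b) x = (s : KK k) • r c b x
  res_l : ∀ {c d : Ch k} (h : c ≤ d) a x, l d (A.res h a) x = l c a x
  res_r : ∀ {c d : Ch k} (h : c ≤ d) b x, r d (B.res h b) x = r c b x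

variable {P} {A B C : ASh k}

/-- restriction of scalars from `M` to `K` -/
def rsK (V : MSp P) : (V.E →ₗ[P.M] V.E) →ₗ[k] (V.E →ₗ[KK k] V.E) where
  toFun := fun f => f.restrictScalars (KK k)
  map_add' := fun _ _ => rfl
  map_smul' := fun _ _ => rfl

/-- the generic bimodule -/
def MG.gen (G : MG P A B) : Gen A B where
  E := G.E
  l := fun c => (rsK G.toMSp).comp (G.l c)
  r := fun c => (rsK G.toMSp).comp (G.r c)
  l_one := G.l_one
  r_one := G.r_one
  l_mul := G.l_mul
  r_mul := G.r_mul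
  l_r := G.l_r
  smul_l := G.smul_l
  smul_r := G.smul_r
  res_l := G.res_l
  res_r := G.res_r

/-- The lattice is stable under the left action. -/
def StL (G : MG P A B) (N : BLat G.toMSp) : Prop := ∀ c a, ∀ x ∈ N.N c, G.l c a x ∈ N.N c

/-- The lattice is stable under the right action. -/
def StR (G : MG P A B) (N : BLat G.toMSp) : Prop := ∀ c b, ∀ x ∈ N.N c, G.r c b x ∈ N.N c

theorem StL.bt {G : MG P A B} {N : BLat G.toMSp} (h : StL G N) (i j : ℤ) : StL G (N.bt i j) := by
  intro c a x hx m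
  have h1 : P.em m (-i) (-j) • G.l c a x = G.l (c.ins (xx k m))
      (A.res (Set.subset_insert _ _) a) (P.em m (-i) (-j) • x) := by
    rw [G.res_l, map_smul]
  rw [h1]
  exact h _ _ _ (hx m)

theorem StR.bt {G : MG P A B} {N : BLat G.toMSp} (h : StR G N) (i j : ℤ) : StR G (N.bt i j) := by
  intro c a x hx m
  have h1 : P.em m (-i) (-j) • G.r c a x = G.r (c.ins (xx k m))
      (B.res (Set.subset_insert _ _) a) (P.em m (-i) (-j) • x) := by
    rw [G.res_r, map_smul]
  rw [h1]
  exact h _ _ _ (hx m)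

end Pool.Agent.MP_6e5bed_ag_PS
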