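import Pool.Agent.Lib.MP_6e5bed_ag_PS.Aug
import Pool.Agent.Lib.MP_6e5bed_ag_PS.Wsh

set_option autoImplicit false
set_option linter.unusedVariables false

/-!
# MP_6e5bed_ag, NC PRODUCT SURFACES: the comparison of `End(O ⊕ O(1)) ⊠ End(O ⊕ O(1))` and
`End(⊕ O(p))`
-/

noncomputable section

namespace Pool.Agent.MP_6e5bed_ag_PS

open Pool.Agent.MP_6e5bed_ag_NC
open Pool.Agent.MP_6e5bed_ag_NS
open scoped TensorProduct

universe u

variable {k : Type u} [Field k] (P : PD k)

/-- the tensor product of a matrix over `L₁` and a matrix over `L₂` -/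
theorem kr_mem {c : Ch k} (m : EM P.D1 (cF c)) (n : EM P.D2 (cF c)) :
    (fun p q : II => P.j1 (m.1 p.1 q.1) * P.j2 (n.1 p.2 q.2)) ∈ (WL P).N c := fun p q =>
  P.PP_le (cF c) c (fun j hj => mem_cF.1 hj) _ _ (P.PP_mul_mem (m.2 p.1 q.1) (n.2 p.2 q.2))

/-- the comparison on a chart -/
def krF (c : Ch k) : EM P.D1 (cF c) ⊗[k] EM P.D2 (cF c) →ₗ[k] (WL P).N c :=
  TensorProduct.lift (LinearMap.mk₂ k (fun (m : EM P.D1 (cF c)) (n : EM P.D2 (cF c)) =>
      (⟨fun p q : II => P.j1 (m.1 p.1 q.1) * P.j2 (n.1 p.2 q.2), kr_mem P m n⟩ : (WL P).N c))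
    (fun m m' n => Subtype.ext (by
      funext p q
      change P.j1 (m.1 p.1 q.1 + m'.1 p.1 q.1) * P.j2 (n.1 p.2 q.2) =
        P.j1 (m.1 p.1 q.1) * P.j2 (n.1 p.2 q.2) + P.j1 (m'.1 p.1 q.1) * P.j2 (n.1 p.2 q.2)
      rw [map_add, add_mul]))
    (fun s m n => Subtype.ext (by
      funext p q
      change P.j1 (s • m.1 p.1 q.1) * P.j2 (n.1 p.2 q.2) =
        s • (P.j1 (m.1 p.1 q.1) * P.j2 (n.1 p.2 q.2))
      rw [map_smul, smul_mul_assoc]))
    (fun m n n' => Subtype.ext (by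
      funext p q
      change P.j1 (m.1 p.1 q.1) * P.j2 (n.1 p.2 q.2 + n'.1 p.2 q.2) =
        P.j1 (m.1 p.1 q.1) * P.j2 (n.1 p.2 q.2) + P.j1 (m.1 p.1 q.1) * P.j2 (n'.1 p.2 q.2)
      rw [map_add, mul_add]))
    (fun s m n => Subtype.ext (by
      funext p q
      change P.j1 (m.1 p.1 q.1) * P.j2 (s • n.1 p.2 q.2) =
        s • (P.j1 (m.1 p.1 q.1) * P.j2 (n.1 p.2 q.2))
      rw [map_smul, mul_smul_comm])))

theorem krF_tmul (c : Ch k) (m : EM P.D1 (cF c)) (n : EM P.D2 (cF c)) :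
    krF P c (m ⊗ₜ[k] n) =
      (⟨fun p q : II => P.j1 (m.1 p.1 q.1) * P.j2 (n.1 p.2 q.2), kr_mem P m n⟩ : (WL P).N c) :=
  TensorProduct.lift.tmul m n

/-- PROOF. `Dg.tensor_degMap` with `n = 0` (both factors are concentrated in degree `0`:
`Dg.conc_cases`, `Dg.conc_deg`). -/
theorem krF_deg (c : Ch k) {i : ℤ} {x : EM P.D1 (cF c) ⊗[k] EM P.D2 (cF c)}
    (hx : ((ring k (EM P.D1 (cF c))).tensor (ring k (EM P.D2 (cF c)))).dg.IsDeg i x) :
    (Dg.conc k ((WL P).N c)).IsDeg i (krF P c x) := by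
  have h := Dg.tensor_degMap (X := Dg.conc k (EM P.D1 (cF c))) (Y := Dg.conc k (EM P.D2 (cF c)))
    (Z := Dg.conc k ((WL P).N c)) (n := 0) (krF P c) (fun i j v w hv hw => by
      rcases Dg.conc_cases hv with rfl | rfl
      · rcases Dg.conc_cases hw with rfl | rfl
        · exact Dg.conc_deg _
        · rw [TensorProduct.tmul_zero, map_zero]
          exact Dg.IsDeg.zero _
      · rw [TensorProduct.zero_tmul, map_zero]
        exact Dg.IsDeg.zero _) hx
  rwa [add_zero] at h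

/-- PROOF. The differential of the tensor product is zero (`Dg.tensor_d`, induction). -/
theorem kr_d (c : Ch k) (x : EM P.D1 (cF c) ⊗[k] EM P.D2 (cF c)) :
    (0 : (WL P).N c) = krF P c (((ring k (EM P.D1 (cF c))).tensor
      (ring k (EM P.D2 (cF c)))).dg.d x) := by
  have h : ((Dg.conc k (EM P.D1 (cF c))).tensor (Dg.conc k (EM P.D2 (cF c)))).d x = 0 := by
    induction x using TensorProduct.induction_on with
    | zero => exact map_zero _
    | add x y hx hy => rw [map_add, hx, hy, add_zero]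
    | tmul a b =>
      rw [Dg.tensor_d]
      change (0 : EM P.D1 (cF c)) ⊗ₜ[k] b + _ ⊗ₜ[k] (0 : EM P.D2 (cF c)) = 0
      rw [TensorProduct.zero_tmul, TensorProduct.tmul_zero, add_zero]
  have h1 : krF P c (((Dg.conc k (EM P.D1 (cF c))).tensor (Dg.conc k (EM P.D2 (cF c)))).d x) =
      0 := by rw [h, map_zero]
  exact h1.symm

/-- PROOF. `(1 p.1 q.1) * (1 p.2 q.2)` is `1` if `p = q` and `0` otherwise. -/
theorem kr_one (c : Ch k) : krF P c ((1 : EM P.D1 (cF c)) ⊗ₜ[k] (1 : EM P.D2 (cF c))) =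
    (W0sh P).one c := by
  rw [krF_tmul]
  refine Subtype.ext ?_
  funext p q
  change P.j1 ((1 : Matrix (Fin 2) (Fin 2) P.D1.L) p.1 q.1) *
    P.j2 ((1 : Matrix (Fin 2) (Fin 2) P.D2.L) p.2 q.2) = if p = q then 1 else 0
  rw [Matrix.one_apply, Matrix.one_apply]
  by_cases h1 : p.1 = q.1
  · by_cases h2 : p.2 = q.2
    · rw [if_pos h1, if_pos h2, if_pos (Prod.ext h1 h2), map_one, map_one, one_mul]
    · rw [if_neg h2, if_neg (fun h => h2 (congrArg Prod.snd h)), map_zero, mul_zero]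
  · rw [if_neg h1, if_neg (fun h => h1 (congrArg Prod.fst h)), map_zero, zero_mul]

private theorem Theta_bil {V W U : Type u} [AddCommGroup V] [Module k V] [AddCommGroup W]
    [Module k W] [AddCommGroup U] [Module k U] (F : V ⊗[k] W →ₗ[k] U)
    (ν : V ⊗[k] W →ₗ[k] V ⊗[k] W →ₗ[k] V ⊗[k] W) (μ : U →ₗ[k] U →ₗ[k] U)
    (h : ∀ v w v' w', F (ν (v ⊗ₜ[k] w) (v' ⊗ₜ[k] w')) = μ (F (v ⊗ₜ[k] w)) (F (v' ⊗ₜ[k] w')))
    (x y : V ⊗[k] W) : F (ν x y) = μ (F x) (F y) := by
  induction x using TensorProduct.induction_on with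
  | zero => rw [LinearMap.map_zero₂, map_zero, LinearMap.map_zero₂]
  | add x x' hx hx' => rw [LinearMap.map_add₂, map_add, hx, hx', map_add, LinearMap.map_add₂]
  | tmul m n =>
    induction y using TensorProduct.induction_on with
    | zero => rw [map_zero, map_zero, map_zero]
    | add y y' hy hy' => rw [map_add, map_add, hy, hy', map_add, map_add]
    | tmul m' n' => exact h m n m' n'

/-- PROOF. Both sides are bilinear; for pure tensors the product in the tensor product of dg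
algebras is `(m ⊗ n) (m' ⊗ n') = m m' ⊗ n n'` (`DGA.tensor_mul_tmul`, the `o` of elements of
degree zero is `0`, or `kz_even`), and the claim is `∑ r : II, (j1 (m p1 r1) * j2 (n p2 r2)) * (j1
(m' r1 q1) * j2 (n' r2 q2)) = j1 (∑ r1, m p1 r1 * m' r1 q1) * j2 (∑ r2, n p2 r2 * n' r2 q2)`
(`Fintype.sum_prod_type`, `Finset.sum_mul_sum`). -/
theorem kr_mul (c : Ch k) (x y : EM P.D1 (cF c) ⊗[k] EM P.D2 (cF c)) :
    krF P c (((ring k (EM P.D1 (cF c))).tensor (ring k (EM P.D2 (cF c)))).mul x y) =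
      (W0sh P).mul c (krF P c x) (krF P c y) := by
  refine Theta_bil (krF P c) (((ring k (EM P.D1 (cF c))).tensor (ring k (EM P.D2 (cF c)))).mul)
    ((W0sh P).mul c) (fun m n m' n' => ?_) x y
  have h1 : ((ring k (EM P.D1 (cF c))).tensor (ring k (EM P.D2 (cF c)))).mul
      (m ⊗ₜ[k] n) (m' ⊗ₜ[k] n') = (m * m') ⊗ₜ[k] (n * n') :=
    kz_even (Dg.o_of_even (Dg.conc_deg n) Even.zero) m m' n'
  have h2 : krF P c ((m * m') ⊗ₜ[k] (n * n')) =
      (W0sh P).mul c (krF P c (m ⊗ₜ[k] n)) (krF P c (m' ⊗ₜ[k] n')) := by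
    rw [krF_tmul, krF_tmul, krF_tmul]
    refine Subtype.ext ?_
    funext p q
    change P.j1 ((m.1 * m'.1) p.1 q.1) * P.j2 ((n.1 * n'.1) p.2 q.2) =
      ∑ r : II, (P.j1 (m.1 p.1 r.1) * P.j2 (n.1 p.2 r.2)) *
        (P.j1 (m'.1 r.1 q.1) * P.j2 (n'.1 r.2 q.2))
    rw [Matrix.mul_apply, Matrix.mul_apply, map_sum, map_sum, Finset.sum_mul_sum,
      Fintype.sum_prod_type]
    refine Finset.sum_congr rfl fun r1 _ => Finset.sum_congr rfl fun r2 _ => ?_
    rw [map_mul, map_mul]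
    exact mul_mul_mul_comm _ _ _ _
  exact (congrArg (krF P c) h1).trans h2

/-- the comparison -/
def kr (c : Ch k) : DHom ((ring k (EM P.D1 (cF c))).tensor (ring k (EM P.D2 (cF c))))
    (ring k ((W0sh P).R c)) where
  f := krF P c
  deg := fun {i x} hx => krF_deg P c hx
  d := fun x => kr_d P c x
  one := kr_one P c
  mul := kr_mul P c

/-- PROOF. Pure tensors. -/
theorem kr_nat {c d : Ch k} (h : c ≤ d) (x : EM P.D1 (cF c) ⊗[k] EM P.D2 (cF c)) :
    (W0sh P).res h (krF P c x) = krF P d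
      (TensorProduct.map (emR P.D1 (cF_mono h)).toLinearMap (emR P.D2 (cF_mono h)).toLinearMap
        x) := by
  have e : ∀ ρ : (WL P).N c →ₗ[k] (WL P).N d, (∀ z, ρ z = (W0sh P).res h z) →
      ρ ∘ₗ krF P c = krF P d ∘ₗ TensorProduct.map (emR P.D1 (cF_mono h)).toLinearMap
        (emR P.D2 (cF_mono h)).toLinearMap := by
    intro ρ hρ
    refine TensorProduct.ext' fun m n => ?_
    rw [LinearMap.comp_apply, LinearMap.comp_apply, hρ, TensorProduct.map_tmul, krF_tmul, krF_tmul]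
    rfl
  exact LinearMap.congr_fun (e ((W0sh P).res h) fun _ => rfl) x

/-- the comparison of the presheaves -/
def theta : PAH (PA.ten (emP P.D1) (emP P.D2)) (W0sh P).pa where
  f := kr P
  nat := fun h x => kr_nat P h x

private theorem Theta_coords {L₁ L₂ : Type u} [Field L₁] [Algebra k L₁] [Field L₂] [Algebra k L₂]
    (y : Matrix (Fin 2) (Fin 2) L₁ ⊗[k] Matrix (Fin 2) (Fin 2) L₂)
    (h : ∀ p q : II, TensorProduct.map (Matrix.entryLinearMap k L₁ p.1 q.1)
      (Matrix.entryLinearMap k L₂ p.2 q.2) y = 0) : y = 0 := by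
  have key : ∀ y : Matrix (Fin 2) (Fin 2) L₁ ⊗[k] Matrix (Fin 2) (Fin 2) L₂,
      y = ∑ p : II, ∑ q : II, TensorProduct.map (Matrix.singleLinearMap k p.1 q.1)
        (Matrix.singleLinearMap k p.2 q.2) (TensorProduct.map (Matrix.entryLinearMap k L₁ p.1 q.1)
          (Matrix.entryLinearMap k L₂ p.2 q.2) y) := by
    intro y
    induction y using TensorProduct.induction_on with
    | zero => simp
    | add y z hy hz =>
      simp only [map_add, Finset.sum_add_distrib]
      rw [← hy, ← hz]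
    | tmul m n =>
      simp only [TensorProduct.map_tmul]
      have e1 : m = ∑ i, ∑ j, Matrix.single i j (m i j) := Matrix.matrix_eq_sum_single m
      have e2 : n = ∑ i, ∑ j, Matrix.single i j (n i j) := Matrix.matrix_eq_sum_single n
      rw [Fintype.sum_prod_type]
      simp only [Fintype.sum_prod_type]
      change m ⊗ₜ[k] n = ∑ p1 : Fin 2, ∑ p2 : Fin 2, ∑ q1 : Fin 2, ∑ q2 : Fin 2,
        Matrix.single p1 q1 (m p1 q1) ⊗ₜ[k] Matrix.single p2 q2 (n p2 q2)
      conv_lhs => rw [e1, e2]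
      simp only [Fin.sum_univ_two, TensorProduct.add_tmul, TensorProduct.tmul_add]
      abel
  rw [key y]
  refine Finset.sum_eq_zero fun p _ => Finset.sum_eq_zero fun q _ => ?_
  rw [h, map_zero]

private theorem Theta_inj (c : Ch k) : Function.Injective (krF P c) := by
  rw [injective_iff_map_eq_zero]
  intro x hx
  have hinj : Function.Injective (TensorProduct.map (EM P.D1 (cF c)).val.toLinearMap
      (EM P.D2 (cF c)).val.toLinearMap) :=
    TensorProduct.map_injective_of_flat_flat _ _ Subtype.val_injective Subtype.val_injective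
  refine hinj ?_
  rw [map_zero]
  refine Theta_coords _ fun p q => ?_
  refine P.jj_inj ?_
  rw [map_zero]
  have h1 : ∀ x : EM P.D1 (cF c) ⊗[k] EM P.D2 (cF c),
      P.jj (TensorProduct.map (Matrix.entryLinearMap k P.D1.L p.1 q.1)
        (Matrix.entryLinearMap k P.D2.L p.2 q.2) (TensorProduct.map
        (EM P.D1 (cF c)).val.toLinearMap (EM P.D2 (cF c)).val.toLinearMap x)) =
        (krF P c x).1 p q := by
    intro x
    induction x using TensorProduct.induction_on with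
    | zero =>
      rw [map_zero, map_zero, map_zero, map_zero]
      rfl
    | add x y hx hy =>
      rw [map_add, map_add, map_add, hx, hy, map_add]
      rfl
    | tmul m n =>
      rw [TensorProduct.map_tmul, TensorProduct.map_tmul, P.jj_tmul, krF_tmul]
      rfl
  rw [h1, hx]
  rfl

private theorem Theta_single (c : Ch k) (p q : II) {w : P.M}
    (hw : w ∈ P.PP (cF c) (cF c) (p.d1 - q.d1) (p.d2 - q.d2)) :
    ∃ y : EM P.D1 (cF c) ⊗[k] EM P.D2 (cF c), ∀ p' q' : II,
      (krF P c y).1 p' q' = if p' = p ∧ q' = q then w else 0 := by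
  have hw' : w ∈ (OA P.D1 (cF c) (p.d1 - q.d1)).map P.j1.toLinearMap *
    (OA P.D2 (cF c) (p.d2 - q.d2)).map P.j2.toLinearMap := hw
  clear hw
  induction hw' using Submodule.mul_induction_on' with
  | mem_mul_mem f hf g hg =>
    obtain ⟨f, hf, rfl⟩ := hf
    obtain ⟨g, hg, rfl⟩ := hg
    have h1 : Matrix.single p.1 q.1 f ∈ EM P.D1 (cF c) := by
      intro p' q'
      rw [Matrix.single_apply]
      split_ifs with h
      · rw [← h.1, ← h.2]
        exact hf
      · exact Submodule.zero_mem _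
    have h2 : Matrix.single p.2 q.2 g ∈ EM P.D2 (cF c) := by
      intro p' q'
      rw [Matrix.single_apply]
      split_ifs with h
      · rw [← h.1, ← h.2]
        exact hg
      · exact Submodule.zero_mem _
    refine ⟨(⟨_, h1⟩ : EM P.D1 (cF c)) ⊗ₜ[k] (⟨_, h2⟩ : EM P.D2 (cF c)), fun p' q' => ?_⟩
    rw [krF_tmul]
    change P.j1 (Matrix.single p.1 q.1 f p'.1 q'.1) * P.j2 (Matrix.single p.2 q.2 g p'.2 q'.2) = _
    rw [Matrix.single_apply, Matrix.single_apply]
    by_cases h : p' = p ∧ q' = q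
    · obtain ⟨rfl, rfl⟩ := h
      rw [if_pos ⟨rfl, rfl⟩, if_pos ⟨rfl, rfl⟩, if_pos ⟨rfl, rfl⟩]
      rfl
    · rw [if_neg h]
      by_cases h3 : p.1 = p'.1 ∧ q.1 = q'.1
      · have h4 : ¬ (p.2 = p'.2 ∧ q.2 = q'.2) := fun h4 =>
          h ⟨Prod.ext h3.1.symm h4.1.symm, Prod.ext h3.2.symm h4.2.symm⟩
        rw [if_neg h4, map_zero, mul_zero]
      · rw [if_neg h3, map_zero, zero_mul]
  | add y z _ _ hy hz =>
    obtain ⟨y1, e1⟩ := hy
    obtain ⟨y2, e2⟩ := hz
    refine ⟨y1 + y2, fun p' q' => ?_⟩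
    have e3 : (krF P c (y1 + y2)).1 p' q' = (krF P c y1).1 p' q' + (krF P c y2).1 p' q' := by
      rw [map_add]
      rfl
    rw [e3, e1, e2]
    split_ifs
    · rfl
    · exact add_zero _

/-- PROOF. Let `a = cF c`; it is nonempty and `c.1 = xx '' a` (`cF_nonempty`, `cF_image`).
Injective: the composition of `krF` with the inclusion into `II → II → M` is the composition of
the injective map `EM D1 a ⊗ EM D2 a → Mat L₁ ⊗ Mat L₂` (flatness over the field `k`), of the
isomorphism of `Mat L₁ ⊗ Mat L₂` with the matrices with entries in `L₁ ⊗ L₂` (the entry `(p, q)`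
is `(pr_{p1 q1} ⊗ pr_{p2 q2})`; an element of `(J → L₁) ⊗ (J' → L₂)` all of whose coordinates in
`L₁ ⊗ L₂` are zero is zero, for finite `J`, `J'`: write it as the sum over `j, j'` of `(single_j ⊗
single_j') (pr_j ⊗ pr_j')`) and of `jj` on the entries (`jj_inj`). Surjective: by `mem_co` every
entry of an element of `(WL P).N c` is a sum of products `j1 f * j2 g`, `f ∈ OA D1 a (p1 - q1)`,
`g ∈ OA D2 a (p2 - q2)`; such a matrix with a single nonzero entry is the image of `(single p1 q1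
f) ⊗ (single p2 q2 g)` (`PP` is a product of submodules: `Submodule.mul_induction_on`). -/
theorem krF_bij (c : Ch k) (hc : c.1 ⊆ Set.range (xx k)) : Function.Bijective (krF P c) := by
  refine ⟨Theta_inj P c, fun z => ?_⟩
  have h1 : ∀ p q : II, ∃ y : EM P.D1 (cF c) ⊗[k] EM P.D2 (cF c), ∀ p' q' : II,
      (krF P c y).1 p' q' = if p' = p ∧ q' = q then z.1 p q else 0 := fun p q =>
    Theta_single P c p q ((P.mem_co (cF c) (cF_nonempty hc) c (cF_image hc) _ _ _).1 (z.2 p q))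
  choose Y hY using h1
  refine ⟨∑ p, ∑ q, Y p q, Subtype.ext ?_⟩
  funext p' q'
  have h2 : (krF P c (∑ p, ∑ q, Y p q)).1 p' q' = ∑ p, ∑ q, (krF P c (Y p q)).1 p' q' := by
    let ev : (WL P).N c →ₗ[k] P.M :=
      { toFun := fun z => z.1 p' q', map_add' := fun _ _ => rfl, map_smul' := fun _ _ => rfl }
    change (ev ∘ₗ krF P c) (∑ p, ∑ q, Y p q) = ∑ p, ∑ q, (ev ∘ₗ krF P c) (Y p q)
    rw [map_sum]
    exact Finset.sum_congr rfl fun p _ => map_sum _ _ _
  rw [h2]
  simp only [hY]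
  rw [Finset.sum_eq_single p', Finset.sum_eq_single q']
  · rw [if_pos ⟨rfl, rfl⟩]
  · intro b _ hb
    rw [if_neg (fun h => hb h.2.symm)]
  · intro h
    exact absurd (Finset.mem_univ _) h
  · intro b _ hb
    refine Finset.sum_eq_zero fun q _ => ?_
    rw [if_neg (fun h => hb h.1.symm)]
  · intro h
    exact absurd (Finset.mem_univ _) h

end Pool.Agent.MP_6e5bed_ag_PS
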