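import Pool.Agent.Lib.MP_6e5bed_ag_PS.Phi
import Pool.Agent.Lib.MP_6e5bed_ag_PS.TbOne
import Pool.Agent.Lib.MP_6e5bed_ag_PS.DistTb
import Pool.Agent.Lib.MP_6e5bed_ag_NS.Ex

set_option autoImplicit false
set_option linter.unusedVariables false

/-!
# MP_6e5bed_ag, NC PRODUCT SURFACES: the comparison map with the left action
-/

noncomputable section

namespace Pool.Agent.MP_6e5bed_ag_PS

open Pool.Agent.MP_6e5bed_ag_NC
open Pool.Agent.MP_6e5bed_ag_NS
open scoped TensorProduct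

universe u

variable {k : Type u} [Field k] {P : PD k} {A B B' C : ASh k}
variable {G : MG P A B} {G' : MG P B' C} {N : BLat G.toMSp} {N' : BLat G'.toMSp}

/-- the identity of the underlying presheaf -/
def xid (h : StL G N) : PCH (Xs h).toShf.pc (Xo N).toShf.pc := PCH.id (XL N).sh.pc

/-- the identity of the underlying presheaf -/
def qid (h : StL G N) (h' : StR G' N') : PCH (Qs h h').toShf.pc (Qo N h').toShf.pc :=
  PCH.id (QL N N').sh.pc

/-- the comparison map, with the left action -/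
def PhiL (h : StL G N) (h' : StR G' N') {Zt : Bim (TT (W0sh P)) (TT C)}
    (ζ : GMap 0 Zt (BB (Zs h'))) : GMap 0 (tb (BB (Xs h)) Zt) (BB (Qs h h')) :=
  (ζ.tbL (BB (Xs h))).comp (xzq h h').cup (add_zero 0)

private theorem Trans_dd {A W C : DGA k} {X : Bim A W} {Zt Z : Bim W C} {Q : Bim A C}
    (ζ : GMap 0 Zt Z) (hζ : ζ.dd = 0) (F : GMap 0 (tb X Z) Q) (hF : F.dd = 0) :
    ((ζ.tbL X).comp F (add_zero 0)).dd = 0 := by
  refine LinearMap.ext fun x => ?_
  have h1 : (ζ.tbL X).dd = 0 := (MP_6e5bed_ag_NC.tbL X C).closed hζ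
  refine (GMap.dd_comp (ζ.tbL X) F (add_zero 0) x).trans ?_
  rw [h1, hF]
  simp only [LinearMap.zero_apply, map_zero, smul_zero, add_zero]

private theorem Trans_key {A A' W C : DGA k} {X : Bim A W} {X' : Bim A' W} {Zt Z : Bim W C}
    {Q : Bim A C} {Q' : Bim A' C} (ζ : GMap 0 Zt Z) (F : GMap 0 (tb X Z) Q)
    (F' : GMap 0 (tb X' Z) Q') (a : X.M →ₗ[k] X'.M) (d : Q.M →ₗ[k] Q'.M)
    (t : (tb X Zt).M →ₗ[k] (tb X' Zt).M) (ht : ∀ x z, t (tm x z) = tm (a x) z)
    (hc : ∀ x z, d (F.f (tm x z)) = F'.f (tm (a x) z)) (w : (tb X Zt).M) :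
    d (F.f ((ζ.tbL X).f w)) = F'.f ((ζ.tbL X').f (t w)) := by
  refine tb_ind (P := fun w => d (F.f ((ζ.tbL X).f w)) = F'.f ((ζ.tbL X').f (t w))) ?_ ?_ ?_ w
  · simp only [map_zero]
  · intro x y hx hy
    simp only [map_add]
    rw [hx, hy]
  · intro x z
    rw [GMap.tbL_tm, ht, GMap.tbL_tm, Dg.sp_zero, Dg.sp_zero]
    exact hc x (ζ.f z)

/-- the general statement -/
private theorem Trans_abs {A A' W C : DGA k} {X : Bim A W} {X' : Bim A' W} {Zt Z : Bim W C}
    {Q : Bim A C} {Q' : Bim A' C} (ζ : GMap 0 Zt Z) (hζ : ζ.dd = 0) (F : GMap 0 (tb X Z) Q)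
    (hF : F.dd = 0) (F' : GMap 0 (tb X' Z) Q') (hF' : F'.dd = 0)
    (α : CHom (bcx X) (bcx X')) (δ : CHom (bcx Q) (bcx Q'))
    (hr : ∀ w x, α.f (X.r w x) = X'.r w (α.f x)) (hα : Function.Bijective α.f)
    (hδ : Function.Bijective δ.f) (hc : ∀ x z, δ.f (F.f (tm x z)) = F'.f (tm (α.f x) z))
    (hq : QIso ((ζ.tbL X').comp F' (add_zero 0))) :
    QIso ((ζ.tbL X).comp F (add_zero 0)) := by
  obtain ⟨θ, hθ, ht⟩ := tb_left_bij α hr hα Zt
  have hd := Trans_dd ζ hζ F hF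
  have hd' := Trans_dd ζ hζ F' hF'
  have key : ∀ w : (tb X Zt).M, δ.f (F.f ((ζ.tbL X).f w)) = F'.f ((ζ.tbL X').f (θ.f w)) :=
    fun w => Trans_key ζ F F' α.f δ.f θ.f ht hc w
  refine (gc_qi _ hd).1 ?_
  have h1 : (θ.comp (gc _ hd')).QI := (CHom.QI.of_bij hθ).comp ((gc_qi _ hd').2 hq)
  exact CHom.QI.of_right (f := gc _ hd) (g := δ) (h := θ.comp (gc _ hd')) key
    (CHom.QI.of_bij hδ) h1

/-- the identity of the complexes -/
private def Trans_a (h : StL G N) : CHom (bcx (BB (Xs h))) (bcx (BB (Xo N))) :=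
  (cH (xid h) (FF k)).g (FS.e k)

private def Trans_d (h : StL G N) (h' : StR G' N') :
    CHom (bcx (BB (Qs h h'))) (bcx (BB (Qo N h'))) :=
  (cH (qid h h') (FF k)).g (FS.e k)

private theorem Trans_a_id (h : StL G N) (x : (BB (Xs h)).M) : (Trans_a h).f x = x :=
  cH_id (XL N).sh.pc (FF k) (FS.e k) x

private theorem Trans_d_id (h : StL G N) (h' : StR G' N') (x : (BB (Qs h h')).M) :
    (Trans_d h h').f x = x :=
  cH_id (QL N N').sh.pc (FF k) (FS.e k) x

private theorem Trans_r (h : StL G N) (w : (TT (W0sh P)).A) (x : (BB (Xs h)).M) :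
    (Trans_a h).f ((BB (Xs h)).r w x) = (BB (Xo N)).r w ((Trans_a h).f x) := by
  refine (cH_mul (p := (Xs h).pb.pr) (q := (Xo N).pb.pr) (xid h) (PCH.id _) (xid h)
    (fun c x y => rfl) (FF k) (FS.e k) x w).trans ?_
  exact congrArg (((cP (Xo N).pb.pr (FF k)).q (FS.e k)).m _) (cH_id _ (FF k) (FS.e k) w)

private theorem Trans_c (h : StL G N) (h' : StR G' N') (x : (BB (Xs h)).M)
    (z : (BB (Zs h')).M) :
    (Trans_d h h').f ((xzq h h').cup.f (tm x z)) =
      (xzo N h').cup.f (tm ((Trans_a h).f x) z) := by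
  refine (congrArg (Trans_d h h').f (ShPr.cup_tm (xzq h h') x z)).trans ?_
  refine Eq.trans ?_ (ShPr.cup_tm (xzo N h') ((Trans_a h).f x) z).symm
  refine (cH_mul (p := (xzq h h').pp) (q := (xzo N h').pp) (xid h) (PCH.id _) (qid h h')
    (fun c x y => rfl) (FF k) (FS.e k) x z).trans ?_
  exact congrArg (((cP (xzo N h').pp (FF k)).q (FS.e k)).m _) (cH_id _ (FF k) (FS.e k) z)

/-- The comparison map is a quasi-isomorphism if the one without left action is.

PROOF. Let `α = (cH (xid h) (FF k)).g (FS.e k)` and `δ = (cH (qid h h') (FF k)).g (FS.e k)`, as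
morphisms from the complexes of `BB (Xs h)` and `BB (Qs h h')` to those of `BB (Xo N)` and
`BB (Qo N h')`: both are the identity of the underlying complexes (`cH_id`), so bijective. `α` is
compatible with the right action of `TT W` by `cH_mul` (for `(Xs h).pb.pr`, `(Xo N).pb.pr`, with
`xid h`, `PCH.id`, `xid h`; on a chart the right actions are equal by `rfl`) and `cH_id`. Let `θ` be
the map of `tb_left_bij` for `α` and `Zt`. By `tb_ind`
`δ.f ((PhiL h h' ζ).f w) = (phiC h' hζ N).f (θ.f w)`: on `tm x z` the left-hand side is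
`δ (cup x (ζ z))` (`GMap.tbL_tm`, `Dg.sp_zero`, `ShPr.cup_tm`), which is `cup (α x) (ζ z)` by
`cH_mul`
(for `(xzq h h').pp`, `(xzo N h').pp`, with `xid h`, `PCH.id`, `qid h h'`; on a chart both
pairings are
`xzm N N' c`), and the right-hand side is `phi_tm`. Closedness of `PhiL`: as `phi_dd`
(`(xzq h h').cup_dd` and `DGFun.closed`). Conclude with `CHom.QI.of_bij`, `CHom.QI.comp`,
`CHom.QI.of_right` and `gc_qi`. -/
theorem trans_qi (h : StL G N) (h' : StR G' N') {Zt : Bim (TT (W0sh P)) (TT C)}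
    {ζ : GMap 0 Zt (BB (Zs h'))} (hζ : ζ.dd = 0) (hq : (phiC h' hζ N).QI) :
    QIso (PhiL h h' ζ) := by
  refine Trans_abs (X := BB (Xs h)) (X' := BB (Xo N)) (Q := BB (Qs h h')) (Q' := BB (Qo N h')) ζ hζ
    (xzq h h').cup (xzq h h').cup_dd (xzo N h').cup (xzo N h').cup_dd (Trans_a h)
    (Trans_d h h') (Trans_r h) ?_ ?_ (Trans_c h h') ?_
  · exact ⟨fun x y hxy => by
      rw [Trans_a_id, Trans_a_id] at hxy
      exact hxy, fun y => ⟨y, Trans_a_id h y⟩⟩
  · exact ⟨fun x y hxy => by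
      rw [Trans_d_id, Trans_d_id] at hxy
      exact hxy, fun y => ⟨y, Trans_d_id h h' y⟩⟩
  · exact (gc_qi _ (phi_dd h' hζ N)).1 hq

end Pool.Agent.MP_6e5bed_ag_PS
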