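import Pool.Agent.Lib.MP_6e5bed_ag_PS.BaseQ
import Pool.Agent.Lib.MP_6e5bed_ag_PS.GenB

set_option autoImplicit false
set_option linter.unusedVariables false

/-!
# MP_6e5bed_ag, NC PRODUCT SURFACES: the comparison map is a quasi-isomorphism for all lattices
-/

noncomputable section

namespace Pool.Agent.MP_6e5bed_ag_PS

open Pool.Agent.MP_6e5bed_ag_NC
open Pool.Agent.MP_6e5bed_ag_NS
open scoped TensorProduct

universe u

variable {k : Type u} [Field k] {P : PD k} {B' C : ASh k} {G' : MG P B' C} {N' : BLat G'.toMSp}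
  (h' : StR G' N') (hF : FlatB N') {Zt : Bim (TT (W0sh P)) (TT C)} {ζ : GMap 0 Zt (BB (Zs h'))}
  (hζ : ζ.dd = 0) (hq : QIso ζ) (hZ : Perf Zt)

theorem phi_fr {J : Type} [Fintype J] [DecidableEq J] (d e : J → ℤ)
    (h : ∀ j, (phiC h' hζ (P.OB.bt (d j) (e j))).QI) : (phiC h' hζ (P.fr d e)).QI :=
  phi_sum h' hζ (Vj := fun _ => P.self) (Nj := fun j => P.OB.bt (d j) (e j)) (i := P.inJ)
    (p := P.prJ) (P.inJ_map d e) (P.prJ_map d e) P.sum_inJ h

include hq in
theorem phi_II (p : II) : (phiC h' hζ (P.OB.bt p.d1 p.d2)).QI :=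
  phi_retract h' hζ (P.inJ_map II.d1 II.d2 p) (P.prJ_map II.d1 II.d2 p) (P.prJ_inJ p)
    (base_phi h' hζ hq)

theorem line_ind {f : ℤ → Prop} (h0 : f 0) (h1 : f 1) (hr : ∀ i, f (i - 1) → f i → f (i + 1))
    (hl : ∀ i, f i → f (i + 1) → f (i - 1)) (i : ℤ) : f i := by
  have h : ∀ n : ℕ, f n ∧ f (n + 1) := by
    intro n
    induction n with
    | zero => exact ⟨h0, by simpa using h1⟩
    | succ n ih =>
      refine ⟨by push_cast; exact ih.2, ?_⟩
      have h2 := hr (n + 1) (by simpa using ih.1) ih.2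
      push_cast
      exact h2
  have h' : ∀ n : ℕ, f (-n) ∧ f (-n + 1) := by
    intro n
    induction n with
    | zero => exact ⟨by simpa using h0, by simpa using h1⟩
    | succ n ih =>
      have e1 : (-((n + 1 : ℕ) : ℤ)) = -(n : ℤ) - 1 := by push_cast; ring
      rw [e1, sub_add_cancel]
      exact ⟨hl _ ih.1 ih.2, ih.1⟩
  rcases Int.eq_nat_or_neg i with ⟨n, rfl | rfl⟩
  · exact (h n).1
  · exact (h' n).1

include hF hq hZ in
theorem phi_OB (i j : ℤ) : (phiC h' hζ (P.OB.bt i j)).QI := by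
  have key : ∀ j, (phiC h' hζ (P.OB.bt 0 j)).QI → (phiC h' hζ (P.OB.bt 1 j)).QI →
      ∀ i, (phiC h' hζ (P.OB.bt i j)).QI := by
    intro j h0 h1
    refine line_ind (f := fun i => (phiC h' hζ (P.OB.bt i j)).QI) h0 h1 ?_ ?_
    · intro i h2 h3
      obtain ⟨S⟩ := kosz1 P i j
      exact phi_right h' hζ S hF hZ h2 (phi_fr h' hζ _ _ fun _ => h3)
    · intro i h2 h3
      obtain ⟨S⟩ := kosz1 P i j
      exact phi_left h' hζ S hF hZ (phi_fr h' hζ _ _ fun _ => h2) h3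
  have key' : ∀ i, (phiC h' hζ (P.OB.bt i 0)).QI → (phiC h' hζ (P.OB.bt i 1)).QI →
      ∀ j, (phiC h' hζ (P.OB.bt i j)).QI := by
    intro i h0 h1
    refine line_ind (f := fun j => (phiC h' hζ (P.OB.bt i j)).QI) h0 h1 ?_ ?_
    · intro j h2 h3
      obtain ⟨S⟩ := kosz2 P i j
      exact phi_right h' hζ S hF hZ h2 (phi_fr h' hζ _ _ fun _ => h3)
    · intro j h2 h3
      obtain ⟨S⟩ := kosz2 P i j
      exact phi_left h' hζ S hF hZ (phi_fr h' hζ _ _ fun _ => h2) h3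
  have h00 : (phiC h' hζ (P.OB.bt 0 0)).QI := phi_II h' hζ hq (0, 0)
  have h01 : (phiC h' hζ (P.OB.bt 0 1)).QI := phi_II h' hζ hq (0, 1)
  have h10 : (phiC h' hζ (P.OB.bt 1 0)).QI := phi_II h' hζ hq (1, 0)
  have h11 : (phiC h' hζ (P.OB.bt 1 1)).QI := phi_II h' hζ hq (1, 1)
  exact key' i (key 0 h00 h10 i) (key 1 h01 h11 i) j

theorem ub_BB {A B : ASh k} (M : BSh A B) : Ub (bcx (BB M)) 2 := ub_cc M.toShf

theorem pa_pc (A : ASh k) : A.pa.pc = A.toShf.pc := rfl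

theorem ub_TT (A : ASh k) : Ub (acx (TT A)) 2 := by
  have h : Ub ((cC A.pa.pc (FF k)).X (FS.e k)) 2 := by
    rw [pa_pc]
    exact ub_cc A.toShf
  exact h

include hF hq hZ in
theorem phi_all {V : MSp P} (N : BLat V) : (phiC h' hζ N).QI := by
  obtain ⟨D, hD⟩ := bound_tb (A := TT (OSh k)) (ub_TT C) 2 hZ
  have h0 : ∀ (V : MSp P) (N : BLat V) (i : ℤ), max D 2 < i →
      SJ (phiC h' hζ N) i ∧ IJ (phiC h' hζ N) i := by
    intro V N i hi
    refine sj_of_ub (phiC h' hζ N) (D := max D 2) ?_ ?_ hi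
    · intro j hj
      exact hD (BB (Xo N)) (ub_BB (Xo N)) j (by omega)
    · intro j hj
      exact ub_BB (Qo N h') j (by omega)
  have key : ∀ n : ℕ, ∀ (V : MSp P) (N : BLat V),
      SJ (phiC h' hζ N) (max D 2 + 1 - n) ∧ IJ (phiC h' hζ N) (max D 2 + 1 - n + 1) := by
    intro n
    induction n with
    | zero =>
      intro V N
      exact ⟨(h0 V N _ (by push_cast; omega)).1, (h0 V N _ (by push_cast; omega)).2⟩
    | succ n ih =>
      intro V N
      obtain ⟨r, m, V1, N1, ⟨S⟩⟩ := exists_fr N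
      have h1 := ih V1 N1
      have e1 : max D 2 + 1 - ((n + 1 : ℕ) : ℤ) + 1 = max D 2 + 1 - n := by push_cast; ring
      have e2 : max D 2 + 1 - ((n + 1 : ℕ) : ℤ) + 2 = max D 2 + 1 - n + 1 := by push_cast; ring
      refine phi_four h' hζ S hF hZ
        (phi_fr h' hζ _ _ fun _ => phi_OB h' hF hζ hq hZ m m) ?_ ?_
      · rw [e1]
        exact h1.1
      · rw [e2]
        exact h1.2
  rw [qi_iff]
  intro i
  constructor
  · by_cases hi : i ≤ max D 2 + 1
    · obtain ⟨n, hn⟩ : ∃ n : ℕ, i = max D 2 + 1 - n :=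
        ⟨(max D 2 + 1 - i).toNat, by omega⟩
      rw [hn]
      exact (key n V N).1
    · exact (h0 V N i (by omega)).1
  · by_cases hi : i ≤ max D 2 + 2
    · obtain ⟨n, hn⟩ : ∃ n : ℕ, i = max D 2 + 1 - n + 1 :=
        ⟨(max D 2 + 2 - i).toNat, by omega⟩
      rw [hn]
      exact (key n V N).2
    · exact (h0 V N i (by omega)).2

end Pool.Agent.MP_6e5bed_ag_PS
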