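import Pool.Agent.Lib.MP_6e5bed_ag_PS.Trans
import Pool.Agent.Lib.MP_6e5bed_ag_PS.WayOut
import Pool.Agent.Lib.MP_6e5bed_ag_PS.W0g
import Pool.Agent.Lib.MP_6e5bed_ag_PS.SerM
import Pool.Agent.Lib.MP_6e5bed_ag_PS.StLoc
import Pool.Agent.Lib.MP_6e5bed_ag_PS.HullB
import Pool.Agent.Lib.MP_6e5bed_ag_NS.MainA
import Pool.Agent.Lib.MP_6e5bed_ag_CV.JTrans

set_option autoImplicit false
set_option linter.unusedVariables false

/-!
# MP_6e5bed_ag, NC PRODUCT SURFACES: the main theorem
-/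

noncomputable section

namespace Pool.Agent.MP_6e5bed_ag_PS

open Pool.Agent.MP_6e5bed_ag_NC
open Pool.Agent.MP_6e5bed_ag_NS
open scoped TensorProduct

universe u

variable {k : Type u} [Field k]

/-- The class of the tensor product over the product surface. -/
theorem cup_cls [IsAlgClosed k] {Good : DGA k → Prop} (hG : ∀ X, IsProdC X → Good X) {A : ASh k}
    (hS : Smooth (TT A)) {P : PD k} {G G' : MG P A A} {N : BLat G.toMSp} {N' : BLat G'.toMSp}
    (h : StL G N) (h' : StR G' N') (hF : FlatB N') (hr : HasRes (BB (Qs h h'))) :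
    rcls _ hr ∈ JS Good (TT A) := by
  obtain ⟨sW, pW, hW⟩ := spj_W0 P hG
  obtain ⟨Zt, ζ, hZt, hζ⟩ : HasRes (BB (Zs h')) :=
    HasRes.of_finCoh sW hS _ (genT_fc G'.gz (gz_st h') (fin_gen G'.gz (ZL N')))
  obtain ⟨Xt, ξ, hXt, hξ⟩ : HasRes (BB (Xs h)) :=
    HasRes.of_finCoh hS sW _ (genT_fc G.gx (gx_st h) (fin_gen G.gx (XL N)))
  have q1 : QIso (ξ.tbR Zt) := (((rqiso_iff ξ).2 hξ).tbR hZt).qiso
  have q2 : QIso (PhiL h h' ζ) := trans_qi h h' hζ.1 (phi_all h' hF hζ.1 hζ hZt N)
  rw [rcls_eq hr (Perf.tb pW hXt hZt) _ (q1.comp q2), ← K0Q.comp_cls pW hXt hZt]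
  exact JS.trans (Good := fun X => X = W0 P) (TT A)
    (fun X hX => by subst hX; exact ⟨sW, pW, hW⟩)
    (JS.comp (Good := fun X => X = W0 P) (X := W0 P) pW rfl (cls Xt hXt) (cls Zt hZt))

/-- The class of a simple generic bimodule whose centre embeds in the function field of a product
surface is zero. -/
theorem simple_zeroP [IsAlgClosed k] {Good : DGA k → Prop} (hG : ∀ X, IsProdC X → Good X)
    {A : ASh k} (hS : Smooth (TT A)) (hJ : TorsC (JS Good (TT A))) {G : Gen A A} (hs : G.Simple)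
    (P : PD k) (φ : Zc G →ₐ[KK k] P.M) {N : Lat k G.E} (hN : G.St N) :
    IsC (JS Good (TT A)) G 0 := by
  obtain ⟨V, ι, hι, hl, hr, n, hn, ser⟩ := ser_M hs P φ
  obtain ⟨N1, hN1⟩ := exists_blat N V.toMSp ι hι
  have h1 : ∀ (m : Fin 3) (f : V.E →ₗ[P.M] V.E) (g : G.E → G.E), (∀ x, f (ι x) = ι (g x)) →
      (∀ x ∈ N.N (sg1 k m), g x ∈ N.N (sg1 k m)) → ∀ x ∈ N1.N (sg1 k m), f x ∈ N1.N (sg1 k m) := by
    intro m f g hf hg x hx
    rw [hN1] at hx ⊢
    induction hx using Submodule.span_induction with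
    | mem x hx =>
      obtain ⟨y, hy, rfl⟩ := hx
      rw [hf]
      exact Submodule.subset_span ⟨_, hg y hy, rfl⟩
    | zero =>
      rw [map_zero]
      exact Submodule.zero_mem _
    | add x y _ _ hx hy =>
      rw [map_add]
      exact Submodule.add_mem _ hx hy
    | smul b x _ hx =>
      have e : f (b • x) = b • f x := by
        rw [Subalgebra.smul_def, map_smul, Subalgebra.smul_def]
      rw [e]
      exact Submodule.smul_mem _ _ hx
  have hL : StL V (hull N1) := stL_of V (hull N1) fun m a x hx =>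
    hull_map N1 m (V.l _ a) (h1 m (V.l _ a) (G.l _ a) (hl _ a) fun y hy => hN.l _ a y hy) x hx
  have hR : StR V (hull N1) := stR_of V (hull N1) fun m a x hx =>
    hull_map N1 m (V.r _ a) (h1 m (V.r _ a) (G.r _ a) (hr _ a) fun y hy => hN.r _ a y hy) x hx
  have hQ : (V.ten V).gen.St (QL (hull N1) (hull N1)).toLat := gen_st (QL_stL hL) (QL_stR hR)
  have ht : HasRes (BB ((V.ten V).gen.sh (QL (hull N1) (hull N1)).toLat hQ)) := isC_res hS hQ
  have hm : rcls _ ht ∈ JS Good (TT A) := cup_cls hG hS hL hR (hull_flat N1) ht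
  have res := isC_res hS hN
  have hc : IsC (JS Good (TT A)) G (rcls _ res) :=
    ⟨N, hN, res, by rw [sub_self]; exact Submodule.zero_mem _⟩
  have h2 := IsC.ser hS hJ ser hQ hc
  have h3 : (n : ℚ) • rcls _ res ∈ JS Good (TT A) := by
    have h4 := (JS Good (TT A)).sub_mem hm (h2.eq hS hJ hQ ht)
    rwa [sub_sub_cancel] at h4
  have h5 : rcls _ res ∈ JS Good (TT A) := by
    have h6 := Submodule.smul_mem _ ((n : ℚ)⁻¹) h3
    rwa [inv_smul_smul₀ (Nat.cast_ne_zero.2 hn.ne')] at h6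
  exact hc.congr (by rw [sub_zero]; exact h5)

/-- THE MAIN THEOREM. `k` algebraically closed, `A` a coherent sheaf of algebras on the projective
plane such that the dg algebra `RΓ(P², A)` is smooth and the centres of the simple bimodules over the
generic point embed in function fields of product surfaces: the identity of `RΓ(P², A)` factors
through `k`, the dg algebras of curves and of products of two curves. -/
theorem one_mem_prod [IsAlgClosed k] {Good : DGA k → Prop} (hB : Good (base k))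
    (hC : ∀ W, IsCurve W → Smooth W ∧ Good W) (hP : ∀ X, IsProdC X → Good X) (A : ASh k)
    (hA : A.toShf.Coh) (hS : Smooth (TT A))
    (hz : ∀ G : Gen A A, G.Simple → ∃ P : PD k, Nonempty (Zc G →ₐ[KK k] P.M)) :
    K0Q.one hS ∈ JS Good (TT A) := by
  have hJ : TorsC (JS Good (TT A)) := fun τ hc ht =>
    tors_mem hB hC hS (proper_TT A hA) τ hc ht
  refine one_mem_of hB hC A hA hS fun G hs N hN => ?_
  obtain ⟨P, ⟨φ⟩⟩ := hz G hs
  exact simple_zeroP hP hS hJ hs P φ hN

end Pool.Agent.MP_6e5bed_ag_PS
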