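import Pool.Agent.Lib.MP_6e5bed_ag_PS.Gq
import Pool.Agent.Lib.MP_6e5bed_ag_PS.CupM

set_option autoImplicit false
set_option linter.unusedVariables false

/-!
# MP_6e5bed_ag, NC PRODUCT SURFACES: the pairing of `X(N)` and `Z(N')`
-/

noncomputable section

namespace Pool.Agent.MP_6e5bed_ag_PS

open Pool.Agent.MP_6e5bed_ag_NC
open Pool.Agent.MP_6e5bed_ag_NS
open scoped TensorProduct

universe u

variable {k : Type u} [Field k] {P : PD k} {A B B' C : ASh k}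
variable {G : MG P A B} {G' : MG P B' C} {N : BLat G.toMSp} {N' : BLat G'.toMSp}

/-- the pairing on a chart -/
def xzm (N : BLat G.toMSp) (N' : BLat G'.toMSp) (c : Ch k) :
    (XL N).N c →ₗ[k] (ZL N').N c →ₗ[k] (QL N N').N c :=
  LinearMap.mk₂ k (fun (x : (XL N).N c) (y : (ZL N').N c) =>
      (⟨∑ p, (x.1 p ⊗ₜ[P.M] y.1 p : G.E ⊗[P.M] G'.E), QL_pair x.2 y.2⟩ : (QL N N').N c))
    (fun x x' y => Subtype.ext (by
      change ∑ p, ((x.1 p + x'.1 p) ⊗ₜ[P.M] y.1 p : G.E ⊗[P.M] G'.E) =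
        ∑ p, (x.1 p ⊗ₜ[P.M] y.1 p : G.E ⊗[P.M] G'.E) + ∑ p, (x'.1 p ⊗ₜ[P.M] y.1 p : G.E ⊗[P.M] G'.E)
      rw [← Finset.sum_add_distrib]
      exact Finset.sum_congr rfl fun p _ => TensorProduct.add_tmul _ _ _))
    (fun s x y => Subtype.ext (by
      change ∑ p, ((s • x.1 p) ⊗ₜ[P.M] y.1 p : G.E ⊗[P.M] G'.E) =
        s • ∑ p, (x.1 p ⊗ₜ[P.M] y.1 p : G.E ⊗[P.M] G'.E)
      rw [Finset.smul_sum]
      exact Finset.sum_congr rfl fun p _ => (TensorProduct.smul_tmul' s _ _).symm))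
    (fun x y y' => Subtype.ext (by
      change ∑ p, (x.1 p ⊗ₜ[P.M] (y.1 p + y'.1 p) : G.E ⊗[P.M] G'.E) =
        ∑ p, (x.1 p ⊗ₜ[P.M] y.1 p : G.E ⊗[P.M] G'.E) + ∑ p, (x.1 p ⊗ₜ[P.M] y'.1 p : G.E ⊗[P.M] G'.E)
      rw [← Finset.sum_add_distrib]
      exact Finset.sum_congr rfl fun p _ => TensorProduct.tmul_add _ _ _))
    (fun s x y => Subtype.ext (by
      change ∑ p, (x.1 p ⊗ₜ[P.M] (s • y.1 p) : G.E ⊗[P.M] G'.E) =
        s • ∑ p, (x.1 p ⊗ₜ[P.M] y.1 p : G.E ⊗[P.M] G'.E)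
      rw [Finset.smul_sum]
      exact Finset.sum_congr rfl fun p _ => by
        rw [← IsScalarTower.algebraMap_smul P.M s, ← IsScalarTower.algebraMap_smul P.M s,
          TensorProduct.tmul_smul]))

theorem xzm_coe (N : BLat G.toMSp) (N' : BLat G'.toMSp) (c : Ch k) (x : (XL N).N c)
    (y : (ZL N').N c) : (xzm N N' c x y).1 = ∑ p, (x.1 p ⊗ₜ[P.M] y.1 p : G.E ⊗[P.M] G'.E) := rfl

/-- The pairing `⊕ N(-p) × ⊕ N'(p) → N ⊗ N'`. -/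
def xzq (h : StL G N) (h' : StR G' N') : ShPr (Xs h) (Zs h') (Qs h h') where
  m := xzm N N'
  bal := fun c w x y => Subtype.ext (by
    change ∑ q, ((∑ p, w.1 p q • x.1 p) ⊗ₜ[P.M] y.1 q : G.E ⊗[P.M] G'.E) =
      ∑ p, (x.1 p ⊗ₜ[P.M] (∑ q, w.1 p q • y.1 q) : G.E ⊗[P.M] G'.E)
    simp only [TensorProduct.sum_tmul, TensorProduct.tmul_sum, TensorProduct.tmul_smul,
      TensorProduct.smul_tmul']
    exact Finset.sum_comm)
  l := fun c a x y => Subtype.ext (by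
    change ∑ p, ((G.l c a (x.1 p)) ⊗ₜ[P.M] y.1 p : G.E ⊗[P.M] G'.E) =
      (G.l c a).rTensor G'.E (∑ p, (x.1 p ⊗ₜ[P.M] y.1 p : G.E ⊗[P.M] G'.E))
    rw [map_sum]
    exact Finset.sum_congr rfl fun p _ => (LinearMap.rTensor_tmul _ _ _ _).symm)
  r := fun c b x y => Subtype.ext (by
    change ∑ p, (x.1 p ⊗ₜ[P.M] (G'.r c b (y.1 p)) : G.E ⊗[P.M] G'.E) =
      (G'.r c b).lTensor G.E (∑ p, (x.1 p ⊗ₜ[P.M] y.1 p : G.E ⊗[P.M] G'.E))
    rw [map_sum]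
    exact Finset.sum_congr rfl fun p _ => (LinearMap.lTensor_tmul _ _ _ _).symm)
  nat := fun h x y => rfl

end Pool.Agent.MP_6e5bed_ag_PS
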